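import Pool.Agent.Q127.KI.Stm

/-!
# Job KI-GRW
-/

set_option autoImplicit false

namespace Pool.Agent.Q127.KI

private theorem grw_log (n : ℕ) (hn : 0 < n) :
    (n : ℝ) * (Real.log n - 1) ≤ Real.log (n.factorial : ℝ) := by
  have hn' : (0 : ℝ) < n := by exact_mod_cast hn
  have hf : (0 : ℝ) < (n.factorial : ℝ) := by exact_mod_cast n.factorial_pos
  have h1 := Real.pow_div_factorial_le_exp (n : ℝ) hn'.le n
  have h2 : (0 : ℝ) < (n : ℝ) ^ n / (n.factorial : ℝ) := by positivity
  have h3 := Real.log_le_log h2 h1
  rw [Real.log_exp, Real.log_div (by positivity) hf.ne', Real.log_pow] at h3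
  linarith

private theorem grw_aux (k : ℕ) : (L k : ℝ) / 8 + 2 ≤ Real.log (N k) := by
  induction k with
  | zero =>
    have h1 : (N 0 : ℝ) = 2 ^ 4 := by
      simp only [N]
      norm_num
    have h2 : (L 0 : ℝ) = 4 := by
      simp only [L]
      norm_num
    have := Real.log_two_gt_d9
    rw [h1, h2, Real.log_pow]
    push_cast
    linarith
  | succ k ih =>
    have hpos : (0 : ℝ) < N k := by exact_mod_cast N_pos k
    have hL : (0 : ℝ) < L k := by exact_mod_cast L_pos k
    have h2 : (2 : ℝ) ≤ N k := by
      have h3 := Real.log_le_sub_one_of_pos hpos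
      linarith
    have h4 := grw_log (N k) (N_pos k)
    have h5 : (N (k + 1) : ℝ) = ((N k).factorial : ℝ) := rfl
    have h6 : (L (k + 1) : ℝ) = (N k : ℝ) * L k := by
      have : L (k + 1) = N k * L k := rfl
      rw [this, Nat.cast_mul]
    rw [h5, h6]
    nlinarith

theorem grw : S_grw := by
  have hN : ∀ k, 2 ≤ N k := by
    intro k
    have h1 := grw_aux k
    have hpos : (0 : ℝ) < N k := by exact_mod_cast N_pos k
    have hL : (0 : ℝ) < L k := by exact_mod_cast L_pos k
    have h3 := Real.log_le_sub_one_of_pos hpos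
    have h2 : (2 : ℝ) ≤ N k := by linarith
    exact_mod_cast h2
  refine ⟨fun k => ?_, fun k => ?_⟩
  · have hpos : (0 : ℝ) < N k := by exact_mod_cast N_pos k
    rw [← Real.le_log_iff_exp_le hpos]
    linarith [grw_aux k]
  · induction k with
    | zero =>
      simp only [L]
      norm_num
    | succ k ih =>
      have : L (k + 1) = N k * L k := rfl
      rw [this, pow_succ, mul_comm]
      exact Nat.mul_le_mul (hN k) ih

end Pool.Agent.Q127.KI
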