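import Pool.Agent.Q16.SQ.Stm

/-! Project SQ (helper16), job RIGHT. -/

set_option autoImplicit false

open scoped BigOperators
open Pool.Agent.Helper549.Tri

namespace Pool.Agent.Q90.SQR

open Q16.SQ

/-- JOB RIGHT -/
theorem t_RIGHT (h1 : S_MATJ) (h2 : S_IDENT) : S_RIGHT := by
  intro N ℓ θ S A κ β D hN hκ
  have a0 : A 0 = θ 0 := by
    rw [D.angles 0, hκ]
    simp [Fin.sum_univ_three]
  have a1 : A 1 = θ 1 := by
    rw [D.angles 1, hκ]
    simp [Fin.sum_univ_three]
  have a2 : A 2 = θ 0 + θ 1 := by
    rw [D.angles 2, hκ]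
    simp [Fin.sum_univ_three]
  have hA := D.Asum
  have ht := D.tsum
  have a2' : A 2 = θ 2 := by linarith
  have hall : ∀ j, A j = θ j := by
    intro j
    fin_cases j
    · exact a0
    · exact a1
    · exact a2'
  have hS := (h2 D).2 hall
  have hM := (h1 N hN β ℓ D.lpos (fun k => by rw [← D.side k, hS k])).2 (by
    intro k l hk hl
    obtain ⟨x, y, hxy, hx, hy⟩ := D.corner k l (Ne.symm hl)
    refine ⟨y, ?_, hy⟩
    have hxk : x = k := by
      rw [hκ] at hx
      fin_cases k
      · fin_cases x
        · rfl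
        · simp at hx
        · simp at hx
      · fin_cases x
        · simp at hx
        · rfl
        · simp at hx
      · exact absurd rfl hk
    rw [← hxk]
    exact Ne.symm hxy)
  have s0 : S 0 = (β 0 2 : ℝ) * ℓ 2 := by
    rw [D.side 0, Fin.sum_univ_three, hM 0 0 (by decide) (by decide), hM 0 1 (by decide) (by decide)]
    simp
  have s1 : S 1 = (β 1 2 : ℝ) * ℓ 2 := by
    rw [D.side 1, Fin.sum_univ_three, hM 1 0 (by decide) (by decide), hM 1 1 (by decide) (by decide)]
    simp
  refine ⟨by linarith, β 0 2, β 1 2, ?_, ?_, s0, s1, hS 2⟩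
  · rcases Nat.eq_zero_or_pos (β 0 2) with h | h
    · exfalso
      have := D.Spos 0
      rw [s0, h] at this
      simp at this
    · exact h
  · rcases Nat.eq_zero_or_pos (β 1 2) with h | h
    · exfalso
      have := D.Spos 1
      rw [s1, h] at this
      simp at this
    · exact h

end Pool.Agent.Q90.SQR
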