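import Pool.Agent.Q201.AR.Stm3

set_option autoImplicit false

/-!
Project AR, part 3, job PAAX: `PA` by codes.
-/

open FirstOrder FirstOrder.Language Pool.Agent.Helper227.EN

namespace Pool.Agent.Q90.AR

open Q201.AR

/-! ### computability of the codes -/

section
variable {α : Type} [Primcodable α] {f g h : α → ℕ}

theorem p_aff (k : ℕ) (hf : Primrec f) : Primrec fun a => 8 * f a + k :=
  Primrec.nat_add.comp (Primrec.nat_mul.comp (Primrec.const 8) hf) (Primrec.const k)

theorem p_pair (hf : Primrec f) (hg : Primrec g) : Primrec fun a => Nat.pair (f a) (g a) :=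
  Primrec₂.natPair.comp hf hg

theorem p_cz (hf : Primrec f) : Primrec fun a => cz (f a) := p_aff 0 hf
theorem p_co (hf : Primrec f) : Primrec fun a => co (f a) := p_aff 1 hf
theorem p_ceq (hf : Primrec f) (hg : Primrec g) : Primrec fun a => ceq (f a) (g a) :=
  p_aff 2 (p_pair hf hg)
theorem p_cad (hf : Primrec f) (hg : Primrec g) (hh : Primrec h) :
    Primrec fun a => cad (f a) (g a) (h a) := p_aff 4 (p_pair hf (p_pair hg hh))
theorem p_cnor (hf : Primrec f) (hg : Primrec g) : Primrec fun a => cnor (f a) (g a) :=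
  p_aff 6 (p_pair hf hg)
theorem p_cex (hf : Primrec f) (hg : Primrec g) : Primrec fun a => cex (f a) (g a) :=
  p_aff 7 (p_pair hf hg)
theorem p_cneg (hf : Primrec f) : Primrec fun a => cneg (f a) := p_cnor hf hf
theorem p_cand (hf : Primrec f) (hg : Primrec g) : Primrec fun a => cand (f a) (g a) :=
  p_cnor (p_cneg hf) (p_cneg hg)

theorem p_cind (hf : Primrec f) (hg : Primrec g) : Primrec fun a => cind (f a) (g a) := by
  have h2 : Primrec fun a => f a + g a + 2 :=
    Primrec.nat_add.comp (Primrec.nat_add.comp hf hg) (Primrec.const 2)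
  have h1 : Primrec fun a => f a + g a + 1 :=
    Primrec.nat_add.comp (Primrec.nat_add.comp hf hg) (Primrec.const 1)
  exact p_cneg (p_cand (p_cex hg (p_cand (p_cz hg) hf))
    (p_cand (p_cneg (p_cex hg (p_cand hf (p_cneg (p_cex h2 (p_cand (p_co h2)
      (p_cex h1 (p_cand (p_cad hg h2 h1)
        (p_cex hg (p_cand (p_ceq hg h1) hf)))))))))) (p_cex hg (p_cneg hf))))

end

theorem paax_arith (h : S_ARCL) (L : List ℕ) :
    Arith fun x : ℕ => x ∈ L ∨ ∃ q : ℕ × ℕ, x = cind q.1 q.2 := by
  obtain ⟨-, hcomp, hneg, hand, hex⟩ := h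
  have hor : ∀ P Q : ℕ → Prop, Arith P → Arith Q → Arith fun x => P x ∨ Q x := by
    intro P Q hP hQ
    have := hneg _ _ (hand _ _ _ (hneg _ _ hP) (hneg _ _ hQ))
    refine (iff_of_eq (congrArg Arith (funext fun x => propext ?_))).1 this
    tauto
  refine hor _ _ ?_ ?_
  · induction L with
    | nil =>
      refine hcomp _ _ ⟨fun _ => isFalse List.not_mem_nil, ?_⟩
      exact (Computable.const false).of_eq fun x => by simp
    | cons a L ih =>
      have h1 : Arith fun x : ℕ => x = a := by
        refine hcomp _ _ ⟨fun x => inferInstance, ?_⟩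
        exact (Primrec.eq.comp Primrec.id (Primrec.const a)).decide.to_comp
      have := hor _ _ h1 ih
      refine (iff_of_eq (congrArg Arith (funext fun x => propext ?_))).1 this
      exact List.mem_cons.symm
  · refine hex ℕ (ℕ × ℕ) (fun p => p.1 = cind p.2.1 p.2.2) (hcomp _ _ ⟨fun x => inferInstance, ?_⟩)
    exact (Primrec.eq.comp Primrec.fst (p_cind (Primrec.fst.comp Primrec.snd)
      (Primrec.snd.comp Primrec.snd))).decide.to_comp

/-- every sentence has a code -/
theorem paax_sentence (h : S_COMPILE) (σ : LA.Sentence) : ∃ c : ℕ, ∀ (M : Type) [LA.Structure M]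
    (e : ℕ → M), Sat M c e ↔ M ⊨ σ := by
  obtain ⟨c, hc⟩ := h 0 (Formula.relabel (Empty.elim : Empty → Fin 0) σ)
  refine ⟨c, fun M _ e => (hc M e).trans ?_⟩
  rw [Formula.realize_relabel]
  exact iff_of_eq (congrArg (Formula.Realize σ) (Subsingleton.elim _ _))

/-- the axioms of `PAminus` as a list -/
def paaxL : List LA.Sentence :=
  [axAddAssoc, axAddComm, axMulAssoc, axMulComm, axDistrib, axAddZero,
    axMulZero, axMulOne, axLtTrans, axLtIrrefl, axLtTotal, axAddLt,
    axMulLt, axDiff, axZeroLtOne, axDiscrete, axNonneg]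

theorem mem_paaxL (σ : LA.Sentence) : σ ∈ PAminus ↔ σ ∈ paaxL := by
  simp only [PAminus, paaxL, Set.mem_insert_iff, Set.mem_singleton_iff, List.mem_cons,
    List.not_mem_nil, or_false]

/-- a formula with the named variables `0, …, c`, the variable `i` as the bound variable -/
theorem paax_bdd (φ : LA.Formula ℕ) (c i : ℕ) : ∃ ψ : LA.BoundedFormula (Empty ⊕ Fin (c + 1)) 1,
    ∀ (M : Type) [LA.Structure M] (y : Fin (c + 1) → M) (x : M),
      ψ.Realize (Sum.elim default y) (fun _ => x) ↔
        φ.Realize fun j : ℕ => if j = i then x else if h : j < c + 1 then y ⟨j, h⟩ else x := by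
  let g : ℕ → (Empty ⊕ Fin (c + 1)) ⊕ Fin 1 := fun j => if j = i then Sum.inr 0 else
    if h : j < c + 1 then Sum.inl (Sum.inr ⟨j, h⟩) else Sum.inr 0
  refine ⟨BoundedFormula.relabel (k := 0) g φ, fun M _ y x => ?_⟩
  refine (BoundedFormula.realize_relabel (m := 1) (n := 0)).trans (iff_of_eq ?_)
  unfold Formula.Realize
  congr 1
  · funext j
    simp only [Function.comp_apply, g]
    by_cases hji : j = i
    · rw [if_pos hji, if_pos hji]
      rfl
    · rw [if_neg hji, if_neg hji]
      by_cases hj : j < c + 1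
      · rw [dif_pos hj, dif_pos hj]
        rfl
      · rw [dif_neg hj, dif_neg hj]
        rfl
  · exact Subsingleton.elim _ _

theorem t_PAAX : S_PAAX := by
  intro hC hD hV hI hA
  have hs := fun σ : LA.Sentence => paax_sentence hC σ
  choose cs hcs using hs
  refine ⟨_, paax_arith hA (paaxL.map cs), fun M _ _ => ?_⟩
  rw [Theory.model_iff]
  constructor
  · intro h σ hσ
    rcases hσ with hσ | ⟨n, φ, rfl⟩
    · have e : ℕ → M := fun _ => Classical.arbitrary M
      exact (hcs σ M e).1 (h (cs σ) (Or.inl (List.mem_map_of_mem ((mem_paaxL σ).1 hσ))) e)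
    · rw [realize_indAx φ _ _ rfl rfl]
      intro y
      obtain ⟨c, hc⟩ := hC (n + 1) (φ.toFormula.relabel
        (Sum.elim (Sum.elim Empty.elim Fin.castSucc) (fun _ => Fin.last n) :
          (Empty ⊕ Fin n) ⊕ Fin 1 → Fin (n + 1)))
      obtain ⟨e, he⟩ : ∃ e : ℕ → M, ∀ i : Fin n, e i = y i :=
        ⟨fun i => if h : i < n then y ⟨i, h⟩ else Classical.arbitrary M, fun i => by
          simp only [i.2, dif_pos, Fin.eta]⟩
      have h1 : ∀ x : M, Sat M c (Function.update e n x) ↔
          φ.Realize (Sum.elim default y) fun _ => x := by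
        intro x
        rw [hc, Formula.realize_relabel, BoundedFormula.realize_toFormula]
        refine iff_of_eq ?_
        congr 1
        · funext j
          rcases j with j | j
          · exact j.elim
          · have hj : ((j.castSucc : Fin (n + 1)) : ℕ) ≠ n := by
              rw [Fin.val_castSucc]; exact j.2.ne
            simp only [Function.comp_apply, Sum.elim_inl, Sum.elim_inr]
            rw [Function.update_of_ne hj, Fin.val_castSucc, he]
        · funext j
          simp only [Function.comp_apply, Sum.elim_inr, Fin.val_last, Function.update_self]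
      have h2 := (hI hV c n M e).1 (h _ (Or.inr ⟨(c, n), rfl⟩) e)
      simp only [h1] at h2
      exact h2
  · intro h c hc e
    rcases hc with hc | ⟨⟨c, i⟩, rfl⟩
    · obtain ⟨σ, hσ, rfl⟩ := List.mem_map.1 hc
      exact (hcs σ M e).2 (h σ (Or.inl ((mem_paaxL σ).2 hσ)))
    · obtain ⟨φ, hφ⟩ := hD c
      rw [hI hV c i M e]
      obtain ⟨ψ, hψ⟩ := paax_bdd φ c i
      have h1 := h _ (Or.inr ⟨c + 1, ψ, rfl⟩)
      rw [realize_indAx _ _ _ rfl rfl] at h1
      have h2 := h1 fun j => e j
      have h3 : ∀ x : M, ψ.Realize (Sum.elim default fun j : Fin (c + 1) => e j) (fun _ => x) ↔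
          Sat M c (Function.update e i x) := by
        intro x
        rw [hψ M (fun j => e j) x, hφ]
        refine hV c M _ _ fun j hj => ?_
        by_cases hji : j = i
        · rw [if_pos hji, hji, Function.update_self]
        · rw [if_neg hji, dif_pos (Nat.lt_succ_of_le hj), Function.update_of_ne hji]
      simp only [h3] at h2
      exact h2

end Pool.Agent.Q90.AR
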