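import Pool.Agent.Q61.MH.Stm

/-!
# Job MH-QLOW
-/

set_option autoImplicit false

open Real

namespace Pool.Agent.Q61.MH

private theorem qlow_bern {a t r : ℝ} (ha : 0 < a) (ht : -a ≤ t) (hr : 1 ≤ r) :
    a ^ r + r * t * a ^ (r - 1) ≤ (a + t) ^ r := by
  have h1 : -1 ≤ t / a := by
    rw [le_div_iff₀ ha]
    linarith
  have h2 := one_add_mul_self_le_rpow_one_add h1 hr
  have h3 : (a + t) ^ r = a ^ r * (1 + t / a) ^ r := by
    rw [← Real.mul_rpow ha.le (by linarith)]
    congr 1
    field_simp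
  have h4 : a ^ r = a ^ (r - 1) * a := by
    rw [← Real.rpow_add_one ha.ne', sub_add_cancel]
  calc a ^ r + r * t * a ^ (r - 1) = a ^ r * (1 + r * (t / a)) := by
        rw [h4]
        field_simp
    _ ≤ a ^ r * (1 + t / a) ^ r := mul_le_mul_of_nonneg_left h2 (Real.rpow_nonneg ha.le _)
    _ = _ := h3.symm

theorem qlow : S_qlow := by
  intro k hk r hr
  have hk' : (1 : ℝ) ≤ k := by exact_mod_cast hk
  have hm : 0 < mm k := by
    unfold mm
    nlinarith
  have hn : 0 < nn k := by
    unfold nn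
    nlinarith
  have h1 := qlow_bern (t := 3) hm (by linarith) hr
  have h2 := qlow_bern (a := nn k + 1) (t := -1) (by linarith) (by linarith) hr
  rw [show nn k + 1 + -1 = nn k by ring] at h2
  have h3 : (nn k + 1) ^ (r - 1) = mm k ^ (r - 1) * ((nn k + 1) / mm k) ^ (r - 1) := by
    rw [← Real.mul_rpow hm.le (div_nonneg (by linarith) hm.le)]
    congr 1
    field_simp
  rw [h3] at h2
  unfold Qk
  nlinarith

end Pool.Agent.Q61.MH
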