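import Pool.Agent.Q61.MH.Stm2

/-!
# Job MH-PKA
-/

set_option autoImplicit false

open Real

namespace Pool.Agent.Q61.MH

private theorem pka_nat : ∀ k < 60, 1 ≤ k → (2 * k + 1) ^ k * ∑ i ∈ Finset.range k, (i + 1) ^ k ≤
    (2 * k - 1) ^ k * ∑ i ∈ Finset.range (k + 1), (i + 1) ^ k := by
  decide +kernel

theorem pka : S_pka := by
  intro k hk hk'
  have h := pka_nat k (by omega) hk
  have h2 : (((2 * k + 1) ^ k * ∑ i ∈ Finset.range k, (i + 1) ^ k : ℕ) : ℝ) ≤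
      (((2 * k - 1) ^ k * ∑ i ∈ Finset.range (k + 1), (i + 1) ^ k : ℕ) : ℝ) := by
    exact_mod_cast h
  rw [Nat.cast_mul, Nat.cast_mul, Nat.cast_pow, Nat.cast_pow,
    Nat.cast_sub (by omega : 1 ≤ 2 * k)] at h2
  push_cast at h2
  unfold P S
  simp only [Real.rpow_natCast]
  linarith

end Pool.Agent.Q61.MH
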