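import Pool.Agent.Q82.BC.Stm
import Pool.Agent.Q194.BB_NB

/-!
# Job BC-NB2: the nonlinear part is admissible
-/

set_option autoImplicit false

open MeasureTheory Filter Topology Set
open Pool.Agent.Q82.BB (chi mu lam IsSh cv Nl Good UU Tower nb_chain)

namespace Pool.Agent.Q82.BC

/-- parametric integrals over `(0, T]`, dominated version -/
lemma nb2_param {D : ℕ → ℝ → ℝ → ℝ → ℂ} {T : ℝ} (hT : 0 < T)
    (hc : ∀ i, ContinuousOn (fun q : ℝ × ℝ × ℝ => D i q.1 q.2.1 q.2.2) {q | q.2.2 ∈ Ioc 0 T})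
    (hd : ∀ i ξ τ, ∀ s ∈ Ioc 0 T, HasDerivAt (fun ξ => D i ξ τ s) (D (i + 1) ξ τ s) ξ)
    (hb : ∀ i, ∀ R : ℝ, 0 ≤ R → ∃ b : ℝ → ℝ, IntervalIntegrable b volume 0 T ∧
      ∀ ξ : ℝ, |ξ| ≤ R → ∀ τ ∈ Ioc 0 T, ∀ s ∈ Ioc 0 T, ‖D i ξ τ s‖ ≤ b s) :
    (∀ i, ContinuousOn (fun q : ℝ × ℝ => ∫ s in (0 : ℝ)..T, D i q.1 q.2 s) (univ ×ˢ Ioc 0 T)) ∧
    ∀ i ξ, ∀ τ ∈ Ioc 0 T, HasDerivAt (fun ξ => ∫ s in (0 : ℝ)..T, D i ξ τ s)
      (∫ s in (0 : ℝ)..T, D (i + 1) ξ τ s) ξ := by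
  have hcs : ∀ i ξ τ, ContinuousOn (fun s => D i ξ τ s) (Ioc 0 T) := fun i ξ τ =>
    (hc i).comp (by fun_prop : Continuous fun s : ℝ => (ξ, τ, s)).continuousOn fun s hs => hs
  have hms : ∀ i ξ τ, AEStronglyMeasurable (fun s => D i ξ τ s) (volume.restrict (uIoc 0 T)) := by
    intro i ξ τ
    rw [uIoc_of_le hT.le]
    exact (hcs i ξ τ).aestronglyMeasurable measurableSet_Ioc
  constructor
  · intro i q0 hq0
    obtain ⟨b, hbi, hbb⟩ := hb i (|q0.1| + 1) (by positivity)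
    refine intervalIntegral.continuousWithinAt_of_dominated_interval
      (F := fun (q : ℝ × ℝ) (s : ℝ) => D i q.1 q.2 s) (bound := b)
      (Eventually.of_forall fun q => hms i q.1 q.2) ?_ hbi ?_
    · have h1 : ∀ᶠ q : ℝ × ℝ in 𝓝[univ ×ˢ Ioc 0 T] q0, |q.1| < |q0.1| + 1 := by
        refine Filter.Eventually.filter_mono nhdsWithin_le_nhds ?_
        exact ((by fun_prop : Continuous fun q : ℝ × ℝ => |q.1|).tendsto q0).eventually_lt_const
          (by linarith)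
      filter_upwards [h1, self_mem_nhdsWithin] with q hq hq'
      refine ae_of_all _ fun s hs => ?_
      rw [uIoc_of_le hT.le] at hs
      exact hbb q.1 hq.le q.2 hq'.2 s hs
    · refine ae_of_all _ fun s hs => ?_
      rw [uIoc_of_le hT.le] at hs
      have h2 : ContinuousOn (fun q : ℝ × ℝ => D i q.1 q.2 s) univ :=
        (hc i).comp (by fun_prop : Continuous fun q : ℝ × ℝ => (q.1, q.2, s)).continuousOn
          fun q _ => hs
      exact (h2 q0 (mem_univ _)).mono (subset_univ _)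
  · intro i ξ τ hτ
    obtain ⟨b, hbi, hbb⟩ := hb (i + 1) (|ξ| + 1) (by positivity)
    obtain ⟨b', hbi', hbb'⟩ := hb i (|ξ| + 1) (by positivity)
    have hint : IntervalIntegrable (fun s => D i ξ τ s) volume 0 T := by
      refine hbi'.mono_fun (hms i ξ τ) ?_
      refine (ae_restrict_iff' measurableSet_uIoc).2 (ae_of_all _ fun s hs => ?_)
      rw [uIoc_of_le hT.le] at hs
      exact (hbb' ξ (by linarith) τ hτ s hs).trans (le_abs_self _)
    refine (intervalIntegral.hasDerivAt_integral_of_dominated_loc_of_deriv_le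
      (F := fun ξ s => D i ξ τ s) (F' := fun ξ s => D (i + 1) ξ τ s) (bound := b)
      (s := Icc (ξ - 1) (ξ + 1)) (Icc_mem_nhds (by linarith) (by linarith))
      (Eventually.of_forall fun x => hms i x τ) hint (hms (i + 1) ξ τ) ?_ hbi ?_).2
    · refine ae_of_all _ fun s hs x hx => ?_
      rw [uIoc_of_le hT.le] at hs
      refine hbb x ?_ τ hτ s hs
      have h3 : |x - ξ| ≤ 1 := abs_le.2 ⟨by linarith [hx.1], by linarith [hx.2]⟩
      have h4 : |x| ≤ |x - ξ| + |ξ| := by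
        have := abs_add_le (x - ξ) ξ
        rwa [sub_add_cancel] at this
      linarith
    · refine ae_of_all _ fun s hs x _ => ?_
      rw [uIoc_of_le hT.le] at hs
      exact hd i x τ s hs

theorem nb2 (h1 : S_CVB2) (h2 : S_CVD2) (h3 : S_TI2) : S_NB2 := by
  intro T κ hT hκ
  obtain ⟨K, hK, hCV⟩ := h1
  obtain ⟨KT, hKT, hTI⟩ := h3 T hT
  obtain ⟨kd, kc, -, kb⟩ := hκ
  choose Ck hCk0 hCk using kb
  refine ⟨Ck 0 * K * KT, fun i => K * KT * ∑ j ∈ Finset.range i, (i.choose (i - j) : ℝ) * Ck (i - j),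
    by have := hCk0 0; positivity, fun i => ?_, ?_⟩
  · have : 0 ≤ ∑ j ∈ Finset.range i, (i.choose (i - j) : ℝ) * Ck (i - j) :=
      Finset.sum_nonneg fun j _ => mul_nonneg (Nat.cast_nonneg _) (hCk0 _).le
    positivity
  intro w Cs hw
  obtain ⟨cd, cder, cc⟩ := h2 T w Cs hT hw
  obtain ⟨wd, wc, w0', wb⟩ := hw
  -- the integrand
  let F : ℝ → ℝ → ℝ → ℂ := fun ξ τ s => (κ ξ τ s : ℂ) * cv w w ξ s
  let D : ℕ → ℝ → ℝ → ℝ → ℂ := fun i ξ τ s => iteratedDeriv i (fun ξ => F ξ τ s) ξ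
  have kdc : ∀ τ s : ℝ, ∀ n : ℕ, ContDiff ℝ n (fun ξ => (κ ξ τ s : ℂ)) := fun τ s n =>
    Complex.ofRealCLM.contDiff.comp (kd τ s n)
  have hF : ∀ τ : ℝ, ∀ s ∈ Ioc 0 T, ∀ n : ℕ, ContDiff ℝ n (fun ξ => F ξ τ s) := fun τ s hs n =>
    (kdc τ s n).mul (cd _ hs n)
  have hkder : ∀ (i : ℕ) (τ s ξ : ℝ), iteratedDeriv i (fun ξ => (κ ξ τ s : ℂ)) ξ =
      ((iteratedDeriv i (fun ξ => κ ξ τ s) ξ : ℝ) : ℂ) := by
    intro i τ s
    induction i with
    | zero => intro ξ; rw [iteratedDeriv_zero, iteratedDeriv_zero]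
    | succ i ih =>
      intro ξ
      have e : iteratedDeriv i (fun ξ => (κ ξ τ s : ℂ)) =
          fun ξ => ((iteratedDeriv i (fun ξ => κ ξ τ s) ξ : ℝ) : ℂ) := funext ih
      rw [iteratedDeriv_succ, e]
      have h4 : Differentiable ℝ (iteratedDeriv i (fun ξ => κ ξ τ s)) :=
        (kd τ s (i + 1)).differentiable_iteratedDeriv i (by exact_mod_cast Nat.lt_succ_self i)
      have h5 := (h4 ξ).hasDerivAt
      rw [← iteratedDeriv_succ] at h5
      exact h5.ofReal_comp.deriv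
  have hD : ∀ (i : ℕ) (ξ τ : ℝ), ∀ s ∈ Ioc 0 T, D i ξ τ s = ∑ j ∈ Finset.range (i + 1),
      (i.choose j : ℂ) * ((iteratedDeriv j (fun ξ => κ ξ τ s) ξ : ℝ) : ℂ) *
        iteratedDeriv (i - j) (fun ξ => cv w w ξ s) ξ := by
    intro i ξ τ s hs
    have := iteratedDeriv_mul (𝕜 := ℝ) (n := i) (x := ξ) (kdc τ s i).contDiffAt
      (cd _ hs i).contDiffAt
    change iteratedDeriv i ((fun ξ => (κ ξ τ s : ℂ)) * fun ξ => cv w w ξ s) ξ = _
    rw [this]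
    exact Finset.sum_congr rfl fun j _ => by rw [hkder]
  have hDc : ∀ i, ContinuousOn (fun q : ℝ × ℝ × ℝ => D i q.1 q.2.1 q.2.2)
      {q | q.2.2 ∈ Ioc 0 T} := by
    intro i
    have h4 : ContinuousOn (fun q : ℝ × ℝ × ℝ => ∑ j ∈ Finset.range (i + 1),
        (i.choose j : ℂ) * ((iteratedDeriv j (fun ξ => κ ξ q.2.1 q.2.2) q.1 : ℝ) : ℂ) *
        iteratedDeriv (i - j) (fun ξ => cv w w ξ q.2.2) q.1) {q | q.2.2 ∈ Ioc 0 T} := by
      refine continuousOn_finset_sum _ fun j _ => ?_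
      refine (continuous_const.mul (Complex.continuous_ofReal.comp (kc j))).continuousOn.mul ?_
      have := (cc (i - j)).comp (f := fun q : ℝ × ℝ × ℝ => (q.1, q.2.2))
        (s := {q | q.2.2 ∈ Ioc 0 T}) (by fun_prop) (fun q hq => ⟨mem_univ _, hq⟩)
      exact this
    exact h4.congr fun q hq => hD i q.1 q.2.1 q.2.2 hq
  have hDd : ∀ i ξ τ, ∀ s ∈ Ioc 0 T, HasDerivAt (fun ξ => D i ξ τ s) (D (i + 1) ξ τ s) ξ := by
    intro i ξ τ s hs
    have h4 : Differentiable ℝ (iteratedDeriv i (fun ξ => F ξ τ s)) :=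
      (hF τ s hs (i + 1)).differentiable_iteratedDeriv i (by exact_mod_cast Nat.lt_succ_self i)
    have h5 := (h4 ξ).hasDerivAt
    rw [← iteratedDeriv_succ] at h5
    exact h5
  -- the pointwise bound
  have hcv : ∀ m : ℕ, ∀ ξ : ℝ, ∀ s ∈ Ioc 0 T, ‖iteratedDeriv m (fun ξ => cv w w ξ s) ξ‖ ≤
      K * Cs 0 * Cs m * (er ξ s * ((1 + |ξ|) ^ 3 + (s * Real.sqrt s)⁻¹)) := by
    intro m ξ s hs
    rw [cder m s hs]
    refine (hCV (fun η => w η s) (iteratedDeriv m (fun ξ => w ξ s)) (Cs 0) (Cs m) s hs.1 (w0' 0)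
      (w0' m) (wd s hs 0).continuous ?_ (fun ξ => ?_) (fun ξ => wb m ξ s hs) ξ).2
    · exact (wd s hs m).continuous_iteratedDeriv m le_rfl
    · have := wb 0 ξ s hs
      rwa [iteratedDeriv_zero] at this
  let G : ℝ → ℝ → ℝ → ℝ := fun ξ τ s => min 1 ((1 + ξ ^ 2) * s) *
    Real.exp (-(ξ ^ 2 * |τ - s| / 4)) * (er ξ s * ((1 + |ξ|) ^ 3 + (s * Real.sqrt s)⁻¹))
  let S : ℕ → ℝ := fun i => ∑ j ∈ Finset.range (i + 1), (i.choose j : ℝ) * (Ck j * Cs (i - j))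
  have hS0 : ∀ i, 0 ≤ S i := fun i => Finset.sum_nonneg fun j _ =>
    mul_nonneg (Nat.cast_nonneg _) (mul_nonneg (hCk0 j).le (w0' _))
  have hpt : ∀ i ξ, ∀ τ ∈ Ioc 0 T, ∀ s ∈ Ioc 0 T, ‖D i ξ τ s‖ ≤ S i * K * Cs 0 * G ξ τ s := by
    intro i ξ τ hτ s hs
    rw [hD i ξ τ s hs]
    refine (norm_sum_le _ _).trans ?_
    simp only [S]
    rw [Finset.sum_mul, Finset.sum_mul, Finset.sum_mul]
    refine Finset.sum_le_sum fun j _ => ?_
    rw [norm_mul, norm_mul, Complex.norm_natCast, Complex.norm_real, Real.norm_eq_abs]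
    have a1 := hCk j ξ τ hτ s hs
    have a2 := hcv (i - j) ξ s hs
    have a4 : 0 ≤ min 1 ((1 + ξ ^ 2) * s) :=
      le_min zero_le_one (mul_nonneg (by positivity) hs.1.le)
    have a3 : 0 ≤ Ck j * (min 1 ((1 + ξ ^ 2) * s) * Real.exp (-(ξ ^ 2 * |τ - s| / 4))) :=
      mul_nonneg (hCk0 j).le (mul_nonneg a4 (Real.exp_pos _).le)
    calc (i.choose j : ℝ) * |iteratedDeriv j (fun ξ => κ ξ τ s) ξ| *
          ‖iteratedDeriv (i - j) (fun ξ => cv w w ξ s) ξ‖ ≤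
        (i.choose j : ℝ) * (Ck j * (min 1 ((1 + ξ ^ 2) * s) *
          Real.exp (-(ξ ^ 2 * |τ - s| / 4)))) *
          (K * Cs 0 * Cs (i - j) * (er ξ s * ((1 + |ξ|) ^ 3 + (s * Real.sqrt s)⁻¹))) :=
          mul_le_mul (mul_le_mul_of_nonneg_left a1 (Nat.cast_nonneg _)) a2 (norm_nonneg _)
            (mul_nonneg (Nat.cast_nonneg _) a3)
      _ = _ := by simp only [G]; ring
  have hTmem : T ∈ Ioc 0 T := ⟨hT, le_rfl⟩
  have hGR : ∀ R : ℝ, 0 ≤ R → ∀ ξ : ℝ, |ξ| ≤ R → ∀ τ ∈ Ioc 0 T, ∀ s ∈ Ioc 0 T,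
      G ξ τ s ≤ Real.exp (R ^ 2 * T / 4 + Real.sqrt T * R / 16) * G R T s := by
    intro R hR ξ hξ τ _ s hs
    have b1 : ξ ^ 2 ≤ R ^ 2 := by
      rw [← sq_abs ξ]
      exact pow_le_pow_left₀ (abs_nonneg _) hξ 2
    have b2 : min 1 ((1 + ξ ^ 2) * s) ≤ min 1 ((1 + R ^ 2) * s) :=
      min_le_min le_rfl (mul_le_mul_of_nonneg_right (by linarith) hs.1.le)
    have b3 : 0 ≤ min 1 ((1 + ξ ^ 2) * s) :=
      le_min zero_le_one (mul_nonneg (by positivity) hs.1.le)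
    have b3' : 0 ≤ min 1 ((1 + R ^ 2) * s) := b3.trans b2
    have b4 : Real.exp (-(ξ ^ 2 * |τ - s| / 4)) ≤ 1 := by
      rw [Real.exp_le_one_iff]
      have := mul_nonneg (sq_nonneg ξ) (abs_nonneg (τ - s))
      linarith
    have b5 : er ξ s ≤ 1 := by
      unfold er
      rw [Real.exp_le_one_iff]
      have := mul_nonneg (Real.sqrt_nonneg s) (abs_nonneg ξ)
      linarith
    have b6 : 0 ≤ (s * Real.sqrt s)⁻¹ := inv_nonneg.2 (mul_nonneg hs.1.le (Real.sqrt_nonneg _))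
    have b7 : (1 + |ξ|) ^ 3 + (s * Real.sqrt s)⁻¹ ≤ (1 + |R|) ^ 3 + (s * Real.sqrt s)⁻¹ := by
      have : (1 + |ξ|) ^ 3 ≤ (1 + |R|) ^ 3 :=
        pow_le_pow_left₀ (by positivity) (by rw [abs_of_nonneg hR]; linarith) 3
      linarith
    have b8 : 0 ≤ (1 + |ξ|) ^ 3 + (s * Real.sqrt s)⁻¹ := by positivity
    have b9 : 0 ≤ er ξ s := (Real.exp_pos _).le
    have c1 : G ξ τ s ≤ min 1 ((1 + R ^ 2) * s) * 1 *
        (1 * ((1 + |R|) ^ 3 + (s * Real.sqrt s)⁻¹)) :=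
      mul_le_mul (mul_le_mul b2 b4 (Real.exp_pos _).le b3')
        (mul_le_mul b5 b7 b8 zero_le_one) (mul_nonneg b9 b8) (by positivity)
    have c2 : 1 ≤ Real.exp (R ^ 2 * T / 4 + Real.sqrt T * R / 16) *
        (Real.exp (-(R ^ 2 * |T - s| / 4)) * er R s) := by
      unfold er
      rw [← Real.exp_add, ← Real.exp_add]
      refine Real.one_le_exp ?_
      have d1 : |T - s| ≤ T := by
        rw [abs_of_nonneg (by linarith [hs.2])]
        linarith [hs.1]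
      have d2 : R ^ 2 * |T - s| ≤ R ^ 2 * T := mul_le_mul_of_nonneg_left d1 (sq_nonneg R)
      have d3 : Real.sqrt s * |R| ≤ Real.sqrt T * R := by
        rw [abs_of_nonneg hR]
        exact mul_le_mul_of_nonneg_right (Real.sqrt_le_sqrt hs.2) hR
      linarith
    have c3 : 0 ≤ min 1 ((1 + R ^ 2) * s) * ((1 + |R|) ^ 3 + (s * Real.sqrt s)⁻¹) :=
      mul_nonneg b3' (b8.trans b7)
    calc G ξ τ s ≤ min 1 ((1 + R ^ 2) * s) * 1 *
        (1 * ((1 + |R|) ^ 3 + (s * Real.sqrt s)⁻¹)) := c1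
      _ = 1 * (min 1 ((1 + R ^ 2) * s) * ((1 + |R|) ^ 3 + (s * Real.sqrt s)⁻¹)) := by ring
      _ ≤ (Real.exp (R ^ 2 * T / 4 + Real.sqrt T * R / 16) *
        (Real.exp (-(R ^ 2 * |T - s| / 4)) * er R s)) *
          (min 1 ((1 + R ^ 2) * s) * ((1 + |R|) ^ 3 + (s * Real.sqrt s)⁻¹)) :=
        mul_le_mul_of_nonneg_right c2 c3
      _ = _ := by simp only [G]; ring
  obtain ⟨pc, pd⟩ := nb2_param hT hDc hDd (by
    intro i R hR
    refine ⟨fun s => S i * K * Cs 0 *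
      (Real.exp (R ^ 2 * T / 4 + Real.sqrt T * R / 16) * G R T s),
      ((hTI R T hTmem).1.const_mul _).const_mul _, fun ξ hξ τ hτ s hs => ?_⟩
    refine (hpt i ξ τ hτ s hs).trans (mul_le_mul_of_nonneg_left (hGR R hR ξ hξ τ hτ s hs) ?_)
    have := hS0 i
    have := w0' 0
    positivity)
  have hN : ∀ τ, (fun ξ => Nl T κ w ξ τ) = fun ξ => ∫ s in (0 : ℝ)..T, D 0 ξ τ s := by
    intro τ
    funext ξ
    refine intervalIntegral.integral_congr fun s _ => ?_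
    simp only [D, F, iteratedDeriv_zero]
  have hch : ∀ τ ∈ Ioc 0 T, _ := fun τ hτ => nb_chain (f := fun i ξ => ∫ s in (0 : ℝ)..T, D i ξ τ s)
    (fun i ξ => pd i ξ τ hτ)
  have hder : ∀ (i : ℕ) (ξ : ℝ), ∀ τ ∈ Ioc 0 T, iteratedDeriv i (fun ξ => Nl T κ w ξ τ) ξ =
      ∫ s in (0 : ℝ)..T, D i ξ τ s := by
    intro i ξ τ hτ
    rw [hN τ, (hch τ hτ).1 i]
  refine ⟨fun τ hτ n => by rw [hN τ]; exact (hch τ hτ).2 n, fun i => ?_, fun i ξ τ hτ => ?_⟩
  · exact (pc i).congr fun q hq => hder i q.1 q.2 hq.2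
  · rw [hder i ξ τ hτ]
    have hx : 0 < 1 + |ξ| := by positivity
    have hGi : IntervalIntegrable (fun s => G ξ τ s) volume 0 T := (hTI ξ τ hτ).1
    have hint : ‖∫ s in (0 : ℝ)..T, D i ξ τ s‖ ≤ ∫ s in (0 : ℝ)..T, S i * K * Cs 0 * G ξ τ s :=
      intervalIntegral.norm_integral_le_of_norm_le hT.le
        (ae_of_all _ fun s hs => hpt i ξ τ hτ s hs) (hGi.const_mul _)
    rw [intervalIntegral.integral_const_mul] at hint
    have hSi := hS0 i
    have hc0 := w0' 0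
    have hq0 : 0 ≤ S i * K * Cs 0 := by positivity
    have hfin := hint.trans (mul_le_mul_of_nonneg_left (hTI ξ τ hτ).2 hq0)
    have her0 : 0 ≤ er ξ τ := (Real.exp_pos _).le
    have hSle : S i ≤ Ck 0 * Cs i + (∑ j ∈ Finset.range i, (i.choose (i - j) : ℝ) * Ck (i - j)) *
        ∑ j ∈ Finset.range i, Cs j := by
      have e1 : S i = ∑ k ∈ Finset.range (i + 1), (i.choose (i - k) : ℝ) * (Ck (i - k) * Cs k) := by
        simp only [S]
        rw [← Finset.sum_flip]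
        refine Finset.sum_congr rfl fun k hk => ?_
        have hk' : k ≤ i := Nat.lt_succ_iff.1 (Finset.mem_range.1 hk)
        rw [Nat.sub_sub_self hk']
      rw [e1, Finset.sum_range_succ, Nat.sub_self, Nat.choose_zero_right, Nat.cast_one, one_mul,
        add_comm, Finset.sum_mul]
      refine add_le_add le_rfl (Finset.sum_le_sum fun k hk => ?_)
      have b1 : Cs k ≤ ∑ j ∈ Finset.range i, Cs j :=
        Finset.single_le_sum (f := Cs) (fun j _ => w0' j) hk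
      have b2 : 0 ≤ (i.choose (i - k) : ℝ) * Ck (i - k) :=
        mul_nonneg (Nat.cast_nonneg _) (hCk0 _).le
      calc (i.choose (i - k) : ℝ) * (Ck (i - k) * Cs k) =
          (i.choose (i - k) : ℝ) * Ck (i - k) * Cs k := by ring
        _ ≤ _ := mul_le_mul_of_nonneg_left b1 b2
    calc _ ≤ S i * K * Cs 0 * (KT * ((1 + |ξ|) * er ξ τ)) := hfin
      _ = S i * (Cs 0 * (K * KT) * ((1 + |ξ|) * er ξ τ)) := by ring
      _ ≤ (Ck 0 * Cs i + (∑ j ∈ Finset.range i, (i.choose (i - j) : ℝ) * Ck (i - j)) *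
          ∑ j ∈ Finset.range i, Cs j) * (Cs 0 * (K * KT) * ((1 + |ξ|) * er ξ τ)) :=
        mul_le_mul_of_nonneg_right hSle (by positivity)
      _ = _ := by ring

end Pool.Agent.Q82.BC
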