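import Mathlib

/-!
# The two Arens products on the bidual of a Banach algebra

`A` is a complex Banach algebra (neither unital nor commutative); its dual is
`StrongDual ℂ A` and its bidual `StrongDual ℂ (StrongDual ℂ A)`, with the usual norms.
-/

set_option autoImplicit false

namespace Q90.Arens

variable {A : Type} [NonUnitalNormedRing A] [NormedSpace ℂ A] [IsScalarTower ℂ A A]
  [SMulCommClass ℂ A A]

/-- `(f · a)(b) = f (a b)`. -/
noncomputable def dotRight (f : StrongDual ℂ A) (a : A) : StrongDual ℂ A :=
  f.comp (ContinuousLinearMap.mul ℂ A a)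

/-- `(a · f)(b) = f (b a)`. -/
noncomputable def dotLeft (a : A) (f : StrongDual ℂ A) : StrongDual ℂ A :=
  f.comp ((ContinuousLinearMap.mul ℂ A).flip a)

/-- `(G · f)(a) = G (f · a)`. -/
noncomputable def bidualDot (G : StrongDual ℂ (StrongDual ℂ A)) (f : StrongDual ℂ A) :
    StrongDual ℂ A :=
  LinearMap.mkContinuous
    { toFun := fun a => G (dotRight f a)
      map_add' := fun a b => by
        rw [← map_add]
        congr 1
        ext x
        change f ((a + b) * x) = f (a * x) + f (b * x)
        rw [add_mul, map_add]
      map_smul' := fun c a => by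
        rw [RingHom.id_apply, ← map_smul]
        congr 1
        ext x
        change f ((c • a) * x) = c • f (a * x)
        rw [smul_mul_assoc, map_smul] } (‖G‖ * ‖f‖) (fun a => by
      refine (G.le_opNorm _).trans ?_
      rw [mul_assoc]
      refine mul_le_mul_of_nonneg_left ?_ (norm_nonneg _)
      refine ContinuousLinearMap.opNorm_le_bound _ (by positivity) fun x => ?_
      change ‖f (a * x)‖ ≤ _
      calc ‖f (a * x)‖ ≤ ‖f‖ * ‖a * x‖ := f.le_opNorm _
        _ ≤ ‖f‖ * (‖a‖ * ‖x‖) := by gcongr; exact norm_mul_le _ _
        _ = ‖f‖ * ‖a‖ * ‖x‖ := by ring)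

/-- `(f · F)(a) = F (a · f)`. -/
noncomputable def dotBidual (f : StrongDual ℂ A) (F : StrongDual ℂ (StrongDual ℂ A)) :
    StrongDual ℂ A :=
  LinearMap.mkContinuous
    { toFun := fun a => F (dotLeft a f)
      map_add' := fun a b => by
        rw [← map_add]
        congr 1
        ext x
        change f (x * (a + b)) = f (x * a) + f (x * b)
        rw [mul_add, map_add]
      map_smul' := fun c a => by
        rw [RingHom.id_apply, ← map_smul]
        congr 1
        ext x
        change f (x * (c • a)) = c • f (x * a)
        rw [mul_smul_comm, map_smul] } (‖F‖ * ‖f‖) (fun a => by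
      refine (F.le_opNorm _).trans ?_
      rw [mul_assoc]
      refine mul_le_mul_of_nonneg_left ?_ (norm_nonneg _)
      refine ContinuousLinearMap.opNorm_le_bound _ (by positivity) fun x => ?_
      change ‖f (x * a)‖ ≤ _
      calc ‖f (x * a)‖ ≤ ‖f‖ * ‖x * a‖ := f.le_opNorm _
        _ ≤ ‖f‖ * (‖x‖ * ‖a‖) := by gcongr; exact norm_mul_le _ _
        _ = ‖f‖ * ‖a‖ * ‖x‖ := by ring)

theorem norm_bidualDot_le (G : StrongDual ℂ (StrongDual ℂ A)) (f : StrongDual ℂ A) :
    ‖bidualDot G f‖ ≤ ‖G‖ * ‖f‖ := LinearMap.mkContinuous_norm_le _ (by positivity) _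

theorem norm_dotBidual_le (f : StrongDual ℂ A) (F : StrongDual ℂ (StrongDual ℂ A)) :
    ‖dotBidual f F‖ ≤ ‖F‖ * ‖f‖ := LinearMap.mkContinuous_norm_le _ (by positivity) _

/-- The first Arens product `(F □ G)(f) = F (G · f)`. -/
noncomputable def first (F G : StrongDual ℂ (StrongDual ℂ A)) :
    StrongDual ℂ (StrongDual ℂ A) :=
  LinearMap.mkContinuous
    { toFun := fun f => F (bidualDot G f)
      map_add' := fun f g => by
        rw [← map_add]
        congr 1
        ext a
        change G (dotRight (f + g) a) = G (dotRight f a) + G (dotRight g a)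
        rw [← map_add]
        rfl
      map_smul' := fun c f => by
        rw [RingHom.id_apply, ← map_smul]
        congr 1
        ext a
        change G (dotRight (c • f) a) = c • G (dotRight f a)
        rw [← map_smul]
        rfl } (‖F‖ * ‖G‖) (fun f => by
      refine (F.le_opNorm _).trans ?_
      rw [mul_assoc]
      exact mul_le_mul_of_nonneg_left (norm_bidualDot_le G f) (norm_nonneg _))

/-- The second Arens product `(F ◇ G)(f) = G (f · F)`. -/
noncomputable def second (F G : StrongDual ℂ (StrongDual ℂ A)) :
    StrongDual ℂ (StrongDual ℂ A) :=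
  LinearMap.mkContinuous
    { toFun := fun f => G (dotBidual f F)
      map_add' := fun f g => by
        rw [← map_add]
        congr 1
        ext a
        change F (dotLeft a (f + g)) = F (dotLeft a f) + F (dotLeft a g)
        rw [← map_add]
        rfl
      map_smul' := fun c f => by
        rw [RingHom.id_apply, ← map_smul]
        congr 1
        ext a
        change F (dotLeft a (c • f)) = c • F (dotLeft a f)
        rw [← map_smul]
        rfl } (‖G‖ * ‖F‖) (fun f => by
      refine (G.le_opNorm _).trans ?_
      rw [mul_assoc]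
      exact mul_le_mul_of_nonneg_left (norm_dotBidual_le f F) (norm_nonneg _))

/-- The binary operation `m` on `B` is open: it maps open subsets of `B × B` to open sets. -/
def OpenMul {B : Type} [TopologicalSpace B] (m : B → B → B) : Prop :=
  ∀ W : Set (B × B), IsOpen W → IsOpen {z | ∃ p ∈ W, z = m p.1 p.2}

/-- The binary operation `m` on `B` is weakly open: it maps non-empty open subsets of `B × B` to
sets with non-empty interior. -/
def WeaklyOpenMul {B : Type} [TopologicalSpace B] (m : B → B → B) : Prop :=
  ∀ W : Set (B × B), IsOpen W → W.Nonempty → (interior {z | ∃ p ∈ W, z = m p.1 p.2}).Nonempty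

section

variable (A : Type) [NonUnitalNormedRing A] [NormedSpace ℂ A] [IsScalarTower ℂ A A]
  [SMulCommClass ℂ A A]

/-- `(A**, □)` has open multiplication. -/
def FirstOpen : Prop := OpenMul (first (A := A))

/-- `(A**, ◇)` has open multiplication. -/
def SecondOpen : Prop := OpenMul (second (A := A))

/-- `(A**, □)` has weakly open multiplication. -/
def FirstWeaklyOpen : Prop := WeaklyOpenMul (first (A := A))

/-- `(A**, ◇)` has weakly open multiplication. -/
def SecondWeaklyOpen : Prop := WeaklyOpenMul (second (A := A))

end

end Q90.Arens
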