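import Mathlib
import Pool.Agent.Q90.ArensDefs

/-!
Limits in the bidual and multiplicative functionals.
-/

set_option autoImplicit false
set_option linter.unusedSectionVars false

open Filter Topology

namespace Q90.Arens

section lim

variable {E : Type} [NormedAddCommGroup E] [NormedSpace ℂ E]

/-- A bounded family has a weak* limit in the bidual along every ultrafilter. -/
theorem exists_lim {ι : Type} (U : Ultrafilter ι) (T : ι → E) {C : ℝ} (hT : ∀ i, ‖T i‖ ≤ C) :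
    ∃ Φ : StrongDual ℂ (StrongDual ℂ E), ∀ f : StrongDual ℂ E,
      Tendsto (fun i => f (T i)) (U : Filter ι) (𝓝 (Φ f)) := by
  let J : ι → WeakDual ℂ (StrongDual ℂ E) := fun i =>
    StrongDual.toWeakDual (NormedSpace.inclusionInDoubleDual ℂ E (T i))
  have hK := WeakDual.isCompact_closedBall (𝕜 := ℂ) (E := StrongDual ℂ E) 0 C
  have hJ : ∀ i, J i ∈ (WeakDual.toStrongDual ⁻¹'
      Metric.closedBall (0 : StrongDual ℂ (StrongDual ℂ E)) C : Set _) := by
    intro i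
    have h : ‖NormedSpace.inclusionInDoubleDual ℂ E (T i)‖ ≤ C :=
      (NormedSpace.double_dual_bound ℂ E (T i)).trans (hT i)
    exact (dist_zero_right (NormedSpace.inclusionInDoubleDual ℂ E (T i))).trans_le h
  have hle : ((U.map J : Ultrafilter _) : Filter _) ≤ 𝓟 (WeakDual.toStrongDual ⁻¹'
      Metric.closedBall (0 : StrongDual ℂ (StrongDual ℂ E)) C) := by
    rw [Ultrafilter.coe_map, le_principal_iff, mem_map]
    exact Filter.univ_mem' hJ
  obtain ⟨Φ, -, hΦ⟩ := hK.ultrafilter_le_nhds (U.map J) hle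
  refine ⟨WeakDual.toStrongDual Φ, fun f => ?_⟩
  have h1 : Tendsto J (U : Filter ι) (𝓝 Φ) := by
    rw [Tendsto, ← Ultrafilter.coe_map]
    exact hΦ
  exact ((WeakDual.eval_continuous f).tendsto Φ).comp h1

theorem lim_eq {ι : Type} {U : Ultrafilter ι} {T : ι → E}
    {Φ : StrongDual ℂ (StrongDual ℂ E)}
    (hΦ : ∀ f : StrongDual ℂ E, Tendsto (fun i => f (T i)) (U : Filter ι) (𝓝 (Φ f)))
    {f : StrongDual ℂ E} {c : ℂ} (h : ∀ᶠ i in (U : Filter ι), f (T i) = c) : Φ f = c :=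
  tendsto_nhds_unique (hΦ f) ((tendsto_congr' h).2 tendsto_const_nhds)

end lim

/-- the epsilon-delta form of openness -/
theorem exists_of_openMul {B : Type} [NormedAddCommGroup B] {m : B → B → B} (h : OpenMul m)
    (x y : B) {ε : ℝ} (hε : 0 < ε) : ∃ δ > 0, ∀ z : B, ‖z - m x y‖ < δ →
      ∃ u v : B, ‖u - x‖ < ε ∧ ‖v - y‖ < ε ∧ m u v = z := by
  have h1 := h (Metric.ball x ε ×ˢ Metric.ball y ε) (Metric.isOpen_ball.prod Metric.isOpen_ball)
  have h2 : m x y ∈ {z | ∃ p ∈ Metric.ball x ε ×ˢ Metric.ball y ε, z = m p.1 p.2} :=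
    ⟨(x, y), ⟨Metric.mem_ball_self hε, Metric.mem_ball_self hε⟩, rfl⟩
  obtain ⟨r, hr, hball⟩ := Metric.isOpen_iff.1 h1 _ h2
  refine ⟨r, hr, fun z hz => ?_⟩
  obtain ⟨⟨u, v⟩, ⟨hu, hv⟩, huv⟩ := hball (mem_ball_iff_norm.2 hz)
  exact ⟨u, v, mem_ball_iff_norm.1 hu, mem_ball_iff_norm.1 hv, huv.symm⟩

/-- A consequence of weak openness. -/
theorem exists_of_weaklyOpenMul {B : Type} [NormedAddCommGroup B] {m : B → B → B}
    (h : WeaklyOpenMul m) (x y : B) {ε : ℝ} (hε : 0 < ε) :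
    ∃ x' y' : B, ‖x' - x‖ < ε ∧ ‖y' - y‖ < ε ∧ ∃ δ > 0, ∀ z : B, ‖z - m x' y'‖ < δ →
      ∃ u v : B, ‖u - x‖ < ε ∧ ‖v - y‖ < ε ∧ m u v = z := by
  obtain ⟨w, hw⟩ := h (Metric.ball x ε ×ˢ Metric.ball y ε)
    (Metric.isOpen_ball.prod Metric.isOpen_ball)
    ⟨(x, y), Metric.mem_ball_self hε, Metric.mem_ball_self hε⟩
  obtain ⟨r, hr, hball⟩ := Metric.isOpen_iff.1 isOpen_interior w hw
  obtain ⟨⟨x', y'⟩, ⟨hx', hy'⟩, hxy⟩ := interior_subset hw
  refine ⟨x', y', mem_ball_iff_norm.1 hx', mem_ball_iff_norm.1 hy', r, hr, fun z hz => ?_⟩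
  have hz' : z ∈ Metric.ball w r := by
    rw [hxy]
    exact mem_ball_iff_norm.2 hz
  obtain ⟨⟨u, v⟩, ⟨hu, hv⟩, huv⟩ := interior_subset (hball hz')
  exact ⟨u, v, mem_ball_iff_norm.1 hu, mem_ball_iff_norm.1 hv, huv.symm⟩

variable {A : Type} [NonUnitalNormedRing A] [NormedSpace ℂ A] [IsScalarTower ℂ A A]
  [SMulCommClass ℂ A A]

theorem first_char {ω : StrongDual ℂ A} (hω : ∀ a b, ω (a * b) = ω a * ω b)
    (F G : StrongDual ℂ (StrongDual ℂ A)) : first F G ω = F ω * G ω := by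
  change F (bidualDot G ω) = _
  have h : bidualDot G ω = G ω • ω := by
    ext a
    change G (dotRight ω a) = G ω * ω a
    have h1 : dotRight ω a = ω a • ω := by
      ext b
      exact hω a b
    rw [h1, map_smul, smul_eq_mul, mul_comm]
  rw [h, map_smul, smul_eq_mul, mul_comm]

theorem second_char {ω : StrongDual ℂ A} (hω : ∀ a b, ω (a * b) = ω a * ω b)
    (F G : StrongDual ℂ (StrongDual ℂ A)) : second F G ω = F ω * G ω := by
  change G (dotBidual ω F) = _
  have h : dotBidual ω F = F ω • ω := by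
    ext a
    change F (dotLeft a ω) = F ω * ω a
    have h1 : dotLeft a ω = ω a • ω := by
      ext b
      change ω (b * a) = ω a * ω b
      rw [hω, mul_comm]
    rw [h1, map_smul, smul_eq_mul, mul_comm]
  rw [h, map_smul, smul_eq_mul, mul_comm]

end Q90.Arens
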