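import Mathlib
import Pool.Agent.Q90.ArensBasic

/-!
A Banach algebra with open multiplication whose bidual does not have open multiplication.

The algebra is the `c_0`-sum of the algebras `ℂ³` with the norms
`|x| + (k+1)|x - y| + (k+1)|x - z|`; we use the coordinates `x`, `p = (k+1)(x - y)`,
`q = (k+1)(x - z)`.
-/

set_option autoImplicit false
set_option linter.unusedSectionVars false

open Filter Topology
open scoped ZeroAtInfty

namespace Q90.Arens.Ex1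

/-- the fibre -/
abbrev F3 : Type := PiLp 1 (fun _ : Fin 3 => ℂ)

/-- `1/(k+1)` -/
noncomputable def c (k : ℕ) : ℂ := 1 / ((k : ℂ) + 1)

theorem norm_c (k : ℕ) : ‖c k‖ = 1 / ((k : ℝ) + 1) := by
  have h : ((k : ℂ) + 1) = (((k : ℝ) + 1 : ℝ) : ℂ) := by push_cast; rfl
  rw [c, h, norm_div, norm_one, Complex.norm_real, Real.norm_of_nonneg (by positivity)]

theorem norm_c_le (k : ℕ) : ‖c k‖ ≤ 1 := by
  rw [norm_c]
  rw [div_le_one (by positivity)]
  linarith [(Nat.cast_nonneg k : (0:ℝ) ≤ k)]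

theorem c_ne (k : ℕ) : c k ≠ 0 := by
  rw [← norm_pos_iff, norm_c]
  positivity

theorem norm_F3 (a : F3) : ‖a‖ = ‖a 0‖ + ‖a 1‖ + ‖a 2‖ := by
  rw [PiLp.norm_eq_of_L1, Fin.sum_univ_three]

/-- constructor -/
noncomputable def mk (x p q : ℂ) : F3 := WithLp.toLp 1 ![x, p, q]

@[simp] theorem mk0 (x p q : ℂ) : (mk x p q) 0 = x := rfl
@[simp] theorem mk1 (x p q : ℂ) : (mk x p q) 1 = p := rfl
@[simp] theorem mk2 (x p q : ℂ) : (mk x p q) 2 = q := rfl

theorem F3_ext {a b : F3} (h0 : a 0 = b 0) (h1 : a 1 = b 1) (h2 : a 2 = b 2) : a = b := by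
  ext i
  fin_cases i
  · exact h0
  · exact h1
  · exact h2

theorem add_app (a b : F3) (i : Fin 3) : (a + b) i = a i + b i := rfl
theorem sub_app (a b : F3) (i : Fin 3) : (a - b) i = a i - b i := rfl
theorem smul_app (t : ℂ) (a : F3) (i : Fin 3) : (t • a) i = t * a i := rfl
theorem zero_app (i : Fin 3) : (0 : F3) i = 0 := rfl

/-- the product in the fibre -/
noncomputable def fmul (k : ℕ) (a b : F3) : F3 :=
  mk (a 0 * b 0) (a 0 * b 1 + a 1 * b 0 - c k * (a 1 * b 1))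
    (a 0 * b 2 + a 2 * b 0 - c k * (a 2 * b 2))

theorem norm_fmul_le (k : ℕ) (a b : F3) : ‖fmul k a b‖ ≤ ‖a‖ * ‖b‖ := by
  have key : ∀ x y u v : ℂ, ‖x * v + u * y - c k * (u * v)‖ ≤
      ‖x‖ * ‖v‖ + ‖u‖ * ‖y‖ + ‖u‖ * ‖v‖ := by
    intro x y u v
    calc ‖x * v + u * y - c k * (u * v)‖ ≤ ‖x * v‖ + ‖u * y‖ + ‖c k * (u * v)‖ :=
          (norm_sub_le _ _).trans (add_le_add_left (norm_add_le _ _) _)
      _ = ‖x‖ * ‖v‖ + ‖u‖ * ‖y‖ + ‖c k‖ * (‖u‖ * ‖v‖) := by simp only [norm_mul]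
      _ ≤ ‖x‖ * ‖v‖ + ‖u‖ * ‖y‖ + 1 * (‖u‖ * ‖v‖) := by
          gcongr
          exact norm_c_le k
      _ = _ := by ring
  rw [norm_F3, norm_F3 a, norm_F3 b]
  have h1 := key (a 0) (b 0) (a 1) (b 1)
  have h2 := key (a 0) (b 0) (a 2) (b 2)
  have h0 : ‖(fmul k a b) 0‖ = ‖a 0‖ * ‖b 0‖ := norm_mul _ _
  have h1' : ‖(fmul k a b) 1‖ ≤ ‖a 0‖ * ‖b 1‖ + ‖a 1‖ * ‖b 0‖ + ‖a 1‖ * ‖b 1‖ := h1
  have h2' : ‖(fmul k a b) 2‖ ≤ ‖a 0‖ * ‖b 2‖ + ‖a 2‖ * ‖b 0‖ + ‖a 2‖ * ‖b 2‖ := h2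
  have p12 : 0 ≤ ‖a 1‖ * ‖b 2‖ := by positivity
  have p21 : 0 ≤ ‖a 2‖ * ‖b 1‖ := by positivity
  nlinarith

/-- The algebra. -/
def Alg : Type := C₀(ℕ, F3)

noncomputable instance : NormedAddCommGroup Alg := inferInstanceAs (NormedAddCommGroup C₀(ℕ, F3))
noncomputable instance : NormedSpace ℂ Alg := inferInstanceAs (NormedSpace ℂ C₀(ℕ, F3))
instance : CompleteSpace Alg := inferInstanceAs (CompleteSpace C₀(ℕ, F3))
instance : FunLike Alg ℕ F3 := inferInstanceAs (FunLike C₀(ℕ, F3) ℕ F3)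

theorem alg_ext {a b : Alg} (h : ∀ k, a k = b k) : a = b := DFunLike.ext _ _ h
theorem alg_add (a b : Alg) (k : ℕ) : (a + b) k = a k + b k := rfl
theorem alg_sub (a b : Alg) (k : ℕ) : (a - b) k = a k - b k := rfl
theorem alg_smul (t : ℂ) (a : Alg) (k : ℕ) : (t • a) k = t • a k := rfl
theorem alg_zero (k : ℕ) : (0 : Alg) k = 0 := rfl

theorem tendsto_alg (a : Alg) : Tendsto (fun k => a k) atTop (𝓝 0) := by
  have h := ZeroAtInftyContinuousMap.zero_at_infty' (a : C₀(ℕ, F3))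
  rw [cocompact_eq_cofinite, Nat.cofinite_eq_atTop] at h
  exact h

theorem norm_apply_le (a : Alg) (k : ℕ) : ‖a k‖ ≤ ‖a‖ :=
  (ZeroAtInftyContinuousMap.toBCF (a : C₀(ℕ, F3))).norm_coe_le_norm k

theorem norm_alg_le {a : Alg} {C : ℝ} (hC : 0 ≤ C) (h : ∀ k, ‖a k‖ ≤ C) : ‖a‖ ≤ C :=
  (BoundedContinuousFunction.norm_le (f := ZeroAtInftyContinuousMap.toBCF (a : C₀(ℕ, F3))) hC).2 h

/-- build an element -/
noncomputable def ofSeq (f : ℕ → F3) (hf : Tendsto f atTop (𝓝 0)) : Alg :=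
  (⟨⟨f, continuous_of_discreteTopology⟩, by rw [cocompact_eq_cofinite, Nat.cofinite_eq_atTop]; exact hf⟩ : C₀(ℕ, F3))

theorem ofSeq_apply (f : ℕ → F3) (hf : Tendsto f atTop (𝓝 0)) (k : ℕ) : ofSeq f hf k = f k := rfl

theorem tendsto_fmul (a b : Alg) : Tendsto (fun k => fmul k (a k) (b k)) atTop (𝓝 0) := by
  rw [tendsto_zero_iff_norm_tendsto_zero]
  have h : Tendsto (fun k => ‖a k‖ * ‖b k‖) atTop (𝓝 (0 * 0)) :=
    (tendsto_zero_iff_norm_tendsto_zero.1 (tendsto_alg a)).mul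
      (tendsto_zero_iff_norm_tendsto_zero.1 (tendsto_alg b))
  rw [mul_zero] at h
  exact squeeze_zero (fun k => norm_nonneg _) (fun k => norm_fmul_le k _ _) h

noncomputable instance : Mul Alg := ⟨fun a b => ofSeq (fun k => fmul k (a k) (b k)) (tendsto_fmul a b)⟩

theorem alg_mul (a b : Alg) (k : ℕ) : (a * b) k = fmul k (a k) (b k) := rfl

noncomputable instance : NonUnitalNormedRing Alg where
  left_distrib a b d := by
    apply alg_ext
    intro k
    rw [alg_mul, alg_add, alg_add, alg_mul, alg_mul]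
    apply F3_ext <;> simp only [fmul, add_app, mk0, mk1, mk2] <;> ring
  right_distrib a b d := by
    apply alg_ext
    intro k
    rw [alg_mul, alg_add, alg_add, alg_mul, alg_mul]
    apply F3_ext <;> simp only [fmul, add_app, mk0, mk1, mk2] <;> ring
  zero_mul a := by
    apply alg_ext
    intro k
    rw [alg_mul, alg_zero]
    apply F3_ext <;> simp only [fmul, zero_app, mk0, mk1, mk2] <;> ring
  mul_zero a := by
    apply alg_ext
    intro k
    rw [alg_mul, alg_zero]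
    apply F3_ext <;> simp only [fmul, zero_app, mk0, mk1, mk2] <;> ring
  mul_assoc a b d := by
    apply alg_ext
    intro k
    rw [alg_mul, alg_mul, alg_mul, alg_mul]
    apply F3_ext <;> simp only [fmul, mk0, mk1, mk2] <;> ring
  dist_eq a b := by
    rw [dist_eq_norm_neg_add]
  norm_mul_le a b := by
    refine norm_alg_le (by positivity) fun k => ?_
    rw [alg_mul]
    refine (norm_fmul_le k _ _).trans ?_
    exact mul_le_mul (norm_apply_le a k) (norm_apply_le b k) (norm_nonneg _) (norm_nonneg _)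

instance : IsScalarTower ℂ Alg Alg := ⟨fun t a b => by
  apply alg_ext
  intro k
  rw [smul_eq_mul, smul_eq_mul, alg_mul, alg_smul, alg_smul, alg_mul]
  apply F3_ext <;> simp only [fmul, smul_app, mk0, mk1, mk2] <;> ring⟩

instance : SMulCommClass ℂ Alg Alg := ⟨fun t a b => by
  apply alg_ext
  intro k
  rw [smul_eq_mul, smul_eq_mul, alg_mul, alg_smul, alg_smul, alg_mul]
  apply F3_ext <;> simp only [fmul, smul_app, mk0, mk1, mk2] <;> ring⟩

/-! ### Openness of the multiplication -/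

theorem complex_open (x y : ℂ) {ε : ℝ} (hε : 0 < ε) : ∃ δ > 0, ∀ z : ℂ, ‖z - x * y‖ < δ →
    ∃ u v : ℂ, ‖u - x‖ < ε ∧ ‖v - y‖ < ε ∧ u * v = z := by
  by_cases hx : x = 0
  · by_cases hy : y = 0
    · subst hx hy
      refine ⟨ε ^ 2 / 2, by positivity, fun z hz => ?_⟩
      rw [mul_zero, sub_zero] at hz
      refine ⟨(ε * (3 / 4) : ℝ), z / (ε * (3 / 4) : ℝ), ?_, ?_, ?_⟩
      · rw [sub_zero, Complex.norm_real, Real.norm_of_nonneg (by positivity)]
        linarith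
      · rw [sub_zero, norm_div, Complex.norm_real, Real.norm_of_nonneg (by positivity),
          div_lt_iff₀ (by positivity)]
        nlinarith
      · have : ((ε * (3 / 4) : ℝ) : ℂ) ≠ 0 := by
          rw [Complex.ofReal_ne_zero]; positivity
        exact mul_div_cancel₀ z this
    · have hy' : 0 < ‖y‖ := norm_pos_iff.2 hy
      refine ⟨ε * ‖y‖, by positivity, fun z hz => ⟨z / y, y, ?_, by simpa using hε, ?_⟩⟩
      · have : z / y - x = (z - x * y) / y := by field_simp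
        rw [this, norm_div, div_lt_iff₀ hy']
        exact hz
      · field_simp
  · have hx' : 0 < ‖x‖ := norm_pos_iff.2 hx
    refine ⟨ε * ‖x‖, by positivity, fun z hz => ⟨x, z / x, by simpa using hε, ?_, ?_⟩⟩
    · have : z / x - y = (z - x * y) / x := by field_simp
      rw [this, norm_div, div_lt_iff₀ hx']
      exact hz
    · field_simp

/-- The multiplication of the fibre is open. -/
theorem fibre_open (k : ℕ) (a b : F3) {ε : ℝ} (hε : 0 < ε) : ∃ δ > 0, ∀ z : F3,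
    ‖z - fmul k a b‖ < δ → ∃ u v : F3, ‖u - a‖ < ε ∧ ‖v - b‖ < ε ∧ fmul k u v = z := by
  set t : ℂ := c k with ht
  have ht0 : t ≠ 0 := c_ne k
  have htn : 0 < ‖t‖ := norm_pos_iff.2 ht0
  have htn1 : ‖t‖ ≤ 1 := norm_c_le k
  set e : ℝ := ε * ‖t‖ / 8 with he
  have he0 : 0 < e := by positivity
  have het : e / ‖t‖ = ε / 8 := by rw [he]; field_simp
  have hee : e ≤ ε / 8 := by
    rw [he]
    have : ε * ‖t‖ ≤ ε * 1 := mul_le_mul_of_nonneg_left htn1 hε.le
    linarith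
  obtain ⟨d0, hd0, H0⟩ := complex_open (a 0) (b 0) he0
  obtain ⟨d1, hd1, H1⟩ := complex_open (a 0 - t * a 1) (b 0 - t * b 1) he0
  obtain ⟨d2, hd2, H2⟩ := complex_open (a 0 - t * a 2) (b 0 - t * b 2) he0
  refine ⟨min d0 (min d1 d2), by positivity, fun z hz => ?_⟩
  have hz0 : ‖z - fmul k a b‖ < d0 := lt_of_lt_of_le hz (min_le_left _ _)
  have hz1 : ‖z - fmul k a b‖ < d1 :=
    lt_of_lt_of_le hz ((min_le_right _ _).trans (min_le_left _ _))
  have hz2 : ‖z - fmul k a b‖ < d2 :=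
    lt_of_lt_of_le hz ((min_le_right _ _).trans (min_le_right _ _))
  set w := z - fmul k a b with hw
  have hwn : ‖w‖ = ‖w 0‖ + ‖w 1‖ + ‖w 2‖ := norm_F3 w
  have e0 : w 0 = z 0 - a 0 * b 0 := rfl
  have e1 : w 1 = z 1 - (a 0 * b 1 + a 1 * b 0 - t * (a 1 * b 1)) := rfl
  have e2 : w 2 = z 2 - (a 0 * b 2 + a 2 * b 0 - t * (a 2 * b 2)) := rfl
  have tw : ∀ i : Fin 3, ‖t * w i‖ ≤ ‖w i‖ := fun i => by
    rw [norm_mul]
    calc ‖t‖ * ‖w i‖ ≤ 1 * ‖w i‖ := mul_le_mul_of_nonneg_right htn1 (norm_nonneg _)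
      _ = _ := one_mul _
  obtain ⟨u0, v0, hu0, hv0, h0⟩ := H0 (z 0) (by
    rw [← e0]
    linarith [norm_nonneg (w 1), norm_nonneg (w 2)])
  obtain ⟨u1, v1, hu1, hv1, h1⟩ := H1 (z 0 - t * z 1) (by
    have : z 0 - t * z 1 - (a 0 - t * a 1) * (b 0 - t * b 1) = w 0 - t * w 1 := by
      rw [e0, e1]; ring
    rw [this]
    refine lt_of_le_of_lt (norm_sub_le _ _) ?_
    linarith [tw 1, norm_nonneg (w 2)])
  obtain ⟨u2, v2, hu2, hv2, h2⟩ := H2 (z 0 - t * z 2) (by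
    have : z 0 - t * z 2 - (a 0 - t * a 2) * (b 0 - t * b 2) = w 0 - t * w 2 := by
      rw [e0, e2]; ring
    rw [this]
    refine lt_of_le_of_lt (norm_sub_le _ _) ?_
    linarith [tw 2, norm_nonneg (w 1)])
  -- distances of the last two coordinates
  have dist_lemma : ∀ (x p x' y' : ℂ), ‖x' - x‖ < e → ‖y' - (x - t * p)‖ < e →
      ‖(x' - y') / t - p‖ < ε / 4 := by
    intro x p x' y' h1 h2
    have : (x' - y') / t - p = ((x' - x) - (y' - (x - t * p))) / t := by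
      field_simp
      ring
    rw [this, norm_div, div_lt_iff₀ htn]
    calc ‖(x' - x) - (y' - (x - t * p))‖ ≤ ‖x' - x‖ + ‖y' - (x - t * p)‖ := norm_sub_le _ _
      _ < e + e := add_lt_add h1 h2
      _ = ε / 4 * ‖t‖ := by rw [he]; ring
  refine ⟨mk u0 ((u0 - u1) / t) ((u0 - u2) / t), mk v0 ((v0 - v1) / t) ((v0 - v2) / t), ?_, ?_, ?_⟩
  · rw [norm_F3]
    have g1 := dist_lemma (a 0) (a 1) u0 u1 hu0 hu1
    have g2 := dist_lemma (a 0) (a 2) u0 u2 hu0 hu2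
    change ‖u0 - a 0‖ + ‖(u0 - u1) / t - a 1‖ + ‖(u0 - u2) / t - a 2‖ < ε
    linarith
  · rw [norm_F3]
    have g1 := dist_lemma (b 0) (b 1) v0 v1 hv0 hv1
    have g2 := dist_lemma (b 0) (b 2) v0 v2 hv0 hv2
    change ‖v0 - b 0‖ + ‖(v0 - v1) / t - b 1‖ + ‖(v0 - v2) / t - b 2‖ < ε
    linarith
  · apply F3_ext
    · exact h0
    · change u0 * ((v0 - v1) / t) + (u0 - u1) / t * v0 - t * ((u0 - u1) / t * ((v0 - v1) / t)) = z 1
      have : z 1 = (z 0 - (z 0 - t * z 1)) / t := by field_simp; ring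
      rw [← h1, ← h0] at this
      rw [this]
      field_simp
      ring
    · change u0 * ((v0 - v2) / t) + (u0 - u2) / t * v0 - t * ((u0 - u2) / t * ((v0 - v2) / t)) = z 2
      have : z 2 = (z 0 - (z 0 - t * z 2)) / t := by field_simp; ring
      rw [← h2, ← h0] at this
      rw [this]
      field_simp
      ring

/-- Small elements of the fibre are products of small elements. -/
theorem fibre_small (k : ℕ) (z : F3) : ∃ u v : F3, ‖u‖ = Real.sqrt ‖z‖ ∧ ‖v‖ = Real.sqrt ‖z‖ ∧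
    fmul k u v = z := by
  by_cases hz : z = 0
  · subst hz
    refine ⟨0, 0, by simp, by simp, ?_⟩
    apply F3_ext <;> simp [fmul]
  · have hz' : 0 < ‖z‖ := norm_pos_iff.2 hz
    set r := Real.sqrt ‖z‖ with hr
    have hr0 : 0 < r := Real.sqrt_pos.2 hz'
    have hrr : r * r = ‖z‖ := Real.mul_self_sqrt hz'.le
    have hrc : ((r : ℝ) : ℂ) ≠ 0 := Complex.ofReal_ne_zero.2 hr0.ne'
    refine ⟨mk r 0 0, ((r : ℂ))⁻¹ • z, ?_, ?_, ?_⟩
    · rw [norm_F3]
      change ‖(r : ℂ)‖ + ‖(0 : ℂ)‖ + ‖(0 : ℂ)‖ = r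
      rw [norm_zero, add_zero, add_zero, Complex.norm_real, Real.norm_of_nonneg hr0.le]
    · rw [norm_smul, norm_inv, Complex.norm_real, Real.norm_of_nonneg hr0.le, ← hrr]
      field_simp
    · apply F3_ext
      · change (r : ℂ) * ((r : ℂ)⁻¹ * z 0) = z 0
        field_simp
      · change (r : ℂ) * ((r : ℂ)⁻¹ * z 1) + 0 * ((r : ℂ)⁻¹ * z 0) - c k * (0 * ((r : ℂ)⁻¹ * z 1)) = z 1
        field_simp
        ring
      · change (r : ℂ) * ((r : ℂ)⁻¹ * z 2) + 0 * ((r : ℂ)⁻¹ * z 0) - c k * (0 * ((r : ℂ)⁻¹ * z 2)) = z 2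
        field_simp
        ring

/-- The multiplication of the algebra is open, epsilon-delta form. -/
theorem alg_open' (a b : Alg) {ε : ℝ} (hε : 0 < ε) : ∃ δ > 0, ∀ z : Alg,
    ‖z - a * b‖ < δ → ∃ u v : Alg, ‖u - a‖ < ε ∧ ‖v - b‖ < ε ∧ u * v = z := by
  -- from some index on everything is small
  obtain ⟨N, hN⟩ : ∃ N, ∀ k ≥ N, ‖a k‖ ≤ ε / 8 ∧ ‖b k‖ ≤ ε / 8 := by
    have h1 := (tendsto_zero_iff_norm_tendsto_zero.1 (tendsto_alg a)).eventually_le_const
      (show (0 : ℝ) < ε / 8 by positivity)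
    have h2 := (tendsto_zero_iff_norm_tendsto_zero.1 (tendsto_alg b)).eventually_le_const
      (show (0 : ℝ) < ε / 8 by positivity)
    obtain ⟨N, hN⟩ := eventually_atTop.1 (h1.and h2)
    exact ⟨N, hN⟩
  choose d hd H using fun k => fibre_open k (a k) (b k) (show (0 : ℝ) < ε / 2 by positivity)
  obtain ⟨δ₁, hδ₁, hδ₁'⟩ : ∃ δ₁ > 0, ∀ k < N, δ₁ ≤ d k := by
    by_cases h0 : N = 0
    · exact ⟨1, one_pos, fun k hk => by omega⟩
    · have hne : (Finset.range N).Nonempty := ⟨0, Finset.mem_range.2 (Nat.pos_of_ne_zero h0)⟩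
      refine ⟨(Finset.range N).inf' hne d, ?_, fun k hk => Finset.inf'_le _ (Finset.mem_range.2 hk)⟩
      rw [gt_iff_lt, Finset.lt_inf'_iff]
      exact fun k _ => hd k
  refine ⟨min δ₁ (ε ^ 2 / 64), by positivity, fun z hz => ?_⟩
  have hzk : ∀ k, ‖z k - fmul k (a k) (b k)‖ < min δ₁ (ε ^ 2 / 64) := by
    intro k
    exact lt_of_le_of_lt (norm_apply_le (z - a * b) k) hz
  choose u' v' hu' hv' huv' using fun k => fibre_small k (z k)
  have hex : ∀ k, ∃ p : F3 × F3, ‖p.1 - a k‖ ≤ ε / 2 ∧ ‖p.2 - b k‖ ≤ ε / 2 ∧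
      fmul k p.1 p.2 = z k ∧ (N ≤ k → p = (u' k, v' k)) := by
    intro k
    by_cases hk : k < N
    · obtain ⟨u, v, hu, hv, huv⟩ := H k (z k) (lt_of_lt_of_le (hzk k)
        ((min_le_left _ _).trans (hδ₁' k hk)))
      exact ⟨(u, v), hu.le, hv.le, huv, fun h => absurd hk (not_lt.2 h)⟩
    · have hk' : N ≤ k := not_lt.1 hk
      obtain ⟨ha, hb⟩ := hN k hk'
      have hz1 : ‖z k‖ ≤ ε ^ 2 / 16 := by
        have h1 : ‖z k - fmul k (a k) (b k)‖ < ε ^ 2 / 64 :=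
          lt_of_lt_of_le (hzk k) (min_le_right _ _)
        have h2 : ‖fmul k (a k) (b k)‖ ≤ ε / 8 * (ε / 8) :=
          (norm_fmul_le k _ _).trans (mul_le_mul ha hb (norm_nonneg _) (by positivity))
        have h3 : ‖z k‖ ≤ ‖z k - fmul k (a k) (b k)‖ + ‖fmul k (a k) (b k)‖ := by
          have := norm_add_le (z k - fmul k (a k) (b k)) (fmul k (a k) (b k))
          rwa [sub_add_cancel] at this
        nlinarith
      have hz2 : Real.sqrt ‖z k‖ ≤ ε / 4 := by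
        rw [show ε / 4 = Real.sqrt ((ε / 4) ^ 2) from (Real.sqrt_sq (by positivity)).symm]
        refine Real.sqrt_le_sqrt (hz1.trans ?_)
        nlinarith
      refine ⟨(u' k, v' k), ?_, ?_, huv' k, fun _ => rfl⟩
      · calc ‖u' k - a k‖ ≤ ‖u' k‖ + ‖a k‖ := norm_sub_le _ _
          _ ≤ ε / 4 + ε / 8 := add_le_add ((hu' k).le.trans hz2) ha
          _ ≤ ε / 2 := by linarith
      · calc ‖v' k - b k‖ ≤ ‖v' k‖ + ‖b k‖ := norm_sub_le _ _
          _ ≤ ε / 4 + ε / 8 := add_le_add ((hv' k).le.trans hz2) hb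
          _ ≤ ε / 2 := by linarith
  choose P hP1 hP2 hP3 hP4 using hex
  have hsq : Tendsto (fun k => Real.sqrt ‖z k‖) atTop (𝓝 0) := by
    have := (Real.continuous_sqrt.tendsto 0).comp
      (tendsto_zero_iff_norm_tendsto_zero.1 (tendsto_alg z))
    rwa [Real.sqrt_zero] at this
  have hu : Tendsto (fun k => (P k).1) atTop (𝓝 0) := by
    rw [tendsto_zero_iff_norm_tendsto_zero]
    refine (tendsto_congr' ?_).2 hsq
    filter_upwards [eventually_ge_atTop N] with k hk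
    rw [hP4 k hk]
    exact hu' k
  have hv : Tendsto (fun k => (P k).2) atTop (𝓝 0) := by
    rw [tendsto_zero_iff_norm_tendsto_zero]
    refine (tendsto_congr' ?_).2 hsq
    filter_upwards [eventually_ge_atTop N] with k hk
    rw [hP4 k hk]
    exact hv' k
  refine ⟨ofSeq _ hu, ofSeq _ hv, ?_, ?_, ?_⟩
  · refine lt_of_le_of_lt (norm_alg_le (by positivity) fun k => hP1 k) (by linarith)
  · refine lt_of_le_of_lt (norm_alg_le (by positivity) fun k => hP2 k) (by linarith)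
  · apply alg_ext
    intro k
    exact hP3 k

theorem openMul_alg : OpenMul (fun a b : Alg => a * b) := by
  intro W hW
  rw [Metric.isOpen_iff]
  rintro z ⟨⟨a, b⟩, hab, rfl⟩
  obtain ⟨ε, hε, hball⟩ := Metric.isOpen_iff.1 hW (a, b) hab
  obtain ⟨δ, hδ, H⟩ := alg_open' a b hε
  refine ⟨δ, hδ, fun z hz => ?_⟩
  rw [mem_ball_iff_norm] at hz
  obtain ⟨u, v, hu, hv, huv⟩ := H z hz
  refine ⟨(u, v), hball ?_, huv.symm⟩
  rw [mem_ball_iff_norm]
  exact max_lt hu hv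

end Q90.Arens.Ex1
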