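import Mathlib
import Pool.Agent.Q90.ArensOpen

/-!
The bidual of the algebra of `Pool.Agent.Q90.ArensOpen` does not have open multiplication.
-/

set_option autoImplicit false
set_option linter.unusedSectionVars false

open Filter Topology

namespace Q90.Arens.Ex1

/-- coordinate functionals -/
noncomputable def ev (k : ℕ) (i : Fin 3) : StrongDual ℂ Alg :=
  LinearMap.mkContinuous
    { toFun := fun a => (a k) i
      map_add' := fun a b => rfl
      map_smul' := fun t a => rfl } 1 (fun a => by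
      rw [one_mul]
      exact (PiLp.norm_apply_le (a k) i).trans (norm_apply_le a k))

theorem ev_apply (k : ℕ) (i : Fin 3) (a : Alg) : ev k i a = (a k) i := rfl

theorem norm_ev_le (k : ℕ) (i : Fin 3) : ‖ev k i‖ ≤ 1 :=
  LinearMap.mkContinuous_norm_le _ zero_le_one _

theorem char0 (k : ℕ) (a b : Alg) : ev k 0 (a * b) = ev k 0 a * ev k 0 b := rfl

theorem char_i (k : ℕ) (i : Fin 3) (hi : i ≠ 0) (a b : Alg) :
    (ev k 0 - c k • ev k i) (a * b) = (ev k 0 - c k • ev k i) a * (ev k 0 - c k • ev k i) b := by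
  change (a * b) k 0 - c k * ((a * b) k i) = (a k 0 - c k * (a k i)) * (b k 0 - c k * (b k i))
  fin_cases i
  · exact absurd rfl hi
  · change a k 0 * b k 0 - c k * (a k 0 * b k 1 + a k 1 * b k 0 - c k * (a k 1 * b k 1)) =
      (a k 0 - c k * (a k 1)) * (b k 0 - c k * (b k 1))
    ring
  · change a k 0 * b k 0 - c k * (a k 0 * b k 2 + a k 2 * b k 0 - c k * (a k 2 * b k 2)) =
      (a k 0 - c k * (a k 2)) * (b k 0 - c k * (b k 2))
    ring

/-- the unit vectors of the fibre -/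
noncomputable def e (i : Fin 3) : F3 := WithLp.toLp 1 (Pi.single i 1)

theorem e_apply (i j : Fin 3) : (e i) j = if j = i then 1 else 0 := by
  change (Pi.single i (1 : ℂ) : Fin 3 → ℂ) j = _
  rw [Pi.single_apply]

theorem norm_e (i : Fin 3) : ‖e i‖ = 1 := by
  rw [norm_F3]
  simp only [e_apply]
  fin_cases i <;> simp

/-- truncations -/
noncomputable def trunc (i : Fin 3) (N : ℕ) : Alg :=
  ofSeq (fun k => if k ≤ N then e i else 0) (by
    refine (tendsto_congr' ?_).2 tendsto_const_nhds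
    filter_upwards [eventually_gt_atTop N] with k hk
    rw [if_neg (not_le.2 hk)])

theorem norm_trunc_le (i : Fin 3) (N : ℕ) : ‖trunc i N‖ ≤ 1 := by
  refine norm_alg_le zero_le_one fun k => ?_
  rw [trunc, ofSeq_apply]
  split_ifs
  · exact (norm_e i).le
  · rw [norm_zero]; exact zero_le_one

theorem exists_bidual (i : Fin 3) : ∃ Φ : StrongDual ℂ (StrongDual ℂ Alg),
    ∀ k j, Φ (ev k j) = if j = i then 1 else 0 := by
  obtain ⟨Φ, hΦ⟩ := exists_lim (hyperfilter ℕ) (trunc i) (norm_trunc_le i)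
  refine ⟨Φ, fun k j => lim_eq hΦ ?_⟩
  have h : ∀ᶠ N in (atTop : Filter ℕ), ev k j (trunc i N) = if j = i then 1 else 0 := by
    filter_upwards [eventually_ge_atTop k] with N hN
    rw [ev_apply, trunc, ofSeq_apply, if_pos hN, e_apply]
  exact Nat.hyperfilter_le_atTop h

theorem not_open_aux {D : Type} [NormedAddCommGroup D] [NormedSpace ℂ D] (ev : ℕ → Fin 3 → D)
    (hev : ∀ k i, ‖ev k i‖ ≤ 1) (isChar : D → Prop) (hc0 : ∀ k, isChar (ev k 0))
    (hci : ∀ k (i : Fin 3), i ≠ 0 → isChar (ev k 0 - c k • ev k i))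
    (E Φ Ψ : StrongDual ℂ D)
    (hE : ∀ k j, E (ev k j) = if j = 0 then 1 else 0)
    (hΦ : ∀ k j, Φ (ev k j) = if j = 1 then 1 else 0)
    (hΨ : ∀ k j, Ψ (ev k j) = if j = 2 then 1 else 0)
    (m : StrongDual ℂ D → StrongDual ℂ D → StrongDual ℂ D)
    (hm : ∀ F G ω, isChar ω → m F G ω = F ω * G ω) : ¬ OpenMul m := by
  intro hopen
  obtain ⟨r, hr, hball⟩ := exists_of_openMul hopen Φ Ψ (show (0 : ℝ) < 1 / 4 by norm_num)
  set η : ℝ := r / (2 * (‖E‖ + 1)) with hη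
  have hη0 : 0 < η := by positivity
  have hmem : ‖(m Φ Ψ + (η : ℂ) • E) - m Φ Ψ‖ < r := by
    rw [add_sub_cancel_left, norm_smul, Complex.norm_real,
      Real.norm_of_nonneg hη0.le, hη, div_mul_eq_mul_div, div_lt_iff₀ (by positivity)]
    nlinarith [norm_nonneg E]
  obtain ⟨F, G, hF, hG, hFG'⟩ := hball _ hmem
  -- contradiction: `η ≤ 1 / (k + 1)` for all `k`
  have key : ∀ k : ℕ, η ≤ 1 / ((k : ℝ) + 1) := by
    intro k
    have hdF : ∀ j, ‖F (ev k j) - Φ (ev k j)‖ < 1 / 4 := fun j => by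
      rw [← sub_apply]
      refine lt_of_le_of_lt ((F - Φ).le_opNorm _) ?_
      calc ‖F - Φ‖ * ‖ev k j‖ ≤ ‖F - Φ‖ * 1 :=
            mul_le_mul_of_nonneg_left (hev k j) (norm_nonneg _)
        _ < 1 / 4 := by rw [mul_one]; exact hF
    have hdG : ∀ j, ‖G (ev k j) - Ψ (ev k j)‖ < 1 / 4 := fun j => by
      rw [← sub_apply]
      refine lt_of_le_of_lt ((G - Ψ).le_opNorm _) ?_
      calc ‖G - Ψ‖ * ‖ev k j‖ ≤ ‖G - Ψ‖ * 1 :=
            mul_le_mul_of_nonneg_left (hev k j) (norm_nonneg _)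
        _ < 1 / 4 := by rw [mul_one]; exact hG
    set t : ℂ := c k with ht
    have ht0 : t ≠ 0 := c_ne k
    set a := F (ev k 0) with ha
    set b := G (ev k 0) with hb
    set P := F (ev k 1) with hP
    set Q := F (ev k 2) with hQ
    set P' := G (ev k 1) with hP'
    set Q' := G (ev k 2) with hQ'
    have eP : ‖P - 1‖ < 1 / 4 := by simpa [hΦ] using hdF 1
    have eQ : ‖Q‖ < 1 / 4 := by simpa [hΦ] using hdF 2
    have eP' : ‖P'‖ < 1 / 4 := by simpa [hΨ] using hdG 1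
    have eQ' : ‖Q' - 1‖ < 1 / 4 := by simpa [hΨ] using hdG 2
    -- values at the three characters
    have v0 : a * b = η := by
      have h := congrArg (fun T : StrongDual ℂ D => T (ev k 0)) hFG'
      change (m F G) (ev k 0) = (m Φ Ψ) (ev k 0) + (η : ℂ) * E (ev k 0) at h
      rw [hm _ _ _ (hc0 k), hm _ _ _ (hc0 k), hΦ, hΨ, hE] at h
      simpa using h
    have vi : ∀ i : Fin 3, i ≠ 0 → (i = 1 ∨ i = 2) →
        (a - t * F (ev k i)) * (b - t * G (ev k i)) = η := by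
      intro i hi hi'
      have h := congrArg (fun T : StrongDual ℂ D =>
        T (ev k 0 - c k • ev k i)) hFG'
      change (m F G) (ev k 0 - c k • ev k i) = (m Φ Ψ) (ev k 0 - c k • ev k i) +
        (η : ℂ) * E (ev k 0 - c k • ev k i) at h
      rw [hm _ _ _ (hci k i hi), hm _ _ _ (hci k i hi)] at h
      simp only [map_sub, map_smul, smul_eq_mul, hΦ, hΨ, hE] at h
      rcases hi' with rfl | rfl
      · simpa using h
      · simpa using h
    have v1 := vi 1 (by decide) (Or.inl rfl)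
    have v2 := vi 2 (by decide) (Or.inr rfl)
    have w1 : a * P' + b * P = t * (P * P') := by
      have : t * (a * P' + b * P - t * (P * P')) = 0 := by
        linear_combination v0 - v1
      rcases mul_eq_zero.1 this with h | h
      · exact absurd h ht0
      · linear_combination h
    have w2 : a * Q' + b * Q = t * (Q * Q') := by
      have : t * (a * Q' + b * Q - t * (Q * Q')) = 0 := by
        linear_combination v0 - v2
      rcases mul_eq_zero.1 this with h | h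
      · exact absurd h ht0
      · linear_combination h
    have hPl : 3 / 4 ≤ ‖P‖ := by
      have := norm_sub_norm_le (1 : ℂ) P
      rw [norm_one, norm_sub_rev] at this
      linarith
    have hPu : ‖P‖ ≤ 5 / 4 := by
      have := norm_sub_norm_le P (1 : ℂ)
      rw [norm_one] at this
      linarith
    have hQl : 3 / 4 ≤ ‖Q'‖ := by
      have := norm_sub_norm_le (1 : ℂ) Q'
      rw [norm_one, norm_sub_rev] at this
      linarith
    have hQu : ‖Q'‖ ≤ 5 / 4 := by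
      have := norm_sub_norm_le Q' (1 : ℂ)
      rw [norm_one] at this
      linarith
    have x1 : ‖b‖ * ‖P‖ ≤ ‖t‖ * (‖P‖ * ‖P'‖) + ‖a‖ * ‖P'‖ := by
      have : b * P = t * (P * P') - a * P' := by linear_combination w1
      calc ‖b‖ * ‖P‖ = ‖b * P‖ := (norm_mul _ _).symm
        _ = ‖t * (P * P') - a * P'‖ := by rw [this]
        _ ≤ ‖t * (P * P')‖ + ‖a * P'‖ := norm_sub_le _ _
        _ = _ := by simp only [norm_mul]
    have x2 : ‖a‖ * ‖Q'‖ ≤ ‖t‖ * (‖Q‖ * ‖Q'‖) + ‖b‖ * ‖Q‖ := by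
      have : a * Q' = t * (Q * Q') - b * Q := by linear_combination w2
      calc ‖a‖ * ‖Q'‖ = ‖a * Q'‖ := (norm_mul _ _).symm
        _ = ‖t * (Q * Q') - b * Q‖ := by rw [this]
        _ ≤ ‖t * (Q * Q')‖ + ‖b * Q‖ := norm_sub_le _ _
        _ = _ := by simp only [norm_mul]
    have y1 : 3 / 4 * ‖b‖ ≤ ‖t‖ * (5 / 16) + 1 / 4 * ‖a‖ := by
      have s1 : ‖P‖ * ‖P'‖ ≤ 5 / 4 * (1 / 4) :=
        mul_le_mul hPu eP'.le (norm_nonneg _) (by norm_num)
      have s2 : ‖t‖ * (‖P‖ * ‖P'‖) ≤ ‖t‖ * (5 / 16) :=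
        mul_le_mul_of_nonneg_left (by linarith) (norm_nonneg _)
      have s3 : ‖b‖ * (3 / 4) ≤ ‖b‖ * ‖P‖ := mul_le_mul_of_nonneg_left hPl (norm_nonneg _)
      have s4 : ‖a‖ * ‖P'‖ ≤ ‖a‖ * (1 / 4) := mul_le_mul_of_nonneg_left eP'.le (norm_nonneg _)
      linarith
    have y2 : 3 / 4 * ‖a‖ ≤ ‖t‖ * (5 / 16) + 1 / 4 * ‖b‖ := by
      have s1 : ‖Q‖ * ‖Q'‖ ≤ 1 / 4 * (5 / 4) :=
        mul_le_mul eQ.le hQu (norm_nonneg _) (by norm_num)
      have s2 : ‖t‖ * (‖Q‖ * ‖Q'‖) ≤ ‖t‖ * (5 / 16) :=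
        mul_le_mul_of_nonneg_left (by linarith) (norm_nonneg _)
      have s3 : ‖a‖ * (3 / 4) ≤ ‖a‖ * ‖Q'‖ := mul_le_mul_of_nonneg_left hQl (norm_nonneg _)
      have s4 : ‖b‖ * ‖Q‖ ≤ ‖b‖ * (1 / 4) := mul_le_mul_of_nonneg_left eQ.le (norm_nonneg _)
      linarith
    have z1 : ‖a‖ + ‖b‖ ≤ 5 / 4 * ‖t‖ := by linarith
    have z2 : η = ‖a‖ * ‖b‖ := by
      rw [← norm_mul, v0, Complex.norm_real, Real.norm_of_nonneg hη0.le]
    have z3 : ‖a‖ * ‖b‖ ≤ ‖t‖ * ‖t‖ := by
      nlinarith [norm_nonneg a, norm_nonneg b, norm_nonneg t, sq_nonneg (‖a‖ - ‖b‖)]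
    have z4 : ‖t‖ * ‖t‖ ≤ ‖t‖ * 1 := mul_le_mul_of_nonneg_left (norm_c_le k) (norm_nonneg _)
    rw [z2, ← norm_c k]
    linarith
  obtain ⟨k, hk⟩ := exists_nat_gt (1 / η)
  have h3 := key k
  rw [le_div_iff₀ (by positivity)] at h3
  rw [div_lt_iff₀ hη0] at hk
  nlinarith

theorem not_openMul_of_char
    (m : StrongDual ℂ (StrongDual ℂ Alg) → StrongDual ℂ (StrongDual ℂ Alg) →
      StrongDual ℂ (StrongDual ℂ Alg))
    (hm : ∀ (F G : StrongDual ℂ (StrongDual ℂ Alg)) (ω : StrongDual ℂ Alg),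
      (∀ a b, ω (a * b) = ω a * ω b) → m F G ω = F ω * G ω) : ¬ OpenMul m := by
  obtain ⟨E, hE⟩ := exists_bidual 0
  obtain ⟨Φ, hΦ⟩ := exists_bidual 1
  obtain ⟨Ψ, hΨ⟩ := exists_bidual 2
  exact not_open_aux ev norm_ev_le (fun ω => ∀ a b, ω (a * b) = ω a * ω b) char0 char_i E Φ Ψ
    hE hΦ hΨ m hm

theorem not_openMul_first : ¬ OpenMul (first (A := Alg)) :=
  not_openMul_of_char _ fun F G _ hω => first_char hω F G

theorem not_openMul_second : ¬ OpenMul (second (A := Alg)) :=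
  not_openMul_of_char _ fun F G _ hω => second_char hω F G

end Q90.Arens.Ex1
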