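import Mathlib

/-!
The shifts on `ℓ²(ℕ)`.
-/

set_option autoImplicit false
set_option linter.unusedSectionVars false

open scoped ENNReal

namespace Q90.Arens

/-- `ℓ²(ℕ)` -/
abbrev L2 : Type := lp (fun _ : ℕ => ℂ) 2

namespace L2

theorem norm_sq (f : L2) : ‖f‖ ^ 2 = ∑' n, ‖f n‖ ^ 2 := by
  have h := lp.norm_rpow_eq_tsum (p := 2) (by norm_num) f
  simpa using h

theorem summable_sq (f : L2) : Summable fun n => ‖f n‖ ^ 2 := by
  have h := lp.memℓp f
  rw [memℓp_gen_iff (by norm_num)] at h
  simpa using h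

theorem memlp_of {g : ℕ → ℂ} (h : Summable fun n => ‖g n‖ ^ 2) : Memℓp (E := fun _ => ℂ) g 2 := by
  rw [memℓp_gen_iff (by norm_num)]
  simpa using h

/-- right shift of a function -/
def rs (f : ℕ → ℂ) : ℕ → ℂ := fun n => Nat.casesOn n 0 f

theorem summable_rs (f : L2) : Summable fun n => ‖rs f n‖ ^ 2 :=
  (summable_nat_add_iff 1).1 (summable_sq f)

theorem summable_ls (f : L2) : Summable fun n => ‖f (n + 1)‖ ^ 2 :=
  (summable_nat_add_iff 1).2 (summable_sq f)

/-- right shift -/
noncomputable def R : L2 →L[ℂ] L2 :=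
  LinearMap.mkContinuous
    { toFun := fun f => ⟨rs f, memlp_of (summable_rs f)⟩
      map_add' := by
        intro f g
        ext n
        cases n with
        | zero => exact (add_zero (0 : ℂ)).symm
        | succ n => rfl
      map_smul' := by
        intro c f
        ext n
        cases n with
        | zero => exact (mul_zero c).symm
        | succ n => rfl } 1 (by
      intro f
      rw [one_mul]
      refine le_of_sq_le_sq ?_ (norm_nonneg _)
      rw [norm_sq, norm_sq]
      change ∑' n, ‖rs f n‖ ^ 2 ≤ _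
      rw [(summable_rs f).tsum_eq_zero_add]
      have : ‖rs f 0‖ ^ 2 = 0 := by
        change ‖(0 : ℂ)‖ ^ 2 = 0
        simp
      rw [this, zero_add]
      exact le_rfl)

/-- left shift -/
noncomputable def L : L2 →L[ℂ] L2 :=
  LinearMap.mkContinuous
    { toFun := fun f => ⟨fun n => f (n + 1), memlp_of (summable_ls f)⟩
      map_add' := fun f g => rfl
      map_smul' := fun c f => rfl } 1 (by
      intro f
      rw [one_mul]
      refine le_of_sq_le_sq ?_ (norm_nonneg _)
      rw [norm_sq, norm_sq]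
      change ∑' n, ‖f (n + 1)‖ ^ 2 ≤ _
      rw [(summable_sq f).tsum_eq_zero_add]
      have : 0 ≤ ‖f 0‖ ^ 2 := by positivity
      linarith)

/-- the first basis vector -/
noncomputable def δ0 : L2 := lp.single 2 0 1

/-- the projection onto the first basis vector -/
noncomputable def e0 : L2 →L[ℂ] L2 := 1 - R * L

theorem LR : L * R = 1 := by
  ext f n
  rfl

theorem e0_apply (f : L2) : e0 f = f 0 • δ0 := by
  ext n
  cases n with
  | zero =>
    change f 0 - (0 : ℂ) = f 0 * (δ0 0)
    have : δ0 0 = 1 := lp.single_apply_self (E := fun _ : ℕ => ℂ) 2 0 1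
    rw [this, sub_zero, mul_one]
  | succ n =>
    change f (n + 1) - f (n + 1) = f 0 * (δ0 (n + 1))
    have : δ0 (n + 1) = 0 := lp.single_apply_ne (E := fun _ : ℕ => ℂ) 2 0 1 (Nat.succ_ne_zero n)
    rw [this, sub_self, mul_zero]

theorem RL : R * L ≠ 1 := by
  intro h
  have h1 : e0 = 0 := by rw [e0, h, sub_self]
  have h2 : e0 δ0 = 0 := by rw [h1]; rfl
  have h3 : δ0 0 = 1 := lp.single_apply_self (E := fun _ : ℕ => ℂ) 2 0 1
  rw [e0_apply, h3, one_smul] at h2
  rw [h2] at h3
  exact zero_ne_one h3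

end L2

end Q90.Arens
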