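import Mathlib
import Pool.Agent.Q90.ArensBasic

/-!
The algebra of scalars plus compact operators on a Hilbert space `H`; its bidual is represented on
`H`, for both Arens products.
-/

set_option autoImplicit false
set_option linter.unusedSectionVars false

open Filter Topology InnerProductSpace

namespace Q90.Arens.Ex2

variable (H : Type) [NormedAddCommGroup H] [InnerProductSpace ℂ H] [CompleteSpace H]

/-- finite rank -/
def FR (T : H →L[ℂ] H) : Prop := ∃ V : Submodule ℂ H, FiniteDimensional ℂ V ∧ ∀ x, T x ∈ V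

variable {H}

theorem FR.add {T T' : H →L[ℂ] H} (h : FR H T) (h' : FR H T') : FR H (T + T') := by
  obtain ⟨V, hV, hT⟩ := h
  obtain ⟨V', hV', hT'⟩ := h'
  exact ⟨V ⊔ V', inferInstance, fun x => Submodule.add_mem_sup (hT x) (hT' x)⟩

theorem FR.smul {T : H →L[ℂ] H} (h : FR H T) (c : ℂ) : FR H (c • T) := by
  obtain ⟨V, hV, hT⟩ := h
  exact ⟨V, hV, fun x => V.smul_mem c (hT x)⟩

theorem FR.mul_right {T : H →L[ℂ] H} (h : FR H T) (S : H →L[ℂ] H) : FR H (T * S) := by
  obtain ⟨V, hV, hT⟩ := h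
  exact ⟨V, hV, fun x => hT (S x)⟩

theorem FR.mul_left {T : H →L[ℂ] H} (h : FR H T) (S : H →L[ℂ] H) : FR H (S * T) := by
  obtain ⟨V, hV, hT⟩ := h
  exact ⟨V.map (S : H →ₗ[ℂ] H), inferInstance, fun x => ⟨T x, hT x, rfl⟩⟩

theorem FR.zero : FR H (0 : H →L[ℂ] H) := ⟨⊥, inferInstance, fun _ => rfl⟩

variable (H)

/-- scalars plus finite rank operators -/
noncomputable def S : Subalgebra ℂ (H →L[ℂ] H) where
  carrier := {T | ∃ c : ℂ, FR H (T - algebraMap ℂ _ c)}
  mul_mem' := by
    rintro a b ⟨c, hc⟩ ⟨d, hd⟩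
    refine ⟨c * d, ?_⟩
    have : a * b - algebraMap ℂ (H →L[ℂ] H) (c * d) =
        (a - algebraMap ℂ _ c) * b + c • (b - algebraMap ℂ _ d) := by
      rw [Algebra.smul_def, map_mul]
      noncomm_ring
    rw [this]
    exact (hc.mul_right b).add (hd.smul c)
  add_mem' := by
    rintro a b ⟨c, hc⟩ ⟨d, hd⟩
    refine ⟨c + d, ?_⟩
    have : a + b - algebraMap ℂ (H →L[ℂ] H) (c + d) =
        (a - algebraMap ℂ _ c) + (b - algebraMap ℂ _ d) := by
      rw [map_add]
      abel
    rw [this]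
    exact hc.add hd
  algebraMap_mem' := fun c => ⟨c, by rw [sub_self]; exact FR.zero⟩

/-- The algebra `K(H) + ℂ 1`, as a subalgebra. -/
noncomputable def A0 : Subalgebra ℂ (H →L[ℂ] H) := (S H).topologicalClosure

/-- The algebra `K(H) + ℂ 1`. -/
def A : Type := A0 H

noncomputable instance : NormedRing (A H) := inferInstanceAs (NormedRing (A0 H))
noncomputable instance : NormedAlgebra ℂ (A H) := inferInstanceAs (NormedAlgebra ℂ (A0 H))
instance : CompleteSpace (A H) :=
  ((S H).isClosed_topologicalClosure.completeSpace_coe : CompleteSpace (S H).topologicalClosure)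

variable {H}

/-- the inclusion -/
noncomputable def val : A H →ₐ[ℂ] (H →L[ℂ] H) := (A0 H).val

theorem norm_val (a : A H) : ‖val a‖ = ‖a‖ := rfl

theorem val_injective : Function.Injective (val : A H → (H →L[ℂ] H)) := Subtype.val_injective

/-- elements of the algebra -/
noncomputable def ofMem {T : H →L[ℂ] H} (h : T ∈ A0 H) : A H := (⟨T, h⟩ : A0 H)

theorem val_ofMem {T : H →L[ℂ] H} (h : T ∈ A0 H) : val (ofMem h) = T := rfl

theorem mem_A_of_FR {T : H →L[ℂ] H} (h : FR H T) : T ∈ A0 H :=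
  (S H).le_topologicalClosure ⟨0, by rwa [map_zero, sub_zero]⟩

/-- the vector functionals `a ↦ ⟨y, a x⟩` -/
noncomputable def ω (x y : H) : StrongDual ℂ (A H) :=
  LinearMap.mkContinuous
    { toFun := fun a => ⟪y, val a x⟫_ℂ
      map_add' := fun a b => by
        rw [map_add]
        exact inner_add_right _ _ _
      map_smul' := fun c a => by
        rw [map_smul]
        exact inner_smul_right _ _ _ } (‖y‖ * ‖x‖) (fun a => by
      refine (norm_inner_le_norm _ _).trans ?_
      rw [mul_assoc]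
      refine mul_le_mul_of_nonneg_left ?_ (norm_nonneg _)
      rw [mul_comm]
      exact (val a).le_opNorm x)

theorem ω_apply (x y : H) (a : A H) : ω x y a = ⟪y, val a x⟫_ℂ := rfl

theorem norm_ω_le (x y : H) : ‖ω x y‖ ≤ ‖y‖ * ‖x‖ :=
  LinearMap.mkContinuous_norm_le _ (by positivity) _

theorem ω_add_left (x x' y : H) : ω (x + x') y = ω x y + ω x' y := by
  ext a
  change ⟪y, val a (x + x')⟫_ℂ = ⟪y, val a x⟫_ℂ + ⟪y, val a x'⟫_ℂ
  rw [map_add, inner_add_right]

theorem ω_add_right (x y y' : H) : ω x (y + y') = ω x y + ω x y' := by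
  ext a
  exact inner_add_left _ _ _

theorem ω_smul_left (c : ℂ) (x y : H) : ω (c • x) y = c • ω x y := by
  ext a
  change ⟪y, val a (c • x)⟫_ℂ = c • ⟪y, val a x⟫_ℂ
  rw [map_smul, inner_smul_right, smul_eq_mul]

theorem ω_smul_right (c : ℂ) (x y : H) : ω x (c • y) = starRingEnd ℂ c • ω x y := by
  ext a
  exact inner_smul_left _ _ _

/-- the sesquilinear form of a bidual element -/
noncomputable def form (F : StrongDual ℂ (StrongDual ℂ (A H))) : H →L⋆[ℂ] H →L[ℂ] ℂ :=
  LinearMap.mkContinuous₂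
    (LinearMap.mk₂'ₛₗ (starRingEnd ℂ) (RingHom.id ℂ) (fun y x => F (ω x y))
      (fun y y' x => by rw [ω_add_right, map_add])
      (fun c y x => by rw [ω_smul_right, map_smul])
      (fun y x x' => by rw [ω_add_left, map_add])
      (fun c y x => by rw [ω_smul_left, map_smul]; rfl)) ‖F‖ (fun y x => by
        refine (F.le_opNorm _).trans ?_
        rw [mul_assoc]
        exact mul_le_mul_of_nonneg_left (norm_ω_le x y) (ContinuousLinearMap.opNorm_nonneg F))

/-- The representation of the bidual on `H`. -/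
noncomputable def rep (F : StrongDual ℂ (StrongDual ℂ (A H))) : H →L[ℂ] H :=
  ContinuousLinearMap.adjoint (continuousLinearMapOfBilin (form F))

theorem inner_rep (F : StrongDual ℂ (StrongDual ℂ (A H))) (x y : H) :
    ⟪y, rep F x⟫_ℂ = F (ω x y) := by
  rw [rep, ContinuousLinearMap.adjoint_inner_right, continuousLinearMapOfBilin_apply]
  rfl

theorem norm_rep_sub_le (F G : StrongDual ℂ (StrongDual ℂ (A H))) :
    ‖rep F - rep G‖ ≤ ‖F - G‖ := by
  refine ContinuousLinearMap.opNorm_le_bound _ (ContinuousLinearMap.opNorm_nonneg _) fun x => ?_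
  obtain ⟨v, hv⟩ : ∃ v, v = (rep F - rep G) x := ⟨_, rfl⟩
  rw [← hv]
  have h1 : ⟪v, (rep F - rep G) x⟫_ℂ = (F - G) (ω x v) := by
    rw [sub_apply, inner_sub_right, inner_rep, inner_rep]
    rfl
  rw [← hv] at h1
  have h2 : ‖v‖ * ‖v‖ ≤ ‖F - G‖ * (‖v‖ * ‖x‖) := by
    calc ‖v‖ * ‖v‖ = ‖⟪v, v⟫_ℂ‖ := by
          rw [inner_self_eq_norm_sq_to_K, norm_pow, pow_two]
          simp
      _ = ‖(F - G) (ω x v)‖ := by rw [h1]
      _ ≤ ‖F - G‖ * ‖ω x v‖ := (F - G).le_opNorm _
      _ ≤ _ := mul_le_mul_of_nonneg_left (norm_ω_le x v) (ContinuousLinearMap.opNorm_nonneg _)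
  rcases (norm_nonneg v).eq_or_lt with h | h
  · rw [← h]
    exact mul_nonneg (ContinuousLinearMap.opNorm_nonneg _) (norm_nonneg _)
  · have : ‖v‖ * ‖v‖ ≤ ‖v‖ * (‖F - G‖ * ‖x‖) := by linarith
    exact le_of_mul_le_mul_left this h

theorem rep_first (F G : StrongDual ℂ (StrongDual ℂ (A H))) :
    rep (first F G) = rep F * rep G := by
  ext x
  refine ext_inner_left ℂ fun y => ?_
  rw [inner_rep]
  change F (bidualDot G (ω x y)) = ⟪y, rep F (rep G x)⟫_ℂ
  rw [inner_rep]
  congr 1
  ext a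
  change G (dotRight (ω x y) a) = ⟪y, val a (rep G x)⟫_ℂ
  have h : dotRight (ω x y) a = ω x (ContinuousLinearMap.adjoint (val a) y) := by
    ext b
    change ⟪y, val a (val b x)⟫_ℂ = ⟪ContinuousLinearMap.adjoint (val a) y, val b x⟫_ℂ
    rw [ContinuousLinearMap.adjoint_inner_left]
  rw [h, ← inner_rep, ContinuousLinearMap.adjoint_inner_left]

theorem rep_second (F G : StrongDual ℂ (StrongDual ℂ (A H))) :
    rep (second F G) = rep F * rep G := by
  ext x
  refine ext_inner_left ℂ fun y => ?_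
  rw [inner_rep]
  change G (dotBidual (ω x y) F) = ⟪y, rep F (rep G x)⟫_ℂ
  rw [← ContinuousLinearMap.adjoint_inner_left, inner_rep]
  congr 1
  ext a
  change F (dotLeft a (ω x y)) = ⟪ContinuousLinearMap.adjoint (rep F) y, val a x⟫_ℂ
  have h : dotLeft a (ω x y) = ω (val a x) y := by
    ext b
    rfl
  rw [h, ← inner_rep, ContinuousLinearMap.adjoint_inner_left]

/-- the canonical embedding -/
theorem rep_inclusion (a : A H) :
    rep (NormedSpace.inclusionInDoubleDual ℂ (A H) a) = val a := by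
  ext x
  refine ext_inner_left ℂ fun y => ?_
  rw [inner_rep]
  rfl

/-- Every bounded operator comes from the bidual. -/
theorem exists_rep_eq (B : H →L[ℂ] H) :
    ∃ F : StrongDual ℂ (StrongDual ℂ (A H)), rep F = B := by
  classical
  let K : Finset H → Submodule ℂ H := fun s => Submodule.span ℂ (s : Set H)
  have hfin : ∀ s, FiniteDimensional ℂ (K s) := fun s => FiniteDimensional.span_finset ℂ s
  have hproj : ∀ s, (K s).HasOrthogonalProjection := fun s => by
    have := hfin s
    infer_instance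
  let P : Finset H → (H →L[ℂ] H) := fun s =>
    have := hproj s
    (K s).starProjection
  have hFR : ∀ s, FR H (B * P s) := by
    intro s
    refine FR.mul_left ⟨K s, hfin s, fun x => ?_⟩ B
    have := hproj s
    exact Submodule.starProjection_apply_mem _ x
  let T : Finset H → A H := fun s => ofMem (mem_A_of_FR (hFR s))
  have hT : ∀ s, ‖T s‖ ≤ ‖B‖ := by
    intro s
    have := hproj s
    change ‖B * P s‖ ≤ ‖B‖
    calc ‖B * P s‖ ≤ ‖B‖ * ‖P s‖ := norm_mul_le _ _
      _ ≤ ‖B‖ * 1 := mul_le_mul_of_nonneg_left (Submodule.starProjection_norm_le (K s))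
          (norm_nonneg _)
      _ = ‖B‖ := mul_one _
  obtain ⟨F, hF⟩ := exists_lim (Ultrafilter.of (atTop : Filter (Finset H))) T hT
  refine ⟨F, ?_⟩
  ext x
  refine ext_inner_left ℂ fun y => ?_
  rw [inner_rep]
  refine lim_eq hF ?_
  refine (Ultrafilter.of_le (atTop : Filter (Finset H))) ?_
  filter_upwards [eventually_ge_atTop ({x} : Finset H)] with s hs
  have := hproj s
  have hx : x ∈ K s := Submodule.subset_span (hs (Finset.mem_singleton_self x))
  change ⟪y, B (P s x)⟫_ℂ = ⟪y, B x⟫_ℂ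
  have : P s x = x := Submodule.starProjection_eq_self_iff.2 hx
  rw [this]

end Q90.Arens.Ex2
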