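import Mathlib
import Pool.Agent.Q90.ArensWeak
import Pool.Agent.Q90.ArensShift

/-!
`K(H) + ℂ 1` has weakly open multiplication, its bidual does not (`H = ℓ²`).
-/

set_option autoImplicit false
set_option linter.unusedSectionVars false

open Filter Topology InnerProductSpace

namespace Q90.Arens.Ex2

variable {H : Type} [NormedAddCommGroup H] [InnerProductSpace ℂ H] [CompleteSpace H]

theorem aeval_apply_eq {T : H →L[ℂ] H} {V : Submodule ℂ H} (g : V →ₗ[ℂ] V)
    (hg : ∀ x : V, (g x : H) = T x) (p : Polynomial ℂ) (x : V) :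
    (Polynomial.aeval T p) (x : H) = ((Polynomial.aeval g p) x : V) := by
  have hpow : ∀ (n : ℕ) (x : V), (T ^ n) (x : H) = ((g ^ n) x : V) := by
    intro n
    induction n with
    | zero => intro x; rfl
    | succ n ih =>
      intro x
      rw [pow_succ, pow_succ]
      change (T ^ n) (T x) = ((g ^ n) (g x) : V)
      rw [← hg, ih]
  induction p using Polynomial.induction_on' with
  | add p q hp hq =>
    rw [map_add, map_add]
    change (Polynomial.aeval T p) (x : H) + (Polynomial.aeval T q) (x : H) =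
      ((Polynomial.aeval g p) x : V) + ((Polynomial.aeval g q) x : V)
    rw [hp, hq]
  | monomial n c =>
    rw [Polynomial.aeval_monomial, Polynomial.aeval_monomial, ← Algebra.smul_def,
      ← Algebra.smul_def]
    change c • (T ^ n) (x : H) = (c • (g ^ n) x : V)
    rw [hpow]
    rfl

theorem FR.isAlgebraic {T : H →L[ℂ] H} (h : FR H T) : IsAlgebraic ℂ T := by
  obtain ⟨V, hV, hT⟩ := h
  let g : V →ₗ[ℂ] V := (T : H →ₗ[ℂ] H).restrict (fun x _ => hT x)
  have hg : ∀ x : V, (g x : H) = T x := fun x => rfl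
  obtain ⟨p, hp0, hp⟩ := (Algebra.IsAlgebraic.isAlgebraic g : IsAlgebraic ℂ g)
  refine ⟨p * Polynomial.X, mul_ne_zero hp0 Polynomial.X_ne_zero, ?_⟩
  rw [map_mul, Polynomial.aeval_X]
  ext x
  change (Polynomial.aeval T p) (T x) = 0
  have := aeval_apply_eq g hg p ⟨T x, hT x⟩
  rw [hp] at this
  exact this

/-- algebraic elements have finite spectrum -/
theorem spectrum_finite {B : Type} [Ring B] [Algebra ℂ B] {a : B} (h : IsAlgebraic ℂ a) :
    (spectrum ℂ a).Finite := by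
  obtain ⟨p, hp0, hp⟩ := h
  refine (p.roots.toFinset.finite_toSet).subset fun μ hμ => ?_
  have h1 : p.eval μ ∈ spectrum ℂ (Polynomial.aeval a p) :=
    spectrum.subset_polynomial_aeval a p ⟨μ, hμ, rfl⟩
  rw [hp] at h1
  have h2 : p.eval μ = 0 := by
    by_contra hne
    refine h1 ?_
    change IsUnit (algebraMap ℂ B (p.eval μ) - 0)
    rw [sub_zero]
    exact (IsUnit.mk0 _ hne).map (algebraMap ℂ B)
  simp only [Multiset.mem_toFinset, Finset.mem_coe]
  exact (Polynomial.mem_roots hp0).2 h2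

theorem exists_isUnit_near (a : A H) {ε : ℝ} (hε : 0 < ε) : ∃ u : A H, IsUnit u ∧ ‖u - a‖ < ε := by
  have ha : val a ∈ closure ((S H : Set (H →L[ℂ] H))) := by
    have := (a : A0 H).2
    exact this
  obtain ⟨s, hs, hsa⟩ := Metric.mem_closure_iff.1 ha (ε / 2) (by positivity)
  obtain ⟨c, hc⟩ := hs
  set F : A H := ofMem (mem_A_of_FR hc) with hF
  have halg : IsAlgebraic ℂ F := by
    rw [← isAlgebraic_algHom_iff (val : A H →ₐ[ℂ] _) val_injective]
    exact hc.isAlgebraic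
  have hfin := spectrum_finite halg
  obtain ⟨μ, hμ1, hμ2⟩ : ∃ μ ∈ Metric.ball (-c) (ε / 2), μ ∉ spectrum ℂ F := by
    by_contra hcon
    push Not at hcon
    have hinf : (Metric.ball (-c) (ε / 2)).Infinite :=
      infinite_of_mem_nhds (-c) (Metric.ball_mem_nhds _ (by positivity))
    exact hinf (hfin.subset hcon)
  have hu : IsUnit (F - algebraMap ℂ (A H) μ) := by
    have h1 : IsUnit (algebraMap ℂ (A H) μ - F) := by
      by_contra h
      exact hμ2 h
    rw [← neg_sub]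
    exact h1.neg
  refine ⟨F - algebraMap ℂ (A H) μ, hu, ?_⟩
  have h1 : val (F - algebraMap ℂ (A H) μ - a) = (s - val a) - algebraMap ℂ _ (μ - -c) := by
    rw [map_sub, map_sub, hF, val_ofMem, AlgHom.commutes, map_sub, map_neg]
    abel
  rw [← norm_val, h1]
  calc ‖(s - val a) - algebraMap ℂ (H →L[ℂ] H) (μ - -c)‖
      ≤ ‖s - val a‖ + ‖algebraMap ℂ (H →L[ℂ] H) (μ - -c)‖ := norm_sub_le _ _
    _ ≤ ‖s - val a‖ + ‖μ - -c‖ := by
        gcongr
        rw [Algebra.algebraMap_eq_smul_one, norm_smul]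
        calc ‖μ - -c‖ * ‖(1 : H →L[ℂ] H)‖ ≤ ‖μ - -c‖ * 1 :=
              mul_le_mul_of_nonneg_left ContinuousLinearMap.norm_id_le (norm_nonneg _)
          _ = _ := mul_one _
    _ < ε / 2 + ε / 2 := by
        refine add_lt_add ?_ ?_
        · rw [← dist_eq_norm, dist_comm]; exact hsa
        · rw [← dist_eq_norm]; exact hμ1
    _ = ε := by ring

theorem weaklyOpenMul_A : WeaklyOpenMul (fun a b : A H => a * b) := by
  rintro W hW ⟨⟨a, b⟩, hab⟩
  obtain ⟨ε, hε, hball⟩ := Metric.isOpen_iff.1 hW (a, b) hab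
  obtain ⟨u, hu, hua⟩ := exists_isUnit_near a hε
  have hub : (u, b) ∈ W := hball (by
    rw [mem_ball_iff_norm]
    exact max_lt hua (by simpa using hε))
  obtain ⟨u, rfl⟩ := hu
  let O : Set (A H) := {z | ((u : A H), (↑u⁻¹ : A H) * z) ∈ W}
  have hO : IsOpen O := hW.preimage (by fun_prop)
  refine ⟨(u : A H) * b, mem_interior.2 ⟨O, ?_, hO, ?_⟩⟩
  · intro z hz
    exact ⟨((u : A H), (↑u⁻¹ : A H) * z), hz, by simp⟩
  · change ((u : A H), (↑u⁻¹ : A H) * ((u : A H) * b)) ∈ W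
    rw [Units.inv_mul_cancel_left]
    exact hub

theorem idem_inv {B : Type} [Ring B] [Algebra ℂ B] {e : B} (he : e * e = e) {t : ℂ} (ht : t ≠ 0) :
    (1 - e + t • e) * (1 - e + t⁻¹ • e) = 1 := by
  have h0 : (t • e) * (t⁻¹ • e) = e := by
    rw [smul_mul_smul_comm, mul_inv_cancel₀ ht, one_smul, he]
  have h1 : (1 - e) * (t⁻¹ • e) = 0 := by
    rw [mul_smul_comm, sub_mul, one_mul, he, sub_self, smul_zero]
  have h2 : (t • e) * (1 - e) = 0 := by
    rw [smul_mul_assoc, mul_sub, mul_one, he, sub_self, smul_zero]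
  have h3 : (1 - e) * (1 - e) = 1 - e := by
    rw [mul_sub, mul_one, sub_mul, one_mul, he, sub_self, sub_zero]
  rw [add_mul, mul_add, mul_add, h0, h1, h2, h3]
  abel

/-- abstract version of the failure of weak openness -/
theorem not_weaklyOpen_aux {D : Type} [NormedAddCommGroup D] [NormedSpace ℂ D]
    (m : D → D → D) (ρ : D → (L2 →L[ℂ] L2)) (hρ : ∀ F G, ‖ρ F - ρ G‖ ≤ ‖F - G‖)
    (hadd : ∀ F G, ρ (F + G) = ρ F + ρ G) (hsmul : ∀ (c : ℂ) F, ρ (c • F) = c • ρ F)
    (hmul : ∀ F G, ρ (m F G) = ρ F * ρ G)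
    (hsurj : ∀ T, ∃ F, ρ F = T) : ¬ WeaklyOpenMul m := by
  intro hweak
  obtain ⟨SS, hS⟩ := hsurj L2.R
  obtain ⟨QQ, hQ⟩ := hsurj L2.L
  set r : ℝ := 1 / (2 * (1 + ‖L2.R‖ + ‖L2.L‖)) with hr
  have hr0 : 0 < r := by positivity
  obtain ⟨F, G, hF, hG, δ, hδ, hex⟩ := exists_of_weaklyOpenMul hweak SS QQ hr0
  -- every element of the ball around `S` is `w R` with `w` invertible
  have hleft : ∀ F, ‖F - SS‖ < r → ∃ w : (L2 →L[ℂ] L2)ˣ, ρ F = w * L2.R := by
    intro F hF
    have h1 : ‖(L2.R - ρ F) * L2.L‖ < 1 := by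
      have h2 : ‖L2.R - ρ F‖ < r := by
        rw [norm_sub_rev, ← hS]
        exact lt_of_le_of_lt (hρ _ _) hF
      calc ‖(L2.R - ρ F) * L2.L‖ ≤ ‖L2.R - ρ F‖ * ‖L2.L‖ := norm_mul_le _ _
        _ ≤ r * ‖L2.L‖ := mul_le_mul_of_nonneg_right h2.le (norm_nonneg _)
        _ < 1 := by
            rw [hr, div_mul_eq_mul_div, div_lt_one (by positivity)]
            have := norm_nonneg L2.R
            have := norm_nonneg L2.L
            linarith
    refine ⟨Units.oneSub _ h1, ?_⟩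
    rw [Units.val_oneSub]
    have h3 := L2.LR
    calc ρ F = L2.R - (L2.R - ρ F) * 1 := by rw [mul_one]; abel
      _ = L2.R - (L2.R - ρ F) * (L2.L * L2.R) := by rw [h3]
      _ = (1 - (L2.R - ρ F) * L2.L) * L2.R := by
          rw [sub_mul (1 : L2 →L[ℂ] L2), one_mul, mul_assoc (L2.R - ρ F)]
  have hright : ∀ G, ‖G - QQ‖ < r → ∃ z : (L2 →L[ℂ] L2)ˣ, ρ G = L2.L * z := by
    intro G hG
    have h1 : ‖L2.R * (L2.L - ρ G)‖ < 1 := by
      have h2 : ‖L2.L - ρ G‖ < r := by
        rw [norm_sub_rev, ← hQ]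
        exact lt_of_le_of_lt (hρ _ _) hG
      calc ‖L2.R * (L2.L - ρ G)‖ ≤ ‖L2.R‖ * ‖L2.L - ρ G‖ := norm_mul_le _ _
        _ ≤ ‖L2.R‖ * r := mul_le_mul_of_nonneg_left h2.le (norm_nonneg _)
        _ < 1 := by
            rw [hr, mul_one_div, div_lt_one (by positivity)]
            have := norm_nonneg L2.R
            have := norm_nonneg L2.L
            linarith
    refine ⟨Units.oneSub _ h1, ?_⟩
    rw [Units.val_oneSub]
    have h3 := L2.LR
    calc ρ G = L2.L - 1 * (L2.L - ρ G) := by rw [one_mul]; abel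
      _ = L2.L - (L2.L * L2.R) * (L2.L - ρ G) := by rw [h3]
      _ = L2.L * (1 - L2.R * (L2.L - ρ G)) := by
          rw [mul_sub L2.L (1 : L2 →L[ℂ] L2), mul_one, mul_assoc L2.L L2.R]
  -- no product is invertible
  have hnot : ∀ F G, ‖F - SS‖ < r → ‖G - QQ‖ < r → ¬ IsUnit (ρ F * ρ G) := by
    intro F G hF hG hu
    obtain ⟨w, hw⟩ := hleft F hF
    obtain ⟨z, hz⟩ := hright G hG
    rw [hw, hz] at hu
    have h1 : (w : L2 →L[ℂ] L2) * L2.R * (L2.L * z) = w * (L2.R * L2.L) * z := by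
      simp only [mul_assoc]
    rw [h1] at hu
    have h2 : IsUnit (L2.R * L2.L) := by
      rwa [Units.isUnit_mul_units, Units.isUnit_units_mul] at hu
    -- an idempotent unit is 1
    have h3 : (L2.R * L2.L) * (L2.R * L2.L) = L2.R * L2.L := by
      calc (L2.R * L2.L) * (L2.R * L2.L) = L2.R * (L2.L * L2.R) * L2.L := by simp only [mul_assoc]
        _ = L2.R * L2.L := by rw [L2.LR, mul_one]
    have h4 : L2.R * L2.L = 1 := by
      have := h2.mul_left_cancel (h3.trans (mul_one _).symm)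
      exact this
    exact L2.RL h4
  obtain ⟨w, hw⟩ := hleft F hF
  obtain ⟨z, hz⟩ := hright G hG
  obtain ⟨K, hK⟩ := hsurj ((w : L2 →L[ℂ] L2) * L2.e0 * z)
  set t : ℝ := δ / (2 * (‖K‖ + 1)) with ht
  have ht0 : 0 < t := by positivity
  obtain ⟨F', G', hF', hG', hFG'⟩ := hex (m F G + (t : ℂ) • K) (by
    rw [add_sub_cancel_left, norm_smul, Complex.norm_real, Real.norm_of_nonneg ht0.le, ht,
      div_mul_eq_mul_div, div_lt_iff₀ (by positivity)]
    nlinarith [norm_nonneg K])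
  refine hnot F' G' hF' hG' ?_
  rw [← hmul, hFG', hadd, hsmul, hmul, hw, hz, hK]
  have h1 : (w : L2 →L[ℂ] L2) * L2.R * (L2.L * z) + (t : ℂ) • ((w : L2 →L[ℂ] L2) * L2.e0 * z) =
      w * (L2.R * L2.L + (t : ℂ) • L2.e0) * z := by
    rw [mul_add, add_mul, mul_smul_comm, smul_mul_assoc]
    simp only [mul_assoc]
  rw [h1, Units.isUnit_mul_units, Units.isUnit_units_mul]
  -- `p + t (1 - p)` is invertible
  have hidem : L2.e0 * L2.e0 = L2.e0 := by
    rw [L2.e0]
    have h3 : (L2.R * L2.L) * (L2.R * L2.L) = L2.R * L2.L := by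
      calc (L2.R * L2.L) * (L2.R * L2.L) = L2.R * (L2.L * L2.R) * L2.L := by simp only [mul_assoc]
        _ = L2.R * L2.L := by rw [L2.LR, mul_one]
    rw [mul_sub, sub_mul, sub_mul, h3]
    simp
  have hp : L2.R * L2.L = 1 - L2.e0 := by rw [L2.e0]; abel
  rw [hp]
  have htc : (t : ℂ) ≠ 0 := Complex.ofReal_ne_zero.2 ht0.ne'
  have hinv := idem_inv hidem (inv_ne_zero htc)
  rw [inv_inv] at hinv
  exact ⟨⟨1 - L2.e0 + (t : ℂ) • L2.e0, 1 - L2.e0 + (t : ℂ)⁻¹ • L2.e0,
    idem_inv hidem htc, hinv⟩, rfl⟩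

theorem rep_add (F G : StrongDual ℂ (StrongDual ℂ (A H))) : rep (F + G) = rep F + rep G := by
  ext x
  refine ext_inner_left ℂ fun y => ?_
  rw [add_apply, inner_add_right, inner_rep, inner_rep, inner_rep]
  rfl

theorem rep_smul (c : ℂ) (F : StrongDual ℂ (StrongDual ℂ (A H))) : rep (c • F) = c • rep F := by
  ext x
  refine ext_inner_left ℂ fun y => ?_
  rw [smul_apply, inner_smul_right, inner_rep, inner_rep]
  rfl

theorem not_weaklyOpenMul_first : ¬ WeaklyOpenMul (first (A := A L2)) :=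
  not_weaklyOpen_aux _ rep norm_rep_sub_le rep_add rep_smul rep_first exists_rep_eq

theorem not_weaklyOpenMul_second : ¬ WeaklyOpenMul (second (A := A L2)) :=
  not_weaklyOpen_aux _ rep norm_rep_sub_le rep_add rep_smul rep_second exists_rep_eq

end Q90.Arens.Ex2
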