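import Mathlib

/-! Positive polynomial kernels on `[-1,1]` with second moment `O(n⁻²)`. -/

open Finset Polynomial

namespace Q90.CC

/-- telescoping: equally spaced cosines sum to zero -/
lemma cos_sum (d : ℤ) (N : ℕ) (t : ℝ) (hd : d ≠ 0) (hdN : |d| < N) :
    ∑ l ∈ range N, Real.cos (d * (t - 2 * Real.pi * l / N)) = 0 := by
  have hN : 0 < N := by
    have h0 : (0 : ℤ) ≤ |d| := abs_nonneg d
    have : (0 : ℤ) < N := lt_of_le_of_lt h0 hdN
    exact_mod_cast this
  have hNr : (0 : ℝ) < N := by exact_mod_cast hN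
  set A : ℕ → ℝ := fun l => Real.sin (d * t - 2 * Real.pi * d * l / N + Real.pi * d / N) with hA
  have hstep : ∀ l : ℕ, 2 * Real.sin (Real.pi * d / N) *
      Real.cos (d * (t - 2 * Real.pi * l / N)) = A l - A (l + 1) := by
    intro l
    have e1 : (d : ℝ) * (t - 2 * Real.pi * l / N) = d * t - 2 * Real.pi * d * l / N := by
      field_simp
    have e2 : (d : ℝ) * t - 2 * Real.pi * d * ((l + 1 : ℕ) : ℝ) / N + Real.pi * d / N
        = (d * t - 2 * Real.pi * d * l / N) - Real.pi * d / N := by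
      push_cast
      field_simp
      ring
    simp only [hA]
    rw [e1, e2]
    generalize (d : ℝ) * t - 2 * Real.pi * d * l / N = p
    rw [Real.sin_add, Real.sin_sub]
    ring
  have hsum : 2 * Real.sin (Real.pi * d / N) *
      ∑ l ∈ range N, Real.cos (d * (t - 2 * Real.pi * l / N)) = A 0 - A N := by
    rw [mul_sum, ← sum_range_sub' A N]
    exact sum_congr rfl fun l _ => hstep l
  have hAN : A 0 - A N = 0 := by
    have e3 : (d : ℝ) * t - 2 * Real.pi * d * (N : ℝ) / N + Real.pi * d / N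
        = (d * t + Real.pi * d / N) - d * (2 * Real.pi) := by
      field_simp
      ring
    simp only [hA]
    rw [e3, Real.sin_sub_int_mul_two_pi]
    simp
  have hsin : Real.sin (Real.pi * d / N) ≠ 0 := by
    intro h0
    rw [Real.sin_eq_zero_iff] at h0
    obtain ⟨k, hk⟩ := h0
    have hk' : (k : ℝ) * N = d := by
      have hpi : Real.pi ≠ 0 := Real.pi_ne_zero
      field_simp at hk
      exact hk
    have hk2 : k * (N : ℤ) = d := by exact_mod_cast hk'
    have hk0 : k ≠ 0 := by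
      rintro rfl
      apply hd
      rw [← hk2]; simp
    have : (N : ℤ) ≤ |d| := by
      rw [← hk2, abs_mul]
      have h1 : (1 : ℤ) ≤ |k| := Int.one_le_abs hk0
      have h2 : |(N : ℤ)| = N := abs_of_nonneg (by positivity)
      rw [h2]
      nlinarith
    omega
  rw [hAN] at hsum
  rcases mul_eq_zero.1 hsum with h | h
  · exact absurd (by linarith : Real.sin (Real.pi * d / N) = 0) hsin
  · exact h

/-- squared modulus of the exponential sum with real coefficients `c k`, `k < m` -/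
noncomputable def SQ (c : ℕ → ℝ) (m : ℕ) (u : ℝ) : ℝ :=
  (∑ k ∈ range m, c k * Real.cos (k * u)) ^ 2 + (∑ k ∈ range m, c k * Real.sin (k * u)) ^ 2

lemma SQ_nonneg (c : ℕ → ℝ) (m : ℕ) (u : ℝ) : 0 ≤ SQ c m u := by
  unfold SQ; positivity

lemma SQ_neg (c : ℕ → ℝ) (m : ℕ) (u : ℝ) : SQ c m (-u) = SQ c m u := by
  unfold SQ
  have h1 : ∀ k : ℕ, c k * Real.cos (k * -u) = c k * Real.cos (k * u) := fun k => by
    rw [mul_neg, Real.cos_neg]
  have h2 : ∀ k : ℕ, c k * Real.sin (k * -u) = -(c k * Real.sin (k * u)) := fun k => by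
    rw [mul_neg, Real.sin_neg, mul_neg]
  simp_rw [h1, h2, sum_neg_distrib]
  ring

lemma SQ_eq (c : ℕ → ℝ) (m : ℕ) (u : ℝ) :
    SQ c m u = ∑ j ∈ range m, ∑ k ∈ range m, c j * c k * Real.cos ((((j : ℤ) - k : ℤ) : ℝ) * u) := by
  unfold SQ
  rw [pow_two, pow_two, sum_mul_sum, sum_mul_sum, ← sum_add_distrib]
  refine sum_congr rfl fun j _ => ?_
  rw [← sum_add_distrib]
  refine sum_congr rfl fun k _ => ?_
  have : ((((j : ℤ) - k : ℤ) : ℝ) * u) = j * u - k * u := by push_cast; ring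
  rw [this, Real.cos_sub]
  ring

/-- Parseval for the discrete average -/
lemma SQ_avg (c : ℕ → ℝ) (m N : ℕ) (hm : m ≤ N) (t : ℝ) :
    ∑ l ∈ range N, SQ c m (t - 2 * Real.pi * l / N) = N * ∑ k ∈ range m, c k ^ 2 := by
  simp_rw [SQ_eq]
  rw [sum_comm]
  have : ∀ j ∈ range m, ∑ l ∈ range N, ∑ k ∈ range m,
      c j * c k * Real.cos ((((j : ℤ) - k : ℤ) : ℝ) * (t - 2 * Real.pi * l / N)) = N * c j ^ 2 := by
    intro j hj
    rw [sum_comm]
    rw [sum_eq_single j]
    · simp only [sub_self, Int.cast_zero, zero_mul, Real.cos_zero, mul_one, sum_const, card_range,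
        nsmul_eq_mul]
      ring
    · intro k hk hkj
      rw [← mul_sum, cos_sum]
      · simp
      · have : (k : ℤ) ≠ j := by exact_mod_cast hkj
        omega
      · rw [mem_range] at hj hk
        rw [abs_lt]
        constructor <;> omega
    · intro h; exact absurd hj h
  rw [sum_congr rfl this, mul_sum]

/-- multiplication by `|1 - e^{iu}|²` -/
lemma SQ_diff (b : ℕ → ℝ) (m : ℕ) (hb0 : b 0 = 0) (hbm : b (m + 1) = 0) (u : ℝ) :
    SQ (fun k => b (k + 1)) m u * (2 * (1 - Real.cos u)) =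
      SQ (fun k => b (k + 1) - b k) (m + 1) u := by
  set X := ∑ k ∈ range m, b (k + 1) * Real.cos (k * u) with hX
  set Y := ∑ k ∈ range m, b (k + 1) * Real.sin (k * u) with hY
  have hX' : ∑ k ∈ range (m + 1), (b (k + 1) - b k) * Real.cos (k * u)
      = X - (X * Real.cos u - Y * Real.sin u) := by
    have e1 : ∑ k ∈ range (m + 1), b (k + 1) * Real.cos (k * u) = X := by
      rw [sum_range_succ, hbm]; simp [hX]
    have e2 : ∑ k ∈ range (m + 1), b k * Real.cos (k * u)
        = X * Real.cos u - Y * Real.sin u := by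
      rw [sum_range_succ', hb0, hX, hY, sum_mul, sum_mul, ← sum_sub_distrib]
      simp only [zero_mul, add_zero]
      refine sum_congr rfl fun k _ => ?_
      have : (((k + 1 : ℕ) : ℝ) * u) = k * u + u := by push_cast; ring
      rw [this, Real.cos_add]
      ring
    simp_rw [sub_mul]
    rw [sum_sub_distrib, e1, e2]
  have hY' : ∑ k ∈ range (m + 1), (b (k + 1) - b k) * Real.sin (k * u)
      = Y - (Y * Real.cos u + X * Real.sin u) := by
    have e1 : ∑ k ∈ range (m + 1), b (k + 1) * Real.sin (k * u) = Y := by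
      rw [sum_range_succ, hbm]; simp [hY]
    have e2 : ∑ k ∈ range (m + 1), b k * Real.sin (k * u)
        = Y * Real.cos u + X * Real.sin u := by
      rw [sum_range_succ', hb0, hX, hY, sum_mul, sum_mul, ← sum_add_distrib]
      simp only [zero_mul, add_zero]
      refine sum_congr rfl fun k _ => ?_
      have : (((k + 1 : ℕ) : ℝ) * u) = k * u + u := by push_cast; ring
      rw [this, Real.sin_add]
      ring
    simp_rw [sub_mul]
    rw [sum_sub_distrib, e1, e2]
  unfold SQ
  rw [hX', hY']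
  have hcs := Real.sin_sq_add_cos_sq u
  simp only [← hX, ← hY]
  nlinarith [hcs, show Real.sin u ^ 2 = 1 - Real.cos u ^ 2 by linarith]

lemma cos_sub_sq_le (s t : ℝ) : (Real.cos t - Real.cos s) ^ 2 ≤ 2 * (1 - Real.cos (t - s)) := by
  have h1 := Real.sin_sq_add_cos_sq t
  have h2 := Real.sin_sq_add_cos_sq s
  rw [Real.cos_sub]
  nlinarith [sq_nonneg (Real.sin t - Real.sin s)]

/-- the polynomial weight -/
noncomputable def WP (c : ℕ → ℝ) (m : ℕ) (θ : ℝ) : ℝ[X] :=
  ∑ j ∈ range m, ∑ k ∈ range m,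
    Polynomial.C (2 * (c j * c k) * Real.cos ((((j : ℤ) - k : ℤ) : ℝ) * θ)) *
      Polynomial.Chebyshev.T ℝ ((j : ℤ) - k)

lemma WP_eval (c : ℕ → ℝ) (m : ℕ) (θ t : ℝ) :
    (WP c m θ).eval (Real.cos t) = SQ c m (t - θ) + SQ c m (t + θ) := by
  unfold WP
  rw [SQ_eq, SQ_eq, ← sum_add_distrib, eval_finsetSum]
  refine sum_congr rfl fun j _ => ?_
  rw [eval_finsetSum, ← sum_add_distrib]
  refine sum_congr rfl fun k _ => ?_
  rw [eval_mul, eval_C, Polynomial.Chebyshev.T_real_cos, mul_sub, mul_add, Real.cos_sub,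
    Real.cos_add]
  ring

lemma WP_natDegree (c : ℕ → ℝ) (n : ℕ) (θ : ℝ) : (WP c (n + 1) θ).natDegree ≤ n := by
  unfold WP
  refine natDegree_sum_le_of_forall_le _ _ fun j hj => ?_
  refine natDegree_sum_le_of_forall_le _ _ fun k hk => ?_
  refine (natDegree_C_mul_le _ _).trans ?_
  rw [Polynomial.Chebyshev.natDegree_T]
  rw [mem_range] at hj hk
  omega

set_option maxHeartbeats 1000000 in
/-- **positive kernel**: second moment at most `4π²/n²`-like. -/
theorem kernel (n : ℕ) : ∃ (N : ℕ) (y : ℕ → ℝ) (w : ℕ → ℝ[X]),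
    (∀ l, |y l| ≤ 1) ∧ (∀ l, (w l).natDegree ≤ n) ∧
    (∀ l, ∀ x, |x| ≤ 1 → 0 ≤ (w l).eval x) ∧
    (∀ x, |x| ≤ 1 → ∑ l ∈ range N, (w l).eval x = 1) ∧
    (∀ x, |x| ≤ 1 → ∑ l ∈ range N, (w l).eval x * (y l - x) ^ 2 ≤
      2 * Real.pi ^ 2 / (n + 2) ^ 2) := by
  set N : ℕ := n + 2 with hN
  set b : ℕ → ℝ := fun k => Real.sin (k * Real.pi / N) with hb
  set c : ℕ → ℝ := fun k => b (k + 1) with hc
  set A : ℝ := ∑ k ∈ range (n + 1), c k ^ 2 with hA
  have hNr : (0 : ℝ) < N := by positivity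
  have hb0 : b 0 = 0 := by simp [hb]
  have hbN : b (n + 1 + 1) = 0 := by
    simp only [hb]
    have : ((n + 1 + 1 : ℕ) : ℝ) * Real.pi / N = Real.pi := by
      rw [hN]; push_cast; field_simp; ring
    rw [this, Real.sin_pi]
  have hAval : A = N / 2 := by
    have h1 : ∑ k ∈ range N, b k ^ 2 = A := by
      rw [hN, show n + 2 = (n + 1) + 1 from rfl, sum_range_succ', hb0, hA]
      simp [hc]
    have h2 : ∀ k ∈ range N, b k ^ 2 = 1 / 2 - 1 / 2 *
        Real.cos (((1 : ℤ) : ℝ) * (0 - 2 * Real.pi * k / N)) := by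
      intro k _
      simp only [hb]
      have e : (((1 : ℤ) : ℝ) * (0 - 2 * Real.pi * k / N)) = -(2 * (k * Real.pi / N)) := by
        push_cast; ring
      rw [e, Real.cos_neg, Real.cos_two_mul]
      have := Real.sin_sq_add_cos_sq ((k : ℝ) * Real.pi / N)
      linarith
    rw [← h1, sum_congr rfl h2, sum_sub_distrib, ← mul_sum, cos_sum 1 N 0 (by norm_num)
      (by rw [hN]; simp; omega)]
    simp
    ring
  have hApos : 0 < A := by rw [hAval]; positivity
  have hD : ∑ k ∈ range (n + 1 + 1), (b (k + 1) - b k) ^ 2 ≤ Real.pi ^ 2 / N := by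
    have h1 : ∀ k ∈ range (n + 1 + 1), (b (k + 1) - b k) ^ 2 ≤ (Real.pi / N) ^ 2 := by
      intro k _
      have h2 : |b (k + 1) - b k| ≤ Real.pi / N := by
        simp only [hb]
        have h3 := Real.abs_sin_sub_sin_le (((k + 1 : ℕ) : ℝ) * Real.pi / N) ((k : ℝ) * Real.pi / N)
        refine h3.trans (le_of_eq ?_)
        rw [show ((k + 1 : ℕ) : ℝ) * Real.pi / N - (k : ℝ) * Real.pi / N = Real.pi / N by
          push_cast; field_simp; ring]
        exact abs_of_nonneg (by positivity)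
      rw [← sq_abs]
      exact pow_le_pow_left₀ (abs_nonneg _) h2 2
    refine (sum_le_sum h1).trans (le_of_eq ?_)
    rw [sum_const, card_range, nsmul_eq_mul]
    have : ((n + 1 + 1 : ℕ) : ℝ) = N := by rw [hN]
    rw [this]
    field_simp
  have hcoef : 0 ≤ 1 / (2 * (N : ℝ) * A) :=
    div_nonneg zero_le_one (mul_nonneg (mul_nonneg two_pos.le hNr.le) hApos.le)
  set θ : ℕ → ℝ := fun l => 2 * Real.pi * l / N with hθ
  refine ⟨N, fun l => Real.cos (θ l), fun l => Polynomial.C (1 / (2 * N * A)) * WP c (n + 1) (θ l),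
    fun l => Real.abs_cos_le_one _, fun l => ?_, ?_, ?_, ?_⟩
  · exact (natDegree_C_mul_le _ _).trans (WP_natDegree _ _ _)
  · intro l x hx
    obtain ⟨t, rfl⟩ : ∃ t, Real.cos t = x :=
      ⟨Real.arccos x, Real.cos_arccos (abs_le.1 hx).1 (abs_le.1 hx).2⟩
    rw [eval_mul, eval_C, WP_eval]
    exact mul_nonneg hcoef (add_nonneg (SQ_nonneg c (n + 1) (t - θ l))
      (SQ_nonneg c (n + 1) (t + θ l)))
  · intro x hx
    obtain ⟨t, rfl⟩ : ∃ t, Real.cos t = x :=
      ⟨Real.arccos x, Real.cos_arccos (abs_le.1 hx).1 (abs_le.1 hx).2⟩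
    simp_rw [eval_mul, eval_C, WP_eval]
    have h1 := SQ_avg c (n + 1) N (by omega) t
    have h2 := SQ_avg c (n + 1) N (by omega) (-t)
    have h3 : ∀ l, SQ c (n + 1) (t + θ l) = SQ c (n + 1) (-t - 2 * Real.pi * l / N) := by
      intro l
      have : -t - 2 * Real.pi * l / N = -(t + θ l) := by simp only [hθ]; ring
      rw [this, SQ_neg]
    rw [← mul_sum, sum_add_distrib]
    simp_rw [h3]
    rw [h2]
    simp only [hθ]
    rw [h1, ← hA]
    field_simp
    ring
  · intro x hx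
    obtain ⟨t, rfl⟩ : ∃ t, Real.cos t = x :=
      ⟨Real.arccos x, Real.cos_arccos (abs_le.1 hx).1 (abs_le.1 hx).2⟩
    have h1 := SQ_avg (fun k => b (k + 1) - b k) (n + 1 + 1) N (by omega) t
    have h2 := SQ_avg (fun k => b (k + 1) - b k) (n + 1 + 1) N (by omega) (-t)
    have h3 : ∀ l, SQ (fun k => b (k + 1) - b k) (n + 1 + 1) (t + θ l) =
        SQ (fun k => b (k + 1) - b k) (n + 1 + 1) (-t - 2 * Real.pi * l / N) := by
      intro l
      have : -t - 2 * Real.pi * l / N = -(t + θ l) := by simp only [hθ]; ring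
      rw [this, SQ_neg]
    have hbd : ∀ l ∈ range N, (Polynomial.C (1 / (2 * N * A)) * WP c (n + 1) (θ l)).eval (Real.cos t) *
        (Real.cos (θ l) - Real.cos t) ^ 2 ≤ 1 / (2 * N * A) *
          (SQ (fun k => b (k + 1) - b k) (n + 1 + 1) (t - 2 * Real.pi * l / N) +
           SQ (fun k => b (k + 1) - b k) (n + 1 + 1) (-t - 2 * Real.pi * l / N)) := by
      intro l _
      rw [eval_mul, eval_C, WP_eval, ← h3, mul_assoc]
      refine mul_le_mul_of_nonneg_left ?_ hcoef
      have d1 := SQ_diff b (n + 1) hb0 hbN (t - θ l)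
      have d2 := SQ_diff b (n + 1) hb0 hbN (t + θ l)
      have e1 := cos_sub_sq_le (θ l) t
      have e2 := cos_sub_sq_le (-θ l) t
      rw [Real.cos_neg, sub_neg_eq_add] at e2
      have e3 : (Real.cos (θ l) - Real.cos t) ^ 2 = (Real.cos t - Real.cos (θ l)) ^ 2 := by ring
      have f1 := mul_le_mul_of_nonneg_left e1 (SQ_nonneg c (n + 1) (t - θ l))
      have f2 := mul_le_mul_of_nonneg_left e2 (SQ_nonneg c (n + 1) (t + θ l))
      rw [d1] at f1
      rw [d2] at f2
      rw [e3, add_mul]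
      exact add_le_add f1 f2
    refine (sum_le_sum hbd).trans ?_
    rw [← mul_sum, sum_add_distrib, h1, h2, hAval]
    have hNn : (N : ℝ) = n + 2 := by rw [hN]; push_cast; ring
    rw [← hNn]
    set D := ∑ k ∈ range (n + 1 + 1), (b (k + 1) - b k) ^ 2 with hDdef
    have : 1 / (2 * (N : ℝ) * (N / 2)) * (N * D + N * D) = 2 * D / N := by
      field_simp
      ring
    rw [this, div_le_div_iff₀ hNr (by positivity)]
    have : D * N ≤ Real.pi ^ 2 := by
      rw [le_div_iff₀ hNr] at hD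
      exact hD
    nlinarith
end Q90.CC
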