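import Mathlib
import Pool.Agent.Q90.CC1

/-! Approximation of convex curves by polynomial curves: the projection of a circle. -/

open Finset Polynomial

namespace Q90.CC

noncomputable def dt (z w : ℂ) : ℝ := z.re * w.re + z.im * w.im
noncomputable def cr (z w : ℂ) : ℝ := z.re * w.im - z.im * w.re

lemma dt_self (z : ℂ) : dt z z = ‖z‖ ^ 2 := by
  rw [← Complex.normSq_eq_norm_sq, Complex.normSq_apply]; rfl

lemma dtcr (z w : ℂ) : dt z w ^ 2 + cr z w ^ 2 = ‖z‖ ^ 2 * ‖w‖ ^ 2 := by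
  rw [← dt_self, ← dt_self]; unfold dt cr; ring

lemma dt_le (z w : ℂ) : |dt z w| ≤ ‖z‖ * ‖w‖ := by
  apply abs_le_of_sq_le_sq _ (by positivity)
  nlinarith [dtcr z w, sq_nonneg (cr z w)]

lemma cr_le (z w : ℂ) : |cr z w| ≤ ‖z‖ * ‖w‖ := by
  apply abs_le_of_sq_le_sq _ (by positivity)
  nlinarith [dtcr z w, sq_nonneg (dt z w)]

lemma dt_sub_left (x y z : ℂ) : dt (x - y) z = dt x z - dt y z := by
  simp [dt]; ring
lemma dt_sub_right (x y z : ℂ) : dt x (y - z) = dt x y - dt x z := by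
  simp [dt]; ring
lemma dt_comm (x y : ℂ) : dt x y = dt y x := by
  simp [dt]; ring

/-- existence of the metric projection -/
lemma exists_proj {K : Set ℂ} (hK : IsCompact K) (hc : Convex ℝ K) (hne : K.Nonempty) (u : ℂ) :
    ∃ v ∈ K, ∀ w ∈ K, dt (u - v) (w - v) ≤ 0 := by
  obtain ⟨v, hv, hv'⟩ := exists_norm_eq_iInf_of_complete_convex hne hK.isComplete hc u
  refine ⟨v, hv, fun w hw => ?_⟩
  have := (norm_eq_iInf_iff_real_inner_le_zero hc hv).1 hv' w hw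
  have h2 : inner ℝ (u - v) (w - v) = dt (u - v) (w - v) := by
    rw [Complex.inner]
    simp [dt]
    ring
  rw [← h2]; exact this

lemma proj_lip {u u' v v' : ℂ} {K : Set ℂ} (hv : v ∈ K) (hv' : v' ∈ K)
    (h : ∀ w ∈ K, dt (u - v) (w - v) ≤ 0) (h' : ∀ w ∈ K, dt (u' - v') (w - v') ≤ 0) :
    ‖v - v'‖ ≤ ‖u - u'‖ := by
  have h1 := h v' hv'
  have h2 := h' v hv
  have h3 : ‖v - v'‖ ^ 2 ≤ dt (u - u') (v - v') := by
    rw [← dt_self]
    simp only [dt, Complex.sub_re, Complex.sub_im] at *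
    nlinarith
  have h4 := (le_abs_self _).trans (dt_le (u - u') (v - v'))
  by_contra hcon
  push Not at hcon
  have h5 : 0 ≤ ‖u - u'‖ := norm_nonneg _
  nlinarith

noncomputable def sg (a : ℂ) (x : ℝ) : ℂ := a + 2 * Complex.exp ((2 * Real.pi * x : ℝ) * Complex.I)

lemma sg_re (a : ℂ) (x : ℝ) : (sg a x).re = a.re + 2 * Real.cos (2 * Real.pi * x) := by
  unfold sg
  rw [Complex.add_re, Complex.mul_re, Complex.exp_ofReal_mul_I_re, Complex.exp_ofReal_mul_I_im]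
  simp

lemma sg_im (a : ℂ) (x : ℝ) : (sg a x).im = a.im + 2 * Real.sin (2 * Real.pi * x) := by
  unfold sg
  rw [Complex.add_im, Complex.mul_im, Complex.exp_ofReal_mul_I_re, Complex.exp_ofReal_mul_I_im]
  simp

lemma sg_norm (a : ℂ) (x : ℝ) : ‖sg a x - a‖ = 2 := by
  unfold sg
  rw [add_sub_cancel_left, norm_mul, Complex.norm_exp_ofReal_mul_I]
  simp

lemma sg_lip (a : ℂ) (x y : ℝ) : ‖sg a x - sg a y‖ ≤ 4 * Real.pi * |x - y| := by
  have h1 : ‖sg a x - sg a y‖ ^ 2 ≤ (4 * Real.pi * |x - y|) ^ 2 := by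
    rw [← dt_self]
    simp only [dt, Complex.sub_re, Complex.sub_im, sg_re, sg_im]
    have h2 : (Real.cos (2 * Real.pi * x) - Real.cos (2 * Real.pi * y)) ^ 2 +
        (Real.sin (2 * Real.pi * x) - Real.sin (2 * Real.pi * y)) ^ 2 =
        2 * (1 - Real.cos (2 * Real.pi * x - 2 * Real.pi * y)) := by
      rw [Real.cos_sub]
      have e1 := Real.sin_sq_add_cos_sq (2 * Real.pi * x)
      have e2 := Real.sin_sq_add_cos_sq (2 * Real.pi * y)
      nlinarith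
    have h3 := Real.one_sub_sq_div_two_le_cos (x := 2 * Real.pi * x - 2 * Real.pi * y)
    have h4 : (4 * Real.pi * |x - y|) ^ 2 = 4 * (2 * Real.pi * x - 2 * Real.pi * y) ^ 2 := by
      rw [mul_pow, sq_abs]; ring
    rw [h4]
    nlinarith
  exact abs_le_of_sq_le_sq' h1 (by positivity) |>.2

/-- The data of the construction: `g` is the projection of the circle. -/
structure Data (K : Set ℂ) (a : ℂ) (g : ℝ → ℂ) : Prop where
  comp : IsCompact K
  conv : Convex ℝ K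
  aK : a ∈ K
  ball : ∀ z ∈ K, ‖z - a‖ ≤ 1
  gK : ∀ x, g x ∈ K
  gp : ∀ x, ∀ w ∈ K, dt (sg a x - g x) (w - g x) ≤ 0

variable {K : Set ℂ} {a : ℂ} {g : ℝ → ℂ}

lemma Data.exists (hK : IsCompact K) (hc : Convex ℝ K) (ha : a ∈ K) (hb : ∀ z ∈ K, ‖z - a‖ ≤ 1) :
    ∃ g, Data K a g := by
  choose g h1 h2 using fun x => exists_proj hK hc ⟨a, ha⟩ (sg a x)
  exact ⟨g, hK, hc, ha, hb, h1, h2⟩

namespace Data

lemma g_lip (D : Data K a g) (x y : ℝ) : ‖g x - g y‖ ≤ 4 * Real.pi * |x - y| :=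
  (proj_lip (D.gK x) (D.gK y) (D.gp x) (D.gp y)).trans (sg_lip a x y)

noncomputable def _root_.Q90.CC.Nv (a : ℂ) (g : ℝ → ℂ) (x : ℝ) : ℂ := sg a x - g x

lemma N_lip (D : Data K a g) (x y : ℝ) : ‖Nv a g x - Nv a g y‖ ≤ 8 * Real.pi * |x - y| := by
  have : Nv a g x - Nv a g y = (sg a x - sg a y) - (g x - g y) := by unfold Nv; ring
  rw [this]
  have h1 := norm_sub_le (sg a x - sg a y) (g x - g y)
  have h2 := sg_lip a x y
  have h3 := D.g_lip x y
  linarith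

lemma N_ge (D : Data K a g) (x : ℝ) : 1 ≤ ‖Nv a g x‖ := by
  have h1 := sg_norm a x
  have h2 := D.ball _ (D.gK x)
  have h3 : sg a x - a = Nv a g x + (g x - a) := by unfold Nv; ring
  have h4 := norm_add_le (Nv a g x) (g x - a)
  rw [← h3, h1] at h4
  linarith

lemma diam (D : Data K a g) {z w : ℂ} (hz : z ∈ K) (hw : w ∈ K) : ‖z - w‖ ≤ 2 := by
  have h : z - w = (z - a) - (w - a) := by ring
  rw [h]
  have := norm_sub_le (z - a) (w - a)
  have := D.ball z hz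
  have := D.ball w hw
  linarith

/-- the key second order estimate -/
lemma key (D : Data K a g) (x y : ℝ) :
    dt (Nv a g x) (g x - g y) ≤ 32 * Real.pi ^ 2 * (y - x) ^ 2 := by
  have h1 : dt (Nv a g y) (g x - g y) ≤ 0 := D.gp y _ (D.gK x)
  have h2 : dt (Nv a g x) (g x - g y) ≤ dt (Nv a g x - Nv a g y) (g x - g y) := by
    rw [dt_sub_left]; linarith
  have h3 := (le_abs_self _).trans (dt_le (Nv a g x - Nv a g y) (g x - g y))
  have h4 := mul_le_mul (D.N_lip x y) (D.g_lip x y) (norm_nonneg _) (by positivity)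
  have h5 : 8 * Real.pi * |x - y| * (4 * Real.pi * |x - y|) = 32 * Real.pi ^ 2 * (y - x) ^ 2 := by
    have : |x - y| * |x - y| = (y - x) ^ 2 := by rw [abs_mul_abs_self]; ring
    nlinarith
  linarith

/-- surjectivity of `g` onto the boundary -/
lemma surj (D : Data K a g) (hint : (interior K).Nonempty) {q : ℂ} (hq : q ∈ frontier K) :
    ∃ x : ℝ, |x| ≤ 1 / 2 ∧ g x = q := by
  have hqK : q ∈ K := D.comp.isClosed.frontier_subset hq
  have hqi : q ∉ interior K := fun h => hq.2 h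
  obtain ⟨f, hf⟩ := geometric_hahn_banach_open_point D.conv.interior isOpen_interior hqi
  have hfK : ∀ z ∈ K, f z ≤ f q := by
    intro z hz
    have hz' : z ∈ closure (interior K) := by
      rw [D.conv.closure_interior_eq_closure_of_nonempty_interior hint]
      exact subset_closure hz
    have hcl : IsClosed {z : ℂ | f z ≤ f q} := isClosed_le f.continuous continuous_const
    exact closure_minimal (fun w hw => (hf w hw).le) hcl hz'
  set ν : ℂ := ⟨f 1, f Complex.I⟩ with hν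
  have hfd : ∀ z, f z = dt ν z := by
    intro z
    have hz : z = z.re • (1 : ℂ) + z.im • Complex.I := by
      apply Complex.ext <;> simp
    conv_lhs => rw [hz]
    rw [map_add, map_smul, map_smul]
    simp [dt, hν]
    ring
  have hν0 : ν ≠ 0 := by
    intro h0
    obtain ⟨z, hz⟩ := hint
    have := hf z hz
    rw [hfd, hfd, h0] at this
    simp [dt] at this
  have hνp : 0 < ‖ν‖ := norm_pos_iff.2 hν0
  have hqa := D.ball q hqK
  -- the ray meets the circle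
  obtain ⟨s, hs, hs2⟩ : ∃ s ∈ Set.Icc (0 : ℝ) (3 / ‖ν‖), ‖q + s • ν - a‖ = 2 := by
    have hcont : ContinuousOn (fun s : ℝ => ‖q + s • ν - a‖) (Set.Icc 0 (3 / ‖ν‖)) := by
      fun_prop
    have hmem : (2 : ℝ) ∈ Set.Icc (‖q + (0 : ℝ) • ν - a‖) (‖q + (3 / ‖ν‖) • ν - a‖) := by
      constructor
      · simp; linarith
      · have h1 : ‖(3 / ‖ν‖) • ν‖ = 3 := by
          rw [norm_smul, Real.norm_of_nonneg (by positivity)]
          field_simp
        have h2 : (3 / ‖ν‖) • ν = (q + (3 / ‖ν‖) • ν - a) - (q - a) := by ring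
        have h3 := norm_sub_le (q + (3 / ‖ν‖) • ν - a) (q - a)
        rw [← h2, h1] at h3
        linarith
    exact intermediate_value_Icc (by positivity) hcont hmem
  obtain ⟨x, hx, hxs⟩ : ∃ x : ℝ, |x| ≤ 1 / 2 ∧ sg a x = q + s • ν := by
    refine ⟨(q + s • ν - a).arg / (2 * Real.pi), ?_, ?_⟩
    · rw [abs_div, abs_of_pos Real.two_pi_pos, div_le_div_iff₀ Real.two_pi_pos two_pos]
      have := Complex.abs_arg_le_pi (q + s • ν - a)
      linarith
    · unfold sg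
      have h1 : 2 * Real.pi * ((q + s • ν - a).arg / (2 * Real.pi)) = (q + s • ν - a).arg := by
        field_simp
      rw [h1]
      have h2 := Complex.norm_mul_exp_arg_mul_I (q + s • ν - a)
      rw [hs2] at h2
      push_cast at h2
      rw [h2]; ring
  refine ⟨x, hx, ?_⟩
  have hpq : ∀ w ∈ K, dt (sg a x - q) (w - q) ≤ 0 := by
    intro w hw
    have h1 := hfK w hw
    rw [hfd, hfd] at h1
    have h2 : dt (sg a x - q) (w - q) = s * (dt ν w - dt ν q) := by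
      rw [hxs]
      simp [dt]
      ring
    rw [h2]
    exact mul_nonpos_of_nonneg_of_nonpos hs.1 (by linarith)
  have := proj_lip (D.gK x) hqK (D.gp x) hpq
  rw [sub_self, norm_zero] at this
  exact sub_eq_zero.1 (norm_le_zero_iff.1 this)

lemma aux1 {r δ : ℝ} (hr : 1 ≤ r) (hδ : 0 ≤ δ) : r * (δ / 8) ≤ r ^ 2 * (δ / 2) := by
  have h1 : 0 ≤ r * δ * (4 * r - 1) := mul_nonneg (mul_nonneg (by linarith) hδ) (by linarith)
  nlinarith

lemma aux2 {m s : ℝ} (h : 0 ≤ m * s) (h2 : 0 ≤ m + s) : 0 ≤ s := by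
  by_contra hcon
  push Not at hcon
  have : 0 < m := by linarith
  nlinarith

lemma aux3 {m s : ℝ} (h : 0 ≤ m * s) (h2 : m + s ≤ 0) : s ≤ 0 := by
  by_contra hcon
  push Not at hcon
  have : m < 0 := by linarith
  nlinarith

set_option maxHeartbeats 1000000 in
/-- sign of the tangential displacement -/
lemma sign (D : Data K a g) (x₀ x : ℝ) (hx : |x - x₀| ≤ 1 / (16 * Real.pi)) :
    (x₀ ≤ x → 0 ≤ cr (Nv a g x₀) (g x - g x₀)) ∧ (x ≤ x₀ → cr (Nv a g x₀) (g x - g x₀) ≤ 0) ∧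
    ‖g x - g x₀‖ * ‖Nv a g x₀‖ ≤ 2 * |cr (Nv a g x₀) (g x - g x₀)| ∧
    ‖Nv a g x₀‖ ^ 2 ≤ 2 * dt (Nv a g x₀) (Nv a g x) := by
  have hpi := Real.pi_pos
  set N₀ := Nv a g x₀ with hN₀
  set N := Nv a g x with hN
  set v := g x - g x₀ with hv
  have hN1 : 1 ≤ ‖N₀‖ := D.N_ge x₀
  have hNN : ‖N - N₀‖ ≤ 1 / 2 := by
    refine (D.N_lip x x₀).trans ?_
    have : 8 * Real.pi * (1 / (16 * Real.pi)) = 1 / 2 := by field_simp; norm_num
    rw [← this]
    exact mul_le_mul_of_nonneg_left hx (by positivity)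
  -- dt N₀ N ≥ |N₀|²/2
  have hdN : ‖N₀‖ ^ 2 ≤ 2 * dt N₀ N := by
    have h1 : dt N₀ (N - N₀) = dt N₀ N - ‖N₀‖ ^ 2 := by rw [dt_sub_right, dt_self]
    have h2 := (abs_le.1 (dt_le N₀ (N - N₀))).1
    have h3 : ‖N₀‖ * ‖N - N₀‖ ≤ ‖N₀‖ * ‖N₀‖ * (1 / 2) := by nlinarith [norm_nonneg N₀]
    nlinarith
  have hcN : |cr N₀ N| ≤ ‖N₀‖ ^ 2 / 2 := by
    have h1 : cr N₀ N = cr N₀ (N - N₀) := by simp [cr]; ring
    rw [h1]
    refine (cr_le _ _).trans ?_
    nlinarith [norm_nonneg N₀]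
  have hp : dt N₀ v ≤ 0 := D.gp x₀ _ (D.gK x)
  have hNv : 0 ≤ dt N v := by
    have h1 : dt N (g x₀ - g x) ≤ 0 := D.gp x _ (D.gK x₀)
    rw [dt_sub_right] at h1
    rw [hv, dt_sub_right]; linarith
  have hid : ‖N₀‖ ^ 2 * dt N v = dt N₀ N * dt N₀ v + cr N₀ N * cr N₀ v := by
    rw [← dt_self]; unfold dt cr; ring
  have hμs : dt N₀ N * (-dt N₀ v) ≤ cr N₀ N * cr N₀ v := by
    have : 0 ≤ ‖N₀‖ ^ 2 * dt N v := by positivity
    rw [hid] at this
    linarith
  have hdNpos : 0 < dt N₀ N := by nlinarith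
  have hμs0 : 0 ≤ cr N₀ N * cr N₀ v := le_trans (mul_nonneg hdNpos.le (by linarith)) hμs
  -- the displacement of the circle
  have hDD : cr N₀ (sg a x - sg a x₀) = cr N₀ N + cr N₀ v := by
    have h1 : sg a x - sg a x₀ = (N - N₀) + v := by
      rw [hN, hN₀, hv]; unfold Nv; ring
    rw [h1]; simp [cr]; ring
  -- sign of the displacement of the circle
  set δ := 2 * Real.pi * x - 2 * Real.pi * x₀ with hδ
  have hδb : |δ| ≤ 1 / 8 := by
    have h1 : δ = 2 * Real.pi * (x - x₀) := by rw [hδ]; ring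
    rw [h1, abs_mul, abs_of_pos (by positivity : 0 < 2 * Real.pi)]
    have : 2 * Real.pi * (1 / (16 * Real.pi)) = 1 / 8 := by field_simp; norm_num
    rw [← this]
    exact mul_le_mul_of_nonneg_left hx (by positivity)
  set R₀ := sg a x₀ - a with hR₀
  have hR2 : ‖R₀‖ = 2 := sg_norm a x₀
  have hrot : cr N₀ (sg a x - sg a x₀) = dt N₀ R₀ * Real.sin δ - cr N₀ R₀ * (1 - Real.cos δ) := by
    have hcos : Real.cos (2 * Real.pi * x) = Real.cos (2 * Real.pi * x₀) * Real.cos δ -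
        Real.sin (2 * Real.pi * x₀) * Real.sin δ := by
      rw [← Real.cos_add]; congr 1; rw [hδ]; ring
    have hsin : Real.sin (2 * Real.pi * x) = Real.sin (2 * Real.pi * x₀) * Real.cos δ +
        Real.cos (2 * Real.pi * x₀) * Real.sin δ := by
      rw [← Real.sin_add]; congr 1; rw [hδ]; ring
    simp only [cr, dt, hR₀, Complex.sub_re, Complex.sub_im, sg_re, sg_im]
    rw [hcos, hsin]
    ring
  have hdR : ‖N₀‖ ^ 2 ≤ dt N₀ R₀ := by
    have h1 : R₀ = N₀ - (a - g x₀) := by rw [hR₀, hN₀]; unfold Nv; ring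
    have h2 : dt N₀ (a - g x₀) ≤ 0 := D.gp x₀ _ D.aK
    rw [h1, dt_sub_right, dt_self]; linarith
  have hcR : |cr N₀ R₀| ≤ 2 * ‖N₀‖ := by
    refine (cr_le _ _).trans ?_
    rw [hR2]; linarith
  have hcosb : 1 - Real.cos δ ≤ δ ^ 2 / 2 := by
    have := Real.one_sub_sq_div_two_le_cos (x := δ); linarith
  have hcos0 : 0 ≤ 1 - Real.cos δ := by have := Real.cos_le_one δ; linarith
  have hδ2 : δ ^ 2 ≤ |δ| / 8 := by
    rw [← sq_abs]; nlinarith [abs_nonneg δ]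
  have hcr2 : |cr N₀ R₀ * (1 - Real.cos δ)| ≤ ‖N₀‖ * (|δ| / 8) := by
    rw [abs_mul, abs_of_nonneg hcos0]
    calc |cr N₀ R₀| * (1 - Real.cos δ) ≤ (2 * ‖N₀‖) * (δ ^ 2 / 2) :=
          mul_le_mul hcR hcosb hcos0 (by positivity)
      _ ≤ ‖N₀‖ * (|δ| / 8) := by nlinarith
  have hsinlb : ∀ y : ℝ, 0 ≤ y → y ≤ 1 / 8 → y / 2 ≤ Real.sin y := by
    intro y hy hy2
    rcases hy.eq_or_lt with h | h
    · rw [← h]; simp
    · have h1 := Real.sin_gt_sub_cube h
      have h2 : y ^ 3 ≤ y := by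
        have h3 : y ^ 2 ≤ 1 := by nlinarith
        calc y ^ 3 = y ^ 2 * y := by ring
          _ ≤ 1 * y := mul_le_mul_of_nonneg_right h3 hy
          _ = y := one_mul y
      linarith
  have hpos : x₀ ≤ x → 0 ≤ cr N₀ v := by
    intro hxx
    have hδ0 : 0 ≤ δ := by rw [hδ]; nlinarith
    have hs := hsinlb δ hδ0 (by rwa [abs_of_nonneg hδ0] at hδb)
    have h1 : 0 ≤ cr N₀ (sg a x - sg a x₀) := by
      rw [hrot]
      have h2 := (abs_le.1 hcr2).2
      rw [abs_of_nonneg hδ0] at h2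
      have h3 : ‖N₀‖ ^ 2 * (δ / 2) ≤ dt N₀ R₀ * Real.sin δ :=
        mul_le_mul hdR hs (by positivity) (by nlinarith)
      have h4 : ‖N₀‖ * (δ / 8) ≤ ‖N₀‖ ^ 2 * (δ / 2) := aux1 hN1 hδ0
      linarith
    rw [hDD] at h1
    exact aux2 hμs0 h1
  have hneg : x ≤ x₀ → cr N₀ v ≤ 0 := by
    intro hxx
    have hδ0 : 0 ≤ -δ := by rw [hδ]; nlinarith
    have hs := hsinlb (-δ) hδ0 (by rwa [← abs_neg, abs_of_nonneg hδ0] at hδb)
    rw [Real.sin_neg] at hs
    have h1 : cr N₀ (sg a x - sg a x₀) ≤ 0 := by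
      rw [hrot]
      have h2 := (abs_le.1 hcr2).1
      rw [← abs_neg, abs_of_nonneg hδ0] at h2
      have h3 : ‖N₀‖ ^ 2 * (-δ / 2) ≤ dt N₀ R₀ * (-Real.sin δ) :=
        mul_le_mul hdR hs (by positivity) (by nlinarith)
      have h4 : ‖N₀‖ * (-δ / 8) ≤ ‖N₀‖ ^ 2 * (-δ / 2) := aux1 hN1 hδ0
      linarith
    rw [hDD] at h1
    exact aux3 hμs0 h1
  refine ⟨hpos, hneg, ?_, hdN⟩
  -- |v||N₀| ≤ 2|cr N₀ v|
  have h1 : -dt N₀ v ≤ |cr N₀ v| := by
    have h2 : cr N₀ N * cr N₀ v ≤ ‖N₀‖ ^ 2 / 2 * |cr N₀ v| := by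
      refine (le_abs_self _).trans ?_
      rw [abs_mul]
      exact mul_le_mul_of_nonneg_right hcN (abs_nonneg _)
    have h3 : ‖N₀‖ ^ 2 / 2 * (-dt N₀ v) ≤ dt N₀ N * (-dt N₀ v) :=
      mul_le_mul_of_nonneg_right (by linarith) (by linarith)
    have h4 : ‖N₀‖ ^ 2 / 2 * (-dt N₀ v) ≤ ‖N₀‖ ^ 2 / 2 * |cr N₀ v| := by linarith
    exact le_of_mul_le_mul_left h4 (by positivity)
  apply le_of_sq_le_sq _ (by positivity)
  have h5 := dtcr N₀ v
  have h6 : dt N₀ v ^ 2 ≤ cr N₀ v ^ 2 := by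
    rw [← sq_abs (cr N₀ v)]
    nlinarith
  have h7 : |cr N₀ v| ^ 2 = cr N₀ v ^ 2 := sq_abs _
  nlinarith

end Data

/-- the averaged curve -/
noncomputable def av (N : ℕ) (y : ℕ → ℝ) (w : ℕ → ℝ[X]) (g : ℝ → ℂ) (x : ℝ) : ℂ :=
  ∑ l ∈ range N, ((w l).eval x : ℝ) • g (y l)

/-- The constant. -/
noncomputable def CU : ℝ := 12288 * Real.pi ^ 4

section Main

variable {n N : ℕ} {y : ℕ → ℝ} {w : ℕ → ℝ[X]}

/-- hypotheses on the kernel -/
structure Ker (n N : ℕ) (y : ℕ → ℝ) (w : ℕ → ℝ[X]) : Prop where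
  yb : ∀ l, |y l| ≤ 1
  deg : ∀ l, (w l).natDegree ≤ n
  pos : ∀ l, ∀ x, |x| ≤ 1 → 0 ≤ (w l).eval x
  one : ∀ x, |x| ≤ 1 → ∑ l ∈ range N, (w l).eval x = 1
  mom : ∀ x, |x| ≤ 1 → ∑ l ∈ range N, (w l).eval x * (y l - x) ^ 2 ≤
      2 * Real.pi ^ 2 / (n + 2) ^ 2

lemma meets_frontier {S T : Set ℂ} (hS : IsPreconnected S) (h1 : (S ∩ T).Nonempty)
    (h2 : (S ∩ Tᶜ).Nonempty) : (S ∩ frontier T).Nonempty := by
  by_contra hcon
  rw [Set.not_nonempty_iff_eq_empty] at hcon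
  have hno : ∀ z ∈ S, z ∉ frontier T := fun z hz hz' => by
    have : z ∈ S ∩ frontier T := ⟨hz, hz'⟩
    rw [hcon] at this; exact this
  have hcov : S ⊆ interior T ∪ (closure T)ᶜ := by
    intro z hz
    by_cases hzi : z ∈ interior T
    · exact Or.inl hzi
    · exact Or.inr fun hzc => hno z hz ⟨hzc, hzi⟩
  obtain ⟨z, hz, hz'⟩ := h1
  obtain ⟨v, hv, hv'⟩ := h2
  have hzi : z ∈ interior T := by
    by_contra hh
    exact hno z hz ⟨subset_closure hz', hh⟩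
  have hvc : v ∈ (closure T)ᶜ := fun hh => hno v hv ⟨hh, fun hi => hv' (interior_subset hi)⟩
  obtain ⟨t, _, ht1, ht2⟩ := hS _ _ isOpen_interior isClosed_closure.isOpen_compl hcov
    ⟨z, hz, hzi⟩ ⟨v, hv, hvc⟩
  exact ht2 (subset_closure (interior_subset ht1))

lemma dt_av (H : Ker n N y w) {x : ℝ} (hx : |x| ≤ 1) (z q : ℂ) :
    dt z (av N y w g x - q) = ∑ l ∈ range N, (w l).eval x * dt z (g (y l) - q) := by
  have h1 : av N y w g x - q = ∑ l ∈ range N, ((w l).eval x : ℝ) • (g (y l) - q) := by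
    simp_rw [smul_sub]
    rw [sum_sub_distrib, ← sum_smul, H.one x hx, one_smul]
    rfl
  rw [h1]
  unfold dt
  rw [Complex.re_sum, Complex.im_sum, mul_sum, mul_sum, ← sum_add_distrib]
  refine sum_congr rfl fun l _ => ?_
  rw [Complex.smul_re, Complex.smul_im, smul_eq_mul, smul_eq_mul]
  ring

lemma cr_eq_dt (z q : ℂ) : cr z q = dt (Complex.I * z) q := by
  simp [cr, dt]; ring

lemma cr_av (H : Ker n N y w) {x : ℝ} (hx : |x| ≤ 1) (z q : ℂ) :
    cr z (av N y w g x - q) = ∑ l ∈ range N, (w l).eval x * cr z (g (y l) - q) := by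
  simp_rw [cr_eq_dt]
  exact dt_av H hx _ _

lemma norm_av (H : Ker n N y w) {x : ℝ} (hx : |x| ≤ 1) (q : ℂ) :
    ‖av N y w g x - q‖ ≤ ∑ l ∈ range N, (w l).eval x * ‖g (y l) - q‖ := by
  have h1 : av N y w g x - q = ∑ l ∈ range N, ((w l).eval x : ℝ) • (g (y l) - q) := by
    simp_rw [smul_sub]
    rw [sum_sub_distrib, ← sum_smul, H.one x hx, one_smul]
    rfl
  rw [h1]
  refine (norm_sum_le _ _).trans (le_of_eq ?_)
  refine sum_congr rfl fun l _ => ?_
  rw [norm_smul, Real.norm_of_nonneg (H.pos l x hx)]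

lemma av_mem (D : Data K a g) (H : Ker n N y w) {x : ℝ} (hx : |x| ≤ 1) : av N y w g x ∈ K :=
  D.conv.sum_mem (fun l _ => H.pos l x hx) (H.one x hx) (fun _ _ => D.gK _)

lemma av_cont : Continuous (av N y w g) := by
  unfold av
  refine continuous_finsetSum _ fun l _ => ?_
  exact ((w l).continuous).smul continuous_const

/-- distance of the averaged point to the supporting line -/
lemma depth (D : Data K a g) (H : Ker n N y w) {x : ℝ} (hx : |x| ≤ 1) :
    dt (Nv a g x) (g x - av N y w g x) ≤ 64 * Real.pi ^ 4 / (n + 2) ^ 2 := by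
  have h1 : dt (Nv a g x) (g x - av N y w g x) =
      ∑ l ∈ range N, (w l).eval x * dt (Nv a g x) (g x - g (y l)) := by
    have h2 := dt_av (g := g) H hx (Nv a g x) (g x)
    have h3 : ∀ z w v : ℂ, dt z (w - v) = - dt z (v - w) := by
      intro z w v; simp [dt]; ring
    rw [h3, h2, ← sum_neg_distrib]
    refine sum_congr rfl fun l _ => ?_
    rw [h3 _ (g x) (g (y l))]; ring
  rw [h1]
  have h4 : ∀ l ∈ range N, (w l).eval x * dt (Nv a g x) (g x - g (y l)) ≤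
      32 * Real.pi ^ 2 * ((w l).eval x * (y l - x) ^ 2) := by
    intro l _
    have := mul_le_mul_of_nonneg_left (D.key x (y l)) (H.pos l x hx)
    linarith
  refine (sum_le_sum h4).trans ?_
  rw [← mul_sum]
  have h5 := mul_le_mul_of_nonneg_left (H.mom x hx) (by positivity : 0 ≤ 32 * Real.pi ^ 2)
  refine h5.trans (le_of_eq ?_)
  ring

/-- every averaged point is close to the boundary -/
lemma close1 (D : Data K a g) (H : Ker n N y w) {x : ℝ} (hx : |x| ≤ 1) :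
    ∃ q ∈ frontier K, ‖av N y w g x - q‖ ≤ CU / (n + 2) ^ 2 := by
  set p := av N y w g x with hp
  have hpK : p ∈ K := av_mem D H hx
  set ν := Nv a g x with hν
  have hν1 : 1 ≤ ‖ν‖ := D.N_ge x
  set ρ := 64 * Real.pi ^ 4 / ((n : ℝ) + 2) ^ 2 with hρ
  have hdep : dt ν (g x - p) ≤ ρ := depth D H hx
  have hρ0 : 0 ≤ ρ := by positivity
  have hρC : ρ ≤ CU / (n + 2) ^ 2 := by
    rw [hρ, CU]
    gcongr
    norm_num
  have hdep0 : 0 ≤ dt ν (g x - p) := by
    have h1 : dt ν (p - g x) ≤ 0 := D.gp x p hpK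
    rw [dt_sub_right] at h1 ⊢
    linarith
  set s := dt ν (g x - p) / ‖ν‖ ^ 2 with hs
  have hs0 : 0 ≤ s := by positivity
  set p' := p + s • ν with hp'
  have hdist : ∀ θ : ℝ, 0 ≤ θ → θ ≤ 1 → ‖p - (p + (θ * s) • ν)‖ ≤ CU / (n + 2) ^ 2 := by
    intro θ h0 h1
    rw [show p - (p + (θ * s) • ν) = -((θ * s) • ν) by ring, norm_neg, norm_smul,
      Real.norm_of_nonneg (by positivity)]
    refine le_trans ?_ hρC
    have h2 : θ * s * ‖ν‖ ≤ s * ‖ν‖ := by
      have : θ * s ≤ 1 * s := mul_le_mul_of_nonneg_right h1 hs0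
      rw [one_mul] at this
      exact mul_le_mul_of_nonneg_right this (by positivity)
    refine h2.trans ?_
    have h3 : s * ‖ν‖ = dt ν (g x - p) / ‖ν‖ := by rw [hs]; field_simp
    rw [h3, div_le_iff₀ (by linarith)]
    nlinarith
  have hp'dt : dt ν (p' - g x) = 0 := by
    have h1 : dt ν (p' - g x) = s * ‖ν‖ ^ 2 - dt ν (g x - p) := by
      rw [← dt_self, hp']; simp [dt]; ring
    rw [h1, hs]
    field_simp
    ring
  by_cases hK' : p' ∈ K
  · refine ⟨p', ⟨subset_closure hK', ?_⟩, ?_⟩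
    · intro hint
      have hopen : ∀ᶠ ε : ℝ in nhds 0, p' + ε • ν ∈ interior K := by
        have hc : ContinuousAt (fun ε : ℝ => p' + ε • ν) 0 := by fun_prop
        have h0 : interior K ∈ nhds ((fun ε : ℝ => p' + ε • ν) 0) := by
          simp only [zero_smul, add_zero]
          exact isOpen_interior.mem_nhds hint
        exact hc h0
      have h2 := hopen.filter_mono (nhdsWithin_le_nhds (s := Set.Ioi 0))
      obtain ⟨ε, hε1, hε2⟩ := (h2.and self_mem_nhdsWithin).exists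
      have h3 : dt ν (p' + ε • ν - g x) ≤ 0 := D.gp x _ (interior_subset hε1)
      have h4 : dt ν (p' + ε • ν - g x) = dt ν (p' - g x) + ε * ‖ν‖ ^ 2 := by
        rw [← dt_self]; simp [dt]; ring
      rw [h4, hp'dt] at h3
      have hε2' : 0 < ε := hε2
      have : 0 < ε * ‖ν‖ ^ 2 := by positivity
      linarith
    · have := hdist 1 zero_le_one le_rfl
      rw [one_mul] at this
      exact this
  · -- the segment meets the frontier
    have hconn : IsPreconnected ((fun θ : ℝ => p + (θ * s) • ν) '' Set.Icc 0 1) := by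
      refine isPreconnected_Icc.image _ ?_
      fun_prop
    have h1 : (((fun θ : ℝ => p + (θ * s) • ν) '' Set.Icc 0 1) ∩ K).Nonempty :=
      ⟨p, ⟨0, by simp, by simp⟩, hpK⟩
    have h2 : (((fun θ : ℝ => p + (θ * s) • ν) '' Set.Icc 0 1) ∩ Kᶜ).Nonempty :=
      ⟨p', ⟨1, by simp, by simp [hp']⟩, hK'⟩
    obtain ⟨q, ⟨θ, hθ, rfl⟩, hq⟩ := meets_frontier hconn h1 h2
    exact ⟨_, hq, hdist θ hθ.1 hθ.2⟩

set_option maxHeartbeats 1000000 in
/-- every boundary point is close to the averaged curve -/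
lemma close2 (D : Data K a g) (H : Ker n N y w) (hint : (interior K).Nonempty) {q : ℂ}
    (hq : q ∈ frontier K) : ∃ x : ℝ, |x| ≤ 1 ∧ ‖av N y w g x - q‖ ≤ CU / (n + 2) ^ 2 := by
  have hpi := Real.pi_pos
  have hpi3 := Real.pi_gt_three
  obtain ⟨x₀, hx₀, rfl⟩ := D.surj hint hq
  set b : ℝ := 1 / (32 * Real.pi) with hb
  have hb0 : 0 < b := by positivity
  have hb2 : b ≤ 1 / 2 := by
    rw [hb]
    exact one_div_le_one_div_of_le (by norm_num) (by nlinarith)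
  have h2b : 2 * b = 1 / (16 * Real.pi) := by rw [hb]; field_simp; norm_num
  set N₀ := Nv a g x₀ with hN₀
  have hN1 : 1 ≤ ‖N₀‖ := D.N_ge x₀
  have hx₀' := abs_le.1 hx₀
  -- general estimate at x₁ = x₀ ± b
  have hfar : ∀ x₁ : ℝ, |x₁| ≤ 1 → (∀ z : ℝ, |z - x₁| ≤ b →
      ‖g z - g x₀‖ * ‖N₀‖ ≤ 2 * cr N₀ (g z - g x₀)) → cr N₀ (av N y w g x₁ - g x₀) ≤ 0 →
      ‖av N y w g x₁ - g x₀‖ ≤ CU / (n + 2) ^ 2 := by
    intro x₁ hx₁ hnear hF
    have h1 : ‖av N y w g x₁ - g x₀‖ * ‖N₀‖ ≤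
        ∑ l ∈ range N, (w l).eval x₁ * (‖g (y l) - g x₀‖ * ‖N₀‖) := by
      have := mul_le_mul_of_nonneg_right (norm_av (g := g) H hx₁ (g x₀)) (norm_nonneg N₀)
      rw [sum_mul] at this
      refine this.trans (le_of_eq ?_)
      exact sum_congr rfl fun l _ => by ring
    have h2 : ∀ l ∈ range N, (w l).eval x₁ * (‖g (y l) - g x₀‖ * ‖N₀‖) ≤
        (w l).eval x₁ * (2 * cr N₀ (g (y l) - g x₀)) +
          6 * ‖N₀‖ / b ^ 2 * ((w l).eval x₁ * (y l - x₁) ^ 2) := by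
      intro l _
      have hw := H.pos l x₁ hx₁
      have key : ‖g (y l) - g x₀‖ * ‖N₀‖ ≤ 2 * cr N₀ (g (y l) - g x₀) +
          6 * ‖N₀‖ / b ^ 2 * (y l - x₁) ^ 2 := by
        by_cases hnr : |y l - x₁| ≤ b
        · have h3 := hnear _ hnr
          have : 0 ≤ 6 * ‖N₀‖ / b ^ 2 * (y l - x₁) ^ 2 := by positivity
          linarith
        · push Not at hnr
          have h3 := D.diam (D.gK (y l)) (D.gK x₀)
          have h4 := (abs_le.1 (cr_le N₀ (g (y l) - g x₀))).1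
          have h5 : 1 ≤ (y l - x₁) ^ 2 / b ^ 2 := by
            rw [one_le_div (by positivity), ← sq_abs (y l - x₁)]
            exact pow_le_pow_left₀ hb0.le hnr.le 2
          have h6 : 6 * ‖N₀‖ / b ^ 2 * (y l - x₁) ^ 2 = 6 * ‖N₀‖ * ((y l - x₁) ^ 2 / b ^ 2) := by
            ring
          rw [h6]
          have h7 : 6 * ‖N₀‖ ≤ 6 * ‖N₀‖ * ((y l - x₁) ^ 2 / b ^ 2) := by
            have : 6 * ‖N₀‖ * 1 ≤ 6 * ‖N₀‖ * ((y l - x₁) ^ 2 / b ^ 2) :=
              mul_le_mul_of_nonneg_left h5 (by positivity)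
            linarith
          have h8 : ‖N₀‖ * ‖g (y l) - g x₀‖ ≤ ‖N₀‖ * 2 :=
            mul_le_mul_of_nonneg_left h3 (by positivity)
          linarith
      calc (w l).eval x₁ * (‖g (y l) - g x₀‖ * ‖N₀‖)
          ≤ (w l).eval x₁ * (2 * cr N₀ (g (y l) - g x₀) + 6 * ‖N₀‖ / b ^ 2 * (y l - x₁) ^ 2) :=
            mul_le_mul_of_nonneg_left key hw
        _ = _ := by ring
    have h3 := h1.trans (sum_le_sum h2)
    rw [sum_add_distrib, ← mul_sum] at h3
    have h4 : ∑ l ∈ range N, (w l).eval x₁ * (2 * cr N₀ (g (y l) - g x₀)) =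
        2 * cr N₀ (av N y w g x₁ - g x₀) := by
      rw [cr_av H hx₁, mul_sum]
      exact sum_congr rfl fun l _ => by ring
    rw [h4] at h3
    have h5 := mul_le_mul_of_nonneg_left (H.mom x₁ hx₁) (by positivity : 0 ≤ 6 * ‖N₀‖ / b ^ 2)
    have h6 : 6 * ‖N₀‖ / b ^ 2 * (2 * Real.pi ^ 2 / ((n : ℝ) + 2) ^ 2) =
        (CU / (n + 2) ^ 2) * ‖N₀‖ := by
      rw [hb, CU]
      field_simp
      ring
    rw [h6] at h5
    have h7 : ‖av N y w g x₁ - g x₀‖ * ‖N₀‖ ≤ (CU / (n + 2) ^ 2) * ‖N₀‖ := by linarith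
    exact le_of_mul_le_mul_right h7 (by linarith)
  have hx1 : |x₀ + b| ≤ 1 := by rw [abs_le]; constructor <;> linarith
  have hx2 : |x₀ - b| ≤ 1 := by rw [abs_le]; constructor <;> linarith
  by_cases c1 : cr N₀ (av N y w g (x₀ + b) - g x₀) < 0
  · refine ⟨x₀ + b, hx1, hfar _ hx1 ?_ c1.le⟩
    intro z hz
    have hz' := abs_le.1 hz
    obtain ⟨s1, _, s3, _⟩ := D.sign x₀ z (by rw [← h2b, abs_le]; constructor <;> linarith)
    rwa [abs_of_nonneg (s1 (by linarith))] at s3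
  by_cases c2 : 0 < cr N₀ (av N y w g (x₀ - b) - g x₀)
  · -- mirror case
    have hcr : ∀ z v : ℂ, cr (-z) v = - cr z v := by intro z v; simp [cr]; ring
    -- same estimate with the opposite sign
    have hfar' : ‖av N y w g (x₀ - b) - g x₀‖ ≤ CU / (n + 2) ^ 2 := by
      have h1 : ‖av N y w g (x₀ - b) - g x₀‖ * ‖N₀‖ ≤
          ∑ l ∈ range N, (w l).eval (x₀ - b) * (‖g (y l) - g x₀‖ * ‖N₀‖) := by
        have := mul_le_mul_of_nonneg_right (norm_av (g := g) H hx2 (g x₀)) (norm_nonneg N₀)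
        rw [sum_mul] at this
        refine this.trans (le_of_eq ?_)
        exact sum_congr rfl fun l _ => by ring
      have h2 : ∀ l ∈ range N, (w l).eval (x₀ - b) * (‖g (y l) - g x₀‖ * ‖N₀‖) ≤
          (w l).eval (x₀ - b) * (-2 * cr N₀ (g (y l) - g x₀)) +
            6 * ‖N₀‖ / b ^ 2 * ((w l).eval (x₀ - b) * (y l - (x₀ - b)) ^ 2) := by
        intro l _
        have hw := H.pos l (x₀ - b) hx2
        have key : ‖g (y l) - g x₀‖ * ‖N₀‖ ≤ -2 * cr N₀ (g (y l) - g x₀) +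
            6 * ‖N₀‖ / b ^ 2 * (y l - (x₀ - b)) ^ 2 := by
          by_cases hnr : |y l - (x₀ - b)| ≤ b
          · have hz' := abs_le.1 hnr
            obtain ⟨_, s2, s3, _⟩ := D.sign x₀ (y l)
              (by rw [← h2b, abs_le]; constructor <;> linarith)
            rw [abs_of_nonpos (s2 (by linarith))] at s3
            have : 0 ≤ 6 * ‖N₀‖ / b ^ 2 * (y l - (x₀ - b)) ^ 2 := by positivity
            linarith
          · push Not at hnr
            have h3 := D.diam (D.gK (y l)) (D.gK x₀)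
            have h4 := (abs_le.1 (cr_le N₀ (g (y l) - g x₀))).2
            have h5 : 1 ≤ (y l - (x₀ - b)) ^ 2 / b ^ 2 := by
              rw [one_le_div (by positivity), ← sq_abs (y l - (x₀ - b))]
              exact pow_le_pow_left₀ hb0.le hnr.le 2
            have h6 : 6 * ‖N₀‖ / b ^ 2 * (y l - (x₀ - b)) ^ 2 =
                6 * ‖N₀‖ * ((y l - (x₀ - b)) ^ 2 / b ^ 2) := by
              ring
            rw [h6]
            have h7 : 6 * ‖N₀‖ ≤ 6 * ‖N₀‖ * ((y l - (x₀ - b)) ^ 2 / b ^ 2) := by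
              have : 6 * ‖N₀‖ * 1 ≤ 6 * ‖N₀‖ * ((y l - (x₀ - b)) ^ 2 / b ^ 2) :=
                mul_le_mul_of_nonneg_left h5 (by positivity)
              linarith
            have h8 : ‖N₀‖ * ‖g (y l) - g x₀‖ ≤ ‖N₀‖ * 2 :=
              mul_le_mul_of_nonneg_left h3 (by positivity)
            linarith
        calc (w l).eval (x₀ - b) * (‖g (y l) - g x₀‖ * ‖N₀‖)
            ≤ (w l).eval (x₀ - b) * (-2 * cr N₀ (g (y l) - g x₀) +
              6 * ‖N₀‖ / b ^ 2 * (y l - (x₀ - b)) ^ 2) := mul_le_mul_of_nonneg_left key hw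
          _ = _ := by ring
      have h3 := h1.trans (sum_le_sum h2)
      rw [sum_add_distrib, ← mul_sum] at h3
      have h4 : ∑ l ∈ range N, (w l).eval (x₀ - b) * (-2 * cr N₀ (g (y l) - g x₀)) =
          -2 * cr N₀ (av N y w g (x₀ - b) - g x₀) := by
        rw [cr_av H hx2, mul_sum]
        exact sum_congr rfl fun l _ => by ring
      rw [h4] at h3
      have h5 := mul_le_mul_of_nonneg_left (H.mom (x₀ - b) hx2)
        (by positivity : 0 ≤ 6 * ‖N₀‖ / b ^ 2)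
      have h6 : 6 * ‖N₀‖ / b ^ 2 * (2 * Real.pi ^ 2 / ((n : ℝ) + 2) ^ 2) =
          (CU / (n + 2) ^ 2) * ‖N₀‖ := by
        rw [hb, CU]
        field_simp
        ring
      rw [h6] at h5
      have h7 : ‖av N y w g (x₀ - b) - g x₀‖ * ‖N₀‖ ≤ (CU / (n + 2) ^ 2) * ‖N₀‖ := by linarith
      exact le_of_mul_le_mul_right h7 (by linarith)
    exact ⟨x₀ - b, hx2, hfar'⟩
  push Not at c1 c2
  -- intermediate value theorem
  obtain ⟨x, hx, hx0⟩ : ∃ x ∈ Set.Icc (x₀ - b) (x₀ + b), cr N₀ (av N y w g x - g x₀) = 0 := by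
    have hcont : ContinuousOn (fun x => cr N₀ (av N y w g x - g x₀))
        (Set.Icc (x₀ - b) (x₀ + b)) := by
      have := av_cont (N := N) (y := y) (w := w) (g := g)
      unfold cr
      fun_prop
    exact intermediate_value_Icc (by linarith) hcont ⟨c2, c1⟩
  have hxx : |x - x₀| ≤ 1 / (16 * Real.pi) := by
    rw [← h2b, abs_le]; constructor <;> linarith [hx.1, hx.2]
  have hx1' : |x| ≤ 1 := by rw [abs_le]; constructor <;> linarith [hx.1, hx.2]
  obtain ⟨_, _, _, s4⟩ := D.sign x₀ x hxx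
  refine ⟨x, hx1', ?_⟩
  set z := av N y w g x - g x₀ with hz
  have hz0 : dt N₀ z ≤ 0 := D.gp x₀ _ (av_mem D H hx1')
  have hdep := depth D H hx1'
  have hup : dt (Nv a g x) (g x₀ - g x) ≤ 0 := D.gp x _ (D.gK x₀)
  set ρ := 64 * Real.pi ^ 4 / ((n : ℝ) + 2) ^ 2 with hρ
  have hρ0 : 0 ≤ ρ := by positivity
  have h1 : - dt (Nv a g x) z ≤ ρ := by
    have : dt (Nv a g x) (g x - av N y w g x) = - dt (Nv a g x) z - dt (Nv a g x) (g x₀ - g x) := by
      rw [hz]; simp [dt]; ring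
    linarith
  have hid : ‖N₀‖ ^ 2 * dt (Nv a g x) z = dt N₀ (Nv a g x) * dt N₀ z := by
    have h2 : ‖N₀‖ ^ 2 * dt (Nv a g x) z = dt N₀ (Nv a g x) * dt N₀ z +
        cr N₀ (Nv a g x) * cr N₀ z := by
      rw [← dt_self]; unfold dt cr; ring
    rw [h2, hx0]; ring
  have h3 : dt N₀ (Nv a g x) * (- dt N₀ z) ≤ ‖N₀‖ ^ 2 * ρ := by
    have := mul_le_mul_of_nonneg_left h1 (by positivity : 0 ≤ ‖N₀‖ ^ 2)
    linarith
  have h4 : ‖N₀‖ ^ 2 * (- dt N₀ z) ≤ ‖N₀‖ ^ 2 * (2 * ρ) := by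
    have := mul_le_mul_of_nonneg_right s4 (by linarith : 0 ≤ - dt N₀ z)
    linarith
  have h5 : - dt N₀ z ≤ 2 * ρ := le_of_mul_le_mul_left h4 (by positivity)
  have h6 := dtcr N₀ z
  rw [hx0] at h6
  have h7 : ‖z‖ ≤ 2 * ρ := by
    have h8 : ‖N₀‖ * ‖z‖ = - dt N₀ z := by
      have : (‖N₀‖ * ‖z‖) ^ 2 = (- dt N₀ z) ^ 2 := by nlinarith
      exact (pow_left_inj₀ (by positivity) (by linarith) (two_ne_zero)).1 this
    have h9 : 1 * ‖z‖ ≤ ‖N₀‖ * ‖z‖ := mul_le_mul_of_nonneg_right hN1 (norm_nonneg _)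
    linarith
  refine h7.trans ?_
  rw [hρ, CU, mul_div_assoc']
  refine div_le_div_of_nonneg_right ?_ (by positivity)
  nlinarith [pow_pos hpi 4]

end Main

/-- **Upper bound.** -/
theorem upper {K : Set ℂ} (hK : IsCompact K) (hc : Convex ℝ K) (hint : (interior K).Nonempty)
    (hdiam : ∀ z ∈ K, ∀ w ∈ K, ‖z - w‖ ≤ 1) (n : ℕ) :
    ∃ P Q : ℝ[X], P.natDegree ≤ n ∧ Q.natDegree ≤ n ∧
      (∀ t ∈ Set.Icc (0 : ℝ) 1, ∃ q ∈ frontier K,
        ‖(⟨P.eval t, Q.eval t⟩ : ℂ) - q‖ ≤ CU / (n + 2) ^ 2) ∧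
      (∀ q ∈ frontier K, ∃ t ∈ Set.Icc (0 : ℝ) 1,
        ‖(⟨P.eval t, Q.eval t⟩ : ℂ) - q‖ ≤ CU / (n + 2) ^ 2) := by
  obtain ⟨a, ha'⟩ := hint
  have ha : a ∈ K := interior_subset ha'
  obtain ⟨g, D⟩ := Data.exists hK hc ha (fun z hz => hdiam z hz a ha)
  obtain ⟨N, y, w, k1, k2, k3, k4, k5⟩ := kernel n
  have H : Ker n N y w := ⟨k1, k2, k3, k4, k5⟩
  set L : ℝ[X] := Polynomial.C 2 * Polynomial.X - Polynomial.C 1 with hL
  have hLd : L.natDegree ≤ 1 := by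
    rw [hL]
    compute_degree
  have hLe : ∀ t, L.eval t = 2 * t - 1 := by intro t; simp [hL]
  set P0 : ℝ[X] := ∑ l ∈ range N, Polynomial.C (g (y l)).re * w l with hP0
  set Q0 : ℝ[X] := ∑ l ∈ range N, Polynomial.C (g (y l)).im * w l with hQ0
  have hP0d : P0.natDegree ≤ n :=
    natDegree_sum_le_of_forall_le _ _ fun l _ => (natDegree_C_mul_le _ _).trans (H.deg l)
  have hQ0d : Q0.natDegree ≤ n :=
    natDegree_sum_le_of_forall_le _ _ fun l _ => (natDegree_C_mul_le _ _).trans (H.deg l)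
  have hdc : ∀ R : ℝ[X], R.natDegree ≤ n → (R.comp L).natDegree ≤ n := by
    intro R hR
    refine natDegree_comp_le.trans ?_
    calc R.natDegree * L.natDegree ≤ n * 1 := Nat.mul_le_mul hR hLd
      _ = n := mul_one n
  have hev : ∀ t, (⟨(P0.comp L).eval t, (Q0.comp L).eval t⟩ : ℂ) = av N y w g (2 * t - 1) := by
    intro t
    rw [eval_comp, eval_comp, hLe]
    unfold av
    apply Complex.ext
    · simp only [hP0, eval_finsetSum, eval_mul, eval_C, Complex.re_sum, Complex.smul_re,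
        smul_eq_mul]
      exact sum_congr rfl fun l _ => by ring
    · simp only [hQ0, eval_finsetSum, eval_mul, eval_C, Complex.im_sum, Complex.smul_im,
        smul_eq_mul]
      exact sum_congr rfl fun l _ => by ring
  refine ⟨P0.comp L, Q0.comp L, hdc _ hP0d, hdc _ hQ0d, ?_, ?_⟩
  · intro t ht
    rw [hev]
    exact close1 D H (by rw [abs_le]; constructor <;> linarith [ht.1, ht.2])
  · intro q hq
    obtain ⟨x, hx, hxq⟩ := close2 D H ⟨a, ha'⟩ hq
    have hx' := abs_le.1 hx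
    refine ⟨(x + 1) / 2, ⟨by linarith, by linarith⟩, ?_⟩
    rw [hev, show 2 * ((x + 1) / 2) - 1 = x by ring]
    exact hxq

end Q90.CC
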