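import Mathlib

/-! Lower bound: polygons inscribed around a parabola. -/

open Finset Polynomial

namespace Q90.CC

/-- convex region above the tangents of the parabola at the nodes `k/m` -/
def Km (m : ℕ) : Set ℂ :=
  {z | 0 ≤ z.re ∧ z.re ≤ 1 ∧ z.im ≤ 3 ∧
    ∀ k ∈ range (m + 1), 2 * ((k : ℝ) / m) * z.re - ((k : ℝ) / m) ^ 2 ≤ z.im}

lemma Km_closed (m : ℕ) : IsClosed (Km m) := by
  have h : Km m = {z : ℂ | 0 ≤ z.re} ∩ {z : ℂ | z.re ≤ 1} ∩ {z : ℂ | z.im ≤ 3} ∩
      ⋂ k ∈ range (m + 1), {z : ℂ | 2 * ((k : ℝ) / m) * z.re - ((k : ℝ) / m) ^ 2 ≤ z.im} := by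
    ext z; simp [Km, and_assoc]
  rw [h]
  refine IsClosed.inter (IsClosed.inter (IsClosed.inter ?_ ?_) ?_) ?_
  · exact isClosed_le continuous_const Complex.continuous_re
  · exact isClosed_le Complex.continuous_re continuous_const
  · exact isClosed_le Complex.continuous_im continuous_const
  · refine isClosed_biInter fun k _ => isClosed_le ?_ Complex.continuous_im
    exact (continuous_const.mul Complex.continuous_re).sub continuous_const

lemma Km_convex (m : ℕ) : Convex ℝ (Km m) := by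
  intro z hz w hw s t hs ht hst
  obtain ⟨z1, z2, z3, z4⟩ := hz
  obtain ⟨w1, w2, w3, w4⟩ := hw
  refine ⟨?_, ?_, ?_, fun k hk => ?_⟩
  · simp only [Complex.add_re, Complex.smul_re, smul_eq_mul]; positivity
  · simp only [Complex.add_re, Complex.smul_re, smul_eq_mul]; nlinarith
  · simp only [Complex.add_im, Complex.smul_im, smul_eq_mul]; nlinarith
  · have h1 := mul_le_mul_of_nonneg_left (z4 k hk) hs
    have h2 := mul_le_mul_of_nonneg_left (w4 k hk) ht
    simp only [Complex.add_re, Complex.smul_re, smul_eq_mul, Complex.add_im, Complex.smul_im]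
    have h3 : ((k : ℝ) / m) ^ 2 = (s + t) * ((k : ℝ) / m) ^ 2 := by rw [hst, one_mul]
    nlinarith

lemma Km_im_nonneg {m : ℕ} {z : ℂ} (hz : z ∈ Km m) : 0 ≤ z.im := by
  have := hz.2.2.2 0 (by simp)
  simpa using this

lemma Km_diam {m : ℕ} {z w : ℂ} (hz : z ∈ Km m) (hw : w ∈ Km m) : ‖z - w‖ ≤ 4 := by
  have h1 := Km_im_nonneg hz
  have h2 := Km_im_nonneg hw
  obtain ⟨z1, z2, z3, _⟩ := hz
  obtain ⟨w1, w2, w3, _⟩ := hw
  refine (Complex.norm_le_abs_re_add_abs_im _).trans ?_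
  have h3 : |(z - w).re| ≤ 1 := by rw [Complex.sub_re, abs_le]; constructor <;> linarith
  have h4 : |(z - w).im| ≤ 3 := by rw [Complex.sub_im, abs_le]; constructor <;> linarith
  linarith

lemma Km_compact (m : ℕ) : IsCompact (Km m) := by
  refine Metric.isCompact_of_isClosed_isBounded (Km_closed m) ?_
  rw [Metric.isBounded_iff]
  exact ⟨4, fun z hz w hw => by rw [dist_eq_norm]; exact Km_diam hz hw⟩

/-- the strict region is open and contained in `Km` -/
def Ks (m : ℕ) : Set ℂ :=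
  {z | 0 < z.re ∧ z.re < 1 ∧ z.im < 3 ∧
    ∀ k ∈ range (m + 1), 2 * ((k : ℝ) / m) * z.re - ((k : ℝ) / m) ^ 2 < z.im}

lemma Ks_subset (m : ℕ) : Ks m ⊆ interior (Km m) := by
  refine interior_maximal ?_ ?_
  · intro z hz
    exact ⟨hz.1.le, hz.2.1.le, hz.2.2.1.le, fun k hk => (hz.2.2.2 k hk).le⟩
  · have h : Ks m = {z : ℂ | 0 < z.re} ∩ {z : ℂ | z.re < 1} ∩ {z : ℂ | z.im < 3} ∩
        ⋂ k ∈ range (m + 1), {z : ℂ | 2 * ((k : ℝ) / m) * z.re - ((k : ℝ) / m) ^ 2 < z.im} := by
      ext z; simp [Ks, and_assoc]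
    rw [h]
    refine IsOpen.inter (IsOpen.inter (IsOpen.inter ?_ ?_) ?_) ?_
    · exact isOpen_lt continuous_const Complex.continuous_re
    · exact isOpen_lt Complex.continuous_re continuous_const
    · exact isOpen_lt Complex.continuous_im continuous_const
    · refine isOpen_biInter_finset fun k _ => isOpen_lt ?_ Complex.continuous_im
      exact (continuous_const.mul Complex.continuous_re).sub continuous_const

lemma Km_int (m : ℕ) : (interior (Km m)).Nonempty := by
  refine ⟨⟨1 / 2, 2⟩, Ks_subset m ⟨by norm_num, by norm_num, by norm_num, fun k _ => ?_⟩⟩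
  simp only
  nlinarith [sq_nonneg ((k : ℝ) / m - 1 / 2)]

/-- nodes lie on the boundary -/
lemma node_frontier {m k : ℕ} (hm : 0 < m) (hk : k ≤ m) :
    (⟨(k : ℝ) / m, ((k : ℝ) / m) ^ 2⟩ : ℂ) ∈ frontier (Km m) := by
  have hmr : (0 : ℝ) < m := by exact_mod_cast hm
  have hk1 : (k : ℝ) / m ≤ 1 := by
    rw [div_le_one hmr]; exact_mod_cast hk
  have hk0 : 0 ≤ (k : ℝ) / m := by positivity
  have hmem : (⟨(k : ℝ) / m, ((k : ℝ) / m) ^ 2⟩ : ℂ) ∈ Km m := by
    refine ⟨hk0, hk1, ?_, fun j _ => ?_⟩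
    · simp only; nlinarith
    · simp only
      nlinarith [sq_nonneg ((k : ℝ) / m - (j : ℝ) / m)]
  refine ⟨subset_closure hmem, fun hint => ?_⟩
  set q : ℂ := ⟨(k : ℝ) / m, ((k : ℝ) / m) ^ 2⟩ with hq
  have hopen : ∀ᶠ ε : ℝ in nhds 0, q + ε • (-Complex.I) ∈ interior (Km m) := by
    have hc : ContinuousAt (fun ε : ℝ => q + ε • (-Complex.I)) 0 := by fun_prop
    have h0 : interior (Km m) ∈ nhds ((fun ε : ℝ => q + ε • (-Complex.I)) 0) := by
      simp only [zero_smul, add_zero]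
      exact isOpen_interior.mem_nhds hint
    exact hc h0
  have h2 := hopen.filter_mono (nhdsWithin_le_nhds (s := Set.Ioi 0))
  obtain ⟨ε, hε1, hε2⟩ := (h2.and self_mem_nhdsWithin).exists
  have hε2' : 0 < ε := hε2
  have h3 := (interior_subset hε1).2.2.2 k (by rw [mem_range]; omega)
  simp [hq] at h3
  nlinarith

/-- away from the box the boundary is polygonal -/
lemma tight {m : ℕ} {q : ℂ} (hq : q ∈ frontier (Km m)) (h0 : 0 < q.re) (h1 : q.re < 1)
    (h3 : q.im < 3) : ∃ k : ℕ, q.im = q.re ^ 2 - (q.re - (k : ℝ) / m) ^ 2 := by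
  by_contra hcon
  push Not at hcon
  have hqK : q ∈ Km m := (Km_closed m).frontier_subset hq
  refine hq.2 (Ks_subset m ⟨h0, h1, h3, fun k hk => ?_⟩)
  refine lt_of_le_of_ne (hqK.2.2.2 k hk) fun h => hcon k ?_
  rw [← h]; ring

set_option maxHeartbeats 2000000 in
/-- **Lower bound for the model curve.** -/
theorem lower (n : ℕ) (P Q : ℝ[X]) (hP : P.natDegree ≤ n) (hQ : Q.natDegree ≤ n) (ε : ℝ)
    (hε0 : 0 < ε) (hε : ε ≤ 1 / (100 * (2 * n + 3) ^ 2))
    (h1 : ∀ t ∈ Set.Icc (0 : ℝ) 1, ∃ q ∈ frontier (Km (2 * n + 3)),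
      |P.eval t - q.re| < ε ∧ |Q.eval t - q.im| < ε)
    (h2 : ∀ q ∈ frontier (Km (2 * n + 3)), ∃ t ∈ Set.Icc (0 : ℝ) 1,
      |P.eval t - q.re| < ε ∧ |Q.eval t - q.im| < ε) : False := by
  set m : ℕ := 2 * n + 3 with hm
  have hmr : (m : ℝ) = 2 * n + 3 := by rw [hm]; push_cast; ring
  have hm3 : (3 : ℝ) ≤ m := by rw [hmr]; linarith [(Nat.cast_nonneg n : (0 : ℝ) ≤ n)]
  have hmpos : (0 : ℝ) < m := by linarith
  rw [← hmr] at hε
  set u : ℝ := 1 / (m : ℝ) with hu
  have hu0 : 0 < u := by positivity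
  have hu3 : u ≤ 1 / 3 := one_div_le_one_div_of_le (by norm_num) hm3
  have hε' : ε ≤ u ^ 2 / 100 := by
    refine hε.trans (le_of_eq ?_)
    rw [hu]; field_simp
  have hεu : ε ≤ u / 100 := by nlinarith
  set G : ℝ[X] := Q - P ^ 2 + Polynomial.C (u ^ 2 / 16) with hG
  have hGe : ∀ t, G.eval t = Q.eval t - P.eval t ^ 2 + u ^ 2 / 16 := by
    intro t; simp [hG]
  have hGd : G.natDegree ≤ 2 * n := by
    rw [hG]
    refine (natDegree_add_le _ _).trans (max_le ((natDegree_sub_le _ _).trans (max_le ?_ ?_)) ?_)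
    · omega
    · refine (natDegree_pow_le).trans ?_
      omega
    · simp
  have hnode : ∀ k : ℕ, 1 ≤ k → k ≤ m - 1 → ∃ t ∈ Set.Icc (0 : ℝ) 1,
      |P.eval t - (k : ℝ) * u| < ε ∧ |Q.eval t - ((k : ℝ) * u) ^ 2| < ε := by
    intro k hk1 hk2
    obtain ⟨t, ht, ht1, ht2⟩ := h2 _ (node_frontier (m := m) (k := k) (by omega) (by omega))
    refine ⟨t, ht, ?_, ?_⟩
    · rw [hu]; simpa [div_eq_mul_inv] using ht1
    · rw [hu]; simpa [div_eq_mul_inv] using ht2
  choose! T hT hT1 hT2 using hnode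
  have hkb : ∀ k : ℕ, 1 ≤ k → k ≤ m - 1 → u ≤ (k : ℝ) * u ∧ (k : ℝ) * u ≤ 1 - u := by
    intro k hk1 hk2
    have a1 : (1 : ℝ) ≤ k := by exact_mod_cast hk1
    have a2 : (k : ℝ) + 1 ≤ m := by
      have : k + 1 ≤ m := by omega
      exact_mod_cast this
    have a3 : (m : ℝ) * u = 1 := by rw [hu]; field_simp
    constructor
    · nlinarith
    · nlinarith
  have hGpos : ∀ k : ℕ, 1 ≤ k → k ≤ m - 1 → 0 < G.eval (T k) := by
    intro k hk1 hk2
    rw [hGe]
    obtain ⟨a1, a2⟩ := abs_lt.1 (hT1 k hk1 hk2)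
    obtain ⟨b1, b2⟩ := abs_lt.1 (hT2 k hk1 hk2)
    obtain ⟨c1, c2⟩ := hkb k hk1 hk2
    set x := (k : ℝ) * u
    have hP2 : (P.eval (T k)) ^ 2 ≤ x ^ 2 + 3 * ε := by
      have d1 : P.eval (T k) ≤ x + ε := by linarith
      have d2 : 0 ≤ P.eval (T k) := by linarith
      have d3 : (P.eval (T k)) ^ 2 ≤ (x + ε) ^ 2 := pow_le_pow_left₀ d2 d1 2
      nlinarith
    nlinarith
  -- between two nodes there is a zero
  have hzero : ∀ k : ℕ, 1 ≤ k → k ≤ m - 1 → ∀ j : ℕ, 1 ≤ j → j ≤ m - 1 → j ≠ k →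
      ∃ r ∈ Set.uIcc (T k) (T j), G.eval r = 0 := by
    intro k hk1 hk2 j hj1 hj2 hjk
    obtain ⟨c1, c2⟩ := hkb k hk1 hk2
    obtain ⟨a1, a2⟩ := abs_lt.1 (hT1 k hk1 hk2)
    obtain ⟨b1, b2⟩ := abs_lt.1 (hT2 k hk1 hk2)
    obtain ⟨e1, e2⟩ := abs_lt.1 (hT1 j hj1 hj2)
    have hsub : Set.uIcc (T k) (T j) ⊆ Set.Icc 0 1 :=
      Set.uIcc_subset_Icc (hT k hk1 hk2) (hT j hj1 hj2)
    set H : ℝ → ℝ := fun t => max (|P.eval t - (k : ℝ) * u| - u / 2) (Q.eval t - 3 / 2) with hH
    have hHc : ContinuousOn H (Set.uIcc (T k) (T j)) := by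
      apply Continuous.continuousOn
      have := P.continuous
      have := Q.continuous
      fun_prop
    have hHk : H (T k) ≤ 0 := by
      apply max_le
      · have := (hT1 k hk1 hk2).le; linarith
      · nlinarith
    have hHj : 0 ≤ H (T j) := by
      apply le_max_of_le_left
      have hd : u ≤ |(j : ℝ) * u - (k : ℝ) * u| := by
        rw [← sub_mul, abs_mul, abs_of_pos hu0]
        have : (1 : ℝ) ≤ |(j : ℝ) - k| := by
          have h5 : (1 : ℤ) ≤ |(j : ℤ) - k| := Int.one_le_abs (by omega)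
          have h6 : ((1 : ℤ) : ℝ) ≤ ((|(j : ℤ) - k| : ℤ) : ℝ) := by exact_mod_cast h5
          push_cast at h6
          exact h6
        nlinarith
      have h7 : (j : ℝ) * u - (k : ℝ) * u = (P.eval (T j) - (k : ℝ) * u) -
          (P.eval (T j) - (j : ℝ) * u) := by ring
      rw [h7] at hd
      have h8 := abs_sub (P.eval (T j) - (k : ℝ) * u) (P.eval (T j) - (j : ℝ) * u)
      have h9 := (hT1 j hj1 hj2)
      linarith
    obtain ⟨t, ht, ht0⟩ : ∃ t ∈ Set.uIcc (T k) (T j), H t = 0 :=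
      intermediate_value_uIcc hHc (by rw [Set.uIcc_of_le (hHk.trans hHj)]; exact ⟨hHk, hHj⟩)
    have hGneg : G.eval t < 0 := by
      obtain ⟨q, hq, q1, q2⟩ := h1 t (hsub ht)
      obtain ⟨f1, f2⟩ := abs_lt.1 q1
      obtain ⟨g1, g2⟩ := abs_lt.1 q2
      have hH1 : |P.eval t - (k : ℝ) * u| - u / 2 ≤ 0 := by rw [← ht0]; exact le_max_left _ _
      have hH2 : Q.eval t - 3 / 2 ≤ 0 := by rw [← ht0]; exact le_max_right _ _
      obtain ⟨i1, i2⟩ := abs_le.1 (show |P.eval t - (k : ℝ) * u| ≤ u / 2 by linarith)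
      have hre0 : 0 < q.re := by linarith
      have hre1 : q.re < 1 := by linarith
      obtain ⟨l, hl⟩ := tight hq hre0 hre1 (by nlinarith)
      have hlu : (l : ℝ) / m = l * u := by rw [hu]; ring
      rw [hlu] at hl
      rcases max_choice (|P.eval t - (k : ℝ) * u| - u / 2) (Q.eval t - 3 / 2) with hmax | hmax
      · -- the vertical sides
        have h5 : |P.eval t - (k : ℝ) * u| = u / 2 := by
          have : |P.eval t - (k : ℝ) * u| - u / 2 = 0 := by rw [← hmax]; exact ht0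
          linarith
        -- distance from the nodes
        have h6 : u / 2 ≤ |P.eval t - (l : ℝ) * u| := by
          have hodd : ∃ s : ℤ, (P.eval t - (l : ℝ) * u) = (2 * s + 1 : ℝ) * (u / 2) := by
            rcases abs_choice (P.eval t - (k : ℝ) * u) with h7 | h7
            · refine ⟨(k : ℤ) - l, ?_⟩
              rw [h7] at h5
              push_cast
              linarith
            · refine ⟨(k : ℤ) - l - 1, ?_⟩
              rw [h7] at h5
              push_cast
              linarith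
          obtain ⟨s, hs⟩ := hodd
          rw [hs, abs_mul, abs_of_pos (by positivity : 0 < u / 2)]
          have h8 : (1 : ℤ) ≤ |2 * s + 1| := Int.one_le_abs (by omega)
          have h9 : (1 : ℝ) ≤ |(2 * s + 1 : ℝ)| := by exact_mod_cast h8
          nlinarith
        have h7 : u / 2 - ε ≤ |q.re - (l : ℝ) * u| := by
          have h8 : P.eval t - (l : ℝ) * u = (q.re - l * u) + (P.eval t - q.re) := by ring
          rw [h8] at h6
          have := abs_add_le (q.re - l * u) (P.eval t - q.re)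
          linarith
        have h8 : (u / 2 - ε) ^ 2 ≤ (q.re - (l : ℝ) * u) ^ 2 := by
          rw [← sq_abs (q.re - (l : ℝ) * u)]
          exact pow_le_pow_left₀ (by linarith) h7 2
        have h9 : q.re ^ 2 - 3 * ε ≤ (P.eval t) ^ 2 := by
          have d1 : q.re - ε ≤ P.eval t := by linarith
          have d2 : 0 ≤ P.eval t := by linarith
          by_cases hh : q.re - ε ≤ 0
          · nlinarith
          · push Not at hh
            have : (q.re - ε) ^ 2 ≤ (P.eval t) ^ 2 := pow_le_pow_left₀ hh.le d1 2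
            nlinarith
        have h10 : (u / 2 - ε) ^ 2 ≥ u ^ 2 / 4 - u * ε := by nlinarith [sq_nonneg ε]
        have h11 : u * ε ≤ ε := by nlinarith
        have hu2 : 0 < u ^ 2 := by positivity
        rw [hGe]
        linarith
      · -- the top
        exfalso
        have h5 : Q.eval t = 3 / 2 := by
          have : Q.eval t - 3 / 2 = 0 := by rw [← hmax]; exact ht0
          linarith
        have h6 : q.im ≤ q.re ^ 2 := by rw [hl]; nlinarith [sq_nonneg (q.re - l * u)]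
        nlinarith
    have hGc : ContinuousOn (fun t => G.eval t) (Set.uIcc (T k) t) := G.continuous.continuousOn
    obtain ⟨r, hr, hr0⟩ : ∃ r ∈ Set.uIcc (T k) t, G.eval r = 0 := by
      refine intermediate_value_uIcc hGc ?_
      rw [Set.uIcc_of_ge (hGneg.le.trans (hGpos k hk1 hk2).le)]
      exact ⟨hGneg.le, (hGpos k hk1 hk2).le⟩
    exact ⟨r, Set.uIcc_subset_uIcc_left ht hr, hr0⟩
  -- counting
  have hGne : G ≠ 0 := by
    intro h0
    have := hGpos 1 le_rfl (by omega)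
    rw [h0] at this
    simp at this
  set Z : Finset ℝ := G.roots.toFinset with hZ
  have hZc : Z.card ≤ 2 * n := (Multiset.toFinset_card_le _).trans ((card_roots' G).trans hGd)
  have hmono : ∀ k ∈ Finset.Icc 1 (m - 1), ∀ j ∈ Finset.Icc 1 (m - 1), j ≠ k → T k ≤ T j →
      (Z.filter (· < T k)).card < (Z.filter (· < T j)).card := by
    intro k hk j hj hjk hle
    rw [Finset.mem_Icc] at hk hj
    obtain ⟨r, hr, hr0⟩ := hzero k hk.1 hk.2 j hj.1 hj.2 hjk
    rw [Set.uIcc_of_le hle] at hr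
    have hrk : T k ≠ r := by
      rintro h; rw [← h] at hr0
      exact (hGpos k hk.1 hk.2).ne' hr0
    have hrj : r ≠ T j := by
      rintro h; rw [h] at hr0
      exact (hGpos j hj.1 hj.2).ne' hr0
    apply Finset.card_lt_card
    refine (Finset.ssubset_iff_of_subset ?_).2 ⟨r, ?_, ?_⟩
    · intro z hz
      rw [Finset.mem_filter] at hz ⊢
      exact ⟨hz.1, hz.2.trans_le hle⟩
    · rw [Finset.mem_filter]
      refine ⟨?_, lt_of_le_of_ne hr.2 hrj⟩
      rw [hZ, Multiset.mem_toFinset, mem_roots hGne]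
      exact hr0
    · rw [Finset.mem_filter]
      rintro ⟨_, h⟩
      exact absurd h (not_lt.2 hr.1)
  have hinj : Set.InjOn (fun k => (Z.filter (· < T k)).card) (Finset.Icc 1 (m - 1) : Set ℕ) := by
    intro k hk j hj h
    by_contra hne
    rcases le_total (T k) (T j) with hle | hle
    · exact (hmono k hk j hj (Ne.symm hne) hle).ne h
    · exact (hmono j hj k hk hne hle).ne' h
  have hmaps : ∀ k ∈ Finset.Icc 1 (m - 1), (Z.filter (· < T k)).card ∈ range (2 * n + 1) := by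
    intro k _
    rw [mem_range]
    exact Nat.lt_succ_of_le ((Finset.card_filter_le _ _).trans hZc)
  have hcard := Finset.card_le_card_of_injOn _ hmaps hinj
  rw [Nat.card_Icc, card_range] at hcard
  omega

end Q90.CC
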