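import Mathlib
import Pool.Agent.Q90.CC2
import Pool.Agent.Q90.CC3

/-! Length of closed convex curves and scaling. -/

open MeasureTheory Polynomial
open scoped Pointwise ENNReal NNReal

namespace Q90.CC

lemma dt_add_smul (u p v : ℂ) (s : ℝ) : dt u (p + s • v) = dt u p + s * dt u v := by
  simp [dt]; ring

/-- the length of the boundary bounds the diameter -/
lemma diam_le_length {K : Set ℂ} (hK : IsCompact K) (hc : Convex ℝ K) {z w : ℂ} (hz : z ∈ K)
    (hw : w ∈ K) : ENNReal.ofReal ‖z - w‖ ≤ μH[1] (frontier K) := by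
  by_cases hzw : z = w
  · rw [hzw, sub_self, norm_zero, ENNReal.ofReal_zero]; exact zero_le
  have hd : 0 < ‖z - w‖ := norm_pos_iff.2 (sub_ne_zero.2 hzw)
  set u : ℂ := (1 / ‖z - w‖) • (z - w) with hu
  have hun : ‖u‖ = 1 := by
    rw [hu, norm_smul, Real.norm_of_nonneg (by positivity)]
    field_simp
  set f : ℂ → ℝ := fun v => dt u v with hf
  have hlip : LipschitzWith 1 f := by
    refine LipschitzWith.of_dist_le_mul fun x y => ?_
    rw [Real.dist_eq, dist_eq_norm, NNReal.coe_one, one_mul]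
    have h1 : f x - f y = dt u (x - y) := by simp only [hf]; rw [dt_sub_right]
    rw [h1]
    refine (dt_le _ _).trans ?_
    rw [hun, one_mul]
  have hfd : f z - f w = ‖z - w‖ := by
    have h1 : f z - f w = dt u (z - w) := by simp only [hf]; rw [dt_sub_right]
    have h2 : dt u (z - w) = 1 / ‖z - w‖ * dt (z - w) (z - w) := by
      rw [hu]; simp [dt]; ring
    rw [h1, h2, dt_self]
    field_simp
  obtain ⟨B, hB⟩ := hK.isBounded.exists_norm_le
  have hcov : Set.Icc (f w) (f z) ⊆ f '' frontier K := by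
    intro c hcI
    set s := (c - f w) / ‖z - w‖ with hs
    have hs0 : 0 ≤ s := div_nonneg (by linarith [hcI.1]) hd.le
    have hs1 : s ≤ 1 := by rw [hs, div_le_one hd, ← hfd]; linarith [hcI.2]
    set p := w + s • (z - w) with hp
    have hpK : p ∈ K := by
      have : p = (1 - s) • w + s • z := by
        rw [hp]; module
      rw [this]
      exact hc hw hz (by linarith) hs0 (by ring)
    have hfp : f p = c := by
      simp only [hf]
      rw [hp, dt_add_smul]
      have h1 : dt u (z - w) = ‖z - w‖ := by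
        rw [← hfd]; simp only [hf]; rw [dt_sub_right]
      rw [h1, hs]
      have : dt u w = f w := rfl
      rw [this]
      field_simp
      ring
    -- go in the orthogonal direction
    have hiu : dt u (Complex.I * u) = 0 := by simp [dt]; ring
    set M := 2 * B + 1 with hM
    have hB0 : 0 ≤ B := (norm_nonneg _).trans (hB z hz)
    have hout : p + M • (Complex.I * u) ∉ K := by
      intro h
      have h1 := hB _ h
      have h2 := hB _ hpK
      have h3 : M • (Complex.I * u) = (p + M • (Complex.I * u)) - p := by ring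
      have h4 : ‖M • (Complex.I * u)‖ = M := by
        rw [norm_smul, norm_mul, Complex.norm_I, hun, one_mul, mul_one,
          Real.norm_of_nonneg (by positivity)]
      have h5 := norm_sub_le (p + M • (Complex.I * u)) p
      rw [← h3, h4] at h5
      linarith
    have hconn : IsPreconnected ((fun θ : ℝ => p + θ • (Complex.I * u)) '' Set.Icc 0 M) := by
      refine isPreconnected_Icc.image _ ?_
      fun_prop
    have hM0 : 0 ≤ M := by positivity
    obtain ⟨q, ⟨θ, _, rfl⟩, hq⟩ := meets_frontier hconn (T := K)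
      ⟨p, ⟨0, ⟨le_rfl, hM0⟩, by simp⟩, hpK⟩ ⟨_, ⟨M, ⟨hM0, le_rfl⟩, rfl⟩, hout⟩
    refine ⟨_, hq, ?_⟩
    simp only [hf]
    rw [dt_add_smul, hiu, mul_zero, add_zero]
    exact hfp
  have h1 := hlip.hausdorffMeasure_image_le (d := 1) zero_le_one (frontier K)
  rw [ENNReal.coe_one, ENNReal.one_rpow, one_mul, hausdorffMeasure_real] at h1
  refine le_trans ?_ ((measure_mono hcov).trans h1)
  rw [Real.volume_Icc, hfd]

/-- upper bound for the length -/
lemma length_le {K : Set ℂ} (hK : IsCompact K) (hc : Convex ℝ K) (hint : (interior K).Nonempty)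
    (hdiam : ∀ z ∈ K, ∀ w ∈ K, ‖z - w‖ ≤ 1) :
    μH[1] (frontier K) ≤ ENNReal.ofReal (4 * Real.pi) := by
  obtain ⟨a, ha'⟩ := hint
  have ha : a ∈ K := interior_subset ha'
  obtain ⟨g, D⟩ := Data.exists hK hc ha (fun z hz => hdiam z hz a ha)
  have hlip : LipschitzWith (Real.toNNReal (4 * Real.pi)) g := by
    refine LipschitzWith.of_dist_le_mul fun x y => ?_
    rw [dist_eq_norm, Real.dist_eq, Real.coe_toNNReal _ (by positivity)]
    exact D.g_lip x y
  have hcov : frontier K ⊆ g '' Set.Icc (-(1 / 2)) (1 / 2) := by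
    intro q hq
    obtain ⟨x, hx, hxq⟩ := D.surj ⟨a, ha'⟩ hq
    exact ⟨x, abs_le.1 hx, hxq⟩
  have h1 := hlip.hausdorffMeasure_image_le (d := 1) zero_le_one (Set.Icc (-(1 / 2)) (1 / 2))
  rw [ENNReal.rpow_one, hausdorffMeasure_real, Real.volume_Icc] at h1
  refine (measure_mono hcov).trans (h1.trans (le_of_eq ?_))
  rw [show (1 / 2 : ℝ) - -(1 / 2) = 1 by norm_num, ENNReal.ofReal_one, mul_one]
  rfl

lemma frontier_smul' {c : ℝ} (hc : c ≠ 0) (K : Set ℂ) : frontier (c • K) = c • frontier K := by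
  have := (Homeomorph.smulOfNeZero (α := ℂ) c hc).image_frontier K
  exact this.symm

lemma length_smul {c : ℝ} (hc : 0 < c) (S : Set ℂ) :
    μH[1] (c • S) = ENNReal.ofReal c * μH[1] S := by
  rw [Measure.hausdorffMeasure_smul₀ zero_le_one hc.ne', NNReal.rpow_one]
  rw [ENNReal.smul_def, smul_eq_mul]
  congr 1
  rw [← enorm_eq_nnnorm, Real.enorm_of_nonneg hc.le]

/-- A rescaled model curve of length one. -/
lemma model_length_one (m : ℕ) : ∃ c : ℝ, 1 / (16 * Real.pi) ≤ c ∧
    μH[1] (frontier (c • Km m)) = 1 := by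
  have hpi := Real.pi_pos
  set K' : Set ℂ := (1 / 4 : ℝ) • Km m with hK'
  have h4 : (1 / 4 : ℝ) ≠ 0 := by norm_num
  have hKc : IsCompact K' := (Km_compact m).smul _
  have hconv : Convex ℝ K' := (Km_convex m).smul _
  have hint : (interior K').Nonempty := by
    rw [hK', interior_smul₀ h4]
    exact (Km_int m).smul_set
  have hdiam : ∀ z ∈ K', ∀ w ∈ K', ‖z - w‖ ≤ 1 := by
    rintro _ ⟨z, hz, rfl⟩ _ ⟨w, hw, rfl⟩
    simp only
    rw [← smul_sub, norm_smul, Real.norm_of_nonneg (by norm_num)]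
    have := Km_diam hz hw
    linarith
  have hup := length_le hKc hconv hint hdiam
  -- positive
  have hpos : 0 < μH[1] (frontier K') := by
    have hz1 : (⟨0, 3⟩ : ℂ) ∈ Km m := ⟨le_rfl, zero_le_one, le_rfl, fun k _ => by
      simp only; nlinarith [sq_nonneg ((k : ℝ) / m)]⟩
    have hz2 : (⟨0, 0⟩ : ℂ) ∈ Km m := ⟨le_rfl, zero_le_one, by norm_num, fun k _ => by
      simp only; nlinarith [sq_nonneg ((k : ℝ) / m)]⟩
    have h1 := diam_le_length hKc hconv (Set.smul_mem_smul_set (a := (1 / 4 : ℝ)) hz1)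
      (Set.smul_mem_smul_set (a := (1 / 4 : ℝ)) hz2)
    refine lt_of_lt_of_le ?_ h1
    rw [ENNReal.ofReal_pos, norm_pos_iff, sub_ne_zero]
    intro h
    have := congrArg Complex.im h
    simp at this
  have hfin : μH[1] (frontier K') ≠ ⊤ := ne_top_of_le_ne_top ENNReal.ofReal_ne_top hup
  set ℓ := (μH[1] (frontier K')).toReal with hℓ
  have hℓ0 : 0 < ℓ := ENNReal.toReal_pos hpos.ne' hfin
  have hℓ1 : ℓ ≤ 4 * Real.pi := ENNReal.toReal_le_of_le_ofReal (by positivity) hup
  refine ⟨1 / ℓ * (1 / 4), ?_, ?_⟩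
  · have h1 : 1 / (4 * Real.pi) ≤ 1 / ℓ := one_div_le_one_div_of_le hℓ0 hℓ1
    have h2 : 1 / (16 * Real.pi) = 1 / (4 * Real.pi) * (1 / 4) := by field_simp; norm_num
    rw [h2]
    exact mul_le_mul_of_nonneg_right h1 (by norm_num)
  · rw [mul_smul, ← hK', frontier_smul' (by positivity), length_smul (by positivity)]
    have : μH[1] (frontier K') = ENNReal.ofReal ℓ := (ENNReal.ofReal_toReal hfin).symm
    rw [this, ← ENNReal.ofReal_mul (by positivity)]
    rw [one_div, inv_mul_cancel₀ hℓ0.ne', ENNReal.ofReal_one]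

end Q90.CC
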