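import Mathlib

/-!
Conjugation of the bounded operators on a Hilbert space by an antiunitary involution.
-/

set_option autoImplicit false

open scoped InnerProductSpace

namespace Q90.ConjOps

variable (E : Type) [NormedAddCommGroup E] [InnerProductSpace ℂ E]

/-- an antiunitary involution -/
structure Conj where
  /-- the map -/
  J : E → E
  add : ∀ x y, J (x + y) = J x + J y
  smul : ∀ (c : ℂ) x, J (c • x) = star c • J x
  invol : ∀ x, J (J x) = x
  cont : Continuous J
  inner : ∀ x y, ⟪J x, y⟫_ℂ = ⟪J y, x⟫_ℂ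

variable {E}

theorem inner_star_left {ι : Type} (a b : lp (fun _ : ι => ℂ) 2) :
    ⟪star a, b⟫_ℂ = ⟪star b, a⟫_ℂ := by
  rw [lp.inner_eq_tsum, lp.inner_eq_tsum]
  refine tsum_congr fun i => ?_
  rw [lp.star_apply, lp.star_apply]
  simp [RCLike.inner_apply, mul_comm]

/-- the conjugation fixing the vectors of a Hilbert basis -/
noncomputable def ofBasis {w : Type} (b : HilbertBasis w ℂ E) : Conj E where
  J x := b.repr.symm (star (b.repr x))
  add x y := by rw [map_add, star_add, map_add]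
  smul c x := by rw [map_smul, star_smul, map_smul]
  invol x := by
    rw [LinearIsometryEquiv.apply_symm_apply, star_star, LinearIsometryEquiv.symm_apply_apply]
  cont := b.repr.symm.continuous.comp (continuous_star.comp b.repr.continuous)
  inner x y := by
    rw [← b.repr.inner_map_map, ← b.repr.inner_map_map, LinearIsometryEquiv.apply_symm_apply,
      LinearIsometryEquiv.apply_symm_apply, inner_star_left]

theorem ofBasis_apply {w : Type} (b : HilbertBasis w ℂ E) (i : w) : (ofBasis b).J (b i) = b i := by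
  classical
  change b.repr.symm (star (b.repr (b i))) = b i
  rw [HilbertBasis.repr_self]
  have h : star (lp.single 2 i (1 : ℂ) : lp (fun _ : w => ℂ) 2) = lp.single 2 i (1 : ℂ) := by
    ext k
    rw [lp.star_apply]
    by_cases hk : k = i
    · subst hk
      rw [lp.single_apply_self, star_one]
    · rw [lp.single_apply_ne _ _ _ hk, star_zero]
  rw [h, HilbertBasis.repr_symm_single]

/-- conjugation of operators -/
noncomputable def cj (C : Conj E) (T : E →L[ℂ] E) : E →L[ℂ] E where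
  toFun v := C.J (T (C.J v))
  map_add' v w := by rw [C.add, map_add, C.add]
  map_smul' c v := by
    rw [C.smul, map_smul, C.smul, RingHom.id_apply, star_star]
  cont := C.cont.comp (T.continuous.comp C.cont)

variable (C : Conj E)

theorem cj_apply (T : E →L[ℂ] E) (v : E) : cj C T v = C.J (T (C.J v)) := rfl

theorem cj_cj (T : E →L[ℂ] E) : cj C (cj C T) = T := by
  ext1 v
  rw [cj_apply, cj_apply, C.invol, C.invol]

theorem cj_mul (S T : E →L[ℂ] E) : cj C (S * T) = cj C S * cj C T := by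
  ext1 v
  change C.J (S (T (C.J v))) = C.J (S (C.J (C.J (T (C.J v)))))
  rw [C.invol]

theorem cj_one : cj C (1 : E →L[ℂ] E) = 1 := by
  ext1 v
  exact C.invol v

theorem cj_zero : cj C (0 : E →L[ℂ] E) = 0 := by
  ext1 v
  change C.J 0 = 0
  have := C.smul 0 0
  rwa [zero_smul, star_zero, zero_smul] at this

theorem cj_smul (c : ℂ) (T : E →L[ℂ] E) : cj C (c • T) = star c • cj C T := by
  ext1 v
  change C.J (c • T (C.J v)) = star c • C.J (T (C.J v))
  rw [C.smul]

theorem cj_star [CompleteSpace E] (T : E →L[ℂ] E) : cj C (star T) = star (cj C T) := by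
  rw [ContinuousLinearMap.star_eq_adjoint, ContinuousLinearMap.star_eq_adjoint,
    ContinuousLinearMap.eq_adjoint_iff]
  intro x y
  rw [cj_apply, cj_apply, C.inner, ContinuousLinearMap.adjoint_inner_right,
    ← inner_conj_symm x, C.inner, inner_conj_symm]

theorem cj_isStarProjection [CompleteSpace E] {p : E →L[ℂ] E} (hp : IsStarProjection p) :
    IsStarProjection (cj C p) := by
  refine ⟨?_, ?_⟩
  · change cj C p * cj C p = cj C p
    rw [← cj_mul, hp.isIdempotentElem]
  · change star (cj C p) = cj C p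
    rw [← cj_star, hp.isSelfAdjoint]

theorem exists_rank_one [CompleteSpace E] {a a' : E} (haa : ⟪a, a⟫_ℂ = 1) (haa' : ⟪a, a'⟫_ℂ = 0)
    (ha'a' : ⟪a', a'⟫_ℂ = 1) (hJ : C.J a = a) :
    ∃ (p q r : E →L[ℂ] E) (l : ℂ), IsStarProjection p ∧
    IsStarProjection q ∧ IsStarProjection r ∧ p ≠ 0 ∧ cj C p = p ∧ p * q * r * p = l • p ∧
    star l ≠ l := by
  let b : E := a + a'
  let c : E := a + Complex.I • a'
  have ha'a : ⟪a', a⟫_ℂ = 0 := by
    rw [← inner_conj_symm, haa', map_zero]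
  have hca : ⟪c, a⟫_ℂ = 1 := by
    change ⟪a + Complex.I • a', a⟫_ℂ = 1
    rw [inner_add_left, inner_smul_left, haa, ha'a, mul_zero, add_zero]
  have hab : ⟪a, b⟫_ℂ = 1 := by
    change ⟪a, a + a'⟫_ℂ = 1
    rw [inner_add_right, haa, haa', add_zero]
  have hbc : ⟪b, c⟫_ℂ = 1 + Complex.I := by
    change ⟪a + a', a + Complex.I • a'⟫_ℂ = _
    rw [inner_add_left, inner_add_right, inner_add_right, inner_smul_right, inner_smul_right, haa,
      haa', ha'a, ha'a']
    ring
  have ha0 : a ≠ 0 := by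
    intro h
    rw [h, inner_zero_left] at haa
    exact zero_ne_one haa
  have hb0 : b ≠ 0 := by
    intro h
    rw [h, inner_zero_right] at hab
    exact zero_ne_one hab
  have hc0 : c ≠ 0 := by
    intro h
    rw [h, inner_zero_left] at hca
    exact zero_ne_one hca
  have hna : ‖a‖ = 1 := by
    have h1 := inner_self_eq_norm_sq_to_K (𝕜 := ℂ) a
    rw [haa] at h1
    have h2 : (‖a‖ ^ 2 : ℝ) = 1 := by
      have h3 : ((‖a‖ ^ 2 : ℝ) : ℂ) = ((1 : ℝ) : ℂ) := by
        push_cast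
        exact h1.symm
      exact_mod_cast h3
    have h4 := norm_nonneg a
    nlinarith
  let p : E →L[ℂ] E := (ℂ ∙ a).starProjection
  let q : E →L[ℂ] E := (ℂ ∙ b).starProjection
  let r : E →L[ℂ] E := (ℂ ∙ c).starProjection
  have hp : ∀ v, p v = ⟪a, v⟫_ℂ • a := by
    intro v
    change (ℂ ∙ a).starProjection v = _
    rw [Submodule.starProjection_unit_singleton ℂ hna]
  have hq : ∀ v, q v = (⟪b, v⟫_ℂ / ((‖b‖ ^ 2 : ℝ) : ℂ)) • b := fun v =>
    Submodule.starProjection_singleton ℂ v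
  have hr : ∀ v, r v = (⟪c, v⟫_ℂ / ((‖c‖ ^ 2 : ℝ) : ℂ)) • c := fun v =>
    Submodule.starProjection_singleton ℂ v
  have hb2 : (0 : ℝ) < ‖b‖ ^ 2 := by positivity
  have hc2 : (0 : ℝ) < ‖c‖ ^ 2 := by positivity
  refine ⟨p, q, r, ((1 / (‖b‖ ^ 2 * ‖c‖ ^ 2) : ℝ) : ℂ) * (1 + Complex.I),
    isStarProjection_starProjection, isStarProjection_starProjection,
    isStarProjection_starProjection, ?_, ?_, ?_, ?_⟩
  · intro h
    have h1 := hp a
    rw [h, haa, one_smul] at h1
    exact ha0 h1.symm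
  · ext1 v
    rw [cj_apply, hp, hp, C.smul, hJ]
    have h2 : star ⟪a, C.J v⟫_ℂ = ⟪a, v⟫_ℂ := by
      have h3 := C.inner v a
      rw [hJ] at h3
      rw [← h3]
      exact inner_conj_symm _ _
    rw [h2]
  · ext1 v
    change p (q (r (p v))) = (((1 / (‖b‖ ^ 2 * ‖c‖ ^ 2) : ℝ) : ℂ) * (1 + Complex.I)) • p v
    rw [hp v, map_smul, map_smul, map_smul, hr a, hca, map_smul, map_smul, hq c, hbc, map_smul,
      hp b, hab, one_smul, smul_smul, smul_smul, smul_smul]
    congr 1
    push_cast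
    field_simp
  · intro h
    have hR : (0 : ℝ) < 1 / (‖b‖ ^ 2 * ‖c‖ ^ 2) := by positivity
    generalize (1 / (‖b‖ ^ 2 * ‖c‖ ^ 2) : ℝ) = R at h hR
    have h1 := congrArg Complex.im h
    have h2 : (star ((R : ℂ) * (1 + Complex.I))).im = -R := by
      change (starRingEnd ℂ ((R : ℂ) * (1 + Complex.I))).im = _
      rw [Complex.conj_im]
      simp
    have h3 : ((R : ℂ) * (1 + Complex.I)).im = R := by simp
    rw [h2, h3] at h1
    linarith

/-- On a Hilbert space of dimension at least two: a conjugation and a suitable product of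
projections. -/
theorem exists_conj [CompleteSpace E] (hE : 1 < Module.rank ℂ E) :
    ∃ C : Conj E, ∃ (p q r : E →L[ℂ] E) (l : ℂ), IsStarProjection p ∧
    IsStarProjection q ∧ IsStarProjection r ∧ p ≠ 0 ∧ cj C p = p ∧ p * q * r * p = l • p ∧
    star l ≠ l := by
  have hnt : Nontrivial E := by
    by_contra h
    rw [not_nontrivial_iff_subsingleton] at h
    rw [rank_subsingleton' ] at hE
    exact absurd hE (by simp)
  obtain ⟨x, hx⟩ := exists_ne (0 : E)
  obtain ⟨y, hy⟩ := exists_linearIndependent_pair_of_one_lt_rank hE hx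
  have hV : (ℂ ∙ x) ≠ ⊤ := by
    intro h
    have h1 : y ∈ (ℂ ∙ x) := h ▸ Submodule.mem_top
    obtain ⟨c, hc⟩ := Submodule.mem_span_singleton.1 h1
    rw [LinearIndependent.pair_iff] at hy
    have := (hy c (-1) (by rw [hc, neg_one_smul, add_neg_cancel])).2
    exact absurd this (by norm_num)
  obtain ⟨z, hz, hz0⟩ := Submodule.exists_mem_ne_zero_of_ne_bot
    (fun h : (ℂ ∙ x)ᗮ = ⊥ => hV ((Submodule.orthogonal_eq_bot_iff).1 h))
  have hxz : ⟪x, z⟫_ℂ = 0 := Submodule.mem_orthogonal_singleton_iff_inner_right.1 hz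
  let a : E := ((‖x‖⁻¹ : ℝ) : ℂ) • x
  let a' : E := ((‖z‖⁻¹ : ℝ) : ℂ) • z
  have hx' : (‖x‖ : ℂ) ≠ 0 := by exact_mod_cast (norm_ne_zero_iff.2 hx)
  have hz' : (‖z‖ : ℂ) ≠ 0 := by exact_mod_cast (norm_ne_zero_iff.2 hz0)
  have haa : ⟪a, a⟫_ℂ = 1 := by
    change ⟪((‖x‖⁻¹ : ℝ) : ℂ) • x, ((‖x‖⁻¹ : ℝ) : ℂ) • x⟫_ℂ = 1
    rw [inner_smul_left, inner_smul_right, inner_self_eq_norm_sq_to_K, Complex.conj_ofReal]
    push_cast
    field_simp
    rfl
  have ha'a' : ⟪a', a'⟫_ℂ = 1 := by
    change ⟪((‖z‖⁻¹ : ℝ) : ℂ) • z, ((‖z‖⁻¹ : ℝ) : ℂ) • z⟫_ℂ = 1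
    rw [inner_smul_left, inner_smul_right, inner_self_eq_norm_sq_to_K, Complex.conj_ofReal]
    push_cast
    field_simp
    rfl
  have haa' : ⟪a, a'⟫_ℂ = 0 := by
    change ⟪((‖x‖⁻¹ : ℝ) : ℂ) • x, ((‖z‖⁻¹ : ℝ) : ℂ) • z⟫_ℂ = 0
    rw [inner_smul_left, inner_smul_right, hxz, mul_zero, mul_zero]
  have hone : Orthonormal ℂ ((↑) : ({a} : Set E) → E) := by
    classical
    rw [orthonormal_subtype_iff_ite]
    intro v hv w hw
    rw [Set.mem_singleton_iff] at hv hw
    subst hv
    subst hw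
    rw [if_pos rfl, haa]
  obtain ⟨w, b, hw, hb⟩ := hone.exists_hilbertBasis_extension
  have ha : a ∈ w := hw rfl
  refine ⟨ofBasis b, exists_rank_one (ofBasis b) haa haa' ha'a' ?_⟩
  have h1 : b ⟨a, ha⟩ = a := by
    rw [hb]
  have h2 := ofBasis_apply b ⟨a, ha⟩
  rwa [h1] at h2

end Q90.ConjOps
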