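import Mathlib

/-!
# Full and reduced norms on `L^p` crossed products by finite groups

Fix `p ∈ [1, ∞)`. A Banach algebra `A` (possibly without unit) is a complex
`NonUnitalNormedRing` with a compatible `NormedSpace ℂ`. `L^p(X, μ)` is Mathlib's `Lp ℂ p μ`, and
`ℓ^p(G, V)` for a finite set `G` is Mathlib's `PiLp p (fun _ : G => V)`.
-/

set_option autoImplicit false

open MeasureTheory ENNReal

namespace Q90.Crossed

/-- An action `α` of the group `G` on the Banach algebra `A` by isometric automorphisms. -/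
structure Action (G A : Type) [Group G] [NonUnitalNormedRing A] [NormedSpace ℂ A] where
  /-- the automorphism `α_g` -/
  toFun : G → A → A
  map_add : ∀ g a b, toFun g (a + b) = toFun g a + toFun g b
  map_smul : ∀ g (c : ℂ) a, toFun g (c • a) = c • toFun g a
  map_mul : ∀ g a b, toFun g (a * b) = toFun g a * toFun g b
  norm_map : ∀ g a, ‖toFun g a‖ = ‖a‖
  one : ∀ a, toFun 1 a = a
  mul : ∀ g h a, toFun (g * h) a = toFun g (toFun h a)

/-- A contractive nondegenerate representation of `A` on the Banach space `V`. -/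
structure Rep (A V : Type) [NonUnitalNormedRing A] [NormedSpace ℂ A] [NormedAddCommGroup V]
    [NormedSpace ℂ V] where
  /-- the operator `π(a)` -/
  toFun : A → V →L[ℂ] V
  map_add : ∀ a b, toFun (a + b) = toFun a + toFun b
  map_smul : ∀ (c : ℂ) a, toFun (c • a) = c • toFun a
  map_mul : ∀ a b, toFun (a * b) = toFun a * toFun b
  contractive : ∀ a, ‖toFun a‖ ≤ ‖a‖
  nondegenerate : Dense (Submodule.span ℂ {w : V | ∃ a v, w = toFun a v} : Set V)

/-- A nondegenerate contractive covariant representation `(v, π)` of `(G, A, α)` on `V`: `π` is a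
nondegenerate contractive representation of `A`, `v` is a homomorphism from `G` to the invertible
isometries of `V`, and `v_g π(a) = π(α_g(a)) v_g`. -/
structure CovRep {G A : Type} [Group G] [NonUnitalNormedRing A] [NormedSpace ℂ A]
    (α : Action G A) (V : Type) [NormedAddCommGroup V] [NormedSpace ℂ V] where
  /-- the representation of `A` -/
  π : Rep A V
  /-- the representation of `G` -/
  v : G →* (V ≃ₗᵢ[ℂ] V)
  covariant : ∀ g a ξ, v g (π.toFun a ξ) = π.toFun (α.toFun g a) (v g ξ)

variable {G A : Type} [Group G] [Fintype G] [NonUnitalNormedRing A] [NormedSpace ℂ A]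
  {α : Action G A} {V : Type} [NormedAddCommGroup V] [NormedSpace ℂ V]

/-- The integrated form `(v ⋉ π)(a) = ∑_g π(a(g)) v_g` of a function `a : G → A`. -/
noncomputable def CovRep.integrated (c : CovRep α V) (a : G → A) : V →L[ℂ] V :=
  ∑ g, (c.π.toFun (a g)).comp (c.v g : V →L[ℂ] V)

/-- `c` is the regular covariant representation associated with the representation `π₀` of `A` on
`V`, on a space `W` of functions `G → V` (`coord ξ h` is `ξ(h)`):
`(π(a)ξ)(h) = π₀(α_{h⁻¹}(a)) ξ(h)` and `(v_g ξ)(h) = ξ(g⁻¹ h)`. -/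
def IsRegular (π₀ : Rep A V) {W : Type} [NormedAddCommGroup W] [NormedSpace ℂ W]
    (coord : W → G → V) (c : CovRep α W) : Prop :=
  (∀ a ξ h, coord (c.π.toFun a ξ) h = π₀.toFun (α.toFun h⁻¹ a) (coord ξ h)) ∧
    ∀ g ξ h, coord (c.v g ξ) h = coord ξ (g⁻¹ * h)

/-- `V` is (isometrically isomorphic to) `L^p(X, μ)` for some `σ`-finite measure space. -/
def IsLpSpace (p : ℝ≥0∞) [Fact (1 ≤ p)] (V : Type) [NormedAddCommGroup V] [NormedSpace ℂ V] :
    Prop :=
  ∃ (X : Type) (_ : MeasurableSpace X) (μ : Measure X),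
    SigmaFinite μ ∧ Nonempty (V ≃ₗᵢ[ℂ] Lp ℂ p μ)

/-- The values `‖(v ⋉ π)(a)‖` over all nondegenerate contractive covariant representations on
`σ`-finite `L^p` spaces. -/
def fullValues (p : ℝ≥0∞) [Fact (1 ≤ p)] (α : Action G A) (a : G → A) : Set ℝ :=
  {r : ℝ | ∃ (V : Type) (_ : NormedAddCommGroup V) (_ : NormedSpace ℂ V) (c : CovRep α V),
    IsLpSpace p V ∧ r = ‖c.integrated a‖}

/-- The values `‖(v ⋉ π)(a)‖` over the regular covariant representations associated with the
nondegenerate contractive representations of `A` on `σ`-finite `L^p` spaces. -/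
def reducedValues (p : ℝ≥0∞) [Fact (1 ≤ p)] (α : Action G A) (a : G → A) : Set ℝ :=
  {r : ℝ | ∃ (V : Type) (_ : NormedAddCommGroup V) (_ : NormedSpace ℂ V) (π₀ : Rep A V)
    (c : CovRep α (PiLp p (fun _ : G => V))),
    IsLpSpace p V ∧ IsRegular π₀ (fun ξ h => ξ h) c ∧ r = ‖c.integrated a‖}

/-- The full norm on `C(G, A, α)`. -/
noncomputable def fullNorm (p : ℝ≥0∞) [Fact (1 ≤ p)] (α : Action G A) (a : G → A) : ℝ :=
  sSup (fullValues p α a)

/-- The reduced norm on `C(G, A, α)`. -/
noncomputable def reducedNorm (p : ℝ≥0∞) [Fact (1 ≤ p)] (α : Action G A) (a : G → A) : ℝ :=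
  sSup (reducedValues p α a)

/-- `A` is nondegenerately `σ`-finitely representable: it has an isometric nondegenerate
representation on some `L^p(X, μ)` with `μ` `σ`-finite. -/
def Representable (p : ℝ≥0∞) [Fact (1 ≤ p)] (A : Type) [NonUnitalNormedRing A]
    [NormedSpace ℂ A] : Prop :=
  ∃ (V : Type) (_ : NormedAddCommGroup V) (_ : NormedSpace ℂ V) (π : Rep A V),
    IsLpSpace p V ∧ ∀ a, ‖π.toFun a‖ = ‖a‖

end Q90.Crossed
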