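import Mathlib

/-!
The isometric isomorphism `ℓ^p(G, L^p(X, μ)) ≅ L^p(G × X)` for a finite set `G`.
-/

set_option autoImplicit false
set_option linter.unusedSectionVars false

open MeasureTheory ENNReal

namespace Q90.LpProd

variable {G X : Type} [Fintype G] [MeasurableSpace G] [MeasurableSingletonClass G]
  [MeasurableSpace X] {μ : Measure X} [SigmaFinite μ] {p : ℝ≥0∞}

/-- the function on the product -/
noncomputable def fn (ξ : G → Lp ℂ p μ) (y : G × X) : ℂ := ξ y.1 y.2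

theorem measurable_fn (ξ : G → Lp ℂ p μ) : Measurable (fn ξ) :=
  measurable_from_prod_countable_right fun g => (Lp.stronglyMeasurable (ξ g)).measurable

theorem lintegral_eq {f : G × X → ℝ≥0∞} (hf : Measurable f) :
    ∫⁻ y, f y ∂((Measure.count : Measure G).prod μ) = ∑ g, ∫⁻ x, f (g, x) ∂μ := by
  rw [lintegral_prod _ hf.aemeasurable, lintegral_count, tsum_fintype]

theorem eLpNorm_pow (hp0 : p ≠ 0) (hp : p ≠ ∞) {f : G × X → ℂ} (hf : Measurable f) :
    eLpNorm f p ((Measure.count : Measure G).prod μ) ^ p.toReal =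
      ∑ g, eLpNorm (fun x => f (g, x)) p μ ^ p.toReal := by
  have hp' : p.toReal ≠ 0 := (ENNReal.toReal_pos hp0 hp).ne'
  rw [eLpNorm_eq_lintegral_rpow_enorm_toReal hp0 hp, ← ENNReal.rpow_mul, one_div,
    inv_mul_cancel₀ hp', ENNReal.rpow_one, lintegral_eq (by fun_prop)]
  refine Finset.sum_congr rfl fun g _ => ?_
  rw [eLpNorm_eq_lintegral_rpow_enorm_toReal hp0 hp, ← ENNReal.rpow_mul, one_div,
    inv_mul_cancel₀ hp', ENNReal.rpow_one]

theorem memLp_iff (hp0 : p ≠ 0) (hp : p ≠ ∞) {f : G × X → ℂ} (hf : Measurable f) :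
    MemLp f p ((Measure.count : Measure G).prod μ) ↔ ∀ g, MemLp (fun x => f (g, x)) p μ := by
  have hp' : 0 < p.toReal := ENNReal.toReal_pos hp0 hp
  have h1 : eLpNorm f p ((Measure.count : Measure G).prod μ) < ∞ ↔
      ∀ g, eLpNorm (fun x => f (g, x)) p μ < ∞ := by
    rw [← ENNReal.rpow_lt_top_iff_of_pos hp', eLpNorm_pow hp0 hp hf, ENNReal.sum_lt_top]
    simp only [Finset.mem_univ, forall_const, ENNReal.rpow_lt_top_iff_of_pos hp']
  constructor
  · intro h g
    exact ⟨(hf.comp measurable_prodMk_left).aestronglyMeasurable, h1.1 h.2 g⟩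
  · intro h
    exact ⟨hf.aestronglyMeasurable, h1.2 fun g => (h g).2⟩

theorem memLp_fn (hp0 : p ≠ 0) (hp : p ≠ ∞) (ξ : G → Lp ℂ p μ) :
    MemLp (fn ξ) p ((Measure.count : Measure G).prod μ) :=
  (memLp_iff hp0 hp (measurable_fn ξ)).2 fun g => Lp.memLp (ξ g)

theorem ae_of_forall_ae {P : G × X → Prop} (hm : MeasurableSet {y | P y})
    (h : ∀ g, ∀ᵐ x ∂μ, P (g, x)) : ∀ᵐ y ∂((Measure.count : Measure G).prod μ), P y :=
  (Measure.ae_prod_iff_ae_ae hm).2 (Filter.Eventually.of_forall h)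

theorem ae_section {P : G × X → Prop}
    (h : ∀ᵐ y ∂((Measure.count : Measure G).prod μ), P y) (g : G) : ∀ᵐ x ∂μ, P (g, x) := by
  have h1 := Measure.ae_ae_of_ae_prod h
  rw [Measure.ae_count_iff] at h1
  exact h1 g

variable [Fact (1 ≤ p)]

theorem ne_zero' : p ≠ 0 := (lt_of_lt_of_le one_pos (Fact.out : 1 ≤ p)).ne'

/-- The map `ℓ^p(G, L^p(X, μ)) → L^p(G × X)`. -/
noncomputable def toProd (hp : p ≠ ∞) :
    PiLp p (fun _ : G => Lp ℂ p μ) →ₗ[ℂ] Lp ℂ p ((Measure.count : Measure G).prod μ) where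
  toFun ξ := (memLp_fn ne_zero' hp (fun g => ξ g)).toLp _
  map_add' ξ η := by
    rw [← MemLp.toLp_add]
    refine (MemLp.toLp_eq_toLp_iff _ _).2 ?_
    refine ae_of_forall_ae ?_ fun g => ?_
    · exact measurableSet_eq_fun (measurable_fn _) ((measurable_fn _).add (measurable_fn _))
    · exact Lp.coeFn_add (ξ g) (η g)
  map_smul' c ξ := by
    rw [RingHom.id_apply, ← MemLp.toLp_const_smul]
    refine (MemLp.toLp_eq_toLp_iff _ _).2 ?_
    refine ae_of_forall_ae ?_ fun g => ?_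
    · exact measurableSet_eq_fun (measurable_fn _) ((measurable_fn _).const_smul c)
    · exact Lp.coeFn_smul c (ξ g)

theorem norm_toProd (hp : p ≠ ∞) (ξ : PiLp p (fun _ : G => Lp ℂ p μ)) :
    ‖toProd (G := G) (μ := μ) hp ξ‖ = ‖ξ‖ := by
  have hp' : 0 < p.toReal := ENNReal.toReal_pos ne_zero' hp
  have h1 : ‖toProd (G := G) (μ := μ) hp ξ‖ ^ p.toReal = ∑ g, ‖ξ g‖ ^ p.toReal := by
    change ‖(memLp_fn ne_zero' hp (fun g => ξ g)).toLp _‖ ^ p.toReal = _
    rw [Lp.norm_toLp, ENNReal.toReal_rpow, eLpNorm_pow ne_zero' hp (measurable_fn _),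
      ENNReal.toReal_sum]
    · refine Finset.sum_congr rfl fun g _ => ?_
      rw [← ENNReal.toReal_rpow, Lp.norm_def]
      rfl
    · intro g _
      exact (ENNReal.rpow_lt_top_of_nonneg hp'.le (Lp.eLpNorm_ne_top (ξ g))).ne
  rw [PiLp.norm_eq_sum hp', ← h1, ← Real.rpow_mul (norm_nonneg _), mul_one_div_cancel hp'.ne',
    Real.rpow_one]

theorem surjective_toProd (hp : p ≠ ∞) :
    Function.Surjective (toProd (G := G) (μ := μ) (p := p) hp) := by
  intro f
  have hfm : Measurable f := (Lp.stronglyMeasurable f).measurable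
  have hf : ∀ g, MemLp (fun x => f (g, x)) p μ := (memLp_iff ne_zero' hp hfm).1 (Lp.memLp f)
  refine ⟨WithLp.toLp p fun g => (hf g).toLp _, ?_⟩
  refine Lp.ext ?_
  refine (memLp_fn ne_zero' hp (fun g => (hf g).toLp _)).coeFn_toLp.trans ?_
  refine ae_of_forall_ae ?_ fun g => ?_
  · exact measurableSet_eq_fun (measurable_fn _) hfm
  · exact (hf g).coeFn_toLp

/-- `ℓ^p(G, L^p(X, μ)) ≅ L^p(G × X)`, isometrically. -/
noncomputable def equiv (hp : p ≠ ∞) :
    PiLp p (fun _ : G => Lp ℂ p μ) ≃ₗᵢ[ℂ] Lp ℂ p ((Measure.count : Measure G).prod μ) :=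
  LinearIsometryEquiv.ofSurjective ⟨toProd hp, norm_toProd hp⟩ (surjective_toProd hp)

end Q90.LpProd
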