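import Mathlib
import Pool.Agent.Q90.CrossedDefs
import Pool.Agent.Q90.LpProd

/-!
The full and the reduced norm agree for finite groups.
-/

set_option autoImplicit false
set_option linter.unusedSectionVars false

open MeasureTheory ENNReal

namespace Q90.Crossed

variable {G A : Type} [Group G] [Fintype G] [NonUnitalNormedRing A] [NormedSpace ℂ A]
  {α : Action G A} {V W : Type} [NormedAddCommGroup V] [NormedSpace ℂ V]
  [NormedAddCommGroup W] [NormedSpace ℂ W]
  {p : ℝ≥0∞} [Fact (1 ≤ p)]

theorem coord_sum {ι : Type} (s : Finset ι) (f : ι → PiLp p (fun _ : G => V)) (h : G) :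
    (∑ g ∈ s, f g) h = ∑ g ∈ s, (f g) h :=
  map_sum (PiLp.proj (𝕜 := ℂ) p (fun _ : G => V) h) f s

theorem norm_le_of_coord (hp : p ≠ ∞) {ξ η : PiLp p (fun _ : G => V)} {C : ℝ} (hC : 0 ≤ C)
    (h : ∀ g, ‖η g‖ ≤ C * ‖ξ g‖) : ‖η‖ ≤ C * ‖ξ‖ := by
  have hp' : 0 < p.toReal := ENNReal.toReal_pos LpProd.ne_zero' hp
  rw [PiLp.norm_eq_sum hp', PiLp.norm_eq_sum hp']
  have h1 : ∑ g, ‖η g‖ ^ p.toReal ≤ C ^ p.toReal * ∑ g, ‖ξ g‖ ^ p.toReal := by
    rw [Finset.mul_sum]
    refine Finset.sum_le_sum fun g _ => ?_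
    rw [← Real.mul_rpow hC (norm_nonneg _)]
    exact Real.rpow_le_rpow (norm_nonneg _) (h g) hp'.le
  have h2 : C = (C ^ p.toReal) ^ (1 / p.toReal) := by
    rw [← Real.rpow_mul hC, mul_one_div_cancel hp'.ne', Real.rpow_one]
  conv_rhs => rw [h2]
  rw [← Real.mul_rpow (Real.rpow_nonneg hC _)
    (Finset.sum_nonneg fun g _ => Real.rpow_nonneg (norm_nonneg _) _)]
  exact Real.rpow_le_rpow (Finset.sum_nonneg fun g _ => Real.rpow_nonneg (norm_nonneg _) _) h1
    (by positivity)

/-- the operators of the regular representation -/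
noncomputable def regOp (hp : p ≠ ∞) (α : Action G A) (π₀ : Rep A V) (a : A) :
    PiLp p (fun _ : G => V) →L[ℂ] PiLp p (fun _ : G => V) :=
  LinearMap.mkContinuous
    { toFun := fun ξ => WithLp.toLp p fun h => π₀.toFun (α.toFun h⁻¹ a) (ξ h)
      map_add' := fun ξ η => by
        ext h
        exact map_add (π₀.toFun (α.toFun h⁻¹ a)) (ξ h) (η h)
      map_smul' := fun c ξ => by
        ext h
        exact map_smul (π₀.toFun (α.toFun h⁻¹ a)) c (ξ h) } ‖a‖ (fun ξ =>
      norm_le_of_coord hp (norm_nonneg _) fun g => by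
        refine ((π₀.toFun (α.toFun g⁻¹ a)).le_opNorm (ξ g)).trans ?_
        refine mul_le_mul_of_nonneg_right ?_ (norm_nonneg _)
        exact (π₀.contractive _).trans (α.norm_map _ _).le)

theorem regOp_apply (hp : p ≠ ∞) (α : Action G A) (π₀ : Rep A V) (a : A)
    (ξ : PiLp p (fun _ : G => V)) (h : G) :
    (regOp hp α π₀ a ξ) h = π₀.toFun (α.toFun h⁻¹ a) (ξ h) := rfl

/-- inclusion of a coordinate -/
noncomputable def incl [DecidableEq G] (h : G) : V →L[ℂ] PiLp p (fun _ : G => V) :=
  ((PiLp.continuousLinearEquiv p ℂ (fun _ : G => V)).symm : (G → V) →L[ℂ] _).comp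
    (ContinuousLinearMap.single ℂ (fun _ : G => V) h)

theorem incl_apply [DecidableEq G] (h : G) (x : V) :
    (incl (p := p) h x) = WithLp.toLp p (Pi.single h x) := rfl

theorem regOp_incl [DecidableEq G] (hp : p ≠ ∞) (α : Action G A) (π₀ : Rep A V) (b : A) (h : G)
    (η : V) : regOp hp α π₀ (α.toFun h b) (incl h η) = incl h (π₀.toFun b η) := by
  ext k
  rw [regOp_apply, incl_apply, incl_apply]
  change π₀.toFun (α.toFun k⁻¹ (α.toFun h b)) ((Pi.single h η : G → V) k) =
    (Pi.single h (π₀.toFun b η) : G → V) k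
  by_cases hk : k = h
  · subst hk
    rw [Pi.single_eq_same, Pi.single_eq_same, ← α.mul, inv_mul_cancel, α.one]
  · rw [Pi.single_eq_of_ne hk, Pi.single_eq_of_ne hk, map_zero]

theorem eq_sum_incl [DecidableEq G] (ξ : PiLp p (fun _ : G => V)) : ξ = ∑ h, incl h (ξ h) := by
  ext k
  rw [coord_sum]
  simp [incl_apply]

/-- The regular covariant representation. -/
noncomputable def regular (hp : p ≠ ∞) (α : Action G A) (π₀ : Rep A V) :
    CovRep α (PiLp p (fun _ : G => V)) where
  π :=
    { toFun := regOp hp α π₀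
      map_add := fun a b => by
        ext ξ h
        change π₀.toFun (α.toFun h⁻¹ (a + b)) (ξ h) = π₀.toFun (α.toFun h⁻¹ a) (ξ h) +
          π₀.toFun (α.toFun h⁻¹ b) (ξ h)
        rw [α.map_add, π₀.map_add]
        rfl
      map_smul := fun c a => by
        ext ξ h
        change π₀.toFun (α.toFun h⁻¹ (c • a)) (ξ h) = c • π₀.toFun (α.toFun h⁻¹ a) (ξ h)
        rw [α.map_smul, π₀.map_smul]
        rfl
      map_mul := fun a b => by
        ext ξ h
        change π₀.toFun (α.toFun h⁻¹ (a * b)) (ξ h) = π₀.toFun (α.toFun h⁻¹ a)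
          (π₀.toFun (α.toFun h⁻¹ b) (ξ h))
        rw [α.map_mul, π₀.map_mul]
        rfl
      contractive := fun a => LinearMap.mkContinuous_norm_le _ (norm_nonneg _) _
      nondegenerate := by
        classical
        set S : Submodule ℂ (PiLp p (fun _ : G => V)) :=
          Submodule.span ℂ {w | ∃ a ξ, w = regOp hp α π₀ a ξ} with hS
        have h1 : ∀ (h : G) (x : V), incl h x ∈ S.topologicalClosure := by
          intro h
          have h2 : Submodule.span ℂ {w : V | ∃ a v, w = π₀.toFun a v} ≤
              S.topologicalClosure.comap (incl (p := p) h : V →L[ℂ] _).toLinearMap := by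
            rw [Submodule.span_le]
            rintro _ ⟨b, η, rfl⟩
            change incl h (π₀.toFun b η) ∈ S.topologicalClosure
            rw [← regOp_incl hp α π₀ b h η]
            exact S.le_topologicalClosure (Submodule.subset_span ⟨_, _, rfl⟩)
          have h3 : IsClosed ((S.topologicalClosure.comap
              (incl (p := p) h : V →L[ℂ] _).toLinearMap : Submodule ℂ V) : Set V) :=
            (Submodule.isClosed_topologicalClosure S).preimage (incl (p := p) (V := V) h).continuous
          intro x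
          have h4 := Submodule.topologicalClosure_minimal _ h2 h3
          exact h4 (π₀.nondegenerate x)
        intro ξ
        change ξ ∈ S.topologicalClosure
        rw [eq_sum_incl ξ]
        exact Submodule.sum_mem _ fun h _ => h1 h _ }
  v :=
    { toFun := fun g => LinearIsometryEquiv.piLpCongrLeft p ℂ V (Equiv.mulLeft g)
      map_one' := by
        ext ξ h
        change ξ (1⁻¹ * h) = ξ h
        rw [inv_one, one_mul]
      map_mul' := fun g k => by
        ext ξ h
        change ξ ((g * k)⁻¹ * h) = ξ (k⁻¹ * (g⁻¹ * h))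
        rw [mul_inv_rev, mul_assoc] }
  covariant g a ξ := by
    ext h
    change π₀.toFun (α.toFun (g⁻¹ * h)⁻¹ a) (ξ (g⁻¹ * h)) =
      π₀.toFun (α.toFun h⁻¹ (α.toFun g a)) (ξ (g⁻¹ * h))
    rw [← α.mul, mul_inv_rev, inv_inv]

theorem isRegular_regular (hp : p ≠ ∞) (α : Action G A) (π₀ : Rep A V) :
    IsRegular π₀ (fun ξ h => ξ h) (regular hp α π₀) := ⟨fun _ _ _ => rfl, fun _ _ _ => rfl⟩

/-- transport of a covariant representation -/
noncomputable def transport (c : CovRep α V) (U : V ≃ₗᵢ[ℂ] W) : CovRep α W where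
  π :=
    { toFun := fun a => ((U : V →L[ℂ] W).comp (c.π.toFun a)).comp (U.symm : W →L[ℂ] V)
      map_add := fun a b => by
        ext w
        change U (c.π.toFun (a + b) (U.symm w)) = U (c.π.toFun a (U.symm w)) +
          U (c.π.toFun b (U.symm w))
        rw [c.π.map_add, ← map_add]
        rfl
      map_smul := fun t a => by
        ext w
        change U (c.π.toFun (t • a) (U.symm w)) = t • U (c.π.toFun a (U.symm w))
        rw [c.π.map_smul, ← map_smul]
        rfl
      map_mul := fun a b => by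
        ext w
        change U (c.π.toFun (a * b) (U.symm w)) =
          U (c.π.toFun a (U.symm (U (c.π.toFun b (U.symm w)))))
        rw [c.π.map_mul, U.symm_apply_apply]
        rfl
      contractive := fun a => by
        refine ContinuousLinearMap.opNorm_le_bound _ (norm_nonneg _) fun w => ?_
        change ‖U (c.π.toFun a (U.symm w))‖ ≤ _
        rw [U.norm_map]
        refine ((c.π.toFun a).le_opNorm _).trans ?_
        rw [U.symm.norm_map]
        exact mul_le_mul_of_nonneg_right (c.π.contractive a) (norm_nonneg _)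
      nondegenerate := by
        have h1 : (Submodule.span ℂ {w : W | ∃ (a : A) (v : W),
            w = ((U : V →L[ℂ] W).comp (c.π.toFun a)).comp (U.symm : W →L[ℂ] V) v} : Set W) =
            U '' (Submodule.span ℂ {w : V | ∃ a v, w = c.π.toFun a v} : Set V) := by
          have h2 : {w : W | ∃ (a : A) (v : W),
              w = ((U : V →L[ℂ] W).comp (c.π.toFun a)).comp (U.symm : W →L[ℂ] V) v} =
              (U.toLinearEquiv : V →ₗ[ℂ] W) '' {w : V | ∃ a v, w = c.π.toFun a v} := by
            ext w
            constructor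
            · rintro ⟨a, v, rfl⟩
              exact ⟨c.π.toFun a (U.symm v), ⟨a, _, rfl⟩, rfl⟩
            · rintro ⟨_, ⟨a, v, rfl⟩, rfl⟩
              refine ⟨a, U v, ?_⟩
              change U (c.π.toFun a v) = U (c.π.toFun a (U.symm (U v)))
              rw [U.symm_apply_apply]
          rw [h2, Submodule.span_image]
          rfl
        rw [h1]
        exact U.surjective.denseRange.dense_image U.continuous c.π.nondegenerate }
  v :=
    { toFun := fun g => (U.symm.trans (c.v g)).trans U
      map_one' := by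
        ext w
        change U (c.v 1 (U.symm w)) = w
        rw [map_one]
        exact U.apply_symm_apply w
      map_mul' := fun g k => by
        ext w
        change U (c.v (g * k) (U.symm w)) = U (c.v g (U.symm (U (c.v k (U.symm w)))))
        rw [map_mul, U.symm_apply_apply]
        rfl }
  covariant g a w := by
    change U (c.v g (U.symm (U (c.π.toFun a (U.symm w))))) =
      U (c.π.toFun (α.toFun g a) (U.symm (U (c.v g (U.symm w)))))
    rw [U.symm_apply_apply, U.symm_apply_apply, c.covariant]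

theorem integrated_apply (c : CovRep α V) (a : G → A) (ξ : V) :
    c.integrated a ξ = ∑ g, c.π.toFun (a g) (c.v g ξ) := by
  unfold CovRep.integrated
  rw [sum_apply]
  rfl

theorem norm_integrated_transport (c : CovRep α V) (U : V ≃ₗᵢ[ℂ] W) (a : G → A) :
    ‖c.integrated a‖ ≤ ‖(transport c U).integrated a‖ := by
  refine ContinuousLinearMap.opNorm_le_bound _ (norm_nonneg _) fun ξ => ?_
  have h1 : (transport c U).integrated a (U ξ) = U (c.integrated a ξ) := by
    rw [integrated_apply, integrated_apply, map_sum]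
    refine Finset.sum_congr rfl fun g _ => ?_
    change U (c.π.toFun (a g) (U.symm (U (c.v g (U.symm (U ξ)))))) = _
    rw [U.symm_apply_apply, U.symm_apply_apply]
  have h2 := ((transport c U).integrated a).le_opNorm (U ξ)
  rwa [h1, U.norm_map, U.norm_map] at h2

theorem norm_integrated_le (c : CovRep α V) (a : G → A) :
    ‖c.integrated a‖ ≤ ∑ g, ‖a g‖ := by
  refine ContinuousLinearMap.opNorm_le_bound _ (Finset.sum_nonneg fun g _ => norm_nonneg _)
    fun ξ => ?_
  rw [integrated_apply, Finset.sum_mul]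
  refine (norm_sum_le _ _).trans (Finset.sum_le_sum fun g _ => ?_)
  refine ((c.π.toFun (a g)).le_opNorm _).trans ?_
  rw [(c.v g).norm_map]
  exact mul_le_mul_of_nonneg_right (c.π.contractive _) (norm_nonneg _)

/-- The integrated form of a covariant representation is dominated by that of the regular
covariant representation associated with its own representation of `A`. -/
theorem norm_integrated_le_regular (hp : p ≠ ∞) (c : CovRep α V) (a : G → A) :
    ‖c.integrated a‖ ≤ ‖(regular hp α c.π).integrated a‖ := by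
  have hp' : 0 < p.toReal := ENNReal.toReal_pos LpProd.ne_zero' hp
  refine ContinuousLinearMap.opNorm_le_bound _ (norm_nonneg _) fun η => ?_
  -- the vector `ξ(h) = v_h⁻¹ η`
  let J : V → PiLp p (fun _ : G => V) := fun η => WithLp.toLp p fun h => c.v h⁻¹ η
  have hJ : ∀ η, (regular hp α c.π).integrated a (J η) = J (c.integrated a η) := by
    intro η
    rw [integrated_apply, integrated_apply]
    ext h
    rw [coord_sum]
    change ∑ g, c.π.toFun (α.toFun h⁻¹ (a g)) (c.v (g⁻¹ * h)⁻¹ η) =
      c.v h⁻¹ (∑ g, c.π.toFun (a g) (c.v g η))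
    rw [map_sum]
    refine Finset.sum_congr rfl fun g _ => ?_
    rw [c.covariant, mul_inv_rev, inv_inv, map_mul]
    rfl
  have hcard : (0 : ℝ) < Fintype.card G := by exact_mod_cast Fintype.card_pos
  have hn : ∀ η, ‖J η‖ = (Fintype.card G : ℝ) ^ (1 / p.toReal) * ‖η‖ := by
    intro η
    rw [PiLp.norm_eq_sum hp']
    have h1 : ∀ h : G, ‖(J η) h‖ = ‖η‖ := fun h => (c.v h⁻¹).norm_map η
    simp only [h1]
    rw [Finset.sum_const, Finset.card_univ, nsmul_eq_mul,
      Real.mul_rpow hcard.le (Real.rpow_nonneg (norm_nonneg _) _),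
      ← Real.rpow_mul (norm_nonneg _), mul_one_div_cancel hp'.ne', Real.rpow_one]
  have h2 := ((regular hp α c.π).integrated a).le_opNorm (J η)
  rw [hJ, hn, hn] at h2
  have hk : (0 : ℝ) < (Fintype.card G : ℝ) ^ (1 / p.toReal) := Real.rpow_pos_of_pos hcard _
  have h3 : (Fintype.card G : ℝ) ^ (1 / p.toReal) * ‖c.integrated a η‖ ≤
      (Fintype.card G : ℝ) ^ (1 / p.toReal) * (‖(regular hp α c.π).integrated a‖ * ‖η‖) := by
    linarith
  exact le_of_mul_le_mul_left h3 hk

theorem bddAbove_fullValues (α : Action G A) (a : G → A) : BddAbove (fullValues p α a) := by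
  refine ⟨∑ g, ‖a g‖, ?_⟩
  rintro _ ⟨V, _, _, c, -, rfl⟩
  exact norm_integrated_le c a

theorem bddAbove_reducedValues (α : Action G A) (a : G → A) :
    BddAbove (reducedValues p α a) := by
  refine ⟨∑ g, ‖a g‖, ?_⟩
  rintro _ ⟨V, _, _, π₀, c, -, -, rfl⟩
  exact norm_integrated_le c a

/-- `ℓ^p(G, V)` is an `L^p` space if `V` is. -/
theorem isLpSpace_piLp (hp : p ≠ ∞) (hV : IsLpSpace p V) :
    IsLpSpace p (PiLp p (fun _ : G => V)) := by
  obtain ⟨X, hX, μ, hμ, ⟨e⟩⟩ := hV
  let _ : MeasurableSpace G := ⊤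
  have _ : MeasurableSingletonClass G := ⟨fun _ => trivial⟩
  exact ⟨G × X, inferInstance, (Measure.count : Measure G).prod μ, inferInstance,
    ⟨(LinearIsometryEquiv.piLpCongrRight p (fun _ : G => e)).trans (LpProd.equiv hp)⟩⟩

theorem full_le (hp : p ≠ ∞) (α : Action G A) (a : G → A) :
    ∀ r ∈ fullValues p α a, ∃ s ∈ reducedValues p α a, r ≤ s := by
  rintro _ ⟨V, hV1, hV2, c, hV, rfl⟩
  exact ⟨_, ⟨V, hV1, hV2, c.π, regular hp α c.π, hV, isRegular_regular hp α c.π, rfl⟩,
    norm_integrated_le_regular hp c a⟩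

theorem reduced_le (hp : p ≠ ∞) (α : Action G A) (a : G → A) :
    ∀ r ∈ reducedValues p α a, ∃ s ∈ fullValues p α a, r ≤ s := by
  rintro _ ⟨V, hV1, hV2, π₀, c, hV, hc, rfl⟩
  exact ⟨_, ⟨PiLp p (fun _ : G => V), inferInstance, inferInstance, c,
    isLpSpace_piLp hp hV, rfl⟩, le_rfl⟩

theorem nonempty_reducedValues (hp : p ≠ ∞) (hA : Representable p A) (α : Action G A)
    (a : G → A) : (reducedValues p α a).Nonempty := by
  obtain ⟨V, hV1, hV2, π, hV, -⟩ := hA
  exact ⟨_, ⟨V, hV1, hV2, π, regular hp α π, hV, isRegular_regular hp α π, rfl⟩⟩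

theorem nonempty_fullValues (hp : p ≠ ∞) (hA : Representable p A) (α : Action G A)
    (a : G → A) : (fullValues p α a).Nonempty := by
  obtain ⟨r, hr⟩ := nonempty_reducedValues hp hA α a
  obtain ⟨s, hs, -⟩ := reduced_le hp α a r hr
  exact ⟨s, hs⟩

theorem fullNorm_eq_reducedNorm (hp : p ≠ ∞) (hA : Representable p A) (α : Action G A)
    (a : G → A) : fullNorm p α a = reducedNorm p α a := by
  apply le_antisymm
  · refine csSup_le (nonempty_fullValues hp hA α a) fun r hr => ?_
    obtain ⟨s, hs, hrs⟩ := full_le hp α a r hr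
    exact hrs.trans (le_csSup (bddAbove_reducedValues α a) hs)
  · refine csSup_le (nonempty_reducedValues hp hA α a) fun r hr => ?_
    obtain ⟨s, hs, hrs⟩ := reduced_le hp α a r hr
    exact hrs.trans (le_csSup (bddAbove_fullValues α a) hs)

end Q90.Crossed
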