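import Pool.Agent.Q127.DJ.Stm

/-! Project DJ, job SQS: the limits of the covariances are square summable. -/

set_option autoImplicit false

namespace Pool.Agent.Q90.DJ_SQS

open MeasureTheory Filter Topology Pool.Agent.Q127.DJ

theorem bm_I {m : ℕ} (f : ℕ → Fin m) (a : Fin m) (s : ℕ) : BM 1 (I f a s) := by
  constructor
  · have h1 : Measurable (fun x : ℕ → ℕ => f (x s)) :=
      (measurable_of_countable f).comp (measurable_pi_apply s)
    exact Measurable.ite (h1 (measurableSet_singleton a)) measurable_const measurable_const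
  · intro x
    unfold I
    split_ifs <;> simp

theorem integrable_of_BM {μ : Measure (ℕ → ℕ)} [IsProbabilityMeasure μ] {C : ℝ}
    {φ : (ℕ → ℕ) → ℝ} (h : BM C φ) : Integrable φ μ := by
  refine Integrable.of_bound h.1.aestronglyMeasurable C (Eventually.of_forall fun x => ?_)
  rw [Real.norm_eq_abs]
  exact h.2 x

theorem bm_mul {C C' : ℝ} (hC : 0 ≤ C) {φ ψ : (ℕ → ℕ) → ℝ} (h : BM C φ) (h' : BM C' ψ) :
    BM (C * C') (fun x => φ x * ψ x) := by
  refine ⟨h.1.mul h'.1, fun x => ?_⟩
  rw [abs_mul]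
  exact mul_le_mul (h.2 x) (h'.2 x) (abs_nonneg _) hC

theorem sq_integral_le {μ : Measure (ℕ → ℕ)} [IsProbabilityMeasure μ] {C : ℝ} (hC : 0 ≤ C)
    {u : (ℕ → ℕ) → ℝ} (h : BM C u) : (∫ x, u x ∂μ) ^ 2 ≤ ∫ x, (u x) ^ 2 ∂μ := by
  have i1 : Integrable u μ := integrable_of_BM h
  have i2 : Integrable (fun x => u x ^ 2) μ := by
    have := integrable_of_BM (μ := μ) (bm_mul hC h h)
    simpa only [sq] using this
  set c := ∫ x, u x ∂μ with hc
  have h1 : 0 ≤ ∫ x, (u x - c) ^ 2 ∂μ := integral_nonneg fun x => sq_nonneg _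
  have h2 : ∫ x, (u x - c) ^ 2 ∂μ = ∫ x, (u x ^ 2 - (2 * c) * u x + c ^ 2) ∂μ := by
    congr 1
    funext x
    ring
  have i3 : Integrable (fun x => (2 * c) * u x) μ := i1.const_mul _
  have i4 : Integrable (fun x => u x ^ 2 - (2 * c) * u x) μ := i2.sub i3
  have e1 : ∫ x, (u x ^ 2 - (2 * c) * u x + c ^ 2) ∂μ =
      ∫ x, (u x ^ 2 - (2 * c) * u x) ∂μ + ∫ x, c ^ 2 ∂μ := integral_add i4 (integrable_const _)
  have e2 : ∫ x, (u x ^ 2 - (2 * c) * u x) ∂μ = ∫ x, u x ^ 2 ∂μ - ∫ x, (2 * c) * u x ∂μ :=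
    integral_sub i2 i3
  have e3 : ∫ x, (2 * c) * u x ∂μ = (2 * c) * c := by rw [integral_const_mul, ← hc]
  have e4 : ∫ x : ℕ → ℕ, c ^ 2 ∂μ = c ^ 2 := by simp
  rw [h2, e1, e2, e3, e4] at h1
  nlinarith

theorem sqs (h1 : S_ce1) (h2 : S_ce2) (h3 : S_inn) (h4 : S_bes) : S_sqs := by
  intro μ _ m f a l hl
  -- the bound for fixed `s`
  have key : ∀ K s : ℕ, K ≤ s → ∑ k ∈ Finset.range (K + 1), A μ f a (s - k) k ^ 2 ≤ 1 := by
    intro K s hs
    have hb := h4 μ m f a (s - K) (s + 1) 1 (I f a s) (bm_I f a s)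
    have hI : ∫ x, (I f a s x) ^ 2 ∂μ ≤ 1 := by
      have h5 : ∫ x, (I f a s x) ^ 2 ∂μ ≤ ∫ x, (1 : ℝ) ∂μ := by
        apply integral_mono
        · have := integrable_of_BM (μ := μ) (bm_mul zero_le_one (bm_I f a s) (bm_I f a s))
          simpa only [sq] using this
        · exact integrable_const _
        · intro x
          show (I f a s x) ^ 2 ≤ 1
          unfold I
          split_ifs <;> simp
      simpa using h5
    have hterm : ∀ t : ℕ, (∫ x, g μ f a t x * I f a s x ∂μ) ^ 2 ≤
        ∫ x, (E μ f t (fun y => g μ f a t y * I f a s y) x) ^ 2 ∂μ := by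
      intro t
      have hg := (h3 μ m f a t).2.1
      have hp : BM 1 (fun y => g μ f a t y * I f a s y) := by
        have := bm_mul zero_le_one hg (bm_I f a s)
        rwa [one_mul] at this
      have hE := (h1 μ m f t 1 _ zero_le_one hp).2
      have h5 := h2 μ m f t 1 1 (fun y => g μ f a t y * I f a s y) (fun _ => 1) hp
        ⟨measurable_const, fun _ => by simp⟩ (fun _ _ _ => rfl)
      simp only [one_mul] at h5
      rw [← h5]
      exact sq_integral_le zero_le_one hE
    have hsum : ∑ k ∈ Finset.range (K + 1), A μ f a (s - k) k ^ 2 =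
        ∑ t ∈ Finset.Ico (s - K) (s + 1), (∫ x, g μ f a t x * I f a s x ∂μ) ^ 2 := by
      refine Finset.sum_bij' (fun k _ => s - k) (fun t _ => s - t) ?_ ?_ ?_ ?_ ?_
      · intro k hk
        rw [Finset.mem_range] at hk
        rw [Finset.mem_Ico]
        omega
      · intro t ht
        rw [Finset.mem_Ico] at ht
        rw [Finset.mem_range]
        omega
      · intro k hk
        rw [Finset.mem_range] at hk
        show s - (s - k) = k
        omega
      · intro t ht
        rw [Finset.mem_Ico] at ht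
        show s - (s - t) = t
        omega
      · intro k hk
        rw [Finset.mem_range] at hk
        have h6 : s - k + k = s := by omega
        unfold A
        rw [h6]
    rw [hsum]
    exact (Finset.sum_le_sum fun t _ => hterm t).trans (hb.trans hI)
  have hlim : ∀ K : ℕ, ∑ k ∈ Finset.range (K + 1), l k ^ 2 ≤ 1 := by
    intro K
    have h5 : Tendsto (fun s : ℕ => ∑ k ∈ Finset.range (K + 1), A μ f a (s - k) k ^ 2) atTop
        (𝓝 (∑ k ∈ Finset.range (K + 1), l k ^ 2)) := by
      apply tendsto_finsetSum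
      intro k _
      exact ((hl k).comp (tendsto_sub_atTop_nat k)).pow 2
    refine le_of_tendsto h5 ?_
    filter_upwards [eventually_ge_atTop K] with s hs
    exact key K s hs
  apply summable_of_sum_range_le (c := 1) (fun k => sq_nonneg (l k))
  intro n
  refine le_trans ?_ (hlim n)
  exact Finset.sum_le_sum_of_subset_of_nonneg
    (Finset.range_subset_range.2 (Nat.le_succ n)) fun k _ _ => sq_nonneg (l k)

end Pool.Agent.Q90.DJ_SQS
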