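import Mathlib

/-!
Covering dimension at most one and density of the nowhere vanishing complex functions.
-/

set_option autoImplicit false

open Set Filter Topology Metric

namespace Q90.DimOne

/-- `dim X ≤ n` for the Lebesgue covering dimension: every finite open cover of `X` has a finite
open refinement (covering `X`) such that every point lies in at most `n + 1` of its members. -/
def CoveringDimLE (X : Type*) [TopologicalSpace X] (n : ℕ) : Prop :=
  ∀ (m : ℕ) (U : Fin m → Set X), (∀ i, IsOpen (U i)) → ⋃ i, U i = univ →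
    ∃ (k : ℕ) (V : Fin k → Set X), (∀ j, IsOpen (V j)) ∧ ⋃ j, V j = univ ∧
      (∀ j, ∃ i, V j ⊆ U i) ∧ ∀ x, {j | x ∈ V j}.ncard ≤ n + 1

/-- the cross product -/
def cr (z w : ℂ) : ℝ := z.re * w.im - z.im * w.re

theorem dense_cr {z : ℂ} (hz : z ≠ 0) : Dense {w : ℂ | cr z w ≠ 0} := by
  intro w
  rw [Metric.mem_closure_iff]
  intro ε hε
  by_cases hw : cr z w = 0
  · -- move in the direction i z
    have hz' : 0 < ‖z‖ := norm_pos_iff.2 hz
    set t : ℝ := ε / (2 * ‖z‖) with ht
    have ht0 : 0 < t := by positivity
    refine ⟨w + (t : ℂ) * (Complex.I * z), ?_, ?_⟩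
    · rw [mem_ofPred_eq]
      have h1 : cr z (w + (t : ℂ) * (Complex.I * z)) = cr z w + t * (z.re ^ 2 + z.im ^ 2) := by
        simp only [cr, Complex.add_re, Complex.add_im, Complex.mul_re, Complex.mul_im,
          Complex.ofReal_re, Complex.ofReal_im, Complex.I_re, Complex.I_im]
        ring
      rw [h1, hw, zero_add]
      have h2 : 0 < z.re ^ 2 + z.im ^ 2 := by
        have := Complex.normSq_pos.2 hz
        rw [Complex.normSq_apply] at this
        nlinarith
      positivity
    · rw [dist_eq_norm, sub_add_cancel_left, norm_neg, norm_mul, norm_mul, Complex.norm_I, one_mul,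
        Complex.norm_real, Real.norm_eq_abs, abs_of_pos ht0, ht]
      have : ε / (2 * ‖z‖) * ‖z‖ = ε / 2 := by
        field_simp
      linarith
  · exact ⟨w, hw, by simpa using hε⟩

theorem isOpen_cr (z : ℂ) : IsOpen {w : ℂ | cr z w ≠ 0} := by
  have : Continuous fun w : ℂ => cr z w := by
    unfold cr
    fun_prop
  exact isOpen_ne_fun this continuous_const

/-- Points in general position near given points. -/
theorem exists_general {ι : Type*} [DecidableEq ι] (c : ι → ℂ) {ε : ℝ} (hε : 0 < ε) (s : Finset ι) :
    ∃ z : ι → ℂ, (∀ j, ‖z j - c j‖ < ε) ∧ (∀ j ∈ s, z j ≠ 0) ∧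
      ∀ i ∈ s, ∀ j ∈ s, i ≠ j → cr (z i) (z j) ≠ 0 := by
  induction s using Finset.induction_on with
  | empty => exact ⟨c, by simpa using fun _ => hε, by simp, by simp⟩
  | insert a s ha ih =>
    obtain ⟨z, h1, h2, h3⟩ := ih
    have hd : Dense (⋂ i ∈ (s : Set ι), {w : ℂ | cr (z i) w ≠ 0}) :=
      dense_biInter_of_isOpen (fun i _ => isOpen_cr _) s.countable_toSet
        fun i hi => dense_cr (h2 i hi)
    have hd2 : Dense ((⋂ i ∈ (s : Set ι), {w : ℂ | cr (z i) w ≠ 0}) ∩ {w : ℂ | w ≠ 0}) := by
      apply hd.inter_of_isOpen_right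
      · exact dense_compl_singleton (0 : ℂ)
      · exact isOpen_ne
    obtain ⟨w, hw, hwc⟩ := Metric.dense_iff.1 hd2 (c a) ε hε
    rw [mem_inter_iff, mem_iInter₂] at hwc
    refine ⟨Function.update z a w, ?_, ?_, ?_⟩
    · intro j
      by_cases hj : j = a
      · subst hj
        rw [Function.update_self, ← dist_eq_norm]
        exact hw
      · rw [Function.update_of_ne hj]
        exact h1 j
    · intro j hj
      by_cases hj' : j = a
      · subst hj'
        rw [Function.update_self]
        exact hwc.2
      · rw [Function.update_of_ne hj']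
        exact h2 j (by simpa [hj'] using hj)
    · intro i hi j hj hij
      have hcr : ∀ z w : ℂ, cr z w = - cr w z := fun z w => by
        unfold cr
        ring
      by_cases hi' : i = a
      · subst hi'
        have hj' : j ≠ i := fun h => hij h.symm
        have hjs : j ∈ s := by simpa [hj'] using hj
        rw [Function.update_self, Function.update_of_ne hj', hcr]
        exact neg_ne_zero.2 (hwc.1 j hjs)
      · have his : i ∈ s := by simpa [hi'] using hi
        by_cases hj' : j = a
        · subst hj'
          rw [Function.update_self, Function.update_of_ne hi']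
          exact hwc.1 i his
        · have hjs : j ∈ s := by simpa [hj'] using hj
          rw [Function.update_of_ne hi', Function.update_of_ne hj']
          exact h3 i his j hjs hij

variable {X : Type*} [TopologicalSpace X] [CompactSpace X] [T2Space X]

/-- In a compact Hausdorff space of covering dimension at most one, the nowhere vanishing complex
functions are dense. -/
theorem exists_nonvanishing (hX : CoveringDimLE X 1) (f : C(X, ℂ)) {ε : ℝ} (hε : 0 < ε) :
    ∃ g : C(X, ℂ), (∀ x, g x ≠ 0) ∧ ∀ x, ‖f x - g x‖ ≤ ε := by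
  -- a finite cover by small sets
  have h0 : ∃ t : Finset ℂ, range f ⊆ ⋃ c ∈ t, ball c (ε / 4) := by
    obtain ⟨t, -, ht, h⟩ := (isCompact_range f.continuous).totallyBounded.exists_subset
      (Metric.dist_mem_uniformity (show (0:ℝ) < ε / 4 by positivity))
    refine ⟨ht.toFinset, ?_⟩
    intro y hy
    have := h hy
    simp only [mem_iUnion, exists_prop] at this ⊢
    obtain ⟨c, hc, hyc⟩ := this
    exact ⟨c, by simpa using hc, hyc⟩
  obtain ⟨t, ht⟩ := h0
  obtain ⟨k, V, hVo, hVc, hVr, hV2⟩ := hX t.card
    (fun i => f ⁻¹' ball ((t.equivFin.symm i : t) : ℂ) (ε / 4))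
    (fun i => isOpen_ball.preimage f.continuous) (by
      rw [eq_univ_iff_forall]
      intro x
      have := ht (mem_range_self x)
      simp only [mem_iUnion, exists_prop] at this ⊢
      obtain ⟨c, hc, hxc⟩ := this
      exact ⟨t.equivFin ⟨c, hc⟩, by simpa using hxc⟩)
  choose r hr using hVr
  obtain ⟨z, hz1, hz2, hz3⟩ := exists_general (fun j => ((t.equivFin.symm (r j) : t) : ℂ))
    (show 0 < ε / 4 by positivity) (Finset.univ : Finset (Fin k))
  obtain ⟨φ, hφ⟩ := PartitionOfUnity.exists_isSubordinate_of_locallyFinite (X := X) (s := univ)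
    isClosed_univ V hVo (locallyFinite_of_finite V) (by rw [hVc])
  let g : C(X, ℂ) := ⟨fun x => ∑ j, ((φ j x : ℝ) : ℂ) * z j, by
    apply continuous_finsetSum
    intro j _
    exact (Complex.continuous_ofReal.comp (φ j).continuous).mul continuous_const⟩
  have hg : ∀ x, g x = ∑ j, ((φ j x : ℝ) : ℂ) * z j := fun x => rfl
  have hsum : ∀ x, ∑ j, φ j x = 1 := by
    intro x
    have := φ.sum_eq_one (mem_univ x)
    rwa [finsum_eq_sum_of_fintype] at this
  have hsumC : ∀ x, ∑ j, ((φ j x : ℝ) : ℂ) = 1 := by
    intro x
    have := congrArg (fun r : ℝ => (r : ℂ)) (hsum x)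
    simpa using this
  have hsupp : ∀ j x, φ j x ≠ 0 → x ∈ V j := by
    intro j x h
    exact hφ j (subset_tsupport _ h)
  refine ⟨g, ?_, ?_⟩
  · intro x hx
    rw [hg] at hx
    -- the indices with nonzero weight
    set J : Set (Fin k) := {j | φ j x ≠ 0} with hJ
    have hJ2 : J.ncard ≤ 2 := (ncard_le_ncard (fun j hj => hsupp j x hj) (toFinite _)).trans (hV2 x)
    obtain ⟨a, ha⟩ : ∃ a, φ a x ≠ 0 := by
      by_contra h
      push Not at h
      have := hsum x
      simp [h] at this
    have hb : ∃ b, b ≠ a ∧ φ b x ≠ 0 := by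
      by_contra h
      push Not at h
      rw [Finset.sum_eq_single a] at hx
      · rcases mul_eq_zero.1 hx with h1 | h1
        · exact ha (by exact_mod_cast h1)
        · exact hz2 a (Finset.mem_univ a) h1
      · intro b _ hb
        rw [h b hb]
        simp
      · intro h
        exact absurd (Finset.mem_univ a) h
    obtain ⟨b, hba, hb⟩ := hb
    have honly : ∀ c, c ≠ a → c ≠ b → φ c x = 0 := by
      intro c hca hcb
      by_contra hc
      have h3 : ({c, a, b} : Set (Fin k)) ⊆ J := by
        intro i hi
        rcases hi with rfl | rfl | rfl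
        · exact hc
        · exact ha
        · exact hb
      have h4 := ncard_le_ncard h3 (toFinite _)
      have h5 : ({c, a, b} : Set (Fin k)).ncard = 3 := by
        rw [ncard_insert_of_notMem (by simp [hca, hcb]), ncard_pair hba.symm]
      omega
    have hx2 : ((φ a x : ℝ) : ℂ) * z a + ((φ b x : ℝ) : ℂ) * z b = 0 := by
      rw [← hx, Finset.sum_eq_add a b hba.symm]
      · rintro c - ⟨hca, hcb⟩
        rw [honly c hca hcb]
        simp
      · intro h
        exact absurd (Finset.mem_univ a) h
      · intro h
        exact absurd (Finset.mem_univ b) h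
    have hre := congrArg Complex.re hx2
    have him := congrArg Complex.im hx2
    simp only [Complex.add_re, Complex.add_im, Complex.mul_re, Complex.mul_im, Complex.ofReal_re,
      Complex.ofReal_im, zero_mul, sub_zero, add_zero, Complex.zero_re, Complex.zero_im] at hre him
    have h6 : φ a x * cr (z a) (z b) = 0 := by
      unfold cr
      linear_combination (z b).im * hre - (z b).re * him
    rcases mul_eq_zero.1 h6 with h7 | h7
    · exact ha h7
    · exact hz3 a (Finset.mem_univ a) b (Finset.mem_univ b) hba.symm h7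
  · intro x
    rw [hg]
    have h1 : f x - ∑ j, ((φ j x : ℝ) : ℂ) * z j = ∑ j, ((φ j x : ℝ) : ℂ) * (f x - z j) := by
      simp_rw [mul_sub]
      rw [Finset.sum_sub_distrib, ← Finset.sum_mul, hsumC, one_mul]
    rw [h1]
    refine (norm_sum_le _ _).trans ?_
    have h2 : ∀ j ∈ (Finset.univ : Finset (Fin k)), ‖((φ j x : ℝ) : ℂ) * (f x - z j)‖ ≤
        φ j x * ε := by
      intro j _
      rw [norm_mul, Complex.norm_real, Real.norm_eq_abs, abs_of_nonneg (φ.nonneg j x)]
      by_cases h : φ j x = 0
      · simp [h]
      · apply mul_le_mul_of_nonneg_left _ (φ.nonneg j x)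
        have h3 := hr j (hsupp j x h)
        rw [mem_preimage, mem_ball, dist_eq_norm] at h3
        have h4 := hz1 j
        have h5 : f x - z j = (f x - ((t.equivFin.symm (r j) : t) : ℂ)) -
          (z j - ((t.equivFin.symm (r j) : t) : ℂ)) := by ring
        rw [h5]
        refine (norm_sub_le _ _).trans ?_
        linarith
    refine (Finset.sum_le_sum h2).trans ?_
    rw [← Finset.sum_mul, hsum, one_mul]

end Q90.DimOne
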