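import Pool.Agent.Q90.FeDefs

set_option autoImplicit false

/-!
Support expansion of operators between different spaces.
-/

open MeasureTheory Filter Topology
open scoped NNReal ENNReal InnerProductSpace

noncomputable section

namespace Q90.FE

variable {X Y Z : Type} [MeasurableSpace X] [MeasurableSpace Y] [MeasurableSpace Z]
  {μ : Measure X} {ν : Measure Y} {κ : Measure Z}

/-- one sided support expansion -/
def Ex (c : ℝ≥0∞) (a : Lp ℂ 2 μ →L[ℂ] Lp ℂ 2 ν) : Prop :=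
  ∀ ξ : Lp ℂ 2 μ, ν (Function.support (a ξ)) ≤ c * μ (Function.support ξ)

theorem supp_congr {f g : X → ℂ} (h : f =ᵐ[μ] g) :
    μ (Function.support f) = μ (Function.support g) := by
  refine measure_congr ?_
  filter_upwards [h] with x hx
  apply propext
  show (f x ≠ 0) ↔ (g x ≠ 0)
  rw [hx]

theorem Ex.mono {c d : ℝ≥0∞} {a : Lp ℂ 2 μ →L[ℂ] Lp ℂ 2 ν} (h : Ex c a) (hcd : c ≤ d) : Ex d a :=
  fun ξ => (h ξ).trans (mul_le_mul_left hcd _)

theorem supp_add (f g : Lp ℂ 2 μ) : μ (Function.support (f + g : Lp ℂ 2 μ)) ≤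
    μ (Function.support f) + μ (Function.support g) := by
  rw [supp_congr (Lp.coeFn_add f g)]
  refine le_trans (measure_mono ?_) (measure_union_le _ _)
  intro x hx
  by_contra hcon
  simp only [Set.mem_union, Function.mem_support, not_or, not_not] at hcon
  apply hx
  show f x + g x = 0
  rw [hcon.1, hcon.2, add_zero]

theorem supp_smul (c : ℂ) (f : Lp ℂ 2 μ) : μ (Function.support (c • f : Lp ℂ 2 μ)) ≤
    μ (Function.support f) := by
  rw [supp_congr (Lp.coeFn_smul c f)]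
  refine measure_mono fun x hx hx' => hx ?_
  show c • f x = 0
  rw [hx', smul_zero]

theorem supp_zero : μ (Function.support (0 : Lp ℂ 2 μ)) = 0 := by
  rw [supp_congr (Lp.coeFn_zero ℂ 2 μ)]
  simp

theorem Ex.add {c d : ℝ≥0∞} {a b : Lp ℂ 2 μ →L[ℂ] Lp ℂ 2 ν} (ha : Ex c a) (hb : Ex d b) :
    Ex (c + d) (a + b) := by
  intro ξ
  refine (supp_add (a ξ) (b ξ)).trans ?_
  rw [add_mul]
  exact add_le_add (ha ξ) (hb ξ)

theorem Ex.smul {c : ℝ≥0∞} {a : Lp ℂ 2 μ →L[ℂ] Lp ℂ 2 ν} (r : ℂ) (ha : Ex c a) : Ex c (r • a) :=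
  fun ξ => (supp_smul r (a ξ)).trans (ha ξ)

theorem Ex.zero : Ex 0 (0 : Lp ℂ 2 μ →L[ℂ] Lp ℂ 2 ν) := by
  intro ξ
  show ν (Function.support (0 : Lp ℂ 2 ν)) ≤ _
  rw [supp_zero]
  exact zero_le

theorem Ex.sum {ι : Type} (s : Finset ι) {c : ι → ℝ≥0∞} {a : ι → (Lp ℂ 2 μ →L[ℂ] Lp ℂ 2 ν)}
    (h : ∀ i ∈ s, Ex (c i) (a i)) : Ex (∑ i ∈ s, c i) (∑ i ∈ s, a i) := by
  classical
  induction s using Finset.induction_on with
  | empty => exact Ex.zero
  | insert i s hi ih =>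
    rw [Finset.sum_insert hi, Finset.sum_insert hi]
    exact (h i (Finset.mem_insert_self _ _)).add
      (ih fun j hj => h j (Finset.mem_insert_of_mem hj))

theorem Ex.comp {c d : ℝ≥0∞} {b : Lp ℂ 2 ν →L[ℂ] Lp ℂ 2 κ} {a : Lp ℂ 2 μ →L[ℂ] Lp ℂ 2 ν}
    (hb : Ex d b) (ha : Ex c a) : Ex (d * c) (b.comp a) := by
  intro ξ
  refine (hb (a ξ)).trans ?_
  rw [mul_assoc]
  exact mul_le_mul_right (ha ξ) _

theorem Ex.one : Ex 1 (1 : Lp ℂ 2 μ →L[ℂ] Lp ℂ 2 μ) := fun ξ => by rw [one_mul]; rfl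

theorem Ex.pow {c : ℝ≥0∞} {a : Lp ℂ 2 μ →L[ℂ] Lp ℂ 2 μ} (ha : Ex c a) (k : ℕ) :
    Ex (c ^ k) (a ^ k) := by
  induction k with
  | zero => rw [pow_zero, pow_zero]; exact Ex.one
  | succ k ih => rw [pow_succ, pow_succ]; exact Ex.comp ih ha

/-- membership in the Roe algebra -/
theorem mem_roe {a : Lp ℂ 2 μ →L[ℂ] Lp ℂ 2 μ} {c d : ℝ≥0∞} (hc : c ≠ ∞) (hd : d ≠ ∞)
    (h1 : Ex c a) (h2 : Ex d (ContinuousLinearMap.adjoint a)) : a ∈ Roe μ := by
  refine subset_closure ⟨(max c d).toNNReal, fun ξ => ?_⟩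
  have h3 : max c d ≠ ∞ := by simp [hc, hd]
  rw [ENNReal.coe_toNNReal h3]
  exact ⟨(h1.mono (le_max_left _ _)) ξ, (h2.mono (le_max_right _ _)) ξ⟩

theorem supp_exp_iff {a : Lp ℂ 2 μ →L[ℂ] Lp ℂ 2 μ} {lam : ℝ≥0} :
    SuppExp μ lam a ↔ Ex (lam : ℝ≥0∞) a ∧ Ex (lam : ℝ≥0∞) (ContinuousLinearMap.adjoint a) :=
  ⟨fun h => ⟨fun ξ => (h ξ).1, fun ξ => (h ξ).2⟩, fun h ξ => ⟨h.1 ξ, h.2 ξ⟩⟩

theorem roe_closed : IsClosed (Roe μ) := isClosed_closure

theorem roe_of_tendsto {a : ℕ → (Lp ℂ 2 μ →L[ℂ] Lp ℂ 2 μ)} {b : Lp ℂ 2 μ →L[ℂ] Lp ℂ 2 μ}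
    (ha : ∀ n, a n ∈ Roe μ) (h : Tendsto a atTop (𝓝 b)) : b ∈ Roe μ :=
  roe_closed.mem_of_tendsto h (Eventually.of_forall ha)

theorem pre_add {a b : Lp ℂ 2 μ →L[ℂ] Lp ℂ 2 μ} (ha : ∃ lam : ℝ≥0, SuppExp μ lam a)
    (hb : ∃ lam : ℝ≥0, SuppExp μ lam b) : ∃ lam : ℝ≥0, SuppExp μ lam (a + b) := by
  obtain ⟨l, hl⟩ := ha
  obtain ⟨m, hm⟩ := hb
  rw [supp_exp_iff] at hl hm
  refine ⟨l + m, supp_exp_iff.mpr ⟨?_, ?_⟩⟩
  · rw [ENNReal.coe_add]
    exact hl.1.add hm.1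
  · rw [ENNReal.coe_add, map_add]
    exact hl.2.add hm.2

theorem pre_smul {a : Lp ℂ 2 μ →L[ℂ] Lp ℂ 2 μ} (r : ℂ) (ha : ∃ lam : ℝ≥0, SuppExp μ lam a) :
    ∃ lam : ℝ≥0, SuppExp μ lam (r • a) := by
  obtain ⟨l, hl⟩ := ha
  rw [supp_exp_iff] at hl
  refine ⟨l, supp_exp_iff.mpr ⟨hl.1.smul r, ?_⟩⟩
  rw [map_smulₛₗ]
  exact hl.2.smul _

theorem roe_add {a b : Lp ℂ 2 μ →L[ℂ] Lp ℂ 2 μ} (ha : a ∈ Roe μ) (hb : b ∈ Roe μ) :
    a + b ∈ Roe μ :=
  map_mem_closure₂ (continuous_fst.add continuous_snd) ha hb fun _ h1 _ h2 => pre_add h1 h2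

theorem roe_smul {a : Lp ℂ 2 μ →L[ℂ] Lp ℂ 2 μ} (r : ℂ) (ha : a ∈ Roe μ) : r • a ∈ Roe μ :=
  map_mem_closure (continuous_const_smul r) ha fun _ h => pre_smul r h

theorem roe_zero : (0 : Lp ℂ 2 μ →L[ℂ] Lp ℂ 2 μ) ∈ Roe μ := by
  refine mem_roe (c := 0) (d := 0) (by simp) (by simp) Ex.zero ?_
  rw [map_zero]
  exact Ex.zero

/-- the Roe algebra as a submodule -/
def RoeS (μ : Measure X) : Submodule ℂ (Lp ℂ 2 μ →L[ℂ] Lp ℂ 2 μ) where
  carrier := Roe μ
  add_mem' := roe_add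
  zero_mem' := roe_zero
  smul_mem' := fun c _ h => roe_smul c h

/-! ### rank one operators -/

/-- the operator `ξ ↦ ⟪g, ξ⟫ f` -/
def r1 {H : Type} [NormedAddCommGroup H] [InnerProductSpace ℂ H] (f g : H) : H →L[ℂ] H :=
  (innerSL ℂ g).smulRight f

theorem r1_apply {H : Type} [NormedAddCommGroup H] [InnerProductSpace ℂ H] (f g ξ : H) :
    r1 f g ξ = ⟪g, ξ⟫_ℂ • f := rfl

theorem r1_add_left {H : Type} [NormedAddCommGroup H] [InnerProductSpace ℂ H] (f f' g : H) :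
    r1 (f + f') g = r1 f g + r1 f' g := by
  ext ξ
  simp only [r1_apply, add_apply, smul_add]

theorem r1_add_right {H : Type} [NormedAddCommGroup H] [InnerProductSpace ℂ H] (f g g' : H) :
    r1 f (g + g') = r1 f g + r1 f g' := by
  ext ξ
  simp only [r1_apply, add_apply, inner_add_left, add_smul]

theorem r1_smul_left {H : Type} [NormedAddCommGroup H] [InnerProductSpace ℂ H] (c : ℂ) (f g : H) :
    r1 (c • f) g = c • r1 f g := by
  ext ξ
  simp only [r1_apply, smul_apply]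
  rw [smul_comm]

theorem r1_smul_right {H : Type} [NormedAddCommGroup H] [InnerProductSpace ℂ H] (c : ℂ) (f g : H) :
    r1 f (c • g) = (starRingEnd ℂ c) • r1 f g := by
  ext ξ
  simp only [r1_apply, smul_apply, inner_smul_left, mul_smul]

theorem r1_zero_left {H : Type} [NormedAddCommGroup H] [InnerProductSpace ℂ H] (g : H) :
    r1 (0 : H) g = 0 := by
  ext ξ
  simp only [r1_apply, smul_zero, zero_apply]

theorem r1_zero_right {H : Type} [NormedAddCommGroup H] [InnerProductSpace ℂ H] (f : H) :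
    r1 f (0 : H) = 0 := by
  ext ξ
  simp only [r1_apply, inner_zero_left, zero_smul, zero_apply]

theorem r1_norm_le {H : Type} [NormedAddCommGroup H] [InnerProductSpace ℂ H] (f g : H) :
    ‖r1 f g‖ ≤ ‖f‖ * ‖g‖ := by
  refine ContinuousLinearMap.opNorm_le_bound _ (by positivity) fun ξ => ?_
  rw [r1_apply, norm_smul]
  calc ‖⟪g, ξ⟫_ℂ‖ * ‖f‖ ≤ (‖g‖ * ‖ξ‖) * ‖f‖ :=
        mul_le_mul_of_nonneg_right (norm_inner_le_norm g ξ) (norm_nonneg _)
    _ = _ := by ring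

theorem continuous_r1_left {H : Type} [NormedAddCommGroup H] [InnerProductSpace ℂ H] (g : H) :
    Continuous fun f : H => r1 f g := by
  refine continuous_iff_continuousAt.mpr fun f => ?_
  rw [ContinuousAt, tendsto_iff_norm_sub_tendsto_zero]
  have h1 : Tendsto (fun y : H => ‖y - f‖ * ‖g‖) (𝓝 f) (𝓝 0) := by
    have : Continuous fun y : H => ‖y - f‖ * ‖g‖ := by fun_prop
    have h2 := this.tendsto f
    rwa [sub_self, norm_zero, zero_mul] at h2
  refine squeeze_zero (fun _ => norm_nonneg _) (fun y => ?_) h1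
  have e : r1 y g - r1 f g = r1 (y - f) g := by
    rw [sub_eq_iff_eq_add, ← r1_add_left, sub_add_cancel]
  rw [e]
  exact r1_norm_le _ _

theorem continuous_r1_right {H : Type} [NormedAddCommGroup H] [InnerProductSpace ℂ H] (f : H) :
    Continuous fun g : H => r1 f g := by
  refine continuous_iff_continuousAt.mpr fun g => ?_
  rw [ContinuousAt, tendsto_iff_norm_sub_tendsto_zero]
  have h1 : Tendsto (fun y : H => ‖f‖ * ‖y - g‖) (𝓝 g) (𝓝 0) := by
    have : Continuous fun y : H => ‖f‖ * ‖y - g‖ := by fun_prop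
    have h2 := this.tendsto g
    rwa [sub_self, norm_zero, mul_zero] at h2
  refine squeeze_zero (fun _ => norm_nonneg _) (fun y => ?_) h1
  have e : r1 f y - r1 f g = r1 f (y - g) := by
    rw [sub_eq_iff_eq_add, ← r1_add_right, sub_add_cancel]
  rw [e]
  exact r1_norm_le _ _

/-- if the rank one operators with vectors in a total set are in a closed subspace, so are all
rank one operators -/
theorem r1_mem {H : Type} [NormedAddCommGroup H] [InnerProductSpace ℂ H]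
    {S : Submodule ℂ (H →L[ℂ] H)} (hS : IsClosed (S : Set (H →L[ℂ] H))) {D : Set H}
    (hD : closure (Submodule.span ℂ D : Set H) = Set.univ)
    (h : ∀ f ∈ D, ∀ g ∈ D, r1 f g ∈ S) (f g : H) : r1 f g ∈ S := by
  have h1 : ∀ f ∈ D, ∀ g, r1 f g ∈ S := by
    intro f hf g
    have h2 : ∀ g ∈ Submodule.span ℂ D, r1 f g ∈ S := by
      intro g hg
      induction hg using Submodule.span_induction with
      | mem x hx => exact h f hf x hx
      | zero => rw [r1_zero_right]; exact S.zero_mem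
      | add x y _ _ ihx ihy => rw [r1_add_right]; exact S.add_mem ihx ihy
      | smul c x _ ih => rw [r1_smul_right]; exact S.smul_mem _ ih
    have h3 : g ∈ closure (Submodule.span ℂ D : Set H) := by rw [hD]; trivial
    exact closure_minimal (s := (Submodule.span ℂ D : Set H)) (t := {g | r1 f g ∈ S}) h2
      (hS.preimage (continuous_r1_right f)) h3
  have h2 : ∀ f ∈ Submodule.span ℂ D, r1 f g ∈ S := by
    intro f hf
    induction hf using Submodule.span_induction with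
    | mem x hx => exact h1 x hx g
    | zero => rw [r1_zero_left]; exact S.zero_mem
    | add x y _ _ ihx ihy => rw [r1_add_left]; exact S.add_mem ihx ihy
    | smul c x _ ih => rw [r1_smul_left]; exact S.smul_mem _ ih
  have h3 : f ∈ closure (Submodule.span ℂ D : Set H) := by rw [hD]; trivial
  exact closure_minimal (s := (Submodule.span ℂ D : Set H)) (t := {f | r1 f g ∈ S}) h2
    (hS.preimage (continuous_r1_left g)) h3

end Q90.FE
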