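import Pool.Agent.Q90.FeMain

set_option autoImplicit false

/-!
Purely atomic spaces, spaces with a diffuse part and an atom, and nonzero compact operators.
-/

open MeasureTheory Filter Topology
open scoped NNReal ENNReal InnerProductSpace

noncomputable section

namespace Q90.FE

variable {X : Type} [MeasurableSpace X] {μ : Measure X}

theorem r1_compact {H : Type} [NormedAddCommGroup H] [InnerProductSpace ℂ H] (f g : H) :
    IsCompactOperator (r1 f g) := by
  have h1 : IsCompactOperator (ContinuousLinearMap.toSpanSingleton ℂ f : ℂ →L[ℂ] H) :=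
    isCompactOperator_of_locallyCompactSpace_rng _
  have h2 := h1.comp_clm (innerSL ℂ g)
  exact h2

theorem r1_adj {H : Type} [NormedAddCommGroup H] [InnerProductSpace ℂ H] [CompleteSpace H]
    (f g : H) : ContinuousLinearMap.adjoint (r1 f g) = r1 g f := by
  symm
  rw [ContinuousLinearMap.eq_adjoint_iff]
  intro x y
  rw [r1_apply, r1_apply, inner_smul_left, inner_smul_right, inner_conj_symm]
  ring

theorem r1_ne_zero {H : Type} [NormedAddCommGroup H] [InnerProductSpace ℂ H] {f g : H}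
    (hf : f ≠ 0) (hg : g ≠ 0) : r1 f g ≠ 0 := by
  intro h
  have h1 : r1 f g g = 0 := by rw [h]; rfl
  rw [r1_apply] at h1
  rcases smul_eq_zero.mp h1 with h2 | h2
  · exact hg (inner_self_eq_zero.mp h2)
  · exact hf h2

theorem ind_ne_zero {B : Set X} (hB : MeasurableSet B) (h1 : μ B ≠ ∞) (h0 : μ B ≠ 0) :
    ind hB h1 ≠ 0 := by
  intro h
  have h2 : ‖ind hB h1‖ = 0 := by rw [h, norm_zero]
  unfold ind at h2
  rw [norm_indicatorConstLp (by norm_num) (by norm_num), norm_one, one_mul] at h2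
  have h3 : 0 < μ.real B := ENNReal.toReal_pos h0 h1
  have h4 : 0 < μ.real B ^ (1 / (2 : ℝ≥0∞).toReal) := Real.rpow_pos_of_pos h3 _
  exact h4.ne' h2

/-! ### atoms -/

theorem singleton_ne_top [SigmaFinite μ] (x : X) : μ {x} ≠ ∞ := by
  have h1 : ({x} : Set X) ⊆ spanningSets μ (spanningSetsIndex μ x) := by
    rintro _ rfl
    exact mem_spanningSetsIndex μ _
  exact ((measure_mono h1).trans_lt (measure_spanningSets_lt_top μ _)).ne

theorem atoms_countable [SigmaFinite μ] [MeasurableSingletonClass X] :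
    {x : X | μ {x} ≠ 0}.Countable := by
  have h := Measure.countable_meas_pos_of_disjoint_iUnion (μ := μ) (As := fun x : X => ({x} : Set X))
    (fun x => measurableSet_singleton x) (by
      intro x y hxy
      exact Set.disjoint_singleton.mpr hxy)
  refine h.mono fun x hx => ?_
  exact pos_iff_ne_zero.mpr hx

variable [MeasurableSingletonClass X]

theorem inner_atom {x : X} (h1 : μ {x} ≠ ∞) (f : Lp ℂ 2 μ) :
    ⟪ind (measurableSet_singleton x) h1, f⟫_ℂ = μ.real {x} • (f : X → ℂ) x := by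
  unfold ind
  rw [L2.inner_indicatorConstLp_one, integral_singleton]

theorem ex_atom {x y : X} (hx : μ {x} ≠ ∞) (hy : μ {y} ≠ ∞) (hy0 : μ {y} ≠ 0) :
    Ex (μ {x} * (μ {y})⁻¹)
      (r1 (ind (measurableSet_singleton x) hx) (ind (measurableSet_singleton y) hy)) := by
  intro ξ
  rw [r1_apply]
  by_cases h : (ξ : X → ℂ) y = 0
  · rw [inner_atom, h, smul_zero, zero_smul, supp_zero]
    exact zero_le
  · refine (supp_smul _ _).trans ?_
    rw [supp_congr (ind_ae _ hx)]
    have e1 : μ (Function.support (({x} : Set X).indicator fun _ => (1 : ℂ))) ≤ μ {x} := by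
      refine measure_mono fun z hz => ?_
      by_contra hcon
      exact hz (Set.indicator_of_notMem hcon _)
    have e2 : μ {y} ≤ μ (Function.support (ξ : X → ℂ)) := by
      refine measure_mono ?_
      rintro _ rfl
      exact h
    calc _ ≤ μ {x} := e1
      _ = μ {x} * (μ {y})⁻¹ * μ {y} := by
          rw [mul_assoc, ENNReal.inv_mul_cancel hy0 hy, mul_one]
      _ ≤ _ := mul_le_mul_right e2 _

theorem r1_atom_mem {x y : X} (hx : μ {x} ≠ ∞) (hx0 : μ {x} ≠ 0) (hy : μ {y} ≠ ∞)
    (hy0 : μ {y} ≠ 0) :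
    r1 (ind (measurableSet_singleton x) hx) (ind (measurableSet_singleton y) hy) ∈ Roe μ := by
  refine mem_roe (c := μ {x} * (μ {y})⁻¹) (d := μ {y} * (μ {x})⁻¹)
    (ENNReal.mul_ne_top hx (by simpa using hy0))
    (ENNReal.mul_ne_top hy (by simpa using hx0)) (ex_atom hx hy hy0) ?_
  rw [r1_adj]
  exact ex_atom hy hx hx0

/-- purely atomic spaces -/
theorem atomic_mem [SigmaFinite μ] {S : Set X} (hS : S.Countable) (hSc : μ Sᶜ = 0)
    {K : Lp ℂ 2 μ →L[ℂ] Lp ℂ 2 μ} (hK : IsCompactOperator K) : K ∈ Roe μ := by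
  set D : Set (Lp ℂ 2 μ) := {f | ∃ (x : X) (h : μ {x} ≠ ∞), μ {x} ≠ 0 ∧
    f = ind (measurableSet_singleton x) h} with hD
  refine compact_mem (S := RoeS μ) roe_closed ?_ hK
  refine r1_mem (S := RoeS μ) roe_closed (D := D) ?_ ?_
  · have h1 : (Submodule.span ℂ D).topologicalClosure = ⊤ := by
      rw [Submodule.topologicalClosure_eq_top_iff, Submodule.eq_bot_iff]
      intro f hf
      rw [Lp.eq_zero_iff_ae_eq_zero]
      have h2 : ∀ᵐ x ∂μ, x ∈ S := by
        rw [ae_iff]
        exact hSc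
      have h3 : μ {x | x ∈ S ∧ μ {x} = 0} = 0 := by
        have hc : {x | x ∈ S ∧ μ {x} = 0}.Countable := hS.mono fun x hx => hx.1
        rw [measure_null_iff_singleton hc]
        exact fun x hx => hx.2
      have h4 : ∀ᵐ x ∂μ, x ∉ {x | x ∈ S ∧ μ {x} = 0} := measure_eq_zero_iff_ae_notMem.mp h3
      filter_upwards [h2, h4] with x hx1 hx2
      have hx3 : μ {x} ≠ 0 := fun h => hx2 ⟨hx1, h⟩
      have h5 : ⟪ind (measurableSet_singleton x) (singleton_ne_top x), f⟫_ℂ = 0 :=
        (Submodule.mem_orthogonal _ _).mp hf _ (Submodule.subset_span ⟨x, singleton_ne_top x, hx3, rfl⟩)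
      rw [inner_atom] at h5
      rcases smul_eq_zero.mp h5 with h6 | h6
      · exact absurd h6 (ENNReal.toReal_pos hx3 (singleton_ne_top x)).ne'
      · exact h6
    have h2 : ((Submodule.span ℂ D).topologicalClosure : Set (Lp ℂ 2 μ)) = Set.univ := by
      rw [h1]; rfl
    exact h2
  · rintro _ ⟨x, hx, hx0, rfl⟩ _ ⟨y, hy, hy0, rfl⟩
    exact r1_atom_mem hx hx0 hy hy0

/-! ### the mixed case -/

/-- the pairing vanishes on indicator functions of small sets -/
theorem pair_small {x0 : X} (hx0 : μ {x0} ≠ ∞) {lam : ℝ≥0} {a : Lp ℂ 2 μ →L[ℂ] Lp ℂ 2 μ}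
    (ha : SuppExp μ lam a) {C : Set X} (hC : MeasurableSet C) (hC1 : μ C ≠ ∞)
    (hs : lam * μ C < μ {x0}) :
    ⟪ind (measurableSet_singleton x0) hx0, a (ind hC hC1)⟫_ℂ = 0 := by
  rw [inner_atom]
  have h1 : (a (ind hC hC1) : X → ℂ) x0 = 0 := by
    by_contra hne
    have h2 : μ {x0} ≤ μ (Function.support (a (ind hC hC1) : X → ℂ)) := by
      refine measure_mono ?_
      rintro _ rfl
      exact hne
    have h3 := (ha (ind hC hC1)).1
    have h4 : μ (Function.support (ind hC hC1 : X → ℂ)) ≤ μ C := by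
      rw [supp_congr (ind_ae hC hC1)]
      refine measure_mono fun z hz => ?_
      by_contra hcon
      exact hz (Set.indicator_of_notMem hcon _)
    have h5 := (h2.trans h3).trans (mul_le_mul_right h4 _)
    exact absurd hs (not_lt.mpr h5)
  rw [h1, smul_zero]

/-- the pairing vanishes on indicator functions of diffuse sets -/
theorem pair_zero [StandardBorelSpace X] {x0 : X} (hx0 : μ {x0} ≠ ∞) (hx00 : μ {x0} ≠ 0)
    {lam : ℝ≥0} {a : Lp ℂ 2 μ →L[ℂ] Lp ℂ 2 μ} (ha : SuppExp μ lam a) {B : Set X}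
    (hB : MeasurableSet B) (hB0 : μ B ≠ 0) (hB1 : μ B ≠ ∞) (hBa : ∀ x ∈ B, μ {x} = 0) :
    ⟪ind (measurableSet_singleton x0) hx0, a (ind hB hB1)⟫_ℂ = 0 := by
  obtain ⟨e, he⟩ := exists_e hB0 hB1 hBa
  set G : ℝ → Set X := fun t => B ∩ e ⁻¹' (Set.Iio t) with hG
  have hGm : ∀ t, MeasurableSet (G t) := fun t => hB.inter (e.measurable measurableSet_Iio)
  have hG1 : ∀ t, μ (G t) ≠ ∞ := fun t => measure_ne_top_of_subset Set.inter_subset_left hB1
  have hmeas : ∀ T : Set ℝ, MeasurableSet T → μ (B ∩ e ⁻¹' T) =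
      μ B * (volume.restrict (Set.Icc (0 : ℝ) 1)) T := by
    intro T hT
    have h1 := he.measure_preimage hT.nullMeasurableSet
    rw [Measure.smul_apply, Measure.restrict_apply (e.measurable hT), smul_eq_mul] at h1
    rw [← h1, ← mul_assoc, ENNReal.mul_inv_cancel hB0 hB1, one_mul, Set.inter_comm]
  -- choose the number of pieces
  obtain ⟨N, hN⟩ : ∃ N : ℕ, lam * μ B / μ {x0} < N :=
    ENNReal.exists_nat_gt (ENNReal.div_ne_top (ENNReal.mul_ne_top ENNReal.coe_ne_top hB1) hx00)
  have hN0 : (0 : ℝ) < (N : ℝ) := by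
    have : (0 : ℝ≥0∞) < N := lt_of_le_of_lt zero_le hN
    exact_mod_cast this
  have hNs : lam * (μ B * ENNReal.ofReal (1 / N)) < μ {x0} := by
    rw [ENNReal.div_lt_iff (Or.inl hx00) (Or.inl hx0)] at hN
    rw [← mul_assoc, one_div, ENNReal.ofReal_inv_of_pos hN0, ENNReal.ofReal_natCast,
      ← div_eq_mul_inv]
    refine ENNReal.div_lt_of_lt_mul' hN
  have hstep : ∀ s : ℝ, ⟪ind (measurableSet_singleton x0) hx0, a (ind (hGm s) (hG1 s))⟫_ℂ = 0 →
      ⟪ind (measurableSet_singleton x0) hx0, a (ind (hGm (s + 1 / N)) (hG1 (s + 1 / N)))⟫_ℂ = 0 := by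
    intro s h0
    have hle : s ≤ s + 1 / N := by
      have : (0 : ℝ) < 1 / N := by positivity
      linarith
    have hCm : MeasurableSet (B ∩ e ⁻¹' (Set.Ico s (s + 1 / N))) :=
      hB.inter (e.measurable measurableSet_Ico)
    have hC1 : μ (B ∩ e ⁻¹' (Set.Ico s (s + 1 / N))) ≠ ∞ :=
      measure_ne_top_of_subset Set.inter_subset_left hB1
    have hadd : ind (hGm (s + 1 / N)) (hG1 (s + 1 / N)) = ind (hGm s) (hG1 s) + ind hCm hC1 := by
      refine Lp.ext ?_
      filter_upwards [Lp.coeFn_add (ind (hGm s) (hG1 s)) (ind hCm hC1), ind_ae (hGm s) (hG1 s),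
        ind_ae hCm hC1, ind_ae (hGm (s + 1 / N)) (hG1 (s + 1 / N))] with x h1 h2 h3 h4
      rw [h1, h4, Pi.add_apply, h2, h3]
      by_cases hxB : x ∈ B
      · rcases lt_or_ge (e x) s with h5 | h5
        · rw [Set.indicator_of_mem (s := G (s + 1 / N)) ⟨hxB, lt_of_lt_of_le h5 hle⟩,
            Set.indicator_of_mem (s := G s) ⟨hxB, h5⟩, Set.indicator_of_notMem, add_zero]
          exact fun h6 => absurd h6.2.1 (not_le.mpr h5)
        · rw [Set.indicator_of_notMem (s := G s) fun h6 => absurd h6.2 (not_lt.mpr h5), zero_add]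
          rcases lt_or_ge (e x) (s + 1 / N) with h6 | h6
          · rw [Set.indicator_of_mem (s := G (s + 1 / N)) ⟨hxB, h6⟩,
              Set.indicator_of_mem (s := B ∩ e ⁻¹' (Set.Ico s (s + 1 / N))) ⟨hxB, h5, h6⟩]
          · rw [Set.indicator_of_notMem (s := G (s + 1 / N))
                fun h7 => absurd h7.2 (not_lt.mpr h6), Set.indicator_of_notMem]
            exact fun h7 => absurd h7.2.2 (not_lt.mpr h6)
      · rw [Set.indicator_of_notMem fun h => hxB h.1, Set.indicator_of_notMem fun h => hxB h.1,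
          Set.indicator_of_notMem fun h => hxB h.1, add_zero]
    rw [hadd, map_add, inner_add_right, h0, zero_add]
    refine pair_small hx0 ha hCm hC1 (lt_of_le_of_lt ?_ hNs)
    refine mul_le_mul_right ?_ _
    rw [hmeas _ measurableSet_Ico]
    refine mul_le_mul_right ?_ _
    refine (Measure.restrict_apply_le _ _).trans ?_
    rw [Real.volume_Ico, add_sub_cancel_left]
  have hzero : ⟪ind (measurableSet_singleton x0) hx0, a (ind (hGm 0) (hG1 0))⟫_ℂ = 0 := by
    refine pair_small hx0 ha _ _ ?_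
    have : μ (G 0) = 0 := by
      rw [hG]
      show μ (B ∩ e ⁻¹' (Set.Iio 0)) = 0
      rw [hmeas _ measurableSet_Iio, Measure.restrict_apply measurableSet_Iio]
      have : Set.Iio (0 : ℝ) ∩ Set.Icc 0 1 = ∅ := by
        ext y
        simp only [Set.mem_inter_iff, Set.mem_Iio, Set.mem_Icc, Set.mem_empty_iff_false, iff_false]
        rintro ⟨h1, h2, _⟩
        linarith
      rw [this, measure_empty, mul_zero]
    rw [this, mul_zero]
    exact pos_iff_ne_zero.mpr hx00
  have hall : ∀ j : ℕ, ⟪ind (measurableSet_singleton x0) hx0,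
      a (ind (hGm (j / N)) (hG1 (j / N)))⟫_ℂ = 0 := by
    intro j
    induction j with
    | zero =>
      have e0 : ((0 : ℕ) : ℝ) / N = 0 := by rw [Nat.cast_zero, zero_div]
      simp only [e0]
      exact hzero
    | succ j ih =>
      have h1 := hstep _ ih
      have e1 : ((j + 1 : ℕ) : ℝ) / N = (j : ℝ) / N + 1 / N := by push_cast; ring
      simp only [e1]
      exact h1
  have h2 := hall N
  have e1 : ((N : ℕ) : ℝ) / N = 1 := div_self hN0.ne'
  simp only [e1] at h2
  have h3 : ind (hGm 1) (hG1 1) = ind hB hB1 := by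
    refine Lp.ext ((ind_ae _ _).trans (EventuallyEq.trans ?_ (ind_ae _ _).symm))
    have h4 : μ (B ∩ e ⁻¹' (Set.Iio 1)ᶜ) = 0 := by
      rw [hmeas _ measurableSet_Iio.compl, Measure.restrict_apply measurableSet_Iio.compl]
      have : (Set.Iio (1 : ℝ))ᶜ ∩ Set.Icc 0 1 = {1} := by
        ext y
        simp only [Set.mem_inter_iff, Set.mem_compl_iff, Set.mem_Iio, Set.mem_Icc,
          Set.mem_singleton_iff, not_lt]
        constructor
        · rintro ⟨h1, _, h2⟩
          linarith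
        · rintro rfl
          norm_num
      rw [this, Real.volume_singleton, mul_zero]
    have h5 : ∀ᵐ x ∂μ, x ∉ B ∩ e ⁻¹' (Set.Iio 1)ᶜ := measure_eq_zero_iff_ae_notMem.mp h4
    filter_upwards [h5] with x hx
    by_cases hxB : x ∈ B
    · have h6 : e x < 1 := by
        by_contra hcon
        exact hx ⟨hxB, hcon⟩
      rw [Set.indicator_of_mem hxB, Set.indicator_of_mem (s := G 1) ⟨hxB, h6⟩]
    · rw [Set.indicator_of_notMem hxB, Set.indicator_of_notMem fun h => hxB h.1]
  rwa [h3] at h2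

theorem mixed_not_mem [StandardBorelSpace X] {x0 : X} (hx0 : μ {x0} ≠ ∞) (hx00 : μ {x0} ≠ 0)
    {B : Set X} (hB : MeasurableSet B) (hB0 : μ B ≠ 0) (hB1 : μ B ≠ ∞)
    (hBa : ∀ x ∈ B, μ {x} = 0) :
    r1 (ind (measurableSet_singleton x0) hx0) (ind hB hB1) ∉ Roe μ := by
  intro h
  have hc : Continuous fun a : Lp ℂ 2 μ →L[ℂ] Lp ℂ 2 μ =>
      ⟪ind (measurableSet_singleton x0) hx0, a (ind hB hB1)⟫_ℂ := by fun_prop
  have h1 : r1 (ind (measurableSet_singleton x0) hx0) (ind hB hB1) ∈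
      {a : Lp ℂ 2 μ →L[ℂ] Lp ℂ 2 μ |
        ⟪ind (measurableSet_singleton x0) hx0, a (ind hB hB1)⟫_ℂ = 0} :=
    closure_minimal (by
      rintro a ⟨lam, ha⟩
      exact pair_zero hx0 hx00 ha hB hB0 hB1 hBa) (isClosed_eq hc continuous_const) h
  have h2 : ⟪ind (measurableSet_singleton x0) hx0,
      r1 (ind (measurableSet_singleton x0) hx0) (ind hB hB1) (ind hB hB1)⟫_ℂ = 0 := h1
  rw [r1_apply, inner_smul_right] at h2
  rcases mul_eq_zero.mp h2 with h3 | h3
  · exact ind_ne_zero hB hB1 hB0 (inner_self_eq_zero.mp h3)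
  · exact ind_ne_zero _ hx0 hx00 (inner_self_eq_zero.mp h3)

/-- the dichotomy -/
theorem all_compact_iff [StandardBorelSpace X] [SigmaFinite μ] :
    (∀ K : Lp ℂ 2 μ →L[ℂ] Lp ℂ 2 μ, IsCompactOperator K → K ∈ Roe μ) ↔
      ((∀ x : X, μ {x} = 0) ∨ ∃ S : Set X, S.Countable ∧ μ Sᶜ = 0) := by
  constructor
  · intro h
    by_contra hcon
    push Not at hcon
    obtain ⟨⟨x0, hx0⟩, hS⟩ := hcon
    set S : Set X := {x | μ {x} ≠ 0} with hSd
    have hSc : S.Countable := atoms_countable
    have h1 := hS S hSc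
    obtain ⟨n, hn⟩ : ∃ n, μ (Sᶜ ∩ spanningSets μ n) ≠ 0 := by
      by_contra hcon
      push Not at hcon
      apply h1
      have e : Sᶜ = ⋃ n, Sᶜ ∩ spanningSets μ n := by
        rw [← Set.inter_iUnion, iUnion_spanningSets, Set.inter_univ]
      rw [e]
      exact measure_iUnion_null hcon
    have hB : MeasurableSet (Sᶜ ∩ spanningSets μ n) :=
      hSc.measurableSet.compl.inter (measurableSet_spanningSets μ n)
    have hB1 : μ (Sᶜ ∩ spanningSets μ n) ≠ ∞ :=
      ((measure_mono Set.inter_subset_right).trans_lt (measure_spanningSets_lt_top μ n)).ne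
    refine mixed_not_mem (singleton_ne_top x0) hx0 hB hn hB1 (fun x hx => ?_)
      (h _ (r1_compact _ _))
    by_contra hne
    exact hx.1 hne
  · rintro (h | ⟨S, hS, hSc⟩) K hK
    · exact atomless_mem h hK
    · exact atomic_mem hS hSc hK

/-- nonzero compact operators -/
theorem exists_compact [StandardBorelSpace X] [SigmaFinite μ] (hμ : μ ≠ 0) :
    ∃ K ∈ Roe μ, K ≠ 0 ∧ IsCompactOperator K := by
  by_cases h : ∀ x : X, μ {x} = 0
  · obtain ⟨n, hn⟩ : ∃ n, μ (spanningSets μ n) ≠ 0 := by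
      by_contra hcon
      push Not at hcon
      apply hμ
      rw [← Measure.measure_univ_eq_zero, ← iUnion_spanningSets μ]
      exact measure_iUnion_null hcon
    have hB1 := (measure_spanningSets_lt_top μ n).ne
    have hB := measurableSet_spanningSets μ n
    refine ⟨r1 (ind hB hB1) (ind hB hB1), atomless_mem h (r1_compact _ _),
      r1_ne_zero (ind_ne_zero hB hB1 hn) (ind_ne_zero hB hB1 hn), r1_compact _ _⟩
  · push Not at h
    obtain ⟨x, hx⟩ := h
    have h1 := singleton_ne_top (μ := μ) x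
    exact ⟨_, r1_atom_mem h1 hx h1 hx, r1_ne_zero (ind_ne_zero _ h1 hx) (ind_ne_zero _ h1 hx),
      r1_compact _ _⟩

end Q90.FE
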