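import Pool.Agent.Q90.FeStmt
import Pool.Agent.Q90.FeMore

set_option autoImplicit false

/-!
Translation of the statements.
-/

open MeasureTheory
open scoped NNReal ENNReal

noncomputable section

namespace Q90.FE

variable {X : Type} [MeasurableSpace X]

theorem se_iff {μ : Measure X} (lam : ℝ≥0) (a : Lp ℂ 2 μ →L[ℂ] Lp ℂ 2 μ) :
    SupportExpansion (μ := μ) lam a ↔ SuppExp μ lam a := by
  constructor
  · rintro ⟨b, hb, h⟩
    have e : (b : Lp ℂ 2 μ →L[ℂ] Lp ℂ 2 μ) = ContinuousLinearMap.adjoint a :=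
      (ContinuousLinearMap.eq_adjoint_iff (b : Lp ℂ 2 μ →L[ℂ] Lp ℂ 2 μ) a).mpr hb
    intro ξ
    rw [← e]
    exact h ξ
  · intro h
    exact ⟨ContinuousLinearMap.adjoint a,
      (ContinuousLinearMap.eq_adjoint_iff _ _).mp rfl, h⟩

theorem roe_eq (μ : Measure X) :
    (RoeAlgebra μ : Set (Lp ℂ 2 μ →L[ℂ] Lp ℂ 2 μ)) = Roe μ := by
  have h : ({a | ∃ lam : ℝ≥0, SupportExpansion (μ := μ) lam a} : Set (Lp ℂ 2 μ →L[ℂ] Lp ℂ 2 μ)) =
      {a | ∃ lam : ℝ≥0, SuppExp μ lam a} := by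
    ext a
    exact exists_congr fun lam => se_iff lam a
  exact congrArg closure h

theorem hasAll_iff (μ : Measure X) : HasAllCompact μ ↔
    ∀ K : Lp ℂ 2 μ →L[ℂ] Lp ℂ 2 μ, IsCompactOperator K → K ∈ Roe μ := by
  rw [← roe_eq]
  exact Iff.rfl

theorem hasNonzero_iff (μ : Measure X) : HasNonzeroCompact μ ↔
    ∃ K : Lp ℂ 2 μ →L[ℂ] Lp ℂ 2 μ, IsCompactOperator K ∧ K ≠ 0 ∧ K ∈ Roe μ := by
  rw [← roe_eq]
  exact Iff.rfl

end Q90.FE
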