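import Pool.Agent.Q90.FeBasic

set_option autoImplicit false

/-!
Compact operators are limits of sums of rank one operators.
-/

open MeasureTheory Filter Topology
open scoped NNReal ENNReal InnerProductSpace

noncomputable section

namespace Q90.FE

variable {H : Type} [NormedAddCommGroup H] [InnerProductSpace ℂ H] [CompleteSpace H]

theorem proj_comp (V : Submodule ℂ H) [FiniteDimensional ℂ V] (K : H →L[ℂ] H) :
    V.starProjection.comp K = ∑ i, r1 ((stdOrthonormalBasis ℂ V i : V) : H)
      (ContinuousLinearMap.adjoint K ((stdOrthonormalBasis ℂ V i : V) : H)) := by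
  ext ξ
  have h := (stdOrthonormalBasis ℂ V).orthogonalProjectionOnto_apply_eq_sum (K ξ)
  have h2 : V.starProjection (K ξ) = (V.orthogonalProjectionOnto (K ξ) : H) := rfl
  show V.starProjection (K ξ) = _
  rw [h2, h, sum_apply, Submodule.coe_sum]
  refine Finset.sum_congr rfl fun i _ => ?_
  rw [r1_apply, ContinuousLinearMap.adjoint_inner_left]
  rfl

theorem compact_mem {S : Submodule ℂ (H →L[ℂ] H)} (hS : IsClosed (S : Set (H →L[ℂ] H)))
    (h : ∀ f g : H, r1 f g ∈ S) {K : H →L[ℂ] H} (hK : IsCompactOperator K) : K ∈ S := by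
  have h1 : K ∈ closure (S : Set (H →L[ℂ] H)) := by
    rw [Metric.mem_closure_iff]
    intro ε hε
    obtain ⟨C, hC, hCK⟩ := hK.image_closedBall_subset_compact (f := (K : H →ₗ[ℂ] H)) 1
    obtain ⟨F, hF, hcov⟩ := Metric.totallyBounded_iff.mp hC.totallyBounded (ε / 2) (half_pos hε)
    set V : Submodule ℂ H := Submodule.span ℂ F with hV
    have : FiniteDimensional ℂ V := FiniteDimensional.span_of_finite ℂ hF
    refine ⟨V.starProjection.comp K, ?_, ?_⟩
    · rw [proj_comp]
      exact S.sum_mem fun i _ => h _ _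
    · rw [dist_eq_norm]
      refine lt_of_le_of_lt ?_ (half_lt_self hε)
      refine ContinuousLinearMap.opNorm_le_of_unit_norm (by positivity) fun ξ hξ => ?_
      have h2 : K ξ ∈ C := hCK ⟨ξ, by simp [hξ], rfl⟩
      obtain ⟨y, hy, hy'⟩ := Set.mem_iUnion₂.mp (hcov h2)
      show ‖K ξ - V.starProjection (K ξ)‖ ≤ ε / 2
      rw [Submodule.starProjection_minimal]
      refine (ciInf_le ⟨0, ?_⟩ (⟨y, Submodule.subset_span hy⟩ : V)).trans ?_
      · rintro _ ⟨x, rfl⟩
        exact norm_nonneg _
      · rw [← dist_eq_norm]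
        exact le_of_lt hy'
  rwa [hS.closure_eq] at h1

end Q90.FE
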