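import Mathlib

set_option autoImplicit false

/-!
# Operators of bounded support expansion on `L₂(X, μ)`
-/

open MeasureTheory
open scoped NNReal

noncomputable section

namespace Q90.FE

variable {X : Type} [MeasurableSpace X]

/-- The operator `a` on `L₂(X, μ)` has support expansion at most `lam`: the supports of `a ξ` and
of `a* ξ` have measure at most `lam` times the measure of the support of `ξ`. -/
def SuppExp (μ : Measure X) (lam : ℝ≥0) (a : Lp ℂ 2 μ →L[ℂ] Lp ℂ 2 μ) : Prop :=
  ∀ ξ : Lp ℂ 2 μ,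
    μ (Function.support (a ξ)) ≤ lam * μ (Function.support ξ) ∧
    μ (Function.support (ContinuousLinearMap.adjoint a ξ)) ≤ lam * μ (Function.support ξ)

/-- The quantum uniform Roe algebra `C*_u(X, V_μ)`: the norm closure of the set of operators with
support expansion at most `lam` for some `lam`. -/
def Roe (μ : Measure X) : Set (Lp ℂ 2 μ →L[ℂ] Lp ℂ 2 μ) :=
  closure {a | ∃ lam : ℝ≥0, SuppExp μ lam a}

/-- Q1: `C*_u(X, V_μ)` contains a nonzero compact operator. -/
def ContainsNonzeroCompact (μ : Measure X) : Prop :=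
  ∃ K : Lp ℂ 2 μ →L[ℂ] Lp ℂ 2 μ, K ∈ Roe μ ∧ K ≠ 0 ∧ IsCompactOperator K

/-- Q2: `C*_u(X, V_μ)` contains every compact operator on `L₂(X, μ)`. -/
def ContainsAllCompact (μ : Measure X) : Prop :=
  ∀ K : Lp ℂ 2 μ →L[ℂ] Lp ℂ 2 μ, IsCompactOperator K → K ∈ Roe μ

end Q90.FE
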