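import Mathlib

set_option autoImplicit false

/-!
The averaging operator of two unipotent matrices on `ℓ²(ℤ² ∖ 0)` has norm at most `√3 / 2`.
-/

open Filter Topology

noncomputable section

namespace Q90.FE

/-- the index set -/
abbrev I2 : Type := Fin 2 → ℤ

/-- the four unipotent matrices -/
def st : Fin 4 → I2 → I2
  | 0, n => ![n 0 + 2 * n 1, n 1]
  | 1, n => ![n 0 - 2 * n 1, n 1]
  | 2, n => ![n 0, n 1 + 2 * n 0]
  | 3, n => ![n 0, n 1 - 2 * n 0]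

/-- the index of the inverse -/
def iv : Fin 4 → Fin 4
  | 0 => 1
  | 1 => 0
  | 2 => 3
  | 3 => 2

theorem iv_iv (s : Fin 4) : iv (iv s) = s := by fin_cases s <;> rfl

theorem st_iv (s : Fin 4) (n : I2) : st (iv s) (st s n) = n := by
  fin_cases s <;> funext i <;> fin_cases i <;> simp [st, iv]

theorem st_iv' (s : Fin 4) (n : I2) : st s (st (iv s) n) = n := by
  have := st_iv (iv s) n
  rwa [iv_iv] at this

/-- as an equivalence -/
def se (s : Fin 4) : I2 ≃ I2 where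
  toFun := st s
  invFun := st (iv s)
  left_inv := st_iv s
  right_inv := st_iv' s

theorem st_zero (s : Fin 4) : st s 0 = 0 := by
  fin_cases s <;> funext i <;> fin_cases i <;> simp [st]

/-- the height -/
def ht (n : I2) : ℤ := |n 0| + |n 1|

/-- the weights -/
def wt (n : I2) (s : Fin 4) : ℝ :=
  if ht n < ht (st s n) then 1 / Real.sqrt 3 else if ht (st s n) < ht n then Real.sqrt 3 else 1

theorem sqrt3_pos : 0 < Real.sqrt 3 := Real.sqrt_pos.mpr (by norm_num)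

theorem sqrt3_sq : Real.sqrt 3 * Real.sqrt 3 = 3 := Real.mul_self_sqrt (by norm_num)

theorem inv_sqrt3 : 1 / Real.sqrt 3 = Real.sqrt 3 / 3 := by
  rw [div_eq_div_iff sqrt3_pos.ne' (by norm_num), one_mul, sqrt3_sq]

theorem wt_pos (n : I2) (s : Fin 4) : 0 < wt n s := by
  have := sqrt3_pos
  unfold wt
  split_ifs <;> positivity

theorem wt_le (n : I2) (s : Fin 4) : wt n s ≤ 2 := by
  have h1 : Real.sqrt 3 ≤ 2 := by
    rw [Real.sqrt_le_left (by norm_num)]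
    norm_num
  have h2 := sqrt3_pos
  unfold wt
  split_ifs
  · rw [inv_sqrt3]; linarith
  · exact h1
  · norm_num

theorem wt_mul (n : I2) (s : Fin 4) : wt n s * wt (st s n) (iv s) = 1 := by
  have h := sqrt3_pos
  unfold wt
  rw [st_iv]
  rcases lt_trichotomy (ht n) (ht (st s n)) with h1 | h1 | h1
  · rw [if_pos h1, if_neg (not_lt.mpr h1.le), if_pos h1]
    field_simp
  · rw [if_neg (by omega), if_neg (by omega), if_neg (by omega), if_neg (by omega)]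
    norm_num
  · rw [if_neg (not_lt.mpr h1.le), if_pos h1, if_pos h1]
    field_simp

theorem wt_up {n : I2} {s : Fin 4} (h : ht n < ht (st s n)) : wt n s = Real.sqrt 3 / 3 := by
  unfold wt
  rw [if_pos h, inv_sqrt3]

theorem wt_le_one {n : I2} {s : Fin 4} (h : ht n ≤ ht (st s n)) : wt n s ≤ 1 := by
  have h1 : Real.sqrt 3 ≤ 2 := by
    rw [Real.sqrt_le_left (by norm_num)]
    norm_num
  unfold wt
  rw [if_neg (not_lt.mpr h), inv_sqrt3]
  split_ifs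
  · linarith
  · exact le_rfl

theorem wt_le_sqrt (n : I2) (s : Fin 4) : wt n s ≤ Real.sqrt 3 := by
  have h1 : 1 ≤ Real.sqrt 3 := by
    rw [Real.one_le_sqrt]
    norm_num
  unfold wt
  rw [inv_sqrt3]
  split_ifs
  · linarith
  · exact le_rfl
  · exact h1

theorem abs_facts (x y : ℤ) :
    (y ≠ 0 → |x| < |x + 2 * y| ∨ |x| < |x - 2 * y|) ∧
    (|x| < |y| → |x| < |x + 2 * y| ∧ |x| < |x - 2 * y|) ∧
    (|x| ≤ |y| → |x| ≤ |x + 2 * y| ∧ |x| ≤ |x - 2 * y|) := by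
  refine ⟨fun h => ?_, fun h => ?_, fun h => ?_⟩
  · rcases abs_cases x with ⟨h1, _⟩ | ⟨h1, _⟩ <;>
    rcases abs_cases (x + 2 * y) with ⟨h3, _⟩ | ⟨h3, _⟩ <;>
    rcases abs_cases (x - 2 * y) with ⟨h4, _⟩ | ⟨h4, _⟩ <;>
    rw [h1, h3, h4] <;> omega
  · rcases abs_cases x with ⟨h1, _⟩ | ⟨h1, _⟩ <;>
    rcases abs_cases y with ⟨h2, _⟩ | ⟨h2, _⟩ <;>
    rcases abs_cases (x + 2 * y) with ⟨h3, _⟩ | ⟨h3, _⟩ <;>
    rcases abs_cases (x - 2 * y) with ⟨h4, _⟩ | ⟨h4, _⟩ <;>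
    rw [h1, h2] at h <;> rw [h1, h3, h4] <;> omega
  · rcases abs_cases x with ⟨h1, _⟩ | ⟨h1, _⟩ <;>
    rcases abs_cases y with ⟨h2, _⟩ | ⟨h2, _⟩ <;>
    rcases abs_cases (x + 2 * y) with ⟨h3, _⟩ | ⟨h3, _⟩ <;>
    rcases abs_cases (x - 2 * y) with ⟨h4, _⟩ | ⟨h4, _⟩ <;>
    rw [h1, h2] at h <;> rw [h1, h3, h4] <;> omega

theorem ht_zero_iff (n : I2) : (ht n < ht (st 0 n) ↔ |n 0| < |n 0 + 2 * n 1|) ∧
    (ht n < ht (st 1 n) ↔ |n 0| < |n 0 - 2 * n 1|) ∧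
    (ht n < ht (st 2 n) ↔ |n 1| < |n 1 + 2 * n 0|) ∧
    (ht n < ht (st 3 n) ↔ |n 1| < |n 1 - 2 * n 0|) := by
  have e0 : ht n = |n 0| + |n 1| := rfl
  have e1 : ht (st 0 n) = |n 0 + 2 * n 1| + |n 1| := rfl
  have e2 : ht (st 1 n) = |n 0 - 2 * n 1| + |n 1| := rfl
  have e3 : ht (st 2 n) = |n 0| + |n 1 + 2 * n 0| := rfl
  have e4 : ht (st 3 n) = |n 0| + |n 1 - 2 * n 0| := rfl
  rw [e0, e1, e2, e3, e4]
  omega

theorem ht_zero_iff' (n : I2) : (ht n ≤ ht (st 0 n) ↔ |n 0| ≤ |n 0 + 2 * n 1|) ∧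
    (ht n ≤ ht (st 1 n) ↔ |n 0| ≤ |n 0 - 2 * n 1|) ∧
    (ht n ≤ ht (st 2 n) ↔ |n 1| ≤ |n 1 + 2 * n 0|) ∧
    (ht n ≤ ht (st 3 n) ↔ |n 1| ≤ |n 1 - 2 * n 0|) := by
  have e0 : ht n = |n 0| + |n 1| := rfl
  have e1 : ht (st 0 n) = |n 0 + 2 * n 1| + |n 1| := rfl
  have e2 : ht (st 1 n) = |n 0 - 2 * n 1| + |n 1| := rfl
  have e3 : ht (st 2 n) = |n 0| + |n 1 + 2 * n 0| := rfl
  have e4 : ht (st 3 n) = |n 0| + |n 1 - 2 * n 0| := rfl
  rw [e0, e1, e2, e3, e4]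
  omega

theorem wt_sum {n : I2} (hn : n ≠ 0) : ∑ s, wt n s ≤ 2 * Real.sqrt 3 := by
  have h3 := sqrt3_pos
  have h17 : 3 / 2 < Real.sqrt 3 := by
    rw [Real.lt_sqrt (by norm_num)]
    norm_num
  obtain ⟨i0, i1, i2, i3⟩ := ht_zero_iff n
  obtain ⟨j0, j1, j2, j3⟩ := ht_zero_iff' n
  obtain ⟨a1, a2, a3⟩ := abs_facts (n 0) (n 1)
  obtain ⟨b1, b2, b3⟩ := abs_facts (n 1) (n 0)
  rw [Fin.sum_univ_four]
  have q0 := wt_le_sqrt n 0
  have q1 := wt_le_sqrt n 1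
  have q2 := wt_le_sqrt n 2
  have q3 := wt_le_sqrt n 3
  rcases lt_trichotomy |n 0| |n 1| with h | h | h
  · obtain ⟨c0, c1⟩ := a2 h
    rw [wt_up (i0.mpr c0), wt_up (i1.mpr c1)]
    by_cases h0 : n 0 = 0
    · have k2 : wt n 2 ≤ 1 := wt_le_one (j2.mpr (by rw [h0, mul_zero, add_zero]))
      have k3 : wt n 3 ≤ 1 := wt_le_one (j3.mpr (by rw [h0, mul_zero, sub_zero]))
      linarith
    · rcases b1 h0 with h4 | h4
      · rw [wt_up (i2.mpr h4)]; linarith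
      · rw [wt_up (i3.mpr h4)]; linarith
  · have h0 : n 0 ≠ 0 := by
      intro h0
      apply hn
      rw [h0, abs_zero] at h
      have h1 := abs_eq_zero.mp h.symm
      funext i
      fin_cases i
      · exact h0
      · exact h1
    have h1 : n 1 ≠ 0 := by
      intro h1
      rw [h1, abs_zero] at h
      exact h0 (abs_eq_zero.mp h)
    obtain ⟨c0, c1⟩ := a3 h.le
    obtain ⟨d0, d1⟩ := b3 h.ge
    have k0 : wt n 0 ≤ 1 := wt_le_one (j0.mpr c0)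
    have k1 : wt n 1 ≤ 1 := wt_le_one (j1.mpr c1)
    have k2 : wt n 2 ≤ 1 := wt_le_one (j2.mpr d0)
    have k3 : wt n 3 ≤ 1 := wt_le_one (j3.mpr d1)
    rcases a1 h1 with h4 | h4 <;> rcases b1 h0 with h5 | h5
    · rw [wt_up (i0.mpr h4), wt_up (i2.mpr h5)]; linarith
    · rw [wt_up (i0.mpr h4), wt_up (i3.mpr h5)]; linarith
    · rw [wt_up (i1.mpr h4), wt_up (i2.mpr h5)]; linarith
    · rw [wt_up (i1.mpr h4), wt_up (i3.mpr h5)]; linarith
  · obtain ⟨c0, c1⟩ := b2 h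
    rw [wt_up (i2.mpr c0), wt_up (i3.mpr c1)]
    by_cases h0 : n 1 = 0
    · have k2 : wt n 0 ≤ 1 := wt_le_one (j0.mpr (by rw [h0, mul_zero, add_zero]))
      have k3 : wt n 1 ≤ 1 := wt_le_one (j1.mpr (by rw [h0, mul_zero, sub_zero]))
      linarith
    · rcases a1 h0 with h4 | h4
      · rw [wt_up (i0.mpr h4)]; linarith
      · rw [wt_up (i1.mpr h4)]; linarith

/-- pointwise bound -/
theorem schur_point {n : I2} (f : I2 → ℂ) (hf : f 0 = 0) :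
    ‖(1 / 4 : ℂ) * ∑ s, f (st s n)‖ ^ 2 ≤
      Real.sqrt 3 / 8 * ∑ s, wt (st s n) (iv s) * ‖f (st s n)‖ ^ 2 := by
  have h3 := sqrt3_pos
  by_cases hn : n = 0
  · subst hn
    simp only [st_zero, hf]
    simp
  have h1 : ‖∑ s, f (st s n)‖ ≤ ∑ s, ‖f (st s n)‖ := norm_sum_le _ _
  have h2 : (∑ s, ‖f (st s n)‖) ^ 2 ≤
      (∑ s, wt n s) * ∑ s, wt (st s n) (iv s) * ‖f (st s n)‖ ^ 2 := by
    refine Finset.sum_sq_le_sum_mul_sum_of_sq_le_mul _ (fun s _ => (wt_pos n s).le)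
      (fun s _ => mul_nonneg (wt_pos _ _).le (by positivity)) fun s _ => ?_
    rw [← mul_assoc, wt_mul, one_mul]
  have h4 := wt_sum hn
  have h5 : 0 ≤ ∑ s, wt (st s n) (iv s) * ‖f (st s n)‖ ^ 2 :=
    Finset.sum_nonneg fun s _ => mul_nonneg (wt_pos _ _).le (by positivity)
  rw [norm_mul, mul_pow]
  have h6 : ‖(1 / 4 : ℂ)‖ = 1 / 4 := by norm_num
  rw [h6]
  have h7 : ‖∑ s, f (st s n)‖ ^ 2 ≤ (∑ s, ‖f (st s n)‖) ^ 2 :=
    pow_le_pow_left₀ (norm_nonneg _) h1 2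
  nlinarith [mul_le_mul_of_nonneg_right h4 h5]

/-- reindexing -/
theorem tsum_st (s : Fin 4) (h : I2 → ℝ) : ∑' n, h (st s n) = ∑' n, h n := (se s).tsum_eq h

theorem summable_st (s : Fin 4) {h : I2 → ℝ} (hh : Summable h) : Summable fun n => h (st s n) :=
  (se s).summable_iff.mpr hh

theorem sum_iv (h : Fin 4 → ℝ) : ∑ s, h (iv s) = ∑ s, h s := by
  rw [Fin.sum_univ_four, Fin.sum_univ_four]
  show h 1 + h 0 + h 3 + h 2 = _
  ring

theorem wt_summable (s : Fin 4) {f : I2 → ℂ} (hs : Summable fun n => ‖f n‖ ^ 2) :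
    Summable fun n => wt n s * ‖f n‖ ^ 2 :=
  Summable.of_nonneg_of_le (fun n => mul_nonneg (wt_pos _ _).le (by positivity))
    (fun n => mul_le_mul_of_nonneg_right (wt_le n s) (by positivity)) (hs.mul_left 2)

theorem wt_summable' (s : Fin 4) {f : I2 → ℂ} (hs : Summable fun n => ‖f n‖ ^ 2) :
    Summable fun n => wt (st s n) (iv s) * ‖f (st s n)‖ ^ 2 :=
  summable_st s (h := fun n => wt n (iv s) * ‖f n‖ ^ 2) (wt_summable (iv s) hs)

theorem schur_step1 {f : I2 → ℂ} (hs : Summable fun n => ‖f n‖ ^ 2) :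
    ∑' n, Real.sqrt 3 / 8 * ∑ s, wt (st s n) (iv s) * ‖f (st s n)‖ ^ 2 =
      Real.sqrt 3 / 8 * ∑ s, ∑' n, wt (st s n) (iv s) * ‖f (st s n)‖ ^ 2 := by
  rw [tsum_mul_left, Summable.tsum_finsetSum fun s _ => wt_summable' s hs]

theorem schur_step2 (f : I2 → ℂ) : ∑ s, ∑' n, wt (st s n) (iv s) * ‖f (st s n)‖ ^ 2 =
    ∑ s, ∑' n, wt n s * ‖f n‖ ^ 2 := by
  rw [← sum_iv fun s => ∑' n, wt n s * ‖f n‖ ^ 2]
  exact Finset.sum_congr rfl fun s _ => tsum_st s fun n => wt n (iv s) * ‖f n‖ ^ 2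

theorem schur_step3 {f : I2 → ℂ} (hf : f 0 = 0) (hs : Summable fun n => ‖f n‖ ^ 2) :
    ∑' n, ∑ s, wt n s * ‖f n‖ ^ 2 ≤ ∑' n, 2 * Real.sqrt 3 * ‖f n‖ ^ 2 := by
  refine (summable_sum fun s _ => wt_summable s hs).tsum_le_tsum (fun n => ?_) (hs.mul_left _)
  by_cases hn : n = 0
  · subst hn
    simp [hf]
  · rw [← Finset.sum_mul]
    exact mul_le_mul_of_nonneg_right (wt_sum hn) (by positivity)

theorem schur_summable {f : I2 → ℂ} (hf : f 0 = 0) (hs : Summable fun n => ‖f n‖ ^ 2) :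
    Summable fun n => ‖(1 / 4 : ℂ) * ∑ s, f (st s n)‖ ^ 2 :=
  Summable.of_nonneg_of_le (fun n => by positivity) (fun n => schur_point f hf)
    ((summable_sum fun s _ => wt_summable' s hs).mul_left _)

theorem schur_step4 {f : I2 → ℂ} (hf : f 0 = 0) (hs : Summable fun n => ‖f n‖ ^ 2) :
    ∑' n, ‖(1 / 4 : ℂ) * ∑ s, f (st s n)‖ ^ 2 ≤
      ∑' n, Real.sqrt 3 / 8 * ∑ s, wt (st s n) (iv s) * ‖f (st s n)‖ ^ 2 :=
  (schur_summable hf hs).tsum_le_tsum (fun n => schur_point f hf)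
    ((summable_sum fun s _ => wt_summable' s hs).mul_left _)

/-- the averaging operator contracts square sums -/
theorem schur_sum {f : I2 → ℂ} (hf : f 0 = 0) (hs : Summable fun n => ‖f n‖ ^ 2) :
    ∑' n, ‖(1 / 4 : ℂ) * ∑ s, f (st s n)‖ ^ 2 ≤ 3 / 4 * ∑' n, ‖f n‖ ^ 2 := by
  have h3 := sqrt3_pos
  refine (schur_step4 hf hs).trans ?_
  rw [schur_step1 hs, schur_step2 f, ← Summable.tsum_finsetSum fun s _ => wt_summable s hs]
  refine (mul_le_mul_of_nonneg_left (schur_step3 hf hs) (by positivity)).trans (le_of_eq ?_)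
  rw [tsum_mul_left]
  generalize ∑' n, ‖f n‖ ^ 2 = Z
  have := sqrt3_sq
  linear_combination (2 / 8 * Z) * this

end Q90.FE
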