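import Pool.Agent.Q90.FeBasic
import Pool.Agent.Q90.FeSchur

set_option autoImplicit false

/-!
Averages of four unipotent automorphisms of the torus and their powers.
-/

open MeasureTheory Filter Topology
open scoped NNReal ENNReal InnerProductSpace

noncomputable section

namespace Q90.FE

/-- the torus -/
abbrev Tor : Type := UnitAddTorus (Fin 2)

/-- Haar measure -/
def nu : Measure Tor := Measure.pi fun _ => AddCircle.haarAddCircle

instance : IsProbabilityMeasure nu := by unfold nu; infer_instance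

instance : Measure.IsAddHaarMeasure nu := by unfold nu; infer_instance

/-- Fourier basis -/
def bas : HilbertBasis I2 ℂ (Lp ℂ 2 nu) := UnitAddTorus.mFourierBasis

theorem bas_ae (n : I2) : (bas n : Tor → ℂ) =ᵐ[nu] UnitAddTorus.mFourier n := by
  have h : bas n = UnitAddTorus.mFourierLp 2 n := congrFun UnitAddTorus.coe_mFourierBasis n
  rw [h]
  exact UnitAddTorus.coeFn_mFourierLp 2 n

/-- the automorphisms of the torus -/
def tm : Fin 4 → Tor → Tor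
  | 0, x => ![x 0, x 1 + (2 : ℤ) • x 0]
  | 1, x => ![x 0, x 1 - (2 : ℤ) • x 0]
  | 2, x => ![x 0 + (2 : ℤ) • x 1, x 1]
  | 3, x => ![x 0 - (2 : ℤ) • x 1, x 1]

theorem tm_iv (s : Fin 4) (x : Tor) : tm (iv s) (tm s x) = x := by
  fin_cases s <;> funext i <;> fin_cases i <;> simp [tm, iv]

theorem tm_iv' (s : Fin 4) (x : Tor) : tm s (tm (iv s) x) = x := by
  have := tm_iv (iv s) x
  rwa [iv_iv] at this

theorem tm_add (s : Fin 4) (x y : Tor) : tm s (x + y) = tm s x + tm s y := by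
  fin_cases s <;> funext i <;> fin_cases i <;> simp [tm] <;> abel

theorem tm_cont (s : Fin 4) : Continuous (tm s) := by
  refine continuous_pi fun i => ?_
  fin_cases s <;> fin_cases i <;> simp only [tm] <;> simp <;> fun_prop

/-- as a homomorphism -/
def tmh (s : Fin 4) : Tor →+ Tor := AddMonoidHom.mk' (tm s) (tm_add s)

theorem tm_mp (s : Fin 4) : MeasurePreserving (tm s) nu nu :=
  AddMonoidHom.measurePreserving (f := tmh s) (tm_cont s) (fun y => ⟨tm (iv s) y, tm_iv' s y⟩) rfl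

theorem four_tm (s : Fin 4) (n : I2) (x : Tor) :
    UnitAddTorus.mFourier n (tm s x) = UnitAddTorus.mFourier (st s n) x := by
  have e : ∀ (n : I2) (x : Tor), UnitAddTorus.mFourier n x = fourier (n 0) (x 0) * fourier (n 1) (x 1) :=
    fun n x => (show UnitAddTorus.mFourier n x = ∏ i, fourier (n i) (x i) from rfl).trans
      (Fin.prod_univ_two _)
  rw [e, e]
  have key : ∀ (k l m : ℤ) (a b : UnitAddCircle), fourier k a * fourier l (b + m • a) =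
      fourier (k + l * m) a * fourier l b := by
    intro k l m a b
    rw [fourier_add (m := k) (n := l * m)]
    simp only [fourier_apply]
    rw [smul_add, AddCircle.toCircle_add, Circle.coe_mul, smul_smul]
    ring
  fin_cases s
  · show fourier (n 0) (x 0) * fourier (n 1) (x 1 + (2 : ℤ) • x 0) =
      fourier (n 0 + 2 * n 1) (x 0) * fourier (n 1) (x 1)
    rw [key, mul_comm (n 1) 2]
  · show fourier (n 0) (x 0) * fourier (n 1) (x 1 - (2 : ℤ) • x 0) =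
      fourier (n 0 - 2 * n 1) (x 0) * fourier (n 1) (x 1)
    rw [sub_eq_add_neg, ← neg_smul, key, mul_comm (n 1) (-2), neg_mul, ← sub_eq_add_neg]
  · show fourier (n 0) (x 0 + (2 : ℤ) • x 1) * fourier (n 1) (x 1) =
      fourier (n 0) (x 0) * fourier (n 1 + 2 * n 0) (x 1)
    rw [mul_comm, key, mul_comm (n 0) 2, mul_comm]
  · show fourier (n 0) (x 0 - (2 : ℤ) • x 1) * fourier (n 1) (x 1) =
      fourier (n 0) (x 0) * fourier (n 1 - 2 * n 0) (x 1)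
    rw [mul_comm, sub_eq_add_neg, ← neg_smul, key, mul_comm (n 0) (-2), neg_mul,
      ← sub_eq_add_neg, mul_comm]

/-- Koopman operators -/
def Uo (s : Fin 4) : Lp ℂ 2 nu →ₗᵢ[ℂ] Lp ℂ 2 nu := Lp.compMeasurePreservingₗᵢ ℂ (tm s) (tm_mp s)

theorem Uo_ae (s : Fin 4) (f : Lp ℂ 2 nu) : (Uo s f : Tor → ℂ) =ᵐ[nu] f ∘ tm s :=
  Lp.coeFn_compMeasurePreserving f (tm_mp s)

theorem Uo_bas (s : Fin 4) (n : I2) : Uo s (bas n) = bas (st s n) := by
  refine Lp.ext ?_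
  filter_upwards [Uo_ae s (bas n), bas_ae (st s n),
    (tm_mp s).quasiMeasurePreserving.ae_eq_comp (bas_ae n)] with x h1 h2 h3
  rw [h1, h2, h3]
  exact four_tm s n x

theorem Uo_iv (s : Fin 4) (f : Lp ℂ 2 nu) : Uo s (Uo (iv s) f) = f := by
  refine Lp.ext ?_
  filter_upwards [Uo_ae s (Uo (iv s) f),
    (tm_mp s).quasiMeasurePreserving.ae_eq_comp (Uo_ae (iv s) f)] with x h1 h2
  rw [h1, h2]
  show f (tm (iv s) (tm s x)) = f x
  rw [tm_iv]

theorem Uo_adj (s : Fin 4) (f g : Lp ℂ 2 nu) : ⟪Uo s f, g⟫_ℂ = ⟪f, Uo (iv s) g⟫_ℂ := by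
  conv_lhs => rw [← Uo_iv s g]
  exact (Uo s).inner_map_map _ _

theorem Uo_repr (s : Fin 4) (f : Lp ℂ 2 nu) (m : I2) :
    bas.repr (Uo s f) m = bas.repr f (st (iv s) m) := by
  rw [bas.repr_apply_apply, bas.repr_apply_apply]
  have h := Uo_adj (iv s) (bas m) f
  rw [iv_iv, Uo_bas] at h
  exact h.symm

theorem Uo_supp (s : Fin 4) (f : Lp ℂ 2 nu) :
    nu (Function.support (Uo s f)) = nu (Function.support f) := by
  rw [supp_congr (Uo_ae s f)]
  have hm : NullMeasurableSet (Function.support (f : Tor → ℂ)) nu :=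
    ((Lp.stronglyMeasurable f).measurable measurableSet_eq.compl).nullMeasurableSet
  exact (tm_mp s).measure_preimage hm

/-- the averaging operator -/
def Tav : Lp ℂ 2 nu →L[ℂ] Lp ℂ 2 nu := (1 / 4 : ℂ) • ∑ s, (Uo s).toContinuousLinearMap

theorem Tav_apply (f : Lp ℂ 2 nu) : Tav f = (1 / 4 : ℂ) • ∑ s, Uo s f := by
  show (1 / 4 : ℂ) • (∑ s, (Uo s).toContinuousLinearMap) f = _
  rw [sum_apply]
  rfl

theorem Tav_ex : Ex 4 Tav := by
  have h : Ex (∑ _s : Fin 4, (1 : ℝ≥0∞)) (∑ s, (Uo s).toContinuousLinearMap) := by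
    refine Ex.sum _ fun s _ ξ => ?_
    rw [one_mul]
    exact (Uo_supp s ξ).le
  have e : ∑ _s : Fin 4, (1 : ℝ≥0∞) = 4 := by simp
  rw [e] at h
  exact h.smul (1 / 4 : ℂ)

theorem Tav_adj : ContinuousLinearMap.adjoint Tav = Tav := by
  symm
  rw [ContinuousLinearMap.eq_adjoint_iff]
  intro f g
  rw [Tav_apply, Tav_apply, inner_smul_left, inner_smul_right, sum_inner, inner_sum]
  have h : ∑ s, ⟪Uo s f, g⟫_ℂ = ∑ s, ⟪f, Uo s g⟫_ℂ := by
    simp only [Uo_adj]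
    rw [Fin.sum_univ_four, Fin.sum_univ_four]
    show ⟪f, Uo 1 g⟫_ℂ + ⟪f, Uo 0 g⟫_ℂ + ⟪f, Uo 3 g⟫_ℂ + ⟪f, Uo 2 g⟫_ℂ = _
    ring
  rw [h]
  congr 1
  have e : (1 / 4 : ℂ) = ((1 / 4 : ℝ) : ℂ) := by norm_num
  rw [e, Complex.conj_ofReal]

theorem Tav_pow_adj (k : ℕ) : ContinuousLinearMap.adjoint (Tav ^ k) = Tav ^ k := by
  have h : star (Tav ^ k) = (star Tav) ^ k := star_pow _ _
  have h2 : star Tav = Tav := Tav_adj
  rw [h2] at h
  exact h

theorem Tav_repr (f : Lp ℂ 2 nu) (m : I2) :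
    bas.repr (Tav f) m = (1 / 4 : ℂ) * ∑ s, bas.repr f (st s m) := by
  rw [Tav_apply, map_smul, map_sum]
  have h1 : ((1 / 4 : ℂ) • ∑ s, bas.repr (Uo s f)) m =
      (1 / 4 : ℂ) * ∑ s, bas.repr (Uo s f) m := by
    rw [lp.coeFn_smul, Pi.smul_apply, smul_eq_mul, lp.coeFn_sum, Finset.sum_apply]
  rw [h1]
  congr 1
  simp only [Uo_repr]
  rw [Fin.sum_univ_four, Fin.sum_univ_four]
  show bas.repr f (st 1 m) + bas.repr f (st 0 m) + bas.repr f (st 3 m) + bas.repr f (st 2 m) = _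
  ring

theorem norm_sq_repr (f : Lp ℂ 2 nu) :
    (Summable fun n => ‖bas.repr f n‖ ^ 2) ∧ ‖f‖ ^ 2 = ∑' n, ‖bas.repr f n‖ ^ 2 := by
  have h0 : 0 < (2 : ℝ≥0∞).toReal := by norm_num
  have h2 : (2 : ℝ≥0∞).toReal = ((2 : ℕ) : ℝ) := by norm_num
  have h1 := lp.norm_rpow_eq_tsum h0 (bas.repr f)
  have h3 := (lp.memℓp (bas.repr f)).summable h0
  rw [h2] at h1 h3
  simp only [Real.rpow_natCast] at h1 h3
  rw [LinearIsometryEquiv.norm_map] at h1
  exact ⟨h3, h1⟩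

theorem Tav_contract {f : Lp ℂ 2 nu} (hf : ⟪bas 0, f⟫_ℂ = 0) :
    ‖Tav f‖ ^ 2 ≤ 3 / 4 * ‖f‖ ^ 2 := by
  rw [(norm_sq_repr (Tav f)).2, (norm_sq_repr f).2]
  simp only [Tav_repr]
  refine schur_sum ?_ (norm_sq_repr f).1
  rw [bas.repr_apply_apply]
  exact hf

/-- projection onto the constants -/
def P0 : Lp ℂ 2 nu →L[ℂ] Lp ℂ 2 nu := r1 (bas 0) (bas 0)

theorem inner_bas : ⟪bas 0, bas 0⟫_ℂ = 1 := by
  have h := bas.orthonormal.1 0
  rw [inner_self_eq_norm_sq_to_K, h]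
  simp

theorem Tav_bas : Tav (bas 0) = bas 0 := by
  rw [Tav_apply]
  simp only [Uo_bas, st_zero]
  rw [Finset.sum_const, Finset.card_univ, Fintype.card_fin, ← Nat.cast_smul_eq_nsmul ℂ, smul_smul]
  norm_num

theorem inner_Tav (f : Lp ℂ 2 nu) : ⟪bas 0, Tav f⟫_ℂ = ⟪bas 0, f⟫_ℂ := by
  have h : ⟪Tav (bas 0), f⟫_ℂ = ⟪bas 0, Tav f⟫_ℂ := by
    conv_lhs => rw [← Tav_adj]
    exact ContinuousLinearMap.adjoint_inner_left _ _ _
  rw [← h, Tav_bas]

theorem T_mul_P : Tav * P0 = P0 := by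
  ext1 f
  show Tav (⟪bas 0, f⟫_ℂ • bas 0) = ⟪bas 0, f⟫_ℂ • bas 0
  rw [map_smul, Tav_bas]

theorem P_mul_T : P0 * Tav = P0 := by
  ext1 f
  show ⟪bas 0, Tav f⟫_ℂ • bas 0 = ⟪bas 0, f⟫_ℂ • bas 0
  rw [inner_Tav]

theorem P_mul_P : P0 * P0 = P0 := by
  ext1 f
  show ⟪bas 0, ⟪bas 0, f⟫_ℂ • bas 0⟫_ℂ • bas 0 = ⟪bas 0, f⟫_ℂ • bas 0
  rw [inner_smul_right, inner_bas, mul_one]

theorem norm_sub_P_le (f : Lp ℂ 2 nu) : ‖f - P0 f‖ ≤ ‖f‖ := by
  have h1 : ⟪P0 f, f - P0 f⟫_ℂ = 0 := by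
    show ⟪⟪bas 0, f⟫_ℂ • bas 0, f - ⟪bas 0, f⟫_ℂ • bas 0⟫_ℂ = 0
    rw [inner_smul_left, inner_sub_right, inner_smul_right, inner_bas, mul_one, sub_self, mul_zero]
  have h2 := norm_add_sq_eq_norm_sq_add_norm_sq_of_inner_eq_zero (P0 f) (f - P0 f) h1
  rw [add_sub_cancel] at h2
  nlinarith [norm_nonneg f, norm_nonneg (f - P0 f), norm_nonneg (P0 f)]

theorem norm_D_le : ‖Tav - P0‖ ≤ 9 / 10 := by
  refine ContinuousLinearMap.opNorm_le_bound _ (by norm_num) fun f => ?_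
  have h1 : (Tav - P0) f = Tav (f - P0 f) := by
    rw [map_sub]
    have : Tav (P0 f) = P0 f := DFunLike.congr_fun T_mul_P f
    rw [this]
    rfl
  have h2 : ⟪bas 0, f - P0 f⟫_ℂ = 0 := by
    show ⟪bas 0, f - ⟪bas 0, f⟫_ℂ • bas 0⟫_ℂ = 0
    rw [inner_sub_right, inner_smul_right, inner_bas, mul_one, sub_self]
  rw [h1]
  have h3 := Tav_contract h2
  have h4 := norm_sub_P_le f
  have h5 : ‖f - P0 f‖ ^ 2 ≤ ‖f‖ ^ 2 := pow_le_pow_left₀ (norm_nonneg _) h4 2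
  refine le_of_sq_le_sq ?_ (by positivity)
  nlinarith [sq_nonneg ‖f‖]

theorem D_pow (k : ℕ) : Tav ^ (k + 1) = P0 + (Tav - P0) ^ (k + 1) := by
  induction k with
  | zero => rw [zero_add, pow_one, pow_one]; abel
  | succ k ih =>
    have h1 : (Tav - P0) ^ (k + 1) * P0 = 0 := by
      rw [pow_succ, mul_assoc, sub_mul, T_mul_P, P_mul_P, sub_self, mul_zero]
    have h2 : P0 * (Tav - P0) = 0 := by rw [mul_sub, P_mul_T, P_mul_P, sub_self]
    have h3 : Tav = P0 + (Tav - P0) := by abel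
    rw [pow_succ, ih]
    nth_rewrite 2 [h3]
    rw [add_mul, mul_add, mul_add, P_mul_P, h2, h1, add_zero, zero_add, ← pow_succ]

theorem tendsto_P0 : Tendsto (fun k : ℕ => Tav ^ (k + 1)) atTop (𝓝 P0) := by
  rw [tendsto_iff_norm_sub_tendsto_zero]
  have h1 : Tendsto (fun k : ℕ => (9 / 10 : ℝ) ^ (k + 1)) atTop (𝓝 0) :=
    (tendsto_pow_atTop_nhds_zero_of_lt_one (by norm_num) (by norm_num)).comp (tendsto_add_atTop_nat 1)
  refine squeeze_zero (fun _ => norm_nonneg _) (fun k => ?_) h1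
  rw [D_pow, add_sub_cancel_left]
  exact (norm_pow_le' _ (Nat.succ_pos k)).trans (pow_le_pow_left₀ (norm_nonneg _) norm_D_le _)

end Q90.FE
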