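import Pool.Agent.Q90.FeTrans
import Pool.Agent.Q90.FeTorus
import Pool.Agent.Q90.FeCpt
import Pool.Agent.H359R3.MX10

set_option autoImplicit false

/-!
Compact operators in the Roe algebra of a standard measure space.
-/

open MeasureTheory Filter Topology
open scoped NNReal ENNReal InnerProductSpace

noncomputable section

namespace Q90.FE

variable {X : Type} [MeasurableSpace X] {μ : Measure X}

/-! ### indicator functions -/

/-- the indicator function -/
def ind {B : Set X} (hB : MeasurableSet B) (h : μ B ≠ ∞) : Lp ℂ 2 μ :=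
  indicatorConstLp 2 hB h (1 : ℂ)

theorem ind_ae {B : Set X} (hB : MeasurableSet B) (h : μ B ≠ ∞) :
    (ind hB h : X → ℂ) =ᵐ[μ] B.indicator fun _ => 1 := indicatorConstLp_coeFn

/-- finite positive measure sets -/
def Indic (μ : Measure X) (P : Set X → Prop) : Set (Lp ℂ 2 μ) :=
  {f | ∃ (B : Set X) (hB : MeasurableSet B) (h : μ B ≠ ∞), μ B ≠ 0 ∧ P B ∧ f = ind hB h}

theorem span_indic : closure (Submodule.span ℂ (Indic μ fun _ => True) : Set (Lp ℂ 2 μ)) =
    Set.univ := by
  rw [Set.eq_univ_iff_forall]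
  intro f
  refine Lp.induction (by norm_num) (motive := fun f =>
    f ∈ closure (Submodule.span ℂ (Indic μ fun _ => True) : Set (Lp ℂ 2 μ))) ?_ ?_ ?_ f
  · intro c s hs hμs
    refine subset_closure ?_
    have e : (Lp.simpleFunc.indicatorConst 2 hs hμs.ne c : Lp ℂ 2 μ) = c • ind hs hμs.ne := by
      rw [Lp.simpleFunc.coe_indicatorConst]
      refine Lp.ext ?_
      filter_upwards [Lp.coeFn_smul c (ind hs hμs.ne), ind_ae hs hμs.ne,
        indicatorConstLp_coeFn (p := 2) (hs := hs) (hμs := hμs.ne) (c := c)] with x h1 h2 h3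
      rw [h1, h3, Pi.smul_apply, h2]
      by_cases hx : x ∈ s
      · rw [Set.indicator_of_mem hx, Set.indicator_of_mem hx, smul_eq_mul, mul_one]
      · rw [Set.indicator_of_notMem hx, Set.indicator_of_notMem hx, smul_zero]
    rw [e]
    refine Submodule.smul_mem _ _ ?_
    by_cases h0 : μ s = 0
    · have : ind hs hμs.ne = 0 := by
        rw [Lp.eq_zero_iff_ae_eq_zero]
        refine (ind_ae hs hμs.ne).trans ?_
        have : ∀ᵐ x ∂μ, x ∉ s := measure_eq_zero_iff_ae_notMem.mp h0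
        filter_upwards [this] with x hx
        rw [Set.indicator_of_notMem hx]
        rfl
      rw [this]
      exact Submodule.zero_mem _
    · exact Submodule.subset_span ⟨s, hs, hμs.ne, h0, trivial, rfl⟩
  · intro f g hf hg _ h1 h2
    exact (Submodule.span ℂ (Indic μ fun _ => True)).topologicalClosure.add_mem h1 h2
  · exact isClosed_closure

/-! ### the isomorphism -/

theorem infinite_circle : Infinite UnitAddCircle := by
  have : Infinite (Set.Ioc (0 : ℝ) (0 + 1)) := Set.infinite_coe_iff.mpr (Set.Ioc_infinite (by norm_num))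
  refine Infinite.of_injective (fun x : Set.Ioc (0 : ℝ) (0 + 1) => ((x : ℝ) : UnitAddCircle)) ?_
  exact (AddCircle.equivIoc (1 : ℝ) 0).symm.injective

theorem null_haar : NullSingletonClass (AddCircle.haarAddCircle (T := (1 : ℝ))) := by
  refine ⟨fun x => ?_⟩
  set κ : Measure UnitAddCircle := AddCircle.haarAddCircle with hκ
  have h1 : ∀ y : UnitAddCircle, κ {y} = κ {x} := by
    intro y
    have h2 := measure_preimage_add κ (x - y) {x}
    have h3 : (fun z => x - y + z) ⁻¹' {x} = {y} := by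
      ext z
      simp only [Set.mem_preimage, Set.mem_singleton_iff]
      constructor
      · intro h
        have : z = x - (x - y) := eq_sub_of_add_eq' h
        rw [this]; abel
      · rintro rfl; abel
    rw [h3] at h2
    exact h2
  by_contra hne
  have := infinite_circle
  obtain ⟨n, hn⟩ := ENNReal.exists_nat_mul_gt hne ENNReal.one_ne_top
  obtain ⟨s, hs⟩ := Infinite.exists_subset_card_eq UnitAddCircle n
  have h4 : κ (s : Set UnitAddCircle) = n * κ {x} := by
    rw [← sum_measure_singleton]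
    rw [Finset.sum_congr rfl fun y _ => h1 y, Finset.sum_const, hs, nsmul_eq_mul]
  have h5 : κ (s : Set UnitAddCircle) ≤ 1 := prob_le_one
  rw [h4] at h5
  exact absurd h5 (not_le.mpr hn)

instance : NullSingletonClass nu := by
  have := null_haar
  unfold nu
  infer_instance

theorem exists_e [StandardBorelSpace X] {B : Set X} (h0 : μ B ≠ 0)
    (h1 : μ B ≠ ∞) (hat : ∀ x ∈ B, μ {x} = 0) :
    ∃ e : X ≃ᵐ ℝ, MeasurePreserving e ((μ B)⁻¹ • μ.restrict B)
      (volume.restrict (Set.Icc (0 : ℝ) 1)) := by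
  have hp : IsProbabilityMeasure ((μ B)⁻¹ • μ.restrict B) := by
    refine ⟨?_⟩
    rw [Measure.smul_apply, Measure.restrict_apply_univ, smul_eq_mul, ENNReal.inv_mul_cancel h0 h1]
  have hn : NullSingletonClass ((μ B)⁻¹ • μ.restrict B) := by
    refine ⟨fun x => ?_⟩
    rw [Measure.smul_apply, Measure.restrict_apply (measurableSet_singleton x)]
    by_cases hx : x ∈ B
    · rw [measure_mono_null Set.inter_subset_left (hat x hx), smul_zero]
    · have : ({x} ∩ B : Set X) = ∅ := by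
        ext y
        simp only [Set.mem_inter_iff, Set.mem_singleton_iff, Set.mem_empty_iff_false, iff_false]
        rintro ⟨rfl, hy⟩
        exact hx hy
      rw [this, measure_empty, smul_zero]
  exact Pool.H359R3.MX.exists_iso ((μ B)⁻¹ • μ.restrict B)

theorem restrict_eq {B : Set X} (h0 : μ B ≠ 0) (h1 : μ B ≠ ∞) :
    μ.restrict B = μ B • ((μ B)⁻¹ • μ.restrict B) := by
  rw [smul_smul, ENNReal.mul_inv_cancel h0 h1, one_smul]

theorem exists_theta [StandardBorelSpace X] {B : Set X} (h0 : μ B ≠ 0)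
    (h1 : μ B ≠ ∞) (hat : ∀ x ∈ B, μ {x} = 0) :
    ∃ θ : X ≃ᵐ Tor, MeasurePreserving θ (μ.restrict B) (μ B • nu) := by
  obtain ⟨e, he⟩ := exists_e h0 h1 hat
  obtain ⟨e', he'⟩ := Pool.H359R3.MX.exists_iso nu
  have h2 : MeasurePreserving (e.trans e'.symm) ((μ B)⁻¹ • μ.restrict B) nu :=
    he.trans (MeasurePreserving.symm e' he')
  refine ⟨e.trans e'.symm, (e.trans e'.symm).measurable, ?_⟩
  rw [restrict_eq h0 h1, Measure.map_smul, h2.map_eq]

/-! ### rank one operators of indicator functions -/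

theorem bas_zero_ae : (bas 0 : Tor → ℂ) =ᵐ[nu] fun _ => 1 := by
  refine (bas_ae 0).trans ?_
  rw [UnitAddTorus.mFourier_zero]
  exact EventuallyEq.rfl

theorem Jop_bas {B : Set X} (hB : MeasurableSet B) (h1 : μ B ≠ ∞) {θ : X ≃ᵐ Tor}
    (hθ : MeasurePreserving θ (μ.restrict B) (μ B • nu)) : Jop hB h1 hθ (bas 0) = ind hB h1 := by
  refine Lp.ext ((Jop_ae hB h1 hθ (bas 0)).trans (EventuallyEq.trans ?_ (ind_ae hB h1).symm))
  have h2 : (bas 0 : Tor → ℂ) ∘ θ =ᵐ[μ.restrict B] fun _ => 1 :=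
    hθ.quasiMeasurePreserving.ae_eq_comp (Measure.ae_smul_measure bas_zero_ae (μ B))
  rw [Filter.EventuallyEq, ae_restrict_iff' hB] at h2
  filter_upwards [h2] with x hx
  by_cases hxB : x ∈ B
  · rw [Set.indicator_of_mem hxB, Set.indicator_of_mem hxB]
    exact hx hxB
  · rw [Set.indicator_of_notMem hxB, Set.indicator_of_notMem hxB]

theorem r1_ind_mem [StandardBorelSpace X] {B C : Set X} (hB : MeasurableSet B) (hB0 : μ B ≠ 0)
    (hB1 : μ B ≠ ∞) (hBa : ∀ x ∈ B, μ {x} = 0) (hC : MeasurableSet C) (hC0 : μ C ≠ 0)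
    (hC1 : μ C ≠ ∞) (hCa : ∀ x ∈ C, μ {x} = 0) : r1 (ind hB hB1) (ind hC hC1) ∈ Roe μ := by
  obtain ⟨θ, hθ⟩ := exists_theta hB0 hB1 hBa
  obtain ⟨η, hη⟩ := exists_theta hC0 hC1 hCa
  set JB := Jop hB hB1 hθ with hJB
  set JC := Jop hC hC1 hη with hJC
  have h1 : Tendsto (fun k : ℕ => JB.comp ((Tav ^ (k + 1)).comp (ContinuousLinearMap.adjoint JC)))
      atTop (𝓝 (JB.comp (P0.comp (ContinuousLinearMap.adjoint JC)))) := by
    have hc : Continuous fun a : Lp ℂ 2 nu →L[ℂ] Lp ℂ 2 nu =>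
        JB.comp (a.comp (ContinuousLinearMap.adjoint JC)) := by fun_prop
    exact (hc.tendsto P0).comp tendsto_P0
  have h2 : JB.comp (P0.comp (ContinuousLinearMap.adjoint JC)) = r1 (ind hB hB1) (ind hC hC1) := by
    ext1 ξ
    show JB (⟪bas 0, ContinuousLinearMap.adjoint JC ξ⟫_ℂ • bas 0) = _
    rw [ContinuousLinearMap.adjoint_inner_right, map_smul, hJB, hJC, Jop_bas, Jop_bas]
    rfl
  rw [← h2]
  refine roe_of_tendsto (fun k => ?_) h1
  have eB := Jop_ex hB hB1 hθ
  have eC := Jop_ex hC hC1 hη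
  have eB' := Jop_adj_ex hB hB1 hθ hB0
  have eC' := Jop_adj_ex hC hC1 hη hC0
  have eT := Tav_ex.pow (k + 1)
  have adj : ContinuousLinearMap.adjoint
      (JB.comp ((Tav ^ (k + 1)).comp (ContinuousLinearMap.adjoint JC))) =
      JC.comp ((Tav ^ (k + 1)).comp (ContinuousLinearMap.adjoint JB)) := by
    rw [ContinuousLinearMap.adjoint_comp, ContinuousLinearMap.adjoint_comp,
      ContinuousLinearMap.adjoint_adjoint, Tav_pow_adj]
    rfl
  refine mem_roe (c := μ B * (4 ^ (k + 1) * (μ C)⁻¹)) (d := μ C * (4 ^ (k + 1) * (μ B)⁻¹)) ?_ ?_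
    (eB.comp (eT.comp eC')) ?_
  · exact ENNReal.mul_ne_top hB1 (ENNReal.mul_ne_top (by simp) (by simpa using hC0))
  · exact ENNReal.mul_ne_top hC1 (ENNReal.mul_ne_top (by simp) (by simpa using hB0))
  · rw [adj]
    exact eC.comp (eT.comp eB')

/-- atomless spaces -/
theorem atomless_mem [StandardBorelSpace X] (hat : ∀ x : X, μ {x} = 0)
    {K : Lp ℂ 2 μ →L[ℂ] Lp ℂ 2 μ} (hK : IsCompactOperator K) : K ∈ Roe μ := by
  refine compact_mem (S := RoeS μ) roe_closed ?_ hK
  refine r1_mem (S := RoeS μ) roe_closed span_indic ?_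
  rintro _ ⟨B, hB, hB1, hB0, _, rfl⟩ _ ⟨C, hC, hC1, hC0, _, rfl⟩
  exact r1_ind_mem hB hB0 hB1 (fun x _ => hat x) hC hC0 hC1 fun x _ => hat x

end Q90.FE
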