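import Mathlib

set_option autoImplicit false

/-!
# Operators of bounded support expansion on `L₂(X, μ)`
-/

open MeasureTheory
open scoped NNReal

noncomputable section

namespace Q90.FE

variable {X : Type} [MeasurableSpace X]

/-- The Hilbert space `L₂(X, μ)`. It is Mathlib's `Lp ℂ 2 μ`, with its structure. -/
def L2 (μ : Measure X) : Type := Lp ℂ 2 μ

instance (μ : Measure X) : NormedAddCommGroup (L2 μ) :=
  (inferInstance : NormedAddCommGroup (Lp ℂ 2 μ))

instance (μ : Measure X) : InnerProductSpace ℂ (L2 μ) :=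
  (inferInstance : InnerProductSpace ℂ (Lp ℂ 2 μ))

instance (μ : Measure X) : CompleteSpace (L2 μ) :=
  (inferInstance : CompleteSpace (Lp ℂ 2 μ))

/-- A representing function of an element of `L₂(X, μ)`. -/
def L2.fn {μ : Measure X} (ξ : L2 μ) : X → ℂ := AEEqFun.cast (Subtype.val (show Lp ℂ 2 μ from ξ))

/-- The measure of the support of an element of `L₂(X, μ)`. -/
def msupp {μ : Measure X} (ξ : L2 μ) : ENNReal := μ (Function.support ξ.fn)

/-- The bounded operators on `L₂(X, μ)`. -/
abbrev Op (μ : Measure X) : Type := L2 μ →L[ℂ] L2 μ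

/-- The value `a ξ`. -/
def app {μ : Measure X} (a : Op μ) (ξ : L2 μ) : L2 μ := a ξ

/-- The inner product of `L₂(X, μ)`. -/
def ip {μ : Measure X} (ξ η : L2 μ) : ℂ := inner ℂ ξ η

/-- `b` is the adjoint of `a`. -/
def IsAdjointOf {μ : Measure X} (b a : Op μ) : Prop :=
  ∀ ξ η : L2 μ, ip (app b ξ) η = ip ξ (app a η)

/-- The operator `a` on `L₂(X, μ)` has support expansion at most `lam`: the supports of `a ξ` and
of `a* ξ` have measure at most `lam` times the measure of the support of `ξ`. -/
def SupportExpansion {μ : Measure X} (lam : ℝ≥0) (a : Op μ) : Prop :=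
  ∃ b : Op μ, IsAdjointOf b a ∧
    ∀ ξ : L2 μ, msupp (app a ξ) ≤ lam * msupp ξ ∧ msupp (app b ξ) ≤ lam * msupp ξ

/-- The quantum uniform Roe algebra `C*_u(X, V_μ)`: the norm closure of the set of operators with
support expansion at most `lam` for some `lam`. -/
def RoeAlgebra (μ : Measure X) : Set (Op μ) := closure {a | ∃ lam : ℝ≥0, SupportExpansion lam a}

/-- `K` is a compact operator. -/
def IsCompactOp {μ : Measure X} (K : Op μ) : Prop := IsCompactOperator (K : L2 μ → L2 μ)

/-- Q1: `C*_u(X, V_μ)` contains a nonzero compact operator. -/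
def HasNonzeroCompact (μ : Measure X) : Prop :=
  ∃ K : Op μ, IsCompactOp K ∧ K ≠ 0 ∧ K ∈ RoeAlgebra μ

/-- Q2: `C*_u(X, V_μ)` contains every compact operator on `L₂(X, μ)`. -/
def HasAllCompact (μ : Measure X) : Prop :=
  ∀ K : Op μ, IsCompactOp K → K ∈ RoeAlgebra μ

end Q90.FE
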