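import Pool.Agent.Q90.FeBasic

set_option autoImplicit false

/-!
Transfer of `L²` along an isomorphism of a measure space with a piece of another one.
-/

open MeasureTheory Filter Topology
open scoped NNReal ENNReal InnerProductSpace

noncomputable section

namespace Q90.FE

variable {X Y : Type} [MeasurableSpace X] [MeasurableSpace Y] {μ : Measure X} {ν : Measure Y}
  {B : Set X} {m : ℝ≥0∞} {θ : X ≃ᵐ Y}

section

variable (hB : MeasurableSet B) (hm : m ≠ ∞) (hθ : MeasurePreserving θ (μ.restrict B) (m • ν))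

include hB hθ

theorem J_eLpNorm (h : Lp ℂ 2 ν) :
    eLpNorm (B.indicator (h ∘ θ)) 2 μ = m ^ (1 / 2 : ℝ) * eLpNorm h 2 ν := by
  rw [eLpNorm_indicator_eq_eLpNorm_restrict hB]
  have h1 : AEStronglyMeasurable (h : Y → ℂ) (m • ν) := (Lp.aestronglyMeasurable h).smul_measure m
  rw [eLpNorm_comp_measurePreserving h1 hθ,
    eLpNorm_smul_measure_of_ne_top (by norm_num) _ m]
  simp

include hm

theorem J_memLp (h : Lp ℂ 2 ν) : MemLp (B.indicator (h ∘ θ)) 2 μ := by
  refine ⟨?_, ?_⟩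
  · have h1 : StronglyMeasurable (h : Y → ℂ) := Lp.stronglyMeasurable h
    exact ((h1.comp_measurable θ.measurable).indicator hB).aestronglyMeasurable
  · rw [J_eLpNorm hB hθ]
    exact ENNReal.mul_lt_top (ENNReal.rpow_lt_top_of_nonneg (by norm_num) hm)
      (Lp.memLp h).eLpNorm_lt_top

/-- composition with the isomorphism, extended by zero -/
def Jop : Lp ℂ 2 ν →L[ℂ] Lp ℂ 2 μ :=
  LinearMap.mkContinuous
    { toFun := fun h => (J_memLp hB hm hθ h).toLp
      map_add' := by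
        intro f g
        rw [← MemLp.toLp_add]
        refine MemLp.toLp_congr _ _ ?_
        have h1 : ((f + g : Lp ℂ 2 ν) : Y → ℂ) ∘ θ =ᵐ[μ.restrict B] (f + g : Y → ℂ) ∘ θ := by
          have h2 : ((f + g : Lp ℂ 2 ν) : Y → ℂ) =ᵐ[m • ν] (f + g : Y → ℂ) :=
            Measure.ae_smul_measure (Lp.coeFn_add f g) m
          exact hθ.quasiMeasurePreserving.ae_eq_comp h2
        rw [Filter.EventuallyEq, ae_restrict_iff' hB] at h1
        filter_upwards [h1] with x hx
        by_cases hxB : x ∈ B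
        · simp only [Pi.add_apply, Set.indicator_of_mem hxB]
          exact hx hxB
        · simp only [Pi.add_apply, Set.indicator_of_notMem hxB, add_zero]
      map_smul' := by
        intro c f
        rw [RingHom.id_apply, ← MemLp.toLp_const_smul]
        refine MemLp.toLp_congr _ _ ?_
        have h1 : ((c • f : Lp ℂ 2 ν) : Y → ℂ) ∘ θ =ᵐ[μ.restrict B] (c • (f : Y → ℂ)) ∘ θ := by
          have h2 : ((c • f : Lp ℂ 2 ν) : Y → ℂ) =ᵐ[m • ν] (c • (f : Y → ℂ)) :=
            Measure.ae_smul_measure (Lp.coeFn_smul c f) m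
          exact hθ.quasiMeasurePreserving.ae_eq_comp h2
        rw [Filter.EventuallyEq, ae_restrict_iff' hB] at h1
        filter_upwards [h1] with x hx
        by_cases hxB : x ∈ B
        · simp only [Pi.smul_apply, Set.indicator_of_mem hxB]
          exact hx hxB
        · simp only [Pi.smul_apply, Set.indicator_of_notMem hxB, smul_zero] }
    (m ^ (1 / 2 : ℝ)).toReal (by
      intro h
      show ‖(J_memLp hB hm hθ h).toLp‖ ≤ _
      rw [Lp.norm_toLp, J_eLpNorm hB hθ, ENNReal.toReal_mul, Lp.norm_def])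

theorem Jop_ae (h : Lp ℂ 2 ν) : (Jop hB hm hθ h : X → ℂ) =ᵐ[μ] B.indicator (h ∘ θ) :=
  MemLp.coeFn_toLp (J_memLp hB hm hθ h)

theorem Jop_ex : Ex m (Jop hB hm hθ) := by
  intro h
  rw [supp_congr (Jop_ae hB hm hθ h)]
  have e : Function.support (B.indicator (h ∘ θ)) = θ ⁻¹' (Function.support (h : Y → ℂ)) ∩ B := by
    rw [Set.support_indicator, Set.inter_comm]
    rfl
  have hms : MeasurableSet (Function.support (h : Y → ℂ)) :=
    (Lp.stronglyMeasurable h).measurable measurableSet_eq.compl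
  rw [e, ← Measure.restrict_apply (θ.measurable hms),
    hθ.measure_preimage hms.nullMeasurableSet, Measure.smul_apply, smul_eq_mul]

omit hB in
theorem K_memLp (hm0 : m ≠ 0) (ξ : Lp ℂ 2 μ) : MemLp ((ξ : X → ℂ) ∘ θ.symm) 2 ν := by
  have h1 : MemLp (ξ : X → ℂ) 2 (μ.restrict B) := (Lp.memLp ξ).restrict B
  have h2 : MeasurePreserving θ.symm (m • ν) (μ.restrict B) := hθ.symm
  have h3 : MemLp ((ξ : X → ℂ) ∘ θ.symm) 2 (m • ν) := h1.comp_measurePreserving h2
  refine h3.of_measure_le_smul (c := m⁻¹) (by simpa using hm0) ?_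
  rw [smul_smul, ENNReal.inv_mul_cancel hm0 hm, one_smul]

theorem Jop_adj (hm0 : m ≠ 0) (ξ : Lp ℂ 2 μ) :
    ContinuousLinearMap.adjoint (Jop hB hm hθ) ξ =
      ((m.toReal : ℝ) : ℂ) • (K_memLp hm hθ hm0 ξ).toLp := by
  refine ext_inner_left ℂ fun h => ?_
  rw [ContinuousLinearMap.adjoint_inner_right, inner_smul_right, L2.inner_def, L2.inner_def]
  have e1 : ∫ x, ⟪(Jop hB hm hθ h : X → ℂ) x, (ξ : X → ℂ) x⟫_ℂ ∂μ =
      ∫ x, B.indicator (fun x => ⟪(h : Y → ℂ) (θ x), (ξ : X → ℂ) (θ.symm (θ x))⟫_ℂ) x ∂μ := by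
    refine integral_congr_ae ?_
    filter_upwards [Jop_ae hB hm hθ h] with x hx
    rw [hx]
    by_cases hxB : x ∈ B
    · rw [Set.indicator_of_mem hxB, Set.indicator_of_mem hxB, θ.symm_apply_apply]
      rfl
    · rw [Set.indicator_of_notMem hxB, Set.indicator_of_notMem hxB, inner_zero_left]
  have e2 : ∫ y, ⟪(h : Y → ℂ) y, ((K_memLp hm hθ hm0 ξ).toLp : Y → ℂ) y⟫_ℂ ∂ν =
      ∫ y, ⟪(h : Y → ℂ) y, (ξ : X → ℂ) (θ.symm y)⟫_ℂ ∂ν := by
    refine integral_congr_ae ?_
    filter_upwards [MemLp.coeFn_toLp (K_memLp hm hθ hm0 ξ)] with y hy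
    rw [hy]
    rfl
  rw [e1, e2, integral_indicator hB]
  have e3 := hθ.integral_comp θ.measurableEmbedding
    (fun y => ⟪(h : Y → ℂ) y, (ξ : X → ℂ) (θ.symm y)⟫_ℂ)
  rw [e3, integral_smul_measure]
  exact (Complex.real_smul).trans rfl

theorem Jop_adj_ex (hm0 : m ≠ 0) : Ex m⁻¹ (ContinuousLinearMap.adjoint (Jop hB hm hθ)) := by
  intro ξ
  rw [Jop_adj hB hm hθ hm0]
  refine (supp_smul _ _).trans ?_
  rw [supp_congr (MemLp.coeFn_toLp (K_memLp hm hθ hm0 ξ))]
  have hms : MeasurableSet (Function.support (ξ : X → ℂ)) :=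
    (Lp.stronglyMeasurable ξ).measurable measurableSet_eq.compl
  have e : Function.support ((ξ : X → ℂ) ∘ θ.symm) = θ.symm ⁻¹' (Function.support (ξ : X → ℂ)) := rfl
  have h2 : MeasurePreserving θ.symm (m • ν) (μ.restrict B) := hθ.symm
  have h3 := h2.measure_preimage hms.nullMeasurableSet
  rw [Measure.smul_apply, smul_eq_mul] at h3
  have h4 : ν (θ.symm ⁻¹' (Function.support (ξ : X → ℂ))) =
      m⁻¹ * (m * ν (θ.symm ⁻¹' (Function.support (ξ : X → ℂ)))) := by
    rw [← mul_assoc, ENNReal.inv_mul_cancel hm0 hm, one_mul]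
  rw [e, h4, h3]
  exact mul_le_mul_right (Measure.restrict_apply_le _ _) _

end

end Q90.FE
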