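import Mathlib

/-!
# Hilbert C*-modules, ternary subspaces and reduced linking algebras
-/

set_option autoImplicit false

namespace Q90

/-- The structure of a right Hilbert C*-module over the C*-algebra `B` (with its usual order) on the
complex Banach space `E`: a right action `x b` (written `act x b`) and a `B`-valued inner product
`⟨x, y⟩` (written `inner x y`), linear in the second variable. -/
structure HilbertModule (B E : Type*) [NonUnitalCStarAlgebra B] [PartialOrder B] [StarOrderedRing B]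
    [NormedAddCommGroup E] [NormedSpace ℂ E] where
  /-- the right action `x b` -/
  act : E → B → E
  /-- the inner product `⟨x, y⟩` -/
  inner : E → E → B
  add_act : ∀ x y b, act (x + y) b = act x b + act y b
  act_add : ∀ x b c, act x (b + c) = act x b + act x c
  smul_act : ∀ (t : ℂ) x b, act (t • x) b = t • act x b
  act_smul : ∀ (t : ℂ) x b, act x (t • b) = t • act x b
  act_mul : ∀ x b c, act x (b * c) = act (act x b) c
  inner_add : ∀ x y z, inner x (y + z) = inner x y + inner x z
  inner_smul : ∀ (t : ℂ) x y, inner x (t • y) = t • inner x y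
  inner_act : ∀ x y b, inner x (act y b) = inner x y * b
  star_inner : ∀ x y, star (inner x y) = inner y x
  inner_self_nonneg : ∀ x, 0 ≤ inner x x
  norm_sq : ∀ x, ‖x‖ ^ 2 = ‖inner x x‖

namespace HilbertModule

variable {B E : Type*} [NonUnitalCStarAlgebra B] [PartialOrder B] [StarOrderedRing B]
  [NormedAddCommGroup E] [NormedSpace ℂ E] (H : HilbertModule B E)

/-- `F` is a closed ternary subspace of `E`: norm-closed, with `x⟨y, z⟩ ∈ F` for `x, y, z ∈ F`. -/
def IsTernary (F : Submodule ℂ E) : Prop :=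
  IsClosed (F : Set E) ∧ ∀ x ∈ F, ∀ y ∈ F, ∀ z ∈ F, H.act x (H.inner y z) ∈ F

/-- `F` is ternary hereditary in `E`: `x⟨y, z⟩ ∈ F` for all `x, z ∈ F` and `y ∈ E`. -/
def IsTernaryHereditary (F : Submodule ℂ E) : Prop :=
  ∀ x ∈ F, ∀ y : E, ∀ z ∈ F, H.act x (H.inner y z) ∈ F

/-- `B_F`: the closed linear span of the inner products `⟨x, y⟩`, `x, y ∈ F`, in `B`. -/
noncomputable def coeff (F : Submodule ℂ E) : Submodule ℂ B :=
  (Submodule.span ℂ {b : B | ∃ x ∈ F, ∃ y ∈ F, b = H.inner x y}).topologicalClosure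

/-- `K(F)`: the closed linear span, in the bounded operators on `E`, of the operators
`x y* : z ↦ x⟨y, z⟩` with `x, y ∈ F`. -/
noncomputable def compacts (F : Submodule ℂ E) : Submodule ℂ (E →L[ℂ] E) :=
  (Submodule.span ℂ {T : E →L[ℂ] E | ∃ x ∈ F, ∃ y ∈ F, ∀ z, T z = H.act x (H.inner y z)}).topologicalClosure

/-- The reduced linking algebra `L_F`, as a set of operators on `B_E ⊕ E` (where `B_E` is
`H.coeff ⊤`): all operators given by matrices `(b, x*; y, k)` with `b ∈ B_F`, `x, y ∈ F` and
`k ∈ K(F)`, that is `(c, z) ↦ (b c + ⟨x, z⟩, y c + k z)`. For `F = E` (`F = ⊤`) this is the reduced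
linking algebra of `E`. -/
def linking (F : Submodule ℂ E) : Set (Module.End ℂ (H.coeff ⊤ × E)) :=
  {T | ∃ b ∈ H.coeff F, ∃ x ∈ F, ∃ y ∈ F, ∃ k ∈ H.compacts F, ∀ (c : H.coeff ⊤) (z : E),
    ((T (c, z)).1 : B) = b * c + H.inner x z ∧ (T (c, z)).2 = H.act y c + k z}

/-- `F` is linking hereditary in `E`: `L_F L_E L_F ⊆ L_F`. -/
def IsLinkingHereditary (F : Submodule ℂ E) : Prop :=
  ∀ R ∈ H.linking F, ∀ S ∈ H.linking ⊤, ∀ T ∈ H.linking F, R * S * T ∈ H.linking F

end HilbertModule

end Q90
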