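import Mathlib
import Pool.Agent.Q90.HilbModDefs

/-!
Ternary hereditary implies linking hereditary.
-/

set_option autoImplicit false

open Filter Topology

namespace Q90.HilbertModule

variable {B E : Type*} [NonUnitalCStarAlgebra B] [PartialOrder B] [StarOrderedRing B]
  [NormedAddCommGroup E] [NormedSpace ℂ E] (H : HilbertModule B E)

/-- induction for the closed span -/
theorem cs_ind {V : Type*} [NormedAddCommGroup V] [NormedSpace ℂ V] {s : Set V} {P : V → Prop}
    (h1 : ∀ v ∈ s, P v) (h0 : P 0) (hadd : ∀ x y, P x → P y → P (x + y))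
    (hsmul : ∀ (c : ℂ) x, P x → P (c • x)) (hcl : IsClosed {v | P v}) :
    ∀ v ∈ (Submodule.span ℂ s).topologicalClosure, P v := by
  let N : Submodule ℂ V :=
    { carrier := {v | P v}
      zero_mem' := h0
      add_mem' := fun {x y} hx hy => hadd x y hx hy
      smul_mem' := fun c x hx => hsmul c x hx }
  have h2 : Submodule.span ℂ s ≤ N := Submodule.span_le.2 h1
  intro v hv
  exact Submodule.topologicalClosure_minimal _ h2 hcl hv

theorem inner_add_left (x y z : E) : H.inner (x + y) z = H.inner x z + H.inner y z := by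
  rw [← H.star_inner, H.inner_add, star_add, H.star_inner, H.star_inner]

theorem inner_smul_left (t : ℂ) (x y : E) : H.inner (t • x) y = star t • H.inner x y := by
  rw [← H.star_inner, H.inner_smul, star_smul, H.star_inner]

theorem inner_act_left (x y : E) (b : B) : H.inner (H.act x b) y = star b * H.inner x y := by
  rw [← H.star_inner, H.inner_act, star_mul, H.star_inner]

theorem inner_zero (x : E) : H.inner x 0 = 0 := by
  have := H.inner_smul 0 x 0
  rwa [zero_smul, zero_smul] at this

theorem inner_zero_left (x : E) : H.inner 0 x = 0 := by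
  rw [← H.star_inner, inner_zero, star_zero]

theorem act_zero (x : E) : H.act x 0 = 0 := by
  have := H.act_smul 0 x 0
  rwa [zero_smul, zero_smul] at this

theorem zero_act (b : B) : H.act 0 b = 0 := by
  have := H.smul_act 0 0 b
  rwa [zero_smul, zero_smul] at this

theorem inner_neg (x y : E) : H.inner x (-y) = -H.inner x y := by
  have := H.inner_smul (-1) x y
  rwa [neg_one_smul, neg_one_smul] at this

theorem inner_sub (x y z : E) : H.inner x (y - z) = H.inner x y - H.inner x z := by
  rw [sub_eq_add_neg, H.inner_add, inner_neg, ← sub_eq_add_neg]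

theorem inner_sub_left (x y z : E) : H.inner (x - y) z = H.inner x z - H.inner y z := by
  rw [← H.star_inner, inner_sub, star_sub, H.star_inner, H.star_inner]

/-- Cauchy–Schwarz -/
theorem norm_inner_le (x y : E) : ‖H.inner x y‖ ≤ ‖x‖ * ‖y‖ := by
  rcases eq_or_ne x 0 with h | h
  · subst h
    rw [inner_zero_left, norm_zero, norm_zero, zero_mul]
  have hx : 0 < ‖x‖ := norm_pos_iff.2 h
  set a := H.inner x y with ha
  set t : ℝ := ‖x‖ ^ 2 with ht
  have ht0 : 0 < t := by positivity
  have h1 : (0 : B) ≤ H.inner (H.act x a - (t : ℂ) • y) (H.act x a - (t : ℂ) • y) :=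
    H.inner_self_nonneg _
  have h2 : H.inner (H.act x a - (t : ℂ) • y) (H.act x a - (t : ℂ) • y) =
      star a * H.inner x x * a - t • (star a * a) - t • (star a * a) + t • (t • H.inner y y) := by
    rw [inner_sub, inner_sub_left, inner_sub_left, inner_act_left, inner_act_left, H.inner_act,
      inner_smul_left, inner_smul_left, H.inner_act, H.inner_smul, H.inner_smul, ← ha]
    have e1 : H.inner y x = star a := by rw [ha, H.star_inner]
    have e2 : star (t : ℂ) = (t : ℂ) := Complex.conj_ofReal t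
    rw [e1, e2, mul_smul_comm]
    have e3 : ∀ b : B, (t : ℂ) • b = t • b := fun b => Complex.coe_smul t b
    simp only [e3]
    rw [← mul_assoc]
    abel
  have h3 : star a * H.inner x x * a ≤ t • (star a * a) := by
    have := CStarAlgebra.star_left_conjugate_le_norm_smul (a := a) (b := H.inner x x)
      (IsSelfAdjoint.of_nonneg (H.inner_self_nonneg x))
    rwa [← H.norm_sq] at this
  have h4 : t • (star a * a) ≤ t • (t • H.inner y y) := by
    rw [h2] at h1
    have h5 : t • (star a * a) = star a * H.inner x x * a - (star a * H.inner x x * a - t • (star a * a)) := by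
      abel
    have h6 : 0 ≤ t • (star a * a) - t • (star a * a) - t • (star a * a) + t • (t • H.inner y y) :=
      h1.trans (by gcongr)
    have h7 : 0 ≤ t • (t • H.inner y y) - t • (star a * a) := by
      have e : t • (star a * a) - t • (star a * a) - t • (star a * a) + t • (t • H.inner y y) =
        t • (t • H.inner y y) - t • (star a * a) := by abel
      rwa [e] at h6
    exact sub_nonneg.1 h7
  have h5 : star a * a ≤ t • H.inner y y := by
    rwa [smul_le_smul_iff_of_pos_left ht0] at h4
  have h6 : ‖a‖ ^ 2 ≤ (‖x‖ * ‖y‖) ^ 2 := by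
    calc ‖a‖ ^ 2 = ‖star a * a‖ := by rw [CStarRing.norm_star_mul_self, pow_two]
      _ ≤ ‖t • H.inner y y‖ :=
        CStarAlgebra.norm_le_norm_of_nonneg_of_le (star_mul_self_nonneg a) h5
      _ = (‖x‖ * ‖y‖) ^ 2 := by
        rw [norm_smul, ← H.norm_sq, Real.norm_eq_abs, abs_of_pos ht0, ht, mul_pow]
  exact le_of_sq_le_sq h6 (by positivity)

theorem norm_act_le (x : E) (b : B) : ‖H.act x b‖ ≤ ‖x‖ * ‖b‖ := by
  have h1 : ‖H.act x b‖ ^ 2 ≤ (‖x‖ * ‖b‖) ^ 2 := by
    rw [H.norm_sq, inner_act_left, H.inner_act]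
    calc ‖star b * (H.inner x x * b)‖ ≤ ‖star b‖ * (‖H.inner x x‖ * ‖b‖) :=
          (norm_mul_le _ _).trans (mul_le_mul_of_nonneg_left (norm_mul_le _ _) (norm_nonneg _))
      _ = (‖x‖ * ‖b‖) ^ 2 := by
        rw [norm_star, ← H.norm_sq]
        ring
  exact le_of_sq_le_sq h1 (by positivity)

/-- the bounded operator `⟨x, ·⟩` -/
noncomputable def innerCLM (x : E) : E →L[ℂ] B :=
  LinearMap.mkContinuous
    ({ toFun := fun z => H.inner x z
       map_add' := H.inner_add x
       map_smul' := fun c z => H.inner_smul c x z } : E →ₗ[ℂ] B) ‖x‖ (H.norm_inner_le x)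

theorem innerCLM_apply (x z : E) : H.innerCLM x z = H.inner x z := rfl

/-! ### continuity -/

theorem continuous_inner_right (x : E) : Continuous fun y => H.inner x y := by
  let φ : E →ₗ[ℂ] B :=
    { toFun := fun y => H.inner x y, map_add' := H.inner_add x, map_smul' := fun c y => H.inner_smul c x y }
  exact (φ.mkContinuous ‖x‖ (H.norm_inner_le x)).continuous

theorem continuous_inner_left (y : E) : Continuous fun x => H.inner x y := by
  have : (fun x => H.inner x y) = fun x => star (H.inner y x) := by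
    funext x
    rw [H.star_inner]
  rw [this]
  exact continuous_star.comp (H.continuous_inner_right y)

theorem continuous_act_right (x : E) : Continuous fun b => H.act x b := by
  let φ : B →ₗ[ℂ] E :=
    { toFun := fun b => H.act x b, map_add' := H.act_add x, map_smul' := fun c y => H.act_smul c x y }
  exact (φ.mkContinuous ‖x‖ (H.norm_act_le x)).continuous

theorem continuous_act_left (b : B) : Continuous fun x => H.act x b := by
  let φ : E →ₗ[ℂ] E :=
    { toFun := fun x => H.act x b, map_add' := fun x y => H.add_act x y b,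
      map_smul' := fun c y => H.smul_act c y b }
  exact (φ.mkContinuous ‖b‖ (fun x => by
    rw [mul_comm]
    exact H.norm_act_le x b)).continuous

/-- the operator `x y*` -/
noncomputable def theta (x y : E) : E →L[ℂ] E :=
  LinearMap.mkContinuous
    { toFun := fun z => H.act x (H.inner y z)
      map_add' := fun z w => by rw [H.inner_add, H.act_add]
      map_smul' := fun c z => by rw [H.inner_smul, H.act_smul, RingHom.id_apply] } (‖x‖ * ‖y‖)
    (fun z => by
      refine (H.norm_act_le _ _).trans ?_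
      rw [mul_assoc]
      exact mul_le_mul_of_nonneg_left (H.norm_inner_le _ _) (norm_nonneg _))

theorem theta_apply (x y z : E) : H.theta x y z = H.act x (H.inner y z) := rfl

theorem theta_mem {F : Submodule ℂ E} {x y : E} (hx : x ∈ F) (hy : y ∈ F) :
    H.theta x y ∈ H.compacts F :=
  Submodule.le_topologicalClosure _ (Submodule.subset_span ⟨x, hx, y, hy, fun _ => rfl⟩)

theorem norm_theta_le (x y : E) : ‖H.theta x y‖ ≤ ‖x‖ * ‖y‖ :=
  LinearMap.mkContinuous_norm_le _ (by positivity) _

theorem theta_add_left (x x' y : E) : H.theta (x + x') y = H.theta x y + H.theta x' y := by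
  ext z
  exact H.add_act _ _ _

theorem theta_smul_left (c : ℂ) (x y : E) : H.theta (c • x) y = c • H.theta x y := by
  ext z
  exact H.smul_act _ _ _

theorem theta_add_right (x y y' : E) : H.theta x (y + y') = H.theta x y + H.theta x y' := by
  ext z
  change H.act x (H.inner (y + y') z) = H.act x (H.inner y z) + H.act x (H.inner y' z)
  rw [inner_add_left, H.act_add]

theorem theta_smul_right (c : ℂ) (x y : E) : H.theta x (c • y) = star c • H.theta x y := by
  ext z
  change H.act x (H.inner (c • y) z) = star c • H.act x (H.inner y z)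
  rw [inner_smul_left, H.act_smul]

theorem continuous_theta_left (y : E) : Continuous fun x => H.theta x y := by
  let φ : E →ₗ[ℂ] (E →L[ℂ] E) :=
    { toFun := fun x => H.theta x y, map_add' := fun x x' => H.theta_add_left x x' y,
      map_smul' := fun c x => H.theta_smul_left c x y }
  exact (φ.mkContinuous ‖y‖ (fun x => by
    rw [mul_comm]
    exact H.norm_theta_le x y)).continuous

theorem theta_zero_right (x : E) : H.theta x 0 = 0 := by
  have := H.theta_smul_right 0 x 0
  rwa [zero_smul, star_zero, zero_smul] at this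

theorem theta_sub_right (x y y' : E) : H.theta x (y - y') = H.theta x y - H.theta x y' := by
  have h := H.theta_smul_right (-1) x y'
  have e : star (-1 : ℂ) = -1 := by simp
  rw [neg_one_smul, e, neg_one_smul] at h
  rw [sub_eq_add_neg, theta_add_right, h, ← sub_eq_add_neg]

theorem continuous_theta_right (x : E) : Continuous fun y => H.theta x y := by
  refine continuous_iff_continuousAt.2 fun y => ?_
  rw [ContinuousAt, tendsto_iff_norm_sub_tendsto_zero]
  have h1 : Tendsto (fun y' => ‖x‖ * ‖y' - y‖) (𝓝 y) (𝓝 (‖x‖ * ‖y - y‖)) := by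
    have : Continuous fun y' : E => ‖x‖ * ‖y' - y‖ := by fun_prop
    exact this.tendsto y
  rw [sub_self, norm_zero, mul_zero] at h1
  refine squeeze_zero (fun _ => norm_nonneg _) (fun y' => ?_) h1
  rw [← theta_sub_right]
  exact H.norm_theta_le _ _

/-! ### coefficients -/

theorem inner_mem {F : Submodule ℂ E} {x y : E} (hx : x ∈ F) (hy : y ∈ F) :
    H.inner x y ∈ H.coeff F :=
  Submodule.le_topologicalClosure _ (Submodule.subset_span ⟨x, hx, y, hy, rfl⟩)

theorem coeff_closed (F : Submodule ℂ E) : IsClosed (H.coeff F : Set B) :=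
  Submodule.isClosed_topologicalClosure _

theorem compacts_closed (F : Submodule ℂ E) : IsClosed (H.compacts F : Set (E →L[ℂ] E)) :=
  Submodule.isClosed_topologicalClosure _

theorem coeff_ind {F : Submodule ℂ E} {P : B → Prop} (h1 : ∀ x ∈ F, ∀ y ∈ F, P (H.inner x y))
    (h0 : P 0) (hadd : ∀ x y, P x → P y → P (x + y))
    (hsmul : ∀ (c : ℂ) x, P x → P (c • x)) (hcl : IsClosed {v | P v}) :
    ∀ b ∈ H.coeff F, P b :=
  cs_ind (by
    rintro _ ⟨x, hx, y, hy, rfl⟩
    exact h1 x hx y hy) h0 hadd hsmul hcl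

theorem compacts_ind {F : Submodule ℂ E} {P : (E →L[ℂ] E) → Prop}
    (h1 : ∀ x ∈ F, ∀ y ∈ F, P (H.theta x y))
    (h0 : P 0) (hadd : ∀ x y, P x → P y → P (x + y))
    (hsmul : ∀ (c : ℂ) x, P x → P (c • x)) (hcl : IsClosed {v | P v}) :
    ∀ k ∈ H.compacts F, P k :=
  cs_ind (by
    rintro T ⟨x, hx, y, hy, hT⟩
    have : T = H.theta x y := by
      ext z
      exact hT z
    rw [this]
    exact h1 x hx y hy) h0 hadd hsmul hcl

theorem star_mem {F : Submodule ℂ E} {b : B} (hb : b ∈ H.coeff F) : star b ∈ H.coeff F := by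
  refine H.coeff_ind (P := fun b => star b ∈ H.coeff F) ?_ ?_ ?_ ?_ ?_ b hb
  · intro x hx y hy
    rw [H.star_inner]
    exact H.inner_mem hy hx
  · rw [star_zero]
    exact Submodule.zero_mem _
  · intro x y hx hy
    rw [star_add]
    exact Submodule.add_mem _ hx hy
  · intro c x hx
    rw [star_smul]
    exact Submodule.smul_mem _ _ hx
  · exact (H.coeff_closed F).preimage continuous_star

theorem compact_act {k : E →L[ℂ] E} (hk : k ∈ H.compacts ⊤) (z : E) (b : B) :
    k (H.act z b) = H.act (k z) b := by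
  refine H.compacts_ind (P := fun k => k (H.act z b) = H.act (k z) b) ?_ ?_ ?_ ?_ ?_ k hk
  · intro x _ y _
    rw [theta_apply, theta_apply, H.inner_act, H.act_mul]
  · change (0 : E) = H.act 0 b
    rw [zero_act]
  · intro k l hk hl
    change k (H.act z b) + l (H.act z b) = H.act (k z + l z) b
    rw [hk, hl, H.add_act]
  · intro c k hk
    change c • k (H.act z b) = H.act (c • k z) b
    rw [hk, H.smul_act]
  · refine isClosed_eq (by fun_prop) ?_
    exact (H.continuous_act_left b).comp (by fun_prop)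

/-! ### density of `F⟨F, F⟩` -/

section Dense

variable {H} {F : Submodule ℂ E}

/-- `x (1 - h) ^ n` -/
noncomputable def un (H : HilbertModule B E) (x : E) (h : B) : ℕ → E
  | 0 => x
  | n + 1 => un H x h n - H.act (un H x h n) h

theorem un_mem (hF : H.IsTernary F) {x : E} (hx : x ∈ F) (n : ℕ) :
    un H x (H.inner x x) n ∈ F := by
  induction n with
  | zero => exact hx
  | succ n ih => exact Submodule.sub_mem _ ih (hF.2 _ ih _ hx _ hx)

theorem inner_un {x : E} (n : ℕ) :
    H.inner (un H x (H.inner x x) n) (un H x (H.inner x x) n) =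
      cfcₙ (fun t : ℝ => t * (1 - t) ^ (2 * n)) (H.inner x x) := by
  have hsa : IsSelfAdjoint (H.inner x x) := H.star_inner x x
  induction n with
  | zero =>
    change H.inner x x = _
    simp only [mul_zero, pow_zero, mul_one]
    exact (cfcₙ_id' ℝ (H.inner x x)).symm
  | succ n ih =>
    set h := H.inner x x with hh
    change H.inner (un H x h n - H.act (un H x h n) h) (un H x h n - H.act (un H x h n) h) = _
    rw [inner_sub, inner_sub_left, inner_sub_left, H.inner_act, inner_act_left, inner_act_left,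
      H.inner_act, ih]
    have e0 : star h = h := hsa
    have e1 : h = cfcₙ (fun t : ℝ => t) h := (cfcₙ_id' ℝ h).symm
    have hc : ∀ f : ℝ → ℝ, Continuous f → ContinuousOn f (quasispectrum ℝ h) :=
      fun f hf => hf.continuousOn
    have e2 : cfcₙ (fun t : ℝ => t * (1 - t) ^ (2 * n)) h * h =
        cfcₙ (fun t : ℝ => t * (1 - t) ^ (2 * n) * t) h := by
      rw [cfcₙ_mul (fun t : ℝ => t * (1 - t) ^ (2 * n)) (fun t : ℝ => t) h (hc _ (by fun_prop))
        (by simp) (hc _ (by fun_prop)) rfl, cfcₙ_id' ℝ h]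
    have e3 : h * cfcₙ (fun t : ℝ => t * (1 - t) ^ (2 * n)) h =
        cfcₙ (fun t : ℝ => t * (t * (1 - t) ^ (2 * n))) h := by
      rw [cfcₙ_mul (fun t : ℝ => t) (fun t : ℝ => t * (1 - t) ^ (2 * n)) h (hc _ (by fun_prop))
        rfl (hc _ (by fun_prop)) (by simp), cfcₙ_id' ℝ h]
    have e4 : h * cfcₙ (fun t : ℝ => t * (1 - t) ^ (2 * n) * t) h =
        cfcₙ (fun t : ℝ => t * (t * (1 - t) ^ (2 * n) * t)) h := by
      rw [cfcₙ_mul (fun t : ℝ => t) (fun t : ℝ => t * (1 - t) ^ (2 * n) * t) h
        (hc _ (by fun_prop)) rfl (hc _ (by fun_prop)) (by simp), cfcₙ_id' ℝ h]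
    rw [e0, e2, e3, e4, ← cfcₙ_sub _ _ h (hc _ (by fun_prop)) (by simp) (hc _ (by fun_prop))
      (by simp), ← cfcₙ_sub _ _ h (hc _ (by fun_prop)) (by simp) (hc _ (by fun_prop))
      (by simp), ← cfcₙ_sub _ _ h (hc _ (by fun_prop)) (by simp) (hc _ (by fun_prop))
      (by simp)]
    congr 1
    funext t
    have : 2 * (n + 1) = 2 * n + 2 := by ring
    rw [this, pow_add]
    ring

theorem mul_pow_le {t : ℝ} (ht0 : 0 ≤ t) (ht1 : t ≤ 1) {m : ℕ} (hm : 0 < m) :
    t * (1 - t) ^ m ≤ 1 / m := by
  have h1 : 1 + (m : ℝ) * t ≤ (1 + t) ^ m := one_add_mul_le_pow (by linarith) m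
  have h2 : (1 - t) ^ m * (1 + t) ^ m ≤ 1 := by
    rw [← mul_pow]
    exact pow_le_one₀ (by nlinarith) (by nlinarith)
  have h3 : 0 ≤ (1 - t) ^ m := pow_nonneg (by linarith) m
  have h4 : (1 - t) ^ m * (1 + m * t) ≤ 1 := (mul_le_mul_of_nonneg_left h1 h3).trans h2
  have hm' : (0 : ℝ) < m := by exact_mod_cast hm
  rw [le_div_iff₀ hm']
  nlinarith

theorem norm_un_le {x : E} (hx : ‖x‖ ≤ 1) {n : ℕ} (hn : 0 < n) :
    ‖un H x (H.inner x x) n‖ ^ 2 ≤ 1 / ((2 * n : ℕ) : ℝ) := by
  have hsa : IsSelfAdjoint (H.inner x x) := H.star_inner x x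
  rw [H.norm_sq, inner_un]
  refine norm_cfcₙ_le fun t ht => ?_
  have h0 : 0 ≤ t := quasispectrum_nonneg_of_nonneg _ (H.inner_self_nonneg x) t ht
  have h1 : t ≤ 1 := by
    have h2 := norm_apply_le_norm_cfcₙ (fun t : ℝ => t) (H.inner x x) ht
      continuous_id.continuousOn rfl hsa
    rw [cfcₙ_id' ℝ (H.inner x x), ← H.norm_sq] at h2
    have h3 : ‖x‖ ^ 2 ≤ 1 := pow_le_one₀ (norm_nonneg _) hx
    exact (le_abs_self t).trans (h2.trans h3)
  rw [Real.norm_eq_abs, abs_of_nonneg (mul_nonneg h0 (pow_nonneg (by linarith) _))]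
  exact mul_pow_le h0 h1 (by omega)

theorem sub_un_mem (hF : H.IsTernary F) {x : E} (hx : x ∈ F) (n : ℕ) :
    x - un H x (H.inner x x) n ∈
      Submodule.span ℂ {z : E | ∃ a ∈ F, ∃ b ∈ F, ∃ c ∈ F, z = H.act a (H.inner b c)} := by
  induction n with
  | zero =>
    change x - x ∈ _
    rw [sub_self]
    exact Submodule.zero_mem _
  | succ n ih =>
    have h : x - un H x (H.inner x x) (n + 1) = (x - un H x (H.inner x x) n) +
        H.act (un H x (H.inner x x) n) (H.inner x x) := by
      change x - (un H x (H.inner x x) n - H.act (un H x (H.inner x x) n) (H.inner x x)) = _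
      abel
    rw [h]
    exact Submodule.add_mem _ ih (Submodule.subset_span ⟨_, un_mem hF hx n, x, hx, x, hx, rfl⟩)

theorem dense_ternary (hF : H.IsTernary F) {x : E} (hx : x ∈ F) :
    x ∈ (Submodule.span ℂ
      {z : E | ∃ a ∈ F, ∃ b ∈ F, ∃ c ∈ F, z = H.act a (H.inner b c)}).topologicalClosure := by
  -- reduce to norm at most one
  suffices hs : ∀ x ∈ F, ‖x‖ ≤ 1 → x ∈ (Submodule.span ℂ
      {z : E | ∃ a ∈ F, ∃ b ∈ F, ∃ c ∈ F, z = H.act a (H.inner b c)}).topologicalClosure by
    rcases eq_or_ne x 0 with h | h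
    · rw [h]
      exact Submodule.zero_mem _
    · have hn : (‖x‖ : ℂ) ≠ 0 := by exact_mod_cast (norm_ne_zero_iff.2 h)
      have h1 := hs ((‖x‖ : ℂ)⁻¹ • x) (Submodule.smul_mem _ _ hx) (by
        rw [norm_smul, norm_inv, Complex.norm_real, norm_norm,
          inv_mul_cancel₀ (norm_ne_zero_iff.2 h)])
      have h2 := Submodule.smul_mem _ (‖x‖ : ℂ) h1
      rwa [smul_smul, mul_inv_cancel₀ hn, one_smul] at h2
  intro x hx hx1
  have hlim : Tendsto (fun n => x - un H x (H.inner x x) n) atTop (𝓝 (x - 0)) := by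
    refine tendsto_const_nhds.sub ?_
    rw [tendsto_zero_iff_norm_tendsto_zero]
    have h1 : Tendsto (fun n => ‖un H x (H.inner x x) n‖ ^ 2) atTop (𝓝 0) := by
      refine squeeze_zero' (Eventually.of_forall fun n => by positivity)
        ((eventually_gt_atTop 0).mono fun n hn => norm_un_le hx1 hn) ?_
      have h2 : Tendsto (fun n : ℕ => 2 * n) atTop atTop :=
        tendsto_atTop_mono (fun n => by change n ≤ 2 * n; omega) tendsto_id
      exact tendsto_one_div_atTop_nhds_zero_nat.comp h2
    have h3 := h1.sqrt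
    rw [Real.sqrt_zero] at h3
    refine h3.congr fun n => ?_
    rw [Real.sqrt_sq (norm_nonneg _)]
  rw [sub_zero] at hlim
  exact mem_closure_of_tendsto hlim (Eventually.of_forall fun n => sub_un_mem hF hx n)

theorem dense_ind (hF : H.IsTernary F) {P : E → Prop}
    (h1 : ∀ a ∈ F, ∀ b ∈ F, ∀ c ∈ F, P (H.act a (H.inner b c))) (h0 : P 0)
    (hadd : ∀ x y, P x → P y → P (x + y)) (hsmul : ∀ (c : ℂ) x, P x → P (c • x))
    (hcl : IsClosed {v | P v}) : ∀ x ∈ F, P x := fun x hx =>
  cs_ind (by
    rintro _ ⟨a, ha, b, hb, c, hc, rfl⟩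
    exact h1 a ha b hb c hc) h0 hadd hsmul hcl x (dense_ternary hF hx)

end Dense

end Q90.HilbertModule
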