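import Mathlib
import Pool.Agent.Q90.HilbMod

/-!
Ternary hereditary implies linking hereditary: the entries of the products.
-/

set_option autoImplicit false

open Filter Topology

namespace Q90.HilbertModule

variable {B E : Type*} [NonUnitalCStarAlgebra B] [PartialOrder B] [StarOrderedRing B]
  [NormedAddCommGroup E] [NormedSpace ℂ E] {H : HilbertModule B E} {F : Submodule ℂ E}

/-- `f β γ ∈ F` for `f ∈ F`, `β ∈ B`, `γ ∈ B_F`. -/
theorem act_mul_mem (hF : H.IsTernary F) (hH : H.IsTernaryHereditary F) {f : E} (hf : f ∈ F)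
    (β : B) {γ : B} (hγ : γ ∈ H.coeff F) : H.act f (β * γ) ∈ F := by
  refine H.coeff_ind (P := fun γ => H.act f (β * γ) ∈ F) ?_ ?_ ?_ ?_ ?_ γ hγ
  · intro c hc d hd
    have h := hH f hf (H.act c (star β)) d hd
    rwa [inner_act_left, star_star] at h
  · rw [mul_zero, act_zero]
    exact F.zero_mem
  · intro x y hx hy
    rw [mul_add, H.act_add]
    exact F.add_mem hx hy
  · intro c x hx
    rw [mul_smul_comm, H.act_smul]
    exact F.smul_mem _ hx
  · exact hF.1.preimage ((H.continuous_act_right f).comp (continuous_const.mul continuous_id))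

/-- `γ β γ' ∈ B_F`. -/
theorem mul_mul_mem (hF : H.IsTernary F) (hH : H.IsTernaryHereditary F) {γ : B}
    (hγ : γ ∈ H.coeff F) (β : B) {γ' : B} (hγ' : γ' ∈ H.coeff F) :
    γ * (β * γ') ∈ H.coeff F := by
  refine H.coeff_ind (P := fun γ => γ * (β * γ') ∈ H.coeff F) ?_ ?_ ?_ ?_ ?_ γ hγ
  · intro a ha b hb
    rw [← H.inner_act]
    exact H.inner_mem ha (act_mul_mem hF hH hb β hγ')
  · rw [zero_mul]
    exact Submodule.zero_mem _
  · intro x y hx hy
    rw [add_mul]
    exact Submodule.add_mem _ hx hy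
  · intro c x hx
    rw [smul_mul_assoc]
    exact Submodule.smul_mem _ _ hx
  · exact (H.coeff_closed F).preimage (continuous_id.mul continuous_const)

/-- `γ ⟨e, f⟩ ∈ B_F`. -/
theorem mul_inner_mem (hH : H.IsTernaryHereditary F) {γ : B}
    (hγ : γ ∈ H.coeff F) (e : E) {f : E} (hf : f ∈ F) :
    γ * H.inner e f ∈ H.coeff F := by
  refine H.coeff_ind (P := fun γ => γ * H.inner e f ∈ H.coeff F) ?_ ?_ ?_ ?_ ?_ γ hγ
  · intro a ha b hb
    rw [← H.inner_act]
    exact H.inner_mem ha (hH b hb e f hf)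
  · rw [zero_mul]
    exact Submodule.zero_mem _
  · intro x y hx hy
    rw [add_mul]
    exact Submodule.add_mem _ hx hy
  · intro c x hx
    rw [smul_mul_assoc]
    exact Submodule.smul_mem _ _ hx
  · exact (H.coeff_closed F).preimage (continuous_id.mul continuous_const)

/-- `⟨f, e⟩ γ ∈ B_F`. -/
theorem inner_mul_mem (hH : H.IsTernaryHereditary F) {γ : B}
    (hγ : γ ∈ H.coeff F) (e : E) {f : E} (hf : f ∈ F) :
    H.inner f e * γ ∈ H.coeff F := by
  have h := H.star_mem (mul_inner_mem hH (H.star_mem hγ) e hf)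
  rwa [star_mul, star_star, H.star_inner] at h

/-- `⟨f, k f'⟩ ∈ B_F` for `k ∈ K(E)`. -/
theorem inner_compact_mem (hF : H.IsTernary F) (hH : H.IsTernaryHereditary F) {k : E →L[ℂ] E}
    (hk : k ∈ H.compacts ⊤) {f f' : E} (hf : f ∈ F) (hf' : f' ∈ F) :
    H.inner f (k f') ∈ H.coeff F := by
  refine H.compacts_ind (P := fun k => H.inner f (k f') ∈ H.coeff F) ?_ ?_ ?_ ?_ ?_ k hk
  · intro e _ e' _
    rw [theta_apply, H.inner_act]
    refine dense_ind hF (P := fun f => H.inner f e * H.inner e' f' ∈ H.coeff F)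
      ?_ ?_ ?_ ?_ ?_ f hf
    · intro a ha b hb c hc
      rw [inner_act_left, H.star_inner, mul_assoc]
      have h1 : H.inner a e * H.inner e' f' = H.inner (H.act e' (H.inner e a)) f' := by
        rw [inner_act_left, H.star_inner]
      rw [h1, ← H.inner_act]
      exact H.inner_mem hc (hH b hb _ f' hf')
    · rw [inner_zero_left, zero_mul]
      exact Submodule.zero_mem _
    · intro x y hx hy
      rw [inner_add_left, add_mul]
      exact Submodule.add_mem _ hx hy
    · intro c x hx
      rw [inner_smul_left, smul_mul_assoc]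
      exact Submodule.smul_mem _ _ hx
    · exact (H.coeff_closed F).preimage ((H.continuous_inner_left e).mul continuous_const)
  · change H.inner f 0 ∈ _
    rw [inner_zero]
    exact Submodule.zero_mem _
  · intro k l hk hl
    change H.inner f (k f' + l f') ∈ _
    rw [H.inner_add]
    exact Submodule.add_mem _ hk hl
  · intro c k hk
    change H.inner f (c • k f') ∈ _
    rw [H.inner_smul]
    exact Submodule.smul_mem _ _ hk
  · refine (H.coeff_closed F).preimage ((H.continuous_inner_right f).comp ?_)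
    fun_prop

/-- `(k e) γ ∈ F` for `k ∈ K(F)`, `e ∈ E`, `γ ∈ B_F`. -/
theorem compact_act_mem (hF : H.IsTernary F) (hH : H.IsTernaryHereditary F) {k : E →L[ℂ] E}
    (hk : k ∈ H.compacts F) (e : E) {γ : B} (hγ : γ ∈ H.coeff F) :
    H.act (k e) γ ∈ F := by
  refine H.compacts_ind (P := fun k => H.act (k e) γ ∈ F) ?_ ?_ ?_ ?_ ?_ k hk
  · intro x hx y hy
    rw [theta_apply, ← H.act_mul]
    exact act_mul_mem hF hH hx _ hγ
  · change H.act 0 γ ∈ F
    rw [zero_act]
    exact F.zero_mem
  · intro k l hk hl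
    change H.act (k e + l e) γ ∈ F
    rw [H.add_act]
    exact F.add_mem hk hl
  · intro c k hk
    change H.act (c • k e) γ ∈ F
    rw [H.smul_act]
    exact F.smul_mem _ hk
  · refine hF.1.preimage ((H.continuous_act_left γ).comp ?_)
    fun_prop

/-- `f ⟨f', k f''⟩ ∈ F` for `k ∈ K(E)`. -/
theorem act_inner_compact_mem (hF : H.IsTernary F) (hH : H.IsTernaryHereditary F)
    {k : E →L[ℂ] E} (hk : k ∈ H.compacts ⊤) {f f' f'' : E} (hf : f ∈ F)
    (hf'' : f'' ∈ F) : H.act f (H.inner f' (k f'')) ∈ F := by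
  refine H.compacts_ind (P := fun k => H.act f (H.inner f' (k f'')) ∈ F) ?_ ?_ ?_ ?_ ?_ k hk
  · intro e _ e' _
    rw [theta_apply, H.inner_act]
    have h1 : H.inner f' e * H.inner e' f'' = H.inner (H.act e' (H.inner e f')) f'' := by
      rw [inner_act_left, H.star_inner]
    rw [h1]
    exact hH f hf _ f'' hf''
  · change H.act f (H.inner f' 0) ∈ F
    rw [inner_zero, act_zero]
    exact F.zero_mem
  · intro k l hk hl
    change H.act f (H.inner f' (k f'' + l f'')) ∈ F
    rw [H.inner_add, H.act_add]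
    exact F.add_mem hk hl
  · intro c k hk
    change H.act f (H.inner f' (c • k f'')) ∈ F
    rw [H.inner_smul, H.act_smul]
    exact F.smul_mem _ hk
  · refine hF.1.preimage ((H.continuous_act_right f).comp ((H.continuous_inner_right f').comp ?_))
    fun_prop

/-- `k k' f ∈ F` for `k ∈ K(F)`, `k' ∈ K(E)`. -/
theorem compact_compact_mem (hF : H.IsTernary F) (hH : H.IsTernaryHereditary F)
    {k k' : E →L[ℂ] E} (hk : k ∈ H.compacts F) (hk' : k' ∈ H.compacts ⊤) {f : E}
    (hf : f ∈ F) : k (k' f) ∈ F := by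
  refine H.compacts_ind (P := fun k => k (k' f) ∈ F) ?_ ?_ ?_ ?_ ?_ k hk
  · intro x hx y hy
    rw [theta_apply]
    exact act_inner_compact_mem hF hH hk' hx hf
  · exact F.zero_mem
  · intro k l hk hl
    exact F.add_mem hk hl
  · intro c k hk
    exact F.smul_mem _ hk
  · refine hF.1.preimage ?_
    fun_prop

/-- `θ_{f β, f'} ∈ K(F)`. -/
theorem theta_act_mem (hF : H.IsTernary F) (hH : H.IsTernaryHereditary F) {f f' : E}
    (hf : f ∈ F) (β : B) (hf' : f' ∈ F) : H.theta (H.act f β) f' ∈ H.compacts F := by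
  refine dense_ind hF (P := fun f' => H.theta (H.act f β) f' ∈ H.compacts F) ?_ ?_ ?_ ?_ ?_ f' hf'
  · intro a ha b hb c hc
    have h1 : H.theta (H.act f β) (H.act a (H.inner b c)) =
        H.theta (H.act f (β * H.inner c b)) a := by
      ext z
      rw [theta_apply, theta_apply, inner_act_left, H.star_inner, ← H.act_mul, ← H.act_mul,
        mul_assoc]
    rw [h1]
    exact H.theta_mem (act_mul_mem hF hH hf β (H.inner_mem hc hb)) ha
  · rw [theta_zero_right]
    exact Submodule.zero_mem _
  · intro x y hx hy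
    rw [theta_add_right]
    exact Submodule.add_mem _ hx hy
  · intro c x hx
    rw [theta_smul_right]
    exact Submodule.smul_mem _ _ hx
  · exact (H.compacts_closed F).preimage (H.continuous_theta_right _)

/-- `θ_{k e, f} ∈ K(F)` for `k ∈ K(F)`, `e ∈ E`, `f ∈ F`. -/
theorem theta_compact_mem (hF : H.IsTernary F) (hH : H.IsTernaryHereditary F)
    {k : E →L[ℂ] E} (hk : k ∈ H.compacts F) (e : E) {f : E} (hf : f ∈ F) :
    H.theta (k e) f ∈ H.compacts F := by
  refine H.compacts_ind (P := fun k => H.theta (k e) f ∈ H.compacts F) ?_ ?_ ?_ ?_ ?_ k hk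
  · intro x hx y hy
    rw [theta_apply]
    exact theta_act_mem hF hH hx _ hf
  · have : H.theta ((0 : E →L[ℂ] E) e) f = 0 := by
      have := H.theta_smul_left 0 0 f
      rwa [zero_smul, zero_smul] at this
    rw [this]
    exact Submodule.zero_mem _
  · intro k l hk hl
    change H.theta (k e + l e) f ∈ _
    rw [theta_add_left]
    exact Submodule.add_mem _ hk hl
  · intro c k hk
    change H.theta (c • k e) f ∈ _
    rw [theta_smul_left]
    exact Submodule.smul_mem _ _ hk
  · refine (H.compacts_closed F).preimage ((H.continuous_theta_left f).comp ?_)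
    fun_prop

/-- `θ_{f, e} k ∈ K(F)` for `k ∈ K(F)`. -/
theorem theta_mul_mem (hH : H.IsTernaryHereditary F)
    {k : E →L[ℂ] E} (hk : k ∈ H.compacts F) {f : E} (hf : f ∈ F) (e : E) :
    H.theta f e * k ∈ H.compacts F := by
  refine H.compacts_ind (P := fun k => H.theta f e * k ∈ H.compacts F) ?_ ?_ ?_ ?_ ?_ k hk
  · intro x hx y hy
    have h1 : H.theta f e * H.theta x y = H.theta (H.act f (H.inner e x)) y := by
      ext z
      change H.theta f e (H.theta x y z) = _
      rw [theta_apply, theta_apply, theta_apply, H.inner_act, H.act_mul]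
    rw [h1]
    exact H.theta_mem (hH f hf e x hx) hy
  · rw [mul_zero]
    exact Submodule.zero_mem _
  · intro k l hk hl
    rw [mul_add]
    exact Submodule.add_mem _ hk hl
  · intro c k hk
    rw [mul_smul_comm]
    exact Submodule.smul_mem _ _ hk
  · exact (H.compacts_closed F).preimage (continuous_const.mul continuous_id)

/-- `k k' k'' ∈ K(F)`. -/
theorem compact_mul_mem (hF : H.IsTernary F) (hH : H.IsTernaryHereditary F)
    {k k' k'' : E →L[ℂ] E} (hk : k ∈ H.compacts F) (hk' : k' ∈ H.compacts ⊤)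
    (hk'' : k'' ∈ H.compacts F) : k * k' * k'' ∈ H.compacts F := by
  -- `K(F) ⊆ K(E)`
  have hle : ∀ k ∈ H.compacts F, k ∈ H.compacts (⊤ : Submodule ℂ E) := by
    intro k hk
    refine Submodule.topologicalClosure_mono (Submodule.span_mono ?_) hk
    rintro T ⟨x, _, y, _, h⟩
    exact ⟨x, Submodule.mem_top, y, Submodule.mem_top, h⟩
  refine H.compacts_ind (P := fun k'' => k * k' * k'' ∈ H.compacts F) ?_ ?_ ?_ ?_ ?_ k'' hk''
  · intro x hx y hy
    have h1 : k * k' * H.theta x y = H.theta (k (k' x)) y := by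
      ext z
      change k (k' (H.theta x y z)) = _
      rw [theta_apply, H.compact_act hk', H.compact_act (hle k hk), theta_apply]
    rw [h1]
    exact H.theta_mem (compact_compact_mem hF hH hk hk' hx) hy
  · rw [mul_zero]
    exact Submodule.zero_mem _
  · intro k l hk hl
    rw [mul_add]
    exact Submodule.add_mem _ hk hl
  · intro c k hk
    rw [mul_smul_comm]
    exact Submodule.smul_mem _ _ hk
  · exact (H.compacts_closed F).preimage (continuous_const.mul continuous_id)

/-- The rows `⟨w, ·⟩` with `w ∈ F` form a closed subspace. -/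
theorem isClosed_rows [CompleteSpace E] (hF : IsClosed (F : Set E)) :
    IsClosed {l : E →L[ℂ] B | ∃ w ∈ F, ∀ z, l z = H.inner w z} := by
  rw [← closure_subset_iff_isClosed]
  intro l hl
  obtain ⟨u, hu, hlim⟩ := mem_closure_iff_seq_limit.1 hl
  choose w hw hwu using hu
  -- the `w n` form a Cauchy sequence
  have hd : ∀ m n, dist (w m) (w n) ≤ dist (u m) (u n) := by
    intro m n
    rw [dist_eq_norm, dist_eq_norm]
    rcases eq_or_ne (w m - w n) 0 with h | h
    · rw [h, norm_zero]
      exact norm_nonneg _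
    · have h1 : ‖w m - w n‖ ^ 2 = ‖(u m - u n) (w m - w n)‖ := by
        have : (u m - u n) (w m - w n) = H.inner (w m - w n) (w m - w n) := by
          change u m (w m - w n) - u n (w m - w n) = _
          rw [hwu, hwu, H.inner_sub_left (w m) (w n)]
        rw [this, H.norm_sq]
      have h2 := (u m - u n).le_opNorm (w m - w n)
      rw [← h1, pow_two] at h2
      exact le_of_mul_le_mul_right h2 (norm_pos_iff.2 h)
  have hc : CauchySeq w := by
    rw [Metric.cauchySeq_iff]
    intro ε hε
    obtain ⟨N, hN⟩ := Metric.cauchySeq_iff.1 hlim.cauchySeq ε hε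
    exact ⟨N, fun m hm n hn => (hd m n).trans_lt (hN m hm n hn)⟩
  obtain ⟨w0, hw0⟩ := cauchySeq_tendsto_of_complete hc
  refine ⟨w0, hF.mem_of_tendsto hw0 (Eventually.of_forall hw), fun z => ?_⟩
  have h1 : Tendsto (fun n => u n z) atTop (𝓝 (l z)) := by
    have : Continuous fun l : E →L[ℂ] B => l z := by fun_prop
    exact (this.tendsto l).comp hlim
  have h2 : Tendsto (fun n => H.inner (w n) z) atTop (𝓝 (H.inner w0 z)) :=
    ((H.continuous_inner_left z).tendsto w0).comp hw0
  refine tendsto_nhds_unique h1 (h2.congr fun n => ?_)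
  exact (hwu n z).symm

/-- a row `z ↦ b ⟨x, k z⟩` -/
theorem row_mem [CompleteSpace E] (hF : IsClosed (F : Set E)) (φ : E →L[ℂ] B)
    (hφ : ∀ f ∈ F, ∀ f' ∈ F, ∃ w ∈ F, ∀ z, φ (H.theta f f' z) = H.inner w z)
    {k : E →L[ℂ] E} (hk : k ∈ H.compacts F) : ∃ w ∈ F, ∀ z, φ (k z) = H.inner w z := by
  refine H.compacts_ind (P := fun k => ∃ w ∈ F, ∀ z, φ (k z) = H.inner w z)
    hφ ⟨0, F.zero_mem, fun z => ?_⟩ ?_ ?_ ?_ k hk
  · change φ 0 = _
    rw [map_zero, inner_zero_left]
  · rintro k l ⟨w, hw, hwz⟩ ⟨v, hv, hvz⟩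
    refine ⟨w + v, F.add_mem hw hv, fun z => ?_⟩
    change φ (k z + l z) = _
    rw [map_add, hwz, hvz, inner_add_left]
  · rintro c k ⟨w, hw, hwz⟩
    refine ⟨star c • w, F.smul_mem _ hw, fun z => ?_⟩
    change φ (c • k z) = _
    rw [map_smul, hwz, inner_smul_left, star_star]
  · have h1 : {k : E →L[ℂ] E | ∃ w ∈ F, ∀ z, φ (k z) = H.inner w z} =
        (fun k : E →L[ℂ] E => φ.comp k) ⁻¹' {l : E →L[ℂ] B | ∃ w ∈ F, ∀ z, l z = H.inner w z} :=
      rfl
    rw [h1]
    refine (isClosed_rows hF).preimage ?_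
    fun_prop

end Q90.HilbertModule
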