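import Mathlib
import Pool.Agent.Q127.KI.Stm2

set_option autoImplicit false

namespace Pool.Agent.Q90.KI2COV

open MeasureTheory Filter Topology Pool.Agent.Q127.KI

lemma freq_zero {M : Type} (f : M → M) (x : M) (A : Set M) (h : ∀ᶠ n in atTop, f^[n] x ∉ A) :
    upperFreq f x A = 0 := by
  classical
  obtain ⟨J, hJ⟩ := eventually_atTop.1 h
  have hcard : ∀ n : ℕ, (((Finset.range n).filter (fun j => f^[j] x ∈ A)).card : ENNReal) / n ≤
      (J : ENNReal) / n := by
    intro n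
    refine ENNReal.div_le_div_right ?_ _
    have h1 : (Finset.range n).filter (fun j => f^[j] x ∈ A) ⊆ Finset.range J := by
      intro j hj
      rw [Finset.mem_filter] at hj
      rw [Finset.mem_range]
      by_contra hc
      exact hJ j (not_lt.1 hc) hj.2
    have h2 := Finset.card_le_card h1
    rw [Finset.card_range] at h2
    exact_mod_cast h2
  have hlim : Tendsto (fun n : ℕ => (J : ENNReal) / n) atTop (𝓝 0) := by
    have h1 : Tendsto (fun n : ℕ => (J : ENNReal) * ((n : ENNReal))⁻¹) atTop (𝓝 ((J : ENNReal) * 0)) := by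
      refine ENNReal.Tendsto.const_mul ENNReal.tendsto_inv_nat_nhds_zero (Or.inr (ENNReal.natCast_ne_top J))
    rw [mul_zero] at h1
    simpa [div_eq_mul_inv] using h1
  have h3 : upperFreq f x A ≤ limsup (fun n : ℕ => (J : ENNReal) / n) atTop := by
    unfold upperFreq
    refine limsup_le_limsup (Eventually.of_forall fun n => ?_)
    convert hcard n
  rw [hlim.limsup_eq] at h3
  exact le_antisymm h3 bot_le

lemma freq_empty {M : Type} (f : M → M) (x : M) : upperFreq f x ∅ = 0 :=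
  freq_zero f x ∅ (Eventually.of_forall fun _ h => h)

lemma cover_le {M : Type} [MetricSpace M] (f : M → M) (x : M) {r : ℝ} {ι : Type} [Finite ι]
    (O : ι → Set M) (ho : ∀ i, IsOpen (O i)) (hd : ∀ i, ∀ a ∈ O i, ∀ b ∈ O i, dist a b ≤ r)
    (hc : ∀ y, ∃ i, y ∈ O i) : coverMass f x r Set.univ ≤ ∑' i, upperFreq f x (O i) := by
  haveI : Encodable ι := Encodable.ofCountable ι
  unfold coverMass
  have h1 : ∀ n : ℕ, IsOpen (⋃ b ∈ Encodable.decode₂ ι n, O b) ∧
      ∀ a ∈ ⋃ b ∈ Encodable.decode₂ ι n, O b, ∀ c ∈ ⋃ b ∈ Encodable.decode₂ ι n, O b, dist a c ≤ r := by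
    intro n
    refine Encodable.iUnion_decode₂_cases (C := fun S => IsOpen S ∧ ∀ a ∈ S, ∀ c ∈ S, dist a c ≤ r) ?_ ?_
    · exact ⟨isOpen_empty, fun a ha => absurd ha (Set.notMem_empty a)⟩
    · intro b
      exact ⟨ho b, hd b⟩
  refine iInf_le_of_le (fun n => ⋃ b ∈ Encodable.decode₂ ι n, O b) ?_
  refine iInf_le_of_le h1 ?_
  have h2 : Set.univ ⊆ ⋃ n, ⋃ b ∈ Encodable.decode₂ ι n, O b := by
    rw [Encodable.iUnion_decode₂]
    intro y _
    obtain ⟨i, hi⟩ := hc y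
    exact Set.mem_iUnion.2 ⟨i, hi⟩
  refine iInf_le_of_le h2 ?_
  rw [tsum_iUnion_decode₂ (fun S => upperFreq f x S) (freq_empty f x) O]

/-- uniform continuity -/
lemma exists_a {M : Type} [MetricSpace M] (Φ : (ℤ → Bool) → M) (hΦ : Continuous Φ) {ε : ℝ} (hε : 0 < ε) :
    ∃ a : ℕ, ∀ w w' : ℤ → Bool, (∀ i : ℤ, -(a : ℤ) ≤ i → i ≤ a → w i = w' i) → dist (Φ w) (Φ w') ≤ ε := by
  by_contra hcon
  push Not at hcon
  choose w w' h1 h2 using hcon
  obtain ⟨z, φ, hφ, hz⟩ := CompactSpace.tendsto_subseq w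
  have hz' : Tendsto (w' ∘ φ) atTop (𝓝 z) := by
    rw [tendsto_pi_nhds] at hz ⊢
    intro i
    refine (hz i).congr' ?_
    filter_upwards [eventually_ge_atTop i.natAbs] with n hn
    have h3 : n ≤ φ n := hφ.id_le n
    have h4 : i.natAbs ≤ φ n := le_trans hn h3
    exact h1 (φ n) i (by omega) (by omega)
  have h5 : Tendsto (fun n => dist (Φ (w (φ n))) (Φ (w' (φ n)))) atTop (𝓝 (dist (Φ z) (Φ z))) :=
    ((hΦ.tendsto z).comp hz).dist ((hΦ.tendsto z).comp hz')
  rw [dist_self] at h5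
  have h6 := (h5.eventually (gt_mem_nhds hε)).exists
  obtain ⟨n, hn⟩ := h6
  exact absurd (h2 (φ n)) (not_lt.2 hn.le)

lemma exists_delta {M : Type} [MetricSpace M] (Φ : (ℤ → Bool) → M) (hΦ : Continuous Φ)
    (hinj : Function.Injective Φ) (hS : IsClosed Q127.KI.Sub) (a : ℕ) :
    ∃ δ : ℝ, 0 < δ ∧ ∀ w ∈ Q127.KI.Sub, ∀ w' ∈ Q127.KI.Sub, (∃ i : ℤ, -(a : ℤ) ≤ i ∧ i ≤ a ∧ w i ≠ w' i) →
      δ ≤ dist (Φ w) (Φ w') := by
  set P : Set ((ℤ → Bool) × (ℤ → Bool)) := {p | (p.1 ∈ Q127.KI.Sub ∧ p.2 ∈ Q127.KI.Sub) ∧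
    ∃ i : ℤ, i ∈ Finset.Icc (-(a : ℤ)) a ∧ p.1 i ≠ p.2 i} with hP
  have hcl : IsClosed P := by
    have h1 : P = (Prod.fst ⁻¹' Q127.KI.Sub ∩ Prod.snd ⁻¹' Q127.KI.Sub) ∩
        ⋃ i ∈ Finset.Icc (-(a : ℤ)) a, {p : (ℤ → Bool) × (ℤ → Bool) | p.1 i ≠ p.2 i} := by
      ext p
      simp only [hP, Set.mem_setOf_eq, Set.mem_inter_iff, Set.mem_preimage, Set.mem_iUnion, exists_prop]
    rw [h1]
    refine ((hS.preimage continuous_fst).inter (hS.preimage continuous_snd)).inter ?_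
    refine Set.Finite.isClosed_biUnion (Finset.Icc (-(a : ℤ)) a).finite_toSet ?_
    intro i _
    have h2 : {p : (ℤ → Bool) × (ℤ → Bool) | p.1 i ≠ p.2 i} =
        (fun p : (ℤ → Bool) × (ℤ → Bool) => (p.1 i, p.2 i)) ⁻¹' {q : Bool × Bool | q.1 ≠ q.2} := rfl
    rw [h2]
    refine IsClosed.preimage ?_ (isClosed_discrete _)
    exact ((continuous_apply i).comp continuous_fst).prodMk ((continuous_apply i).comp continuous_snd)
  have hcp : IsCompact P := hcl.isCompact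
  rcases P.eq_empty_or_nonempty with h0 | h0
  · refine ⟨1, one_pos, ?_⟩
    rintro w hw w' hw' ⟨i, h1, h2, h3⟩
    have : (w, w') ∈ P := ⟨⟨hw, hw'⟩, i, Finset.mem_Icc.2 ⟨h1, h2⟩, h3⟩
    rw [h0] at this
    exact absurd this (Set.notMem_empty _)
  · obtain ⟨p, hp, hmin⟩ := hcp.exists_isMinOn h0
      (f := fun p => dist (Φ p.1) (Φ p.2)) ((hΦ.comp continuous_fst).dist (hΦ.comp continuous_snd)).continuousOn
    refine ⟨dist (Φ p.1) (Φ p.2), ?_, ?_⟩
    · rw [dist_pos]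
      intro he
      obtain ⟨_, i, _, hi⟩ := hp
      exact hi (congrFun (hinj he) i)
    · rintro w hw w' hw' ⟨i, h1, h2, h3⟩
      exact hmin (show (w, w') ∈ P from ⟨⟨hw, hw'⟩, i, Finset.mem_Icc.2 ⟨h1, h2⟩, h3⟩)

/-- the sum of the frequencies of disjoint sets -/
lemma sum_freq {M : Type} (f : M → M) (x : M) {ι : Type} [Fintype ι] (O : ι → Set M)
    (hd : ∀ i j, i ≠ j → Disjoint (O i) (O j))
    (hl : ∀ i, ∃ c : ℝ, Tendsto (fun n : ℕ => (open Classical in ((Finset.range n).filter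
      (fun j => f^[j] x ∈ O i)).card : ℝ) / (n : ℝ)) atTop (𝓝 c)) :
    ∑ i, upperFreq f x (O i) ≤ 1 := by
  classical
  choose c hc using hl
  have h1 : ∀ i, Tendsto (fun n : ℕ => (((Finset.range n).filter
      (fun j => f^[j] x ∈ O i)).card : ENNReal) / n) atTop (𝓝 (ENNReal.ofReal (c i))) := by
    intro i
    have h2 := ENNReal.tendsto_ofReal (hc i)
    refine h2.congr' ?_
    filter_upwards [eventually_gt_atTop 0] with n hn
    rw [ENNReal.ofReal_div_of_pos (by exact_mod_cast hn), ENNReal.ofReal_natCast, ENNReal.ofReal_natCast]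
  have h2 : ∀ i, upperFreq f x (O i) = ENNReal.ofReal (c i) := by
    intro i
    unfold upperFreq
    have h3 := (h1 i).limsup_eq
    convert h3
  have h4 : Tendsto (fun n : ℕ => ∑ i, (((Finset.range n).filter
      (fun j => f^[j] x ∈ O i)).card : ENNReal) / n) atTop (𝓝 (∑ i, ENNReal.ofReal (c i))) :=
    tendsto_finset_sum _ fun i _ => h1 i
  rw [Finset.sum_congr rfl fun i _ => h2 i]
  refine le_of_tendsto' h4 fun n => ?_
  have h5 : ∑ i, (((Finset.range n).filter (fun j => f^[j] x ∈ O i)).card : ENNReal) / n =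
      ((∑ i, ((Finset.range n).filter (fun j => f^[j] x ∈ O i)).card : ℕ) : ENNReal) / n := by
    push_cast
    simp only [div_eq_mul_inv]
    rw [Finset.sum_mul]
  rw [h5]
  have h6 : ∑ i, ((Finset.range n).filter (fun j => f^[j] x ∈ O i)).card ≤ n := by
    rw [← Finset.card_biUnion]
    · refine (Finset.card_le_card (t := Finset.range n) ?_).trans (by rw [Finset.card_range])
      intro j hj
      rw [Finset.mem_biUnion] at hj
      obtain ⟨i, _, hi⟩ := hj
      exact (Finset.mem_filter.1 hi).1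
    · intro i _ j _ hij
      show Disjoint ((Finset.range n).filter (fun k => f^[k] x ∈ O i)) ((Finset.range n).filter (fun k => f^[k] x ∈ O j))
      rw [Finset.disjoint_left]
      intro k hk hk'
      exact Set.disjoint_left.1 (hd i j hij) (Finset.mem_filter.1 hk).2 (Finset.mem_filter.1 hk').2
  have h7 : ((∑ i, ((Finset.range n).filter (fun j => f^[j] x ∈ O i)).card : ℕ) : ENNReal) ≤ n := by
    exact_mod_cast h6
  exact (ENNReal.div_le_div_right h7 _).trans ENNReal.div_self_le_one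

theorem cov (h : S_frl) : S_cov := by
  classical
  intro M _ _ f Φ hf hΦ hinj hcl hne hsh heq x hx
  unfold orbitMass
  refine iSup₂_le fun r hr => ?_
  obtain ⟨a, ha⟩ := exists_a Φ hΦ (ε := r / 3) (by positivity)
  obtain ⟨δ₀, hδ₀, hδ⟩ := exists_delta Φ hΦ hinj hcl a
  set δ : ℝ := min (r / 3) (δ₀ / 2) with hδdef
  have hδpos : 0 < δ := lt_min (by positivity) (by positivity)
  have hδr : δ ≤ r / 3 := min_le_left _ _
  have hδ2 : 2 * δ ≤ δ₀ := by
    have := min_le_right (r / 3) (δ₀ / 2)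
    linarith
  -- the words
  let ext : ((Finset.Icc (-(a : ℤ)) a : Finset ℤ) → Bool) → (ℤ → Bool) := fun v i =>
    if hi : i ∈ Finset.Icc (-(a : ℤ)) a then v ⟨i, hi⟩ else false
  have hext : ∀ v (i : ℤ) (hi : i ∈ Finset.Icc (-(a : ℤ)) a), ext v i = v ⟨i, hi⟩ := fun v i hi => dif_pos hi
  let O : ((Finset.Icc (-(a : ℤ)) a : Finset ℤ) → Bool) → Set M := fun v =>
    Metric.thickening δ (Φ '' Cyl a (ext v))
  have hsep : ∀ u : ℤ → Bool, ∀ w ∈ Cyl a u, ∀ w' ∈ Q127.KI.Sub, w' ∉ Cyl a u → 2 * δ ≤ dist (Φ w) (Φ w') := by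
    intro u w hw w' hw' hn
    refine hδ2.trans (hδ w hw.1 w' hw' ?_)
    by_contra hc
    push Not at hc
    refine hn ⟨hw', fun i h1 h2 => ?_⟩
    rw [← hc i h1 h2]
    exact hw.2 i h1 h2
  have hOd : ∀ v v', v ≠ v' → Disjoint (O v) (O v') := by
    intro v v' hv
    rw [Set.disjoint_left]
    intro y hy hy'
    obtain ⟨_, ⟨w, hw, rfl⟩, h1⟩ := Metric.mem_thickening_iff.1 hy
    obtain ⟨_, ⟨w', hw', rfl⟩, h2⟩ := Metric.mem_thickening_iff.1 hy'
    have h3 : w' ∉ Cyl a (ext v) := by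
      intro hc
      refine hv (funext fun i => ?_)
      have hi := Finset.mem_Icc.1 i.2
      have e1 := hc.2 i.1 hi.1 hi.2
      have e2 := hw'.2 i.1 hi.1 hi.2
      rw [hext v i.1 i.2] at e1
      rw [hext v' i.1 i.2] at e2
      rw [← e1, e2]
    have h4 := hsep (ext v) w hw w' hw'.1 h3
    have h5 : dist (Φ w) (Φ w') ≤ dist y (Φ w) + dist y (Φ w') := dist_triangle_left _ _ _
    linarith
  have hfreq : ∑ v, upperFreq f x (O v) ≤ 1 := by
    refine sum_freq f x O hOd fun v => ?_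
    obtain ⟨c, hc⟩ := h M f Φ hf hne hsh heq x hx a (ext v) δ hδpos (hsep (ext v))
    exact ⟨c, hc⟩
  -- the rest
  set C : Set M := (⋃ v, O v)ᶜ with hC
  have hCc : IsCompact C := (isClosed_compl_iff.2 (isOpen_iUnion fun v => Metric.isOpen_thickening)).isCompact
  obtain ⟨t, htC, htf, htc⟩ := hCc.finite_cover_balls (e := min (r / 2) (δ / 2)) (lt_min (by positivity) (by positivity))
  haveI : Finite t := htf
  have hfar : ∀ y ∈ C, ∀ w ∈ Q127.KI.Sub, δ ≤ dist y (Φ w) := by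
    intro y hy w hw
    by_contra hlt
    rw [not_le] at hlt
    refine hy (Set.mem_iUnion.2 ⟨fun i => w i.1, ?_⟩)
    refine Metric.mem_thickening_iff.2 ⟨Φ w, ⟨w, ⟨hw, fun i h1 h2 => ?_⟩, rfl⟩, hlt⟩
    exact (hext (fun i => w i.1) i (Finset.mem_Icc.2 ⟨h1, h2⟩)).symm
  have hball : ∀ y ∈ C, upperFreq f x (Metric.ball y (min (r / 2) (δ / 2))) = 0 := by
    intro y hy
    refine freq_zero f x _ ?_
    filter_upwards [hx.eventually (gt_mem_nhds (show (0 : ℝ) < δ / 2 by positivity))] with n hn hmem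
    have h1 : dist (f^[n] x) y < δ / 2 := lt_of_lt_of_le (Metric.mem_ball.1 hmem) (min_le_right _ _)
    obtain ⟨_, ⟨w, hw, rfl⟩, h2⟩ := (Metric.infDist_lt_iff (hne.image Φ)).1 hn
    have h3 := hfar y hy w hw
    have h4 : dist y (Φ w) ≤ dist (f^[n] x) y + dist (f^[n] x) (Φ w) := dist_triangle_left _ _ _
    linarith
  let F : (((Finset.Icc (-(a : ℤ)) a : Finset ℤ) → Bool) ⊕ t) → Set M :=
    Sum.elim O (fun y => Metric.ball y.1 (min (r / 2) (δ / 2)))
  have hmain := cover_le f x (r := r) F ?_ ?_ ?_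
  · refine hmain.trans ?_
    haveI : Fintype t := Fintype.ofFinite t
    rw [tsum_fintype, Fintype.sum_sum_type]
    have h1 : ∑ y : t, upperFreq f x (F (Sum.inr y)) = 0 :=
      Finset.sum_eq_zero fun y _ => hball y.1 (htC y.2)
    rw [h1, add_zero]
    exact hfreq
  · rintro (v | y)
    · exact Metric.isOpen_thickening
    · exact Metric.isOpen_ball
  · rintro (v | y) b hb c hc
    · obtain ⟨_, ⟨w, hw, rfl⟩, h1⟩ := Metric.mem_thickening_iff.1 hb
      obtain ⟨_, ⟨w', hw', rfl⟩, h2⟩ := Metric.mem_thickening_iff.1 hc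
      have h3 : dist (Φ w) (Φ w') ≤ r / 3 := ha w w' fun i e1 e2 => by rw [hw.2 i e1 e2, hw'.2 i e1 e2]
      have h4 : dist b c ≤ dist b (Φ w) + dist (Φ w) (Φ w') + dist (Φ w') c := dist_triangle4 _ _ _ _
      rw [dist_comm (Φ w') c] at h4
      linarith
    · have h1 : dist b y.1 < min (r / 2) (δ / 2) := hb
      have h2 : dist c y.1 < min (r / 2) (δ / 2) := hc
      have h3 := dist_triangle_right b c y.1
      have h4 := min_le_left (r / 2) (δ / 2)
      linarith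
  · intro y
    by_cases hy : y ∈ ⋃ v, O v
    · obtain ⟨v, hv⟩ := Set.mem_iUnion.1 hy
      exact ⟨Sum.inl v, hv⟩
    · have h1 := htc (show y ∈ C from hy)
      simp only [Set.mem_iUnion] at h1
      obtain ⟨z, hz, hyz⟩ := h1
      exact ⟨Sum.inr ⟨z, hz⟩, hyz⟩

end Pool.Agent.Q90.KI2COV
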