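import Pool.Agent.Q88.MF.Stm

/-!
Job BIJ of project MF (helper88, MP_d8ee74_an).
-/

set_option autoImplicit false

open Set MeasureTheory Filter Topology

namespace Pool.Agent.Q90.MFBij

open Pool.Agent.Q88.MF

theorem hh_zero (a r : ℝ) : hh a 0 r = 0 := by
  simp [hh, H, mf]

theorem hh_ge_one (h1 : S_kmo) (a r s : ℝ) (ha : 1 < a) (hs : 1 ≤ s) : hh a s r = s := by
  have hk := ((h1 a ha).1 r).2
  have h0 : (0 : ℝ) ≤ s := by linarith
  have hm : mf a s = s := by
    unfold mf
    rw [if_neg (by linarith), if_neg (by linarith)]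
  rw [hh, if_pos h0, H, hm]
  refine max_eq_left ?_
  have := mul_le_mul_of_nonneg_left hk h0
  linarith

theorem bij (h : S_rat) (h1 : S_kmo) (h2 : S_hls) (h3 : S_inc) : S_bij := by
  intro a r ha
  have h0 : hh a 0 r = 0 := hh_zero a r
  have hpos : ∀ s : ℝ, 0 < s → 0 < hh a s r := by
    intro s hs
    rw [hh, if_pos hs.le, H]
    exact lt_of_lt_of_le (h a s s ha hs le_rfl).1 (le_max_left _ _)
  have hodd : ∀ s : ℝ, 0 < s → hh a (-s) r = - hh a s r := fun s hs =>
    (h3 a s (s + 1) r ha hs (by linarith)).2.2.1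
  have hneg : ∀ s : ℝ, s < 0 → hh a s r = - hh a (-s) r := by
    intro s hs
    have := hodd (-s) (by linarith)
    rwa [neg_neg] at this
  have hinc : ∀ s s' : ℝ, 0 < s → s < s' → hh a s r < hh a s' r := by
    intro s s' hs hss
    obtain ⟨p1, p2, _, _⟩ := h3 a s s' r ha hs hss
    have : 0 < P a s r * (s' - s) := mul_pos p1 (by linarith)
    linarith
  have hmono : StrictMono (fun s => hh a s r) := by
    intro s s' hss
    show hh a s r < hh a s' r
    rcases lt_trichotomy s 0 with hs | hs | hs
    · rcases lt_trichotomy s' 0 with hs' | hs' | hs'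
      · rw [hneg s hs, hneg s' hs']
        have := hinc (-s') (-s) (by linarith) (by linarith)
        linarith
      · rw [hs', h0, hneg s hs]
        have := hpos (-s) (by linarith)
        linarith
      · rw [hneg s hs]
        have := hpos (-s) (by linarith)
        have := hpos s' hs'
        linarith
    · rw [hs, h0]
      exact hpos s' (by linarith)
    · exact hinc s s' hs hss
  have hone : ∀ s : ℝ, 1 ≤ |s| → hh a s r = s := by
    intro s hs
    rcases le_total 0 s with h | h
    · rw [abs_of_nonneg h] at hs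
      exact hh_ge_one h1 a r s ha hs
    · rw [abs_of_nonpos h] at hs
      rw [hneg s (by linarith), hh_ge_one h1 a r (-s) ha hs, neg_neg]
  refine ⟨hmono, ?_, hone, h0, ?_⟩
  · obtain ⟨L, hL, hLip⟩ := h2 a ha
    have hcont : Continuous (fun s => hh a s r) := by
      have hl : LipschitzWith (Real.toNNReal L) (fun s => hh a s r) := by
        refine LipschitzWith.of_dist_le_mul fun s s' => ?_
        rw [Real.dist_eq, Real.dist_eq, Real.coe_toNNReal L (by linarith)]
        exact hLip s s' r
      exact hl.continuous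
    intro y
    have hm : (1 : ℝ) ≤ max 1 |y| := le_max_left _ _
    have hy : |y| ≤ max 1 |y| := le_max_right _ _
    have e1 : hh a (max 1 |y|) r = max 1 |y| := hh_ge_one h1 a r _ ha hm
    have e2 : hh a (-(max 1 |y|)) r = -(max 1 |y|) := by
      rw [hodd _ (by linarith), e1]
    refine mem_range_of_exists_le_of_exists_ge hcont ⟨-(max 1 |y|), ?_⟩ ⟨max 1 |y|, ?_⟩
    · show hh a (-(max 1 |y|)) r ≤ y
      rw [e2]
      have := neg_abs_le y
      linarith
    · show y ≤ hh a (max 1 |y|) r
      rw [e1]
      exact (le_abs_self y).trans hy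
  · intro s hs hs1
    have e0 : hh a 0 r ≤ hh a s r := hmono.monotone hs
    have e1 : hh a s r ≤ hh a 1 r := hmono.monotone hs1
    rw [h0] at e0
    rw [hh_ge_one h1 a r 1 ha le_rfl] at e1
    exact ⟨e0, e1⟩

end Pool.Agent.Q90.MFBij
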