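import Pool.Agent.Q88.MT.Stm

/-! Project MT (helper88), job FIN. -/

set_option autoImplicit false

open Set Filter Topology

namespace Pool.Agent.Q90.MTF

open Pool.Agent.Q88.MT

lemma sy_zero {n : ℕ} (k : Fin n → ℤ) : sy k (fun _ => 0) = 1 := by
  unfold sy
  have h0 : ((n.factorial : ℕ) : ℂ) ≠ 0 := by exact_mod_cast n.factorial_ne_zero
  simp [Fintype.card_perm, h0]

lemma sy_const {n : ℕ} (k : Fin n → ℤ) (hk : ∑ j, k j ≠ 0) (φ : ℝ) :
    sy k (fun _ => φ / ((∑ j, k j : ℤ) : ℝ)) = Complex.exp ((φ : ℂ) * Complex.I) := by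
  unfold sy
  have h0 : ((n.factorial : ℕ) : ℂ) ≠ 0 := by exact_mod_cast n.factorial_ne_zero
  have hK : (((∑ j, k j : ℤ)) : ℝ) ≠ 0 := by exact_mod_cast hk
  have e : ∀ π : Equiv.Perm (Fin n),
      (∑ j, φ / ((∑ j, k j : ℤ) : ℝ) * (k (π j) : ℝ)) = φ := by
    intro π
    rw [← Finset.mul_sum]
    have e1 : (∑ j, (k (π j) : ℝ)) = ((∑ j, k j : ℤ) : ℝ) := by
      rw [Equiv.sum_comp π (fun j => (k j : ℝ))]
      push_cast
      rfl
    rw [e1]
    field_simp
  simp only [e]
  rw [Finset.sum_const, Finset.card_univ, Fintype.card_perm, Fintype.card_fin, nsmul_eq_mul]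
  field_simp

/-- JOB FIN -/
theorem fin (h : S_bas) (h1 : S_bdd) (h2 : S_inv) (h3 : S_box) (h4 : S_ban) (h5 : S_out)
    (h6 : S_dis) (h7 : S_adj) : S_fin := by
  intro n k b
  obtain ⟨b1, b2, b3, b4⟩ := h n
  have p3 : ∀ t : Fin n → ℝ, sy k t ∈ Sp b k := by
    intro t
    by_contra hl
    obtain ⟨C, hC, hC2⟩ := h4 n k b (sy k t) hl
    obtain ⟨u, hu, hpos, hu2⟩ := h3 n k b t (1 / (2 * C)) (by positivity)
    have x1 := hC2 u hu
    have x2 := mul_le_mul_of_nonneg_left hu2 hC.le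
    have x3 : C * (1 / (2 * C) * nn u) = nn u / 2 := by field_simp
    linarith
  have p4 : ∀ l ∈ Sp b k, ‖l‖ ≤ 1 := by
    intro l hl
    by_contra hc
    exact h5 n k b l (not_le.1 hc) hl
  refine ⟨fun u hu => (h1 n k u hu.1).2, ?_, p3, p4, ?_⟩
  · intro c hc
    obtain ⟨u, hu, hpos, hu2⟩ := h3 n k b (fun _ => 0) ((1 - c) / 2) (by linarith)
    refine ⟨u, hu, hpos, ?_⟩
    rw [sy_zero] at hu2
    have hT := (h1 n k u hu.1).1
    have q1 := b2 (-1) u hu.1
    have q2 := b1 _ _ hT q1.1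
    have e1 : (fun y => T k u y + -1 * u y) = fun y => T k u y - 1 * u y := by
      funext y
      ring
    have q2' : Sq (fun y => T k u y - 1 * u y) := by
      rw [← e1]
      exact q2.1
    have q3 := b2 (-1) _ q2'
    have q4 := (b1 _ _ hT q3.1).2
    rw [q3.2] at q4
    have e2 : (fun y => T k u y + -1 * (T k u y - 1 * u y)) = u := by
      funext y
      ring
    rw [e2] at q4
    have e3 : ‖(-1 : ℂ)‖ = 1 := by simp
    rw [e3, one_mul] at q4
    have : c * nn u < (1 - (1 - c) / 2) * nn u := mul_lt_mul_of_pos_right (by linarith) hpos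
    linarith
  · intro hK
    ext l
    rw [mem_closedBall_zero_iff]
    refine ⟨p4 l, fun hl => ?_⟩
    rcases lt_or_eq_of_le hl with hlt | heq
    · rcases lt_or_gt_of_ne hK with hneg | hpos
      · by_contra hn
        refine h7 n k b l hn (h6 n (fun j => - k j) b _ ?_ ?_)
        · rw [Finset.sum_neg_distrib]
          linarith
        · rw [RCLike.norm_conj]
          exact hlt
      · exact h6 n k b l hpos hlt
    · have e : l = sy k (fun _ => l.arg / ((∑ j, k j : ℤ) : ℝ)) := by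
        rw [sy_const k hK]
        have := Complex.norm_mul_exp_arg_mul_I l
        rw [heq] at this
        simpa using this.symm
      rw [e]
      exact p3 _

end Pool.Agent.Q90.MTF
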