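import Pool.Agent.Q88.MT.Stm

/-! Project MT (helper88), job HCO. -/

set_option autoImplicit false

open Set Filter Topology

namespace Pool.Agent.Q90.MTH

open Pool.Agent.Q88.MT

lemma deg_sub {n : ℕ} (k : Fin n → ℤ) (π : Equiv.Perm (Fin n)) (y : X n)
    (h : ∀ j, 0 ≤ (y j : ℤ) - k (π j)) :
    (∑ j, ((((y j : ℤ) - k (π j)).toNat : ℕ) : ℤ)) = (∑ j, (y j : ℤ)) - ∑ j, k j := by
  rw [← Equiv.sum_comp π k, ← Finset.sum_sub_distrib]
  exact Finset.sum_congr rfl fun j _ => Int.toNat_of_nonneg (h j)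

lemma W_hc {n : ℕ} (k : Fin n → ℤ) (π : Equiv.Perm (Fin n)) (d : ℤ) (u : X n → ℂ) (y : X n) :
    W (fun j => k (π j)) (hc d u) y =
      if (∑ j, (y j : ℤ)) = d + ∑ j, k j then W (fun j => k (π j)) u y else 0 := by
  unfold W
  by_cases h : ∀ j, 0 ≤ (y j : ℤ) - k (π j)
  · rw [if_pos h, if_pos h]
    unfold hc
    rw [deg_sub k π y h]
    by_cases h2 : (∑ j, (y j : ℤ)) = d + ∑ j, k j
    · rw [if_pos h2, if_pos (by linarith)]
    · rw [if_neg h2, if_neg (fun h3 => h2 (by linarith))]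
  · rw [if_neg h, if_neg h]
    simp

lemma hc_le {n : ℕ} (d : ℤ) (u : X n → ℂ) (x : X n) : ‖hc d u x‖ ≤ ‖u x‖ := by
  unfold hc
  split_ifs
  · exact le_rfl
  · simp

lemma nn_sq {n : ℕ} (u : X n → ℂ) : nn u ^ 2 = ∑' x, ‖u x‖ ^ 2 :=
  Real.sq_sqrt (tsum_nonneg fun _ => sq_nonneg _)

/-- JOB HCO -/
theorem hco (h : S_bas) (h1 : S_inv) : S_hco := by
  intro n k b
  obtain ⟨_, _, _, h4⟩ := h n
  refine ⟨?_, ?_, ?_, ?_, ?_⟩
  · intro d u
    funext y
    unfold T
    simp only [W_hc]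
    unfold hc
    by_cases h2 : (∑ j, (y j : ℤ)) = d + ∑ j, k j
    · simp only [if_pos h2]
    · simp only [if_neg h2]
      simp
  · rintro d u ⟨hu, hs⟩
    refine ⟨(h4 u (hc d u) hu (hc_le d u)).1, fun π x => ?_⟩
    have e : (∑ j, ((x (π j) : ℕ) : ℤ)) = ∑ j, (x j : ℤ) :=
      Equiv.sum_comp π (fun j => ((x j : ℕ) : ℤ))
    unfold hc
    rw [e]
    by_cases h2 : (∑ j, (x j : ℤ)) = d
    · rw [if_pos h2, if_pos h2, hs π x]
    · rw [if_neg h2, if_neg h2, mul_zero]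
  · intro d u hd
    funext x
    unfold hc
    rw [if_neg]
    · rfl
    · intro h2
      have : 0 ≤ ∑ j, (x j : ℤ) := Finset.sum_nonneg fun j _ => Int.natCast_nonneg _
      omega
  · intro u hu
    have hf : HasSum (fun x : X n => ‖u x‖ ^ 2) (nn u ^ 2) := by
      rw [nn_sq]
      exact Summable.hasSum hu
    obtain ⟨deg, hdeg⟩ : ∃ deg : X n → ℤ, deg = fun x => ∑ j, (x j : ℤ) := ⟨_, rfl⟩
    have hf2 := (Equiv.sigmaFiberEquiv deg).hasSum_iff.2 hf
    refine hf2.sigma fun d => ?_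
    have hs : Summable fun c : {x : X n // deg x = d} => ‖u c‖ ^ 2 :=
      Summable.comp_injective hu Subtype.val_injective
    have e : nn (hc d u) ^ 2 = ∑' c : {x : X n // deg x = d}, ‖u c‖ ^ 2 := by
      rw [nn_sq]
      have e2 := tsum_subtype {x : X n | deg x = d} (fun x => ‖u x‖ ^ 2)
      rw [show (∑' c : {x : X n // deg x = d}, ‖u c‖ ^ 2) =
        ∑' c : {x : X n | deg x = d}, ‖u c‖ ^ 2 from rfl, e2]
      refine tsum_congr fun x => ?_
      unfold hc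
      by_cases h2 : deg x = d
      · rw [Set.indicator_of_mem (show x ∈ {x : X n | deg x = d} from h2)]
        rw [hdeg] at h2
        rw [if_pos h2]
      · rw [Set.indicator_of_notMem (show x ∉ {x : X n | deg x = d} from h2)]
        rw [hdeg] at h2
        rw [if_neg h2]
        simp
    rw [e]
    exact hs.hasSum
  · intro d u hu
    exact (h4 u (hc d u) hu (hc_le d u)).2

end Pool.Agent.Q90.MTH
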