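import Mathlib

/-!
# The measure algebra of a compact group

For a compact group `G`, `M(G)` is modelled (Riesz representation theorem) as the dual space of
`C(G) = C_0(G)`, with the weak* topology: `Meas G = WeakDual ℂ C(G, ℂ)`. The convolution is
`⟨μ * ν, f⟩ = ∫ ∫ f(s t) dν(t) dμ(s)`.
-/

set_option autoImplicit false

namespace Q90.MeasIdeal

variable (G : Type) [Group G] [TopologicalSpace G] [IsTopologicalGroup G] [CompactSpace G]

/-- `M(G)` with its weak* topology `σ(M(G), C(G))`. -/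
abbrev Meas : Type := WeakDual ℂ C(G, ℂ)

variable {G}

/-- `(s, t) ↦ f (s t)` -/
noncomputable def mulFun (f : C(G, ℂ)) : C(G × G, ℂ) := ⟨fun x => f (x.1 * x.2), by fun_prop⟩

/-- The function `s ↦ ∫ f(s t) dν(t)`. -/
noncomputable def slice (ν : Meas G) (f : C(G, ℂ)) : C(G, ℂ) where
  toFun s := ν ((mulFun f).curry s)
  continuous_toFun := ν.continuous.comp (mulFun f).curry.continuous

theorem slice_bound (ν : Meas G) (f : C(G, ℂ)) :
    ‖slice ν f‖ ≤ ‖WeakDual.toStrongDual ν‖ * ‖f‖ := by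
  rw [ContinuousMap.norm_le _ (by positivity)]
  intro s
  refine ((WeakDual.toStrongDual ν).le_opNorm _).trans ?_
  refine mul_le_mul_of_nonneg_left ?_ (norm_nonneg _)
  rw [ContinuousMap.norm_le _ (norm_nonneg _)]
  intro t
  exact f.norm_coe_le_norm (s * t)

/-- `f ↦ (s ↦ ∫ f(s t) dν(t))` as a bounded operator of `C(G)` -/
noncomputable def sliceL (ν : Meas G) : C(G, ℂ) →L[ℂ] C(G, ℂ) :=
  LinearMap.mkContinuous
    { toFun := slice ν
      map_add' := fun f g => by
        ext s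
        exact map_add ν ((mulFun f).curry s) ((mulFun g).curry s)
      map_smul' := fun c f => by
        ext s
        exact map_smul ν c ((mulFun f).curry s) } ‖WeakDual.toStrongDual ν‖ (slice_bound ν)

/-- The convolution `μ * ν`: `⟨μ * ν, f⟩ = ∫ (∫ f(s t) dν(t)) dμ(s)`. -/
noncomputable def conv (μ ν : Meas G) : Meas G :=
  StrongDual.toWeakDual ((WeakDual.toStrongDual μ).comp (sliceL ν))

/-- `J` is a left ideal of `M(G)`. -/
def IsLeftIdeal (J : Submodule ℂ (Meas G)) : Prop := ∀ μ, ∀ ν ∈ J, conv μ ν ∈ J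

/-- The left ideal `J` of `M(G)` is finitely generated: `J = M(G) * μ_1 + ⋯ + M(G) * μ_n` for some
`μ_1, …, μ_n ∈ J`. -/
def FinitelyGenerated (J : Submodule ℂ (Meas G)) : Prop :=
  ∃ (n : ℕ) (μ : Fin n → Meas G), (∀ i, μ i ∈ J) ∧
    ∀ ρ, ρ ∈ J ↔ ∃ ν : Fin n → Meas G, ρ = ∑ i, conv (ν i) (μ i)

end Q90.MeasIdeal
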