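import Mathlib
import Pool.Agent.Q90.MeasDefs

/-!
A weak*-closed ideal of `M(G)` that is not finitely generated, `G` the Cantor group.
-/

set_option autoImplicit false
set_option linter.unusedSectionVars false

open MeasureTheory

namespace Q90.MeasIdeal

/-- the Cantor group `{1, -1}^ℕ` -/
abbrev Cantor : Type := ℕ → ℤˣ

/-- The Walsh functions. -/
noncomputable def walsh (S : Finset ℕ) : C(Cantor, ℂ) where
  toFun x := ∏ k ∈ S, ((x k : ℤ) : ℂ)
  continuous_toFun := by
    refine continuous_finsetProd S fun k _ => ?_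
    exact (continuous_of_discreteTopology (f := fun u : ℤˣ => ((u : ℤ) : ℂ))).comp
      (continuous_apply k)

theorem walsh_apply (S : Finset ℕ) (x : Cantor) : walsh S x = ∏ k ∈ S, ((x k : ℤ) : ℂ) := rfl

theorem walsh_mul (S : Finset ℕ) (x y : Cantor) : walsh S (x * y) = walsh S x * walsh S y := by
  rw [walsh_apply, walsh_apply, walsh_apply, ← Finset.prod_mul_distrib]
  refine Finset.prod_congr rfl fun k _ => ?_
  simp

theorem norm_coe_unit (u : ℤˣ) : ‖((u : ℤ) : ℂ)‖ = 1 := by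
  rcases Int.units_eq_one_or u with h | h <;> simp [h]

theorem norm_walsh_apply (S : Finset ℕ) (x : Cantor) : ‖walsh S x‖ = 1 := by
  rw [walsh_apply, norm_prod]
  exact Finset.prod_eq_one fun k _ => norm_coe_unit _

theorem norm_walsh_le (S : Finset ℕ) : ‖walsh S‖ ≤ 1 := by
  rw [ContinuousMap.norm_le _ zero_le_one]
  exact fun x => (norm_walsh_apply S x).le

/-- The ideal: measures with spectrum in the set of Rademacher functions. -/
noncomputable def J : Submodule ℂ (Meas Cantor) where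
  carrier := {μ | ∀ S : Finset ℕ, S.card ≠ 1 → μ (walsh S) = 0}
  add_mem' := by
    intro μ ν hμ hν S hS
    change μ (walsh S) + ν (walsh S) = 0
    rw [hμ S hS, hν S hS, add_zero]
  zero_mem' := fun S _ => rfl
  smul_mem' := by
    intro c μ hμ S hS
    change c • μ (walsh S) = 0
    rw [hμ S hS, smul_zero]

theorem mem_J {μ : Meas Cantor} : μ ∈ J ↔ ∀ S : Finset ℕ, S.card ≠ 1 → μ (walsh S) = 0 :=
  Iff.rfl

theorem conv_walsh (μ ν : Meas Cantor) (S : Finset ℕ) :
    conv μ ν (walsh S) = μ (walsh S) * ν (walsh S) := by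
  change μ (slice ν (walsh S)) = _
  have h : slice ν (walsh S) = ν (walsh S) • walsh S := by
    ext s
    change ν ((mulFun (walsh S)).curry s) = ν (walsh S) * walsh S s
    have h2 : (mulFun (walsh S)).curry s = (walsh S s) • walsh S := by
      ext t
      exact walsh_mul S s t
    rw [h2, map_smul, smul_eq_mul, mul_comm]
  rw [h, map_smul, smul_eq_mul, mul_comm]

theorem isLeftIdeal_J : IsLeftIdeal J := by
  intro μ ν hν S hS
  rw [conv_walsh, hν S hS, mul_zero]

theorem isClosed_J : IsClosed (J : Set (Meas Cantor)) := by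
  have h : (J : Set (Meas Cantor)) = ⋂ (S : Finset ℕ) (_ : S.card ≠ 1), {μ | μ (walsh S) = 0} := by
    ext μ
    simp [mem_J]
  rw [h]
  refine isClosed_iInter fun S => isClosed_iInter fun _ => ?_
  exact isClosed_eq (WeakDual.eval_continuous _) continuous_const

/-- The Riesz product. -/
noncomputable def riesz (s : Finset ℕ) (a : ℕ → ℝ) : C(Cantor, ℂ) :=
  ∑ S ∈ s.powerset, (∏ k ∈ S, (Complex.I * (a k : ℂ))) • walsh S

theorem riesz_apply (s : Finset ℕ) (a : ℕ → ℝ) (x : Cantor) :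
    riesz s a x = ∏ k ∈ s, (1 + Complex.I * (a k : ℂ) * ((x k : ℤ) : ℂ)) := by
  rw [Finset.prod_one_add, riesz, ContinuousMap.sum_apply]
  refine Finset.sum_congr rfl fun S _ => ?_
  rw [ContinuousMap.smul_apply, walsh_apply, smul_eq_mul, ← Finset.prod_mul_distrib]

theorem norm_one_add (a : ℝ) (u : ℤˣ) :
    ‖(1 + Complex.I * (a : ℂ) * ((u : ℤ) : ℂ))‖ ≤ Real.exp (a ^ 2 / 2) := by
  have h1 : ‖(1 + Complex.I * (a : ℂ) * ((u : ℤ) : ℂ))‖ ^ 2 = 1 + a ^ 2 := by
    rw [← Complex.normSq_eq_norm_sq, Complex.normSq_apply]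
    rcases Int.units_eq_one_or u with h | h <;> simp [h] <;> ring
  have h2 : 1 + a ^ 2 ≤ Real.exp (a ^ 2 / 2) ^ 2 := by
    rw [← Real.exp_nat_mul]
    have := Real.add_one_le_exp (a ^ 2)
    calc 1 + a ^ 2 = a ^ 2 + 1 := by ring
      _ ≤ Real.exp (a ^ 2) := this
      _ = Real.exp ((2 : ℕ) * (a ^ 2 / 2)) := by congr 1; push_cast; ring
  refine le_of_sq_le_sq ?_ (Real.exp_nonneg _)
  rw [h1]; exact h2

theorem norm_riesz_le (s : Finset ℕ) (a : ℕ → ℝ) :
    ‖riesz s a‖ ≤ Real.exp ((∑ k ∈ s, a k ^ 2) / 2) := by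
  rw [ContinuousMap.norm_le _ (Real.exp_nonneg _)]
  intro x
  rw [riesz_apply, norm_prod, Finset.sum_div, Real.exp_sum]
  exact Finset.prod_le_prod (fun k _ => norm_nonneg _) fun k _ => norm_one_add _ _

/-- the `k`-th Rademacher coefficient -/
noncomputable def coeff (μ : Meas Cantor) (k : ℕ) : ℂ := μ (walsh {k})

theorem apply_riesz {μ : Meas Cantor} (hμ : μ ∈ J) (s : Finset ℕ) (a : ℕ → ℝ) :
    μ (riesz s a) = ∑ k ∈ s, Complex.I * (a k : ℂ) * coeff μ k := by
  classical
  rw [riesz, map_sum]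
  have h1 : ∀ S ∈ s.powerset, S ∉ s.image (fun k => ({k} : Finset ℕ)) →
      μ ((∏ k ∈ S, (Complex.I * (a k : ℂ))) • walsh S) = 0 := by
    intro S hS hS'
    rw [map_smul, hμ S, smul_zero]
    intro hc
    obtain ⟨k, rfl⟩ := Finset.card_eq_one.1 hc
    refine hS' (Finset.mem_image.2 ⟨k, ?_, rfl⟩)
    simpa using hS
  have h2 : s.image (fun k => ({k} : Finset ℕ)) ⊆ s.powerset := by
    intro S hS
    obtain ⟨k, hk, rfl⟩ := Finset.mem_image.1 hS
    simpa using hk
  rw [← Finset.sum_subset h2 h1, Finset.sum_image]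
  · refine Finset.sum_congr rfl fun k _ => ?_
    rw [map_smul, Finset.prod_singleton, smul_eq_mul]
    rfl
  · intro i _ j _ hij
    simpa using hij

theorem norm_sum_le' {μ : Meas Cantor} (hμ : μ ∈ J) (s : Finset ℕ) (a : ℕ → ℝ) :
    ‖∑ k ∈ s, (a k : ℂ) * coeff μ k‖ ≤
      ‖WeakDual.toStrongDual μ‖ * Real.exp ((∑ k ∈ s, a k ^ 2) / 2) := by
  have h1 : ‖∑ k ∈ s, (a k : ℂ) * coeff μ k‖ = ‖μ (riesz s a)‖ := by
    rw [apply_riesz hμ]
    have h2 : ∑ k ∈ s, Complex.I * (a k : ℂ) * coeff μ k =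
        Complex.I * ∑ k ∈ s, (a k : ℂ) * coeff μ k := by
      rw [Finset.mul_sum]
      exact Finset.sum_congr rfl fun k _ => by ring
    rw [h2, norm_mul, Complex.norm_I, one_mul]
  rw [h1]
  exact ((WeakDual.toStrongDual μ).le_opNorm _).trans
    (mul_le_mul_of_nonneg_left (norm_riesz_le s a) (norm_nonneg _))

/-- square summability from a bound of exponential type -/
theorem tendsto_of_bound {b : ℕ → ℝ} {M : ℝ}
    (h : ∀ (s : Finset ℕ) (a : ℕ → ℝ), |∑ k ∈ s, a k * b k| ≤
      M * Real.exp ((∑ k ∈ s, a k ^ 2) / 2)) : Filter.Tendsto b Filter.atTop (nhds 0) := by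
  have h1 : ∀ s : Finset ℕ, ∑ k ∈ s, b k ^ 2 ≤ (M * Real.exp (1 / 2)) ^ 2 := by
    intro s
    set T := ∑ k ∈ s, b k ^ 2 with hT
    have hT0 : 0 ≤ T := Finset.sum_nonneg fun k _ => sq_nonneg _
    rcases hT0.eq_or_lt with h0 | h0
    · rw [← h0]; positivity
    have h2 := h s (fun k => b k / Real.sqrt T)
    have h3 : ∑ k ∈ s, b k / Real.sqrt T * b k = Real.sqrt T := by
      have : ∑ k ∈ s, b k / Real.sqrt T * b k = T / Real.sqrt T := by
        rw [hT, Finset.sum_div]
        exact Finset.sum_congr rfl fun k _ => by ring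
      rw [this, Real.div_sqrt]
    have h4 : ∑ k ∈ s, (b k / Real.sqrt T) ^ 2 = 1 := by
      have : ∑ k ∈ s, (b k / Real.sqrt T) ^ 2 = T / T := by
        rw [hT, Finset.sum_div]
        refine Finset.sum_congr rfl fun k _ => ?_
        rw [div_pow, Real.sq_sqrt hT0]
      rw [this, div_self h0.ne']
    rw [h3, h4, abs_of_nonneg (Real.sqrt_nonneg _)] at h2
    calc T = Real.sqrt T ^ 2 := (Real.sq_sqrt hT0).symm
      _ ≤ _ := pow_le_pow_left₀ (Real.sqrt_nonneg _) h2 2
  have h5 : Summable fun k => b k ^ 2 :=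
    summable_of_sum_le (fun k => sq_nonneg _) h1
  have h6 := h5.tendsto_atTop_zero
  have h7 := (Real.continuous_sqrt.tendsto 0).comp h6
  rw [Real.sqrt_zero] at h7
  refine (tendsto_zero_iff_abs_tendsto_zero b).2 (h7.congr fun k => ?_)
  exact Real.sqrt_sq_eq_abs _

theorem tendsto_coeff {μ : Meas Cantor} (hμ : μ ∈ J) :
    Filter.Tendsto (coeff μ) Filter.atTop (nhds 0) := by
  have hre : Filter.Tendsto (fun k => (coeff μ k).re) Filter.atTop (nhds 0) := by
    refine tendsto_of_bound (M := ‖WeakDual.toStrongDual μ‖) fun s a => ?_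
    refine le_trans ?_ (norm_sum_le' hμ s a)
    have : ∑ k ∈ s, a k * (coeff μ k).re = (∑ k ∈ s, (a k : ℂ) * coeff μ k).re := by
      rw [Complex.re_sum]
      exact Finset.sum_congr rfl fun k _ => by simp
    rw [this]
    exact Complex.abs_re_le_norm _
  have him : Filter.Tendsto (fun k => (coeff μ k).im) Filter.atTop (nhds 0) := by
    refine tendsto_of_bound (M := ‖WeakDual.toStrongDual μ‖) fun s a => ?_
    refine le_trans ?_ (norm_sum_le' hμ s a)
    have : ∑ k ∈ s, a k * (coeff μ k).im = (∑ k ∈ s, (a k : ℂ) * coeff μ k).im := by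
      rw [Complex.im_sum]
      exact Finset.sum_congr rfl fun k _ => by simp
    rw [this]
    exact Complex.abs_im_le_norm _
  have h := (Complex.continuous_ofReal.tendsto 0).comp hre
  have h' := ((Complex.continuous_ofReal.tendsto 0).comp him).mul_const Complex.I
  have h'' := h.add h'
  simp only [Complex.ofReal_zero, zero_mul, add_zero] at h''
  exact h''.congr fun k => Complex.re_add_im _

/-! ### The measures `r_k dm` -/

theorem exists_rademacher (k : ℕ) : ∃ ρ : StrongDual ℂ C(Cantor, ℂ), ‖ρ‖ ≤ 1 ∧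
    ρ (walsh {k}) = 1 ∧ ∀ S : Finset ℕ, S.card ≠ 1 → ρ (walsh S) = 0 := by
  classical
  let _ : MeasurableSpace Cantor := borel _
  have _ : BorelSpace Cantor := ⟨rfl⟩
  set m : Measure Cantor := Measure.haarMeasure ⊤ with hm
  have hprob : IsProbabilityMeasure m := ⟨by
    have := Measure.haarMeasure_self (K₀ := (⊤ : TopologicalSpace.PositiveCompacts Cantor))
    simpa using this⟩
  have hint : ∀ f : C(Cantor, ℂ), Integrable (fun x => f x) m := fun f =>
    f.continuous.integrable_of_hasCompactSupport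
      (HasCompactSupport.of_compactSpace _)
  let L : C(Cantor, ℂ) →ₗ[ℂ] ℂ :=
    { toFun := fun f => ∫ x, (f * walsh {k}) x ∂m
      map_add' := fun f g => by
        rw [add_mul]
        exact integral_add (hint (f * walsh {k})) (hint (g * walsh {k}))
      map_smul' := fun c f => by
        rw [smul_mul_assoc]
        exact integral_smul c _ }
  have hL : ∀ f, ‖L f‖ ≤ 1 * ‖f‖ := by
    intro f
    rw [one_mul]
    have h1 : ‖∫ x, (f * walsh {k}) x ∂m‖ ≤ ‖f‖ * m.real Set.univ := by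
      refine norm_integral_le_of_norm_le_const (Filter.Eventually.of_forall fun x => ?_)
      rw [ContinuousMap.mul_apply, norm_mul, norm_walsh_apply, mul_one]
      exact f.norm_coe_le_norm x
    rw [probReal_univ, mul_one] at h1
    exact h1
  refine ⟨L.mkContinuous 1 hL, LinearMap.mkContinuous_norm_le _ zero_le_one _, ?_, ?_⟩
  · change ∫ x, (walsh {k} * walsh {k}) x ∂m = 1
    have h1 : ∀ x : Cantor, (walsh {k} * walsh {k}) x = 1 := by
      intro x
      rw [ContinuousMap.mul_apply, walsh_apply, Finset.prod_singleton]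
      rcases Int.units_eq_one_or (x k) with h | h <;> simp [h]
    simp only [h1]
    simp
  · intro S hS
    change ∫ x, (walsh S * walsh {k}) x ∂m = 0
    -- a point `y` with `w_S(y) w_k(y) = -1`
    obtain ⟨y, hy⟩ : ∃ y : Cantor, walsh S y * walsh {k} y = -1 := by
      have hne : ∃ j, ¬ (j ∈ S ↔ j ∈ ({k} : Finset ℕ)) := by
        by_contra hcon
        push Not at hcon
        have : S = {k} := Finset.ext hcon
        rw [this] at hS
        exact hS (Finset.card_singleton k)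
      obtain ⟨j, hj⟩ := hne
      have hw : ∀ T : Finset ℕ, walsh T (Function.update (1 : Cantor) j (-1)) =
          if j ∈ T then -1 else 1 := by
        intro T
        rw [walsh_apply]
        split_ifs with hjT
        · rw [Finset.prod_eq_single j]
          · simp
          · intro b _ hb
            rw [Function.update_of_ne hb]
            simp
          · exact fun h => absurd hjT h
        · refine Finset.prod_eq_one fun b hb => ?_
          have hbj : b ≠ j := fun h => hjT (h ▸ hb)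
          rw [Function.update_of_ne hbj]
          simp
      refine ⟨Function.update (1 : Cantor) j (-1), ?_⟩
      rw [hw, hw]
      by_cases h1 : j ∈ S <;> by_cases h2 : j ∈ ({k} : Finset ℕ)
      · exact absurd (iff_of_true h1 h2) hj
      · rw [if_pos h1, if_neg h2]; ring
      · rw [if_neg h1, if_pos h2]; ring
      · exact absurd (iff_of_false h1 h2) hj
    have h2 : ∫ x, (walsh S * walsh {k}) (y * x) ∂m = ∫ x, (walsh S * walsh {k}) x ∂m :=
      integral_mul_left_eq_self (fun x => (walsh S * walsh {k}) x) y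
    have h3 : ∀ x, (walsh S * walsh {k}) (y * x) = -((walsh S * walsh {k}) x) := by
      intro x
      rw [ContinuousMap.mul_apply, ContinuousMap.mul_apply, walsh_mul, walsh_mul]
      calc walsh S y * walsh S x * (walsh {k} y * walsh {k} x)
          = (walsh S y * walsh {k} y) * (walsh S x * walsh {k} x) := by ring
        _ = _ := by rw [hy]; ring
    simp only [h3] at h2
    rw [integral_neg] at h2
    exact neg_eq_self.1 h2

theorem open_mapping_sum {E F : Type} [NormedAddCommGroup E] [NormedSpace ℂ E] [CompleteSpace E]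
    [NormedAddCommGroup F] [NormedSpace ℂ F] [CompleteSpace F] {n : ℕ} (S : Fin n → (E →L[ℂ] F))
    (J : Submodule ℂ F) (hJ : IsClosed (J : Set F))
    (h : ∀ ρ ∈ J, ∃ x : Fin n → E, ∑ i, S i (x i) = ρ)
    (h' : ∀ x : Fin n → E, ∑ i, S i (x i) ∈ J) :
    ∃ C > 0, ∀ ρ ∈ J, ∃ x : Fin n → E, ∑ i, S i (x i) = ρ ∧ ‖x‖ ≤ C * ‖ρ‖ := by
  have _ : CompleteSpace J := hJ.completeSpace_coe
  let T : (Fin n → E) →L[ℂ] F := ∑ i, (S i).comp (ContinuousLinearMap.proj i)
  have hT : ∀ x : Fin n → E, T x = ∑ i, S i (x i) := by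
    intro x
    rw [sum_apply]
    rfl
  let T' : (Fin n → E) →L[ℂ] J := T.codRestrict J (fun x => by rw [hT]; exact h' x)
  have hsurj : Function.Surjective T' := by
    rintro ⟨ρ, hρ⟩
    obtain ⟨x, hx⟩ := h ρ hρ
    refine ⟨x, Subtype.ext ?_⟩
    change T x = ρ
    rw [hT, hx]
  obtain ⟨C, hC, hpre⟩ := T'.exists_preimage_norm_le hsurj
  refine ⟨C, hC, fun ρ hρ => ?_⟩
  obtain ⟨x, hx1, hx2⟩ := hpre ⟨ρ, hρ⟩
  refine ⟨x, ?_, hx2⟩
  rw [← hT]
  exact congrArg Subtype.val hx1

theorem not_finitelyGenerated_J : ¬ FinitelyGenerated J := by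
  rintro ⟨n, μ, hμ, hJ⟩
  -- the norm-closed subspace `J`
  let J' : Submodule ℂ (StrongDual ℂ C(Cantor, ℂ)) :=
    J.comap (StrongDual.toWeakDual : StrongDual ℂ C(Cantor, ℂ) ≃ₗ[ℂ] WeakDual ℂ C(Cantor, ℂ)).toLinearMap
  have hJ' : IsClosed (J' : Set (StrongDual ℂ C(Cantor, ℂ))) := by
    have h : (J' : Set (StrongDual ℂ C(Cantor, ℂ))) =
        ⋂ (S : Finset ℕ) (_ : S.card ≠ 1), {μ | μ (walsh S) = 0} := by
      ext μ
      simp only [Set.mem_iInter, Set.mem_ofPred_eq]
      exact Iff.rfl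
    rw [h]
    refine isClosed_iInter fun S => isClosed_iInter fun _ => ?_
    exact isClosed_eq (ContinuousLinearMap.apply ℂ ℂ (walsh S)).continuous continuous_const
  let R : Fin n → (StrongDual ℂ C(Cantor, ℂ) →L[ℂ] StrongDual ℂ C(Cantor, ℂ)) := fun i =>
    (ContinuousLinearMap.compL ℂ C(Cantor, ℂ) C(Cantor, ℂ) ℂ).flip (sliceL (μ i))
  have hT : ∀ x : Fin n → StrongDual ℂ C(Cantor, ℂ), StrongDual.toWeakDual (∑ i, R i (x i)) =
      ∑ i, conv (StrongDual.toWeakDual (x i)) (μ i) := by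
    intro x
    rw [map_sum]
    rfl
  have hs : ∀ ρ ∈ J', ∃ x : Fin n → StrongDual ℂ C(Cantor, ℂ), ∑ i, R i (x i) = ρ := by
    intro ρ hρ
    obtain ⟨ν, hν⟩ := (hJ (StrongDual.toWeakDual ρ)).1 hρ
    refine ⟨fun i => WeakDual.toStrongDual (ν i), ?_⟩
    apply (StrongDual.toWeakDual : StrongDual ℂ C(Cantor, ℂ) ≃ₗ[ℂ]
      WeakDual ℂ C(Cantor, ℂ)).injective
    rw [hT, hν]
    rfl
  have hs' : ∀ x : Fin n → StrongDual ℂ C(Cantor, ℂ), ∑ i, R i (x i) ∈ J' := fun x =>
    (hJ _).2 ⟨_, hT x⟩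
  obtain ⟨C, hC, hpre⟩ := open_mapping_sum (E := StrongDual ℂ C(Cantor, ℂ))
    (F := StrongDual ℂ C(Cantor, ℂ)) (n := n) R J' hJ' hs hs'
  have hk : ∀ k, 1 ≤ ∑ i, C * ‖coeff (μ i) k‖ := by
    intro k
    obtain ⟨ρ, hρ1, hρ2, hρ3⟩ := exists_rademacher k
    obtain ⟨x, h1, hx2⟩ := hpre ρ hρ3
    have h2 : StrongDual.toWeakDual ρ = ∑ i, conv (StrongDual.toWeakDual (x i)) (μ i) := by
      rw [← h1, hT]
    have h3 : ρ (walsh {k}) = ∑ i, x i (walsh {k}) * coeff (μ i) k := by
      have h4 : (StrongDual.toWeakDual ρ) (walsh {k}) =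
          (∑ i, conv (StrongDual.toWeakDual (x i)) (μ i) : Meas Cantor) (walsh {k}) := by rw [h2]
      have h5 : (∑ i, conv (StrongDual.toWeakDual (x i)) (μ i) : Meas Cantor) (walsh {k}) =
          ∑ i, (conv (StrongDual.toWeakDual (x i)) (μ i)) (walsh {k}) := by
        have := sum_apply Finset.univ
          (fun i => WeakDual.toStrongDual (conv (StrongDual.toWeakDual (x i)) (μ i))) (walsh {k})
        rw [← map_sum] at this
        exact this
      rw [h5] at h4
      refine h4.trans (Finset.sum_congr rfl fun i _ => ?_)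
      rw [conv_walsh]
      rfl
    have hx3 : ‖x‖ ≤ C := by
      refine hx2.trans ?_
      calc C * ‖ρ‖ ≤ C * 1 := mul_le_mul_of_nonneg_left hρ1 hC.le
        _ = C := mul_one _
    calc (1 : ℝ) = ‖ρ (walsh {k})‖ := by rw [hρ2, norm_one]
      _ = ‖∑ i, x i (walsh {k}) * coeff (μ i) k‖ := by rw [h3]
      _ ≤ ∑ i, ‖x i (walsh {k}) * coeff (μ i) k‖ := norm_sum_le _ _
      _ ≤ ∑ i, C * ‖coeff (μ i) k‖ := by
          refine Finset.sum_le_sum fun i _ => ?_
          rw [norm_mul]
          refine mul_le_mul_of_nonneg_right ?_ (norm_nonneg _)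
          calc ‖x i (walsh {k})‖ ≤ ‖x i‖ * ‖walsh {k}‖ := (x i).le_opNorm _
            _ ≤ ‖x‖ * 1 := mul_le_mul (norm_le_pi_norm x i) (norm_walsh_le _) (norm_nonneg _)
                (norm_nonneg _)
            _ ≤ C := by rw [mul_one]; exact hx3
  have hlim : Filter.Tendsto (fun k => ∑ i, C * ‖coeff (μ i) k‖) Filter.atTop (nhds 0) := by
    have h1 : (0 : ℝ) = ∑ i : Fin n, C * ‖(0 : ℂ)‖ := by simp
    rw [h1]
    exact tendsto_finsetSum _ fun i _ => ((tendsto_coeff (hμ i)).norm).const_mul C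
  have := ge_of_tendsto' hlim hk
  linarith

end Q90.MeasIdeal
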