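import Pool.Agent.Q90.MsHS

set_option autoImplicit false
set_option linter.unusedSectionVars false

/-!
Groups all of whose operator norm approximations are trivial on a Kazhdan subgroup.
-/

open Filter Topology
open scoped InnerProductSpace
open Pool.Agent.Helper455.KZ

noncomputable section

namespace Q90.MS

theorem CL_sub {r : ℕ} (A B : Matrix (Fin r) (Fin r) ℂ) : CL (A - B) = CL A - CL B :=
  map_sub (Matrix.toEuclideanCLM (𝕜 := ℂ)) A B

theorem CL_mul {r : ℕ} (A B : Matrix (Fin r) (Fin r) ℂ) : CL (A * B) = CL A * CL B :=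
  map_mul (Matrix.toEuclideanCLM (𝕜 := ℂ)) A B

theorem CL_one {r : ℕ} : CL (1 : Matrix (Fin r) (Fin r) ℂ) = 1 :=
  map_one (Matrix.toEuclideanCLM (𝕜 := ℂ))

theorem CL_zero {r : ℕ} : CL (0 : Matrix (Fin r) (Fin r) ℂ) = 0 :=
  map_zero (Matrix.toEuclideanCLM (𝕜 := ℂ))

variable {G : Type} [Group G] {k : ℕ → ℕ}

/-- asymptotic homomorphisms for the operator norm -/
def AH (l : Filter ℕ) (φ : ∀ n, G → Matrix.unitaryGroup (Fin (k n)) ℂ) : Prop :=
  ∀ g h : G, Tendsto (fun n => ‖CL ((φ n (g * h)).val - (φ n g).val * (φ n h).val)‖) l (𝓝 0)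

variable {ω : Ultrafilter ℕ} {φ : ∀ n, G → Matrix.unitaryGroup (Fin (k n)) ℂ}

theorem arep_E (hφ : AH (ω : Filter ℕ) φ) : ARep ω (fun n g => CL (φ n g).val) where
  inner n g x y := inner_CL (φ n g) x y
  mul g h := by
    refine (hφ g h).congr fun n => ?_
    rw [CL_sub, CL_mul]

theorem CL_one_le' (r : ℕ) : ‖CL (1 : Matrix (Fin r) (Fin r) ℂ)‖ ≤ 1 :=
  norm_CL_le (1 : Matrix.unitaryGroup (Fin r) ℂ)

theorem arep_L (hφ : AH (ω : Filter ℕ) φ) : ARep ω (fun n g => LR (φ n g).val 1) where
  inner n g x y := by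
    have := inner_LR (φ n g) 1 x y
    rw [← one_ct] at this
    exact this
  mul g h := by
    refine squeeze_zero (fun n => norm_nonneg _) (fun n => ?_) (hφ g h)
    have e : LR (φ n (g * h)).val 1 - LR (φ n g).val 1 * LR (φ n h).val 1 =
        LR ((φ n (g * h)).val - (φ n g).val * (φ n h).val) 1 := by
      rw [LR_mul, LR_sub_left, Matrix.mul_one]
    rw [e]
    refine (opnorm_LR _ _).trans ?_
    exact (mul_le_mul_of_nonneg_left (CL_one_le' _) (norm_nonneg _)).trans (by rw [mul_one])

theorem arep_R (hφ : AH (ω : Filter ℕ) φ) :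
    ARep ω (fun n g => LR 1 (φ n g).val.conjTranspose) where
  inner n g x y := inner_LR 1 (φ n g) x y
  mul g h := by
    refine squeeze_zero (fun n => norm_nonneg _) (fun n => ?_) (hφ g h)
    have e : LR 1 (φ n (g * h)).val.conjTranspose -
        LR 1 (φ n g).val.conjTranspose * LR 1 (φ n h).val.conjTranspose =
        LR 1 ((φ n (g * h)).val - (φ n g).val * (φ n h).val).conjTranspose := by
      rw [LR_mul, Matrix.conjTranspose_sub, LR_sub_right, Matrix.conjTranspose_mul,
        Matrix.mul_one]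
    rw [e]
    refine (opnorm_LR _ _).trans ?_
    rw [norm_CL_ct]
    exact (mul_le_mul_of_nonneg_right (CL_one_le' _) (norm_nonneg _)).trans (by rw [one_mul])

theorem UA_eq (n : ℕ) (g : G) : LR (φ n g).val (φ n g).val.conjTranspose =
    LR (φ n g).val 1 * LR 1 (φ n g).val.conjTranspose := LR_split _ _

theorem arep_A (hφ : AH (ω : Filter ℕ) φ) :
    ARep ω (fun n g => LR (φ n g).val (φ n g).val.conjTranspose) where
  inner n g x y := inner_LR (φ n g) (φ n g) x y
  mul g h := by
    have h2 := (hφ g h).const_mul 2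
    rw [mul_zero] at h2
    refine squeeze_zero (fun n => norm_nonneg _) (fun n => ?_) h2
    set D := (φ n (g * h)).val - (φ n g).val * (φ n h).val with hD
    have e : LR (φ n (g * h)).val (φ n (g * h)).val.conjTranspose -
        LR (φ n g).val (φ n g).val.conjTranspose * LR (φ n h).val (φ n h).val.conjTranspose =
        LR D (φ n (g * h)).val.conjTranspose +
          LR ((φ n g).val * (φ n h).val) D.conjTranspose := by
      rw [LR_mul, hD, LR_sub_left, Matrix.conjTranspose_sub, LR_sub_right,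
        Matrix.conjTranspose_mul]
      abel
    rw [e]
    refine (norm_add_le _ _).trans ?_
    have h3 : ‖LR D (φ n (g * h)).val.conjTranspose‖ ≤ ‖CL D‖ := by
      refine (opnorm_LR _ _).trans ?_
      rw [norm_CL_ct]
      exact (mul_le_mul_of_nonneg_left (norm_CL_le _) (norm_nonneg _)).trans (by rw [mul_one])
    have h4 : ‖LR ((φ n g).val * (φ n h).val) D.conjTranspose‖ ≤ ‖CL D‖ := by
      refine (opnorm_LR _ _).trans ?_
      rw [norm_CL_ct]
      have h5 : ‖CL ((φ n g).val * (φ n h).val)‖ ≤ 1 := norm_CL_le (φ n g * φ n h)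
      exact (mul_le_mul_of_nonneg_right h5 (norm_nonneg _)).trans (by rw [one_mul])
    linarith

theorem rep_A (hφ : AH (ω : Filter ℕ) φ) (g : G) (x : UP ω (fun n => HSp (k n))) :
    (arep_A hφ).rep g x = (arep_L hφ).rep g ((arep_R hφ).rep g x) := by
  have h := op_mul (ω := ω) ((arep_L hφ).bd g) ((arep_R hφ).bd g)
  have e : (fun n => LR (φ n g).val 1 * LR 1 (φ n g).val.conjTranspose) =
      fun n => LR (φ n g).val (φ n g).val.conjTranspose := by
    funext n; exact (UA_eq n g).symm
  rw [e] at h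
  exact congrArg (fun T => T x) h

theorem rep_LR (hφ : AH (ω : Filter ℕ) φ) (g h : G) (x : UP ω (fun n => HSp (k n))) :
    (arep_L hφ).rep g ((arep_R hφ).rep h x) = (arep_R hφ).rep h ((arep_L hφ).rep g x) := by
  have h1 := op_mul (ω := ω) ((arep_L hφ).bd g) ((arep_R hφ).bd h)
  have h2 := op_mul (ω := ω) ((arep_R hφ).bd h) ((arep_L hφ).bd g)
  have e : (fun n => LR (φ n g).val 1 * LR 1 (φ n h).val.conjTranspose) =
      fun n => LR 1 (φ n h).val.conjTranspose * LR (φ n g).val 1 := by
    funext n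
    rw [LR_mul, LR_mul, Matrix.mul_one, Matrix.mul_one, Matrix.one_mul, Matrix.one_mul]
  rw [e, h2] at h1
  exact (congrArg (fun T => T x) h1).symm

variable {K : Type} [Field K] [Fintype K] {m : ℕ} (u : Fin m → K → G)

/-- commutators of elements of the line group with elements commuting with its conjugate -/
def CC (t : G) : Set G :=
  {x | ∃ γ ∈ lineGroup u, ∃ c : G, (∀ i a, Commute c (t⁻¹ * u i a * t)) ∧
    x = c⁻¹ * γ * c * γ⁻¹}

theorem Qn_smul {E : ℕ → Type} [∀ n, NormedAddCommGroup (E n)] [∀ n, InnerProductSpace ℂ (E n)]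
    (U : ∀ n, G → (E n →L[ℂ] E n)) (n : ℕ) (i : Fin m) (c : ℂ) (x : E n) :
    Qn u U n i (c • x) = c • Qn u U n i x := map_smul _ _ _

theorem col_Qn (n : ℕ) (i : Fin m) (j : Fin (k n)) (x : HSp (k n)) :
    col j (Qn u (fun n g => LR (φ n g).val 1) n i x) =
      Qn u (fun n g => CL (φ n g).val) n i (col j x) := by
  rw [Qn_apply, Qn_apply]
  simp only [co, avg, map_sub, map_smul, map_sum, col_left]

theorem kill_ultra {κ : ℝ} (hκ : 0 < κ) (hu : ∀ i a b, u i (a + b) = u i a * u i b)
    (hgap : HasGap u κ) (t : G)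
    (ht : ∀ i a, t⁻¹ * u i a * t ∈ lineGroup u)
    (hgen : Subgroup.closure ({g | ∃ i a, g = u i a} ∪ {t}) = ⊤)
    (hN : ∀ i a, u i a ∈ Subgroup.normalClosure (CC u t))
    (hφ : AH (ω : Filter ℕ) φ) (i : Fin m) (a : K) :
    Tendsto (fun n => ‖CL ((φ n (u i a)).val - 1)‖) ω (𝓝 0) := by
  classical
  have hE := arep_E hφ
  have hL := arep_L hφ
  have hR := arep_R hφ
  have hA := arep_A hφ
  have hc : 0 < κ / 2 := by linarith
  obtain ⟨V, hV1, hV2⟩ := exists_low u hu hκ hgap hE
  have hV : Low u hE (κ / 2) V := ⟨hV1, hV2⟩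
  obtain ⟨V', hV1', hV2'⟩ := exists_low u hu hκ hgap hA
  have hV' : Low u hA (κ / 2) V' := ⟨hV1', hV2'⟩
  rcases ω.em (fun n => V n = ⊤) with hT | hT
  · -- all vectors are almost invariant
    have h1 : hE.rep (u i a) = 1 := by
      apply up_ext
      intro x hx
      have hx' : Bd (fun n => prj V n (x n)) := bd_act (prj_bd V) hx
      have e : cls ω (fun n => prj V n (x n)) = cls ω x := by
        rw [cls_eq hx' hx]
        refine tendsto_const_nhds.congr' ?_
        filter_upwards [hT] with n hn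
        have h2 : x n ∈ V n := by rw [hn]; trivial
        have : prj V n (x n) = x n := Submodule.starProjection_eq_self_iff.mpr h2
        rw [this, sub_self, norm_zero]
      rw [← e]
      exact hV.fix _ hx' (fun n => Submodule.starProjection_apply_mem _ _) i a
    have h2 : op ω (fun n => CL (φ n (u i a)).val) = op ω (fun n => (1 : Eu (k n) →L[ℂ] Eu (k n))) := by
      rw [op_one]; exact h1
    have hb1 : Bd (fun n => (1 : Eu (k n) →L[ℂ] Eu (k n))) :=
      ⟨1, fun n => ContinuousLinearMap.opNorm_le_bound _ zero_le_one fun x => by simp⟩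
    rw [op_eq (hE.bd _) hb1] at h2
    refine h2.congr fun n => ?_
    rw [CL_sub, CL_one]
  · exfalso
    let R : ∀ n, Matrix (Fin (k n)) (Fin (k n)) ℂ := fun n =>
      (Matrix.toEuclideanCLM (𝕜 := ℂ)).symm (1 - prj V n)
    have hCR : ∀ n, CL (R n) = 1 - prj V n := fun n => by
      show Matrix.toEuclideanCLM (𝕜 := ℂ) _ = _
      exact StarAlgEquiv.apply_symm_apply _ _
    have hRR : ∀ n, R n * R n = R n := by
      intro n
      apply (Matrix.toEuclideanCLM (𝕜 := ℂ)).injective
      rw [map_mul]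
      show CL (R n) * CL (R n) = CL (R n)
      rw [hCR]
      have hid : prj V n * prj V n = prj V n := Submodule.isIdempotentElem_starProjection _
      rw [mul_sub, sub_mul, sub_mul, hid]
      simp
    let y : ∀ n, HSp (k n) := fun n => ((‖vec (R n)‖ : ℂ)⁻¹) • vec (R n)
    have hyn : ∀ n, ‖y n‖ = ‖vec (R n)‖⁻¹ * ‖vec (R n)‖ := by
      intro n
      show ‖((‖vec (R n)‖ : ℂ)⁻¹) • vec (R n)‖ = _
      rw [norm_smul, norm_inv, Complex.norm_real, norm_norm]
    have hy1 : ∀ n, ‖y n‖ ≤ 1 := by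
      intro n
      rw [hyn]
      exact inv_mul_le_one
    have hyb : Bd y := ⟨1, hy1⟩
    have hy2 : ∀ᶠ n in (ω : Filter ℕ), ‖y n‖ = 1 := by
      filter_upwards [hT] with n hn
      rw [hyn]
      apply inv_mul_cancel₀
      intro h0
      apply hn
      have h1 : R n = 0 := by
        apply vec_inj
        rw [norm_eq_zero.mp h0]; rfl
      have h2 := hCR n
      rw [h1, CL_zero] at h2
      rw [eq_top_iff]
      intro x _
      rw [← Submodule.starProjection_eq_self_iff]
      have h3 : prj V n = 1 := (sub_eq_zero.mp h2.symm).symm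
      show prj V n x = x
      rw [h3]; rfl
    -- (A)
    have hAy : ∀ g : G, hA.rep g (cls ω y) = cls ω y := by
      intro g
      rw [hA.rep_cls g hyb, cls_eq (bd_act (hA.bd g) hyb) hyb]
      have h1 := (hV.comm hc t ht hgen g).const_mul 2
      rw [mul_zero] at h1
      refine squeeze_zero (fun n => norm_nonneg _) (fun n => ?_) h1
      set W := (φ n g).val with hW
      set X := W * R n - R n * W with hX
      have hWW : W * W.conjTranspose = 1 := Matrix.mem_unitaryGroup_iff.mp (φ n g).2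
      have e1 : LR W W.conjTranspose (vec (R n)) - vec (R n) = LR 1 W.conjTranspose (vec X) := by
        rw [LR_vec, LR_vec, ← vec_sub, Matrix.one_mul, hX, Matrix.sub_mul,
          Matrix.mul_assoc (R n) W, hWW, Matrix.mul_one]
      have e2 : vec X = LR X 1 (vec (R n)) + LR 1 X (vec (R n)) := by
        rw [LR_vec, LR_vec, ← vec_add, Matrix.one_mul, Matrix.mul_one, hX]
        congr 1
        rw [Matrix.sub_mul, Matrix.mul_sub, Matrix.mul_assoc W, hRR, ← Matrix.mul_assoc (R n) (R n),
          hRR, Matrix.mul_assoc (R n) W (R n)]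
        abel
      have e3 : ‖CL X‖ = ‖CL W * prj V n - prj V n * CL W‖ := by
        have : CL X = -(CL W * prj V n - prj V n * CL W) := by
          rw [hX, CL_sub, CL_mul, CL_mul, hCR]
          rw [mul_sub, sub_mul, mul_one, one_mul]
          abel
        rw [this, norm_neg]
      have e4 : ‖vec X‖ ≤ 2 * ‖CL X‖ * ‖vec (R n)‖ := by
        conv_lhs => rw [e2]
        refine (norm_add_le _ _).trans ?_
        have := norm_left X (vec (R n))
        have := norm_right X (vec (R n))
        linarith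
      have e5 : ‖LR W W.conjTranspose (vec (R n)) - vec (R n)‖ ≤ 2 * ‖CL X‖ * ‖vec (R n)‖ := by
        rw [e1]
        refine (norm_right _ _).trans ?_
        rw [norm_CL_ct]
        refine le_trans ?_ e4
        exact (mul_le_mul_of_nonneg_right (norm_CL_le (φ n g)) (norm_nonneg _)).trans
          (by rw [one_mul])
      have e6 : LR W W.conjTranspose (y n) - y n =
          ((‖vec (R n)‖ : ℂ)⁻¹) • (LR W W.conjTranspose (vec (R n)) - vec (R n)) := by
        show LR W W.conjTranspose (((‖vec (R n)‖ : ℂ)⁻¹) • vec (R n)) -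
          ((‖vec (R n)‖ : ℂ)⁻¹) • vec (R n) = _
        rw [map_smul, smul_sub]
      show ‖LR W W.conjTranspose (y n) - y n‖ ≤ 2 * ‖CL W * prj V n - prj V n * CL W‖
      rw [e6, norm_smul, norm_inv, Complex.norm_real, norm_norm, ← e3]
      calc ‖vec (R n)‖⁻¹ * ‖LR W W.conjTranspose (vec (R n)) - vec (R n)‖
          ≤ ‖vec (R n)‖⁻¹ * (2 * ‖CL X‖ * ‖vec (R n)‖) :=
            mul_le_mul_of_nonneg_left e5 (by positivity)
        _ = (2 * ‖CL X‖) * (‖vec (R n)‖⁻¹ * ‖vec (R n)‖) := by ring
        _ ≤ (2 * ‖CL X‖) * 1 := mul_le_mul_of_nonneg_left inv_mul_le_one (by positivity)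
        _ = 2 * ‖CL X‖ := mul_one _
    have hAy' : ∀ g : G, hL.rep g (hR.rep g (cls ω y)) = cls ω y := by
      intro g
      rw [← rep_A hφ]; exact hAy g
    have hRy : ∀ g : G, hR.rep g (cls ω y) = hL.rep g⁻¹ (cls ω y) := by
      intro g
      have := congrArg (hL.rep g⁻¹) (hAy' g)
      rwa [hL.rep_inv_cancel] at this
    -- (C)
    have hst : CC u t ⊆ hL.stab (cls ω y) := by
      rintro _ ⟨γ, hγ, c, hcc, rfl⟩
      show hL.rep (c⁻¹ * γ * c * γ⁻¹) (cls ω y) = cls ω y
      have h1 : LI u hA (hL.rep c (cls ω y)) := by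
        refine hV'.claim hc t ht _ fun i a => ?_
        set g := t⁻¹ * u i a * t with hg
        rw [rep_A hφ, ← rep_LR hφ, ← hL.rep_mul, ← (hcc i a).eq, hL.rep_mul, hAy' g]
      have h2 : hA.rep γ (hL.rep c (cls ω y)) = hL.rep c (cls ω y) := le_stab u hA _ h1 hγ
      rw [rep_A hφ, ← rep_LR hφ, hRy] at h2
      rw [hL.rep_mul, hL.rep_mul, hL.rep_mul, h2, hL.rep_inv_cancel]
    -- (D)
    have hnormal : (hL.stab (cls ω y)).Normal := by
      constructor
      intro n hn g
      show hL.rep (g * n * g⁻¹) (cls ω y) = cls ω y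
      have hn' : hL.rep n (cls ω y) = cls ω y := hn
      rw [hL.rep_mul, hL.rep_mul, ← hRy, rep_LR hφ, hn', hAy']
    have hle : Subgroup.normalClosure (CC u t) ≤ hL.stab (cls ω y) :=
      Subgroup.normalClosure_le_normal hst
    have hLI : LI u hL (cls ω y) := fun i a => hle (hN i a)
    -- (E)
    have h2 : ∀ i, Tendsto (fun n => ‖Qn u (fun n g => LR (φ n g).val 1) n i (y n)‖ ^ 2) ω (𝓝 0) := by
      intro i
      have h3 := Q_of_fix u hL i (cls ω y) (fun a => hLI i a)
      rw [Qn_cls u hL i hyb] at h3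
      have h4 := cls_nsq (ω := ω) (bd_act (Qn_bd u hL i) hyb)
      rw [h3] at h4
      simpa using h4
    have h3 : Tendsto (fun n => ∑ i, ‖Qn u (fun n g => LR (φ n g).val 1) n i (y n)‖ ^ 2) ω (𝓝 0) := by
      have := tendsto_finsetSum (f := fun i n => ‖Qn u (fun n g => LR (φ n g).val 1) n i (y n)‖ ^ 2)
        Finset.univ (fun i _ => h2 i)
      simpa using this
    have h4 : ∀ n, κ / 2 * ‖y n‖ ^ 2 ≤
        ∑ i, ‖Qn u (fun n g => LR (φ n g).val 1) n i (y n)‖ ^ 2 := by
      intro n
      have e : ∀ i, ‖Qn u (fun n g => LR (φ n g).val 1) n i (y n)‖ ^ 2 =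
          ∑ j, ‖Qn u (fun n g => CL (φ n g).val) n i (col j (y n))‖ ^ 2 := by
        intro i
        rw [nsq_col]
        refine Finset.sum_congr rfl fun j _ => ?_
        rw [col_Qn]
      rw [Finset.sum_congr rfl (fun i _ => e i), Finset.sum_comm, nsq_col, Finset.mul_sum]
      refine Finset.sum_le_sum fun j _ => ?_
      refine hV.perp n _ ?_
      show col j (((‖vec (R n)‖ : ℂ)⁻¹) • vec (R n)) ∈ _
      rw [map_smul]
      refine Submodule.smul_mem _ _ ?_
      have e1 : col j (vec (R n)) = CL (R n) (col j (vec 1)) := by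
        have := col_left (R n) (vec (1 : Matrix (Fin (k n)) (Fin (k n)) ℂ)) j
        rw [LR_vec, Matrix.mul_one, Matrix.mul_one] at this
        exact this
      rw [e1, hCR]
      exact Submodule.sub_starProjection_mem_orthogonal _
    have h5 : Tendsto (fun _ : ℕ => κ / 2) ω (𝓝 0) := by
      refine squeeze_zero' (Filter.Eventually.of_forall fun _ => hc.le) ?_ h3
      filter_upwards [hy2] with n hn
      have := h4 n
      rw [hn] at this
      linarith
    have h6 := tendsto_nhds_unique h5 tendsto_const_nhds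
    linarith

/-- the killing theorem -/
theorem kill {κ : ℝ} (hκ : 0 < κ) (hu : ∀ i a b, u i (a + b) = u i a * u i b)
    (hgap : HasGap u κ) (t : G)
    (ht : ∀ i a, t⁻¹ * u i a * t ∈ lineGroup u)
    (hgen : Subgroup.closure ({g | ∃ i a, g = u i a} ∪ {t}) = ⊤)
    (hN : ∀ i a, u i a ∈ Subgroup.normalClosure (CC u t))
    (hφ : AH atTop φ) (i : Fin m) (a : K) :
    Tendsto (fun n => ‖CL ((φ n (u i a)).val - 1)‖) atTop (𝓝 0) := by
  rw [tendsto_iff_ultrafilter]
  intro ω hω
  exact kill_ultra u hκ hu hgap t ht hgen hN (fun g h => (hφ g h).mono_left hω) i a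

end Q90.MS
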