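import Pool.Agent.Q90.MsGrp
import Pool.Agent.Q90.MsKill

set_option autoImplicit false
set_option linter.unusedSectionVars false
set_option linter.unusedVariables false

/-!
The spectral gap of the lines and the transfer to the group generated by the lines and the shift.
-/

open scoped InnerProductSpace
open Pool.Agent.Helper455.KZ

noncomputable section

namespace Q90.MS

section gen

variable {G : Type} [Group G] {K : Type} [Field K] [Fintype K]

/-- Heisenberg pairs of lines -/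
def HPr (u u' : K → G) : Prop :=
  ∃ z : K → G, (∀ a b, z (a + b) = z a * z b) ∧ (∀ a b, u a * u' b = u' b * u a * z (a * b)) ∧
    (∀ a b, z a * u b = u b * z a) ∧ (∀ a b, z a * u' b = u' b * z a)

theorem urep_line {H : Type} [NormedAddCommGroup H] [InnerProductSpace ℂ H]
    (π : G →* (H →L[ℂ] H)) (hπ : ∀ g x y, ⟪π g x, π g y⟫_ℂ = ⟪x, y⟫_ℂ) {z : K → G}
    (hz : ∀ a b, z (a + b) = z a * z b) : URep (fun a => π (z a)) where
  zero x := by
    have h := hz 0 0
    rw [add_zero] at h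
    rw [left_eq_mul.mp h, map_one]; rfl
  add a b x := by rw [hz, map_mul]; rfl
  inner a x y := hπ _ x y

theorem pair_gap (hK : 36 ≤ Fintype.card K) {u u' : K → G} (hu : ∀ a b, u (a + b) = u a * u b)
    (hu' : ∀ a b, u' (a + b) = u' a * u' b) (hp : HPr u u')
    {H : Type} [NormedAddCommGroup H] [InnerProductSpace ℂ H]
    (π : G →* (H →L[ℂ] H)) (hπ : ∀ g x y, ⟪π g x, π g y⟫_ℂ = ⟪x, y⟫_ℂ) (v : H) :
    0 ≤ 2 * (⟪co (avg (fun a => π (u a))) v, co (avg (fun a => π (u' a))) v⟫_ℂ).re +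
      (1 / 6) * (‖co (avg (fun a => π (u a))) v‖ ^ 2 + ‖co (avg (fun a => π (u' a))) v‖ ^ 2) := by
  obtain ⟨z, hz, hrel, h1, h2⟩ := hp
  refine heis_pair (urep_line π hπ hu) (urep_line π hπ hu') (urep_line π hπ hz) ?_ ?_ ?_
    (1 / 6) (by norm_num) (by norm_num) ?_ v
  · intro a b x
    have := congrArg (fun T => T x) (congrArg π (hrel a b))
    simpa [map_mul] using this
  · intro a b x
    have := congrArg (fun T => T x) (congrArg π (h1 a b))
    simpa [map_mul] using this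
  · intro a b x
    have := congrArg (fun T => T x) (congrArg π (h2 a b))
    simpa [map_mul] using this
  · have : (36 : ℝ) ≤ Fintype.card K := by exact_mod_cast hK
    calc ((Fintype.card K : ℝ))⁻¹ ≤ (36 : ℝ)⁻¹ := inv_anti₀ (by norm_num) this
      _ = (1 / 6 : ℝ) ^ 2 := by norm_num

/-- six lines which are pairwise Heisenberg pairs have a spectral gap -/
theorem hasGap_six (hK : 36 ≤ Fintype.card K) (u : Fin 6 → K → G)
    (hu : ∀ i a b, u i (a + b) = u i a * u i b)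
    (pair : ∀ i j, i ≠ j → HPr (u i) (u j) ∨ HPr (u j) (u i)) : HasGap u (1 / 6) := by
  intro H _ _ π hπ v
  have hpair : ∀ i j, i ≠ j → ∀ v, 0 ≤
      2 * (⟪co (avg (fun a => π (u i a))) v, co (avg (fun a => π (u j a))) v⟫_ℂ).re +
      (1 / 6) * (‖co (avg (fun a => π (u i a))) v‖ ^ 2 +
        ‖co (avg (fun a => π (u j a))) v‖ ^ 2) := by
    intro i j hij v
    rcases pair i j hij with h | h
    · exact pair_gap hK (hu i) (hu j) h π hπ v
    · have := pair_gap hK (hu j) (hu i) h π hπ v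
      rw [← inner_conj_symm, Complex.conj_re, add_comm (‖co (avg (fun a => π (u i a))) v‖ ^ 2)]
      exact this
  have := DD_lower (fun i => co (avg (fun a => π (u i a)))) (1 / 6) hpair v
  rw [Fintype.card_fin] at this
  refine le_trans (le_of_eq ?_) this
  norm_num

end gen

variable {K : Type} [Field K] [Fintype K]

theorem ln_add (i : Fin 6) (a b : K) : ln i (a + b) = ln i a * ln i b := by
  match i with
  | 0 => show TT 0 1 n01 _ = TT 0 1 n01 _ * TT 0 1 n01 _; rw [← TT_add, ← add_smul]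
  | 1 => show TT 0 1 n01 _ = TT 0 1 n01 _ * TT 0 1 n01 _; rw [← TT_add, ← add_smul]
  | 2 => show TT 0 1 n01 _ = TT 0 1 n01 _ * TT 0 1 n01 _; rw [← TT_add, ← add_smul]
  | 3 => show TT 0 1 n01 _ = TT 0 1 n01 _ * TT 0 1 n01 _; rw [← TT_add, ← add_smul]
  | 4 => show TT 1 2 n12 _ = TT 1 2 n12 _ * TT 1 2 n12 _; rw [← TT_add, ← add_smul]
  | 5 => show TT 2 0 n20 _ = TT 2 0 n20 _ * TT 2 0 n20 _; rw [← TT_add, ← add_smul]

/-- Heisenberg pairs with the third line in the group -/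
def HPm (u u' : K → Equiv.Perm (Pt K)) : Prop :=
  ∃ z : K → Equiv.Perm (Pt K), (∀ a, z a ∈ Γ0 K) ∧ (∀ a b, z (a + b) = z a * z b) ∧
    (∀ a b, u a * u' b = u' b * u a * z (a * b)) ∧
    (∀ a b, z a * u b = u b * z a) ∧ (∀ a b, z a * u' b = u' b * z a)

theorem hp_same (a b : Fin 3) (h : a ≠ b) (s s' : Rg K) :
    HPm (fun c => TT a b h (c • s)) (fun c => TT a b h (c • s')) := by
  refine ⟨fun _ => 1, fun _ => one_mem _, fun _ _ => by rw [one_mul], fun c d => ?_,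
    fun _ _ => by rw [one_mul, mul_one], fun _ _ => by rw [one_mul, mul_one]⟩
  rw [mul_one]
  exact TT_row _ _ _ _ _ _ _

theorem hp_comm (a b c : Fin 3) (h : a ≠ b) (h' : b ≠ c) (h'' : a ≠ c) (s s' : Rg K)
    (hm : ∀ d : K, TT a c h'' (d • (s * s')) ∈ Γ0 K) :
    HPm (fun d => TT a b h (d • s)) (fun d => TT b c h' (d • s')) := by
  refine ⟨fun d => TT a c h'' (d • (s * s')), hm, fun x y => ?_, fun x y => ?_,
    fun x y => ?_, fun x y => ?_⟩
  · rw [← TT_add, ← add_smul]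
  · rw [TT_comm a b c h h' h'']
    congr 2
    rw [smul_mul_assoc, mul_smul_comm, smul_smul]
  · exact TT_row _ _ _ _ _ _ _
  · exact TT_col _ _ _ _ _ _ _

theorem hp_0112 {s : Rg K} (hs : Rl s) :
    HPm (fun d => TT 0 1 n01 (d • s)) (fun d => TT 1 2 n12 (d • r1 K)) :=
  hp_comm 0 1 2 n01 n12 n02 s (r1 K) (fun d => by rw [hs.right]; exact hs.m02 d)

theorem hp_1220 : HPm (fun d => TT 1 2 n12 (d • r1 K)) (fun d => TT 2 0 n20 (d • r1 K)) :=
  hp_comm 1 2 0 n12 n20 n10 (r1 K) (r1 K) (fun d => by rw [r1_r1]; exact rl1.m10 d)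

theorem hp_2001 {s : Rg K} (hs : Rl s) :
    HPm (fun d => TT 2 0 n20 (d • r1 K)) (fun d => TT 0 1 n01 (d • s)) :=
  hp_comm 2 0 1 n20 n01 n21 (r1 K) s (fun d => by rw [hs.left]; exact hs.m21 d)

theorem ln_pair (i j : Fin 6) (h : i ≠ j) :
    HPm (K := K) (ln i) (ln j) ∨ HPm (K := K) (ln j) (ln i) := by
  match i, j with
  | 0, 0 => exact absurd rfl h
  | 1, 1 => exact absurd rfl h
  | 2, 2 => exact absurd rfl h
  | 3, 3 => exact absurd rfl h
  | 4, 4 => exact absurd rfl h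
  | 5, 5 => exact absurd rfl h
  | 0, 1 => exact Or.inl (hp_same 0 1 n01 (r1 K) (re K))
  | 0, 2 => exact Or.inl (hp_same 0 1 n01 (r1 K) (rf K))
  | 0, 3 => exact Or.inl (hp_same 0 1 n01 (r1 K) (ry K))
  | 1, 0 => exact Or.inr (hp_same 0 1 n01 (r1 K) (re K))
  | 2, 0 => exact Or.inr (hp_same 0 1 n01 (r1 K) (rf K))
  | 3, 0 => exact Or.inr (hp_same 0 1 n01 (r1 K) (ry K))
  | 1, 2 => exact Or.inl (hp_same 0 1 n01 (re K) (rf K))
  | 1, 3 => exact Or.inl (hp_same 0 1 n01 (re K) (ry K))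
  | 2, 1 => exact Or.inr (hp_same 0 1 n01 (re K) (rf K))
  | 3, 1 => exact Or.inr (hp_same 0 1 n01 (re K) (ry K))
  | 2, 3 => exact Or.inl (hp_same 0 1 n01 (rf K) (ry K))
  | 3, 2 => exact Or.inr (hp_same 0 1 n01 (rf K) (ry K))
  | 0, 4 => exact Or.inl (hp_0112 rl1)
  | 1, 4 => exact Or.inl (hp_0112 rle)
  | 2, 4 => exact Or.inl (hp_0112 rlf)
  | 3, 4 => exact Or.inl (hp_0112 rly)
  | 4, 0 => exact Or.inr (hp_0112 rl1)
  | 4, 1 => exact Or.inr (hp_0112 rle)
  | 4, 2 => exact Or.inr (hp_0112 rlf)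
  | 4, 3 => exact Or.inr (hp_0112 rly)
  | 5, 0 => exact Or.inl (hp_2001 rl1)
  | 5, 1 => exact Or.inl (hp_2001 rle)
  | 5, 2 => exact Or.inl (hp_2001 rlf)
  | 5, 3 => exact Or.inl (hp_2001 rly)
  | 0, 5 => exact Or.inr (hp_2001 rl1)
  | 1, 5 => exact Or.inr (hp_2001 rle)
  | 2, 5 => exact Or.inr (hp_2001 rlf)
  | 3, 5 => exact Or.inr (hp_2001 rly)
  | 4, 5 => exact Or.inl hp_1220
  | 5, 4 => exact Or.inr hp_1220

/-! ### the group as a type -/

variable (K) in
/-- the group -/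
abbrev GT : Type := G0 K

/-- the lines in the group -/
def uG (i : Fin 6) (c : K) : GT K := ⟨ln i c, ln_mem_G i c⟩

/-- the shift in the group -/
def tG : GT K := ⟨tt, tt_mem_G⟩

theorem uG_add (i : Fin 6) (a b : K) : uG i (a + b) = uG i a * uG i b :=
  Subtype.ext (ln_add i a b)

theorem hpr_of {u u' : K → Equiv.Perm (Pt K)} {v v' : K → GT K} (hv : ∀ a, (v a).1 = u a)
    (hv' : ∀ a, (v' a).1 = u' a) (h : HPm u u') : HPr v v' := by
  obtain ⟨z, hz, h1, h2, h3, h4⟩ := h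
  refine ⟨fun a => ⟨z a, Γ0_le (hz a)⟩, fun a b => ?_, fun a b => ?_, fun a b => ?_,
    fun a b => ?_⟩
  · exact Subtype.ext (h1 a b)
  · apply Subtype.ext
    show (v a).1 * (v' b).1 = (v' b).1 * (v a).1 * z (a * b)
    rw [hv, hv']; exact h2 a b
  · apply Subtype.ext
    show z a * (v b).1 = (v b).1 * z a
    rw [hv]; exact h3 a b
  · apply Subtype.ext
    show z a * (v' b).1 = (v' b).1 * z a
    rw [hv']; exact h4 a b

theorem gap_G (hK : 36 ≤ Fintype.card K) : HasGap (uG (K := K)) (1 / 6) := by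
  refine hasGap_six hK uG uG_add fun i j h => ?_
  rcases ln_pair (K := K) i j h with h | h
  · exact Or.inl (hpr_of (fun _ => rfl) (fun _ => rfl) h)
  · exact Or.inr (hpr_of (fun _ => rfl) (fun _ => rfl) h)

theorem map_lineGroup : (lineGroup (uG (K := K))).map (G0 K).subtype = Γ0 K := by
  unfold lineGroup Γ0
  rw [MonoidHom.map_closure]
  congr 1
  ext g
  constructor
  · rintro ⟨_, ⟨i, c, rfl⟩, rfl⟩
    exact ⟨i, c, rfl⟩
  · rintro ⟨i, c, rfl⟩
    exact ⟨uG i c, ⟨i, c, rfl⟩, rfl⟩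

theorem mem_lineGroup_iff (g : GT K) : g ∈ lineGroup (uG (K := K)) ↔ g.1 ∈ Γ0 K := by
  rw [← map_lineGroup]
  constructor
  · intro h
    exact ⟨g, h, rfl⟩
  · rintro ⟨g', h, hg⟩
    have : g' = g := Subtype.ext hg
    rwa [← this]

theorem ht_G (i : Fin 6) (c : K) : tG⁻¹ * uG i c * tG ∈ lineGroup (uG (K := K)) := by
  rw [mem_lineGroup_iff]
  exact conj_mem i c

theorem gen_G : Subgroup.closure ({g : GT K | ∃ i a, g = uG i a} ∪ {tG}) = ⊤ := by
  have h : (Subgroup.closure ({g : GT K | ∃ i a, g = uG i a} ∪ {tG})).map (G0 K).subtype =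
      G0 K := by
    rw [MonoidHom.map_closure]
    conv_rhs => rw [G0]
    congr 1
    ext g
    constructor
    · rintro ⟨_, ⟨i, c, rfl⟩ | hg, rfl⟩
      · exact Or.inl ⟨i, c, rfl⟩
      · rw [Set.mem_singleton_iff] at hg
        subst hg
        exact Or.inr rfl
    · rintro (⟨i, c, rfl⟩ | hg)
      · exact ⟨uG i c, Or.inl ⟨i, c, rfl⟩, rfl⟩
      · rw [Set.mem_singleton_iff] at hg
        subst hg
        exact ⟨tG, Or.inr rfl, rfl⟩
  rw [eq_top_iff]
  intro g _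
  have hg : g.1 ∈ (Subgroup.closure ({g : GT K | ∃ i a, g = uG i a} ∪ {tG})).map
      (G0 K).subtype := by rw [h]; exact g.2
  obtain ⟨g', h1, h2⟩ := hg
  have : g' = g := Subtype.ext h2
  rwa [← this]

theorem normal_G (i : Fin 6) (a : K) :
    uG i a ∈ Subgroup.normalClosure (CC (uG (K := K)) tG) := by
  set N := Subgroup.normalClosure (CC (uG (K := K)) tG) with hN
  have hNn : N.Normal := Subgroup.normalClosure_normal
  have key : ln i a ∈ N.map (G0 K).subtype := by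
    refine ln_mem_of_normal ?_ ?_ i a
    · rintro _ ⟨n, hn, rfl⟩ g hg
      refine ⟨(⟨g, hg⟩ : GT K)⁻¹ * n * ⟨g, hg⟩, ?_, rfl⟩
      have := hNn.conj_mem n hn (⟨g, hg⟩ : GT K)⁻¹
      rwa [inv_inv] at this
    · intro γ hγ
      refine ⟨(⟨cc K, Γ0_le cc_mem⟩ : GT K)⁻¹ * ⟨γ, Γ0_le hγ⟩ * ⟨cc K, Γ0_le cc_mem⟩ *
        (⟨γ, Γ0_le hγ⟩ : GT K)⁻¹, ?_, rfl⟩
      apply Subgroup.subset_normalClosure
      refine ⟨⟨γ, Γ0_le hγ⟩, ?_, ⟨cc K, Γ0_le cc_mem⟩, ?_, rfl⟩
      · rw [mem_lineGroup_iff]; exact hγ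
      · intro i a
        apply Subtype.ext
        exact cc_comm i a
  obtain ⟨g', h1, h2⟩ := key
  have : g' = uG i a := Subtype.ext h2
  rwa [← this]

/-! ### the degree -/

theorem exists_deg (g : Equiv.Perm (Pt K)) (hg : g ∈ G0 K) :
    ∃ d : ℤ, ∀ p : Pt K, (g p).1 = p.1 - d := by
  unfold G0 at hg
  induction hg using Subgroup.closure_induction with
  | mem g hg =>
    rcases hg with ⟨i, c, rfl⟩ | hg
    · refine ⟨0, fun p => ?_⟩
      rw [sub_zero]
      match i with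
      | 0 => rfl
      | 1 => rfl
      | 2 => rfl
      | 3 => rfl
      | 4 => rfl
      | 5 => rfl
    · rw [Set.mem_singleton_iff] at hg
      subst hg
      exact ⟨1, fun p => rfl⟩
  | one => exact ⟨0, fun p => by rw [sub_zero]; rfl⟩
  | mul a b _ _ iha ihb =>
    obtain ⟨d, hd⟩ := iha
    obtain ⟨e, he⟩ := ihb
    refine ⟨d + e, fun p => ?_⟩
    rw [Equiv.Perm.mul_apply, hd, he]
    ring
  | inv a _ iha =>
    obtain ⟨d, hd⟩ := iha
    refine ⟨-d, fun p => ?_⟩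
    have h1 := hd (a⁻¹ p)
    have h2 : a (a⁻¹ p) = p := a.apply_symm_apply p
    rw [h2] at h1
    rw [h1]; ring

/-- the degree -/
def deg : GT K →* Multiplicative ℤ where
  toFun g := Multiplicative.ofAdd (-(g.1 (0, 0)).1)
  map_one' := rfl
  map_mul' g h := by
    obtain ⟨d, hd⟩ := exists_deg g.1 g.2
    obtain ⟨e, he⟩ := exists_deg h.1 h.2
    rw [← ofAdd_add]
    congr 1
    show -((g.1 (h.1 (0, 0))).1) = -(g.1 (0, 0)).1 + -(h.1 (0, 0)).1
    rw [hd, he, hd (0, 0)]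
    ring

theorem deg_uG (i : Fin 6) (c : K) : deg (uG i c) = 1 := by
  match i with
  | 0 => rfl
  | 1 => rfl
  | 2 => rfl
  | 3 => rfl
  | 4 => rfl
  | 5 => rfl

theorem deg_tG : deg (tG (K := K)) = Multiplicative.ofAdd 1 := by
  show Multiplicative.ofAdd (-((0 : ℤ) - 1)) = _
  norm_num

theorem countable_G : Countable (GT K) := by
  have h : (FreeGroup.lift (fun x : (Fin 6 × K) ⊕ Unit => match x with
      | Sum.inl p => (uG p.1 p.2 : GT K)
      | Sum.inr _ => tG)).range = ⊤ := by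
    rw [← gen_G, FreeGroup.range_lift_eq_closure]
    congr 1
    ext g
    constructor
    · rintro ⟨p | _, rfl⟩
      · exact Or.inl ⟨p.1, p.2, rfl⟩
      · exact Or.inr rfl
    · rintro (⟨i, a, rfl⟩ | hg)
      · exact ⟨Sum.inl (i, a), rfl⟩
      · rw [Set.mem_singleton_iff] at hg
        exact ⟨Sum.inr (), hg.symm⟩
  exact Function.Surjective.countable (MonoidHom.range_eq_top.mp h)

end Q90.MS
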