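import Pool.Agent.Q90.MsRing

set_option autoImplicit false
set_option linter.unusedSectionVars false
set_option linter.unusedVariables false

/-!
Elementary matrices acting level by level, the shift of levels, and the group they generate.
-/

noncomputable section

namespace Q90.MS

variable (K : Type) [Field K]

/-- points: a level and three vectors -/
abbrev Pt : Type := ℤ × (Fin 3 → Vs K)

variable {K}

/-- add `x` to the coordinate `a` -/
def ad (a : Fin 3) (x : Vs K) (y : Fin 3 → Vs K) : Fin 3 → Vs K :=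
  fun c => if c = a then y c + x else y c

theorem ad_same (a : Fin 3) (x : Vs K) (y : Fin 3 → Vs K) : ad a x y a = y a + x := if_pos rfl

theorem ad_ne {a c : Fin 3} (h : c ≠ a) (x : Vs K) (y : Fin 3 → Vs K) : ad a x y c = y c :=
  if_neg h

theorem ad_zero (a : Fin 3) (y : Fin 3 → Vs K) : ad a 0 y = y := by
  funext c; unfold ad; split_ifs <;> simp

theorem ad_ad (a : Fin 3) (x z : Vs K) (y : Fin 3 → Vs K) : ad a x (ad a z y) = ad a (z + x) y := by
  funext c; unfold ad; split_ifs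
  · rw [add_assoc]
  · rfl

theorem ad_comm (a b : Fin 3) (x z : Vs K) (y : Fin 3 → Vs K) :
    ad a x (ad b z y) = ad b z (ad a x y) := by
  funext c; unfold ad; split_ifs
  · abel
  · rfl
  · rfl
  · rfl

/-- elementary matrix -/
def TT (a b : Fin 3) (h : a ≠ b) (s : Rg K) : Equiv.Perm (Pt K) where
  toFun p := (p.1, ad a (s p.1 (p.2 b)) p.2)
  invFun p := (p.1, ad a (-(s p.1 (p.2 b))) p.2)
  left_inv p := by
    show (p.1, ad a (-(s p.1 (ad a (s p.1 (p.2 b)) p.2 b))) (ad a (s p.1 (p.2 b)) p.2)) = p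
    rw [ad_ne (Ne.symm h), ad_ad, add_neg_cancel, ad_zero]
  right_inv p := by
    show (p.1, ad a (s p.1 (ad a (-(s p.1 (p.2 b))) p.2 b)) (ad a (-(s p.1 (p.2 b))) p.2)) = p
    rw [ad_ne (Ne.symm h), ad_ad, neg_add_cancel, ad_zero]

theorem TT_apply (a b : Fin 3) (h : a ≠ b) (s : Rg K) (p : Pt K) :
    TT a b h s p = (p.1, ad a (s p.1 (p.2 b)) p.2) := rfl

/-- shift of levels -/
def tt : Equiv.Perm (Pt K) where
  toFun p := (p.1 - 1, p.2)
  invFun p := (p.1 + 1, p.2)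
  left_inv p := by simp
  right_inv p := by simp

theorem tt_apply (p : Pt K) : tt p = (p.1 - 1, p.2) := rfl
theorem tt_inv_apply (p : Pt K) : tt⁻¹ p = (p.1 + 1, p.2) := rfl

theorem TT_zero (a b : Fin 3) (h : a ≠ b) : TT a b h (0 : Rg K) = 1 := by
  ext1 p
  show (p.1, ad a ((0 : Module.End K (Vs K)) (p.2 b)) p.2) = p
  rw [LinearMap.zero_apply, ad_zero]

theorem TT_add (a b : Fin 3) (h : a ≠ b) (s s' : Rg K) :
    TT a b h (s + s') = TT a b h s * TT a b h s' := by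
  ext1 p
  show (p.1, ad a ((s p.1 + s' p.1) (p.2 b)) p.2) =
    (p.1, ad a (s p.1 (ad a (s' p.1 (p.2 b)) p.2 b)) (ad a (s' p.1 (p.2 b)) p.2))
  rw [ad_ne (Ne.symm h), ad_ad, LinearMap.add_apply, add_comm]

theorem TT_neg (a b : Fin 3) (h : a ≠ b) (s : Rg K) : TT a b h (-s) = (TT a b h s)⁻¹ := by
  rw [eq_inv_iff_mul_eq_one, ← TT_add, neg_add_cancel, TT_zero]

/-- the commutator relation -/
theorem TT_comm (a b c : Fin 3) (h : a ≠ b) (h' : b ≠ c) (h'' : a ≠ c) (s s' : Rg K) :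
    TT a b h s * TT b c h' s' = TT b c h' s' * TT a b h s * TT a c h'' (s * s') := by
  ext1 p
  show (p.1, ad a (s p.1 (ad b (s' p.1 (p.2 c)) p.2 b)) (ad b (s' p.1 (p.2 c)) p.2)) =
    (p.1, ad b (s' p.1 (ad a (s p.1 (ad a (s p.1 (s' p.1 (p.2 c))) p.2 b))
      (ad a (s p.1 (s' p.1 (p.2 c))) p.2) c))
      (ad a (s p.1 (ad a (s p.1 (s' p.1 (p.2 c))) p.2 b)) (ad a (s p.1 (s' p.1 (p.2 c))) p.2)))
  rw [ad_same, ad_ne (Ne.symm h), ad_ne (Ne.symm h''), ad_ne (Ne.symm h''), ad_ad, map_add,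
    ad_comm b a, add_comm (s p.1 (p.2 b))]

/-- elements reading the row index elsewhere commute -/
theorem TT_row (a b c : Fin 3) (h : a ≠ b) (h' : a ≠ c) (s s' : Rg K) :
    TT a b h s * TT a c h' s' = TT a c h' s' * TT a b h s := by
  ext1 p
  show (p.1, ad a (s p.1 (ad a (s' p.1 (p.2 c)) p.2 b)) (ad a (s' p.1 (p.2 c)) p.2)) =
    (p.1, ad a (s' p.1 (ad a (s p.1 (p.2 b)) p.2 c)) (ad a (s p.1 (p.2 b)) p.2))
  rw [ad_ne (Ne.symm h), ad_ne (Ne.symm h'), ad_ad, ad_ad, add_comm]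

/-- elements with the same column commute -/
theorem TT_col (a b c : Fin 3) (h : a ≠ c) (h' : b ≠ c) (s s' : Rg K) :
    TT a c h s * TT b c h' s' = TT b c h' s' * TT a c h s := by
  ext1 p
  show (p.1, ad a (s p.1 (ad b (s' p.1 (p.2 c)) p.2 c)) (ad b (s' p.1 (p.2 c)) p.2)) =
    (p.1, ad b (s' p.1 (ad a (s p.1 (p.2 c)) p.2 c)) (ad a (s p.1 (p.2 c)) p.2))
  rw [ad_ne (Ne.symm h'), ad_ne (Ne.symm h), ad_comm]

theorem tt_conj (a b : Fin 3) (h : a ≠ b) (s : Rg K) :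
    tt⁻¹ * TT a b h s * tt = TT a b h (shZ s) := by
  ext1 p
  show (p.1 - 1 + 1, ad a (s (p.1 - 1) (p.2 b)) p.2) = (p.1, ad a (s (p.1 - 1) (p.2 b)) p.2)
  rw [sub_add_cancel]

/-! ### the lines -/

theorem n01 : (0 : Fin 3) ≠ 1 := by decide
theorem n12 : (1 : Fin 3) ≠ 2 := by decide
theorem n20 : (2 : Fin 3) ≠ 0 := by decide
theorem n02 : (0 : Fin 3) ≠ 2 := by decide
theorem n21 : (2 : Fin 3) ≠ 1 := by decide
theorem n10 : (1 : Fin 3) ≠ 0 := by decide

/-- the six lines -/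
def ln (i : Fin 6) (c : K) : Equiv.Perm (Pt K) :=
  match i with
  | 0 => TT 0 1 n01 (c • r1 K)
  | 1 => TT 0 1 n01 (c • re K)
  | 2 => TT 0 1 n01 (c • rf K)
  | 3 => TT 0 1 n01 (c • ry K)
  | 4 => TT 1 2 n12 (c • r1 K)
  | 5 => TT 2 0 n20 (c • r1 K)

variable (K) in
/-- the group generated by the lines -/
def Γ0 : Subgroup (Equiv.Perm (Pt K)) := Subgroup.closure {g | ∃ i c, g = ln i c}

theorem ln_mem (i : Fin 6) (c : K) : ln i c ∈ Γ0 K := Subgroup.subset_closure ⟨i, c, rfl⟩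

variable (K) in
/-- the full group -/
def G0 : Subgroup (Equiv.Perm (Pt K)) := Subgroup.closure ({g | ∃ i c, g = ln i c} ∪ {tt})

theorem ln_mem_G (i : Fin 6) (c : K) : ln i c ∈ G0 K :=
  Subgroup.subset_closure (Or.inl ⟨i, c, rfl⟩)

theorem tt_mem_G : (tt : Equiv.Perm (Pt K)) ∈ G0 K := Subgroup.subset_closure (Or.inr rfl)

theorem Γ0_le : Γ0 K ≤ G0 K := by
  unfold Γ0 G0
  exact Subgroup.closure_mono Set.subset_union_left

/-- `s` is realised -/
structure Rl (s : Rg K) : Prop where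
  left : r1 K * s = s
  right : s * r1 K = s
  m01 : ∀ c : K, TT 0 1 n01 (c • s) ∈ Γ0 K

theorem rl1 : Rl (r1 K) := ⟨r1_r1, r1_r1, fun c => ln_mem 0 c⟩
theorem rle : Rl (re K) := ⟨r1_re, re_r1, fun c => ln_mem 1 c⟩
theorem rlf : Rl (rf K) := ⟨r1_rf, rf_r1, fun c => ln_mem 2 c⟩
theorem rly : Rl (ry K) := ⟨r1_ry, ry_r1, fun c => ln_mem 3 c⟩

theorem comm_mem {N : Subgroup (Equiv.Perm (Pt K))} {a b c : Fin 3} (h : a ≠ b) (h' : b ≠ c)
    (h'' : a ≠ c) {s s' : Rg K} (h1 : TT a b h s ∈ N) (h2 : TT b c h' s' ∈ N) :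
    TT a c h'' (s * s') ∈ N := by
  have e := TT_comm a b c h h' h'' s s'
  have e' : TT a c h'' (s * s') =
      (TT b c h' s' * TT a b h s)⁻¹ * (TT a b h s * TT b c h' s') := by
    rw [e]; group
  rw [e']
  exact N.mul_mem (N.inv_mem (N.mul_mem h2 h1)) (N.mul_mem h1 h2)

theorem Rl.m02 {s : Rg K} (h : Rl s) (c : K) : TT 0 2 n02 (c • s) ∈ Γ0 K := by
  have := comm_mem n01 n12 n02 (h.m01 c) (by have := ln_mem (K := K) 4 1; rwa [show
    ln (K := K) 4 1 = TT 1 2 n12 ((1 : K) • r1 K) from rfl, one_smul] at this)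
  rwa [smul_mul_assoc, h.right] at this

theorem m12_one (c : K) : TT 1 2 n12 (c • r1 K) ∈ Γ0 K := ln_mem 4 c
theorem m20_one (c : K) : TT 2 0 n20 (c • r1 K) ∈ Γ0 K := ln_mem 5 c
theorem m12_one' : TT 1 2 n12 (r1 K) ∈ Γ0 K := by
  have := m12_one (K := K) 1; rwa [one_smul] at this
theorem m20_one' : TT 2 0 n20 (r1 K) ∈ Γ0 K := by
  have := m20_one (K := K) 1; rwa [one_smul] at this

theorem Rl.m21 {s : Rg K} (h : Rl s) (c : K) : TT 2 1 n21 (c • s) ∈ Γ0 K := by
  have := comm_mem n20 n01 n21 m20_one' (h.m01 c)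
  rwa [mul_smul_comm, h.left] at this

theorem m10_one' : TT 1 0 n10 (r1 K) ∈ Γ0 K := by
  have := comm_mem (K := K) n12 n20 n10 m12_one' m20_one'
  rwa [r1_r1] at this

theorem Rl.m12 {s : Rg K} (h : Rl s) (c : K) : TT 1 2 n12 (c • s) ∈ Γ0 K := by
  have := comm_mem n10 n02 n12 m10_one' (h.m02 c)
  rwa [mul_smul_comm, h.left] at this

theorem Rl.m20 {s : Rg K} (h : Rl s) (c : K) : TT 2 0 n20 (c • s) ∈ Γ0 K := by
  have := comm_mem n21 n10 n20 (h.m21 c) m10_one'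
  rwa [smul_mul_assoc, h.right] at this

theorem Rl.m10 {s : Rg K} (h : Rl s) (c : K) : TT 1 0 n10 (c • s) ∈ Γ0 K := by
  have := comm_mem n12 n20 n10 (h.m12 c) m20_one'
  rwa [smul_mul_assoc, h.right] at this

theorem Rl.mul {s s' : Rg K} (h : Rl s) (h' : Rl s') : Rl (s * s') where
  left := by rw [← mul_assoc, h.left]
  right := by rw [mul_assoc, h'.right]
  m01 c := by
    have := comm_mem n02 n21 n01 (h.m02 c) (by have := h'.m21 1; rwa [one_smul] at this)
    rwa [smul_mul_assoc] at this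

theorem Rl.smul {s : Rg K} (h : Rl s) (c : K) : Rl (c • s) where
  left := by rw [mul_smul_comm, h.left]
  right := by rw [smul_mul_assoc, h.right]
  m01 c' := by rw [smul_smul]; exact h.m01 _

theorem rl_sh_r1 : Rl (shZ (r1 K)) := by rw [sh_r1]; exact rle.mul rlf
theorem rl_sh_re : Rl (shZ (re K)) := by
  rw [sh_re]; exact ((rle.mul rlf).mul rly).mul (rle.mul rlf)
theorem rl_sh_rf : Rl (shZ (rf K)) := by
  rw [sh_rf]; exact ((rle.mul rlf).mul rly).mul rlf
theorem rl_sh_ry : Rl (shZ (ry K)) := by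
  rw [sh_ry]; exact (rle.mul rly).mul (rle.mul rlf)

/-- the conjugates of the lines are in the group generated by the lines -/
theorem conj_mem (i : Fin 6) (c : K) : tt⁻¹ * ln i c * tt ∈ Γ0 K := by
  match i with
  | 0 => rw [show ln 0 c = TT 0 1 n01 (c • r1 K) from rfl, tt_conj, shZ_smul]; exact rl_sh_r1.m01 c
  | 1 => rw [show ln 1 c = TT 0 1 n01 (c • re K) from rfl, tt_conj, shZ_smul]; exact rl_sh_re.m01 c
  | 2 => rw [show ln 2 c = TT 0 1 n01 (c • rf K) from rfl, tt_conj, shZ_smul]; exact rl_sh_rf.m01 c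
  | 3 => rw [show ln 3 c = TT 0 1 n01 (c • ry K) from rfl, tt_conj, shZ_smul]; exact rl_sh_ry.m01 c
  | 4 => rw [show ln 4 c = TT 1 2 n12 (c • r1 K) from rfl, tt_conj, shZ_smul]; exact rl_sh_r1.m12 c
  | 5 => rw [show ln 5 c = TT 2 0 n20 (c • r1 K) from rfl, tt_conj, shZ_smul]; exact rl_sh_r1.m20 c

/-! ### commutation with the conjugate -/

theorem commute_of {g h : Equiv.Perm (Pt K)} (e : g * h = h * g) : Commute g h := e

variable (K) in
/-- the commuting element -/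
def cc : Equiv.Perm (Pt K) := TT 1 2 n12 (rf K * re K)

theorem cc_mem : cc K ∈ Γ0 K := by
  have := (rlf.mul rle).m12 (1 : K)
  rwa [one_smul] at this

theorem sh_right {s : Rg K} (h : s * r1 K = s) : shZ s * (rf K * re K) = 0 := by
  have : shZ s = shZ s * (re K * rf K) := by
    rw [← sh_r1, ← shZ_mul, h]
  rw [this, mul_assoc, mul_assoc, ← mul_assoc (rf K) (rf K), rf_rf, zero_mul, mul_zero, mul_zero]

theorem sh_left {s : Rg K} (h : r1 K * s = s) : (rf K * re K) * shZ s = 0 := by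
  have : shZ s = (re K * rf K) * shZ s := by
    rw [← sh_r1, ← shZ_mul, h]
  rw [this, ← mul_assoc, mul_assoc (rf K) (re K), ← mul_assoc (re K) (re K), re_re, zero_mul,
    mul_zero, zero_mul]

theorem cc_comm01 {s : Rg K} (h : s * r1 K = s) (c : K) :
    Commute (cc K) (TT 0 1 n01 (c • shZ s)) := by
  have e := TT_comm 0 1 2 n01 n12 n02 (c • shZ s) (rf K * re K)
  rw [smul_mul_assoc, sh_right h, smul_zero, TT_zero, mul_one] at e
  exact e.symm

theorem cc_comm12 (s : Rg K) : Commute (cc K) (TT 1 2 n12 s) := TT_row 1 2 2 n12 n12 _ _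

theorem cc_comm20 {s : Rg K} (h : r1 K * s = s) (c : K) :
    Commute (cc K) (TT 2 0 n20 (c • shZ s)) := by
  have e := TT_comm 1 2 0 n12 n20 n10 (rf K * re K) (c • shZ s)
  rw [mul_smul_comm, sh_left h, smul_zero, TT_zero, mul_one] at e
  exact e

theorem cc_comm (i : Fin 6) (c : K) : Commute (cc K) (tt⁻¹ * ln i c * tt) := by
  match i with
  | 0 => rw [show ln 0 c = TT 0 1 n01 (c • r1 K) from rfl, tt_conj, shZ_smul]
         exact cc_comm01 r1_r1 c
  | 1 => rw [show ln 1 c = TT 0 1 n01 (c • re K) from rfl, tt_conj, shZ_smul]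
         exact cc_comm01 re_r1 c
  | 2 => rw [show ln 2 c = TT 0 1 n01 (c • rf K) from rfl, tt_conj, shZ_smul]
         exact cc_comm01 rf_r1 c
  | 3 => rw [show ln 3 c = TT 0 1 n01 (c • ry K) from rfl, tt_conj, shZ_smul]
         exact cc_comm01 ry_r1 c
  | 4 => rw [show ln 4 c = TT 1 2 n12 (c • r1 K) from rfl, tt_conj, shZ_smul]
         exact cc_comm12 _
  | 5 => rw [show ln 5 c = TT 2 0 n20 (c • r1 K) from rfl, tt_conj, shZ_smul]
         exact cc_comm20 r1_r1 c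

/-! ### normal generation -/

/-- a commutator with an element of a normalised subgroup -/
theorem comm_mem_left {N : Subgroup (Equiv.Perm (Pt K))}
    (hN : ∀ n ∈ N, ∀ g ∈ G0 K, g⁻¹ * n * g ∈ N) {a b c : Fin 3} (h : a ≠ b) (h' : b ≠ c)
    (h'' : a ≠ c) {s s' : Rg K} (h1 : TT a b h s ∈ N) (h2 : TT b c h' s' ∈ Γ0 K) :
    TT a c h'' (s * s') ∈ N := by
  have e := TT_comm a b c h h' h'' s s'
  have e' : TT a c h'' (s * s') = (TT a b h s)⁻¹ *
      ((TT b c h' s')⁻¹ * TT a b h s * TT b c h' s') := by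
    rw [mul_assoc (TT b c h' s')⁻¹, e]; group
  rw [e']
  exact N.mul_mem (N.inv_mem h1) (hN _ h1 _ (Γ0_le h2))

theorem comm_mem_right {N : Subgroup (Equiv.Perm (Pt K))}
    (hN : ∀ n ∈ N, ∀ g ∈ G0 K, g⁻¹ * n * g ∈ N) {a b c : Fin 3} (h : a ≠ b) (h' : b ≠ c)
    (h'' : a ≠ c) {s s' : Rg K} (h1 : TT a b h s ∈ Γ0 K) (h2 : TT b c h' s' ∈ N) :
    TT a c h'' (s * s') ∈ N := by
  have e := TT_comm a b c h h' h'' s s'
  have e' : TT a c h'' (s * s') = ((TT a b h s)⁻¹ * (TT b c h' s')⁻¹ * TT a b h s) *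
      TT b c h' s' := by
    rw [mul_assoc _ (TT a b h s), e]; group
  rw [e']
  exact N.mul_mem (hN _ (N.inv_mem h2) _ (Γ0_le h1)) h2

/-- a subgroup normalised by the full group and containing the commutators with the commuting
element contains all lines -/
theorem ln_mem_of_normal {N : Subgroup (Equiv.Perm (Pt K))}
    (hN : ∀ n ∈ N, ∀ g ∈ G0 K, g⁻¹ * n * g ∈ N)
    (hc : ∀ γ ∈ Γ0 K, (cc K)⁻¹ * γ * cc K * γ⁻¹ ∈ N) (i : Fin 6) (c : K) : ln i c ∈ N := by
  -- first commutator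
  have h02 : TT 0 2 n02 (re K) ∈ N := by
    have h1 := hc (TT 0 1 n01 (re K)) (by have := rle.m01 (1 : K); rwa [one_smul] at this)
    have e := TT_comm 0 1 2 n01 n12 n02 (re K) (rf K * re K)
    rw [← mul_assoc, re_rf_re] at e
    have e2 := TT_row 0 2 1 n02 n01 (re K) (re K)
    have e3 : (cc K)⁻¹ * TT 0 1 n01 (re K) * cc K * (TT 0 1 n01 (re K))⁻¹ = TT 0 2 n02 (re K) := by
      have e4 : TT 0 1 n01 (re K) * cc K =
          cc K * TT 0 1 n01 (re K) * TT 0 2 n02 (re K) := e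
      rw [mul_assoc (cc K)⁻¹, e4, mul_assoc (cc K), ← e2]
      group
    rwa [e3] at h1
  have M01 : ∀ s : Rg K, Rl s → TT 0 1 n01 (re K * rf K * s) ∈ N := by
    intro s hs
    have h1 := comm_mem_left hN n02 n21 n01 h02
      (by have := (rlf.mul hs).m21 (1 : K); rwa [one_smul] at this)
    rwa [← mul_assoc] at h1
  have M02 : ∀ s : Rg K, Rl s → TT 0 2 n02 (re K * rf K * s) ∈ N := by
    intro s hs
    have h1 := comm_mem_left hN n01 n12 n02 (M01 s hs) m12_one'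
    rwa [mul_assoc _ s, hs.right] at h1
  have hl : ∀ s : Rg K, r1 K * (re K * rf K * s) = re K * rf K * s := by
    intro s
    rw [← mul_assoc, ← mul_assoc, r1_re]
  have M12 : ∀ s : Rg K, Rl s → TT 1 2 n12 (re K * rf K * s) ∈ N := by
    intro s hs
    have h1 := comm_mem_right hN n10 n02 n12 m10_one' (M02 s hs)
    rwa [hl] at h1
  have M10 : ∀ s : Rg K, Rl s → TT 1 0 n10 (re K * rf K * s) ∈ N := by
    intro s hs
    have h1 := comm_mem_left hN n12 n20 n10 (M12 s hs) m20_one'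
    rwa [mul_assoc _ s, hs.right] at h1
  have M20 : ∀ s : Rg K, Rl s → TT 2 0 n20 (re K * rf K * s) ∈ N := by
    intro s hs
    have h1 := comm_mem_right hN n21 n10 n20
      (by have := rl1.m21 (1 : K); rwa [one_smul] at this) (M10 s hs)
    rwa [hl] at h1
  -- go back by conjugation with the shift
  have hsh : ∀ s : Rg K, r1 K * s = s → re K * rf K * shZ s = shZ s := by
    intro s hs
    rw [← sh_r1, ← shZ_mul, hs]
  have back : ∀ g : Equiv.Perm (Pt K), tt⁻¹ * g * tt ∈ N → g ∈ N := by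
    intro g hg
    have := hN _ hg tt⁻¹ (inv_mem tt_mem_G)
    have e : (tt⁻¹)⁻¹ * (tt⁻¹ * g * tt) * (tt⁻¹ : Equiv.Perm (Pt K)) = g := by group
    rwa [e] at this
  apply back
  match i with
  | 0 =>
    rw [show ln 0 c = TT 0 1 n01 (c • r1 K) from rfl, tt_conj, shZ_smul]
    have := M01 _ (rl_sh_r1.smul c)
    rwa [mul_smul_comm, hsh _ r1_r1] at this
  | 1 =>
    rw [show ln 1 c = TT 0 1 n01 (c • re K) from rfl, tt_conj, shZ_smul]
    have := M01 _ (rl_sh_re.smul c)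
    rwa [mul_smul_comm, hsh _ r1_re] at this
  | 2 =>
    rw [show ln 2 c = TT 0 1 n01 (c • rf K) from rfl, tt_conj, shZ_smul]
    have := M01 _ (rl_sh_rf.smul c)
    rwa [mul_smul_comm, hsh _ r1_rf] at this
  | 3 =>
    rw [show ln 3 c = TT 0 1 n01 (c • ry K) from rfl, tt_conj, shZ_smul]
    have := M01 _ (rl_sh_ry.smul c)
    rwa [mul_smul_comm, hsh _ r1_ry] at this
  | 4 =>
    rw [show ln 4 c = TT 1 2 n12 (c • r1 K) from rfl, tt_conj, shZ_smul]
    have := M12 _ (rl_sh_r1.smul c)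
    rwa [mul_smul_comm, hsh _ r1_r1] at this
  | 5 =>
    rw [show ln 5 c = TT 2 0 n20 (c • r1 K) from rfl, tt_conj, shZ_smul]
    have := M20 _ (rl_sh_r1.smul c)
    rwa [mul_smul_comm, hsh _ r1_r1] at this

end Q90.MS
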