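import Pool.Agent.Q90.MsRank

set_option autoImplicit false
set_option linter.unusedSectionVars false

/-!
Matrices with the Hilbert-Schmidt inner product, left and right multiplications.
-/

open Filter Topology
open scoped InnerProductSpace

noncomputable section

namespace Q90.MS

variable {k : ℕ}

/-- the euclidean space -/
abbrev Eu (k : ℕ) : Type := EuclideanSpace ℂ (Fin k)

/-- matrices as a Hilbert space -/
abbrev HSp (k : ℕ) : Type := EuclideanSpace ℂ (Fin k × Fin k)

/-- the operator of a matrix -/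
abbrev CL (A : Matrix (Fin k) (Fin k) ℂ) : Eu k →L[ℂ] Eu k := Matrix.toEuclideanCLM (𝕜 := ℂ) A

/-- a matrix as a vector -/
def vec (A : Matrix (Fin k) (Fin k) ℂ) : HSp k := WithLp.toLp 2 (fun p => A p.1 p.2)

/-- the matrix of a vector -/
def mat (x : HSp k) : Matrix (Fin k) (Fin k) ℂ := Matrix.of fun i j => x (i, j)

@[simp] theorem mat_vec (A : Matrix (Fin k) (Fin k) ℂ) : mat (vec A) = A := rfl

@[simp] theorem vec_mat (x : HSp k) : vec (mat x) = x := rfl

theorem vec_add (A B : Matrix (Fin k) (Fin k) ℂ) : vec (A + B) = vec A + vec B := rfl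

theorem vec_sub (A B : Matrix (Fin k) (Fin k) ℂ) : vec (A - B) = vec A - vec B := rfl

theorem vec_smul (c : ℂ) (A : Matrix (Fin k) (Fin k) ℂ) : vec (c • A) = c • vec A := rfl

theorem mat_add (x y : HSp k) : mat (x + y) = mat x + mat y := rfl

theorem mat_smul (c : ℂ) (x : HSp k) : mat (c • x) = c • mat x := rfl

theorem vec_inj {A B : Matrix (Fin k) (Fin k) ℂ} (h : vec A = vec B) : A = B := by
  rw [← mat_vec A, h, mat_vec]

theorem inner_vec (A B : Matrix (Fin k) (Fin k) ℂ) :
    ⟪vec A, vec B⟫_ℂ = (A.conjTranspose * B).trace := by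
  rw [PiLp.inner_apply, Matrix.trace, Fintype.sum_prod_type_right]
  refine Finset.sum_congr rfl fun j _ => ?_
  rw [Matrix.diag_apply, Matrix.mul_apply]
  refine Finset.sum_congr rfl fun i _ => ?_
  rw [Matrix.conjTranspose_apply, RCLike.inner_apply', mul_comm]
  show B i j * (starRingEnd ℂ) (A i j) = _
  rw [mul_comm]; rfl

/-- columns -/
def col (j : Fin k) : HSp k →ₗ[ℂ] Eu k where
  toFun x := WithLp.toLp 2 (fun i => x (i, j))
  map_add' _ _ := rfl
  map_smul' _ _ := rfl

theorem nsq_col (x : HSp k) : ‖x‖ ^ 2 = ∑ j, ‖col j x‖ ^ 2 := by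
  rw [EuclideanSpace.norm_sq_eq, Fintype.sum_prod_type_right]
  refine Finset.sum_congr rfl fun j _ => ?_
  rw [EuclideanSpace.norm_sq_eq]
  rfl

/-- two sided multiplication -/
def LR (M N : Matrix (Fin k) (Fin k) ℂ) : HSp k →L[ℂ] HSp k :=
  LinearMap.toContinuousLinearMap
    { toFun := fun x => vec (M * mat x * N)
      map_add' := by
        intro x y
        rw [mat_add, mul_add, add_mul, vec_add]
      map_smul' := by
        intro c x
        rw [mat_smul, Matrix.mul_smul, Matrix.smul_mul, vec_smul]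
        rfl }

theorem LR_apply (M N : Matrix (Fin k) (Fin k) ℂ) (x : HSp k) :
    LR M N x = vec (M * mat x * N) := rfl

theorem LR_vec (M N A : Matrix (Fin k) (Fin k) ℂ) : LR M N (vec A) = vec (M * A * N) := rfl

theorem LR_mul (M N M' N' : Matrix (Fin k) (Fin k) ℂ) :
    LR M N * LR M' N' = LR (M * M') (N' * N) := by
  ext1 x
  show vec (M * mat (vec (M' * mat x * N')) * N) = vec (M * M' * mat x * (N' * N))
  rw [mat_vec]
  simp only [Matrix.mul_assoc]

theorem LR_sub_left (M M' N : Matrix (Fin k) (Fin k) ℂ) : LR (M - M') N = LR M N - LR M' N := by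
  ext1 x
  show vec ((M - M') * mat x * N) = vec (M * mat x * N) - vec (M' * mat x * N)
  rw [Matrix.sub_mul, Matrix.sub_mul, vec_sub]

theorem LR_sub_right (M N N' : Matrix (Fin k) (Fin k) ℂ) : LR M (N - N') = LR M N - LR M N' := by
  ext1 x
  show vec (M * mat x * (N - N')) = vec (M * mat x * N) - vec (M * mat x * N')
  rw [Matrix.mul_sub, vec_sub]

theorem col_left (M : Matrix (Fin k) (Fin k) ℂ) (x : HSp k) (j : Fin k) :
    col j (LR M 1 x) = CL M (col j x) := by
  rw [LR_apply, Matrix.mul_one]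
  rfl

theorem norm_left (M : Matrix (Fin k) (Fin k) ℂ) (x : HSp k) :
    ‖LR M 1 x‖ ≤ ‖CL M‖ * ‖x‖ := by
  apply le_of_sq_le_sq _ (by positivity)
  rw [nsq_col, mul_pow, nsq_col x, Finset.mul_sum]
  refine Finset.sum_le_sum fun j _ => ?_
  rw [col_left, ← mul_pow]
  exact pow_le_pow_left₀ (norm_nonneg _) ((CL M).le_opNorm _) 2

theorem norm_ct (A : Matrix (Fin k) (Fin k) ℂ) : ‖vec A.conjTranspose‖ = ‖vec A‖ := by
  have : ‖vec A.conjTranspose‖ ^ 2 = ‖vec A‖ ^ 2 := by
    rw [EuclideanSpace.norm_sq_eq, EuclideanSpace.norm_sq_eq, Fintype.sum_prod_type_right,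
      Fintype.sum_prod_type]
    refine Finset.sum_congr rfl fun j _ => Finset.sum_congr rfl fun i _ => ?_
    show ‖star (A j i)‖ ^ 2 = ‖A j i‖ ^ 2
    rw [norm_star]
  exact (sq_eq_sq₀ (norm_nonneg _) (norm_nonneg _)).mp this

theorem norm_CL_ct (A : Matrix (Fin k) (Fin k) ℂ) : ‖CL A.conjTranspose‖ = ‖CL A‖ := by
  have : CL A.conjTranspose = star (CL A) := by
    show Matrix.toEuclideanCLM (𝕜 := ℂ) (star A) = _
    rw [map_star]
  rw [this, ContinuousLinearMap.star_eq_adjoint, LinearIsometryEquiv.norm_map]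

theorem norm_right (N : Matrix (Fin k) (Fin k) ℂ) (x : HSp k) :
    ‖LR 1 N x‖ ≤ ‖CL N‖ * ‖x‖ := by
  rw [LR_apply, Matrix.one_mul, ← norm_ct, Matrix.conjTranspose_mul]
  have h := norm_left N.conjTranspose (vec (mat x).conjTranspose)
  rw [LR_vec, Matrix.mul_one, norm_CL_ct, norm_ct, vec_mat] at h
  exact h

theorem LR_split (M N : Matrix (Fin k) (Fin k) ℂ) : LR M N = LR M 1 * LR 1 N := by
  rw [LR_mul, Matrix.mul_one, Matrix.mul_one]

theorem norm_LR (M N : Matrix (Fin k) (Fin k) ℂ) (x : HSp k) :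
    ‖LR M N x‖ ≤ ‖CL M‖ * (‖CL N‖ * ‖x‖) := by
  rw [LR_split]
  show ‖LR M 1 (LR 1 N x)‖ ≤ _
  exact (norm_left M _).trans (mul_le_mul_of_nonneg_left (norm_right N x) (norm_nonneg _))

theorem opnorm_LR (M N : Matrix (Fin k) (Fin k) ℂ) : ‖LR M N‖ ≤ ‖CL M‖ * ‖CL N‖ :=
  ContinuousLinearMap.opNorm_le_bound _ (by positivity) fun x => by
    rw [mul_assoc]; exact norm_LR M N x

/-- unitary matrices act isometrically -/
theorem inner_CL (W : Matrix.unitaryGroup (Fin k) ℂ) (x y : Eu k) :
    ⟪CL W.val x, CL W.val y⟫_ℂ = ⟪x, y⟫_ℂ := by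
  rw [← ContinuousLinearMap.adjoint_inner_right, ← ContinuousLinearMap.star_eq_adjoint]
  have h : star (CL W.val) * CL W.val = 1 := by
    rw [← map_star, ← map_mul, (Matrix.mem_unitaryGroup_iff'.mp W.2), map_one]
  have h2 : star (CL W.val) (CL W.val y) = y := by
    show (star (CL W.val) * CL W.val) y = y
    rw [h]; rfl
  rw [h2]

theorem norm_CL_le (W : Matrix.unitaryGroup (Fin k) ℂ) : ‖CL W.val‖ ≤ 1 :=
  ContinuousLinearMap.opNorm_le_bound _ zero_le_one fun x => by
    rw [norm_of_inner (CL W.val) (inner_CL W) x, one_mul]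

theorem inner_LR (W W' : Matrix.unitaryGroup (Fin k) ℂ) (x y : HSp k) :
    ⟪LR W.val W'.val.conjTranspose x, LR W.val W'.val.conjTranspose y⟫_ℂ = ⟪x, y⟫_ℂ := by
  rw [LR_apply, LR_apply, inner_vec]
  have h1 : W.val.conjTranspose * W.val = 1 := Matrix.mem_unitaryGroup_iff'.mp W.2
  have h2 : W'.val.conjTranspose * W'.val = 1 := Matrix.mem_unitaryGroup_iff'.mp W'.2
  have e : (W.val * mat x * W'.val.conjTranspose).conjTranspose *
      (W.val * mat y * W'.val.conjTranspose) =
      W'.val * ((mat x).conjTranspose * mat y * W'.val.conjTranspose) := by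
    rw [Matrix.conjTranspose_mul, Matrix.conjTranspose_mul, Matrix.conjTranspose_conjTranspose]
    calc W'.val * ((mat x).conjTranspose * W.val.conjTranspose) *
          (W.val * mat y * W'.val.conjTranspose) =
          W'.val * ((mat x).conjTranspose * (W.val.conjTranspose * W.val) * mat y *
            W'.val.conjTranspose) := by simp only [Matrix.mul_assoc]
      _ = _ := by rw [h1, Matrix.mul_one]
  rw [e, Matrix.trace_mul_comm, Matrix.mul_assoc, h2, Matrix.mul_one, ← inner_vec]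
  rfl

theorem one_ct : (1 : Matrix (Fin k) (Fin k) ℂ) =
    (1 : Matrix.unitaryGroup (Fin k) ℂ).val.conjTranspose := by
  show _ = Matrix.conjTranspose 1
  rw [Matrix.conjTranspose_one]

end Q90.MS
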