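import Pool.Agent.Q90.MsRep

set_option autoImplicit false
set_option linter.unusedSectionVars false

/-!
The rank argument: if the group generated by lines with a spectral gap is conjugate into itself
then the almost invariant vectors of an asymptotic representation on finite dimensional spaces
are the same for the group and for its conjugate.
-/

open Filter Topology
open scoped InnerProductSpace
open Pool.Agent.Helper455.KZ

noncomputable section

namespace Q90.MS

variable {G : Type} [Group G] {ω : Ultrafilter ℕ} {E : ℕ → Type} [∀ n, NormedAddCommGroup (E n)]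
  [∀ n, InnerProductSpace ℂ (E n)] [∀ n, FiniteDimensional ℂ (E n)]
  {K : Type} [Field K] [Fintype K] {m : ℕ} (u : Fin m → K → G)
  {U : ∀ n, G → (E n →L[ℂ] E n)}

/-- low energy spaces -/
structure Low (h : ARep ω U) (c : ℝ) (V : ∀ n, Submodule ℂ (E n)) : Prop where
  fix : ∀ x : ∀ n, E n, Bd x → (∀ n, x n ∈ V n) → ∀ i a, h.rep (u i a) (cls ω x) = cls ω x
  perp : ∀ n, ∀ v ∈ (V n)ᗮ, c * ‖v‖ ^ 2 ≤ ∑ i, ‖Qn u U n i v‖ ^ 2

/-- invariance under all lines -/
def LI (h : ARep ω U) (x : UP ω E) : Prop := ∀ i a, h.rep (u i a) x = x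

/-- the projections -/
abbrev prj (V : ∀ n, Submodule ℂ (E n)) (n : ℕ) : E n →L[ℂ] E n := (V n).starProjection

theorem prj_bd (V : ∀ n, Submodule ℂ (E n)) : Bd (fun n => prj V n) :=
  ⟨1, fun n => (V n).starProjection_norm_le⟩

variable {u}

theorem Low.proj {h : ARep ω U} {c : ℝ} (hc : 0 < c) {V : ∀ n, Submodule ℂ (E n)}
    (hV : Low u h c V) {x : ∀ n, E n} (hx : Bd x) (hf : LI u h (cls ω x)) :
    cls ω (fun n => prj V n (x n)) = cls ω x := by
  have hPx : Bd (fun n => prj V n (x n)) := bd_act (prj_bd V) hx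
  set y : ∀ n, E n := fun n => x n - prj V n (x n) with hy
  have hyb : Bd y := hx.sub hPx
  have hyV : ∀ n, y n ∈ (V n)ᗮ := fun n => Submodule.sub_starProjection_mem_orthogonal _
  have h1 : LI u h (cls ω y) := by
    intro i a
    rw [hy, cls_sub hx hPx, map_sub, hf i a,
      hV.fix _ hPx (fun n => Submodule.starProjection_apply_mem _ _) i a]
  have h2 : ∀ i, Tendsto (fun n => ‖Qn u U n i (y n)‖ ^ 2) ω (𝓝 0) := by
    intro i
    have h3 := Q_of_fix u h i (cls ω y) (fun a => h1 i a)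
    rw [Qn_cls u h i hyb] at h3
    have h4 := cls_nsq (ω := ω) (bd_act (Qn_bd u h i) hyb)
    rw [h3] at h4
    simpa using h4
  have h3 : Tendsto (fun n => ∑ i, ‖Qn u U n i (y n)‖ ^ 2) ω (𝓝 0) := by
    have := tendsto_finsetSum (f := fun i n => ‖Qn u U n i (y n)‖ ^ 2)
      Finset.univ (fun i _ => h2 i)
    simpa using this
  have h4 : Tendsto (fun n => c * ‖y n‖ ^ 2) ω (𝓝 0) :=
    squeeze_zero (fun n => by positivity) (fun n => hV.perp n (y n) (hyV n)) h3
  have h5 := (cls_nsq (ω := ω) hyb).const_mul c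
  have h6 := tendsto_nhds_unique h5 h4
  have h7 : ‖cls ω y‖ ^ 2 = 0 := by
    rcases mul_eq_zero.mp h6 with h | h
    · exact absurd h hc.ne'
    · exact h
  have h8 : cls ω y = 0 := by
    rw [← norm_eq_zero]; nlinarith [norm_nonneg (cls ω y)]
  rw [hy, cls_sub hx hPx, sub_eq_zero] at h8
  exact h8.symm

theorem Low.bij {h : ARep ω U} {c : ℝ} (hc : 0 < c) {V : ∀ n, Submodule ℂ (E n)}
    (hV : Low u h c V) (t : G)
    (ht : ∀ i a, t⁻¹ * u i a * t ∈ lineGroup u) :
    ∀ᶠ n in (ω : Filter ℕ), ∀ x ∈ V n, ‖x‖ ≤ 2 * ‖prj V n (U n t x)‖ := by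
  classical
  by_contra hcon
  rw [← Ultrafilter.eventually_not] at hcon
  have hbad : ∀ n, ∃ x : E n, x ∈ V n ∧ ‖x‖ ≤ 1 ∧
      ((¬ ∀ x ∈ V n, ‖x‖ ≤ 2 * ‖prj V n (U n t x)‖) →
        ‖x‖ = 1 ∧ 2 * ‖prj V n (U n t x)‖ ≤ 1) := by
    intro n
    by_cases hn : ∀ x ∈ V n, ‖x‖ ≤ 2 * ‖prj V n (U n t x)‖
    · exact ⟨0, (V n).zero_mem, by simp, fun h => absurd hn h⟩
    · have hn' := hn
      push Not at hn
      obtain ⟨x, hx, hlt⟩ := hn
      have hx0 : ‖x‖ ≠ 0 := by
        intro h0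
        rw [h0] at hlt
        have := norm_nonneg (prj V n (U n t x))
        linarith
      have hxpos : 0 < ‖x‖ := lt_of_le_of_ne (norm_nonneg _) (Ne.symm hx0)
      have hnn : ‖((‖x‖ : ℂ)⁻¹) • x‖ = 1 := by
        rw [norm_smul, norm_inv, Complex.norm_real, Real.norm_eq_abs, abs_of_pos hxpos,
          inv_mul_cancel₀ hx0]
      refine ⟨((‖x‖ : ℂ)⁻¹) • x, (V n).smul_mem _ hx, hnn.le, fun _ => ⟨hnn, ?_⟩⟩
      rw [map_smul, map_smul, norm_smul, norm_inv, Complex.norm_real, Real.norm_eq_abs,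
        abs_of_pos hxpos]
      calc 2 * (‖x‖⁻¹ * ‖prj V n (U n t x)‖) = ‖x‖⁻¹ * (2 * ‖prj V n (U n t x)‖) := by ring
        _ ≤ ‖x‖⁻¹ * ‖x‖ := mul_le_mul_of_nonneg_left hlt.le (by positivity)
        _ = 1 := inv_mul_cancel₀ hx0
  choose x hxV hx1 hxb using hbad
  have hx : Bd x := ⟨1, hx1⟩
  have hLI : LI u h (cls ω x) := fun i a => hV.fix x hx hxV i a
  have hst := le_stab u h (cls ω x) hLI
  have hLI' : LI u h (h.rep t (cls ω x)) := by
    intro i a
    have h1 : h.rep (t⁻¹ * u i a * t) (cls ω x) = cls ω x := hst (ht i a)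
    have h2 : h.rep t (h.rep (t⁻¹ * u i a * t) (cls ω x)) = h.rep (u i a) (h.rep t (cls ω x)) := by
      rw [← h.rep_mul, ← h.rep_mul]
      congr 2
      group
    rw [← h2, h1]
  rw [h.rep_cls t hx] at hLI'
  have hUx : Bd (fun n => U n t (x n)) := bd_act (h.bd t) hx
  have h3 := hV.proj hc hUx hLI'
  have h4 := cls_norm (ω := ω) (bd_act (prj_bd V) hUx)
  rw [h3, ← h.rep_cls t hx, h.rep_norm] at h4
  have h5 := cls_norm (ω := ω) hx
  have h6 : ‖cls ω x‖ = 1 := by
    refine tendsto_nhds_unique h5 ?_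
    refine tendsto_const_nhds.congr' ?_
    filter_upwards [hcon] with n hn
    exact (hxb n hn).1.symm
  have h7 : ‖cls ω x‖ ≤ 1 / 2 := by
    refine le_of_tendsto h4 ?_
    filter_upwards [hcon] with n hn
    have := (hxb n hn).2
    linarith
  rw [h6] at h7
  norm_num at h7

/-- the rank argument -/
theorem Low.claim {h : ARep ω U} {c : ℝ} (hc : 0 < c) {V : ∀ n, Submodule ℂ (E n)}
    (hV : Low u h c V) (t : G)
    (ht : ∀ i a, t⁻¹ * u i a * t ∈ lineGroup u)
    (v : UP ω E) (hv : ∀ i a, h.rep (t⁻¹ * u i a * t) v = v) : LI u h v := by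
  classical
  have hgood := hV.bij hc t ht
  obtain ⟨w, hw, rfl⟩ := cls_surj v
  have hUw : Bd (fun n => U n t (w n)) := bd_act (h.bd t) hw
  have hLI : LI u h (cls ω (fun n => U n t (w n))) := by
    intro i a
    rw [← h.rep_cls t hw]
    have h2 : h.rep t (h.rep (t⁻¹ * u i a * t) (cls ω w)) = h.rep (u i a) (h.rep t (cls ω w)) := by
      rw [← h.rep_mul, ← h.rep_mul]
      congr 2
      group
    rw [← h2, hv i a]
  have h3 := hV.proj hc hUw hLI
  -- solve
  have hsol : ∀ n, ∃ x : E n, x ∈ V n ∧ ‖x‖ ≤ 2 * ‖w n‖ ∧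
      ((∀ x ∈ V n, ‖x‖ ≤ 2 * ‖prj V n (U n t x)‖) →
        prj V n (U n t x) = prj V n (U n t (w n))) := by
    intro n
    by_cases hn : ∀ x ∈ V n, ‖x‖ ≤ 2 * ‖prj V n (U n t x)‖
    · let f : V n →ₗ[ℂ] V n :=
        ((V n).orthogonalProjectionOnto : E n →ₗ[ℂ] V n) ∘ₗ (U n t : E n →ₗ[ℂ] E n) ∘ₗ
          (V n).subtype
      have hf : ∀ x : V n, ((f x : V n) : E n) = prj V n (U n t x) := fun x => rfl
      have hinj : Function.Injective f := by
        rw [injective_iff_map_eq_zero]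
        intro x hx
        have h1 := hn x x.2
        rw [← hf, hx] at h1
        have h2 : ‖(x : E n)‖ ≤ 0 := by simpa using h1
        exact Subtype.ext (norm_le_zero_iff.mp h2)
      have hsurj := (LinearMap.injective_iff_surjective).mp hinj
      obtain ⟨x, hx⟩ := hsurj ⟨prj V n (U n t (w n)), Submodule.starProjection_apply_mem _ _⟩
      have hx' : prj V n (U n t x) = prj V n (U n t (w n)) := by
        rw [← hf, hx]
      refine ⟨x, x.2, ?_, fun _ => hx'⟩
      refine (hn x x.2).trans ?_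
      rw [hx']
      have h1 : ‖prj V n (U n t (w n))‖ ≤ ‖U n t (w n)‖ := Submodule.norm_starProjection_apply_le _ _
      rw [h.norm_map] at h1
      linarith
    · exact ⟨0, (V n).zero_mem, by simp, fun h => absurd h hn⟩
  choose x hxV hxw hxs using hsol
  have hx : Bd x := by
    obtain ⟨r, hr⟩ := hw
    exact ⟨2 * r, fun n => (hxw n).trans (by linarith [hr n])⟩
  have hLIx : LI u h (cls ω x) := fun i a => hV.fix x hx hxV i a
  have hst := le_stab u h (cls ω x) hLIx
  have hUx : Bd (fun n => U n t (x n)) := bd_act (h.bd t) hx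
  have hLIx' : LI u h (cls ω (fun n => U n t (x n))) := by
    intro i a
    rw [← h.rep_cls t hx]
    have h1 : h.rep (t⁻¹ * u i a * t) (cls ω x) = cls ω x := hst (ht i a)
    have h2 : h.rep t (h.rep (t⁻¹ * u i a * t) (cls ω x)) = h.rep (u i a) (h.rep t (cls ω x)) := by
      rw [← h.rep_mul, ← h.rep_mul]
      congr 2
      group
    rw [← h2, h1]
  have h4 := hV.proj hc hUx hLIx'
  have h5 : cls ω (fun n => prj V n (U n t (x n))) = cls ω (fun n => prj V n (U n t (w n))) := by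
    rw [cls_eq (bd_act (prj_bd V) hUx) (bd_act (prj_bd V) hUw)]
    refine tendsto_const_nhds.congr' ?_
    filter_upwards [hgood] with n hn
    rw [hxs n hn, sub_self, norm_zero]
  rw [h4, h3, ← h.rep_cls t hx, ← h.rep_cls t hw] at h5
  have h6 : cls ω x = cls ω w := by
    have := congrArg (h.rep t⁻¹) h5
    rwa [h.rep_inv_cancel, h.rep_inv_cancel] at this
  rw [← h6]
  exact hLIx

/-- the invariant vectors are invariant under the whole group -/
theorem Low.inv_all {h : ARep ω U} {c : ℝ} (hc : 0 < c) {V : ∀ n, Submodule ℂ (E n)}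
    (hV : Low u h c V) (t : G)
    (ht : ∀ i a, t⁻¹ * u i a * t ∈ lineGroup u)
    (hgen : Subgroup.closure ({g | ∃ i a, g = u i a} ∪ {t}) = ⊤) (g : G) :
    ∀ x : UP ω E, LI u h x → LI u h (h.rep g x) := by
  have hline : ∀ x : UP ω E, LI u h x → ∀ s ∈ lineGroup u, h.rep s x = x := fun x hx s hs =>
    le_stab u h x hx hs
  have key : ∀ g : G, (∀ x : UP ω E, LI u h x → LI u h (h.rep g x)) ∧
      (∀ x : UP ω E, LI u h x → LI u h (h.rep g⁻¹ x)) := by
    intro g
    have hg : g ∈ Subgroup.closure ({g | ∃ i a, g = u i a} ∪ {t}) := by rw [hgen]; trivial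
    induction hg using Subgroup.closure_induction with
    | mem g hg =>
      rcases hg with ⟨i, a, rfl⟩ | hg
      · refine ⟨fun x hx => ?_, fun x hx => ?_⟩
        · rw [hx i a]; exact hx
        · rw [hline x hx _ (inv_mem (mem_lineGroup u i a))]; exact hx
      · rw [Set.mem_singleton_iff] at hg
        subst hg
        refine ⟨fun x hx i a => ?_, fun x hx => ?_⟩
        · have h1 : h.rep (g⁻¹ * u i a * g) x = x := hline x hx _ (ht i a)
          have h2 : h.rep g (h.rep (g⁻¹ * u i a * g) x) = h.rep (u i a) (h.rep g x) := by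
            rw [← h.rep_mul, ← h.rep_mul]
            congr 2
            group
          rw [← h2, h1]
        · refine hV.claim hc g ht _ fun i a => ?_
          have h2 : h.rep (g⁻¹ * u i a * g) (h.rep g⁻¹ x) = h.rep g⁻¹ (h.rep (u i a) x) := by
            rw [← h.rep_mul, ← h.rep_mul]
            congr 2
            group
          rw [h2, hx i a]
    | one =>
      refine ⟨fun x hx => ?_, fun x hx => ?_⟩
      · rw [h.rep_one]; exact hx
      · rw [inv_one, h.rep_one]; exact hx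
    | mul a b _ _ iha ihb =>
      refine ⟨fun x hx => ?_, fun x hx => ?_⟩
      · rw [h.rep_mul]; exact iha.1 _ (ihb.1 x hx)
      · rw [mul_inv_rev, h.rep_mul]; exact ihb.2 _ (iha.2 x hx)
    | inv a _ iha =>
      refine ⟨iha.2, fun x hx => ?_⟩
      rw [inv_inv]; exact iha.1 x hx
  exact (key g).1

theorem op_prj_symm (V : ∀ n, Submodule ℂ (E n)) (x y : UP ω E) :
    ⟪op ω (fun n => prj V n) x, y⟫_ℂ = ⟪x, op ω (fun n => prj V n) y⟫_ℂ := by
  obtain ⟨x, hx, rfl⟩ := cls_surj x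
  obtain ⟨y, hy, rfl⟩ := cls_surj y
  rw [op_cls (prj_bd V) hx, op_cls (prj_bd V) hy]
  have h1 := cls_inner (ω := ω) (bd_act (prj_bd V) hx) hy
  have h2 := cls_inner (ω := ω) hx (bd_act (prj_bd V) hy)
  have e : (fun n => ⟪prj V n (x n), y n⟫_ℂ) = fun n => ⟪x n, prj V n (y n)⟫_ℂ := by
    funext n
    exact Submodule.inner_starProjection_left_eq_right (V n) _ _
  rw [e] at h1
  exact tendsto_nhds_unique h1 h2

/-- the low energy projections asymptotically commute with the whole group -/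
theorem Low.comm {h : ARep ω U} {c : ℝ} (hc : 0 < c) {V : ∀ n, Submodule ℂ (E n)}
    (hV : Low u h c V) (t : G)
    (ht : ∀ i a, t⁻¹ * u i a * t ∈ lineGroup u)
    (hgen : Subgroup.closure ({g | ∃ i a, g = u i a} ∪ {t}) = ⊤) (g : G) :
    Tendsto (fun n => ‖U n g * prj V n - prj V n * U n g‖) ω (𝓝 0) := by
  rw [← op_eq ((h.bd g).mul (prj_bd V)) ((prj_bd V).mul (h.bd g)), op_mul (h.bd g) (prj_bd V),
    op_mul (prj_bd V) (h.bd g)]
  set P := op ω (fun n => prj V n) with hP
  have hPi : ∀ x, LI u h (P x) := by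
    intro x
    obtain ⟨x, hx, rfl⟩ := cls_surj x
    rw [hP, op_cls (prj_bd V) hx]
    exact hV.fix _ (bd_act (prj_bd V) hx) (fun n => Submodule.starProjection_apply_mem _ _)
  have hPf : ∀ x, LI u h x → P x = x := by
    intro x hx
    obtain ⟨x, hxb, rfl⟩ := cls_surj x
    rw [hP, op_cls (prj_bd V) hxb]
    exact hV.proj hc hxb hx
  have hPg : ∀ (g : G) x, P (h.rep g (P x)) = h.rep g (P x) := fun g x =>
    hPf _ (hV.inv_all hc t ht hgen g _ (hPi x))
  have hadj : ∀ (g : G) (x y : UP ω E), ⟪h.rep g x, y⟫_ℂ = ⟪x, h.rep g⁻¹ y⟫_ℂ := by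
    intro g x y
    rw [← h.rep_inner g x (h.rep g⁻¹ y), h.rep_cancel_inv]
  show h.rep g * P = P * h.rep g
  ext x
  refine ext_inner_right ℂ fun y => ?_
  show ⟪h.rep g (P x), y⟫_ℂ = ⟪P (h.rep g x), y⟫_ℂ
  symm
  rw [op_prj_symm, hadj, ← hP, ← hPg g⁻¹ y, ← op_prj_symm V x, ← hP, ← hadj, hP, ← op_prj_symm,
    ← hP, hPg]

end Q90.MS
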