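import Mathlib

set_option autoImplicit false

/-!
Low energy subspaces of a positive operator on a finite dimensional Hilbert space.
-/

open scoped InnerProductSpace

noncomputable section

namespace Q90.MS

theorem exists_split {F : Type} [NormedAddCommGroup F] [InnerProductSpace ℂ F]
    [FiniteDimensional ℂ F] (L : F →ₗ[ℂ] F) (hL : L.IsSymmetric)
    (hp : ∀ x, 0 ≤ (⟪L x, x⟫_ℂ).re) (c : ℝ) :
    ∃ K : Submodule ℂ F, (∀ v ∈ K, ‖L v‖ ^ 2 ≤ c * (⟪L v, v⟫_ℂ).re) ∧
      ∀ v ∈ Kᗮ, c * ‖v‖ ^ 2 ≤ (⟪L v, v⟫_ℂ).re := by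
  classical
  set b := hL.eigenvectorBasis rfl with hb
  set l := hL.eigenvalues rfl with hl
  have hLb : ∀ i, L (b i) = (l i : ℂ) • b i := fun i => hL.apply_eigenvectorBasis rfl i
  have hl0 : ∀ i, 0 ≤ l i := by
    intro i
    have h := hp (b i)
    rw [hLb, inner_smul_left, inner_self_eq_norm_sq_to_K, b.orthonormal.1 i] at h
    simpa using h
  have hc : ∀ v i, ⟪b i, L v⟫_ℂ = (l i : ℂ) * ⟪b i, v⟫_ℂ := by
    intro v i
    rw [← hL, hLb, inner_smul_left, Complex.conj_ofReal]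
  have hn : ∀ v, ‖v‖ ^ 2 = ∑ i, ‖⟪b i, v⟫_ℂ‖ ^ 2 := fun v => (b.sum_sq_norm_inner_right v).symm
  have hin : ∀ v, (⟪L v, v⟫_ℂ).re = ∑ i, l i * ‖⟪b i, v⟫_ℂ‖ ^ 2 := by
    intro v
    rw [← b.sum_inner_mul_inner (L v) v, Complex.re_sum]
    refine Finset.sum_congr rfl fun i _ => ?_
    rw [← inner_conj_symm (L v) (b i), hc, map_mul, Complex.conj_ofReal, mul_assoc,
      Complex.re_ofReal_mul]
    congr 1
    rw [mul_comm, Complex.mul_conj, Complex.normSq_eq_norm_sq]
    exact Complex.ofReal_re _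
  have hLn : ∀ v, ‖L v‖ ^ 2 = ∑ i, l i ^ 2 * ‖⟪b i, v⟫_ℂ‖ ^ 2 := by
    intro v
    rw [hn (L v)]
    refine Finset.sum_congr rfl fun i _ => ?_
    rw [hc, norm_mul, mul_pow, Complex.norm_real, Real.norm_eq_abs, sq_abs]
  let K : Submodule ℂ F :=
    { carrier := {v | ∀ i, c < l i → ⟪b i, v⟫_ℂ = 0}
      add_mem' := by
        intro x y hx hy i hi
        rw [inner_add_right, hx i hi, hy i hi, add_zero]
      zero_mem' := fun i _ => inner_zero_right _
      smul_mem' := by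
        intro a x hx i hi
        rw [inner_smul_right, hx i hi, mul_zero] }
  refine ⟨K, ?_, ?_⟩
  · intro v hv
    rw [hLn, hin, Finset.mul_sum]
    refine Finset.sum_le_sum fun i _ => ?_
    by_cases hi : c < l i
    · have hvi : ⟪b i, v⟫_ℂ = 0 := hv i hi
      rw [hvi]; simp
    · have h1 : l i ^ 2 ≤ c * l i := by nlinarith [hl0 i, not_lt.mp hi]
      calc l i ^ 2 * ‖⟪b i, v⟫_ℂ‖ ^ 2 ≤ (c * l i) * ‖⟪b i, v⟫_ℂ‖ ^ 2 :=
            mul_le_mul_of_nonneg_right h1 (sq_nonneg _)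
        _ = _ := by ring
  · intro v hv
    rw [hn, hin, Finset.mul_sum]
    refine Finset.sum_le_sum fun i _ => ?_
    by_cases hi : c < l i
    · exact mul_le_mul_of_nonneg_right hi.le (sq_nonneg _)
    · have hbi : b i ∈ K := by
        intro j hj
        have hij : j ≠ i := by
          rintro rfl
          exact hi hj
        exact b.orthonormal.2 hij
      have : ⟪b i, v⟫_ℂ = 0 := (Submodule.mem_orthogonal K v).mp hv _ hbi
      rw [this]; simp

end Q90.MS
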