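import Pool.Agent.Q90.MsUltra
import Pool.Agent.Q90.MsSplit
import Pool.Agent.Helper455.KZ.Gap

set_option autoImplicit false
set_option linter.unusedSectionVars false

/-!
Asymptotic representations on finite dimensional Hilbert spaces and the rank argument for
Kazhdan subgroups.
-/

open Filter Topology
open scoped InnerProductSpace
open Pool.Agent.Helper455.KZ

noncomputable section

namespace Q90.MS

variable {G : Type} [Group G] {ω : Ultrafilter ℕ} {E : ℕ → Type} [∀ n, NormedAddCommGroup (E n)]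
  [∀ n, InnerProductSpace ℂ (E n)]

/-- isometric, asymptotically multiplicative families of operators -/
structure ARep (ω : Ultrafilter ℕ) {E : ℕ → Type} [∀ n, NormedAddCommGroup (E n)]
    [∀ n, InnerProductSpace ℂ (E n)] (U : ∀ n, G → (E n →L[ℂ] E n)) : Prop where
  inner : ∀ n g x y, ⟪U n g x, U n g y⟫_ℂ = ⟪x, y⟫_ℂ
  mul : ∀ g h, Tendsto (fun n => ‖U n (g * h) - U n g * U n h‖) ω (𝓝 0)

theorem norm_of_inner {F F' : Type*} [NormedAddCommGroup F] [InnerProductSpace ℂ F]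
    [NormedAddCommGroup F'] [InnerProductSpace ℂ F'] (T : F → F')
    (hT : ∀ x y, ⟪T x, T y⟫_ℂ = ⟪x, y⟫_ℂ) (x : F) : ‖T x‖ = ‖x‖ := by
  have h1 := hT x x
  rw [inner_self_eq_norm_sq_to_K, inner_self_eq_norm_sq_to_K] at h1
  have h2 : ‖T x‖ ^ 2 = ‖x‖ ^ 2 := by exact_mod_cast h1
  exact (sq_eq_sq₀ (norm_nonneg _) (norm_nonneg _)).mp h2

namespace ARep

variable {U : ∀ n, G → (E n →L[ℂ] E n)}

theorem norm_map (h : ARep ω U) (n : ℕ) (g : G) (x : E n) : ‖U n g x‖ = ‖x‖ :=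
  norm_of_inner (U n g) (h.inner n g) x

theorem norm_le (h : ARep ω U) (n : ℕ) (g : G) : ‖U n g‖ ≤ 1 :=
  ContinuousLinearMap.opNorm_le_bound _ zero_le_one fun x => by rw [h.norm_map, one_mul]

theorem bd (h : ARep ω U) (g : G) : Bd (fun n => U n g) := ⟨1, fun n => h.norm_le n g⟩

theorem op_inner (h : ARep ω U) (g : G) (x y : UP ω E) :
    ⟪op ω (fun n => U n g) x, op ω (fun n => U n g) y⟫_ℂ = ⟪x, y⟫_ℂ := by
  obtain ⟨x, hx, rfl⟩ := cls_surj x
  obtain ⟨y, hy, rfl⟩ := cls_surj y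
  rw [op_cls (h.bd g) hx, op_cls (h.bd g) hy]
  have h1 := cls_inner (ω := ω) (bd_act (h.bd g) hx) (bd_act (h.bd g) hy)
  have h2 := cls_inner (ω := ω) hx hy
  simp only [h.inner] at h1
  exact tendsto_nhds_unique h1 h2

theorem op_map_mul (h : ARep ω U) (g g' : G) :
    op ω (fun n => U n (g * g')) = op ω (fun n => U n g) * op ω (fun n => U n g') := by
  rw [← op_mul (h.bd g) (h.bd g'), op_eq (h.bd _) ((h.bd g).mul (h.bd g'))]
  exact h.mul g g'

theorem op_map_one (h : ARep ω U) : op ω (fun n => U n (1 : G)) = 1 := by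
  ext x
  have h1 := h.op_map_mul 1 1
  rw [mul_one] at h1
  set T := op ω (fun n => U n (1 : G)) with hT
  have h2 : T (T x - x) = 0 := by
    rw [map_sub]
    have : T x = T (T x) := by
      conv_lhs => rw [h1]
      rfl
    rw [← this, sub_self]
  have h3 : ‖T (T x - x)‖ = ‖T x - x‖ := norm_of_inner T (h.op_inner 1) _
  rw [h2, norm_zero] at h3
  exact sub_eq_zero.mp (norm_eq_zero.mp h3.symm)

/-- the representation on the ultraproduct -/
def rep (h : ARep ω U) : G →* (UP ω E →L[ℂ] UP ω E) where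
  toFun g := op ω (fun n => U n g)
  map_one' := h.op_map_one
  map_mul' := h.op_map_mul

theorem rep_cls (h : ARep ω U) (g : G) {x : ∀ n, E n} (hx : Bd x) :
    h.rep g (cls ω x) = cls ω (fun n => U n g (x n)) := op_cls (h.bd g) hx

theorem rep_inner (h : ARep ω U) (g : G) (x y : UP ω E) :
    ⟪h.rep g x, h.rep g y⟫_ℂ = ⟪x, y⟫_ℂ := h.op_inner g x y

theorem rep_norm (h : ARep ω U) (g : G) (x : UP ω E) : ‖h.rep g x‖ = ‖x‖ :=
  norm_of_inner (h.rep g) (h.rep_inner g) x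

theorem rep_mul (h : ARep ω U) (g g' : G) (x : UP ω E) :
    h.rep (g * g') x = h.rep g (h.rep g' x) := by
  rw [map_mul]; rfl

theorem rep_one (h : ARep ω U) (x : UP ω E) : h.rep 1 x = x := by
  rw [map_one]; rfl

theorem rep_inv_cancel (h : ARep ω U) (g : G) (x : UP ω E) : h.rep g⁻¹ (h.rep g x) = x := by
  rw [← h.rep_mul, inv_mul_cancel, h.rep_one]

theorem rep_cancel_inv (h : ARep ω U) (g : G) (x : UP ω E) : h.rep g (h.rep g⁻¹ x) = x := by
  rw [← h.rep_mul, mul_inv_cancel, h.rep_one]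

/-- the stabilizer of a vector -/
def stab (h : ARep ω U) (x : UP ω E) : Subgroup G where
  carrier := {g | h.rep g x = x}
  one_mem' := h.rep_one x
  mul_mem' := by
    intro a b ha hb
    show h.rep (a * b) x = x
    have ha' : h.rep a x = x := ha
    have hb' : h.rep b x = x := hb
    rw [h.rep_mul, hb', ha']
  inv_mem' := by
    intro a ha
    show h.rep a⁻¹ x = x
    have ha' : h.rep a x = x := ha
    have := h.rep_inv_cancel a x
    rwa [ha'] at this

theorem mem_stab (h : ARep ω U) (x : UP ω E) (g : G) : g ∈ h.stab x ↔ h.rep g x = x := Iff.rfl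

end ARep

section lines

variable {K : Type} [Field K] [Fintype K] {m : ℕ} (u : Fin m → K → G)

/-- the spectral gap of the lines `u` in all isometric representations -/
def HasGap (κ : ℝ) : Prop :=
  ∀ (H : Type) [NormedAddCommGroup H] [InnerProductSpace ℂ H] (π : G →* (H →L[ℂ] H)),
    (∀ g x y, ⟪π g x, π g y⟫_ℂ = ⟪x, y⟫_ℂ) →
    ∀ v, κ * EE (fun i => co (avg (fun a => π (u i a)))) v ≤
      ‖DD (fun i => co (avg (fun a => π (u i a)))) v‖ ^ 2

/-- the group generated by the lines -/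
def lineGroup : Subgroup G := Subgroup.closure {g | ∃ i a, g = u i a}

theorem mem_lineGroup (i : Fin m) (a : K) : u i a ∈ lineGroup u :=
  Subgroup.subset_closure ⟨i, a, rfl⟩

variable (U : ∀ n, G → (E n →L[ℂ] E n))

/-- the complementary average over a line -/
def Qn (n : ℕ) (i : Fin m) : E n →L[ℂ] E n :=
  1 - ((Fintype.card K : ℂ)⁻¹) • ∑ a, U n (u i a)

theorem Qn_apply (n : ℕ) (i : Fin m) (x : E n) :
    Qn u U n i x = co (avg (fun a => U n (u i a))) x := by
  simp [Qn, co, avg]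

variable {U}

theorem Qn_norm_le (h : ARep ω U) (n : ℕ) (i : Fin m) (x : E n) : ‖Qn u U n i x‖ ≤ 2 * ‖x‖ := by
  rw [Qn_apply]
  refine co_avg_small x _ fun a => ?_
  refine (norm_sub_le _ _).trans ?_
  rw [h.norm_map]; linarith

theorem Qn_bd (h : ARep ω U) (i : Fin m) : Bd (fun n => Qn u U n i) :=
  ⟨2, fun n => ContinuousLinearMap.opNorm_le_bound _ (by norm_num) fun x => Qn_norm_le u h n i x⟩

theorem Qn_cls (h : ARep ω U) (i : Fin m) {x : ∀ n, E n} (hx : Bd x) :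
    co (avg (fun a => h.rep (u i a))) (cls ω x) = cls ω (fun n => Qn u U n i (x n)) := by
  have h1 : ∀ a, Bd (fun n => U n (u i a) (x n)) := fun a => bd_act (h.bd _) hx
  have h2 : Bd (fun n => ∑ a, U n (u i a) (x n)) := Bd.sum _ h1
  have e : (fun n => Qn u U n i (x n)) =
      fun n => x n - ((Fintype.card K : ℂ)⁻¹) • ∑ a, U n (u i a) (x n) := by
    funext n
    rw [Qn_apply]; rfl
  rw [e, cls_sub hx (h2.smul _), cls_smul _ h2, cls_sum _ h1]
  simp only [co, avg, h.rep_cls _ hx]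

variable (hu : ∀ i a b, u i (a + b) = u i a * u i b)

include hu in
theorem u_zero (i : Fin m) : u i 0 = 1 := by
  have h := hu i 0 0
  rw [add_zero] at h
  exact left_eq_mul.mp h

include hu in
theorem urep_of {H : Type} [NormedAddCommGroup H] [InnerProductSpace ℂ H] (π : G →* (H →L[ℂ] H))
    (hπ : ∀ g x y, ⟪π g x, π g y⟫_ℂ = ⟪x, y⟫_ℂ) (i : Fin m) : URep (fun a => π (u i a)) where
  zero x := by rw [u_zero u hu, map_one]; rfl
  add a b x := by rw [hu, map_mul]; rfl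
  inner a x y := hπ _ x y

include hu in
theorem Qproj (h : ARep ω U) (i : Fin m) : Proj (co (avg (fun a => h.rep (u i a)))) :=
  (urep_of u hu h.rep h.rep_inner i).avg_proj.co

include hu in
theorem fix_of_Q (h : ARep ω U) (i : Fin m) (x : UP ω E)
    (hx : co (avg (fun a => h.rep (u i a))) x = 0) (a : K) : h.rep (u i a) x = x := by
  have h1 : avg (fun a => h.rep (u i a)) x = x := (sub_eq_zero.mp hx).symm
  have h3 := (urep_of u hu h.rep h.rep_inner i).fix_avg a x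
  rw [h1] at h3
  exact h3

theorem Q_of_fix (h : ARep ω U) (i : Fin m) (x : UP ω E) (hx : ∀ a, h.rep (u i a) x = x) :
    co (avg (fun a => h.rep (u i a))) x = 0 := by
  have h1 : avg (fun a => h.rep (u i a)) x = x := avg_of_fix x hx
  simp only [co, h1, sub_self]

theorem le_stab (h : ARep ω U) (x : UP ω E) (hx : ∀ i a, h.rep (u i a) x = x) :
    lineGroup u ≤ h.stab x := by
  unfold lineGroup
  rw [Subgroup.closure_le]
  rintro _ ⟨i, a, rfl⟩
  exact hx i a

variable [∀ n, FiniteDimensional ℂ (E n)]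

variable (U) in
/-- the Laplacian -/
def Ln (n : ℕ) : E n →ₗ[ℂ] E n :=
  ∑ i, (LinearMap.adjoint (Qn u U n i : E n →ₗ[ℂ] E n)) ∘ₗ (Qn u U n i : E n →ₗ[ℂ] E n)

theorem inner_Ln (n : ℕ) (x y : E n) :
    ⟪Ln u U n x, y⟫_ℂ = ∑ i, ⟪Qn u U n i x, Qn u U n i y⟫_ℂ := by
  simp only [Ln, LinearMap.sum_apply, LinearMap.comp_apply, sum_inner,
    LinearMap.adjoint_inner_left, ContinuousLinearMap.coe_coe]

theorem Ln_symm (n : ℕ) : (Ln u U n).IsSymmetric := by
  intro x y
  rw [inner_Ln, ← inner_conj_symm, inner_Ln, map_sum]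
  refine Finset.sum_congr rfl fun i _ => ?_
  rw [inner_conj_symm]

theorem re_inner_Ln (n : ℕ) (x : E n) :
    (⟪Ln u U n x, x⟫_ℂ).re = ∑ i, ‖Qn u U n i x‖ ^ 2 := by
  rw [inner_Ln, Complex.re_sum]
  refine Finset.sum_congr rfl fun i _ => ?_
  rw [inner_self_eq_norm_sq_to_K]
  norm_cast

theorem Ln_norm_le (h : ARep ω U) (n : ℕ) (x : E n) : ‖Ln u U n x‖ ≤ (4 * m) * ‖x‖ := by
  by_cases h0 : ‖Ln u U n x‖ = 0
  · rw [h0]; positivity
  have hpos : 0 < ‖Ln u U n x‖ := lt_of_le_of_ne (norm_nonneg _) (Ne.symm h0)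
  have h1 : ‖Ln u U n x‖ ^ 2 = ‖⟪Ln u U n x, Ln u U n x⟫_ℂ‖ := by
    rw [inner_self_eq_norm_sq_to_K]
    simp
  rw [inner_Ln] at h1
  have h2 : ‖∑ i, ⟪Qn u U n i x, Qn u U n i (Ln u U n x)⟫_ℂ‖ ≤
      ∑ _i : Fin m, (2 * ‖x‖) * (2 * ‖Ln u U n x‖) := by
    refine (norm_sum_le _ _).trans (Finset.sum_le_sum fun i _ => ?_)
    refine (norm_inner_le_norm _ _).trans ?_
    exact mul_le_mul (Qn_norm_le u h n i x) (Qn_norm_le u h n i _) (norm_nonneg _) (by positivity)
  rw [Finset.sum_const, Finset.card_univ, Fintype.card_fin, nsmul_eq_mul] at h2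
  rw [← h1] at h2
  have h3 : ‖Ln u U n x‖ * ‖Ln u U n x‖ ≤ ((4 * m) * ‖x‖) * ‖Ln u U n x‖ := by
    calc ‖Ln u U n x‖ * ‖Ln u U n x‖ = ‖Ln u U n x‖ ^ 2 := by ring
      _ ≤ _ := h2
      _ = _ := by ring
  exact le_of_mul_le_mul_right h3 hpos

theorem Ln_bd (h : ARep ω U) {x : ∀ n, E n} (hx : Bd x) : Bd (fun n => Ln u U n (x n)) := by
  obtain ⟨r, hr⟩ := hx
  refine ⟨(4 * m) * r, fun n => (Ln_norm_le u h n (x n)).trans ?_⟩
  exact mul_le_mul_of_nonneg_left (hr n) (by positivity)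

include hu in
theorem Ln_cls (h : ARep ω U) {x : ∀ n, E n} (hx : Bd x) :
    cls ω (fun n => Ln u U n (x n)) = DD (fun i => co (avg (fun a => h.rep (u i a)))) (cls ω x) := by
  have key : ∀ z : UP ω E, ⟪cls ω (fun n => Ln u U n (x n)), z⟫_ℂ =
      ⟪DD (fun i => co (avg (fun a => h.rep (u i a)))) (cls ω x), z⟫_ℂ := by
    intro z
    obtain ⟨y, hy, rfl⟩ := cls_surj z
    have h1 := cls_inner (ω := ω) (Ln_bd u h hx) hy
    simp only [inner_Ln] at h1
    have h2 : ∀ i, Tendsto (fun n => ⟪Qn u U n i (x n), Qn u U n i (y n)⟫_ℂ) ω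
        (𝓝 ⟪co (avg (fun a => h.rep (u i a))) (cls ω x),
          co (avg (fun a => h.rep (u i a))) (cls ω y)⟫_ℂ) := by
      intro i
      rw [Qn_cls u h i hx, Qn_cls u h i hy]
      exact cls_inner (bd_act (Qn_bd u h i) hx) (bd_act (Qn_bd u h i) hy)
    have h3 := tendsto_finsetSum (f := fun i n => ⟪Qn u U n i (x n), Qn u U n i (y n)⟫_ℂ)
      Finset.univ (fun i _ => h2 i)
    rw [tendsto_nhds_unique h1 h3, DD, sum_inner]
    refine Finset.sum_congr rfl fun i _ => ?_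
    rw [← (Qproj u hu h i).sym, (Qproj u hu h i).idem]
  exact ext_inner_right ℂ key

include hu in
/-- the low energy subspaces -/
theorem exists_low {κ : ℝ} (hκ : 0 < κ) (hgap : HasGap u κ) (h : ARep ω U) :
    ∃ K : ∀ n, Submodule ℂ (E n),
      (∀ x : ∀ n, E n, Bd x → (∀ n, x n ∈ K n) → ∀ i a, h.rep (u i a) (cls ω x) = cls ω x) ∧
      ∀ n, ∀ v ∈ (K n)ᗮ, κ / 2 * ‖v‖ ^ 2 ≤ ∑ i, ‖Qn u U n i v‖ ^ 2 := by
  have hsp := fun n => exists_split (Ln u U n) (Ln_symm u n)
    (fun x => by rw [re_inner_Ln]; positivity) (κ / 2)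
  choose K hK1 hK2 using hsp
  refine ⟨K, ?_, ?_⟩
  · intro x hx hxK
    set Q : Fin m → UP ω E → UP ω E := fun i => co (avg (fun a => h.rep (u i a))) with hQ
    have h1 := cls_nsq (ω := ω) (Ln_bd u h hx)
    rw [Ln_cls u hu h hx] at h1
    have h2 := (Complex.continuous_re.tendsto _).comp (cls_inner (ω := ω) (Ln_bd u h hx) hx)
    rw [Ln_cls u hu h hx] at h2
    have h3 : (⟪DD Q (cls ω x), cls ω x⟫_ℂ).re = EE Q (cls ω x) := by
      rw [DD, sum_inner, Complex.re_sum]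
      refine Finset.sum_congr rfl fun i _ => ?_
      exact (Qproj u hu h i).re_inner_self _
    have h4 := le_of_tendsto_of_tendsto h1 (h2.const_mul (κ / 2))
      (Filter.Eventually.of_forall fun n => hK1 n (x n) (hxK n))
    rw [h3] at h4
    have h5 := hgap (UP ω E) h.rep h.rep_inner (cls ω x)
    have h6 : EE Q (cls ω x) ≤ 0 := by nlinarith [EE_nonneg Q (cls ω x)]
    intro i a
    have h7 : ‖Q i (cls ω x)‖ ^ 2 ≤ 0 := (Q_le_EE Q i _).trans h6
    have h8 : ‖Q i (cls ω x)‖ = 0 := by nlinarith [norm_nonneg (Q i (cls ω x))]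
    exact fix_of_Q u hu h i _ (norm_eq_zero.mp h8) a
  · intro n v hv
    rw [← re_inner_Ln]
    exact hK2 n v hv

end lines

end Q90.MS
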