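import Mathlib

set_option autoImplicit false
set_option linter.unusedSectionVars false
set_option linter.unusedVariables false

/-!
A sequence of matrix algebras of sizes `2 ^ j` with uniformly bounded generating sets which
contain the corner `M_(2^j) ⊂ M_(2^(j+1))` uniformly.
-/

noncomputable section

namespace Q90.MS

variable (K : Type) [Field K]

/-- the vector space of all sequences -/
abbrev Vs : Type := ℕ → K

/-- projection onto the first `2 ^ j` coordinates -/
def Pj (j : ℕ) : Module.End K (Vs K) where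
  toFun v n := if n < 2 ^ j then v n else 0
  map_add' v w := by
    funext n
    simp only [Pi.add_apply]
    split_ifs <;> simp
  map_smul' c v := by
    funext n
    simp only [Pi.smul_apply, RingHom.id_apply, smul_eq_mul]
    split_ifs <;> simp

/-- right shift by `2 ^ j` -/
def Sj (j : ℕ) : Module.End K (Vs K) where
  toFun v n := if n < 2 ^ j then 0 else v (n - 2 ^ j)
  map_add' v w := by
    funext n
    simp only [Pi.add_apply]
    split_ifs <;> simp
  map_smul' c v := by
    funext n
    simp only [Pi.smul_apply, RingHom.id_apply, smul_eq_mul]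
    split_ifs <;> simp

/-- left shift by `2 ^ j` -/
def Bj (j : ℕ) : Module.End K (Vs K) where
  toFun v n := v (n + 2 ^ j)
  map_add' v w := rfl
  map_smul' c v := rfl

variable {K}

theorem Pj_apply (j : ℕ) (v : Vs K) (n : ℕ) : Pj K j v n = if n < 2 ^ j then v n else 0 := rfl
theorem Sj_apply (j : ℕ) (v : Vs K) (n : ℕ) :
    Sj K j v n = if n < 2 ^ j then 0 else v (n - 2 ^ j) := rfl
theorem Bj_apply (j : ℕ) (v : Vs K) (n : ℕ) : Bj K j v n = v (n + 2 ^ j) := rfl

theorem BS (j : ℕ) : Bj K j * Sj K j = 1 := by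
  apply LinearMap.ext
  intro v
  funext n
  show Bj K j (Sj K j v) n = v n
  rw [Bj_apply, Sj_apply, if_neg (by omega)]
  congr 1
  omega

theorem PS (j : ℕ) : Pj K j * Sj K j = 0 := by
  apply LinearMap.ext
  intro v
  funext n
  show Pj K j (Sj K j v) n = 0
  rw [Pj_apply, Sj_apply]
  split_ifs <;> rfl

theorem BP (j : ℕ) : Bj K j * Pj K j = 0 := by
  apply LinearMap.ext
  intro v
  funext n
  show Bj K j (Pj K j v) n = 0
  rw [Bj_apply, Pj_apply, if_neg (by omega)]

theorem PP (j : ℕ) : Pj K j * Pj K j = Pj K j := by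
  apply LinearMap.ext
  intro v
  funext n
  show Pj K j (Pj K j v) n = Pj K j v n
  rw [Pj_apply, Pj_apply]
  split_ifs <;> rfl

theorem pow_lt' (j : ℕ) : 2 ^ (j + 1) = 2 ^ j + 2 ^ j := by
  rw [pow_succ]; ring

theorem P1P (j : ℕ) : Pj K (j + 1) * Pj K j = Pj K j := by
  apply LinearMap.ext
  intro v
  funext n
  show Pj K (j + 1) (Pj K j v) n = Pj K j v n
  rw [Pj_apply, Pj_apply]
  have := pow_lt' j
  by_cases h : n < 2 ^ j
  · rw [if_pos (by omega)]
  · rw [if_neg h]; split_ifs <;> rfl

theorem PP1 (j : ℕ) : Pj K j * Pj K (j + 1) = Pj K j := by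
  apply LinearMap.ext
  intro v
  funext n
  show Pj K j (Pj K (j + 1) v) n = Pj K j v n
  rw [Pj_apply, Pj_apply, Pj_apply]
  have := pow_lt' j
  by_cases h : n < 2 ^ j
  · rw [if_pos h, if_pos (by omega), if_pos h]
  · rw [if_neg h, if_neg h]

theorem P1S (j : ℕ) : Pj K (j + 1) * Sj K j = Sj K j * Pj K j := by
  apply LinearMap.ext
  intro v
  funext n
  show Pj K (j + 1) (Sj K j v) n = Sj K j (Pj K j v) n
  rw [Pj_apply, Sj_apply, Sj_apply, Pj_apply]
  have := pow_lt' j
  by_cases h : n < 2 ^ j
  · rw [if_pos (by omega), if_pos h, if_pos h]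
  · rw [if_neg h, if_neg h]
    by_cases h' : n < 2 ^ (j + 1)
    · rw [if_pos h', if_pos (by omega)]
    · rw [if_neg h', if_neg (by omega)]

theorem BP1 (j : ℕ) : Bj K j * Pj K (j + 1) = Pj K j * Bj K j := by
  apply LinearMap.ext
  intro v
  funext n
  show Bj K j (Pj K (j + 1) v) n = Pj K j (Bj K j v) n
  rw [Bj_apply, Pj_apply, Pj_apply, Bj_apply]
  have := pow_lt' j
  by_cases h : n < 2 ^ j
  · rw [if_pos (by omega), if_pos h]
  · rw [if_neg (by omega), if_neg h]

variable (K)

/-- the unit -/
def l1 : ℕ → Module.End K (Vs K) := fun j => Pj K j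

/-- the first matrix unit -/
def le' : ℕ → Module.End K (Vs K)
  | 0 => 0
  | j + 1 => Pj K j * Bj K j

/-- the second matrix unit -/
def lf : ℕ → Module.End K (Vs K)
  | 0 => 0
  | j + 1 => Sj K j * Pj K j

/-- the recursive generator -/
def ly : ℕ → Module.End K (Vs K)
  | 0 => 0
  | j + 1 => le' K j + lf K j * Bj K j + Sj K j * ly j

/-- shift of levels -/
def shN (s : ℕ → Module.End K (Vs K)) : ℕ → Module.End K (Vs K)
  | 0 => 0
  | j + 1 => s j

variable {K}

theorem l1_l1 : l1 K * l1 K = l1 K := by
  funext j; exact PP j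

theorem l1_le : l1 K * le' K = le' K := by
  funext j
  cases j with
  | zero => exact mul_zero _
  | succ j =>
    show Pj K (j + 1) * (Pj K j * Bj K j) = Pj K j * Bj K j
    rw [← mul_assoc, P1P]

theorem le_l1 : le' K * l1 K = le' K := by
  funext j
  cases j with
  | zero => exact zero_mul _
  | succ j =>
    show Pj K j * Bj K j * Pj K (j + 1) = Pj K j * Bj K j
    rw [mul_assoc, BP1, ← mul_assoc, PP]

theorem l1_lf : l1 K * lf K = lf K := by
  funext j
  cases j with
  | zero => exact mul_zero _
  | succ j =>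
    show Pj K (j + 1) * (Sj K j * Pj K j) = Sj K j * Pj K j
    rw [← mul_assoc, P1S, mul_assoc, PP]

theorem lf_l1 : lf K * l1 K = lf K := by
  funext j
  cases j with
  | zero => exact zero_mul _
  | succ j =>
    show Sj K j * Pj K j * Pj K (j + 1) = Sj K j * Pj K j
    rw [mul_assoc, PP1]

theorem at_level {s s' : ℕ → Module.End K (Vs K)} (h : s * s' = s) (j : ℕ) : s j * s' j = s j :=
  congrFun h j

theorem at_level' {s s' : ℕ → Module.End K (Vs K)} (h : s * s' = s') (j : ℕ) :
    s j * s' j = s' j := congrFun h j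

theorem l1_ly : l1 K * ly K = ly K := by
  funext j
  induction j with
  | zero => exact mul_zero _
  | succ j ih =>
    show Pj K (j + 1) * (le' K j + lf K j * Bj K j + Sj K j * ly K j) =
      le' K j + lf K j * Bj K j + Sj K j * ly K j
    have h1 : Pj K j * le' K j = le' K j := at_level' l1_le j
    have h2 : Pj K j * lf K j = lf K j := at_level' l1_lf j
    have h3 : Pj K j * ly K j = ly K j := ih
    have e1 : Pj K (j + 1) * le' K j = le' K j := by
      rw [← h1, ← mul_assoc, P1P]
    have e2 : Pj K (j + 1) * (lf K j * Bj K j) = lf K j * Bj K j := by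
      rw [← h2, ← mul_assoc, ← mul_assoc, P1P]
    have e3 : Pj K (j + 1) * (Sj K j * ly K j) = Sj K j * ly K j := by
      rw [← mul_assoc, P1S, mul_assoc, h3]
    rw [mul_add, mul_add, e1, e2, e3]

theorem ly_l1 : ly K * l1 K = ly K := by
  funext j
  induction j with
  | zero => exact zero_mul _
  | succ j ih =>
    show (le' K j + lf K j * Bj K j + Sj K j * ly K j) * Pj K (j + 1) =
      le' K j + lf K j * Bj K j + Sj K j * ly K j
    have h1 : le' K j * Pj K j = le' K j := at_level le_l1 j
    have h2 : lf K j * Pj K j = lf K j := at_level lf_l1 j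
    have h3 : ly K j * Pj K j = ly K j := ih
    have e1 : le' K j * Pj K (j + 1) = le' K j := by
      rw [← h1, mul_assoc, PP1]
    have e2 : lf K j * Bj K j * Pj K (j + 1) = lf K j * Bj K j := by
      rw [mul_assoc, BP1, ← mul_assoc, h2]
    have e3 : Sj K j * ly K j * Pj K (j + 1) = Sj K j * ly K j := by
      rw [← h3, mul_assoc, mul_assoc, PP1]
    rw [add_mul, add_mul, e1, e2, e3]

theorem ee_zero : le' K * le' K = 0 := by
  funext j
  cases j with
  | zero => exact mul_zero _
  | succ j =>
    show Pj K j * Bj K j * (Pj K j * Bj K j) = 0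
    rw [mul_assoc, ← mul_assoc (Bj K j), BP, zero_mul, mul_zero]

theorem ff_zero : lf K * lf K = 0 := by
  funext j
  cases j with
  | zero => exact mul_zero _
  | succ j =>
    show Sj K j * Pj K j * (Sj K j * Pj K j) = 0
    rw [mul_assoc, ← mul_assoc (Pj K j), PS, zero_mul, mul_zero]

theorem ef_eq : le' K * lf K = shN K (l1 K) := by
  funext j
  cases j with
  | zero => exact mul_zero _
  | succ j =>
    show Pj K j * Bj K j * (Sj K j * Pj K j) = Pj K j
    rw [mul_assoc, ← mul_assoc (Bj K j), BS, one_mul, PP]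

theorem efe_eq : le' K * lf K * le' K = le' K := by
  rw [ef_eq]
  funext j
  cases j with
  | zero => exact mul_zero _
  | succ j =>
    show Pj K j * (Pj K j * Bj K j) = Pj K j * Bj K j
    rw [← mul_assoc, PP]

/-- the corner of `e` -/
theorem sh_e : shN K (le' K) = le' K * lf K * ly K * (le' K * lf K) := by
  rw [ef_eq]
  funext j
  cases j with
  | zero => exact (mul_zero _).symm
  | succ j =>
    show le' K j = Pj K j * (le' K j + lf K j * Bj K j + Sj K j * ly K j) * Pj K j
    have h1 : Pj K j * le' K j = le' K j := at_level' l1_le j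
    have h2 : le' K j * Pj K j = le' K j := at_level le_l1 j
    rw [mul_add, mul_add, ← mul_assoc (Pj K j) (Sj K j), PS, zero_mul, add_zero, h1, add_mul, h2,
      mul_assoc, mul_assoc, BP, mul_zero, mul_zero, add_zero]

theorem sh_f : shN K (lf K) = le' K * lf K * ly K * lf K := by
  rw [ef_eq]
  funext j
  cases j with
  | zero => exact (mul_zero _).symm
  | succ j =>
    show lf K j = Pj K j * (le' K j + lf K j * Bj K j + Sj K j * ly K j) * (Sj K j * Pj K j)
    have h1 : Pj K j * lf K j = lf K j := at_level' l1_lf j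
    have h2 : lf K j * Pj K j = lf K j := at_level lf_l1 j
    have h3 : le' K j * Pj K j = le' K j := at_level le_l1 j
    have h4 : le' K j * Sj K j = 0 := by rw [← h3, mul_assoc, PS, mul_zero]
    rw [mul_add, mul_add, ← mul_assoc (Pj K j) (Sj K j), PS, zero_mul, add_zero,
      ← mul_assoc (Pj K j) (lf K j), h1, add_mul, ← mul_assoc, mul_assoc (Pj K j), h4,
      mul_zero, zero_mul, zero_add, mul_assoc, ← mul_assoc (Bj K j), BS, one_mul, h2]

theorem sh_y : shN K (ly K) = le' K * ly K * (le' K * lf K) := by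
  rw [ef_eq]
  funext j
  cases j with
  | zero => exact (mul_zero _).symm
  | succ j =>
    show ly K j = Pj K j * Bj K j * (le' K j + lf K j * Bj K j + Sj K j * ly K j) * Pj K j
    have h1 : Pj K j * le' K j = le' K j := at_level' l1_le j
    have h2 : Pj K j * lf K j = lf K j := at_level' l1_lf j
    have h3 : Pj K j * ly K j = ly K j := at_level' l1_ly j
    have h4 : ly K j * Pj K j = ly K j := at_level ly_l1 j
    have e1 : Bj K j * le' K j = 0 := by rw [← h1, ← mul_assoc, BP, zero_mul]
    have e2 : Bj K j * (lf K j * Bj K j) = 0 := by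
      rw [← h2, ← mul_assoc, ← mul_assoc, BP, zero_mul, zero_mul]
    have e3 : Bj K j * (Sj K j * ly K j) = ly K j := by rw [← mul_assoc, BS, one_mul]
    have e0 : Bj K j * (le' K j + lf K j * Bj K j + Sj K j * ly K j) = ly K j := by
      rw [mul_add, mul_add, e1, e2, e3, zero_add, zero_add]
    rw [mul_assoc (Pj K j), e0, h3, h4]

/-! ### levels indexed by the integers -/

variable (K)

/-- functions from levels to operators -/
abbrev Rg : Type := ℤ → Module.End K (Vs K)

variable {K}

/-- extend by zero to negative levels -/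
def lv (s : ℕ → Module.End K (Vs K)) : Rg K := fun z =>
  match z with
  | Int.ofNat n => s n
  | Int.negSucc _ => 0

theorem lv_nat (s : ℕ → Module.End K (Vs K)) (n : ℕ) : lv s (n : ℤ) = s n := rfl

theorem lv_neg (s : ℕ → Module.End K (Vs K)) (n : ℕ) : lv s (Int.negSucc n) = 0 := rfl

theorem lv_mul (s s' : ℕ → Module.End K (Vs K)) : lv s * lv s' = lv (s * s') := by
  funext z
  cases z with
  | ofNat n => rfl
  | negSucc n => exact mul_zero _

theorem lv_zero : lv (0 : ℕ → Module.End K (Vs K)) = 0 := by
  funext z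
  cases z with
  | ofNat n => rfl
  | negSucc n => rfl

/-- shift of levels -/
def shZ (s : Rg K) : Rg K := fun z => s (z - 1)

theorem shZ_mul (s s' : Rg K) : shZ (s * s') = shZ s * shZ s' := rfl

theorem shZ_smul (c : K) (s : Rg K) : shZ (c • s) = c • shZ s := rfl

theorem shZ_lv (s : ℕ → Module.End K (Vs K)) : shZ (lv s) = lv (shN K s) := by
  funext z
  cases z with
  | ofNat n =>
    cases n with
    | zero => rfl
    | succ n =>
      show lv s (((n + 1 : ℕ) : ℤ) - 1) = s n
      have : (((n + 1 : ℕ) : ℤ) - 1) = (n : ℤ) := by push_cast; ring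
      rw [this, lv_nat]
  | negSucc n =>
    show lv s (Int.negSucc n - 1) = 0
    have : (Int.negSucc n - 1) = Int.negSucc (n + 1) := by
      rw [Int.negSucc_eq, Int.negSucc_eq]; push_cast; ring
    rw [this, lv_neg]

variable (K)

/-- the unit -/
def r1 : Rg K := lv (l1 K)
/-- generator -/
def re : Rg K := lv (le' K)
/-- generator -/
def rf : Rg K := lv (lf K)
/-- generator -/
def ry : Rg K := lv (ly K)

variable {K}

theorem r1_r1 : r1 K * r1 K = r1 K := by simp only [r1, lv_mul, l1_l1]
theorem r1_re : r1 K * re K = re K := by simp only [r1, re, lv_mul, l1_le]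
theorem re_r1 : re K * r1 K = re K := by simp only [r1, re, lv_mul, le_l1]
theorem r1_rf : r1 K * rf K = rf K := by simp only [r1, rf, lv_mul, l1_lf]
theorem rf_r1 : rf K * r1 K = rf K := by simp only [r1, rf, lv_mul, lf_l1]
theorem r1_ry : r1 K * ry K = ry K := by simp only [r1, ry, lv_mul, l1_ly]
theorem ry_r1 : ry K * r1 K = ry K := by simp only [r1, ry, lv_mul, ly_l1]
theorem re_re : re K * re K = 0 := by simp only [re, lv_mul, ee_zero, lv_zero]
theorem rf_rf : rf K * rf K = 0 := by simp only [rf, lv_mul, ff_zero, lv_zero]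
theorem re_rf_re : re K * rf K * re K = re K := by simp only [re, rf, lv_mul, efe_eq]
theorem sh_r1 : shZ (r1 K) = re K * rf K := by simp only [re, rf, r1, lv_mul, shZ_lv, ef_eq]
theorem sh_re : shZ (re K) = re K * rf K * ry K * (re K * rf K) := by
  simp only [re, rf, ry, lv_mul, shZ_lv, ← sh_e]
theorem sh_rf : shZ (rf K) = re K * rf K * ry K * rf K := by
  simp only [re, rf, ry, lv_mul, shZ_lv, ← sh_f]
theorem sh_ry : shZ (ry K) = re K * ry K * (re K * rf K) := by
  simp only [re, rf, ry, lv_mul, shZ_lv, ← sh_y]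

end Q90.MS
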