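import Pool.Agent.Q90.MsStab

set_option autoImplicit false
set_option linter.unusedSectionVars false
set_option linter.unusedVariables false

/-!
Almost invariant finite sets and approximation by permutations.
-/

open Filter Topology

noncomputable section

namespace Q90.MS

/-! ### finite windows in general -/

section window

variable {X α : Type} [Fintype α]

open Classical in
theorem exists_perm (ι : α → X) (hι : Function.Injective ι) (σ : Equiv.Perm X) :
    ∃ τ : Equiv.Perm α, ∀ z, σ (ι z) ∈ Set.range ι → ι (τ z) = σ (ι z) := by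
  let f : α → α := fun z => if h : σ (ι z) ∈ Set.range ι then h.choose else z
  have hf : ∀ z, σ (ι z) ∈ Set.range ι → ι (f z) = σ (ι z) := by
    intro z hz
    show ι (if h : σ (ι z) ∈ Set.range ι then h.choose else z) = _
    rw [dif_pos hz]
    exact hz.choose_spec
  obtain ⟨g, hg⟩ := Set.MapsTo.exists_equiv_extend_of_card_eq (α := α) (β := α)
    (t := Finset.univ) (by simp) (s := {z | σ (ι z) ∈ Set.range ι}) (f := f)
    (fun z _ => by simp)
    (by
      intro z hz w hw h
      have h1 : σ (ι z) = σ (ι w) := by rw [← hf z hz, ← hf w hw, h]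
      exact hι (σ.injective h1))
  refine ⟨g.trans (Equiv.subtypeUnivEquiv (fun x => Finset.mem_univ x)), fun z hz => ?_⟩
  show ι (g z : α) = _
  rw [hg z hz]
  exact hf z hz

/-- an extension of the partial permutation of the window -/
def win (ι : α → X) (hι : Function.Injective ι) (σ : Equiv.Perm X) : Equiv.Perm α :=
  (exists_perm ι hι σ).choose

theorem win_spec (ι : α → X) (hι : Function.Injective ι) (σ : Equiv.Perm X) (z : α)
    (hz : σ (ι z) ∈ Set.range ι) : ι (win ι hι σ z) = σ (ι z) :=
  (exists_perm ι hι σ).choose_spec z hz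

open Classical in
/-- the points leaving the window -/
def bad (ι : α → X) (σ : Equiv.Perm X) : Finset α :=
  Finset.univ.filter fun z => σ (ι z) ∉ Set.range ι

theorem mem_bad (ι : α → X) (σ : Equiv.Perm X) (z : α) :
    z ∈ bad ι σ ↔ σ (ι z) ∉ Set.range ι := by simp [bad]

theorem bad_mul (ι : α → X) (hι : Function.Injective ι) (σ τ : Equiv.Perm X) :
    (bad ι (σ * τ)).card ≤ (bad ι σ).card + (bad ι τ).card := by
  classical
  have h1 : bad ι (σ * τ) ⊆ (bad ι σ).image (win ι hι τ).symm ∪ bad ι τ := by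
    intro z hz
    rw [mem_bad] at hz
    rw [Finset.mem_union, Finset.mem_image]
    by_cases h : τ (ι z) ∈ Set.range ι
    · left
      refine ⟨win ι hι τ z, ?_, by simp⟩
      rw [mem_bad, win_spec ι hι τ z h]
      exact hz
    · right
      rw [mem_bad]; exact h
  refine (Finset.card_le_card h1).trans ((Finset.card_union_le _ _).trans ?_)
  exact add_le_add Finset.card_image_le le_rfl

theorem bad_inv (ι : α → X) (hι : Function.Injective ι) (σ : Equiv.Perm X) :
    (bad ι σ⁻¹).card ≤ (bad ι σ).card := by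
  classical
  have h1 : (bad ι σ)ᶜ.card ≤ (bad ι σ⁻¹)ᶜ.card := by
    refine Finset.card_le_card_of_injOn (win ι hι σ) ?_ (win ι hι σ).injective.injOn
    intro z hz
    have hz' : σ (ι z) ∈ Set.range ι := by
      have : z ∉ bad ι σ := by simpa using hz
      rw [mem_bad, not_not] at this
      exact this
    have : win ι hι σ z ∉ bad ι σ⁻¹ := by
      rw [mem_bad, not_not, win_spec ι hι σ z hz']
      have : σ⁻¹ (σ (ι z)) = ι z := σ.symm_apply_apply _
      rw [this]
      exact ⟨z, rfl⟩
    simpa using this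
  rw [Finset.card_compl, Finset.card_compl] at h1
  have h2 := Finset.card_le_univ (bad ι σ)
  have h3 := Finset.card_le_univ (bad ι σ⁻¹)
  omega

theorem win_mul (ι : α → X) (hι : Function.Injective ι) (σ τ : Equiv.Perm X) (z : α)
    (h1 : z ∉ bad ι τ) (h2 : z ∉ bad ι (σ * τ)) :
    win ι hι (σ * τ) z = (win ι hι σ * win ι hι τ) z := by
  rw [mem_bad, not_not] at h1 h2
  apply hι
  have e1 := win_spec ι hι τ z h1
  have e2 := win_spec ι hι (σ * τ) z h2
  have e3 := win_spec ι hι σ (win ι hι τ z) (by rw [e1]; exact h2)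
  show _ = ι (win ι hι σ (win ι hι τ z))
  rw [e2, e3, e1]
  rfl

end window

/-! ### permutation matrices -/

section pm

variable {r : ℕ}

/-- permutation matrix -/
def PM (π : Equiv.Perm (Fin r)) : Matrix (Fin r) (Fin r) ℂ :=
  Matrix.of fun i j => if i = π j then 1 else 0

theorem PM_apply (π : Equiv.Perm (Fin r)) (i j : Fin r) : PM π i j = if i = π j then 1 else 0 := rfl

theorem PM_mul (π τ : Equiv.Perm (Fin r)) : PM (π * τ) = PM π * PM τ := by
  ext i j
  rw [Matrix.mul_apply, PM_apply]
  rw [Finset.sum_eq_single (τ j)]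
  · rw [PM_apply, PM_apply, if_pos rfl, mul_one]; rfl
  · intro l _ hl
    rw [PM_apply τ, if_neg hl, mul_zero]
  · intro h; exact absurd (Finset.mem_univ _) h

theorem PM_one : PM (1 : Equiv.Perm (Fin r)) = 1 := by
  ext i j
  rw [PM_apply, Matrix.one_apply]
  rfl

theorem PM_ct (π : Equiv.Perm (Fin r)) : (PM π).conjTranspose = PM π⁻¹ := by
  ext i j
  rw [Matrix.conjTranspose_apply, PM_apply, PM_apply]
  have : (j = π i) ↔ (i = π⁻¹ j) := by
    constructor
    · rintro rfl; exact (π.symm_apply_apply i).symm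
    · rintro rfl; exact (π.apply_symm_apply j).symm
  by_cases h : j = π i
  · rw [if_pos h, if_pos (this.mp h), star_one]
  · rw [if_neg h, if_neg (fun h' => h (this.mpr h')), star_zero]

/-- permutation matrices are unitary -/
def PU (π : Equiv.Perm (Fin r)) : Matrix.unitaryGroup (Fin r) ℂ :=
  ⟨PM π, by
    rw [Matrix.mem_unitaryGroup_iff]
    show PM π * (PM π).conjTranspose = 1
    rw [PM_ct, ← PM_mul, mul_inv_cancel, PM_one]⟩

theorem PU_val (π : Equiv.Perm (Fin r)) : (PU π).val = PM π := rfl

theorem PU_mul_val (π τ : Equiv.Perm (Fin r)) : (PU π).val * (PU τ).val = PM (π * τ) :=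
  (PM_mul π τ).symm

theorem trace_PM (π τ : Equiv.Perm (Fin r)) :
    (Matrix.trace (Matrix.conjTranspose (PM π - PM τ) * (PM π - PM τ))).re =
      2 * ((Finset.univ.filter fun j => π j ≠ τ j).card : ℝ) := by
  rw [Matrix.trace, Complex.re_sum]
  have h : ∀ j, (Matrix.diag (Matrix.conjTranspose (PM π - PM τ) * (PM π - PM τ)) j).re =
      if π j ≠ τ j then 2 else 0 := by
    intro j
    rw [Matrix.diag_apply, Matrix.conjTranspose_sub, PM_ct, PM_ct, Matrix.sub_mul, Matrix.mul_sub,
      Matrix.mul_sub, ← PM_mul, ← PM_mul, ← PM_mul, ← PM_mul, inv_mul_cancel, inv_mul_cancel,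
      PM_one]
    simp only [Matrix.sub_apply, Matrix.one_apply_eq, PM_apply]
    have h1 : (j = (π⁻¹ * τ) j) ↔ π j = τ j := by
      constructor
      · intro h
        conv_lhs => rw [h]
        exact π.apply_symm_apply _
      · intro h
        show j = π.symm (τ j)
        rw [← h, Equiv.symm_apply_apply]
    have h2 : (j = (τ⁻¹ * π) j) ↔ π j = τ j := by
      constructor
      · intro h
        conv_rhs => rw [h]
        exact (τ.apply_symm_apply _).symm
      · intro h
        show j = τ.symm (π j)
        rw [h, Equiv.symm_apply_apply]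
    by_cases h0 : π j = τ j
    · rw [if_pos (h1.mpr h0), if_pos (h2.mpr h0), if_neg (by simpa using h0)]
      simp
    · rw [if_neg (fun h => h0 (h1.mp h)), if_neg (fun h => h0 (h2.mp h)), if_pos h0]
      norm_num
  rw [Finset.sum_congr rfl (fun j _ => h j), Finset.sum_ite, Finset.sum_const_zero, add_zero,
    Finset.sum_const, nsmul_eq_mul]
  ring

end pm

/-! ### the windows for the group -/

variable {K : Type} [Field K] [Fintype K]

variable (K) in
/-- the finite windows -/
abbrev Zn (N : ℕ) : Type := Fin N × (Fin 3 → Fin (2 ^ N) → K)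

/-- the inclusion of the window -/
def incl (N : ℕ) (z : Zn K N) : Pt K :=
  ((z.1 : ℕ), fun a n => if h : n < 2 ^ N then z.2 a ⟨n, h⟩ else 0)

theorem incl_inj (N : ℕ) : Function.Injective (incl (K := K) N) := by
  rintro ⟨j, y⟩ ⟨j', y'⟩ h
  have h1 : ((j : ℕ) : ℤ) = ((j' : ℕ) : ℤ) := congrArg Prod.fst h
  have h2 : (fun (a : Fin 3) (n : ℕ) => if h : n < 2 ^ N then y a ⟨n, h⟩ else 0) =
      (fun (a : Fin 3) (n : ℕ) => if h : n < 2 ^ N then y' a ⟨n, h⟩ else 0) :=
    congrArg Prod.snd h
  have h3 : j = j' := Fin.ext (by exact_mod_cast h1)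
  subst h3
  congr 1
  funext a n
  have := congrFun (congrFun h2 a) (n : ℕ)
  simpa using this

/-- the window as a set -/
theorem mem_range (N : ℕ) (p : Pt K) :
    p ∈ Set.range (incl (K := K) N) ↔ (0 ≤ p.1 ∧ p.1 < N ∧ ∀ a n, 2 ^ N ≤ n → p.2 a n = 0) := by
  constructor
  · rintro ⟨z, rfl⟩
    refine ⟨Int.natCast_nonneg _, ?_, fun a n hn => ?_⟩
    · show ((z.1 : ℕ) : ℤ) < (N : ℤ)
      exact_mod_cast z.1.2
    show (if h : n < 2 ^ N then z.2 a ⟨n, h⟩ else 0) = 0
    rw [dif_neg (by omega)]
  · rintro ⟨h0, h1, h2⟩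
    obtain ⟨j, hj⟩ := Int.eq_ofNat_of_zero_le h0
    have hjN : j < N := by rw [hj] at h1; exact_mod_cast h1
    refine ⟨(⟨j, hjN⟩, fun a n => p.2 a n), ?_⟩
    ext1
    · exact hj.symm
    · funext a n
      show (if h : n < 2 ^ N then p.2 a n else 0) = p.2 a n
      split_ifs with h
      · rfl
      · exact (h2 a n (by omega)).symm

theorem TT_window (N : ℕ) (a b : Fin 3) (h : a ≠ b) (s : Rg K) (hs : r1 K * s = s) (c : K) :
    bad (incl (K := K) N) (TT a b h (c • s)) = ∅ := by
  rw [Finset.eq_empty_iff_forall_notMem]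
  intro z hz
  rw [mem_bad] at hz
  apply hz
  have hz2 := (mem_range N (incl N z)).mp ⟨z, rfl⟩
  rw [mem_range]
  refine ⟨hz2.1, hz2.2.1, fun a' n hn => ?_⟩
  show ad a ((c • s) ((z.1 : ℕ) : ℤ) ((incl N z).2 b)) (incl N z).2 a' n = 0
  have h3 : ∀ v : Vs K, (c • s) ((z.1 : ℕ) : ℤ) v n = 0 := by
    intro v
    show c • (s ((z.1 : ℕ) : ℤ) v n) = 0
    have h4 : s ((z.1 : ℕ) : ℤ) v n = 0 := by
      have h5 := congrFun hs ((z.1 : ℕ) : ℤ)
      have h6 : Pj K (z.1 : ℕ) (s ((z.1 : ℕ) : ℤ) v) n = s ((z.1 : ℕ) : ℤ) v n :=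
        congrFun (congrArg (fun T : Module.End K (Vs K) => T v) h5) n
      rw [← h6, Pj_apply, if_neg]
      have h7 : 2 ^ (z.1 : ℕ) ≤ 2 ^ N := Nat.pow_le_pow_right (by norm_num) z.1.2.le
      omega
    rw [h4, smul_zero]
  have h8 : (incl N z).2 a' n = 0 := hz2.2.2 a' n hn
  by_cases ha : a' = a
  · subst ha
    rw [ad_same]
    show (incl N z).2 a' n + _ = 0
    rw [h8, h3, zero_add]
  · rw [ad_ne ha]; exact h8

theorem ln_window (N : ℕ) (i : Fin 6) (c : K) : (bad (incl (K := K) N) (ln i c)).card = 0 := by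
  rw [Finset.card_eq_zero]
  match i with
  | 0 => exact TT_window N 0 1 n01 (r1 K) r1_r1 c
  | 1 => exact TT_window N 0 1 n01 (re K) r1_re c
  | 2 => exact TT_window N 0 1 n01 (rf K) r1_rf c
  | 3 => exact TT_window N 0 1 n01 (ry K) r1_ry c
  | 4 => exact TT_window N 1 2 n12 (r1 K) r1_r1 c
  | 5 => exact TT_window N 2 0 n20 (r1 K) r1_r1 c

theorem tt_window (N : ℕ) :
    (bad (incl (K := K) N) tt).card * N ≤ Fintype.card (Zn K N) := by
  classical
  cases N with
  | zero => simp
  | succ N =>
    have h1 : bad (incl (K := K) (N + 1)) tt ⊆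
        (Finset.univ : Finset (Fin 3 → Fin (2 ^ (N + 1)) → K)).image (fun y => ((0 : Fin (N + 1)), y)) := by
      intro z hz
      rw [mem_bad] at hz
      rw [Finset.mem_image]
      refine ⟨z.2, Finset.mem_univ _, ?_⟩
      ext1
      · by_contra h0
        apply hz
        have hz2 := (mem_range (N + 1) (incl (N + 1) z)).mp ⟨z, rfl⟩
        rw [mem_range]
        have h4 : z.1 ≠ 0 := fun h => h0 h.symm
        have h5 : 0 < (z.1 : ℕ) := Nat.pos_of_ne_zero (fun h => h4 (Fin.ext h))
        refine ⟨?_, ?_, hz2.2.2⟩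
        · show (0 : ℤ) ≤ ((z.1 : ℕ) : ℤ) - 1
          omega
        · show ((z.1 : ℕ) : ℤ) - 1 < ((N + 1 : ℕ) : ℤ)
          have := z.1.2
          omega
      · rfl
    have h2 := (Finset.card_le_card h1).trans Finset.card_image_le
    rw [Finset.card_univ] at h2
    calc (bad (incl (K := K) (N + 1)) tt).card * (N + 1)
        ≤ Fintype.card (Fin 3 → Fin (2 ^ (N + 1)) → K) * (N + 1) := Nat.mul_le_mul_right _ h2
      _ = Fintype.card (Zn K (N + 1)) := by
        rw [Fintype.card_prod, Fintype.card_fin, mul_comm]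

/-- the proportion of points leaving the window tends to zero -/
theorem bad_tendsto (g : Equiv.Perm (Pt K)) (hg : g ∈ G0 K) :
    Tendsto (fun N => ((bad (incl (K := K) N) g).card : ℝ) / (Fintype.card (Zn K N) : ℝ)) atTop
      (𝓝 0) := by
  unfold G0 at hg
  induction hg using Subgroup.closure_induction with
  | mem g hg =>
    rcases hg with ⟨i, c, rfl⟩ | hg
    · refine tendsto_const_nhds.congr fun N => ?_
      rw [ln_window]; simp
    · rw [Set.mem_singleton_iff] at hg
      subst hg
      refine squeeze_zero' (Filter.Eventually.of_forall fun N => by positivity) ?_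
        tendsto_inv_atTop_nhds_zero_nat
      filter_upwards [eventually_gt_atTop 0] with N hN
      have h1 := tt_window (K := K) N
      have hN' : (0 : ℝ) < N := by exact_mod_cast hN
      have hpos : 0 < Fintype.card (Zn K N) := by
        have : Nonempty (Zn K N) := ⟨(⟨0, hN⟩, 0)⟩
        exact Fintype.card_pos
      have hpos' : (0 : ℝ) < Fintype.card (Zn K N) := by exact_mod_cast hpos
      rw [div_le_iff₀ hpos', ← div_eq_inv_mul, le_div_iff₀ hN']
      exact_mod_cast h1
  | one =>
    refine tendsto_const_nhds.congr fun N => ?_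
    have : bad (incl (K := K) N) 1 = ∅ := by
      rw [Finset.eq_empty_iff_forall_notMem]
      intro z hz
      rw [mem_bad] at hz
      exact hz ⟨z, rfl⟩
    rw [this]; simp
  | mul a b _ _ iha ihb =>
    have h := iha.add ihb
    rw [add_zero] at h
    refine squeeze_zero (fun N => by positivity) (fun N => ?_) h
    rw [← add_div]
    apply div_le_div_of_nonneg_right _ (by positivity)
    exact_mod_cast bad_mul (incl N) (incl_inj N) a b
  | inv a _ iha =>
    refine squeeze_zero (fun N => by positivity) (fun N => ?_) iha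
    apply div_le_div_of_nonneg_right _ (by positivity)
    exact_mod_cast bad_inv (incl N) (incl_inj N) a

/-- the approximating permutations of `Fin` -/
def apx (N : ℕ) (g : GT K) : Equiv.Perm (Fin (Fintype.card (Zn K N))) :=
  (Fintype.equivFin (Zn K N)).permCongr (win (incl N) (incl_inj N) g.1)

theorem apx_apply (N : ℕ) (g : GT K) (j : Fin (Fintype.card (Zn K N))) :
    apx N g j = Fintype.equivFin (Zn K N)
      (win (incl N) (incl_inj N) g.1 ((Fintype.equivFin (Zn K N)).symm j)) := rfl

theorem apx_mul (N : ℕ) (g h : GT K) (j : Fin (Fintype.card (Zn K N))) :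
    (apx N g * apx N h) j = Fintype.equivFin (Zn K N)
      ((win (incl N) (incl_inj N) g.1 * win (incl N) (incl_inj N) h.1)
        ((Fintype.equivFin (Zn K N)).symm j)) := by
  show apx N g (apx N h j) = _
  rw [apx_apply, apx_apply, Equiv.symm_apply_apply]
  rfl

theorem apx_diff (N : ℕ) (g h : GT K) :
    (Finset.univ.filter fun j => apx N (g * h) j ≠ (apx N g * apx N h) j).card ≤
      (bad (incl (K := K) N) h.1).card + (bad (incl (K := K) N) (g * h).1).card := by
  classical
  have h1 : (Finset.univ.filter fun j => apx N (g * h) j ≠ (apx N g * apx N h) j) ⊆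
      (bad (incl (K := K) N) h.1 ∪ bad (incl (K := K) N) (g * h).1).image
        (Fintype.equivFin (Zn K N)) := by
    intro j hj
    rw [Finset.mem_filter] at hj
    rw [Finset.mem_image]
    refine ⟨(Fintype.equivFin (Zn K N)).symm j, ?_, Equiv.apply_symm_apply _ _⟩
    by_contra hc
    rw [Finset.mem_union, not_or] at hc
    apply hj.2
    rw [apx_apply, apx_mul]
    congr 1
    exact win_mul (incl N) (incl_inj N) g.1 h.1 _ hc.1 hc.2
  refine (Finset.card_le_card h1).trans (Finset.card_image_le.trans ?_)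
  exact Finset.card_union_le _ _

/-- asymptotically multiplicative for the normalized Hilbert-Schmidt norm -/
theorem apx_asym (g h : GT K) :
    Tendsto (fun N : ℕ => (Matrix.trace (Matrix.conjTranspose
      ((PU (apx N (g * h))).val - (PU (apx N g)).val * (PU (apx N h)).val) *
      ((PU (apx N (g * h))).val - (PU (apx N g)).val * (PU (apx N h)).val))).re /
        (Fintype.card (Zn K N) : ℝ)) atTop (𝓝 0) := by
  have h1 := ((bad_tendsto h.1 h.2).add (bad_tendsto (g * h).1 (g * h).2)).const_mul 2
  rw [add_zero, mul_zero] at h1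
  refine squeeze_zero (fun N => ?_) (fun N => ?_) h1
  · rw [PU_mul_val, PU_val, trace_PM]; positivity
  · rw [PU_mul_val, PU_val, trace_PM, ← add_div, ← mul_div_assoc]
    apply div_le_div_of_nonneg_right _ (by positivity)
    have := apx_diff N g h
    have h2 : ((Finset.univ.filter fun j => apx N (g * h) j ≠ (apx N g * apx N h) j).card : ℝ) ≤
        ((bad (incl (K := K) N) h.1).card : ℝ) + ((bad (incl (K := K) N) (g * h).1).card : ℝ) := by
      exact_mod_cast this
    linarith

/-- the element moves many points -/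
theorem moved (N : ℕ) : Fintype.card (Zn K N) ≤
    2 * (Finset.univ.filter fun j => apx (K := K) N (uG 0 1) j ≠
      (1 : Equiv.Perm (Fin (Fintype.card (Zn K N)))) j).card := by
  classical
  set e := Fintype.equivFin (Zn K N) with he
  let w := win (incl (K := K) N) (incl_inj N) (uG (K := K) 0 1).1
  -- window version
  have hn0 : 0 < 2 ^ N := by positivity
  let th : Zn K N → Zn K N := fun z => (z.1, fun a n => if a = 1 ∧ n = ⟨0, hn0⟩ then z.2 a n + 1 else z.2 a n)
  have hth : Function.Injective th := by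
    rintro ⟨j, y⟩ ⟨j', y'⟩ h
    have h1 : j = j' := congrArg Prod.fst h
    subst h1
    congr 1
    funext a n
    have := congrFun (congrFun (congrArg Prod.snd h) a) n
    simp only [th] at this
    split_ifs at this with h2
    · exact add_right_cancel this
    · exact this
  have hfix : ∀ z : Zn K N, w z = z → z.2 1 ⟨0, hn0⟩ = 0 := by
    intro z hz
    have hb : z ∉ bad (incl (K := K) N) (uG (K := K) 0 1).1 := by
      have := ln_window (K := K) N 0 1
      rw [Finset.card_eq_zero] at this
      show z ∉ bad (incl (K := K) N) (ln 0 1)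
      rw [this]; simp
    rw [mem_bad, not_not] at hb
    have h1 := win_spec (incl (K := K) N) (incl_inj N) (uG (K := K) 0 1).1 z hb
    have hz' : win (incl (K := K) N) (incl_inj N) (uG (K := K) 0 1).1 z = z := hz
    rw [hz'] at h1
    have h2 : (incl N z).2 = ad 0 (((1 : K) • r1 K) (incl N z).1 ((incl N z).2 1)) (incl N z).2 :=
      congrArg Prod.snd h1
    have h3 := congrFun (congrFun h2 0) 0
    rw [ad_same, one_smul] at h3
    have h4 : (r1 K (incl N z).1 ((incl N z).2 1)) 0 = 0 := by
      have h5 : (incl N z).2 0 0 = (incl N z).2 0 0 + (r1 K (incl N z).1 ((incl N z).2 1)) 0 := h3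
      have := congrArg (fun t => t - (incl N z).2 0 0) h5
      simpa using this.symm
    have h6 : (r1 K (incl N z).1 ((incl N z).2 1)) 0 = Pj K (z.1 : ℕ) ((incl N z).2 1) 0 := rfl
    rw [h6, Pj_apply, if_pos (by positivity)] at h4
    have h7 : (incl N z).2 1 0 = z.2 1 ⟨0, hn0⟩ := by
      show (if h : 0 < 2 ^ N then z.2 1 ⟨0, h⟩ else 0) = _
      rw [dif_pos hn0]
    rw [← h7]; exact h4
  have hcard : (Finset.univ.filter fun z => w z = z).card ≤
      (Finset.univ.filter fun z => w z ≠ z).card := by
    refine Finset.card_le_card_of_injOn th ?_ hth.injOn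
    intro z hz
    have hz' : w z = z := by simpa using hz
    have h1 := hfix z hz'
    have h2 : w (th z) ≠ th z := by
      intro h
      have h3 := hfix _ h
      have h4 : (th z).2 1 ⟨0, hn0⟩ = z.2 1 ⟨0, hn0⟩ + 1 := by
        show (if (1 : Fin 3) = 1 ∧ (⟨0, hn0⟩ : Fin (2 ^ N)) = ⟨0, hn0⟩ then z.2 1 ⟨0, hn0⟩ + 1
          else z.2 1 ⟨0, hn0⟩) = _
        rw [if_pos ⟨rfl, rfl⟩]
      rw [h4, h1, zero_add] at h3
      exact one_ne_zero h3
    simpa using h2
  have htot : (Finset.univ.filter fun z => w z = z).card +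
      (Finset.univ.filter fun z => w z ≠ z).card = Fintype.card (Zn K N) := by
    rw [Finset.card_filter_add_card_filter_not, Finset.card_univ]
  have hmv : (Finset.univ.filter fun z => w z ≠ z).card ≤
      (Finset.univ.filter fun j => apx (K := K) N (uG 0 1) j ≠
      (1 : Equiv.Perm (Fin (Fintype.card (Zn K N)))) j).card := by
    refine Finset.card_le_card_of_injOn e ?_ e.injective.injOn
    intro z hz
    have hz' : w z ≠ z := by simpa using hz
    have : apx (K := K) N (uG 0 1) (e z) ≠ e z := by
      rw [apx_apply, ← he, Equiv.symm_apply_apply]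
      intro h
      exact hz' (e.injective h)
    exact Finset.mem_coe.mpr (Finset.mem_filter.mpr ⟨Finset.mem_univ _, this⟩)
  omega

end Q90.MS
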