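import Pool.Agent.Q90.MsGap

set_option autoImplicit false
set_option linter.unusedSectionVars false
set_option linter.unusedVariables false

/-!
Matricial stability of the group.
-/

open Filter Topology
open scoped InnerProductSpace

noncomputable section

namespace Q90.MS

section norm

variable {r : ℕ}

theorem nCL_mul (A B : Matrix (Fin r) (Fin r) ℂ) : ‖CL (A * B)‖ ≤ ‖CL A‖ * ‖CL B‖ := by
  rw [CL_mul]; exact norm_mul_le _ _

theorem nCL_mul_right (A : Matrix (Fin r) (Fin r) ℂ) (W : Matrix.unitaryGroup (Fin r) ℂ) :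
    ‖CL (A * W.val)‖ ≤ ‖CL A‖ := by
  refine (nCL_mul _ _).trans ?_
  exact (mul_le_mul_of_nonneg_left (norm_CL_le W) (norm_nonneg _)).trans (by rw [mul_one])

theorem nCL_mul_left (A : Matrix (Fin r) (Fin r) ℂ) (W : Matrix.unitaryGroup (Fin r) ℂ) :
    ‖CL (W.val * A)‖ ≤ ‖CL A‖ := by
  refine (nCL_mul _ _).trans ?_
  exact (mul_le_mul_of_nonneg_right (norm_CL_le W) (norm_nonneg _)).trans (by rw [one_mul])

theorem CL_add (A B : Matrix (Fin r) (Fin r) ℂ) : CL (A + B) = CL A + CL B :=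
  map_add (Matrix.toEuclideanCLM (𝕜 := ℂ)) A B

theorem nCL_add (A B : Matrix (Fin r) (Fin r) ℂ) : ‖CL (A + B)‖ ≤ ‖CL A‖ + ‖CL B‖ := by
  rw [CL_add]; exact norm_add_le _ _

theorem nCL_sub_comm (A B : Matrix (Fin r) (Fin r) ℂ) : ‖CL (A - B)‖ = ‖CL (B - A)‖ := by
  rw [CL_sub, CL_sub, norm_sub_rev]

end norm

variable {G : Type} [Group G] {k : ℕ → ℕ} {φ : ∀ n, G → Matrix.unitaryGroup (Fin (k n)) ℂ}

theorem AH.one (hφ : AH atTop φ) :
    Tendsto (fun n => ‖CL ((φ n 1).val - 1)‖) atTop (𝓝 0) := by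
  have h := hφ 1 1
  rw [mul_one] at h
  refine squeeze_zero (fun n => norm_nonneg _) (fun n => ?_) h
  have e : (φ n 1).val - 1 = -(((φ n 1)⁻¹).val * ((φ n 1).val - (φ n 1).val * (φ n 1).val)) := by
    have h1 : ((φ n 1)⁻¹).val * (φ n 1).val = 1 := by
      have := congrArg Subtype.val (inv_mul_cancel (φ n 1))
      exact this
    rw [Matrix.mul_sub, ← Matrix.mul_assoc, h1, Matrix.one_mul]
    abel
  have e2 : ‖CL ((φ n 1).val - 1)‖ =
      ‖CL (((φ n 1)⁻¹).val * ((φ n 1).val - (φ n 1).val * (φ n 1).val))‖ := by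
    conv_lhs => rw [e]
    rw [← zero_sub, nCL_sub_comm, sub_zero]
  rw [e2]
  exact nCL_mul_left _ _

/-- the set of elements on which `φ` is close to a sequence of homomorphisms is a subgroup -/
theorem close_mul (hφ : AH atTop φ) (ρ : ∀ n, G →* Matrix.unitaryGroup (Fin (k n)) ℂ) {g h : G}
    (hg : Tendsto (fun n => ‖CL ((φ n g).val - (ρ n g).val)‖) atTop (𝓝 0))
    (hh : Tendsto (fun n => ‖CL ((φ n h).val - (ρ n h).val)‖) atTop (𝓝 0)) :
    Tendsto (fun n => ‖CL ((φ n (g * h)).val - (ρ n (g * h)).val)‖) atTop (𝓝 0) := by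
  have hs := ((hφ g h).add hg).add hh
  simp only [add_zero] at hs
  refine squeeze_zero (fun n => norm_nonneg _) (fun n => ?_) hs
  have e : (φ n (g * h)).val - (ρ n (g * h)).val =
      ((φ n (g * h)).val - (φ n g).val * (φ n h).val) +
      ((φ n g).val - (ρ n g).val) * (φ n h).val + (ρ n g).val * ((φ n h).val - (ρ n h).val) := by
    rw [map_mul]
    show _ - (ρ n g).val * (ρ n h).val = _
    rw [Matrix.sub_mul, Matrix.mul_sub]
    abel
  rw [e]
  refine (nCL_add _ _).trans ?_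
  refine (add_le_add (nCL_add _ _) le_rfl).trans ?_
  exact add_le_add (add_le_add le_rfl (nCL_mul_right _ _)) (nCL_mul_left _ _)

theorem close_inv (hφ : AH atTop φ) (ρ : ∀ n, G →* Matrix.unitaryGroup (Fin (k n)) ℂ) {g : G}
    (hg : Tendsto (fun n => ‖CL ((φ n g).val - (ρ n g).val)‖) atTop (𝓝 0)) :
    Tendsto (fun n => ‖CL ((φ n g⁻¹).val - (ρ n g⁻¹).val)‖) atTop (𝓝 0) := by
  have h1 := hφ g g⁻¹
  rw [mul_inv_cancel] at h1
  have hs := (hg.add h1).add hφ.one
  simp only [add_zero] at hs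
  refine squeeze_zero (fun n => norm_nonneg _) (fun n => ?_) hs
  have e : (φ n g⁻¹).val - (ρ n g⁻¹).val = ((ρ n g)⁻¹).val *
      ((((ρ n g).val - (φ n g).val) * (φ n g⁻¹).val +
        ((φ n g).val * (φ n g⁻¹).val - (φ n 1).val)) + ((φ n 1).val - 1)) := by
    have h2 : ((ρ n g)⁻¹).val * (ρ n g).val = 1 := by
      have := congrArg Subtype.val (inv_mul_cancel (ρ n g))
      exact this
    have h3 : ((ρ n g).val - (φ n g).val) * (φ n g⁻¹).val +
        ((φ n g).val * (φ n g⁻¹).val - (φ n 1).val) + ((φ n 1).val - 1) =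
        (ρ n g).val * (φ n g⁻¹).val - 1 := by
      rw [Matrix.sub_mul]; abel
    rw [h3, Matrix.mul_sub, ← Matrix.mul_assoc, h2, Matrix.one_mul, Matrix.mul_one, map_inv]
  rw [e]
  refine (nCL_mul_left _ _).trans ?_
  refine (nCL_add _ _).trans ?_
  refine (add_le_add (nCL_add _ _) le_rfl).trans ?_
  have h4 : ‖CL (((ρ n g).val - (φ n g).val) * (φ n g⁻¹).val)‖ ≤
      ‖CL ((φ n g).val - (ρ n g).val)‖ := by
    refine (nCL_mul_right _ _).trans ?_
    rw [nCL_sub_comm]
  have h5 : ‖CL ((φ n g).val * (φ n g⁻¹).val - (φ n 1).val)‖ =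
      ‖CL ((φ n 1).val - (φ n g).val * (φ n g⁻¹).val)‖ := nCL_sub_comm _ _
  rw [h5]
  exact add_le_add (add_le_add h4 le_rfl) le_rfl

variable {K : Type} [Field K] [Fintype K]

/-- the group is matricially stable -/
theorem mat_stable (hK : 36 ≤ Fintype.card K)
    (φ : ∀ n, GT K → Matrix.unitaryGroup (Fin (k n)) ℂ) (hφ : AH atTop φ) :
    ∃ ρ : ∀ n, GT K →* Matrix.unitaryGroup (Fin (k n)) ℂ,
      ∀ g, Tendsto (fun n => ‖CL ((φ n g).val - (ρ n g).val)‖) atTop (𝓝 0) := by
  let ρ : ∀ n, GT K →* Matrix.unitaryGroup (Fin (k n)) ℂ := fun n =>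
    (zpowersHom _ (φ n tG)).comp deg
  refine ⟨ρ, fun g => ?_⟩
  have hg : g ∈ Subgroup.closure ({g : GT K | ∃ i a, g = uG i a} ∪ {tG}) := by
    rw [gen_G]; trivial
  induction hg using Subgroup.closure_induction with
  | mem g hg =>
    rcases hg with ⟨i, a, rfl⟩ | hg
    · have h1 : ∀ n, ρ n (uG i a) = 1 := by
        intro n
        show zpowersHom _ (φ n tG) (deg (uG i a)) = 1
        rw [deg_uG, map_one]
      have h2 := kill uG (by norm_num : (0 : ℝ) < 1 / 6) uG_add (gap_G hK) tG ht_G gen_G normal_G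
        hφ i a
      refine h2.congr fun n => ?_
      rw [h1]; rfl
    · rw [Set.mem_singleton_iff] at hg
      subst hg
      have h1 : ∀ n, ρ n tG = φ n tG := by
        intro n
        show zpowersHom _ (φ n tG) (deg tG) = φ n tG
        rw [deg_tG, zpowersHom_apply]
        exact zpow_one _
      simp only [h1, sub_self, CL_zero, norm_zero]
      exact tendsto_const_nhds
  | one =>
    refine hφ.one.congr fun n => ?_
    rw [map_one]; rfl
  | mul a b _ _ iha ihb => exact close_mul hφ ρ iha ihb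
  | inv a _ iha => exact close_inv hφ ρ iha

/-- finite dimensional unitary representations kill the lines -/
theorem hom_kill (hK : 36 ≤ Fintype.card K) {r : ℕ} (ρ : GT K →* Matrix.unitaryGroup (Fin r) ℂ)
    (i : Fin 6) (a : K) : ρ (uG i a) = 1 := by
  have hφ : AH (k := fun _ => r) atTop (fun _ g => ρ g) := by
    intro g h
    have e : ∀ n : ℕ, ‖CL ((ρ (g * h)).val - (ρ g).val * (ρ h).val)‖ = 0 := by
      intro n
      rw [map_mul]
      show ‖CL ((ρ g).val * (ρ h).val - (ρ g).val * (ρ h).val)‖ = 0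
      rw [sub_self, CL_zero, norm_zero]
    exact tendsto_const_nhds.congr fun n => (e n).symm
  have h := kill uG (by norm_num : (0 : ℝ) < 1 / 6) uG_add (gap_G hK) tG ht_G gen_G normal_G
    hφ i a
  have h1 : ‖CL ((ρ (uG i a)).val - 1)‖ = 0 := tendsto_nhds_unique tendsto_const_nhds h
  have h2 : CL ((ρ (uG i a)).val - 1) = CL 0 := by
    rw [CL_zero]; exact norm_eq_zero.mp h1
  have h3 := (Matrix.toEuclideanCLM (𝕜 := ℂ)).injective h2
  exact Subtype.ext (sub_eq_zero.mp h3)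

end Q90.MS
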