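import Mathlib

set_option autoImplicit false

/-!
The ultraproduct of a sequence of inner product spaces and the operators given by bounded
sequences of operators.
-/

open Filter Topology
open scoped InnerProductSpace

noncomputable section

namespace Q90.MS

/-- bounded sequences -/
def Bd {F : ℕ → Type} [∀ n, NormedAddCommGroup (F n)] (x : ∀ n, F n) : Prop :=
  ∃ r : ℝ, ∀ n, ‖x n‖ ≤ r

theorem lim_exists (ω : Ultrafilter ℕ) {f : ℕ → ℂ} (hf : ∃ r : ℝ, ∀ i, ‖f i‖ ≤ r) :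
    ∃ a, Tendsto f ω (𝓝 a) := by
  obtain ⟨r, hr⟩ := hf
  have hc : IsCompact (Metric.closedBall (0 : ℂ) r) := isCompact_closedBall 0 r
  have h1 : ((ω.map f : Ultrafilter ℂ) : Filter ℂ) ≤
      Filter.principal (Metric.closedBall (0 : ℂ) r) := by
    rw [Filter.le_principal_iff]
    show f ⁻¹' (Metric.closedBall (0 : ℂ) r) ∈ (ω : Filter ℕ)
    filter_upwards with i
    simpa using hr i
  obtain ⟨a, -, ha⟩ := hc.ultrafilter_le_nhds _ h1
  exact ⟨a, ha⟩

/-- the limit along the ultrafilter -/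
def ul (ω : Ultrafilter ℕ) (f : ℕ → ℂ) : ℂ := limUnder (ω : Filter ℕ) f

theorem ul_tendsto (ω : Ultrafilter ℕ) {f : ℕ → ℂ} (hf : ∃ r : ℝ, ∀ i, ‖f i‖ ≤ r) :
    Tendsto f ω (𝓝 (ul ω f)) := tendsto_nhds_limUnder (lim_exists ω hf)

section pre

variable (ω : Ultrafilter ℕ) (E : ℕ → Type) [∀ n, NormedAddCommGroup (E n)]
  [∀ n, InnerProductSpace ℂ (E n)]

/-- bounded families -/
def PreS : Submodule ℂ (∀ n, E n) where
  carrier := {x | Bd x}
  add_mem' := by
    rintro x y ⟨r, hr⟩ ⟨s, hs⟩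
    exact ⟨r + s, fun i => (norm_add_le _ _).trans (add_le_add (hr i) (hs i))⟩
  zero_mem' := ⟨0, fun i => by simp⟩
  smul_mem' := by
    rintro c x ⟨r, hr⟩
    refine ⟨‖c‖ * r, fun i => ?_⟩
    show ‖c • x i‖ ≤ _
    rw [norm_smul]
    exact mul_le_mul_of_nonneg_left (hr i) (norm_nonneg c)

set_option linter.unusedVariables false in
/-- bounded families, with the seminorm given by the ultrafilter -/
def Pre (ω : Ultrafilter ℕ) (E : ℕ → Type) [∀ n, NormedAddCommGroup (E n)]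
    [∀ n, InnerProductSpace ℂ (E n)] : Type := PreS E

instance : AddCommGroup (Pre ω E) := inferInstanceAs (AddCommGroup (PreS E))
instance : Module ℂ (Pre ω E) := inferInstanceAs (Module ℂ (PreS E))

variable {ω E}

/-- the family -/
def fam (x : Pre ω E) : ∀ n, E n := Subtype.val (p := fun y => y ∈ PreS E) x

/-- the class of a bounded family -/
def mkP (ω : Ultrafilter ℕ) (x : ∀ n, E n) (h : Bd x) : Pre ω E :=
  Subtype.mk (p := fun y => y ∈ PreS E) x h

theorem fam_mk (x : ∀ n, E n) (h : Bd x) : fam (mkP ω x h : Pre ω E) = x := rfl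

theorem fam_add (x y : Pre ω E) : fam (x + y) = fun i => fam x i + fam y i := rfl

theorem fam_sub (x y : Pre ω E) : fam (x - y) = fun i => fam x i - fam y i := rfl

theorem fam_smul (c : ℂ) (x : Pre ω E) : fam (c • x) = fun i => c • fam x i := rfl

theorem fam_bd (x : Pre ω E) : Bd (fam x) := x.2

theorem fam_ext {x y : Pre ω E} (h : fam x = fam y) : x = y := Subtype.ext h

theorem inn_bd (x y : Pre ω E) : ∃ r : ℝ, ∀ i, ‖⟪fam x i, fam y i⟫_ℂ‖ ≤ r := by
  obtain ⟨r, hr⟩ := fam_bd x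
  obtain ⟨s, hs⟩ := fam_bd y
  refine ⟨r * s, fun i => (norm_inner_le_norm _ _).trans ?_⟩
  exact mul_le_mul (hr i) (hs i) (norm_nonneg _) ((norm_nonneg _).trans (hr i))

variable (ω E)

/-- the semi-inner product -/
abbrev core : PreInnerProductSpace.Core ℂ (Pre ω E) where
  inner x y := ul ω (fun i => ⟪fam x i, fam y i⟫_ℂ)
  conj_inner_symm x y := by
    have h1 := ul_tendsto ω (inn_bd x y)
    have h2 := ul_tendsto ω (inn_bd y x)
    have h3 := ((Complex.continuous_conj.tendsto _).comp h2)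
    have h4 : ((starRingEnd ℂ) ∘ fun i => ⟪fam y i, fam x i⟫_ℂ) = fun i => ⟪fam x i, fam y i⟫_ℂ := by
      funext i
      exact inner_conj_symm _ _
    rw [h4] at h3
    exact tendsto_nhds_unique h3 h1
  re_inner_nonneg x := by
    have h1 := (Complex.continuous_re.tendsto _).comp (ul_tendsto ω (inn_bd x x))
    apply ge_of_tendsto h1
    filter_upwards with i
    exact inner_self_nonneg (𝕜 := ℂ)
  add_left x y z := by
    have h1 := ul_tendsto ω (inn_bd (x + y) z)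
    have h2 := (ul_tendsto ω (inn_bd x z)).add (ul_tendsto ω (inn_bd y z))
    have h3 : (fun i => ⟪fam (x + y) i, fam z i⟫_ℂ)
        = fun i => ⟪fam x i, fam z i⟫_ℂ + ⟪fam y i, fam z i⟫_ℂ := by
      funext i
      rw [fam_add, inner_add_left]
    rw [h3] at h1
    show ul ω (fun i => ⟪fam (x + y) i, fam z i⟫_ℂ) = _
    rw [h3]
    exact tendsto_nhds_unique h1 h2
  smul_left x y c := by
    have h1 := ul_tendsto ω (inn_bd (c • x) y)
    have h2 := (ul_tendsto ω (inn_bd x y)).const_mul ((starRingEnd ℂ) c)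
    have h3 : (fun i => ⟪fam (c • x) i, fam y i⟫_ℂ)
        = fun i => (starRingEnd ℂ) c * ⟪fam x i, fam y i⟫_ℂ := by
      funext i
      rw [fam_smul, inner_smul_left]
    rw [h3] at h1
    show ul ω (fun i => ⟪fam (c • x) i, fam y i⟫_ℂ) = _
    rw [h3]
    exact tendsto_nhds_unique h1 h2

instance : SeminormedAddCommGroup (Pre ω E) :=
  InnerProductSpace.Core.toSeminormedAddCommGroup (c := core ω E)
instance : InnerProductSpace ℂ (Pre ω E) := InnerProductSpace.ofCore (core ω E)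

variable {ω E}

theorem inn_tendsto (x y : Pre ω E) :
    Tendsto (fun i => ⟪fam x i, fam y i⟫_ℂ) ω (𝓝 ⟪x, y⟫_ℂ) := ul_tendsto ω (inn_bd x y)

theorem nsq_tendsto (x : Pre ω E) : Tendsto (fun i => ‖fam x i‖ ^ 2) ω (𝓝 (‖x‖ ^ 2)) := by
  have h2 := (Complex.continuous_re.tendsto _).comp (inn_tendsto x x)
  have h3 : (Complex.re ∘ fun i => ⟪fam x i, fam x i⟫_ℂ) = fun i => ‖fam x i‖ ^ 2 := by
    funext i
    simp only [Function.comp]
    rw [inner_self_eq_norm_sq_to_K]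
    norm_cast
  have h4 : (⟪x, x⟫_ℂ).re = ‖x‖ ^ 2 := by
    rw [inner_self_eq_norm_sq_to_K]
    norm_cast
  rwa [h3, h4] at h2

theorem bd_act {T : ∀ n, (E n →L[ℂ] E n)} {x : ∀ n, E n} (hT : Bd T) (hx : Bd x) :
    Bd (fun i => T i (x i)) := by
  obtain ⟨r, hr⟩ := hT
  obtain ⟨s, hs⟩ := hx
  refine ⟨r * s, fun i => ?_⟩
  refine (ContinuousLinearMap.le_opNorm _ _).trans ?_
  exact mul_le_mul (hr i) (hs i) (norm_nonneg _) ((norm_nonneg _).trans (hr i))

/-- the linear map given by a bounded family of operators -/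
def opL (T : ∀ n, (E n →L[ℂ] E n)) (hT : Bd T) : Pre ω E →ₗ[ℂ] Pre ω E where
  toFun x := mkP ω (fun i => T i (fam x i)) (bd_act hT (fam_bd x))
  map_add' x y := by
    apply fam_ext
    funext i
    show T i (fam (x + y) i) = T i (fam x i) + T i (fam y i)
    rw [fam_add, map_add]
  map_smul' c x := by
    apply fam_ext
    funext i
    show T i (fam (c • x) i) = c • T i (fam x i)
    rw [fam_smul, map_smul]

theorem fam_opL (T : ∀ n, (E n →L[ℂ] E n)) (hT : Bd T) (x : Pre ω E) :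
    fam (opL T hT x) = fun i => T i (fam x i) := rfl

theorem opL_norm (T : ∀ n, (E n →L[ℂ] E n)) (hT : Bd T) :
    ∃ r : ℝ, ∀ x : Pre ω E, ‖opL T hT x‖ ≤ r * ‖x‖ := by
  obtain ⟨r, hr⟩ := id hT
  refine ⟨|r|, fun x => ?_⟩
  have h1 := nsq_tendsto (opL T hT x)
  have h2 := (nsq_tendsto x).const_mul (|r| ^ 2)
  have h3 : ‖opL T hT x‖ ^ 2 ≤ |r| ^ 2 * ‖x‖ ^ 2 := by
    apply le_of_tendsto_of_tendsto h1 h2
    filter_upwards with i
    rw [← mul_pow, fam_opL]
    have h4 : ‖T i (fam x i)‖ ≤ |r| * ‖fam x i‖ :=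
      ((T i).le_opNorm _).trans (mul_le_mul_of_nonneg_right ((hr i).trans (le_abs_self r))
        (norm_nonneg _))
    exact pow_le_pow_left₀ (norm_nonneg _) h4 2
  rw [← mul_pow] at h3
  exact le_of_sq_le_sq h3 (by positivity)

/-- the bounded operator on bounded families -/
def opC (T : ∀ n, (E n →L[ℂ] E n)) (hT : Bd T) : Pre ω E →L[ℂ] Pre ω E :=
  (opL T hT).mkContinuous (opL_norm (ω := ω) T hT).choose (opL_norm (ω := ω) T hT).choose_spec

end pre

/-- the ultraproduct -/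
abbrev UP (ω : Ultrafilter ℕ) (E : ℕ → Type) [∀ n, NormedAddCommGroup (E n)]
    [∀ n, InnerProductSpace ℂ (E n)] : Type := SeparationQuotient (Pre ω E)

section up

variable {ω : Ultrafilter ℕ} {E : ℕ → Type} [∀ n, NormedAddCommGroup (E n)]
  [∀ n, InnerProductSpace ℂ (E n)]

open Classical in
/-- the class of a sequence -/
def cls (ω : Ultrafilter ℕ) (x : ∀ n, E n) : UP ω E :=
  if h : Bd x then SeparationQuotient.mk (mkP ω x h) else 0

theorem cls_of {x : ∀ n, E n} (h : Bd x) : cls ω x = SeparationQuotient.mk (mkP ω x h) := by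
  unfold cls; rw [dif_pos h]

theorem cls_surj (z : UP ω E) : ∃ x : ∀ n, E n, Bd x ∧ cls ω x = z := by
  obtain ⟨y, rfl⟩ := SeparationQuotient.surjective_mk z
  exact ⟨fam y, fam_bd y, cls_of (fam_bd y)⟩

theorem Bd.add {x y : ∀ n, E n} (hx : Bd x) (hy : Bd y) : Bd (fun n => x n + y n) :=
  (PreS E).add_mem hx hy

theorem Bd.sub {x y : ∀ n, E n} (hx : Bd x) (hy : Bd y) : Bd (fun n => x n - y n) :=
  (PreS E).sub_mem hx hy

theorem Bd.smul {x : ∀ n, E n} (c : ℂ) (hx : Bd x) : Bd (fun n => c • x n) :=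
  (PreS E).smul_mem c hx

theorem Bd.zero : Bd (fun n => (0 : E n)) := (PreS E).zero_mem

theorem Bd.sum {ι : Type*} (s : Finset ι) {x : ι → ∀ n, E n} (hx : ∀ i, Bd (x i)) :
    Bd (fun n => ∑ i ∈ s, x i n) := by
  have := (PreS E).sum_mem (t := s) (f := x) (fun i _ => hx i)
  have e : (fun n => ∑ i ∈ s, x i n) = ∑ i ∈ s, x i := by
    funext n; rw [Finset.sum_apply]
  rw [e]; exact this

theorem cls_add {x y : ∀ n, E n} (hx : Bd x) (hy : Bd y) :
    cls ω (fun n => x n + y n) = cls ω x + cls ω y := by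
  rw [cls_of hx, cls_of hy, cls_of (hx.add hy)]; rfl

theorem cls_sub {x y : ∀ n, E n} (hx : Bd x) (hy : Bd y) :
    cls ω (fun n => x n - y n) = cls ω x - cls ω y := by
  rw [cls_of hx, cls_of hy, cls_of (hx.sub hy)]; rfl

theorem cls_smul {x : ∀ n, E n} (c : ℂ) (hx : Bd x) :
    cls ω (fun n => c • x n) = c • cls ω x := by
  rw [cls_of hx, cls_of (hx.smul c)]; rfl

theorem cls_zero : cls ω (fun n => (0 : E n)) = 0 := by
  rw [cls_of Bd.zero]; rfl

theorem cls_sum {ι : Type*} (s : Finset ι) {x : ι → ∀ n, E n} (hx : ∀ i, Bd (x i)) :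
    cls ω (fun n => ∑ i ∈ s, x i n) = ∑ i ∈ s, cls ω (x i) := by
  classical
  induction s using Finset.induction_on with
  | empty => simp [cls_zero]
  | insert a s ha ih =>
    rw [Finset.sum_insert ha, ← ih, ← cls_add (hx a) (Bd.sum s hx)]
    congr 1
    funext n
    rw [Finset.sum_insert ha]

theorem cls_inner {x y : ∀ n, E n} (hx : Bd x) (hy : Bd y) :
    Tendsto (fun n => ⟪x n, y n⟫_ℂ) ω (𝓝 ⟪cls ω x, cls ω y⟫_ℂ) := by
  rw [cls_of hx, cls_of hy]
  exact inn_tendsto (mkP ω x hx) (mkP ω y hy)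

theorem cls_nsq {x : ∀ n, E n} (hx : Bd x) :
    Tendsto (fun n => ‖x n‖ ^ 2) ω (𝓝 (‖cls ω x‖ ^ 2)) := by
  rw [cls_of hx]
  exact nsq_tendsto (mkP ω x hx)

theorem cls_norm {x : ∀ n, E n} (hx : Bd x) :
    Tendsto (fun n => ‖x n‖) ω (𝓝 ‖cls ω x‖) := by
  have h := (Real.continuous_sqrt.tendsto _).comp (cls_nsq (ω := ω) hx)
  have e : (Real.sqrt ∘ fun n => ‖x n‖ ^ 2) = fun n => ‖x n‖ := by
    funext n; simp
  rw [e] at h
  simpa using h

theorem cls_eq_zero {x : ∀ n, E n} (hx : Bd x) :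
    cls ω x = 0 ↔ Tendsto (fun n => ‖x n‖) ω (𝓝 0) := by
  constructor
  · intro h
    have := cls_norm (ω := ω) hx
    rwa [h, norm_zero] at this
  · intro h
    have := tendsto_nhds_unique (cls_norm (ω := ω) hx) h
    exact norm_eq_zero.mp this

theorem cls_eq {x y : ∀ n, E n} (hx : Bd x) (hy : Bd y) :
    cls ω x = cls ω y ↔ Tendsto (fun n => ‖x n - y n‖) ω (𝓝 0) := by
  rw [← sub_eq_zero, ← cls_sub hx hy, cls_eq_zero (hx.sub hy)]

theorem opC_insep (T : ∀ n, (E n →L[ℂ] E n)) (hT : Bd T) (x y : Pre ω E)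
    (h : Inseparable x y) :
    (SeparationQuotient.mkCLM ℂ (Pre ω E) ∘L opC T hT) x =
      (SeparationQuotient.mkCLM ℂ (Pre ω E) ∘L opC T hT) y :=
  (h.map ((SeparationQuotient.mkCLM ℂ (Pre ω E) ∘L opC T hT).continuous)).eq

open Classical in
/-- the operator given by a bounded sequence of operators -/
def op (ω : Ultrafilter ℕ) (T : ∀ n, (E n →L[ℂ] E n)) : UP ω E →L[ℂ] UP ω E :=
  if h : Bd T then SeparationQuotient.liftCLM
    (SeparationQuotient.mkCLM ℂ (Pre ω E) ∘L opC T h) (opC_insep T h) else 0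

theorem op_cls {T : ∀ n, (E n →L[ℂ] E n)} {x : ∀ n, E n} (hT : Bd T) (hx : Bd x) :
    op ω T (cls ω x) = cls ω (fun n => T n (x n)) := by
  unfold op
  rw [dif_pos hT, cls_of hx, cls_of (bd_act hT hx)]
  rfl

theorem up_ext {S T : UP ω E →L[ℂ] UP ω E} (h : ∀ x : ∀ n, E n, Bd x → S (cls ω x) = T (cls ω x)) :
    S = T := by
  ext z
  obtain ⟨x, hx, rfl⟩ := cls_surj z
  exact h x hx

theorem Bd.mul {S T : ∀ n, (E n →L[ℂ] E n)} (hS : Bd S) (hT : Bd T) : Bd (fun n => S n * T n) := by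
  obtain ⟨r, hr⟩ := hS
  obtain ⟨s, hs⟩ := hT
  refine ⟨r * s, fun n => (norm_mul_le _ _).trans ?_⟩
  exact mul_le_mul (hr n) (hs n) (norm_nonneg _) ((norm_nonneg _).trans (hr n))

theorem op_mul {S T : ∀ n, (E n →L[ℂ] E n)} (hS : Bd S) (hT : Bd T) :
    op ω (fun n => S n * T n) = op ω S * op ω T := by
  apply up_ext
  intro x hx
  rw [ContinuousLinearMap.mul_apply, op_cls hT hx, op_cls hS (bd_act hT hx),
    op_cls (hS.mul hT) hx]
  rfl

theorem Bd.op_sub {S T : ∀ n, (E n →L[ℂ] E n)} (hS : Bd S) (hT : Bd T) :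
    Bd (fun n => S n - T n) := by
  obtain ⟨r, hr⟩ := hS
  obtain ⟨s, hs⟩ := hT
  exact ⟨r + s, fun n => (norm_sub_le _ _).trans (add_le_add (hr n) (hs n))⟩

theorem op_sub {S T : ∀ n, (E n →L[ℂ] E n)} (hS : Bd S) (hT : Bd T) :
    op ω (fun n => S n - T n) = op ω S - op ω T := by
  apply up_ext
  intro x hx
  rw [ContinuousLinearMap.sub_apply, op_cls hT hx, op_cls hS hx,
    op_cls (hS.op_sub hT) hx, ← cls_sub (bd_act hS hx) (bd_act hT hx)]
  rfl

theorem op_one : op ω (fun n => (1 : E n →L[ℂ] E n)) = 1 := by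
  have h1 : Bd (fun n => (1 : E n →L[ℂ] E n)) :=
    ⟨1, fun n => ContinuousLinearMap.opNorm_le_bound _ zero_le_one fun x => by simp⟩
  apply up_ext
  intro x hx
  rw [op_cls h1 hx]
  rfl

/-- an operator nearly attains its norm -/
theorem exists_near {F : Type} [NormedAddCommGroup F] [InnerProductSpace ℂ F] (T : F →L[ℂ] F) :
    ∃ x : F, ‖x‖ ≤ 1 ∧ ‖T‖ / 2 ≤ ‖T x‖ := by
  by_cases h : ‖T‖ = 0
  · exact ⟨0, by simp, by rw [h]; simp⟩
  · have h0 : 0 < ‖T‖ := lt_of_le_of_ne (norm_nonneg _) (Ne.symm h)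
    obtain ⟨x, hx, hx'⟩ := T.exists_lt_apply_of_lt_opNorm (r := ‖T‖ / 2) (by linarith)
    exact ⟨x, hx.le, hx'.le⟩

theorem op_eq_zero {T : ∀ n, (E n →L[ℂ] E n)} (hT : Bd T) :
    op ω T = 0 ↔ Tendsto (fun n => ‖T n‖) ω (𝓝 0) := by
  constructor
  · intro h
    choose x hx hx' using fun n => exists_near (T n)
    have hb : Bd x := ⟨1, hx⟩
    have h1 : cls ω (fun n => T n (x n)) = 0 := by
      rw [← op_cls hT hb, h]; rfl
    rw [cls_eq_zero (bd_act hT hb)] at h1
    have h2 := h1.const_mul 2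
    rw [mul_zero] at h2
    refine squeeze_zero (fun n => norm_nonneg _) (fun n => ?_) h2
    linarith [hx' n]
  · intro h
    apply up_ext
    intro x hx
    rw [op_cls hT hx]
    show _ = (0 : UP ω E →L[ℂ] UP ω E) (cls ω x)
    rw [ContinuousLinearMap.zero_apply, cls_eq_zero (bd_act hT hx)]
    obtain ⟨r, hr⟩ := hx
    have h2 := h.mul_const r
    rw [zero_mul] at h2
    refine squeeze_zero (fun n => norm_nonneg _) (fun n => ?_) h2
    exact ((T n).le_opNorm _).trans (mul_le_mul_of_nonneg_left (hr n) (norm_nonneg _))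

theorem op_eq {S T : ∀ n, (E n →L[ℂ] E n)} (hS : Bd S) (hT : Bd T) :
    op ω S = op ω T ↔ Tendsto (fun n => ‖S n - T n‖) ω (𝓝 0) := by
  rw [← sub_eq_zero, ← op_sub hS hT, op_eq_zero (hS.op_sub hT)]

end up

end Q90.MS
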