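import Mathlib

/-!
# Two Banach algebra norms, part 2: `ℓ¹` spaces

Basic facts on `ℓ¹(S)`: elementary tensors, restriction, extension of families to operators.
-/

namespace Q90.N2

open scoped BigOperators ENNReal

/-- The Banach space `ℓ¹(S)`. -/
noncomputable abbrev L1 (S : Type) := lp (fun _ : S => ℂ) 1

namespace L1

variable {S T : Type}

theorem summable (f : L1 S) : Summable fun i => ‖f i‖ := by
  have h := (lp.memℓp f).summable (by norm_num : 0 < (1 : ℝ≥0∞).toReal)
  simpa using h

theorem norm_eq (f : L1 S) : ‖f‖ = ∑' i, ‖f i‖ := by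
  rw [lp.norm_eq_tsum_rpow (by norm_num : 0 < (1 : ℝ≥0∞).toReal)]
  simp

/-- An element of `ℓ¹` from a summable function. -/
noncomputable def mk (f : S → ℂ) (h : Summable fun i => ‖f i‖) : L1 S :=
  ⟨f, memℓp_gen (by simpa using h)⟩

@[simp] theorem mk_apply (f : S → ℂ) (h : Summable fun i => ‖f i‖) (i : S) : mk f h i = f i := rfl

theorem ext {f g : L1 S} (h : ∀ i, f i = g i) : f = g := lp.ext (funext h)

@[simp] theorem add_ap (f g : L1 S) (i : S) : (f + g) i = f i + g i := rfl
@[simp] theorem sub_ap (f g : L1 S) (i : S) : (f - g) i = f i - g i := rfl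
@[simp] theorem smul_ap (c : ℂ) (f : L1 S) (i : S) : (c • f) i = c * f i := rfl
@[simp] theorem zero_ap (i : S) : (0 : L1 S) i = 0 := rfl

theorem sum_ap {κ : Type*} (s : Finset κ) (f : κ → L1 S) (i : S) :
    (∑ k ∈ s, f k) i = ∑ k ∈ s, f k i := by
  classical
  induction s using Finset.induction_on with
  | empty => simp
  | insert a s ha ih => rw [Finset.sum_insert ha, Finset.sum_insert ha, add_ap, ih]

theorem norm_ap_le (f : L1 S) (i : S) : ‖f i‖ ≤ ‖f‖ := lp.norm_apply_le_norm (by simp) f i

/-- The unit vectors. -/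
noncomputable def e (i : S) : L1 S := by
  classical exact lp.single 1 i (1 : ℂ)

theorem e_self (i : S) : e i i = 1 := by
  classical
  unfold e
  simp [lp.single_apply]

theorem e_ne {i j : S} (h : j ≠ i) : e i j = 0 := by
  classical
  unfold e
  simp [lp.single_apply, h]

theorem norm_e (i : S) : ‖(e i : L1 S)‖ = 1 := by
  classical
  rw [norm_eq, tsum_eq_single i]
  · simp [e_self]
  · intro j hj
    simp [e_ne hj]

theorem hasSum_e (f : L1 S) : HasSum (fun i => f i • (e i : L1 S)) f := by
  classical
  have h := lp.hasSum_single (p := 1) (by simp) f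
  have h2 : (fun i => f i • (e i : L1 S)) = fun i => lp.single 1 i (f i) := by
    funext i
    refine ext fun j => ?_
    by_cases hj : j = i
    · subst hj
      simp [e_self, lp.single_apply]
    · simp [e_ne hj, lp.single_apply, hj]
  rw [h2]
  exact h

/-- Coordinates are continuous. -/
noncomputable def coord (i : S) : L1 S →L[ℂ] ℂ :=
  LinearMap.mkContinuous
    { toFun := fun f => f i
      map_add' := fun _ _ => rfl
      map_smul' := fun _ _ => rfl } 1 (fun f => by rw [one_mul]; exact norm_ap_le f i)

@[simp] theorem coord_apply (i : S) (f : L1 S) : coord i f = f i := rfl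

/-- Bound for an element of `ℓ¹` by finite sums. -/
theorem summable_mul (x : L1 S) (y : L1 T) : Summable fun p : S × T => ‖x p.1 * y p.2‖ := by
  have := (summable x).mul_of_nonneg (summable y) (fun _ => norm_nonneg _) (fun _ => norm_nonneg _)
  simpa [norm_mul] using this

/-- Elementary tensors. -/
noncomputable def tensF (x : L1 S) (y : L1 T) : L1 (S × T) :=
  mk (fun p => x p.1 * y p.2) (summable_mul x y)

theorem norm_tensF (x : L1 S) (y : L1 T) : ‖tensF x y‖ = ‖x‖ * ‖y‖ := by
  rw [norm_eq, norm_eq, norm_eq]
  have h := tsum_mul_tsum_of_summable_norm (f := fun i => ‖x i‖) (g := fun i => ‖y i‖)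
    (by simpa using summable x) (by simpa using summable y)
  rw [h]
  refine tsum_congr fun p => ?_
  simp [tensF]

/-- Elementary tensors as a bounded bilinear map. -/
noncomputable def tens : L1 S →L[ℂ] L1 T →L[ℂ] L1 (S × T) :=
  LinearMap.mkContinuous₂
    (LinearMap.mk₂ ℂ tensF
      (by intro a b c; refine ext fun p => ?_; simp [tensF]; ring)
      (by intro a b c; refine ext fun p => ?_; simp [tensF]; ring)
      (by intro a b c; refine ext fun p => ?_; simp [tensF]; ring)
      (by intro a b c; refine ext fun p => ?_; simp [tensF]; ring))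
    1 (fun x y => by simp [norm_tensF])

@[simp] theorem tens_apply (x : L1 S) (y : L1 T) (p : S × T) : tens x y p = x p.1 * y p.2 := rfl

theorem norm_tens (x : L1 S) (y : L1 T) : ‖tens x y‖ = ‖x‖ * ‖y‖ := norm_tensF x y

theorem tens_e (i : S) (j : T) : tens (e i : L1 S) (e j : L1 T) = e (i, j) := by
  refine ext fun p => ?_
  obtain ⟨a, b⟩ := p
  rw [tens_apply]
  by_cases ha : a = i
  · by_cases hb : b = j
    · subst ha; subst hb; simp [e_self]
    · rw [e_ne (j := b) hb, e_ne (j := (a, b)) (by simp [hb]), mul_zero]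
  · rw [e_ne (j := a) ha, e_ne (j := (a, b)) (by simp [ha]), zero_mul]

/-- Restriction to a subset of the index set. -/
noncomputable def restr (p : S → Prop) : L1 S →L[ℂ] L1 {s // p s} :=
  LinearMap.mkContinuous
    { toFun := fun f => mk (fun i => f i.1) ((summable f).subtype _)
      map_add' := fun _ _ => rfl
      map_smul' := fun _ _ => rfl } 1 (fun f => by
        rw [one_mul, norm_eq, norm_eq]
        exact (summable f).tsum_subtype_le (fun i => ‖f i‖) {s | p s} (fun _ => norm_nonneg _))

@[simp] theorem restr_apply (p : S → Prop) (f : L1 S) (i : {s // p s}) : restr p f i = f i.1 := rfl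

end L1

end Q90.N2
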