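import Mathlib

/-!
# Two Banach algebra norms, part 1: a lemma on finite rank matrices

The diagonal of a finite rank matrix whose off-diagonal entries are controlled by later
diagonal entries has a last non-zero entry.
-/

namespace Q90.N2

open scoped BigOperators InnerProductSpace

/-- For a matrix of rank at most `m`, the `ℓ¹` norm of the diagonal is at most `m` times the
largest diagonal entry plus the `ℓ¹` norm of the off-diagonal part. -/
theorem trace_ineq {J : Type*} [Fintype J] [DecidableEq J] (m : ℕ) (a b : J → Fin m → ℂ)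
    (μ : ℝ) (hμ0 : 0 ≤ μ) (hμ : ∀ i, ‖∑ k, a i k * b i k‖ ≤ μ) :
    ∑ i, ‖∑ k, a i k * b i k‖ ≤ m * μ +
      ∑ i, ∑ j, (if i = j then 0 else ‖∑ k, a i k * b j k‖) := by
  classical
  set A : J → J → ℂ := fun i j => ∑ k, a i k * b j k with hA
  let L : EuclideanSpace ℂ J →ₗ[ℂ] (Fin m → ℂ) :=
    { toFun := fun v k => ∑ j, b j k * v j
      map_add' := by
        intro x y; ext k
        simp [mul_add, Finset.sum_add_distrib]
      map_smul' := by
        intro c x; ext k
        simp only [PiLp.smul_apply, smul_eq_mul, RingHom.id_apply, Pi.smul_apply,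
          Finset.mul_sum]
        exact Finset.sum_congr rfl fun j _ => by ring }
  set K := LinearMap.ker L with hK
  have hdim : Fintype.card J ≤ m + Module.finrank ℂ K := by
    have h1 : Module.finrank ℂ (LinearMap.range L) + Module.finrank ℂ K =
        Module.finrank ℂ (EuclideanSpace ℂ J) := LinearMap.finrank_range_add_finrank_ker L
    have h2 : Module.finrank ℂ (LinearMap.range L) ≤ m := by
      have := Submodule.finrank_le (LinearMap.range L)
      simpa using this
    have h3 : Module.finrank ℂ (EuclideanSpace ℂ J) = Fintype.card J := by simp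
    omega
  let bas := stdOrthonormalBasis ℂ K
  let v : Fin (Module.finrank ℂ K) → EuclideanSpace ℂ J := fun t => (bas t : EuclideanSpace ℂ J)
  have hv : Orthonormal ℂ v := by
    have := bas.orthonormal
    exact this.comp_linearIsometry K.subtypeₗᵢ
  have hsq : ∀ i, ∑ t, ‖v t i‖ ^ 2 ≤ 1 := by
    intro i
    have h := hv.sum_inner_products_le (x := EuclideanSpace.single i (1 : ℂ))
      (s := Finset.univ)
    have h2 : ∀ t, ‖⟪v t, EuclideanSpace.single i (1 : ℂ)⟫_ℂ‖ = ‖v t i‖ := by
      intro t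
      rw [EuclideanSpace.inner_single_right]
      simp
    simp only [h2] at h
    simpa using h
  have hnorm : ∑ i, ∑ t, ‖v t i‖ ^ 2 = Module.finrank ℂ K := by
    rw [Finset.sum_comm]
    have : ∀ t, ∑ i, ‖v t i‖ ^ 2 = 1 := by
      intro t
      have h := hv.1 t
      have h2 := EuclideanSpace.norm_sq_eq (v t)
      rw [h] at h2
      linarith [h2]
    simp [this]
  have hker : ∀ t i, ∑ j, A i j * v t j = 0 := by
    intro t i
    have h : L (v t) = 0 := (bas t).2
    have h2 : ∑ j, A i j * v t j = ∑ k, a i k * (L (v t) k) := by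
      simp only [hA, L, LinearMap.coe_mk, AddHom.coe_mk, Finset.sum_mul, Finset.mul_sum]
      rw [Finset.sum_comm]
      exact Finset.sum_congr rfl fun k _ => Finset.sum_congr rfl fun j _ => by ring
    rw [h2, h]
    simp
  set G : J → J → ℂ := fun i j => ∑ t, (starRingEnd ℂ) (v t i) * v t j with hG
  have hG1 : ∀ i j, ‖G i j‖ ≤ 1 := by
    intro i j
    calc ‖G i j‖ ≤ ∑ t, ‖(starRingEnd ℂ) (v t i) * v t j‖ := norm_sum_le _ _
      _ ≤ ∑ t, (‖v t i‖ ^ 2 + ‖v t j‖ ^ 2) / 2 := by
          refine Finset.sum_le_sum fun t _ => ?_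
          rw [norm_mul, RCLike.norm_conj]
          nlinarith [sq_nonneg (‖v t i‖ - ‖v t j‖)]
      _ = (∑ t, ‖v t i‖ ^ 2 + ∑ t, ‖v t j‖ ^ 2) / 2 := by
          rw [← Finset.sum_div, Finset.sum_add_distrib]
      _ ≤ 1 := by linarith [hsq i, hsq j]
  have hGd : ∀ i, G i i = ((∑ t, ‖v t i‖ ^ 2 : ℝ) : ℂ) := by
    intro i
    simp only [hG]
    push_cast
    refine Finset.sum_congr rfl fun t _ => ?_
    rw [mul_comm, RCLike.mul_conj]
    simp
  have hrow : ∀ i, ∑ j, A i j * G i j = 0 := by
    intro i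
    have : ∑ j, A i j * G i j = ∑ t, (starRingEnd ℂ) (v t i) * ∑ j, A i j * v t j := by
      simp only [hG, Finset.mul_sum]
      rw [Finset.sum_comm]
      exact Finset.sum_congr rfl fun k _ => Finset.sum_congr rfl fun j _ => by ring
    rw [this]
    simp [hker]
  have hrow2 : ∀ i, ‖A i i‖ * ∑ t, ‖v t i‖ ^ 2 ≤ ∑ j, (if i = j then 0 else ‖A i j‖) := by
    intro i
    have h1 : A i i * G i i = - ∑ j, (if i = j then 0 else A i j * G i j) := by
      have h := hrow i
      rw [← Finset.add_sum_erase _ _ (Finset.mem_univ i)] at h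
      rw [← Finset.add_sum_erase (f := fun j => if i = j then (0 : ℂ) else A i j * G i j)
        _ (Finset.mem_univ i)]
      have h2 : ∑ j ∈ Finset.univ.erase i, (if i = j then (0 : ℂ) else A i j * G i j)
          = ∑ j ∈ Finset.univ.erase i, A i j * G i j := by
        refine Finset.sum_congr rfl fun j hj => ?_
        rw [if_neg]
        exact fun e => (Finset.ne_of_mem_erase hj) e.symm
      rw [h2]
      simp only [if_true, zero_add]
      linear_combination h
    have h3 : ‖A i i * G i i‖ = ‖A i i‖ * ∑ t, ‖v t i‖ ^ 2 := by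
      rw [norm_mul, hGd i, Complex.norm_real, Real.norm_of_nonneg]
      exact Finset.sum_nonneg fun t _ => by positivity
    rw [← h3, h1, norm_neg]
    refine (norm_sum_le _ _).trans (Finset.sum_le_sum fun j _ => ?_)
    split_ifs with h
    · simp
    · rw [norm_mul]
      have := mul_le_mul_of_nonneg_left (hG1 i j) (norm_nonneg (A i j))
      simpa using this
  have hsum1 : ∑ i, ‖A i i‖ * ∑ t, ‖v t i‖ ^ 2 ≤
      ∑ i, ∑ j, (if i = j then 0 else ‖A i j‖) := Finset.sum_le_sum fun i _ => hrow2 i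
  have hsum2 : ∑ i, ‖A i i‖ * (1 - ∑ t, ‖v t i‖ ^ 2) ≤ m * μ := by
    calc ∑ i, ‖A i i‖ * (1 - ∑ t, ‖v t i‖ ^ 2) ≤ ∑ i, μ * (1 - ∑ t, ‖v t i‖ ^ 2) :=
          Finset.sum_le_sum fun i _ => mul_le_mul_of_nonneg_right (hμ i) (by linarith [hsq i])
      _ = μ * (Fintype.card J - Module.finrank ℂ K) := by
          rw [← Finset.mul_sum, Finset.sum_sub_distrib, hnorm]
          simp
      _ ≤ m * μ := by
          rw [mul_comm]
          refine mul_le_mul_of_nonneg_right ?_ hμ0
          have : (Fintype.card J : ℝ) ≤ m + Module.finrank ℂ K := by exact_mod_cast hdim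
          linarith
  have hfin : ∑ i, ‖A i i‖ = ∑ i, ‖A i i‖ * ∑ t, ‖v t i‖ ^ 2 +
      ∑ i, ‖A i i‖ * (1 - ∑ t, ‖v t i‖ ^ 2) := by
    rw [← Finset.sum_add_distrib]
    exact Finset.sum_congr rfl fun i _ => by ring
  have : ∑ i, ‖A i i‖ ≤ m * μ + ∑ i, ∑ j, (if i = j then 0 else ‖A i j‖) := by
    rw [hfin]; linarith
  exact this

/-- A nearly lower triangular system of inequalities has only the zero solution. -/
theorem seq_zero (m : ℕ) (x : ℕ → ℝ) (hx : ∀ i, 0 ≤ x i) (δ : ℝ) (hδ : 0 < δ)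
    (hδ1 : δ * (m + 1) * (1 + 2 * m) ^ m ≤ 1 / 2)
    (h : ∀ j ≤ m, x j ≤ 2 * m * ∑ i ∈ Finset.range j, x i +
      δ * ∑ i ∈ Finset.range (m + 1), x i) : ∀ j ≤ m, x j = 0 := by
  obtain ⟨i0, hi0, hmax⟩ := Finset.exists_max_image (Finset.range (m + 1)) x ⟨0, by simp⟩
  set X := x i0 with hX
  have hX0 : 0 ≤ X := hx i0
  have hS : ∑ i ∈ Finset.range (m + 1), x i ≤ (m + 1) * X := by
    have := Finset.sum_le_card_nsmul (Finset.range (m + 1)) x X hmax
    simpa using this
  have hclaim : ∀ j ≤ m, x j ≤ δ * (m + 1) * (1 + 2 * m) ^ j * X := by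
    intro j
    induction j using Nat.strong_induction_on with
    | _ j ih =>
      intro hj
      have h1 := h j hj
      have h2 : ∑ i ∈ Finset.range j, x i ≤
          ∑ i ∈ Finset.range j, δ * (m + 1) * (1 + 2 * m) ^ i * X :=
        Finset.sum_le_sum fun i hi => ih i (Finset.mem_range.1 hi)
          ((Finset.mem_range.1 hi).le.trans hj)
      have h3 : ∑ i ∈ Finset.range j, δ * (m + 1) * (1 + 2 * (m : ℝ)) ^ i * X
          = δ * (m + 1) * X * ∑ i ∈ Finset.range j, (1 + 2 * (m : ℝ)) ^ i := by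
        rw [Finset.mul_sum]
        exact Finset.sum_congr rfl fun i _ => by ring
      have h4 : 2 * (m : ℝ) * ∑ i ∈ Finset.range j, (1 + 2 * (m : ℝ)) ^ i
          = (1 + 2 * m) ^ j - 1 := by
        have := mul_geom_sum (1 + 2 * (m : ℝ)) j
        have h5 : (1 + 2 * (m : ℝ)) - 1 = 2 * m := by ring
        rw [h5] at this
        exact this
      have h6 : 0 ≤ 2 * (m : ℝ) := by positivity
      calc x j ≤ 2 * m * ∑ i ∈ Finset.range j, x i +
            δ * ∑ i ∈ Finset.range (m + 1), x i := h1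
        _ ≤ 2 * m * (δ * (m + 1) * X * ∑ i ∈ Finset.range j, (1 + 2 * (m : ℝ)) ^ i) +
            δ * ((m + 1) * X) := by
            rw [← h3]
            exact add_le_add (mul_le_mul_of_nonneg_left h2 h6)
              (mul_le_mul_of_nonneg_left hS hδ.le)
        _ = δ * (m + 1) * X * (2 * m * ∑ i ∈ Finset.range j, (1 + 2 * (m : ℝ)) ^ i + 1) := by
            ring
        _ = δ * (m + 1) * (1 + 2 * m) ^ j * X := by rw [h4]; ring
  have hi0m : i0 ≤ m := by simpa [Nat.lt_succ_iff] using hi0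
  have h7 := hclaim i0 hi0m
  have h8 : δ * (m + 1) * (1 + 2 * (m : ℝ)) ^ i0 ≤ 1 / 2 := by
    refine le_trans ?_ hδ1
    have : (1 + 2 * (m : ℝ)) ^ i0 ≤ (1 + 2 * (m : ℝ)) ^ m :=
      pow_le_pow_right₀ (by linarith [Nat.cast_nonneg (α := ℝ) m]) hi0m
    exact mul_le_mul_of_nonneg_left this (by positivity)
  have h9 : X = 0 := by
    have : X ≤ 1 / 2 * X := by
      calc X ≤ δ * (m + 1) * (1 + 2 * m) ^ i0 * X := h7
        _ ≤ 1 / 2 * X := mul_le_mul_of_nonneg_right h8 hX0
    linarith
  intro j hj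
  have := hmax j (by simpa [Nat.lt_succ_iff] using hj)
  rw [h9] at this
  exact le_antisymm this (hx j)

/-- **The rank lemma.** If the off-diagonal entries of a finite rank matrix are controlled by
later diagonal entries, then the diagonal is zero or has a last non-zero entry. -/
theorem rank_lemma {I : Type*} [LinearOrder I] (m : ℕ) (a b : I → Fin m → ℂ)
    (ω : I → I → I → ℝ) (hω0 : ∀ l i j, 0 ≤ ω l i j)
    (hωs : ∀ l i j, ω l i j ≠ 0 → i < l ∧ j < l)
    (hω1 : ∀ l (s : Finset (I × I)), ∑ p ∈ s, ω l p.1 p.2 ≤ 1 / 2)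
    (hD : Summable fun l => ‖∑ k, a l k * b l k‖)
    (hA : ∀ i j, i ≠ j → ‖∑ k, a i k * b j k‖ ≤ ∑' l, ‖∑ k, a l k * b l k‖ * ω l i j) :
    (∀ l, ∑ k, a l k * b l k = 0) ∨
      ∃ l0, ∑ k, a l0 k * b l0 k ≠ 0 ∧ ∀ l, l0 < l → ∑ k, a l k * b l k = 0 := by
  classical
  by_contra hcon
  push Not at hcon
  obtain ⟨⟨s0, hs0⟩, hnomax⟩ := hcon
  set A : I → I → ℂ := fun i j => ∑ k, a i k * b j k with hAdef
  set d : I → ℝ := fun l => ‖A l l‖ with hd
  have hd0 : ∀ l, 0 ≤ d l := fun l => norm_nonneg _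
  have hdpos : ∀ l, A l l ≠ 0 → 0 < d l := fun l h => norm_pos_iff.2 h
  have hDs : Summable d := hD
  -- tails
  set T : I → ℝ := fun β => ∑' l, (if β ≤ l then d l else 0) with hT
  have hTs : ∀ β, Summable fun l => (if β ≤ l then d l else 0) := by
    intro β
    refine Summable.of_nonneg_of_le (fun l => ?_) (fun l => ?_) hDs
    · split_ifs <;> simp [hd0]
    · split_ifs
      · exact le_rfl
      · exact hd0 l
  have hTd : ∀ β l, β ≤ l → d l ≤ T β := by
    intro β l hl
    have := (hTs β).le_tsum l (fun j _ => by split_ifs <;> simp [hd0])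
    simpa [hl] using this
  have hTmono : ∀ β γ, β ≤ γ → T γ ≤ T β := by
    intro β γ h
    refine (hTs γ).tsum_le_tsum (fun l => ?_) (hTs β)
    by_cases h1 : γ ≤ l
    · rw [if_pos h1, if_pos (h.trans h1)]
    · rw [if_neg h1]
      split_ifs <;> simp [hd0]
  -- elements of the support beyond a finite set
  have hbeyond : ∀ (Φ : Finset I) (β0 : I), A β0 β0 ≠ 0 →
      ∃ β, A β β ≠ 0 ∧ β0 < β ∧ ∀ l ∈ Φ, A l l ≠ 0 → l < β := by
    intro Φ
    induction Φ using Finset.induction_on with
    | empty =>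
      intro β0 h0
      obtain ⟨β, h1, h2⟩ := hnomax β0 h0
      exact ⟨β, h2, h1, by simp⟩
    | insert x Φ hx ih =>
      intro β0 h0
      obtain ⟨β, h1, h2, h3⟩ := ih β0 h0
      by_cases hxx : A x x ≠ 0 ∧ ¬ x < β
      · obtain ⟨γ, h4, h5⟩ := hnomax x hxx.1
        have hβx : β ≤ x := not_lt.1 hxx.2
        refine ⟨γ, h5, h2.trans (hβx.trans_lt h4), fun l hl hl2 => ?_⟩
        rcases Finset.mem_insert.1 hl with h | h
        · rw [h]; exact h4
        · exact (h3 l h hl2).trans (hβx.trans_lt h4)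
      · refine ⟨β, h1, h2, fun l hl hl2 => ?_⟩
        rcases Finset.mem_insert.1 hl with h | h
        · subst h
          by_contra h6
          exact hxx ⟨hl2, h6⟩
        · exact h3 l h hl2
  -- tails become small
  have hsmall : ∀ ε > 0, ∀ β0, A β0 β0 ≠ 0 → ∃ β, A β β ≠ 0 ∧ β0 < β ∧ T β < ε := by
    intro ε hε β0 h0
    have h1 : ∃ Φ : Finset I, ∑' l, d l - ∑ l ∈ Φ, d l < ε := by
      have h2 := hDs.hasSum
      have h3 := (Metric.tendsto_nhds.1 h2) ε hε
      obtain ⟨Φ, hΦ⟩ := Filter.eventually_atTop.1 h3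
      refine ⟨Φ, ?_⟩
      have := hΦ Φ le_rfl
      rw [Real.dist_eq] at this
      have h4 := abs_lt.1 this
      linarith [h4.1]
    obtain ⟨Φ, hΦ⟩ := h1
    obtain ⟨β, h2, h3, h4⟩ := hbeyond Φ β0 h0
    refine ⟨β, h2, h3, ?_⟩
    have h5 : T β + ∑ l ∈ Φ, d l ≤ ∑' l, d l := by
      have h6 : ∑ l ∈ Φ, d l = ∑' l, (if l ∈ Φ then d l else 0) := by
        rw [tsum_eq_sum (s := Φ)]
        · exact Finset.sum_congr rfl fun l hl => by rw [if_pos hl]
        · intro l hl; rw [if_neg hl]
      have h7 : Summable fun l => (if l ∈ Φ then d l else 0) :=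
        summable_of_ne_finset_zero (s := Φ) fun l hl => if_neg hl
      rw [h6, ← (hTs β).tsum_add h7]
      refine ((hTs β).add h7).tsum_le_tsum (fun l => ?_) hDs
      by_cases h8 : l ∈ Φ
      · rw [if_pos h8]
        by_cases h9 : β ≤ l
        · have : A l l = 0 := by
            by_contra h10
            exact absurd (h4 l h8 h10) (not_lt.2 h9)
          simp [hd, this]
        · rw [if_neg h9, zero_add]
      · rw [if_neg h8, add_zero]
        split_ifs
        · exact le_rfl
        · exact hd0 l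
    linarith
  -- off-diagonal bounds
  have hωle : ∀ l i j, ω l i j ≤ 1 / 2 := by
    intro l i j
    have := hω1 l {(i, j)}
    simpa using this
  have hoffs : ∀ i j, Summable fun l => d l * ω l i j := by
    intro i j
    refine Summable.of_nonneg_of_le (fun l => mul_nonneg (hd0 l) (hω0 l i j)) (fun l => ?_) hDs
    calc d l * ω l i j ≤ d l * 1 :=
          mul_le_mul_of_nonneg_left ((hωle l i j).trans (by norm_num)) (hd0 l)
      _ = d l := mul_one _
  have hoff : ∀ i j β, i ≠ j → (β ≤ i ∨ β ≤ j) → ‖A i j‖ ≤ T β / 2 := by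
    intro i j β hij hβ
    refine (hA i j hij).trans ?_
    have h1 : T β / 2 = ∑' l, (if β ≤ l then d l else 0) / 2 := by
      rw [tsum_div_const]
    rw [h1]
    refine (hoffs i j).tsum_le_tsum (fun l => ?_) ((hTs β).div_const 2)
    by_cases h2 : ω l i j = 0
    · rw [h2, mul_zero]
      split_ifs
      · have := hd0 l; positivity
      · simp
    · have h3 := hωs l i j h2
      have h4 : β ≤ l := by
        rcases hβ with h | h
        · exact h.trans h3.1.le
        · exact h.trans h3.2.le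
      rw [if_pos h4]
      have := mul_le_mul_of_nonneg_left (hωle l i j) (hd0 l)
      linarith
  -- a large diagonal entry in each tail
  have hlarge : ∀ β, A β β ≠ 0 → ∃ r, A r r ≠ 0 ∧ β ≤ r ∧ T β ≤ 4 * m * d r := by
    intro β hβ
    have hTpos : 0 < T β := (hdpos β hβ).trans_le (hTd β β le_rfl)
    obtain ⟨J, hJ⟩ : ∃ J : Finset I, (∀ l ∈ J, β ≤ l) ∧ 3 / 4 * T β ≤ ∑ l ∈ J, d l := by
      have h3 := (Metric.tendsto_nhds.1 (hTs β).hasSum) (T β / 4) (by linarith)
      obtain ⟨Φ, hΦ⟩ := Filter.eventually_atTop.1 h3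
      have h4 := hΦ Φ le_rfl
      rw [Real.dist_eq] at h4
      have h5 := (abs_lt.1 h4).1
      refine ⟨Φ.filter (fun l => β ≤ l), fun l hl => (Finset.mem_filter.1 hl).2, ?_⟩
      rw [Finset.sum_filter]
      linarith
    have hJne : J.Nonempty := by
      rcases J.eq_empty_or_nonempty with h | h
      · rw [h] at hJ
        simp at hJ
        linarith
      · exact h
    obtain ⟨r, hrJ, hrmax⟩ := Finset.exists_max_image J d hJne
    have h6 := trace_ineq (J := J) m (fun i => a i) (fun i => b i) (d r) (hd0 r)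
      (fun i => hrmax i i.2)
    have h7 : ∑ i : J, ‖∑ k, a i k * b i k‖ = ∑ l ∈ J, d l :=
      (Finset.sum_coe_sort J d)
    have h8 : ∑ i : J, ∑ j : J, (if i = j then 0 else ‖∑ k, a i k * b j k‖) ≤ T β / 2 := by
      calc ∑ i : J, ∑ j : J, (if i = j then 0 else ‖∑ k, a i k * b j k‖)
          ≤ ∑ i : J, ∑ j : J, ∑' l, d l * ω l i j := by
            refine Finset.sum_le_sum fun i _ => Finset.sum_le_sum fun j _ => ?_
            split_ifs with h
            · exact tsum_nonneg fun l => mul_nonneg (hd0 l) (hω0 l i j)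
            · exact hA i j (fun e => h (Subtype.ext e))
        _ = ∑ i : J, ∑' l, ∑ j : J, d l * ω l i j :=
            Finset.sum_congr rfl fun i _ =>
              (Summable.tsum_finsetSum (s := Finset.univ)
                (f := fun (j : J) (l : I) => d l * ω l i j) fun j _ => hoffs i j).symm
        _ = ∑' l, ∑ i : J, ∑ j : J, d l * ω l i j :=
            (Summable.tsum_finsetSum (s := Finset.univ)
              (f := fun (i : J) (l : I) => ∑ j : J, d l * ω l i j)
              fun i _ => summable_sum fun j _ => hoffs i j).symm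
        _ ≤ ∑' l, (if β ≤ l then d l else 0) / 2 := by
            refine Summable.tsum_le_tsum (fun l => ?_)
              (summable_sum fun i _ => summable_sum fun j _ => hoffs i j)
              ((hTs β).div_const 2)
            by_cases h9 : β ≤ l
            · rw [if_pos h9]
              have h10 : ∑ i : J, ∑ j : J, d l * ω l i j = d l * ∑ p ∈ J ×ˢ J, ω l p.1 p.2 := by
                rw [Finset.sum_product, Finset.mul_sum, ← Finset.sum_coe_sort J]
                refine Finset.sum_congr rfl fun i _ => ?_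
                rw [Finset.mul_sum, ← Finset.sum_coe_sort J]
              rw [h10]
              have := mul_le_mul_of_nonneg_left (hω1 l (J ×ˢ J)) (hd0 l)
              linarith
            · rw [if_neg h9]
              have : ∀ i j : J, ω l i j = 0 := by
                intro i j
                by_contra h11
                exact h9 ((hJ.1 i i.2).trans (hωs l i j h11).1.le)
              simp [this]
        _ = T β / 2 := by rw [tsum_div_const]
    rw [h7] at h6
    have h9 : T β ≤ 4 * m * d r := by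
      have := hJ.2
      linarith
    refine ⟨r, ?_, hJ.1 r hrJ, h9⟩
    intro h10
    have : d r = 0 := by simp [hd, h10]
    rw [this] at h9
    linarith
  -- the sequence
  set δ : ℝ := 1 / (2 * (m + 1) * (1 + 2 * m) ^ m) with hδ
  have hδpos : 0 < δ := by positivity
  have hδ1 : δ * (m + 1) * (1 + 2 * (m : ℝ)) ^ m ≤ 1 / 2 := by
    rw [hδ]
    have h1 : (0 : ℝ) < (m + 1) * (1 + 2 * m) ^ m := by positivity
    rw [show 1 / (2 * (m + 1) * (1 + 2 * (m : ℝ)) ^ m) * (m + 1) * (1 + 2 * (m : ℝ)) ^ m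
      = (1 / 2) * (((m + 1) * (1 + 2 * m) ^ m) / ((m + 1) * (1 + 2 * m) ^ m)) by
        field_simp]
    rw [div_self h1.ne']
    norm_num
  have hδle : δ ≤ 1 := by
    have h1 : (1 : ℝ) ≤ (m + 1) * (1 + 2 * m) ^ m := by
      have h2 : (1 : ℝ) ≤ (1 + 2 * (m : ℝ)) ^ m :=
        one_le_pow₀ (by linarith [Nat.cast_nonneg (α := ℝ) m])
      have h3 : (1 : ℝ) ≤ m + 1 := by linarith [Nat.cast_nonneg (α := ℝ) m]
      nlinarith
    nlinarith
  let S := {l : I // A l l ≠ 0}
  have hstep : ∀ x : S, ∃ y : S, x.1 < y.1 ∧ T y.1 ≤ δ * d x.1 ∧ T y.1 ≤ 4 * m * d y.1 := by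
    intro x
    obtain ⟨β, h1, h2, h3⟩ := hsmall (δ * d x.1) (mul_pos hδpos (hdpos _ x.2)) x.1 x.2
    obtain ⟨r, h4, h5, h6⟩ := hlarge β h1
    refine ⟨⟨r, h4⟩, h2.trans_le h5, (hTmono β r h5).trans h3.le, (hTmono β r h5).trans h6⟩
  choose nxt hn1 hn2 hn3 using hstep
  let r : ℕ → S := fun n => Nat.rec (nxt ⟨s0, hs0⟩) (fun _ x => nxt x) n
  have hr1 : ∀ n, (r n).1 < (r (n + 1)).1 := fun n => hn1 (r n)
  have hr2 : ∀ n, T (r (n + 1)).1 ≤ δ * d (r n).1 := fun n => hn2 (r n)
  have hr3 : ∀ n, T (r n).1 ≤ 4 * m * d (r n).1 := by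
    intro n
    cases n with
    | zero => exact hn3 _
    | succ n => exact hn3 _
  have hrmono : StrictMono fun n => (r n).1 := strictMono_nat_of_lt_succ hr1
  have hranti : Antitone fun n => d (r n).1 := by
    refine antitone_nat_of_succ_le fun n => ?_
    calc d (r (n + 1)).1 ≤ T (r (n + 1)).1 := hTd _ _ le_rfl
      _ ≤ δ * d (r n).1 := hr2 n
      _ ≤ 1 * d (r n).1 := mul_le_mul_of_nonneg_right hδle (hd0 _)
      _ = d (r n).1 := one_mul _
  -- linear dependence
  have hdep : ¬ LinearIndependent ℂ (fun i : Fin (m + 1) => a (r i).1) := by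
    intro h
    have := h.fintype_card_le_finrank
    simp at this
  rw [Fintype.not_linearIndependent_iff] at hdep
  obtain ⟨c, hc, i1, hi1⟩ := hdep
  let x : ℕ → ℝ := fun n => if h : n < m + 1 then ‖c ⟨n, h⟩‖ else 0
  have hx0 : ∀ n, 0 ≤ x n := by
    intro n
    simp only [x]
    split_ifs <;> simp
  have hxv : ∀ (i : ℕ) (h : i < m + 1), x i = ‖c ⟨i, h⟩‖ := fun i h => dif_pos h
  have hmain : ∀ j ≤ m, x j ≤ 2 * m * ∑ i ∈ Finset.range j, x i +
      δ * ∑ i ∈ Finset.range (m + 1), x i := by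
    intro j hj
    have hj' : j < m + 1 := Nat.lt_succ_of_le hj
    have h1 : ∑ i : Fin (m + 1), c i * A (r i).1 (r j).1 = 0 := by
      have h2 : ∀ k, ∑ i : Fin (m + 1), c i * a (r i).1 k = 0 := by
        intro k
        have := congrFun hc k
        simpa using this
      calc ∑ i : Fin (m + 1), c i * A (r i).1 (r j).1
          = ∑ k, (∑ i : Fin (m + 1), c i * a (r i).1 k) * b (r j).1 k := by
            simp only [hAdef, Finset.mul_sum, Finset.sum_mul]
            rw [Finset.sum_comm]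
            exact Finset.sum_congr rfl fun k _ => Finset.sum_congr rfl fun i _ => by ring
        _ = 0 := by simp [h2]
    have h3 : ‖c ⟨j, hj'⟩‖ * d (r j).1 ≤
        ∑ i ∈ (Finset.univ : Finset (Fin (m + 1))).erase ⟨j, hj'⟩, ‖c i‖ *
          ‖A (r i).1 (r j).1‖ := by
      have h4 : c ⟨j, hj'⟩ * A (r j).1 (r j).1 =
          - ∑ i ∈ (Finset.univ : Finset (Fin (m + 1))).erase ⟨j, hj'⟩,
            c i * A (r i).1 (r j).1 := by
        rw [← Finset.add_sum_erase _ _ (Finset.mem_univ (⟨j, hj'⟩ : Fin (m + 1)))] at h1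
        linear_combination h1
      have h5 : ‖c ⟨j, hj'⟩‖ * d (r j).1 = ‖c ⟨j, hj'⟩ * A (r j).1 (r j).1‖ := by
        rw [norm_mul]
      rw [h5, h4, norm_neg]
      refine (norm_sum_le _ _).trans (Finset.sum_le_sum fun i _ => ?_)
      rw [norm_mul]
    have h6 : ∑ i ∈ (Finset.univ : Finset (Fin (m + 1))).erase ⟨j, hj'⟩, ‖c i‖ *
          ‖A (r i).1 (r j).1‖ ≤
        ∑ i ∈ (Finset.univ : Finset (Fin (m + 1))).erase ⟨j, hj'⟩,
          ‖c i‖ * (((if (i : ℕ) < j then 2 * (m : ℝ) else 0) + δ) * d (r j).1) := by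
      refine Finset.sum_le_sum fun i hi => mul_le_mul_of_nonneg_left ?_ (norm_nonneg _)
      have hij : (i : ℕ) ≠ j := by
        intro e
        exact (Finset.ne_of_mem_erase hi) (Fin.ext e)
      have hne : (r i).1 ≠ (r j).1 := fun e => hij (hrmono.injective e)
      rcases lt_or_gt_of_ne hij with h | h
      · rw [if_pos h]
        have h7 := hoff (r i).1 (r j).1 (r j).1 hne (Or.inr le_rfl)
        have h8 := hr3 j
        have h9 : 0 ≤ δ * d (r j).1 := mul_nonneg hδpos.le (hd0 _)
        calc ‖A (r i).1 (r j).1‖ ≤ T (r j).1 / 2 := h7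
          _ ≤ (4 * m * d (r j).1) / 2 := by linarith
          _ ≤ (2 * m + δ) * d (r j).1 := by nlinarith
      · rw [if_neg (not_lt.2 h.le), zero_add]
        have h7 := hoff (r i).1 (r j).1 (r i).1 hne (Or.inl le_rfl)
        obtain ⟨i', hi'⟩ : ∃ i', (i : ℕ) = i' + 1 := ⟨(i : ℕ) - 1, by omega⟩
        have h8 : T (r i).1 ≤ δ * d (r i').1 := by
          have := hr2 i'
          rw [hi']
          exact this
        have h9 : d (r i').1 ≤ d (r j).1 := hranti (by omega)
        have h10 : 0 ≤ T (r i).1 := (hd0 _).trans (hTd _ _ le_rfl)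
        calc ‖A (r i).1 (r j).1‖ ≤ T (r i).1 / 2 := h7
          _ ≤ T (r i).1 := by linarith
          _ ≤ δ * d (r i').1 := h8
          _ ≤ δ * d (r j).1 := mul_le_mul_of_nonneg_left h9 hδpos.le
    have h11 : ∑ i ∈ (Finset.univ : Finset (Fin (m + 1))).erase ⟨j, hj'⟩,
          ‖c i‖ * (((if (i : ℕ) < j then 2 * (m : ℝ) else 0) + δ) * d (r j).1) ≤
        ∑ i : Fin (m + 1), ‖c i‖ * (((if (i : ℕ) < j then 2 * (m : ℝ) else 0) + δ) * d (r j).1) := by
      refine Finset.sum_le_sum_of_subset_of_nonneg (Finset.erase_subset _ _) fun i _ _ => ?_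
      refine mul_nonneg (norm_nonneg _) (mul_nonneg (add_nonneg ?_ hδpos.le) (hd0 _))
      split_ifs <;> positivity
    have h12 : ∑ i : Fin (m + 1), ‖c i‖ * (((if (i : ℕ) < j then 2 * (m : ℝ) else 0) + δ) *
          d (r j).1) =
        (2 * m * ∑ i ∈ Finset.range j, x i + δ * ∑ i ∈ Finset.range (m + 1), x i) *
          d (r j).1 := by
      have h13 : ∑ i ∈ Finset.range (m + 1), x i = ∑ i : Fin (m + 1), ‖c i‖ := by
        rw [Finset.sum_range]
        exact Finset.sum_congr rfl fun i _ => hxv i i.2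
      have h14 : ∑ i ∈ Finset.range j, x i =
          ∑ i : Fin (m + 1), (if (i : ℕ) < j then ‖c i‖ else 0) := by
        have h15 : ∑ i ∈ Finset.range j, x i =
            ∑ i ∈ Finset.range (m + 1), (if i < j then x i else 0) := by
          rw [← Finset.sum_filter]
          refine Finset.sum_congr ?_ fun _ _ => rfl
          ext i
          simp only [Finset.mem_range, Finset.mem_filter]
          omega
        rw [h15, Finset.sum_range]
        exact Finset.sum_congr rfl fun i _ => by rw [hxv i i.2]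
      rw [h13, h14, Finset.mul_sum, Finset.mul_sum, ← Finset.sum_add_distrib, Finset.sum_mul]
      refine Finset.sum_congr rfl fun i _ => ?_
      split_ifs <;> ring
    have h16 : x j * d (r j).1 ≤ (2 * m * ∑ i ∈ Finset.range j, x i +
        δ * ∑ i ∈ Finset.range (m + 1), x i) * d (r j).1 := by
      have h17 : x j = ‖c ⟨j, hj'⟩‖ := hxv j hj'
      rw [h17, ← h12]
      exact h3.trans (h6.trans h11)
    exact le_of_mul_le_mul_right h16 (hdpos _ (r j).2)
  have hzero := seq_zero m x hx0 δ hδpos hδ1 hmain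
  have := hzero i1 (Nat.lt_succ_iff.1 i1.2)
  have h18 : x i1 = ‖c i1‖ := hxv i1 i1.2
  rw [h18] at this
  exact hi1 (norm_eq_zero.1 this)

end Q90.N2
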