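import Mathlib
import Pool.Agent.Q90.N2Rank
import Pool.Agent.Q90.N2L1

/-!
# Two Banach algebra norms, part 3: the transfinite recursion

For a discontinuous linear functional `F` on `X = ℓ¹(ℕ)` we construct a family `w` of vectors of
`G = Q × X`, `Q = ℓ¹(ℕ × ℕ) × ℓ¹(Off I)`, and a linear map `h : Q → X` such that the products
`u ⋅ v = off(u ⊗ v) + ∑ u_i v_i w_i` lie on the graph of `h`, and such that `w` exhausts the ball
of radius `1 / 2` of this graph.
-/

namespace Q90.N2

open scoped BigOperators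
open L1

/-- The space `ℓ¹(ℕ)`. -/
noncomputable abbrev X := L1 ℕ
/-- Off-diagonal pairs. -/
abbrev Off (I : Type) := {p : I × I // p.1 ≠ p.2}
/-- The space `ℓ¹(I)`. -/
noncomputable abbrev P (I : Type) := L1 I
/-- The space `ℓ¹(ℕ × ℕ) × ℓ¹(Off I)`. -/
noncomputable abbrev Q (I : Type) := L1 (ℕ × ℕ) × L1 (Off I)
/-- The space `Q × X`. -/
noncomputable abbrev G (I : Type) := Q I × X

variable {I : Type}

/-- The off-diagonal part of the tensor of two elements of `ℓ¹(I)`. -/
noncomputable def off : P I →L[ℂ] P I →L[ℂ] L1 (Off I) :=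
  ((ContinuousLinearMap.compL ℂ (P I) (L1 (I × I)) (L1 (Off I))) (restr _)).comp tens

@[simp] theorem off_apply (u v : P I) (p : Off I) : off u v p = u p.1.1 * v p.1.2 := rfl

/-- The diagonal part of the product. -/
noncomputable def dg (w : I → G I) (u v : P I) : G I := ∑' i, (u i * v i) • w i

/-- The product `P × P → G`. -/
noncomputable def qw (w : I → G I) (u v : P I) : G I := ((0, off u v), 0) + dg w u v

theorem dg_summable {w : I → G I} (hw : ∀ i, ‖w i‖ ≤ 1 / 2) (u v : P I) :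
    Summable fun i => (u i * v i) • w i := by
  refine Summable.of_norm_bounded ((L1.summable u).mul_right ‖v‖) fun i => ?_
  rw [norm_smul, norm_mul]
  have h1 := norm_ap_le v i
  have h2 := hw i
  have h3 : ‖v i‖ * ‖w i‖ ≤ ‖v‖ * 1 :=
    mul_le_mul h1 (h2.trans (by norm_num)) (norm_nonneg _) (norm_nonneg _)
  calc ‖u i‖ * ‖v i‖ * ‖w i‖ = ‖u i‖ * (‖v i‖ * ‖w i‖) := by ring
    _ ≤ ‖u i‖ * (‖v‖ * 1) := mul_le_mul_of_nonneg_left h3 (norm_nonneg _)
    _ = ‖u i‖ * ‖v‖ := by ring

/-- The diagonal part as a bounded bilinear map. -/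
theorem dg_norm_le {w : I → G I} (hw : ∀ i, ‖w i‖ ≤ 1 / 2) (u v : P I) :
    ‖dg w u v‖ ≤ ‖u‖ * ‖v‖ := by
  have h : ∀ i, ‖(u i * v i) • w i‖ ≤ ‖u i‖ * ‖v‖ := by
    intro i
    rw [norm_smul, norm_mul]
    have h3 : ‖v i‖ * ‖w i‖ ≤ ‖v‖ * 1 :=
      mul_le_mul (norm_ap_le v i) ((hw i).trans (by norm_num)) (norm_nonneg _) (norm_nonneg _)
    calc ‖u i‖ * ‖v i‖ * ‖w i‖ = ‖u i‖ * (‖v i‖ * ‖w i‖) := by ring
      _ ≤ ‖u i‖ * (‖v‖ * 1) := mul_le_mul_of_nonneg_left h3 (norm_nonneg _)
      _ = ‖u i‖ * ‖v‖ := by ring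
  have h2 := tsum_of_norm_bounded ((L1.summable u).mul_right ‖v‖).hasSum h
  rw [tsum_mul_right, ← L1.norm_eq] at h2
  exact h2

theorem dg_add_left {w : I → G I} (hw : ∀ i, ‖w i‖ ≤ 1 / 2) (a b c : P I) :
    dg w (a + b) c = dg w a c + dg w b c := by
  unfold dg
  rw [← (dg_summable hw a c).tsum_add (dg_summable hw b c)]
  refine tsum_congr fun i => ?_
  rw [add_ap, ← add_smul]
  congr 1
  ring

theorem dg_add_right {w : I → G I} (hw : ∀ i, ‖w i‖ ≤ 1 / 2) (a b c : P I) :
    dg w a (b + c) = dg w a b + dg w a c := by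
  unfold dg
  rw [← (dg_summable hw a b).tsum_add (dg_summable hw a c)]
  refine tsum_congr fun i => ?_
  rw [add_ap, ← add_smul]
  congr 1
  ring

theorem dg_smul_left {w : I → G I} (hw : ∀ i, ‖w i‖ ≤ 1 / 2) (c : ℂ) (a b : P I) :
    dg w (c • a) b = c • dg w a b := by
  unfold dg
  rw [← (dg_summable hw a b).tsum_const_smul c]
  refine tsum_congr fun i => ?_
  rw [smul_ap, smul_smul]
  congr 1
  ring

theorem dg_smul_right {w : I → G I} (hw : ∀ i, ‖w i‖ ≤ 1 / 2) (c : ℂ) (a b : P I) :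
    dg w a (c • b) = c • dg w a b := by
  unfold dg
  rw [← (dg_summable hw a b).tsum_const_smul c]
  refine tsum_congr fun i => ?_
  rw [smul_ap, smul_smul]
  congr 1
  ring

theorem qw_smul_left {w : I → G I} (hw : ∀ i, ‖w i‖ ≤ 1 / 2) (c : ℂ) (a b : P I) :
    qw w (c • a) b = c • qw w a b := by
  unfold qw
  rw [dg_smul_left hw, smul_add]
  congr 1
  rw [map_smul]
  ext <;> simp

/-- The product of two unit vectors with the same index. -/
theorem qw_e_self (w : I → G I) (l : I) : qw w (e l) (e l) = w l := by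
  unfold qw dg
  have h1 : off (e l : P I) (e l) = 0 := by
    refine L1.ext fun p => ?_
    rw [off_apply]
    by_cases h : p.1.1 = l
    · have h2 : p.1.2 ≠ l := fun h3 => p.2 (h.trans h3.symm)
      rw [e_ne (j := p.1.2) h2, mul_zero]; rfl
    · rw [e_ne (j := p.1.1) h, zero_mul]; rfl
  rw [h1, tsum_eq_single l]
  · rw [e_self]; simp
  · intro j hj
    rw [e_ne hj]; simp

variable (F : X →ₗ[ℂ] ℂ)

/-- The initial subspace. -/
noncomputable def V0 (I : Type) : Submodule ℂ (G I) :=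
  Submodule.span ℂ {g | ∃ x y : X, g = ((tens x y, 0), (1 / 2 : ℂ) • (F x • y + F y • x))}

theorem V0_prop {g : G I} (hg : g ∈ V0 F I) :
    g.1.2 = 0 ∧ ∀ j, ∃ z z' : X, (∀ i, z i = g.1.1 (i, j)) ∧ (∀ i, z' i = g.1.1 (j, i)) ∧
      g.2 j = (1 / 2 : ℂ) * (F z + F z') := by
  unfold V0 at hg
  induction hg using Submodule.span_induction with
  | mem g hg =>
    obtain ⟨x, y, rfl⟩ := hg
    refine ⟨rfl, fun j => ⟨y j • x, x j • y, fun i => ?_, fun i => ?_, ?_⟩⟩
    · simp [mul_comm]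
    · simp
    · simp only [map_smul, smul_ap, add_ap, smul_eq_mul]
      ring
  | zero =>
    refine ⟨rfl, fun j => ⟨0, 0, fun i => rfl, fun i => rfl, ?_⟩⟩
    simp
  | add a b _ _ iha ihb =>
    refine ⟨by rw [Prod.fst_add, Prod.snd_add, iha.1, ihb.1, add_zero], fun j => ?_⟩
    obtain ⟨z, z', h1, h2, h3⟩ := iha.2 j
    obtain ⟨y, y', h4, h5, h6⟩ := ihb.2 j
    refine ⟨z + y, z' + y', fun i => ?_, fun i => ?_, ?_⟩
    · simp [h1, h4]
    · simp [h2, h5]
    · simp only [Prod.snd_add, add_ap, h3, h6, map_add]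
      ring
  | smul c a _ iha =>
    refine ⟨by rw [Prod.smul_fst, Prod.smul_snd, iha.1, smul_zero], fun j => ?_⟩
    obtain ⟨z, z', h1, h2, h3⟩ := iha.2 j
    refine ⟨c • z, c • z', fun i => ?_, fun i => ?_, ?_⟩
    · simp [h1]
    · simp [h2]
    · simp only [Prod.smul_snd, smul_ap, h3, map_smul, smul_eq_mul]
      ring

theorem V0_graph {x : X} (hg : ((0, x) : G I) ∈ V0 F I) : x = 0 := by
  obtain ⟨-, h⟩ := V0_prop F hg
  refine L1.ext fun j => ?_
  obtain ⟨z, z', h1, h2, h3⟩ := h j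
  have hz : z = 0 := L1.ext fun i => by rw [h1]; rfl
  have hz' : z' = 0 := L1.ext fun i => by rw [h2]; rfl
  rw [hz, hz'] at h3
  simpa using h3

variable [LinearOrder I]

/-- The subspace generated by the products of the generators below `l`. -/
noncomputable def Mlt (w : I → G I) (l : I) : Submodule ℂ (G I) :=
  V0 F I ⊔ Submodule.span ℂ {g | ∃ u v : P I, (∀ i, ¬ i < l → u i = 0) ∧
    (∀ i, ¬ i < l → v i = 0) ∧ g = qw w u v}

/-- The subspace generated by all products. -/
noncomputable def Mall (w : I → G I) : Submodule ℂ (G I) :=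
  V0 F I ⊔ Submodule.span ℂ {g | ∃ u v : P I, g = qw w u v}

theorem Mlt_le (w : I → G I) (l : I) : Mlt F w l ≤ Mall F w := by
  refine sup_le_sup_left (Submodule.span_mono ?_) _
  rintro g ⟨u, v, -, -, h⟩
  exact ⟨u, v, h⟩

variable (φ : I → G I)

/-- The vector `φ l` may be adjoined as a product. -/
def Acc (w : I → G I) (l : I) : Prop :=
  ‖φ l‖ ≤ 1 / 2 ∧ (∀ p : Off I, (φ l).1.2 p ≠ 0 → p.1.1 < l ∧ p.1.2 < l) ∧
    ∀ x : X, ((0, x) : G I) ∈ Mlt F w l ⊔ Submodule.span ℂ {φ l} → x = 0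

theorem Mlt_congr {w w' : I → G I} {l : I} (h : ∀ i < l, w i = w' i) :
    Mlt F w l = Mlt F w' l := by
  unfold Mlt
  congr 2
  ext g
  have : ∀ u v : P I, (∀ i, ¬ i < l → u i = 0) → qw w u v = qw w' u v := by
    intro u v hu
    unfold qw dg
    congr 1
    refine tsum_congr fun i => ?_
    by_cases hi : i < l
    · rw [h i hi]
    · rw [hu i hi]; simp
  constructor
  · rintro ⟨u, v, hu, hv, hg⟩
    exact ⟨u, v, hu, hv, by rw [hg, this u v hu]⟩
  · rintro ⟨u, v, hu, hv, hg⟩
    exact ⟨u, v, hu, hv, by rw [hg, this u v hu]⟩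

theorem Acc_congr {w w' : I → G I} {l : I} (h : ∀ i < l, w i = w' i) :
    Acc F φ w l ↔ Acc F φ w' l := by
  unfold Acc
  rw [Mlt_congr F h]

variable [WellFoundedLT I]

open Classical in
/-- The recursion. -/
noncomputable def wf : I → G I :=
  (wellFounded_lt (α := I)).fix (C := fun _ => G I) fun l ih =>
    if Acc F φ (fun i => if h : i < l then ih i h else 0) l then φ l else 0

open Classical in
theorem wf_eq (l : I) : wf F φ l = if Acc F φ (wf F φ) l then φ l else 0 := by
  have h : wf F φ l = if Acc F φ (fun i => if h : i < l then wf F φ i else 0) l then φ l else 0 := by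
    unfold wf
    rw [WellFounded.fix_eq]
  rw [h]
  have h2 : Acc F φ (fun i => if h : i < l then wf F φ i else 0) l ↔ Acc F φ (wf F φ) l :=
    Acc_congr F φ fun i hi => by simp [hi]
  by_cases h3 : Acc F φ (wf F φ) l
  · rw [if_pos h3, if_pos (h2.2 h3)]
  · rw [if_neg h3, if_neg (fun h4 => h3 (h2.1 h4))]

theorem wf_norm (l : I) : ‖wf F φ l‖ ≤ 1 / 2 := by
  rw [wf_eq]
  split_ifs with h
  · exact h.1
  · simp

theorem wf_supp (l : I) (p : Off I) (hp : (wf F φ l).1.2 p ≠ 0) : p.1.1 < l ∧ p.1.2 < l := by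
  rw [wf_eq] at hp
  split_ifs at hp with h
  · exact h.2.1 p hp
  · exact absurd rfl hp

/-- The coordinate functionals of `G`. -/
noncomputable def gc (p : Off I) : G I →L[ℂ] ℂ :=
  (coord p).comp ((ContinuousLinearMap.snd ℂ _ _).comp (ContinuousLinearMap.fst ℂ _ _))

omit [LinearOrder I] [WellFoundedLT I] in
@[simp] theorem gc_apply (p : Off I) (g : G I) : gc p g = g.1.2 p := rfl

/-- Cutting an element of `ℓ¹(I)`. -/
noncomputable def cut (l : I) (u : P I) : P I :=
  L1.mk (fun i => if i < l then u i else 0) (by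
    refine Summable.of_nonneg_of_le (fun _ => norm_nonneg _) (fun i => ?_) (L1.summable u)
    split_ifs
    · exact le_rfl
    · simp)

omit [WellFoundedLT I] in
theorem cut_apply (l : I) (u : P I) (i : I) : cut l u i = if i < l then u i else 0 := rfl

omit [LinearOrder I] [WellFoundedLT I] in
theorem sum_qw {w : I → G I} (hw : ∀ i, ‖w i‖ ≤ 1 / 2) {m : ℕ} (u v : Fin m → P I) :
    ∑ k, qw w (u k) (v k) = ((0, ∑ k, off (u k) (v k)), 0) +
      ∑' i, (∑ k, u k i * v k i) • w i := by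
  unfold qw
  rw [Finset.sum_add_distrib]
  congr 1
  · ext : 1
    · ext : 1
      · simp [Prod.fst_sum]
      · simp [Prod.fst_sum, Prod.snd_sum]
    · simp [Prod.snd_sum]
  · unfold dg
    rw [← Summable.tsum_finsetSum (fun k _ => dg_summable hw (u k) (v k))]
    refine tsum_congr fun i => ?_
    rw [Finset.sum_smul]

omit [LinearOrder I] [WellFoundedLT I] in
theorem summable_D {w : I → G I} (hw : ∀ i, ‖w i‖ ≤ 1 / 2) {m : ℕ} (u v : Fin m → P I) :
    Summable fun i => (∑ k, u k i * v k i) • w i := by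
  have := summable_sum (s := Finset.univ) (fun (k : Fin m) _ => dg_summable hw (u k) (v k))
  refine this.congr fun i => ?_
  rw [Finset.sum_smul]

omit [LinearOrder I] [WellFoundedLT I] in
theorem summable_Dn {m : ℕ} (u v : Fin m → P I) :
    Summable fun i => ‖∑ k, u k i * v k i‖ := by
  have h : Summable fun i => ∑ k, ‖u k i‖ * ‖v k‖ :=
    summable_sum fun k _ => (L1.summable (u k)).mul_right _
  refine Summable.of_nonneg_of_le (fun _ => norm_nonneg _) (fun i => ?_) h
  refine (norm_sum_le _ _).trans (Finset.sum_le_sum fun k _ => ?_)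
  rw [norm_mul]
  exact mul_le_mul_of_nonneg_left (norm_ap_le _ _) (norm_nonneg _)

/-- The key lemma: a relation reduces to a smaller one. -/
theorem key {m : ℕ} (u v : Fin m → P I) {v0 : G I} (hv0 : v0 ∈ V0 F I) {x0 : X}
    (h : ((0, x0) : G I) = v0 + ∑ k, qw (wf F φ) (u k) (v k)) :
    x0 = 0 ∨ ∃ l, (∑ k, u k l * v k l) ≠ 0 ∧
      ((0, x0) : G I) ∈ Mlt F (wf F φ) l ⊔ Submodule.span ℂ {wf F φ l} := by
  classical
  set w := wf F φ with hwdef
  have hw : ∀ i, ‖w i‖ ≤ 1 / 2 := wf_norm F φ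
  have hws : ∀ l (p : Off I), (w l).1.2 p ≠ 0 → p.1.1 < l ∧ p.1.2 < l := wf_supp F φ
  -- the coordinates
  have hco : ∀ p : Off I, ∑ k, u k p.1.1 * v k p.1.2 =
      - ∑' l, (∑ k, u k l * v k l) * (w l).1.2 p := by
    intro p
    have h1 := congrArg (gc p) h
    rw [sum_qw hw, map_add, map_add, (gc p).map_tsum (summable_D hw u v)] at h1
    have h2 : gc p ((0, x0) : G I) = 0 := rfl
    have h3 : gc p v0 = 0 := by
      rw [gc_apply, (V0_prop F hv0).1]; rfl
    have h4 : gc p ((0, ∑ k, off (u k) (v k)), (0 : X)) = ∑ k, u k p.1.1 * v k p.1.2 := by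
      rw [gc_apply]
      change (∑ k, off (u k) (v k) : L1 (Off I)) p = _
      rw [L1.sum_ap]
      rfl
    have h5 : ∀ l, gc p ((∑ k, u k l * v k l) • w l) = (∑ k, u k l * v k l) * (w l).1.2 p :=
      fun l => by rw [map_smul]; rfl
    rw [h2, h3, h4] at h1
    simp only [h5] at h1
    linear_combination -h1
  -- the majorant
  set ω : I → I → I → ℝ := fun l i j => if h : i ≠ j then ‖(w l).1.2 ⟨(i, j), h⟩‖ else 0 with hω
  have hω0 : ∀ l i j, 0 ≤ ω l i j := by
    intro l i j
    simp only [hω]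
    split_ifs <;> simp
  have hωs : ∀ l i j, ω l i j ≠ 0 → i < l ∧ j < l := by
    intro l i j h1
    simp only [hω] at h1
    split_ifs at h1 with h2
    · exact hws l ⟨(i, j), h2⟩ (norm_ne_zero_iff.1 h1)
    · exact absurd rfl h1
  have hω1 : ∀ l (s : Finset (I × I)), ∑ p ∈ s, ω l p.1 p.2 ≤ 1 / 2 := by
    intro l s
    have h1 : ∑ p ∈ s, ω l p.1 p.2 = ∑ p ∈ s.filter (fun p => p.1 ≠ p.2), ω l p.1 p.2 := by
      rw [Finset.sum_filter]
      refine Finset.sum_congr rfl fun p _ => ?_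
      by_cases h2 : p.1 ≠ p.2
      · rw [if_pos h2]
      · rw [if_neg h2]
        simp [hω, h2]
    rw [h1, ← Finset.sum_subtype_eq_sum_filter]
    have h2 : ∀ p : {p : I × I // p.1 ≠ p.2}, ω l p.1.1 p.1.2 = ‖(w l).1.2 p‖ := by
      intro p
      simp only [hω]
      rw [dif_pos p.2]
    simp only [h2]
    calc ∑ p ∈ s.subtype (fun p => p.1 ≠ p.2), ‖(w l).1.2 p‖ ≤ ∑' p, ‖(w l).1.2 p‖ :=
          (L1.summable (w l).1.2).sum_le_tsum _ (fun _ _ => norm_nonneg _)
      _ = ‖(w l).1.2‖ := (L1.norm_eq _).symm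
      _ ≤ ‖(w l).1‖ := norm_snd_le _
      _ ≤ ‖w l‖ := norm_fst_le _
      _ ≤ 1 / 2 := hw l
  have hωle : ∀ l i j, ω l i j ≤ 1 := by
    intro l i j
    have := hω1 l {(i, j)}
    simp only [Finset.sum_singleton] at this
    linarith
  have hA : ∀ i j, i ≠ j → ‖∑ k, u k i * v k j‖ ≤
      ∑' l, ‖∑ k, u k l * v k l‖ * ω l i j := by
    intro i j hij
    rw [hco ⟨(i, j), hij⟩, norm_neg]
    have h1 : ∀ l, ‖∑ k, u k l * v k l‖ * ω l i j =
        ‖(∑ k, u k l * v k l) * (w l).1.2 ⟨(i, j), hij⟩‖ := by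
      intro l
      rw [norm_mul]
      simp only [hω]
      rw [dif_pos hij]
    simp only [h1]
    refine norm_tsum_le_tsum_norm ?_
    refine Summable.of_nonneg_of_le (fun _ => norm_nonneg _) (fun l => ?_) (summable_Dn u v)
    rw [← h1]
    calc ‖∑ k, u k l * v k l‖ * ω l i j ≤ ‖∑ k, u k l * v k l‖ * 1 :=
          mul_le_mul_of_nonneg_left (hωle l i j) (norm_nonneg _)
      _ = _ := mul_one _
  rcases rank_lemma m (fun i k => u k i) (fun i k => v k i) ω hω0 hωs hω1
    (summable_Dn u v) hA with h1 | ⟨l0, h1, h2⟩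
  · left
    have h3 : ∀ p : Off I, ∑ k, u k p.1.1 * v k p.1.2 = 0 := by
      intro p
      rw [hco p]
      simp [h1]
    have h4 : ∑ k, qw w (u k) (v k) = 0 := by
      rw [sum_qw hw]
      have h5 : ∑ k, off (u k) (v k) = 0 := by
        refine L1.ext fun p => ?_
        rw [L1.sum_ap]
        simpa using h3 p
      rw [h5]
      simp [h1]
    rw [h4, add_zero] at h
    rw [← h] at hv0
    exact V0_graph F hv0
  · right
    refine ⟨l0, h1, ?_⟩
    have h3 : ∀ p : Off I, ¬ (p.1.1 < l0 ∧ p.1.2 < l0) → ∑ k, u k p.1.1 * v k p.1.2 = 0 := by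
      intro p hp
      rw [hco p]
      have : ∀ l, (∑ k, u k l * v k l) * (w l).1.2 p = 0 := by
        intro l
        by_cases h4 : (w l).1.2 p = 0
        · rw [h4, mul_zero]
        · have h5 := hws l p h4
          have h6 : l0 < l := by
            by_contra h7
            rw [not_lt] at h7
            exact hp ⟨h5.1.trans_le h7, h5.2.trans_le h7⟩
          rw [h2 l h6, zero_mul]
      simp [this]
    have h4 : ∑ k, qw w (u k) (v k) = ∑ k, qw w (cut l0 (u k)) (cut l0 (v k)) +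
        (∑ k, u k l0 * v k l0) • w l0 := by
      rw [sum_qw hw, sum_qw hw, add_assoc]
      congr 1
      · congr 2
        refine L1.ext fun p => ?_
        rw [L1.sum_ap, L1.sum_ap]
        simp only [off_apply, cut_apply]
        by_cases h5 : p.1.1 < l0 ∧ p.1.2 < l0
        · simp [h5.1, h5.2]
        · rw [h3 p h5]
          symm
          refine Finset.sum_eq_zero fun k _ => ?_
          by_cases h6 : p.1.1 < l0
          · have h7 : ¬ p.1.2 < l0 := fun h7 => h5 ⟨h6, h7⟩
            simp [h7]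
          · simp [h6]
      · have h5 : HasSum (fun i => if i = l0 then (∑ k, u k l0 * v k l0) • w l0 else 0)
            ((∑ k, u k l0 * v k l0) • w l0) := by
          exact hasSum_ite_eq l0 _
        rw [← h5.tsum_eq, ← (summable_D hw (fun k => cut l0 (u k))
          (fun k => cut l0 (v k))).tsum_add h5.summable]
        refine tsum_congr fun i => ?_
        rcases lt_trichotomy i l0 with h6 | h6 | h6
        · simp [cut_apply, h6, h6.ne]
        · subst h6
          simp [cut_apply]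
        · rw [h2 i h6]
          simp [cut_apply, not_lt.2 h6.le, h6.ne']
    rw [h, h4, ← add_assoc]
    refine Submodule.add_mem_sup (Submodule.add_mem_sup hv0 ?_)
      (Submodule.smul_mem _ _ (Submodule.mem_span_singleton_self _))
    refine Submodule.sum_mem _ fun k _ => Submodule.subset_span ⟨cut l0 (u k), cut l0 (v k),
      fun i hi => ?_, fun i hi => ?_, rfl⟩
    · rw [cut_apply, if_neg hi]
    · rw [cut_apply, if_neg hi]

theorem Mlt_graph (l : I) : ∀ x0 : X, ((0, x0) : G I) ∈ Mlt F (wf F φ) l → x0 = 0 := by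
  induction l using WellFoundedLT.induction with
  | ind l ih =>
    intro x0 hx0
    obtain ⟨v0, hv0, s, hs, hsum⟩ := Submodule.mem_sup.1 hx0
    obtain ⟨m, c, g, hg⟩ := Submodule.mem_span_set'.1 hs
    choose u v hu hv hq using fun k => (g k).2
    have h1 : ((0, x0) : G I) = v0 + ∑ k, qw (wf F φ) (c k • u k) (v k) := by
      rw [← hsum, ← hg]
      congr 1
      refine Finset.sum_congr rfl fun k _ => ?_
      rw [qw_smul_left (wf_norm F φ), hq k]
    rcases key F φ _ _ hv0 h1 with h2 | ⟨l', h2, h3⟩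
    · exact h2
    · have h4 : l' < l := by
        by_contra h5
        apply h2
        refine Finset.sum_eq_zero fun k _ => ?_
        rw [smul_ap, hu k l' h5]
        simp
      by_cases h5 : Acc F φ (wf F φ) l'
      · have h6 : wf F φ l' = φ l' := by rw [wf_eq, if_pos h5]
        rw [h6] at h3
        exact h5.2.2 x0 h3
      · have h6 : wf F φ l' = 0 := by rw [wf_eq, if_neg h5]
        rw [h6, Submodule.span_zero_singleton, sup_bot_eq] at h3
        exact ih l' h4 x0 h3

theorem Mall_graph : ∀ x0 : X, ((0, x0) : G I) ∈ Mall F (wf F φ) → x0 = 0 := by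
  intro x0 hx0
  obtain ⟨v0, hv0, s, hs, hsum⟩ := Submodule.mem_sup.1 hx0
  obtain ⟨m, c, g, hg⟩ := Submodule.mem_span_set'.1 hs
  choose u v hq using fun k => (g k).2
  have h1 : ((0, x0) : G I) = v0 + ∑ k, qw (wf F φ) (c k • u k) (v k) := by
    rw [← hsum, ← hg]
    congr 1
    refine Finset.sum_congr rfl fun k _ => ?_
    rw [qw_smul_left (wf_norm F φ), hq k]
  rcases key F φ _ _ hv0 h1 with h2 | ⟨l', h2, h3⟩
  · exact h2
  · by_cases h5 : Acc F φ (wf F φ) l'
    · have h6 : wf F φ l' = φ l' := by rw [wf_eq, if_pos h5]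
      rw [h6] at h3
      exact h5.2.2 x0 h3
    · have h6 : wf F φ l' = 0 := by rw [wf_eq, if_neg h5]
      rw [h6, Submodule.span_zero_singleton, sup_bot_eq] at h3
      exact Mlt_graph F φ l' x0 h3

end Q90.N2
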