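import Mathlib
import Pool.Agent.Q90.N2Rec

/-!
# Two Banach algebra norms, part 4: the graph map
-/

namespace Q90.N2

open scoped BigOperators
open L1

variable {I : Type} [LinearOrder I] [WellFoundedLT I] (F : X →ₗ[ℂ] ℂ) (φ : I → G I)

theorem accepted (hφ : ∀ (g : G I) (S : Set I), S.Countable → ∃ l, φ l = g ∧ ∀ s ∈ S, s < l)
    (g : G I) (hg : ‖g‖ ≤ 1 / 2)
    (h : ∀ x : X, ((0, x) : G I) ∈ Mall F (wf F φ) ⊔ Submodule.span ℂ {g} → x = 0) :
    ∃ l, wf F φ l = g := by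
  set S : Set I := (fun p : Off I => p.1.1) '' {p | g.1.2 p ≠ 0} ∪
    (fun p : Off I => p.1.2) '' {p | g.1.2 p ≠ 0} with hS
  have hc : {p : Off I | g.1.2 p ≠ 0}.Countable := by
    have h1 := (L1.summable g.1.2).countable_support
    refine h1.mono fun p hp => ?_
    simpa using hp
  obtain ⟨l, hl1, hl2⟩ := hφ g S ((hc.image _).union (hc.image _))
  refine ⟨l, ?_⟩
  rw [wf_eq, if_pos, hl1]
  refine ⟨by rw [hl1]; exact hg, fun p hp => ?_, fun x hx => ?_⟩
  · rw [hl1] at hp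
    exact ⟨hl2 _ (Or.inl ⟨p, hp, rfl⟩), hl2 _ (Or.inr ⟨p, hp, rfl⟩)⟩
  · rw [hl1] at hx
    exact h x (sup_le_sup_right (Mlt_le F _ l) _ hx)

theorem wf_mem (l : I) : wf F φ l ∈ Mall F (wf F φ) := by
  refine Submodule.mem_sup_right (Submodule.subset_span ⟨e l, e l, ?_⟩)
  rw [qw_e_self]

theorem mem_or (hφ : ∀ (g : G I) (S : Set I), S.Countable → ∃ l, φ l = g ∧ ∀ s ∈ S, s < l)
    (g : G I) : ∃ x : X, g - (0, x) ∈ Mall F (wf F φ) := by
  -- reduction to small vectors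
  have hsmall : ∀ g : G I, ‖g‖ ≤ 1 / 2 → ∃ x : X, g - (0, x) ∈ Mall F (wf F φ) := by
    intro g hg
    by_cases h : ∀ x : X, ((0, x) : G I) ∈ Mall F (wf F φ) ⊔ Submodule.span ℂ {g} → x = 0
    · obtain ⟨l, hl⟩ := accepted F φ hφ g hg h
      refine ⟨0, ?_⟩
      rw [← hl, show ((0 : Q I), (0 : X)) = (0 : G I) from rfl, sub_zero]
      exact wf_mem F φ l
    · push Not at h
      obtain ⟨x, hx, hx0⟩ := h
      obtain ⟨a, ha, b, hb, hab⟩ := Submodule.mem_sup.1 hx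
      obtain ⟨c, rfl⟩ := Submodule.mem_span_singleton.1 hb
      have hc : c ≠ 0 := by
        rintro rfl
        rw [zero_smul, add_zero] at hab
        rw [hab] at ha
        exact hx0 (Mall_graph F φ x ha)
      refine ⟨c⁻¹ • x, ?_⟩
      have h1 : g - ((0 : Q I), c⁻¹ • x) = -(c⁻¹ • a) := by
        have h2 : c • g = (0, x) - a := by rw [← hab]; abel
        have h3 : g = c⁻¹ • ((0, x) - a) := by rw [← h2, smul_smul, inv_mul_cancel₀ hc, one_smul]
        rw [h3, smul_sub]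
        have h4 : c⁻¹ • ((0 : Q I), x) = ((0 : Q I), c⁻¹ • x) := by
          rw [Prod.smul_mk, smul_zero]
        rw [h4]
        abel
      rw [h1]
      exact Submodule.neg_mem _ (Submodule.smul_mem _ _ ha)
  by_cases hg : g = 0
  · refine ⟨0, ?_⟩
    rw [hg, show ((0 : Q I), (0 : X)) = (0 : G I) from rfl, sub_zero]
    exact Submodule.zero_mem _
  · have hn : 0 < ‖g‖ := norm_pos_iff.2 hg
    obtain ⟨x, hx⟩ := hsmall (((1 / (2 * ‖g‖) : ℝ) : ℂ) • g) (by
      rw [norm_smul, Complex.norm_real, Real.norm_of_nonneg (by positivity)]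
      rw [show 1 / (2 * ‖g‖) * ‖g‖ = 1 / 2 by field_simp])
    have hc : ((1 / (2 * ‖g‖) : ℝ) : ℂ) ≠ 0 := by
      rw [Complex.ofReal_ne_zero]; positivity
    refine ⟨((1 / (2 * ‖g‖) : ℝ) : ℂ)⁻¹ • x, ?_⟩
    have h1 := Submodule.smul_mem _ (((1 / (2 * ‖g‖) : ℝ) : ℂ)⁻¹) hx
    rw [smul_sub, smul_smul, inv_mul_cancel₀ hc, one_smul, Prod.smul_mk, smul_zero] at h1
    exact h1

/-- **The graph theorem.** -/
theorem exists_graph
    (hφ : ∀ (g : G I) (S : Set I), S.Countable → ∃ l, φ l = g ∧ ∀ s ∈ S, s < l) :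
    ∃ (w : I → G I) (h : Q I →ₗ[ℂ] X), (∀ l, ‖w l‖ ≤ 1 / 2) ∧
      (∀ l (p : Off I), (w l).1.2 p ≠ 0 → p.1.1 < l ∧ p.1.2 < l) ∧
      (∀ u v : P I, (qw w u v).2 = h (qw w u v).1) ∧
      (∀ x y : X, h (tens x y, 0) = (1 / 2 : ℂ) • (F x • y + F y • x)) ∧
      (∀ q : Q I, ‖((q, h q) : G I)‖ ≤ 1 / 2 → ∃ l, w l = (q, h q)) := by
  set M := Mall F (wf F φ) with hM
  have hex : ∀ q : Q I, ∃ x : X, ((q, x) : G I) ∈ M := by
    intro q
    obtain ⟨x, hx⟩ := mem_or F φ hφ (q, 0)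
    refine ⟨-x, ?_⟩
    have : ((q, -x) : G I) = (q, 0) - (0, x) := by
      rw [Prod.mk_sub_mk, sub_zero, zero_sub]
    rw [this]
    exact hx
  have huniq : ∀ (q : Q I) (x y : X), ((q, x) : G I) ∈ M → ((q, y) : G I) ∈ M → x = y := by
    intro q x y hx hy
    have h1 := M.sub_mem hx hy
    rw [Prod.mk_sub_mk, sub_self] at h1
    exact sub_eq_zero.1 (Mall_graph F φ _ h1)
  choose f hf using hex
  let h : Q I →ₗ[ℂ] X :=
    { toFun := f
      map_add' := fun a b => huniq (a + b) _ _ (hf _) (by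
        have := M.add_mem (hf a) (hf b)
        rwa [Prod.mk_add_mk] at this)
      map_smul' := fun c a => huniq (c • a) _ _ (hf _) (by
        have := M.smul_mem c (hf a)
        rwa [Prod.smul_mk] at this) }
  have hh : ∀ g : G I, g ∈ M → g.2 = h g.1 := fun g hg => huniq g.1 _ _ hg (hf g.1)
  refine ⟨wf F φ, h, wf_norm F φ, wf_supp F φ, fun u v => hh _ ?_, fun x y => ?_, fun q hq => ?_⟩
  · exact Submodule.mem_sup_right (Submodule.subset_span ⟨u, v, rfl⟩)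
  · refine (hh ((tens x y, 0), (1 / 2 : ℂ) • (F x • y + F y • x)) ?_).symm
    exact Submodule.mem_sup_left (Submodule.subset_span ⟨x, y, rfl⟩)
  · refine accepted F φ hφ _ hq fun x hx => ?_
    refine Mall_graph F φ x ?_
    have : Mall F (wf F φ) ⊔ Submodule.span ℂ {((q, h q) : G I)} ≤ Mall F (wf F φ) :=
      sup_le le_rfl ((Submodule.span_singleton_le_iff_mem _ _).2 (hf q))
    exact this hx

end Q90.N2
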