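import Mathlib
import Pool.Agent.Q90.N2Graph

/-!
# Two Banach algebra norms, part 5: the index set and the discontinuous functional
-/

namespace Q90.N2

open scoped BigOperators Cardinal
open L1 Cardinal

/-- The first uncountable ordinal, as a type. -/
abbrev K1 : Type := (ℵ₁ : Cardinal.{0}).ord.ToType
/-- The initial ordinal of the continuum, as a type. -/
abbrev K2 : Type := (𝔠 : Cardinal.{0}).ord.ToType
/-- The index set. -/
abbrev Idx : Type := K1 ×ₗ K2

theorem K1_bound (S : Set K1) (hS : S.Countable) : ∃ α : K1, ∀ s ∈ S, s < α := by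
  by_contra hcon
  push Not at hcon
  have h1 : (Set.univ : Set K1) ⊆ ⋃ s ∈ S, Set.Iic s := by
    intro α _
    obtain ⟨s, hs, h⟩ := hcon α
    exact Set.mem_biUnion hs h
  have h2 : ∀ s : K1, (Set.Iic s).Countable := by
    intro s
    have h3 : (Set.Iio s).Countable := by
      rw [← Cardinal.le_aleph0_iff_set_countable, ← Order.lt_succ_iff, Cardinal.succ_aleph0]
      have := Cardinal.mk_Iio_lt s (by simp)
      simpa using this
    rw [← Set.Iio_insert]
    exact h3.insert s
  have h4 : (Set.univ : Set K1).Countable := (hS.biUnion fun s _ => h2 s).mono h1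
  rw [← Cardinal.le_aleph0_iff_set_countable, ← Order.lt_succ_iff, Cardinal.succ_aleph0] at h4
  simp at h4

theorem mk_L1_le {S : Type} (hS : #S ≤ 𝔠) : #(L1 S) ≤ 𝔠 := by
  rcases isEmpty_or_nonempty S with h | ⟨⟨s0⟩⟩
  · have : Subsingleton (L1 S) := ⟨fun a b => L1.ext fun i => (h.false i).elim⟩
    exact (Cardinal.le_one_iff_subsingleton.2 this).trans (Cardinal.one_le_aleph0.trans
        Cardinal.aleph0_le_continuum)
  · have hex : ∀ f : L1 S, ∃ s : ℕ → S, ∀ i, f i ≠ 0 → ∃ n, s n = i := by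
      intro f
      have h1 : {i | f i ≠ 0}.Countable := by
        refine (L1.summable f).countable_support.mono fun p hp => ?_
        simpa using hp
      rcases Set.eq_empty_or_nonempty {i | f i ≠ 0} with h2 | h2
      · refine ⟨fun _ => s0, fun i hi => ?_⟩
        have : i ∈ {i | f i ≠ 0} := hi
        rw [h2] at this
        exact absurd this (Set.notMem_empty i)
      · obtain ⟨s, hs⟩ := h1.exists_eq_range h2
        refine ⟨s, fun i hi => ?_⟩
        have : i ∈ Set.range s := by rw [← hs]; exact hi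
        exact this
    choose s hs using hex
    have hinj : Function.Injective (fun f : L1 S => fun n : ℕ => (s f n, f (s f n))) := by
      intro f g hfg
      have h1 : ∀ n, s f n = s g n := fun n => congrArg Prod.fst (congrFun hfg n)
      have h2 : ∀ n, f (s f n) = g (s g n) := fun n => congrArg Prod.snd (congrFun hfg n)
      refine L1.ext fun i => ?_
      by_cases hf : f i = 0
      · by_cases hg : g i = 0
        · rw [hf, hg]
        · obtain ⟨n, hn⟩ := hs g i hg
          have := h2 n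
          rw [h1 n, hn] at this
          exact this
      · obtain ⟨n, hn⟩ := hs f i hf
        have := h2 n
        rw [← h1 n, hn] at this
        exact this
    calc #(L1 S) ≤ #(ℕ → S × ℂ) := Cardinal.mk_le_of_injective hinj
      _ = #(S × ℂ) ^ ℵ₀ := by simp
      _ ≤ 𝔠 ^ ℵ₀ := by
          refine Cardinal.power_le_power_right ?_
          rw [Cardinal.mk_prod, Cardinal.lift_id, Cardinal.lift_id, Cardinal.mk_complex]
          calc #S * 𝔠 ≤ 𝔠 * 𝔠 := mul_le_mul_left hS _
            _ = 𝔠 := Cardinal.continuum_mul_self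
      _ = 𝔠 := Cardinal.continuum_power_aleph0

theorem mk_Idx : #Idx ≤ 𝔠 := by
  have h : #Idx = #K1 * #K2 := by
    have : #Idx = #(K1 × K2) := Cardinal.mk_congr ofLex
    rw [this, Cardinal.mk_prod, Cardinal.lift_id, Cardinal.lift_id]
  rw [h]
  have h1 : #K1 = ℵ₁ := Cardinal.mk_ord_toType _
  have h2 : #K2 = 𝔠 := Cardinal.mk_ord_toType _
  rw [h1, h2]
  calc ℵ₁ * 𝔠 ≤ 𝔠 * 𝔠 := mul_le_mul_left Cardinal.aleph_one_le_continuum _
    _ = 𝔠 := Cardinal.continuum_mul_self

theorem mk_G : #(G Idx) ≤ 𝔠 := by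
  have h1 : #(L1 (ℕ × ℕ)) ≤ 𝔠 := mk_L1_le (by
    rw [Cardinal.mk_prod]
    simp [Cardinal.aleph0_le_continuum])
  have h2 : #(L1 (Off Idx)) ≤ 𝔠 := mk_L1_le (by
    calc #(Off Idx) ≤ #(Idx × Idx) := Cardinal.mk_subtype_le _
      _ = #Idx * #Idx := by rw [Cardinal.mk_prod, Cardinal.lift_id]
      _ ≤ 𝔠 * 𝔠 := mul_le_mul' mk_Idx mk_Idx
      _ = 𝔠 := Cardinal.continuum_mul_self)
  have h3 : #X ≤ 𝔠 := mk_L1_le (by simp [Cardinal.aleph0_le_continuum])
  have h4 : #(Q Idx) ≤ 𝔠 := by
    rw [Cardinal.mk_prod, Cardinal.lift_id, Cardinal.lift_id]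
    exact (mul_le_mul' h1 h2).trans_eq Cardinal.continuum_mul_self
  rw [Cardinal.mk_prod, Cardinal.lift_id, Cardinal.lift_id]
  exact (mul_le_mul' h4 h3).trans_eq Cardinal.continuum_mul_self

/-- The bookkeeping function. -/
theorem exists_book : ∃ φ : Idx → G Idx,
    ∀ (g : G Idx) (S : Set Idx), S.Countable → ∃ l, φ l = g ∧ ∀ s ∈ S, s < l := by
  have h : #(G Idx) ≤ #K2 := mk_G.trans_eq (Cardinal.mk_ord_toType _).symm
  obtain ⟨ι⟩ := (Cardinal.le_def _ _).1 h
  refine ⟨fun l => Function.invFun ι (ofLex l).2, fun g S hS => ?_⟩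
  obtain ⟨α, hα⟩ := K1_bound ((fun s : Idx => (ofLex s).1) '' S) (hS.image _)
  refine ⟨toLex (α, ι g), ?_, fun s hs => ?_⟩
  · exact Function.leftInverse_invFun ι.injective g
  · have h1 : (ofLex s).1 < α := hα _ ⟨s, hs, rfl⟩
    rw [Prod.Lex.lt_iff]
    exact Or.inl h1

/-- A discontinuous functional on `ℓ¹(ℕ)`. -/
theorem exists_wild : ∃ F : X →ₗ[ℂ] ℂ, ∀ n : ℕ, F (e n) = n := by
  have hli : LinearIndependent ℂ (fun n : ℕ => (e n : X)) := by
    rw [linearIndependent_iff']
    intro s g hg i hi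
    have h1 := congrArg (fun f : X => f i) hg
    simp only [L1.sum_ap, smul_ap] at h1
    rw [Finset.sum_eq_single i] at h1
    · simpa [e_self] using h1
    · intro j _ hj
      rw [e_ne (Ne.symm hj), mul_zero]
    · exact fun h => absurd hi h
  obtain ⟨F, hF⟩ := LinearMap.exists_extend
    ((Module.Basis.span hli).constr ℂ (fun n : ℕ => (n : ℂ)))
  refine ⟨F, fun n => ?_⟩
  have h1 := LinearMap.congr_fun hF ((Module.Basis.span hli) n)
  rw [Module.Basis.constr_basis, LinearMap.comp_apply, Submodule.subtype_apply,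
    Module.Basis.span_apply] at h1
  exact h1

end Q90.N2
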