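import Mathlib
import Pool.Agent.Q90.N2Index

/-!
# Two Banach algebra norms, part 6: the algebra
-/

namespace Q90.N2

open scoped BigOperators
open L1

/-- The output of the recursion. -/
structure Dat where
  /-- the discontinuous functional -/
  F : X →ₗ[ℂ] ℂ
  /-- the products of the generators -/
  w : Idx → G Idx
  /-- the graph map -/
  h : Q Idx →ₗ[ℂ] X
  hF : ∀ n : ℕ, F (e n) = n
  hw : ∀ l, ‖w l‖ ≤ 1 / 2
  hs : ∀ l (p : Off Idx), (w l).1.2 p ≠ 0 → p.1.1 < l ∧ p.1.2 < l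
  hq : ∀ u v : P Idx, (qw w u v).2 = h (qw w u v).1
  ht : ∀ x y : X, h (tens x y, 0) = (1 / 2 : ℂ) • (F x • y + F y • x)
  hb : ∀ q : Q Idx, ‖((q, h q) : G Idx)‖ ≤ 1 / 2 → ∃ l, w l = (q, h q)

theorem exists_dat : Nonempty Dat := by
  obtain ⟨F, hF⟩ := exists_wild
  obtain ⟨φ, hφ⟩ := exists_book
  obtain ⟨w, h, h1, h2, h3, h4, h5⟩ := exists_graph F φ hφ
  exact ⟨⟨F, w, h, hF, h1, h2, h3, h4, h5⟩⟩

/-- `X × P`. -/
noncomputable abbrev Xh := X × P Idx
/-- `X × P × ℂ`. -/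
noncomputable abbrev Y := Xh × ℂ
/-- `Q × X × ℂ`. -/
noncomputable abbrev V := G Idx × ℂ
/-- functionals on `X × P` -/
noncomputable abbrev D2 := Xh →L[ℂ] ℂ
/-- functionals on `Q` -/
noncomputable abbrev D3 := Q Idx →L[ℂ] ℂ

variable (D : Dat)

/-- The product `(X × P) × (X × P) → G`. -/
noncomputable def tauF (x y : Xh) : G Idx := ((tens x.1 y.1, 0), 0) + qw D.w x.2 y.2

theorem tauF_add_left (a b c : Xh) : tauF D (a + b) c = tauF D a c + tauF D b c := by
  unfold tauF qw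
  rw [Prod.snd_add, Prod.fst_add, dg_add_left D.hw, map_add, map_add]
  simp only [add_apply]
  have h1 : (((tens a.1 c.1 + tens b.1 c.1 : L1 (ℕ × ℕ)), (0 : L1 (Off Idx))), (0 : X)) =
    (((tens a.1 c.1 : L1 (ℕ × ℕ)), 0), 0) + ((tens b.1 c.1, 0), 0) := by
      ext <;> simp
  have h2 : (((0 : L1 (ℕ × ℕ)), (off a.2 c.2 + off b.2 c.2 : L1 (Off Idx))), (0 : X)) =
    ((0, off a.2 c.2), 0) + ((0, off b.2 c.2), 0) := by
      ext <;> simp
  rw [h1, h2]
  abel

theorem tauF_add_right (a b c : Xh) : tauF D a (b + c) = tauF D a b + tauF D a c := by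
  unfold tauF qw
  rw [Prod.snd_add, Prod.fst_add, dg_add_right D.hw, map_add, map_add]
  have h1 : (((tens a.1 b.1 + tens a.1 c.1 : L1 (ℕ × ℕ)), (0 : L1 (Off Idx))), (0 : X)) =
    (((tens a.1 b.1 : L1 (ℕ × ℕ)), 0), 0) + ((tens a.1 c.1, 0), 0) := by
      ext <;> simp
  have h2 : (((0 : L1 (ℕ × ℕ)), (off a.2 b.2 + off a.2 c.2 : L1 (Off Idx))), (0 : X)) =
    ((0, off a.2 b.2), 0) + ((0, off a.2 c.2), 0) := by
      ext <;> simp
  rw [h1, h2]
  abel

theorem tauF_smul_left (c : ℂ) (a b : Xh) : tauF D (c • a) b = c • tauF D a b := by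
  unfold tauF qw
  rw [Prod.smul_snd, Prod.smul_fst, dg_smul_left D.hw, map_smul, map_smul]
  simp only [smul_apply, smul_add, Prod.smul_mk, smul_zero]

theorem tauF_smul_right (c : ℂ) (a b : Xh) : tauF D a (c • b) = c • tauF D a b := by
  unfold tauF qw
  rw [Prod.smul_snd, Prod.smul_fst, dg_smul_right D.hw, map_smul, map_smul]
  simp only [smul_add, Prod.smul_mk, smul_zero]

theorem norm_off_le (u v : P Idx) : ‖off u v‖ ≤ ‖u‖ * ‖v‖ := by
  rw [← L1.norm_tens]
  have := (restr (fun p : Idx × Idx => p.1 ≠ p.2)).le_opNorm (tens u v)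
  refine this.trans ?_
  have h1 : ‖restr (S := Idx × Idx) (fun p : Idx × Idx => p.1 ≠ p.2)‖ ≤ 1 :=
    LinearMap.mkContinuous_norm_le _ zero_le_one _
  calc _ ≤ 1 * ‖tens u v‖ := mul_le_mul_of_nonneg_right h1 (norm_nonneg _)
    _ = _ := one_mul _

theorem norm_tauF (x y : Xh) : ‖tauF D x y‖ ≤ 3 * ‖x‖ * ‖y‖ := by
  unfold tauF qw
  have h1 : ‖(((tens x.1 y.1 : L1 (ℕ × ℕ)), (0 : L1 (Off Idx))), (0 : X))‖ ≤ ‖x‖ * ‖y‖ := by
    rw [Prod.norm_mk, Prod.norm_mk, norm_zero, norm_zero, L1.norm_tens]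
    have : ‖x.1‖ * ‖y.1‖ ≤ ‖x‖ * ‖y‖ :=
      mul_le_mul (norm_fst_le x) (norm_fst_le y) (norm_nonneg _) (norm_nonneg _)
    exact max_le (max_le this (by positivity)) (by positivity)
  have h2 : ‖(((0 : L1 (ℕ × ℕ)), (off x.2 y.2 : L1 (Off Idx))), (0 : X))‖ ≤ ‖x‖ * ‖y‖ := by
    rw [Prod.norm_mk, Prod.norm_mk, norm_zero, norm_zero]
    have : ‖off x.2 y.2‖ ≤ ‖x‖ * ‖y‖ := (norm_off_le _ _).trans
      (mul_le_mul (norm_snd_le x) (norm_snd_le y) (norm_nonneg _) (norm_nonneg _))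
    exact max_le (max_le (by positivity) this) (by positivity)
  have h3 : ‖dg D.w x.2 y.2‖ ≤ ‖x‖ * ‖y‖ := (dg_norm_le D.hw _ _).trans
      (mul_le_mul (norm_snd_le x) (norm_snd_le y) (norm_nonneg _) (norm_nonneg _))
  refine (norm_add_le _ _).trans ?_
  have h4 := norm_add_le (((0 : L1 (ℕ × ℕ)), (off x.2 y.2 : L1 (Off Idx))), (0 : X))
    (dg D.w x.2 y.2)
  linarith

/-- The product `(X × P) × (X × P) → G` as a bounded bilinear map. -/
noncomputable def tau : Xh →L[ℂ] Xh →L[ℂ] G Idx :=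
  LinearMap.mkContinuous₂
    (LinearMap.mk₂ ℂ (tauF D) (tauF_add_left D) (tauF_smul_left D) (tauF_add_right D)
      (tauF_smul_right D)) 3 (norm_tauF D)

theorem tau_apply (x y : Xh) : tau D x y = ((tens x.1 y.1, 0), 0) + qw D.w x.2 y.2 := rfl

theorem norm_tau (x y : Xh) : ‖tau D x y‖ ≤ 3 * ‖x‖ * ‖y‖ := norm_tauF D x y

/-- The inclusion of `X` in `G`. -/
noncomputable def inX : X →L[ℂ] G Idx := ContinuousLinearMap.inr ℂ (Q Idx) X

@[simp] theorem inX_apply (x : X) : inX x = ((0, x) : G Idx) := rfl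

/-- The product `Y × Y → V`. -/
noncomputable def mu (a b : Y) : V := (tau D a.1 b.1 + inX (a.2 • b.1.1 + b.2 • a.1.1), a.2 * b.2)

theorem mu_add_left (a b c : Y) : mu D (a + b) c = mu D a c + mu D b c := by
  unfold mu
  ext : 1
  · simp only [Prod.fst_add, Prod.snd_add, map_add, add_apply, add_smul,
      smul_add]
    abel
  · simp only [Prod.snd_add, add_mul]

theorem mu_add_right (a b c : Y) : mu D a (b + c) = mu D a b + mu D a c := by
  unfold mu
  ext : 1
  · simp only [Prod.fst_add, Prod.snd_add, map_add, add_smul, smul_add]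
    abel
  · simp only [Prod.snd_add, mul_add]

theorem mu_smul_left (c : ℂ) (a b : Y) : mu D (c • a) b = c • mu D a b := by
  unfold mu
  ext : 1
  · simp only [Prod.smul_fst, Prod.smul_snd, map_smul, smul_apply, smul_add,
      map_add, smul_eq_mul, mul_smul]
    rw [smul_comm b.2 c (inX a.1.1)]
  · simp only [Prod.smul_snd, smul_eq_mul]
    ring

theorem mu_smul_right (c : ℂ) (a b : Y) : mu D a (c • b) = c • mu D a b := by
  unfold mu
  ext : 1
  · simp only [Prod.smul_fst, Prod.smul_snd, map_smul, smul_add,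
      map_add, smul_eq_mul, mul_smul]
    rw [smul_comm a.2 c (inX b.1.1)]
  · simp only [Prod.smul_snd, smul_eq_mul]
    ring

theorem norm_mu (a b : Y) : ‖mu D a b‖ ≤ 5 * ‖a‖ * ‖b‖ := by
  unfold mu
  rw [Prod.norm_mk]
  have ha1 := norm_fst_le a
  have ha2 := norm_snd_le a
  have hb1 := norm_fst_le b
  have hb2 := norm_snd_le b
  have ha3 : ‖a.1.1‖ ≤ ‖a‖ := (norm_fst_le _).trans ha1
  have hb3 : ‖b.1.1‖ ≤ ‖b‖ := (norm_fst_le _).trans hb1
  have h0 : 0 ≤ ‖a‖ * ‖b‖ := by positivity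
  have h1 : ‖tau D a.1 b.1‖ ≤ 3 * (‖a‖ * ‖b‖) := by
    refine (norm_tau D _ _).trans ?_
    rw [mul_assoc]
    exact mul_le_mul_of_nonneg_left (mul_le_mul ha1 hb1 (norm_nonneg _) (norm_nonneg _))
      (by norm_num)
  have h2 : ‖inX (a.2 • b.1.1 + b.2 • a.1.1)‖ ≤ 2 * (‖a‖ * ‖b‖) := by
    rw [inX_apply, Prod.norm_mk, norm_zero, max_eq_right (norm_nonneg _)]
    refine (norm_add_le _ _).trans ?_
    rw [norm_smul, norm_smul]
    have h3 := mul_le_mul ha2 hb3 (norm_nonneg _) (norm_nonneg _)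
    have h4 := mul_le_mul ha3 hb2 (norm_nonneg _) (norm_nonneg _)
    nlinarith
  refine max_le ((norm_add_le _ _).trans ?_) ?_
  · nlinarith
  · rw [norm_mul]
    have := mul_le_mul ha2 hb2 (norm_nonneg _) (norm_nonneg _)
    nlinarith

/-- The left action of `Y` on functionals. -/
noncomputable def del (y : Xh) (d : D3) : D2 :=
  d.comp ((ContinuousLinearMap.fst ℂ (Q Idx) X).comp ((tau D).flip y))

theorem del_apply (y : Xh) (d : D3) (x : Xh) : del D y d x = d (tau D x y).1 := rfl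

/-- The algebra. -/
def Alg (_ : Dat) : Type := ℂ × ℂ × ℂ × ℂ × Y × Y × V × ℂ × D2 × D3

namespace Alg

variable {D}

noncomputable instance : NormedAddCommGroup (Alg D) :=
  inferInstanceAs (NormedAddCommGroup (ℂ × ℂ × ℂ × ℂ × Y × Y × V × ℂ × D2 × D3))
noncomputable instance : NormedSpace ℂ (Alg D) :=
  inferInstanceAs (NormedSpace ℂ (ℂ × ℂ × ℂ × ℂ × Y × Y × V × ℂ × D2 × D3))
instance : CompleteSpace (Alg D) :=
  inferInstanceAs (CompleteSpace (ℂ × ℂ × ℂ × ℂ × Y × Y × V × ℂ × D2 × D3))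

/-- constructor -/
noncomputable def mk (l1 l2 l3 l5 : ℂ) (y1 y2 : Y) (v : V) (d1 : ℂ) (d2 : D2) (d3 : D3) : Alg D :=
  (l1, l2, l3, l5, y1, y2, v, d1, d2, d3)
/-- component -/
noncomputable def l1 (a : Alg D) : ℂ := a.1
/-- component -/
noncomputable def l2 (a : Alg D) : ℂ := a.2.1
/-- component -/
noncomputable def l3 (a : Alg D) : ℂ := a.2.2.1
/-- component -/
noncomputable def l5 (a : Alg D) : ℂ := a.2.2.2.1
/-- component -/
noncomputable def y1 (a : Alg D) : Y := a.2.2.2.2.1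
/-- component -/
noncomputable def y2 (a : Alg D) : Y := a.2.2.2.2.2.1
/-- component -/
noncomputable def v (a : Alg D) : V := a.2.2.2.2.2.2.1
/-- component -/
noncomputable def d1 (a : Alg D) : ℂ := a.2.2.2.2.2.2.2.1
/-- component -/
noncomputable def d2 (a : Alg D) : D2 := a.2.2.2.2.2.2.2.2.1
/-- component -/
noncomputable def d3 (a : Alg D) : D3 := a.2.2.2.2.2.2.2.2.2

theorem ext {a b : Alg D} (h1 : a.l1 = b.l1) (h2 : a.l2 = b.l2) (h3 : a.l3 = b.l3)
    (h4 : a.l5 = b.l5) (h5 : a.y1 = b.y1) (h6 : a.y2 = b.y2) (h7 : a.v = b.v)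
    (h8 : a.d1 = b.d1) (h9 : a.d2 = b.d2) (h10 : a.d3 = b.d3) : a = b :=
  Prod.ext h1 (Prod.ext h2 (Prod.ext h3 (Prod.ext h4 (Prod.ext h5 (Prod.ext h6
    (Prod.ext h7 (Prod.ext h8 (Prod.ext h9 h10))))))))

section simps
variable (a b : Alg D) (c : ℂ) (q1 q2 q3 q5 : ℂ) (p1 p2 : Y) (g : V) (r1 : ℂ) (r2 : D2) (r3 : D3)

@[simp] theorem mk_l1 : (mk q1 q2 q3 q5 p1 p2 g r1 r2 r3 : Alg D).l1 = q1 := rfl
@[simp] theorem mk_l2 : (mk q1 q2 q3 q5 p1 p2 g r1 r2 r3 : Alg D).l2 = q2 := rfl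
@[simp] theorem mk_l3 : (mk q1 q2 q3 q5 p1 p2 g r1 r2 r3 : Alg D).l3 = q3 := rfl
@[simp] theorem mk_l5 : (mk q1 q2 q3 q5 p1 p2 g r1 r2 r3 : Alg D).l5 = q5 := rfl
@[simp] theorem mk_y1 : (mk q1 q2 q3 q5 p1 p2 g r1 r2 r3 : Alg D).y1 = p1 := rfl
@[simp] theorem mk_y2 : (mk q1 q2 q3 q5 p1 p2 g r1 r2 r3 : Alg D).y2 = p2 := rfl
@[simp] theorem mk_v : (mk q1 q2 q3 q5 p1 p2 g r1 r2 r3 : Alg D).v = g := rfl
@[simp] theorem mk_d1 : (mk q1 q2 q3 q5 p1 p2 g r1 r2 r3 : Alg D).d1 = r1 := rfl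
@[simp] theorem mk_d2 : (mk q1 q2 q3 q5 p1 p2 g r1 r2 r3 : Alg D).d2 = r2 := rfl
@[simp] theorem mk_d3 : (mk q1 q2 q3 q5 p1 p2 g r1 r2 r3 : Alg D).d3 = r3 := rfl
@[simp] theorem add_l1 : (a + b).l1 = a.l1 + b.l1 := rfl
@[simp] theorem add_l2 : (a + b).l2 = a.l2 + b.l2 := rfl
@[simp] theorem add_l3 : (a + b).l3 = a.l3 + b.l3 := rfl
@[simp] theorem add_l5 : (a + b).l5 = a.l5 + b.l5 := rfl
@[simp] theorem add_y1 : (a + b).y1 = a.y1 + b.y1 := rfl
@[simp] theorem add_y2 : (a + b).y2 = a.y2 + b.y2 := rfl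
@[simp] theorem add_v : (a + b).v = a.v + b.v := rfl
@[simp] theorem add_d1 : (a + b).d1 = a.d1 + b.d1 := rfl
@[simp] theorem add_d2 : (a + b).d2 = a.d2 + b.d2 := rfl
@[simp] theorem add_d3 : (a + b).d3 = a.d3 + b.d3 := rfl
@[simp] theorem smul_l1 : (c • a).l1 = c * a.l1 := rfl
@[simp] theorem smul_l2 : (c • a).l2 = c * a.l2 := rfl
@[simp] theorem smul_l3 : (c • a).l3 = c * a.l3 := rfl
@[simp] theorem smul_l5 : (c • a).l5 = c * a.l5 := rfl
@[simp] theorem smul_y1 : (c • a).y1 = c • a.y1 := rfl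
@[simp] theorem smul_y2 : (c • a).y2 = c • a.y2 := rfl
@[simp] theorem smul_v : (c • a).v = c • a.v := rfl
@[simp] theorem smul_d1 : (c • a).d1 = c * a.d1 := rfl
@[simp] theorem smul_d2 : (c • a).d2 = c • a.d2 := rfl
@[simp] theorem smul_d3 : (c • a).d3 = c • a.d3 := rfl
@[simp] theorem zero_l1 : (0 : Alg D).l1 = 0 := rfl
@[simp] theorem zero_l2 : (0 : Alg D).l2 = 0 := rfl
@[simp] theorem zero_l3 : (0 : Alg D).l3 = 0 := rfl
@[simp] theorem zero_l5 : (0 : Alg D).l5 = 0 := rfl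
@[simp] theorem zero_y1 : (0 : Alg D).y1 = 0 := rfl
@[simp] theorem zero_y2 : (0 : Alg D).y2 = 0 := rfl
@[simp] theorem zero_v : (0 : Alg D).v = 0 := rfl
@[simp] theorem zero_d1 : (0 : Alg D).d1 = 0 := rfl
@[simp] theorem zero_d2 : (0 : Alg D).d2 = 0 := rfl
@[simp] theorem zero_d3 : (0 : Alg D).d3 = 0 := rfl
end simps

noncomputable instance : Mul (Alg D) :=
  ⟨fun a b => mk (a.l1 * b.l1) (a.l2 * b.l2) (a.l3 * b.l3) (a.l5 * b.l5)
    (a.l1 • b.y1 + b.l2 • a.y1)
    (a.l2 • b.y2 + b.l3 • a.y2)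
    (a.l1 • b.v + b.l3 • a.v + mu D a.y1 b.y2)
    (a.l1 * b.d1 + a.d1 * b.l5 + b.d2 a.y1.1 + b.d3 a.v.1.1)
    (a.l2 • b.d2 + b.l5 • a.d2 + del D a.y2.1 b.d3)
    (a.l3 • b.d3 + b.l5 • a.d3)⟩

noncomputable instance : One (Alg D) := ⟨mk 1 1 1 1 0 0 0 0 0 0⟩

section simps2
variable (a b : Alg D)
@[simp] theorem mul_l1 : (a * b).l1 = a.l1 * b.l1 := rfl
@[simp] theorem mul_l2 : (a * b).l2 = a.l2 * b.l2 := rfl
@[simp] theorem mul_l3 : (a * b).l3 = a.l3 * b.l3 := rfl
@[simp] theorem mul_l5 : (a * b).l5 = a.l5 * b.l5 := rfl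
@[simp] theorem mul_y1 : (a * b).y1 = a.l1 • b.y1 + b.l2 • a.y1 := rfl
@[simp] theorem mul_y2 : (a * b).y2 = a.l2 • b.y2 + b.l3 • a.y2 := rfl
@[simp] theorem mul_v : (a * b).v = a.l1 • b.v + b.l3 • a.v + mu D a.y1 b.y2 := rfl
@[simp] theorem mul_d1 : (a * b).d1 =
  a.l1 * b.d1 + a.d1 * b.l5 + b.d2 a.y1.1 + b.d3 a.v.1.1 := rfl
@[simp] theorem mul_d2 : (a * b).d2 = a.l2 • b.d2 + b.l5 • a.d2 + del D a.y2.1 b.d3 := rfl
@[simp] theorem mul_d3 : (a * b).d3 = a.l3 • b.d3 + b.l5 • a.d3 := rfl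
@[simp] theorem one_l1 : (1 : Alg D).l1 = 1 := rfl
@[simp] theorem one_l2 : (1 : Alg D).l2 = 1 := rfl
@[simp] theorem one_l3 : (1 : Alg D).l3 = 1 := rfl
@[simp] theorem one_l5 : (1 : Alg D).l5 = 1 := rfl
@[simp] theorem one_y1 : (1 : Alg D).y1 = 0 := rfl
@[simp] theorem one_y2 : (1 : Alg D).y2 = 0 := rfl
@[simp] theorem one_v : (1 : Alg D).v = 0 := rfl
@[simp] theorem one_d1 : (1 : Alg D).d1 = 0 := rfl
@[simp] theorem one_d2 : (1 : Alg D).d2 = 0 := rfl
@[simp] theorem one_d3 : (1 : Alg D).d3 = 0 := rfl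
end simps2

theorem mu_zero_left (b : Y) : mu D 0 b = 0 := by
  have := mu_smul_left D 0 0 b
  simpa using this

theorem mu_zero_right (b : Y) : mu D b 0 = 0 := by
  have := mu_smul_right D 0 b 0
  simpa using this

theorem ext' {a b : Alg D} (h1 : a.l1 = b.l1) (h2 : a.l2 = b.l2) (h3 : a.l3 = b.l3)
    (h4 : a.l5 = b.l5) (h5 : a.y1 = b.y1) (h6 : a.y2 = b.y2) (h7 : a.v = b.v)
    (h8 : a.d1 = b.d1) (h9 : ∀ x, a.d2 x = b.d2 x) (h10 : ∀ x, a.d3 x = b.d3 x) : a = b :=
  ext h1 h2 h3 h4 h5 h6 h7 h8 (ContinuousLinearMap.ext h9) (ContinuousLinearMap.ext h10)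

section applies
variable (a b : Alg D) (c : ℂ) (x : Xh) (q : Q Idx)
theorem mul_d2a : (a * b).d2 x = a.l2 * b.d2 x + b.l5 * a.d2 x + b.d3 (tau D x a.y2.1).1 := rfl
theorem mul_d3a : (a * b).d3 q = a.l3 * b.d3 q + b.l5 * a.d3 q := rfl
theorem add_d2a : (a + b).d2 x = a.d2 x + b.d2 x := rfl
theorem add_d3a : (a + b).d3 q = a.d3 q + b.d3 q := rfl
theorem smul_d2a : (c • a).d2 x = c * a.d2 x := rfl
theorem smul_d3a : (c • a).d3 q = c * a.d3 q := rfl
theorem zero_d2a : (0 : Alg D).d2 x = 0 := rfl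
theorem zero_d3a : (0 : Alg D).d3 q = 0 := rfl
theorem one_d2a : (1 : Alg D).d2 x = 0 := rfl
theorem one_d3a : (1 : Alg D).d3 q = 0 := rfl
theorem mul_d1a : (a * b).d1 = a.l1 * b.d1 + a.d1 * b.l5 + b.d2 a.y1.1 + b.d3 a.v.1.1 := rfl
end applies

theorem mu_fst (a b : Y) : (mu D a b).1.1 = (tau D a.1 b.1).1 := by
  simp [mu]

noncomputable instance : Ring (Alg D) :=
  { (inferInstance : AddCommGroup (Alg D)) with
    mul := (· * ·)
    one := 1
    left_distrib := by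
      intro a b c
      refine ext' ?_ ?_ ?_ ?_ ?_ ?_ ?_ ?_ (fun x => ?_) (fun x => ?_)
      · simp only [mul_l1, add_l1]; ring
      · simp only [mul_l2, add_l2]; ring
      · simp only [mul_l3, add_l3]; ring
      · simp only [mul_l5, add_l5]; ring
      · simp only [mul_y1, add_y1, add_l2, smul_add, add_smul]; abel
      · simp only [mul_y2, add_y2, add_l3, smul_add, add_smul]; abel
      · simp only [mul_v, add_v, add_l3, add_y2, smul_add, add_smul, mu_add_right]; abel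
      · simp only [mul_d1a, add_d1, add_l5, add_d2a, add_d3a]; ring
      · simp only [mul_d2a, add_d2a, add_l5, add_d3a]; ring
      · simp only [mul_d3a, add_d3a, add_l5]; ring
    right_distrib := by
      intro a b c
      refine ext' ?_ ?_ ?_ ?_ ?_ ?_ ?_ ?_ (fun x => ?_) (fun x => ?_)
      · simp only [mul_l1, add_l1]; ring
      · simp only [mul_l2, add_l2]; ring
      · simp only [mul_l3, add_l3]; ring
      · simp only [mul_l5, add_l5]; ring
      · simp only [mul_y1, add_y1, add_l1, smul_add, add_smul]; abel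
      · simp only [mul_y2, add_y2, add_l2, smul_add, add_smul]; abel
      · simp only [mul_v, add_v, add_l1, add_y1, smul_add, add_smul, mu_add_left]; abel
      · simp only [mul_d1a, add_d1, add_l1, add_y1, add_v, Prod.fst_add, map_add]; ring
      · simp only [mul_d2a, add_d2a, add_l2, add_y2, Prod.fst_add, map_add]; ring
      · simp only [mul_d3a, add_d3a, add_l3]; ring
    zero_mul := by
      intro a
      refine ext' ?_ ?_ ?_ ?_ ?_ ?_ ?_ ?_ (fun x => ?_) (fun x => ?_)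
      · simp only [mul_l1, zero_l1]; ring
      · simp only [mul_l2, zero_l2]; ring
      · simp only [mul_l3, zero_l3]; ring
      · simp only [mul_l5, zero_l5]; ring
      · simp only [mul_y1, zero_l1, zero_y1, zero_smul, smul_zero, add_zero]
      · simp only [mul_y2, zero_l2, zero_y2, zero_smul, smul_zero, add_zero]
      · simp only [mul_v, zero_l1, zero_y1, zero_v, zero_smul, smul_zero, add_zero, mu_zero_left]
      · simp only [mul_d1a, zero_d1, zero_l1, zero_y1, zero_v, Prod.fst_zero, map_zero]; ring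
      · simp only [mul_d2a, zero_l2, zero_d2a, zero_y2, Prod.fst_zero, map_zero]; ring
      · simp only [mul_d3a, zero_l3, zero_d3a]; ring
    mul_zero := by
      intro a
      refine ext' ?_ ?_ ?_ ?_ ?_ ?_ ?_ ?_ (fun x => ?_) (fun x => ?_)
      · simp only [mul_l1, zero_l1]; ring
      · simp only [mul_l2, zero_l2]; ring
      · simp only [mul_l3, zero_l3]; ring
      · simp only [mul_l5, zero_l5]; ring
      · simp only [mul_y1, zero_l2, zero_y1, zero_smul, smul_zero, add_zero]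
      · simp only [mul_y2, zero_l3, zero_y2, zero_smul, smul_zero, add_zero]
      · simp only [mul_v, zero_l3, zero_y2, zero_v, zero_smul, smul_zero, add_zero,
          mu_zero_right]
      · simp only [mul_d1a, zero_d1, zero_l5, zero_d2a, zero_d3a]; ring
      · simp only [mul_d2a, zero_l5, zero_d2a, zero_d3a]; ring
      · simp only [mul_d3a, zero_l5, zero_d3a]; ring
    one_mul := by
      intro a
      refine ext' ?_ ?_ ?_ ?_ ?_ ?_ ?_ ?_ (fun x => ?_) (fun x => ?_)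
      · simp only [mul_l1, one_l1]; ring
      · simp only [mul_l2, one_l2]; ring
      · simp only [mul_l3, one_l3]; ring
      · simp only [mul_l5, one_l5]; ring
      · simp only [mul_y1, one_l1, one_y1, one_smul, smul_zero, add_zero]
      · simp only [mul_y2, one_l2, one_y2, one_smul, smul_zero, add_zero]
      · simp only [mul_v, one_l1, one_y1, one_v, one_smul, smul_zero, add_zero, mu_zero_left]
      · simp only [mul_d1a, one_d1, one_l1, one_y1, one_v, Prod.fst_zero, map_zero]; ring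
      · simp only [mul_d2a, one_l2, one_d2a, one_y2, Prod.fst_zero, map_zero]; ring
      · simp only [mul_d3a, one_l3, one_d3a]; ring
    mul_one := by
      intro a
      refine ext' ?_ ?_ ?_ ?_ ?_ ?_ ?_ ?_ (fun x => ?_) (fun x => ?_)
      · simp only [mul_l1, one_l1]; ring
      · simp only [mul_l2, one_l2]; ring
      · simp only [mul_l3, one_l3]; ring
      · simp only [mul_l5, one_l5]; ring
      · simp only [mul_y1, one_l2, one_y1, one_smul, smul_zero, zero_add]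
      · simp only [mul_y2, one_l3, one_y2, one_smul, smul_zero, zero_add]
      · simp only [mul_v, one_l3, one_y2, one_v, one_smul, smul_zero, add_zero, zero_add,
          mu_zero_right]
      · simp only [mul_d1a, one_d1, one_l5, one_d2a, one_d3a]; ring
      · simp only [mul_d2a, one_l5, one_d2a, one_d3a]; ring
      · simp only [mul_d3a, one_l5, one_d3a]; ring
    mul_assoc := by
      intro a b c
      refine ext' ?_ ?_ ?_ ?_ ?_ ?_ ?_ ?_ (fun x => ?_) (fun x => ?_)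
      · simp only [mul_l1]; ring
      · simp only [mul_l2]; ring
      · simp only [mul_l3]; ring
      · simp only [mul_l5]; ring
      · simp only [mul_y1, mul_l1, mul_l2, smul_add, smul_smul, add_assoc, mul_comm]
      · simp only [mul_y2, mul_l2, mul_l3, smul_add, smul_smul, add_assoc, mul_comm]
      · simp only [mul_v, mul_y1, mul_y2, mul_l1, mul_l3, smul_add, smul_smul, mu_add_left,
          mu_add_right, mu_smul_left, mu_smul_right]
        simp only [mul_comm c.l3]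
        abel
      · simp only [mul_d1a, mul_d2a, mul_d3a, mul_l1, mul_l5, mul_y1, mul_v, Prod.fst_add,
          Prod.smul_fst, map_add, map_smul, smul_eq_mul, mu_fst]
        ring
      · simp only [mul_d2a, mul_d3a, mul_y2, mul_l2, mul_l5, Prod.fst_add, Prod.smul_fst,
          map_add, map_smul, smul_eq_mul]
        ring
      · simp only [mul_d3a, mul_l3, mul_l5]; ring }

theorem smul_mul' (r : ℂ) (a b : Alg D) : (r • a) * b = r • (a * b) := by
  refine ext' ?_ ?_ ?_ ?_ ?_ ?_ ?_ ?_ (fun x => ?_) (fun x => ?_)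
  · simp only [mul_l1, smul_l1]; ring
  · simp only [mul_l2, smul_l2]; ring
  · simp only [mul_l3, smul_l3]; ring
  · simp only [mul_l5, smul_l5]; ring
  · simp only [mul_y1, smul_y1, smul_l1, smul_add, smul_smul, mul_comm]
  · simp only [mul_y2, smul_y2, smul_l2, smul_add, smul_smul, mul_comm]
  · simp only [mul_v, smul_v, smul_l1, smul_y1, smul_add, smul_smul, mu_smul_left, mul_comm]
  · simp only [mul_d1a, smul_d1, smul_l1, smul_y1, smul_v, Prod.smul_fst, map_smul,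
      smul_eq_mul]; ring
  · simp only [mul_d2a, smul_d2a, smul_l2, smul_y2, Prod.smul_fst, map_smul, smul_eq_mul]; ring
  · simp only [mul_d3a, smul_d3a, smul_l3]; ring

theorem mul_smul' (r : ℂ) (a b : Alg D) : a * (r • b) = r • (a * b) := by
  refine ext' ?_ ?_ ?_ ?_ ?_ ?_ ?_ ?_ (fun x => ?_) (fun x => ?_)
  · simp only [mul_l1, smul_l1]; ring
  · simp only [mul_l2, smul_l2]; ring
  · simp only [mul_l3, smul_l3]; ring
  · simp only [mul_l5, smul_l5]; ring
  · simp only [mul_y1, smul_y1, smul_l2, smul_add, smul_smul, mul_comm]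
  · simp only [mul_y2, smul_y2, smul_l3, smul_add, smul_smul, mul_comm]
  · simp only [mul_v, smul_v, smul_l3, smul_y2, smul_add, smul_smul, mu_smul_right, mul_comm]
  · simp only [mul_d1a, smul_d1, smul_l5, smul_d2a, smul_d3a]; ring
  · simp only [mul_d2a, smul_d2a, smul_l5, smul_d3a]; ring
  · simp only [mul_d3a, smul_d3a, smul_l5]; ring

noncomputable instance : Algebra ℂ (Alg D) := Algebra.ofModule smul_mul' mul_smul'

end Alg

end Q90.N2
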