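import Mathlib
import Pool.Agent.Q90.N2L1

/-!
# Two Banach algebra norms, part 7: complete norms on a vector space
-/

namespace Q90.N2

open scoped BigOperators Topology
open Filter L1

/-- A complete norm on a complex vector space. -/
structure CNorm (E : Type) [AddCommGroup E] [Module ℂ E] where
  /-- the norm -/
  toFun : E → ℝ
  eq_zero : ∀ a, toFun a = 0 → a = 0
  add_le : ∀ a b, toFun (a + b) ≤ toFun a + toFun b
  smul : ∀ (c : ℂ) a, toFun (c • a) = ‖c‖ * toFun a
  complete : ∀ u : ℕ → E,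
    (∀ ε > 0, ∃ N : ℕ, ∀ m ≥ N, ∀ n ≥ N, toFun (u m - u n) < ε) →
    ∃ a, ∀ ε > 0, ∃ N : ℕ, ∀ n ≥ N, toFun (u n - a) < ε

namespace CNorm

variable {E : Type} [AddCommGroup E] [Module ℂ E] {E' : Type} [AddCommGroup E'] [Module ℂ E']

instance : CoeFun (CNorm E) (fun _ => E → ℝ) := ⟨CNorm.toFun⟩

theorem zero (n : CNorm E) : n 0 = 0 := by
  have := n.smul 0 0
  simpa using this

theorem neg (n : CNorm E) (a : E) : n (-a) = n a := by
  have := n.smul (-1) a
  simpa using this

theorem nonneg (n : CNorm E) (a : E) : 0 ≤ n a := by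
  have h := n.add_le a (-a)
  rw [add_neg_cancel, n.zero, n.neg] at h
  linarith

theorem sub_le (n : CNorm E) (a b : E) : n (a - b) ≤ n a + n b := by
  rw [sub_eq_add_neg, ← n.neg b]
  exact n.add_le _ _

theorem sub_comm (n : CNorm E) (a b : E) : n (a - b) = n (b - a) := by
  rw [← n.neg, neg_sub]

/-- The normed space. -/
def Sp (_ : CNorm E) : Type := E

instance (n : CNorm E) : AddCommGroup n.Sp := inferInstanceAs (AddCommGroup E)
instance (n : CNorm E) : Module ℂ n.Sp := inferInstanceAs (Module ℂ E)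

noncomputable instance (n : CNorm E) : NormedAddCommGroup n.Sp :=
  AddGroupNorm.toNormedAddCommGroup
    { toFun := n.toFun
      map_zero' := n.zero
      add_le' := n.add_le
      neg' := n.neg
      eq_zero_of_map_eq_zero' := n.eq_zero }

/-- The element in the normed space. -/
def toSp (n : CNorm E) (x : E) : n.Sp := x

theorem norm_def (n : CNorm E) (x : n.Sp) : ‖x‖ = n.toFun x := rfl

theorem norm_toSp (n : CNorm E) (x : E) : ‖n.toSp x‖ = n x := rfl

noncomputable instance (n : CNorm E) : NormedSpace ℂ n.Sp where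
  norm_smul_le c x := (n.smul c x).le

instance (n : CNorm E) : CompleteSpace n.Sp := by
  refine Metric.complete_of_cauchySeq_tendsto fun u hu => ?_
  rw [Metric.cauchySeq_iff] at hu
  obtain ⟨a, ha⟩ := n.complete u (fun ε hε => by
    obtain ⟨N, hN⟩ := hu ε hε
    refine ⟨N, fun m hm k hk => ?_⟩
    have := hN m hm k hk
    rwa [dist_eq_norm] at this)
  refine ⟨n.toSp a, Metric.tendsto_atTop.2 fun ε hε => ?_⟩
  obtain ⟨N, hN⟩ := ha ε hε
  exact ⟨N, fun k hk => by rw [dist_eq_norm]; exact hN k hk⟩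

/-- The given norm of a Banach space. -/
noncomputable def std (B : Type) [NormedAddCommGroup B] [NormedSpace ℂ B] [CompleteSpace B] :
    CNorm B where
  toFun := fun x => ‖x‖
  eq_zero := fun a h => norm_eq_zero.1 h
  add_le := norm_add_le
  smul := norm_smul
  complete := by
    intro u hu
    have h1 : CauchySeq u := by
      rw [Metric.cauchySeq_iff]
      intro ε hε
      obtain ⟨N, hN⟩ := hu ε hε
      exact ⟨N, fun m hm k hk => by rw [dist_eq_norm]; exact hN m hm k hk⟩
    obtain ⟨a, ha⟩ := cauchySeq_tendsto_of_complete h1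
    refine ⟨a, fun ε hε => ?_⟩
    obtain ⟨N, hN⟩ := Metric.tendsto_atTop.1 ha ε hε
    exact ⟨N, fun k hk => by rw [← dist_eq_norm]; exact hN k hk⟩

@[simp] theorem std_apply {B : Type} [NormedAddCommGroup B] [NormedSpace ℂ B] [CompleteSpace B]
    (x : B) : std B x = ‖x‖ := rfl

theorem tendsto_sp (n : CNorm E) {u : ℕ → E} {x : E} :
    Tendsto (fun k => n (u k - x)) atTop (𝓝 0) ↔
      Tendsto (fun k => n.toSp (u k)) atTop (𝓝 (n.toSp x)) := by
  exact (tendsto_iff_norm_sub_tendsto_zero (f := fun k => n.toSp (u k)) (b := n.toSp x)).symm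

/-- The closed graph theorem. -/
theorem closed_graph (n : CNorm E) (n' : CNorm E') (T : E →ₗ[ℂ] E')
    (h : ∀ (u : ℕ → E) (z : E'), Tendsto (fun k => n (u k)) atTop (𝓝 0) →
      Tendsto (fun k => n' (T (u k) - z)) atTop (𝓝 0) → z = 0) :
    ∃ C : ℝ, 0 < C ∧ ∀ x, n' (T x) ≤ C * n x := by
  let T' : n.Sp →ₗ[ℂ] n'.Sp :=
    { toFun := fun x => T x
      map_add' := fun a b => T.map_add a b
      map_smul' := fun c a => T.map_smul c a }
  have hc : Continuous T' := by
    refine LinearMap.continuous_of_seq_closed_graph T' fun u x y hu hy => ?_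
    let x' : E := x
    let y' : E' := y
    let u' : ℕ → E := u
    have h1 : Tendsto (fun k => n (u' k - x')) atTop (𝓝 0) := (n.tendsto_sp).2 hu
    have h2 : Tendsto (fun k => n' (T (u' k - x') - (y' - T x'))) atTop (𝓝 0) := by
      have h3 : Tendsto (fun k => n' (T (u' k) - y')) atTop (𝓝 0) := (n'.tendsto_sp).2 hy
      refine h3.congr fun k => ?_
      congr 1
      rw [T.map_sub]
      abel
    have h4 : y' - T x' = 0 := h (fun k => u' k - x') (y' - T x') h1 h2
    exact sub_eq_zero.1 h4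
  let T'' : n.Sp →L[ℂ] n'.Sp := ⟨T', hc⟩
  refine ⟨‖T''‖ + 1, by positivity, fun x => ?_⟩
  have h5 := T''.le_opNorm (n.toSp x)
  calc n' (T x) = ‖T'' (n.toSp x)‖ := rfl
    _ ≤ ‖T''‖ * ‖n.toSp x‖ := h5
    _ ≤ (‖T''‖ + 1) * n x := by
        refine mul_le_mul_of_nonneg_right (by linarith) (n.nonneg x)

/-- Two comparable complete norms are equivalent. -/
theorem comparable (n n' : CNorm E) (C : ℝ) (h : ∀ x, n x ≤ C * n' x) :
    ∃ C' : ℝ, 0 < C' ∧ ∀ x, n' x ≤ C' * n x := by
  refine n.closed_graph n' LinearMap.id fun u z hu hz => ?_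
  have h1 : Tendsto (fun k => n (u k - z)) atTop (𝓝 0) := by
    have h2 : Tendsto (fun k => C * n' (u k - z)) atTop (𝓝 0) := by
      simpa using hz.const_mul C
    exact squeeze_zero (fun k => n.nonneg _) (fun k => h _) h2
  have h3 : Tendsto (fun _ : ℕ => n z) atTop (𝓝 0) := by
    have h4 : Tendsto (fun k => n (u k) + n (u k - z)) atTop (𝓝 0) := by
      simpa using hu.add h1
    refine squeeze_zero (fun k => n.nonneg _) (fun k => ?_) h4
    have := n.sub_le (u k) (u k - z)
    rwa [sub_sub_cancel] at this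
  exact n.eq_zero z (tendsto_nhds_unique tendsto_const_nhds h3)

/-- The Hahn-Banach theorem. -/
theorem exists_functional (n : CNorm E) (x0 : E) (hx : x0 ≠ 0) :
    ∃ θ : E →ₗ[ℂ] ℂ, θ x0 = 1 ∧ ∃ C : ℝ, 0 < C ∧ ∀ x, ‖θ x‖ ≤ C * n x := by
  have hn : n x0 ≠ 0 := fun h => hx (n.eq_zero _ h)
  obtain ⟨g, hg1, hg2⟩ := exists_dual_vector ℂ (n.toSp x0) hn
  have hnc : ((n x0 : ℝ) : ℂ) ≠ 0 := Complex.ofReal_ne_zero.2 hn
  refine ⟨((n x0 : ℝ) : ℂ)⁻¹ •
    { toFun := fun x => g (n.toSp x)
      map_add' := fun a b => g.map_add (n.toSp a) (n.toSp b)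
      map_smul' := fun c a => g.map_smul c (n.toSp a) }, ?_, ‖((n x0 : ℝ) : ℂ)⁻¹‖ * 1,
      mul_pos (norm_pos_iff.2 (inv_ne_zero hnc)) one_pos, fun x => ?_⟩
  · rw [LinearMap.smul_apply]
    change ((n x0 : ℝ) : ℂ)⁻¹ • g (n.toSp x0) = 1
    rw [hg2, norm_toSp]
    rw [smul_eq_mul]
    exact inv_mul_cancel₀ hnc
  · rw [LinearMap.smul_apply, norm_smul, mul_assoc, one_mul]
    refine mul_le_mul_of_nonneg_left ?_ (norm_nonneg _)
    change ‖g (n.toSp x)‖ ≤ n x
    have := g.le_opNorm (n.toSp x)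
    rw [hg1, one_mul] at this
    exact this

/-- Bounded linear maps on `ℓ¹` with prescribed values on the unit vectors. -/
theorem exists_lift {Γ : Type} (n : CNorm E) (v : Γ → E) (K : ℝ) (hv : ∀ γ, n (v γ) ≤ K) :
    ∃ S : L1 Γ →ₗ[ℂ] E, (∀ q, n (S q) ≤ K * ‖q‖) ∧ ∀ γ, S (e γ) = v γ := by
  let v' : Γ → n.Sp := v
  have hs : ∀ q : L1 Γ, Summable fun γ => q γ • v' γ := by
    intro q
    refine Summable.of_norm_bounded ((L1.summable q).mul_right K) fun γ => ?_
    rw [norm_smul]
    exact mul_le_mul_of_nonneg_left (hv γ) (norm_nonneg _)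
  let S' : L1 Γ →ₗ[ℂ] n.Sp :=
    { toFun := fun q => ∑' γ, q γ • v' γ
      map_add' := by
        intro a b
        rw [← (hs a).tsum_add (hs b)]
        refine tsum_congr fun γ => ?_
        rw [add_ap, add_smul]
      map_smul' := by
        intro c a
        rw [RingHom.id_apply, ← (hs a).tsum_const_smul c]
        refine tsum_congr fun γ => ?_
        rw [smul_ap, smul_smul] }
  refine ⟨{ toFun := fun q => S' q
            map_add' := fun a b => S'.map_add a b
            map_smul' := fun c a => S'.map_smul c a }, fun q => ?_, fun γ => ?_⟩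
  · have h : ∀ γ, ‖q γ • v' γ‖ ≤ ‖q γ‖ * K := fun γ => by
      rw [norm_smul]
      exact mul_le_mul_of_nonneg_left (hv γ) (norm_nonneg _)
    have h2 := tsum_of_norm_bounded ((L1.summable q).mul_right K).hasSum h
    rw [tsum_mul_right, ← L1.norm_eq, mul_comm] at h2
    exact h2
  · change ∑' γ', (e γ : L1 Γ) γ' • v' γ' = v' γ
    rw [tsum_eq_single γ]
    · rw [e_self, one_smul]
    · intro j hj
      rw [e_ne hj, zero_smul]

/-- Bounded linear maps on `ℓ¹` are determined by their values on the unit vectors. -/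
theorem lift_unique {Γ : Type} (n : CNorm E) (S S' : L1 Γ →ₗ[ℂ] E) (K K' : ℝ)
    (h : ∀ q, n (S q) ≤ K * ‖q‖) (h' : ∀ q, n (S' q) ≤ K' * ‖q‖)
    (hv : ∀ γ, S (e γ) = S' (e γ)) : S = S' := by
  let T : L1 Γ →ₗ[ℂ] n.Sp :=
    { toFun := fun q => S q - S' q
      map_add' := fun a b => by
        rw [S.map_add, S'.map_add]
        exact add_sub_add_comm _ _ _ _
      map_smul' := fun c a => by
        rw [S.map_smul, S'.map_smul]
        exact (smul_sub c _ _).symm }
  let T' : L1 Γ →L[ℂ] n.Sp := T.mkContinuous (K + K') (fun q => by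
    change n (S q - S' q) ≤ _
    refine (n.sub_le _ _).trans ?_
    rw [add_mul]
    exact add_le_add (h q) (h' q))
  have h0 : ∀ q, T' q = 0 := by
    intro q
    have h1 := (L1.hasSum_e q).mapL T'
    have h2 : ∀ γ, T' (q γ • (e γ : L1 Γ)) = 0 := by
      intro γ
      rw [map_smul]
      have : T' (e γ : L1 Γ) = 0 := by
        change S (e γ) - S' (e γ) = 0
        rw [hv, sub_self]
      rw [this, smul_zero]
    simp only [h2] at h1
    exact h1.unique hasSum_zero
  refine LinearMap.ext fun q => ?_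
  exact sub_eq_zero.1 (h0 q)

/-- The restriction of a complete norm to a closed subspace. -/
def comap (n : CNorm E') (ι : E →ₗ[ℂ] E') (hι : Function.Injective ι)
    (hcl : ∀ (u : ℕ → E) (f : E'), Tendsto (fun k => n (ι (u k) - f)) atTop (𝓝 0) →
      ∃ x, ι x = f) : CNorm E where
  toFun := fun x => n (ι x)
  eq_zero := fun a h => hι (by rw [n.eq_zero _ h, map_zero])
  add_le := fun a b => by rw [map_add]; exact n.add_le _ _
  smul := fun c a => by rw [map_smul]; exact n.smul _ _
  complete := by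
    intro u hu
    obtain ⟨f, hf⟩ := n.complete (fun k => ι (u k)) (fun ε hε => by
      obtain ⟨N, hN⟩ := hu ε hε
      refine ⟨N, fun m hm k hk => ?_⟩
      rw [← map_sub]
      exact hN m hm k hk)
    obtain ⟨x, hx⟩ := hcl u f (by
      rw [Metric.tendsto_atTop]
      intro ε hε
      obtain ⟨N, hN⟩ := hf ε hε
      refine ⟨N, fun k hk => ?_⟩
      rw [Real.dist_eq, sub_zero, abs_of_nonneg (n.nonneg _)]
      exact hN k hk)
    refine ⟨x, fun ε hε => ?_⟩
    obtain ⟨N, hN⟩ := hf ε hε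
    refine ⟨N, fun k hk => ?_⟩
    rw [map_sub, hx]
    exact hN k hk

@[simp] theorem comap_apply (n : CNorm E') (ι : E →ₗ[ℂ] E') (hι : Function.Injective ι)
    (hcl) (x : E) : n.comap ι hι hcl x = n (ι x) := rfl

end CNorm

end Q90.N2
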