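import Mathlib
import Pool.Agent.Q90.N2Norm

/-!
# Two Banach algebra norms, part 8: twisted norms
-/

namespace Q90.N2

open scoped BigOperators Topology
open Filter L1

namespace CNorm

variable {E : Type} [AddCommGroup E] [Module ℂ E] {E' : Type} [AddCommGroup E'] [Module ℂ E']

/-- A linear map is bounded when there are enough functionals. -/
theorem bounded_of_sep (n : CNorm E) (n' : CNorm E') (T : E →ₗ[ℂ] E')
    (sep : ∀ z : E', (∀ d : E' →ₗ[ℂ] ℂ, (∃ C : ℝ, ∀ x, ‖d (T x)‖ ≤ C * n x) →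
      (∃ C : ℝ, ∀ y, ‖d y‖ ≤ C * n' y) → d z = 0) → z = 0) :
    ∃ C : ℝ, 0 < C ∧ ∀ x, n' (T x) ≤ C * n x := by
  refine n.closed_graph n' T fun u z hu hz => sep z fun d ⟨C, hC⟩ ⟨C', hC'⟩ => ?_
  have h1 : Tendsto (fun k => C * n (u k) + C' * n' (T (u k) - z)) atTop (𝓝 0) := by
    simpa using (hu.const_mul C).add (hz.const_mul C')
  have h2 : Tendsto (fun _ : ℕ => ‖d z‖) atTop (𝓝 0) := by
    refine squeeze_zero (fun _ => norm_nonneg _) (fun k => ?_) h1
    have h3 : d z = d (T (u k)) - d (T (u k) - z) := by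
      rw [← map_sub, sub_sub_cancel]
    rw [h3]
    exact (norm_sub_le _ _).trans (add_le_add (hC _) (hC' _))
  exact norm_eq_zero.1 (tendsto_nhds_unique tendsto_const_nhds h2)

/-- Transport of a complete norm along a linear isomorphism. -/
def ofEquiv (n : CNorm E') (φ : E ≃ₗ[ℂ] E') : CNorm E where
  toFun := fun x => n (φ x)
  eq_zero := fun a h => φ.map_eq_zero_iff.1 (n.eq_zero _ h)
  add_le := fun a b => by rw [map_add]; exact n.add_le _ _
  smul := fun c a => by rw [map_smul]; exact n.smul _ _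
  complete := by
    intro u hu
    obtain ⟨f, hf⟩ := n.complete (fun k => φ (u k)) (fun ε hε => by
      obtain ⟨N, hN⟩ := hu ε hε
      refine ⟨N, fun m hm k hk => ?_⟩
      rw [← map_sub]
      exact hN m hm k hk)
    refine ⟨φ.symm f, fun ε hε => ?_⟩
    obtain ⟨N, hN⟩ := hf ε hε
    refine ⟨N, fun k hk => ?_⟩
    rw [map_sub, φ.apply_symm_apply]
    exact hN k hk

@[simp] theorem ofEquiv_apply (n : CNorm E') (φ : E ≃ₗ[ℂ] E') (x : E) :
    n.ofEquiv φ x = n (φ x) := rfl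

variable {B : Type} [NormedAddCommGroup B] [NormedSpace ℂ B] [CompleteSpace B]

/-- The shear. -/
def shear {B : Type} [AddCommGroup B] [Module ℂ B] (f : B →ₗ[ℂ] ℂ) : (B × ℂ) ≃ₗ[ℂ] (B × ℂ) where
  toFun := fun y => (y.1, y.2 - f y.1)
  invFun := fun y => (y.1, y.2 + f y.1)
  map_add' := fun a b => by
    ext <;> simp
    ring
  map_smul' := fun c a => by
    ext <;> simp
    ring
  left_inv := fun y => by simp
  right_inv := fun y => by simp

/-- The twisted norm. -/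
noncomputable def tw (f : B →ₗ[ℂ] ℂ) : CNorm (B × ℂ) := (std (B × ℂ)).ofEquiv (shear f)

theorem tw_apply (f : B →ₗ[ℂ] ℂ) (x : B) (a : ℂ) : tw f (x, a) = max ‖x‖ ‖a - f x‖ := rfl

/-- Complete norms on `B × ℂ` with a bounded projection on `B`. -/
theorem twist (n : CNorm (B × ℂ)) (h : ∃ C : ℝ, 0 < C ∧ ∀ y : B × ℂ, ‖y.1‖ ≤ C * n y) :
    ∃ f : B →ₗ[ℂ] ℂ, ∃ C : ℝ, 0 < C ∧ ∀ y, n y ≤ C * tw f y := by
  obtain ⟨θ, hθ, C, hC, h1⟩ := n.exists_functional ((0, 1) : B × ℂ) (by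
    intro h
    exact one_ne_zero (congrArg Prod.snd h))
  obtain ⟨C', hC', h2⟩ := h
  let f : B →ₗ[ℂ] ℂ := -(θ.comp (LinearMap.inl ℂ B ℂ))
  have h3 : ∀ (x : B) (a : ℂ), a - f x = θ (x, a) := by
    intro x a
    have h4 : ((x, a) : B × ℂ) = (x, 0) + a • (0, 1) := by
      ext <;> simp
    rw [h4, map_add, map_smul, hθ]
    simp [f]
    ring
  refine ⟨f, ?_⟩
  refine comparable (tw f) n (max C C') fun y => ?_
  obtain ⟨x, a⟩ := y
  rw [tw_apply, h3]
  refine max_le ((h2 (x, a)).trans ?_) ((h1 (x, a)).trans ?_)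
  · exact mul_le_mul_of_nonneg_right (le_max_right _ _) (n.nonneg _)
  · exact mul_le_mul_of_nonneg_right (le_max_left _ _) (n.nonneg _)

end CNorm

end Q90.N2
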