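import Mathlib
import Pool.Agent.Q90.N2Alg
import Pool.Agent.Q90.N2Twist

/-!
# Two Banach algebra norms, part 9: systems of norms
-/

namespace Q90.N2

open scoped BigOperators Topology
open Filter L1

variable {D : Dat}

/-- The norms induced on the components by a Banach algebra norm. -/
structure Sys (D : Dat) where
  /-- the norm on the first copy of `Y` -/
  n1 : CNorm Y
  /-- the norm on the second copy of `Y` -/
  n2 : CNorm Y
  /-- the norm on `V` -/
  nV : CNorm V
  /-- the norm on functionals -/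
  nd2 : CNorm D2
  /-- the norm on functionals -/
  nd3 : CNorm D3
  /-- a constant -/
  K : ℝ
  hK : 0 ≤ K
  s1 : ∀ a b, nV (mu D a b) ≤ n1 a * n2 b
  s2 : ∀ (a : Y) (d : D2), ‖d a.1‖ ≤ K * n1 a * nd2 d
  s3 : ∀ (v : V) (d : D3), ‖d v.1.1‖ ≤ K * nV v * nd3 d

theorem tau_inl (x y : X) (p : P Idx) :
    tau D (x, 0) (y, p) = ((tens x y, 0), 0) := by
  rw [tau_apply]
  have h1 : dg D.w (0 : P Idx) p = 0 := by
    have := dg_smul_left D.hw 0 0 p
    simpa using this
  have h2 : off (0 : P Idx) p = 0 := by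
    have := off.map_zero (M₂ := P Idx →L[ℂ] L1 (Off Idx))
    rw [map_zero]; rfl
  have h3 : qw D.w (0 : P Idx) p = 0 := by
    unfold qw
    rw [h1, h2]
    ext <;> simp
  change ((tens x y, 0), 0) + qw D.w (0 : P Idx) p = _
  rw [h3, add_zero]

theorem tau_inr (p p' : P Idx) :
    tau D (0, p) (0, p') = qw D.w p p' := by
  rw [tau_apply]
  change (((tens (0 : X) (0 : X) : L1 (ℕ × ℕ)), (0 : L1 (Off Idx))), (0 : X)) + qw D.w p p' = _
  have h1 : ((((tens (0 : X) (0 : X) : L1 (ℕ × ℕ)), (0 : L1 (Off Idx))), (0 : X)) : G Idx) = 0 := by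
    rw [map_zero]; rfl
  rw [h1, zero_add]

theorem tau_mixed (x : X) (p p' : P Idx) : tau D (0, p) (x, p') = qw D.w p p' := by
  rw [tau_apply]
  change (((tens (0 : X) x : L1 (ℕ × ℕ)), (0 : L1 (Off Idx))), (0 : X)) + qw D.w p p' = _
  have h1 : ((((tens (0 : X) x : L1 (ℕ × ℕ)), (0 : L1 (Off Idx))), (0 : X)) : G Idx) = 0 := by
    rw [map_zero]; rfl
  rw [h1, zero_add]

theorem mu_z2 (x : X) (p : P Idx) (c : ℂ) : mu D ((x, p), c) ((0, 0), 1) = ((0, x), c) := by
  unfold mu
  have h : tau D (x, p) ((0 : X), (0 : P Idx)) = 0 := map_zero _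
  rw [h]
  ext <;> simp

theorem mu_z1 (x : X) (p : P Idx) (c : ℂ) : mu D ((0, 0), 1) ((x, p), c) = ((0, x), c) := by
  unfold mu
  have h : tau D ((0 : X), (0 : P Idx)) (x, p) = 0 := by
    change (tau D 0) (x, p) = 0
    rw [map_zero]; rfl
  rw [h]
  ext <;> simp

theorem mu_T (x y : X) (a b : ℂ) :
    mu D ((x, 0), a) ((y, 0), b) = (((tens x y, 0), a • y + b • x), a * b) := by
  unfold mu
  rw [tau_inl]
  ext <;> simp

theorem mu_e (l : Idx) : mu D ((0, e l), 0) ((0, e l), 0) = (D.w l, 0) := by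
  unfold mu
  rw [tau_inr, qw_e_self]
  ext <;> simp

theorem mu_off {i j : Idx} (h : i ≠ j) :
    mu D ((0, e i), 0) ((0, e j), 0) = (((0, e ⟨(i, j), h⟩), 0), 0) := by
  unfold mu
  rw [tau_inr]
  unfold qw dg
  have h1 : off (e i : P Idx) (e j) = e ⟨(i, j), h⟩ := by
    refine L1.ext fun p => ?_
    rw [off_apply]
    by_cases hp : p = ⟨(i, j), h⟩
    · subst hp
      rw [e_self, e_self, e_self, one_mul]
    · rw [e_ne hp]
      by_cases h1 : p.1.1 = i
      · have h2 : p.1.2 ≠ j := fun h3 => hp (Subtype.ext (Prod.ext h1 h3))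
        rw [e_ne h2, mul_zero]
      · rw [e_ne h1, zero_mul]
  have h2 : ∀ k : Idx, ((e i : P Idx) k * (e j : P Idx) k) • D.w k = 0 := by
    intro k
    by_cases hk : k = i
    · have : k ≠ j := fun h3 => h (hk.symm.trans h3)
      rw [e_ne this, mul_zero, zero_smul]
    · rw [e_ne hk, zero_mul, zero_smul]
  simp only [h2, tsum_zero, h1]
  ext <;> simp

end Q90.N2
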