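import Mathlib
import Pool.Agent.Q90.N2Sys

/-!
# Two Banach algebra norms, part 10: analysis of a system of norms
-/

namespace Q90.N2

open scoped BigOperators Topology
open Filter L1 CNorm

variable {D : Dat} (s : Sys D)

theorem dg_e (w : Idx → G Idx) (j : Idx) (p : P Idx) : dg w (e j) p = p j • w j := by
  unfold dg
  rw [tsum_eq_single j]
  · rw [e_self, one_mul]
  · intro k hk
    rw [e_ne hk, zero_mul, zero_smul]

theorem qw_coord {i j : Idx} (h : j ≠ i) (p : P Idx) :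
    (qw D.w (e j) p).1.2 ⟨(j, i), h⟩ = p i := by
  unfold qw
  rw [dg_e]
  change (off (e j : P Idx) p) ⟨(j, i), h⟩ + p j * (D.w j).1.2 ⟨(j, i), h⟩ = p i
  have h1 : (D.w j).1.2 ⟨(j, i), h⟩ = 0 := by
    by_contra hne
    exact lt_irrefl _ (D.hs j ⟨(j, i), h⟩ hne).1
  rw [h1, mul_zero, add_zero, off_apply, e_self, one_mul]

theorem exists_ne_idx (i : Idx) : ∃ j : Idx, j ≠ i := by
  obtain ⟨φ, hφ⟩ := exists_book
  obtain ⟨l, _, hl⟩ := hφ 0 {i} (Set.countable_singleton i)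
  exact ⟨l, (hl i rfl).ne'⟩

namespace Sys

theorem fst_n1 : ∃ C : ℝ, 0 < C ∧ ∀ y : Y, ‖y.1‖ ≤ C * s.n1 y := by
  refine s.n1.bounded_of_sep (std Xh) (LinearMap.fst ℂ Xh ℂ) fun z hz => ?_
  refine SeparatingDual.eq_zero_of_forall_dual_eq_zero (R := ℂ) fun d => ?_
  refine hz d.toLinearMap ⟨s.K * s.nd2 d, fun y => ?_⟩ ⟨‖d‖, fun y => d.le_opNorm y⟩
  have := s.s2 y d
  calc _ ≤ _ := this
    _ = _ := by ring

theorem fst_n2 : ∃ C : ℝ, 0 < C ∧ ∀ y : Y, ‖y.1‖ ≤ C * s.n2 y := by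
  refine s.n2.bounded_of_sep (std Xh) (LinearMap.fst ℂ Xh ℂ) fun z hz => ?_
  obtain ⟨x, p⟩ := z
  have hx : x = 0 := by
    refine L1.ext fun i => ?_
    refine hz ((coord i).comp (ContinuousLinearMap.fst ℂ X (P Idx))).toLinearMap
      ⟨s.K * (s.n1 ((e 0, 0), 0)) *
        s.nd3 ((coord ((0 : ℕ), i)).comp (ContinuousLinearMap.fst ℂ (L1 (ℕ × ℕ)) (L1 (Off Idx)))),
        fun y => ?_⟩ ⟨1, fun y => ?_⟩
    · obtain ⟨⟨x', p'⟩, a⟩ := y
      have h1 := s.s3 (mu D ((e 0, 0), 0) ((x', p'), a))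
        ((coord ((0 : ℕ), i)).comp (ContinuousLinearMap.fst ℂ (L1 (ℕ × ℕ)) (L1 (Off Idx))))
      rw [Alg.mu_fst, tau_inl] at h1
      have h2 : ((coord ((0 : ℕ), i)).comp
        (ContinuousLinearMap.fst ℂ (L1 (ℕ × ℕ)) (L1 (Off Idx)))) (tens (e 0 : X) x', 0) = x' i := by
        change (tens (e 0 : X) x') ((0 : ℕ), i) = _
        rw [tens_apply, e_self, one_mul]
      change ‖x' i‖ ≤ _
      change ‖((coord ((0 : ℕ), i)).comp
        (ContinuousLinearMap.fst ℂ (L1 (ℕ × ℕ)) (L1 (Off Idx)))) (tens (e 0 : X) x', 0)‖ ≤ _ at h1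
      rw [h2] at h1
      refine h1.trans ?_
      have h3 := s.s1 ((e 0, 0), 0) ((x', p'), a)
      calc _ ≤ s.K * (s.n1 ((e 0, 0), 0) * s.n2 ((x', p'), a)) * _ :=
            mul_le_mul_of_nonneg_right (mul_le_mul_of_nonneg_left h3 s.hK) (s.nd3.nonneg _)
        _ = _ := by ring
    · rw [one_mul]
      exact (norm_ap_le _ _).trans (norm_fst_le y)
  have hp : p = 0 := by
    refine L1.ext fun i => ?_
    obtain ⟨j, hj⟩ := exists_ne_idx i
    refine hz ((coord i).comp (ContinuousLinearMap.snd ℂ X (P Idx))).toLinearMap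
      ⟨s.K * (s.n1 ((0, e j), 0)) *
        s.nd3 ((coord (⟨(j, i), hj⟩ : Off Idx)).comp
          (ContinuousLinearMap.snd ℂ (L1 (ℕ × ℕ)) (L1 (Off Idx)))),
        fun y => ?_⟩ ⟨1, fun y => ?_⟩
    · obtain ⟨⟨x', p'⟩, a⟩ := y
      have h1 := s.s3 (mu D ((0, e j), 0) ((x', p'), a))
        ((coord (⟨(j, i), hj⟩ : Off Idx)).comp
          (ContinuousLinearMap.snd ℂ (L1 (ℕ × ℕ)) (L1 (Off Idx))))
      rw [Alg.mu_fst, tau_mixed] at h1
      have h2 : ((coord (⟨(j, i), hj⟩ : Off Idx)).comp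
          (ContinuousLinearMap.snd ℂ (L1 (ℕ × ℕ)) (L1 (Off Idx)))) (qw D.w (e j) p').1 = p' i :=
        qw_coord hj p'
      rw [h2] at h1
      refine h1.trans ?_
      have h3 := s.s1 ((0, e j), 0) ((x', p'), a)
      calc _ ≤ s.K * (s.n1 ((0, e j), 0) * s.n2 ((x', p'), a)) * _ :=
            mul_le_mul_of_nonneg_right (mul_le_mul_of_nonneg_left h3 s.hK) (s.nd3.nonneg _)
        _ = _ := by ring
    · rw [one_mul]
      exact (norm_ap_le _ _).trans (norm_snd_le y)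
  rw [hx, hp]
  rfl

theorem nd2_le : ∃ C : ℝ, 0 < C ∧ ∀ d : D2, s.nd2 d ≤ C * ‖d‖ := by
  refine (std D2).bounded_of_sep s.nd2 LinearMap.id fun z hz => ?_
  refine ContinuousLinearMap.ext fun x => ?_
  refine hz (ContinuousLinearMap.apply ℂ ℂ x).toLinearMap ⟨‖x‖, fun d => ?_⟩
    ⟨s.K * s.n1 (x, 0), fun d => s.s2 (x, 0) d⟩
  have := d.le_opNorm x
  rw [mul_comm] at this
  exact this

theorem nd3_le : ∃ C : ℝ, 0 < C ∧ ∀ d : D3, s.nd3 d ≤ C * ‖d‖ := by
  refine (std D3).bounded_of_sep s.nd3 LinearMap.id fun z hz => ?_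
  refine ContinuousLinearMap.ext fun x => ?_
  refine hz (ContinuousLinearMap.apply ℂ ℂ x).toLinearMap ⟨‖x‖, fun d => ?_⟩
    ⟨s.K * s.nV ((x, 0), 0), fun d => s.s3 ((x, 0), 0) d⟩
  have := d.le_opNorm x
  rw [mul_comm] at this
  exact this

/-- The inclusion of `X × ℂ` in `V`. -/
noncomputable def inW : (X × ℂ) →ₗ[ℂ] V :=
  LinearMap.prodMap (LinearMap.inr ℂ (Q Idx) X) LinearMap.id

@[simp] theorem inW_apply (x : X) (c : ℂ) : inW (x, c) = ((0, x), c) := rfl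

theorem inW_injective : Function.Injective inW := by
  rintro ⟨x, c⟩ ⟨x', c'⟩ h
  have h1 := congrArg (fun v : V => v.1.2) h
  have h2 := congrArg (fun v : V => v.2) h
  exact Prod.ext h1 h2

/-- The norm on `X × ℂ`. -/
noncomputable def nW : CNorm (X × ℂ) :=
  s.nV.comap inW inW_injective (by
    intro u v h
    have h0 : v.1.1 = 0 := by
      refine SeparatingDual.eq_zero_of_forall_dual_eq_zero (R := ℂ) fun d => ?_
      have h1 : Tendsto (fun k => s.K * s.nV (inW (u k) - v) * s.nd3 d) atTop (𝓝 0) := by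
        simpa using (h.const_mul s.K).mul_const (s.nd3 d)
      have h2 : Tendsto (fun _ : ℕ => ‖d v.1.1‖) atTop (𝓝 0) := by
        refine squeeze_zero (fun _ => norm_nonneg _) (fun k => ?_) h1
        have h3 := s.s3 (inW (u k) - v) d
        have h4 : (inW (u k) - v).1.1 = - v.1.1 := by
          obtain ⟨x, c⟩ := u k
          rw [inW_apply]
          simp
        rw [h4, map_neg, norm_neg] at h3
        exact h3
      exact norm_eq_zero.1 (tendsto_nhds_unique tendsto_const_nhds h2)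
    refine ⟨(v.1.2, v.2), ?_⟩
    rw [inW_apply, ← h0])

theorem nW_apply (x : X) (c : ℂ) : s.nW (x, c) = s.nV ((0, x), c) := rfl

theorem nW_le1 (x : X) (p : P Idx) (c : ℂ) :
    s.nW (x, c) ≤ s.n2 ((0, 0), 1) * s.n1 ((x, p), c) := by
  have := s.s1 ((x, p), c) ((0, 0), 1)
  rw [mu_z2, mul_comm] at this
  exact this

theorem nW_le2 (x : X) (p : P Idx) (c : ℂ) :
    s.nW (x, c) ≤ s.n1 ((0, 0), 1) * s.n2 ((x, p), c) := by
  have := s.s1 ((0, 0), 1) ((x, p), c)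
  rw [mu_z1] at this
  exact this

end Sys

end Q90.N2
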