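import Mathlib
import Pool.Agent.Q90.N2Cls

/-!
# Two Banach algebra norms, part 11: the functional attached to a system of norms
-/

namespace Q90.N2

open scoped BigOperators Topology
open Filter L1 CNorm

variable {D : Dat} (s : Sys D)

namespace Sys

theorem exists_f : ∃ f : X →ₗ[ℂ] ℂ, ∃ C : ℝ, 0 < C ∧
    (∀ (x : X) (p : P Idx) (a : ℂ), s.n1 ((x, p), a) ≤ C * (‖((x, p) : Xh)‖ + ‖a - f x‖)) ∧
    (∀ (x : X) (p : P Idx) (a : ℂ), s.n2 ((x, p), a) ≤ C * (‖((x, p) : Xh)‖ + ‖a - f x‖)) ∧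
    (∀ (x : X) (c : ℂ), ‖x‖ + ‖c - f x‖ ≤ C * s.nW (x, c)) := by
  obtain ⟨f1, C1, hC1, h1⟩ := twist s.n1 s.fst_n1
  obtain ⟨f2, C2, hC2, h2⟩ := twist s.n2 s.fst_n2
  let f : X →ₗ[ℂ] ℂ := f1.comp (LinearMap.inl ℂ X (P Idx))
  have hf : ∀ x, f x = f1 (x, 0) := fun x => rfl
  set κ1 := s.n2 ((0, 0), 1) with hκ1
  set κ2 := s.n1 ((0, 0), 1) with hκ2
  have k1 : 0 ≤ κ1 := s.n2.nonneg _
  have k2 : 0 ≤ κ2 := s.n1.nonneg _
  have hn : ∀ x : X, ‖((x, 0) : Xh)‖ = ‖x‖ := fun x => by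
    rw [Prod.norm_mk, norm_zero, max_eq_left (norm_nonneg _)]
  have h3 : ∀ w : X × ℂ, s.nW w ≤ (κ1 * C1) * tw f w := by
    rintro ⟨x, c⟩
    refine (s.nW_le1 x 0 c).trans ?_
    rw [mul_assoc]
    refine mul_le_mul_of_nonneg_left ((h1 ((x, 0), c)).trans ?_) k1
    rw [tw_apply, tw_apply, hn, hf]
  obtain ⟨C', hC', h4⟩ := comparable s.nW (tw f) _ h3
  have h5 : ∀ (x : X) (p : P Idx), ‖f1 (x, p) - f x‖ ≤ (C' * κ1 * C1) * ‖((x, p) : Xh)‖ := by
    intro x p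
    have a1 := h4 (x, f1 (x, p))
    have a2 := s.nW_le1 x p (f1 (x, p))
    have a3 := h1 ((x, p), f1 (x, p))
    rw [tw_apply, sub_self, norm_zero, max_eq_left (norm_nonneg _)] at a3
    rw [tw_apply] at a1
    calc _ ≤ _ := (le_max_right _ _).trans a1
      _ ≤ C' * (κ1 * (C1 * ‖((x, p) : Xh)‖)) :=
          mul_le_mul_of_nonneg_left (a2.trans (mul_le_mul_of_nonneg_left a3 k1)) hC'.le
      _ = _ := by ring
  have h6 : ∀ (x : X) (p : P Idx), ‖f2 (x, p) - f x‖ ≤ (C' * κ2 * C2) * ‖((x, p) : Xh)‖ := by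
    intro x p
    have a1 := h4 (x, f2 (x, p))
    have a2 := s.nW_le2 x p (f2 (x, p))
    have a3 := h2 ((x, p), f2 (x, p))
    rw [tw_apply, sub_self, norm_zero, max_eq_left (norm_nonneg _)] at a3
    rw [tw_apply] at a1
    calc _ ≤ _ := (le_max_right _ _).trans a1
      _ ≤ C' * (κ2 * (C2 * ‖((x, p) : Xh)‖)) :=
          mul_le_mul_of_nonneg_left (a2.trans (mul_le_mul_of_nonneg_left a3 k2)) hC'.le
      _ = _ := by ring
  set A1 := C' * κ1 * C1 with hA1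
  set A2 := C' * κ2 * C2 with hA2
  have p1 : 0 ≤ A1 := by positivity
  have p2 : 0 ≤ A2 := by positivity
  have h7 : ∀ (x : X) (p : P Idx) (a : ℂ),
      s.n1 ((x, p), a) ≤ C1 * (1 + A1) * (‖((x, p) : Xh)‖ + ‖a - f x‖) := by
    intro x p a
    refine (h1 ((x, p), a)).trans ?_
    rw [mul_assoc]
    refine mul_le_mul_of_nonneg_left ?_ hC1.le
    rw [tw_apply]
    have a1 : ‖a - f1 (x, p)‖ ≤ ‖a - f x‖ + A1 * ‖((x, p) : Xh)‖ := by
      have : a - f1 (x, p) = (a - f x) - (f1 (x, p) - f x) := by ring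
      rw [this]
      exact (norm_sub_le _ _).trans (add_le_add le_rfl (h5 x p))
    have a2 : 0 ≤ A1 * ‖a - f x‖ := by positivity
    have a3 : 0 ≤ A1 * ‖((x, p) : Xh)‖ := by positivity
    have a4 := norm_nonneg (a - f x)
    have a5 := norm_nonneg ((x, p) : Xh)
    refine max_le ?_ ?_
    · nlinarith
    · nlinarith
  have h8 : ∀ (x : X) (p : P Idx) (a : ℂ),
      s.n2 ((x, p), a) ≤ C2 * (1 + A2) * (‖((x, p) : Xh)‖ + ‖a - f x‖) := by
    intro x p a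
    refine (h2 ((x, p), a)).trans ?_
    rw [mul_assoc]
    refine mul_le_mul_of_nonneg_left ?_ hC2.le
    rw [tw_apply]
    have a1 : ‖a - f2 (x, p)‖ ≤ ‖a - f x‖ + A2 * ‖((x, p) : Xh)‖ := by
      have : a - f2 (x, p) = (a - f x) - (f2 (x, p) - f x) := by ring
      rw [this]
      exact (norm_sub_le _ _).trans (add_le_add le_rfl (h6 x p))
    have a2 : 0 ≤ A2 * ‖a - f x‖ := by positivity
    have a3 : 0 ≤ A2 * ‖((x, p) : Xh)‖ := by positivity
    have a4 := norm_nonneg (a - f x)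
    have a5 := norm_nonneg ((x, p) : Xh)
    refine max_le ?_ ?_
    · nlinarith
    · nlinarith
  refine ⟨f, C1 * (1 + A1) + C2 * (1 + A2) + 2 * C', by positivity,
    fun x p a => (h7 x p a).trans ?_, fun x p a => (h8 x p a).trans ?_, fun x c => ?_⟩
  · refine mul_le_mul_of_nonneg_right ?_ (by positivity)
    have : 0 ≤ C2 * (1 + A2) + 2 * C' := by positivity
    linarith
  · refine mul_le_mul_of_nonneg_right ?_ (by positivity)
    have : 0 ≤ C1 * (1 + A1) + 2 * C' := by positivity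
    linarith
  · have a1 := h4 (x, c)
    rw [tw_apply] at a1
    have a2 := (le_max_left _ _).trans a1
    have a3 := (le_max_right _ _).trans a1
    have a4 : 0 ≤ (C1 * (1 + A1) + C2 * (1 + A2)) * s.nW (x, c) :=
      mul_nonneg (by positivity) (s.nW.nonneg _)
    nlinarith

/-- The key estimate on the graph of `h`. -/
theorem graph_le {C : ℝ} (hC : 0 < C) {f : X →ₗ[ℂ] ℂ}
    (h1 : ∀ (x : X) (p : P Idx) (a : ℂ), s.n1 ((x, p), a) ≤ C * (‖((x, p) : Xh)‖ + ‖a - f x‖))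
    (h2 : ∀ (x : X) (p : P Idx) (a : ℂ), s.n2 ((x, p), a) ≤ C * (‖((x, p) : Xh)‖ + ‖a - f x‖))
    (q : Q Idx) : s.nV ((q, D.h q), 0) ≤ 2 * C ^ 2 * ‖((q, D.h q) : G Idx)‖ := by
  have key : ∀ q : Q Idx, ‖((q, D.h q) : G Idx)‖ ≤ 1 / 2 → s.nV ((q, D.h q), 0) ≤ C ^ 2 := by
    intro q hq
    obtain ⟨l, hl⟩ := D.hb q hq
    rw [← hl, ← mu_e]
    refine (s.s1 _ _).trans ?_
    have a0 : ‖((0, e l) : Xh)‖ = 1 := by
      rw [Prod.norm_mk, norm_zero, norm_e, max_eq_right zero_le_one]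
    have a1 := h1 0 (e l) 0
    have a2 := h2 0 (e l) 0
    rw [a0, map_zero, sub_zero, norm_zero, add_zero, mul_one] at a1 a2
    rw [pow_two]
    exact mul_le_mul a1 a2 (s.n2.nonneg _) hC.le
  set r := ‖((q, D.h q) : G Idx)‖ with hr
  rcases eq_or_lt_of_le (norm_nonneg ((q, D.h q) : G Idx)) with h0 | h0
  · have hz : ((q, D.h q) : G Idx) = 0 := norm_eq_zero.1 h0.symm
    rw [hr, hz, norm_zero, mul_zero]
    change s.nV 0 ≤ 0
    rw [s.nV.zero]
  · have hr0 : (0 : ℝ) < 2 * r := by rw [hr]; positivity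
    let c : ℂ := (((2 * r)⁻¹ : ℝ) : ℂ)
    have hc : ‖c‖ = (2 * r)⁻¹ := by
      rw [Complex.norm_real, Real.norm_of_nonneg (inv_nonneg.2 hr0.le)]
    have h3 : ((c • q, D.h (c • q)) : G Idx) = c • ((q, D.h q) : G Idx) := by
      rw [map_smul]; rfl
    have h4 := key (c • q) (by
      rw [h3, norm_smul, hc, ← hr]
      rw [mul_inv, mul_assoc, inv_mul_cancel₀ (by rw [hr]; exact h0.ne')]
      norm_num)
    have h5 : (((c • q, D.h (c • q)), 0) : V) = c • (((q, D.h q), 0) : V) :=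
      Prod.ext h3 (smul_zero c).symm
    rw [h5, s.nV.smul, hc] at h4
    have h6 := mul_le_mul_of_nonneg_left h4 hr0.le
    rw [← mul_assoc, mul_inv_cancel₀ hr0.ne', one_mul] at h6
    linarith

end Sys

end Q90.N2
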