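import Mathlib
import Pool.Agent.Q90.N2Main

/-!
# Two Banach algebra norms, part 12: the dichotomy
-/

namespace Q90.N2

open scoped BigOperators Topology
open Filter L1 CNorm

variable {D : Dat} (s : Sys D)

/-- small vectors with `F = 1` -/
noncomputable def xs (n : ℕ) : X := ((1 / ((n : ℝ) + 1) : ℝ) : ℂ) • (e (n + 1) : X)

theorem F_xs (n : ℕ) : D.F (xs n) = 1 := by
  unfold xs
  rw [map_smul, D.hF, smul_eq_mul]
  push_cast
  have : (n : ℂ) + 1 ≠ 0 := by exact_mod_cast Nat.succ_ne_zero n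
  field_simp

theorem norm_xs (n : ℕ) : ‖xs n‖ = 1 / ((n : ℝ) + 1) := by
  unfold xs
  rw [norm_smul, norm_e, mul_one, Complex.norm_real, Real.norm_of_nonneg (by positivity)]

theorem tendsto_xs : Tendsto xs atTop (𝓝 0) := by
  rw [tendsto_zero_iff_norm_tendsto_zero]
  simp only [norm_xs]
  exact tendsto_one_div_add_atTop_nhds_zero_nat

namespace Sys

theorem star {C : ℝ} (hC : 0 < C) {f : X →ₗ[ℂ] ℂ}
    (h1 : ∀ (x : X) (p : P Idx) (a : ℂ), s.n1 ((x, p), a) ≤ C * (‖((x, p) : Xh)‖ + ‖a - f x‖))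
    (h2 : ∀ (x : X) (p : P Idx) (a : ℂ), s.n2 ((x, p), a) ≤ C * (‖((x, p) : Xh)‖ + ‖a - f x‖))
    (h3 : ∀ (x : X) (c : ℂ), ‖x‖ + ‖c - f x‖ ≤ C * s.nW (x, c)) (x y : X) :
    ‖f x * f y - (1 / 2) * (D.F x * f y + D.F y * f x)‖ ≤
      3 * C ^ 3 * (‖x‖ * ‖y‖ + ‖D.F x • y + D.F y • x‖) := by
  have hn : ∀ x : X, ‖((x, 0) : Xh)‖ = ‖x‖ := fun x => by
    rw [Prod.norm_mk, norm_zero, max_eq_left (norm_nonneg _)]
  have a1 := h1 x 0 (f x)
  have a2 := h2 y 0 (f y)
  rw [hn, sub_self, norm_zero, add_zero] at a1 a2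
  have a3 := s.s1 ((x, 0), f x) ((y, 0), f y)
  rw [mu_T] at a3
  have a4 := s.graph_le hC h1 h2 (tens x y, 0)
  rw [D.ht] at a4
  have a5 : ‖(((tens x y, 0), (1 / 2 : ℂ) • (D.F x • y + D.F y • x)) : G Idx)‖ ≤
      ‖x‖ * ‖y‖ + ‖D.F x • y + D.F y • x‖ := by
    rw [Prod.norm_mk, Prod.norm_mk, norm_zero, norm_tens, norm_smul]
    have b1 : 0 ≤ ‖x‖ * ‖y‖ := by positivity
    have b2 := norm_nonneg (D.F x • y + D.F y • x)
    have b3 : ‖(1 / 2 : ℂ)‖ = 1 / 2 := by norm_num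
    rw [b3]
    refine max_le (max_le ?_ ?_) ?_ <;> linarith
  have a6 : inW (f x • y + f y • x - (1 / 2 : ℂ) • (D.F x • y + D.F y • x), f x * f y) =
      ((((tens x y, 0), f x • y + f y • x), f x * f y) : V) -
        (((tens x y, 0), (1 / 2 : ℂ) • (D.F x • y + D.F y • x)), 0) := by
    rw [inW_apply]
    refine Prod.ext (Prod.ext ?_ rfl) ?_
    · exact (sub_self _).symm
    · exact (sub_zero _).symm
  have a7 : s.nW (f x • y + f y • x - (1 / 2 : ℂ) • (D.F x • y + D.F y • x), f x * f y) ≤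
      3 * C ^ 2 * (‖x‖ * ‖y‖ + ‖D.F x • y + D.F y • x‖) := by
    change s.nV (inW _) ≤ _
    rw [a6]
    refine (s.nV.sub_le _ _).trans ?_
    have b1 : s.nV (((tens x y, 0), f x • y + f y • x), f x * f y) ≤ C ^ 2 * (‖x‖ * ‖y‖) := by
      refine a3.trans ?_
      calc _ ≤ (C * ‖x‖) * (C * ‖y‖) := mul_le_mul a1 a2 (s.n2.nonneg _) (by positivity)
        _ = _ := by ring
    have b2 := a4.trans (mul_le_mul_of_nonneg_left a5 (by positivity))
    have b3 : 0 ≤ C ^ 2 * ‖D.F x • y + D.F y • x‖ := by positivity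
    nlinarith
  have a8 := h3 (f x • y + f y • x - (1 / 2 : ℂ) • (D.F x • y + D.F y • x)) (f x * f y)
  have a9 : f x * f y - f (f x • y + f y • x - (1 / 2 : ℂ) • (D.F x • y + D.F y • x)) =
      -(f x * f y - (1 / 2) * (D.F x * f y + D.F y * f x)) := by
    rw [map_sub, map_smul, map_add, map_add, map_smul, map_smul, map_smul, map_smul]
    simp only [smul_eq_mul]
    ring
  rw [a9, norm_neg] at a8
  have b4 := norm_nonneg (f x • y + f y • x - (1 / 2 : ℂ) • (D.F x • y + D.F y • x))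
  calc _ ≤ C * s.nW (f x • y + f y • x - (1 / 2 : ℂ) • (D.F x • y + D.F y • x), f x * f y) := by
        linarith
    _ ≤ C * (3 * C ^ 2 * (‖x‖ * ‖y‖ + ‖D.F x • y + D.F y • x‖)) :=
        mul_le_mul_of_nonneg_left a7 hC.le
    _ = _ := by ring

/-- The functional is `F` or `0` up to a bounded functional. -/
theorem dich {C : ℝ} (hC : 0 < C) {f : X →ₗ[ℂ] ℂ}
    (h1 : ∀ (x : X) (p : P Idx) (a : ℂ), s.n1 ((x, p), a) ≤ C * (‖((x, p) : Xh)‖ + ‖a - f x‖))
    (h2 : ∀ (x : X) (p : P Idx) (a : ℂ), s.n2 ((x, p), a) ≤ C * (‖((x, p) : Xh)‖ + ‖a - f x‖))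
    (h3 : ∀ (x : X) (c : ℂ), ‖x‖ + ‖c - f x‖ ≤ C * s.nW (x, c)) :
    ∃ ψ : X →L[ℂ] ℂ, (∀ x, f x = ψ x) ∨ (∀ x, f x = D.F x + ψ x) := by
  have hs := s.star hC h1 h2 h3
  set B := 3 * C ^ 3 with hB
  have hB0 : 0 ≤ B := by positivity
  have k1 : ∀ x : LinearMap.ker D.F, ‖(f.comp (LinearMap.ker D.F).subtype) x‖ ≤ √B * ‖x‖ := by
    intro x
    have hx : D.F (x : X) = 0 := x.2
    have h4 := hs x x
    rw [hx, zero_mul, zero_smul, add_zero, mul_zero, sub_zero, add_zero, norm_zero, add_zero,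
      norm_mul] at h4
    change ‖f (x : X)‖ ≤ √B * ‖(x : X)‖
    refine abs_le_of_sq_le_sq' ?_ (by positivity) |>.2
    rw [mul_pow, Real.sq_sqrt hB0]
    nlinarith
  obtain ⟨ψ, hψ, _⟩ := exists_extension_norm_eq (LinearMap.ker D.F)
    ((f.comp (LinearMap.ker D.F).subtype).mkContinuous (√B) k1)
  have k2 : ∀ x : X, D.F x = 0 → f x = ψ x := fun x hx => (hψ ⟨x, hx⟩).symm
  set u : X := e 1 with hu
  have hFu : D.F u = 1 := by
    rw [hu, D.hF]
    norm_num
  set t : ℂ := f u - ψ u with ht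
  have k3 : ∀ x : X, f x = t * D.F x + ψ x := by
    intro x
    have h4 := k2 (x - D.F x • u) (by rw [map_sub, map_smul, hFu, smul_eq_mul, mul_one, sub_self])
    rw [map_sub, map_sub, map_smul, map_smul, smul_eq_mul, smul_eq_mul] at h4
    rw [ht]
    linear_combination h4
  have k4 : t * t - t = 0 := by
    have l1 : Tendsto (fun n => ψ (xs n)) atTop (𝓝 0) := by
      have := (ψ.continuous.tendsto 0).comp tendsto_xs
      rw [map_zero] at this
      exact this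
    have l2 : Tendsto (fun n => (t + ψ (xs n)) * (t + ψ (xs n)) - (t + ψ (xs n))) atTop
        (𝓝 ((t + 0) * (t + 0) - (t + 0))) :=
      ((l1.const_add t).mul (l1.const_add t)).sub (l1.const_add t)
    rw [add_zero] at l2
    have l3 : Tendsto (fun n => B * (‖xs n‖ * ‖xs n‖ + ‖xs n + xs n‖)) atTop (𝓝 0) := by
      have m1 : Tendsto (fun n => ‖xs n‖) atTop (𝓝 0) :=
        tendsto_zero_iff_norm_tendsto_zero.1 tendsto_xs
      have m2 : Tendsto (fun n => ‖xs n + xs n‖) atTop (𝓝 0) := by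
        refine tendsto_zero_iff_norm_tendsto_zero.1 ?_
        simpa using tendsto_xs.add tendsto_xs
      simpa using ((m1.mul m1).add m2).const_mul B
    have l4 : Tendsto (fun n => (t + ψ (xs n)) * (t + ψ (xs n)) - (t + ψ (xs n))) atTop
        (𝓝 0) := by
      refine squeeze_zero_norm (fun n => ?_) l3
      have m3 := hs (xs n) (xs n)
      rw [F_xs, one_smul, one_mul, k3 (xs n), F_xs, mul_one] at m3
      have m4 : (t + ψ (xs n)) * (t + ψ (xs n)) - 1 / 2 * (t + ψ (xs n) + (t + ψ (xs n))) =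
        (t + ψ (xs n)) * (t + ψ (xs n)) - (t + ψ (xs n)) := by ring
      rw [m4] at m3
      exact m3
    exact tendsto_nhds_unique l2 l4
  have k5 : t = 0 ∨ t = 1 := by
    have : t * (t - 1) = 0 := by linear_combination k4
    rcases mul_eq_zero.1 this with h | h
    · exact Or.inl h
    · exact Or.inr (sub_eq_zero.1 h)
  refine ⟨ψ, ?_⟩
  rcases k5 with h | h
  · left
    intro x
    rw [k3, h, zero_mul, zero_add]
  · right
    intro x
    rw [k3, h, one_mul]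

end Sys

end Q90.N2
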