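import Mathlib
import Pool.Agent.Q90.N2Dich

/-!
# Two Banach algebra norms, part 13: the bounded case
-/

namespace Q90.N2

open scoped BigOperators Topology
open Filter L1 CNorm

variable {D : Dat} (s : Sys D)

namespace Sys

theorem norm_inX' (x : X) : ‖(((x, 0), 0) : Y)‖ = ‖x‖ := by
  rw [Prod.norm_mk, Prod.norm_mk, norm_zero, norm_zero, max_eq_left (norm_nonneg x),
    max_eq_left (norm_nonneg x)]

theorem norm_inP' (p : P Idx) : ‖(((0, p), 0) : Y)‖ = ‖p‖ := by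
  rw [Prod.norm_mk, Prod.norm_mk, norm_zero, norm_zero, max_eq_right (norm_nonneg p),
    max_eq_left (norm_nonneg p)]

theorem nW_bdd {C : ℝ} (hC : 0 < C) (h1 : ∀ y : Y, s.n1 y ≤ C * ‖y‖) (w : X × ℂ) :
    s.nW w ≤ (s.n2 ((0, 0), 1) * C) * ‖w‖ := by
  obtain ⟨x, c⟩ := w
  refine (s.nW_le1 x 0 c).trans ?_
  rw [mul_assoc]
  refine mul_le_mul_of_nonneg_left ((h1 ((x, 0), c)).trans_eq ?_) (s.n2.nonneg _)
  rw [Prod.norm_mk, Prod.norm_mk, Prod.norm_mk, norm_zero, max_eq_left (norm_nonneg x)]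

theorem nV_tens {C : ℝ} (hC : 0 < C) (h1 : ∀ y : Y, s.n1 y ≤ C * ‖y‖)
    (h2 : ∀ y : Y, s.n2 y ≤ C * ‖y‖) (x y : X) :
    s.nV (((tens x y, 0), 0), 0) ≤ C ^ 2 * (‖x‖ * ‖y‖) := by
  have a1 := s.s1 ((x, 0), 0) ((y, 0), 0)
  rw [mu_T, zero_smul, zero_smul, add_zero, zero_mul] at a1
  refine a1.trans ?_
  have a2 := h1 ((x, 0), 0)
  have a3 := h2 ((y, 0), 0)
  rw [norm_inX'] at a2 a3
  calc _ ≤ (C * ‖x‖) * (C * ‖y‖) := mul_le_mul a2 a3 (s.n2.nonneg _) (by positivity)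
    _ = _ := by ring

theorem nV_off {C : ℝ} (hC : 0 < C) (h1 : ∀ y : Y, s.n1 y ≤ C * ‖y‖)
    (h2 : ∀ y : Y, s.n2 y ≤ C * ‖y‖) (p : Off Idx) :
    s.nV (((0, e p), 0), 0) ≤ C ^ 2 := by
  obtain ⟨⟨i, j⟩, hij⟩ := p
  have a1 := s.s1 ((0, e i), 0) ((0, e j), 0)
  rw [mu_off hij] at a1
  refine a1.trans ?_
  have a2 := h1 ((0, e i), 0)
  have a3 := h2 ((0, e j), 0)
  rw [norm_inP', norm_e, mul_one] at a2 a3
  calc _ ≤ C * C := mul_le_mul a2 a3 (s.n2.nonneg _) (by positivity)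
    _ = _ := by ring

/-- Sections of `V → Q`. -/
theorem sec {C : ℝ} (S1 : L1 (ℕ × ℕ) →ₗ[ℂ] V)
    (b1 : ∀ q, s.nV (S1 q) ≤ C ^ 2 * ‖q‖) (c1 : ∀ p, S1 (e p) = (((e p, 0), 0), 0))
    (S2 : L1 (Off Idx) →ₗ[ℂ] V)
    (b2 : ∀ q, s.nV (S2 q) ≤ C ^ 2 * ‖q‖) (c2 : ∀ p, S2 (e p) = (((0, e p), 0), 0))
    (q : Q Idx) : (S1 q.1 + S2 q.2).1.1 = q := by
  refine eq_of_sub_eq_zero ?_
  refine SeparatingDual.eq_zero_of_forall_dual_eq_zero (R := ℂ) fun d => ?_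
  rw [map_sub, sub_eq_zero]
  let π : V →ₗ[ℂ] ℂ := (d : Q Idx →ₗ[ℂ] ℂ).comp ((LinearMap.fst ℂ (Q Idx) X).comp
    (LinearMap.fst ℂ (G Idx) ℂ))
  have e1 : π.comp S1 = (d : Q Idx →ₗ[ℂ] ℂ).comp (LinearMap.inl ℂ _ _) := by
    refine lift_unique (std ℂ) _ _ (s.K * C ^ 2 * s.nd3 d) ‖d‖ (fun q => ?_) (fun q => ?_)
      (fun γ => ?_)
    · have a1 := s.s3 (S1 q) d
      refine a1.trans ?_
      calc _ ≤ s.K * (C ^ 2 * ‖q‖) * s.nd3 d := mul_le_mul_of_nonneg_right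
            (mul_le_mul_of_nonneg_left (b1 q) s.hK) (s.nd3.nonneg _)
        _ = _ := by ring
    · refine (d.le_opNorm _).trans (le_of_eq ?_)
      rw [LinearMap.inl_apply, Prod.norm_mk, norm_zero, max_eq_left (norm_nonneg _)]
    · rw [LinearMap.comp_apply, c1]
      rfl
  have e2 : π.comp S2 = (d : Q Idx →ₗ[ℂ] ℂ).comp (LinearMap.inr ℂ _ _) := by
    refine lift_unique (std ℂ) _ _ (s.K * C ^ 2 * s.nd3 d) ‖d‖ (fun q => ?_) (fun q => ?_)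
      (fun γ => ?_)
    · have a1 := s.s3 (S2 q) d
      refine a1.trans ?_
      calc _ ≤ s.K * (C ^ 2 * ‖q‖) * s.nd3 d := mul_le_mul_of_nonneg_right
            (mul_le_mul_of_nonneg_left (b2 q) s.hK) (s.nd3.nonneg _)
        _ = _ := by ring
    · refine (d.le_opNorm _).trans (le_of_eq ?_)
      rw [LinearMap.inr_apply, Prod.norm_mk, norm_zero, max_eq_right (norm_nonneg _)]
    · rw [LinearMap.comp_apply, c2]
      rfl
  have f1 : d (S1 q.1).1.1 = d (q.1, 0) := LinearMap.congr_fun e1 q.1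
  have f2 : d (S2 q.2).1.1 = d (0, q.2) := LinearMap.congr_fun e2 q.2
  change d ((S1 q.1).1.1 + (S2 q.2).1.1) = d q
  rw [map_add, f1, f2, ← map_add, Prod.mk_add_mk, add_zero, zero_add]

theorem S1_tens {C : ℝ} (hT : ∀ x y : X, s.nV (((tens x y, 0), 0), 0) ≤ C ^ 2 * (‖x‖ * ‖y‖))
    (S1 : L1 (ℕ × ℕ) →ₗ[ℂ] V)
    (b1 : ∀ q, s.nV (S1 q) ≤ C ^ 2 * ‖q‖) (c1 : ∀ p, S1 (e p) = (((e p, 0), 0), 0))
    (x y : X) : S1 (tens x y) = (((tens x y, 0), 0), 0) := by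
  let J : L1 (ℕ × ℕ) →ₗ[ℂ] V := (LinearMap.inl ℂ (G Idx) ℂ).comp
    ((LinearMap.inl ℂ (Q Idx) X).comp (LinearMap.inl ℂ _ _))
  have hJ : ∀ q, J q = (((q, 0), 0), 0) := fun q => rfl
  have g1 : ∀ i : ℕ, S1.comp (tens (e i : X) : X →L[ℂ] L1 (ℕ × ℕ)).toLinearMap =
      J.comp (tens (e i : X) : X →L[ℂ] L1 (ℕ × ℕ)).toLinearMap := by
    intro i
    refine lift_unique s.nV _ _ (C ^ 2) (C ^ 2) (fun q => ?_) (fun q => ?_) (fun j => ?_)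
    · have := b1 (tens (e i) q)
      rwa [norm_tens, norm_e, one_mul] at this
    · have := hT (e i) q
      rwa [norm_e, one_mul] at this
    · change S1 (tens (e i) (e j)) = J (tens (e i) (e j))
      rw [tens_e, c1, hJ]
  have g2 : S1.comp ((tens.flip y : X →L[ℂ] L1 (ℕ × ℕ))).toLinearMap =
      J.comp ((tens.flip y : X →L[ℂ] L1 (ℕ × ℕ))).toLinearMap := by
    refine lift_unique s.nV _ _ (C ^ 2 * ‖y‖) (C ^ 2 * ‖y‖) (fun q => ?_) (fun q => ?_)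
      (fun j => ?_)
    · have := b1 (tens q y)
      rw [norm_tens] at this
      refine this.trans_eq (by ring)
    · have := hT q y
      refine this.trans_eq (by ring)
    · exact LinearMap.congr_fun (g1 j) y
  exact LinearMap.congr_fun g2 x

theorem exists_S {C : ℝ} (hC : 0 < C) (h1 : ∀ y : Y, s.n1 y ≤ C * ‖y‖)
    (h2 : ∀ y : Y, s.n2 y ≤ C * ‖y‖) :
    ∃ S : Q Idx →ₗ[ℂ] V, (∀ q, s.nV (S q) ≤ 2 * C ^ 2 * ‖q‖) ∧ (∀ q, (S q).1.1 = q) ∧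
      ∀ x y : X, S (tens x y, 0) = (((tens x y, 0), 0), 0) := by
  have hT := s.nV_tens hC h1 h2
  obtain ⟨S1, b1, c1⟩ := exists_lift s.nV (fun p : ℕ × ℕ => (((e p, 0), 0), 0)) (C ^ 2) (by
    rintro ⟨i, j⟩
    have := hT (e i) (e j)
    rwa [tens_e, norm_e, norm_e, mul_one, mul_one] at this)
  obtain ⟨S2, b2, c2⟩ := exists_lift s.nV (fun p : Off Idx => (((0, e p), 0), 0)) (C ^ 2)
    (s.nV_off hC h1 h2)
  refine ⟨S1.coprod S2, fun q => ?_, fun q => ?_, fun x y => ?_⟩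
  · rw [LinearMap.coprod_apply]
    refine (s.nV.add_le _ _).trans ?_
    have a1 := (b1 q.1).trans (mul_le_mul_of_nonneg_left (norm_fst_le q) (by positivity))
    have a2 := (b2 q.2).trans (mul_le_mul_of_nonneg_left (norm_snd_le q) (by positivity))
    linarith
  · exact s.sec S1 b1 c1 S2 b2 c2 q
  · rw [LinearMap.coprod_apply]
    change S1 (tens x y) + S2 0 = _
    rw [map_zero, add_zero]
    exact s.S1_tens hT S1 b1 c1 x y

theorem est {C : ℝ} (hC : 0 < C) (h1 : ∀ y : Y, s.n1 y ≤ C * ‖y‖)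
    (h2 : ∀ y : Y, s.n2 y ≤ C * ‖y‖) (S : Q Idx →ₗ[ℂ] V)
    (bS : ∀ q, s.nV (S q) ≤ 2 * C ^ 2 * ‖q‖) (sec : ∀ q, (S q).1.1 = q) {C3 : ℝ} (hC3 : 0 < C3)
    (w2 : ∀ w : X × ℂ, ‖w‖ ≤ C3 * s.nW w) (q : Q Idx) :
    ‖(((S q).1.2, (S q).2) : X × ℂ)‖ ≤ (4 * C ^ 2 * C3 + 1) * (‖q‖ + ‖D.h q‖) := by
  have hh1 : ∀ (x : X) (p : P Idx) (a : ℂ),
      s.n1 ((x, p), a) ≤ C * (‖((x, p) : Xh)‖ + ‖a - (0 : X →ₗ[ℂ] ℂ) x‖) := by
    intro x p a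
    refine (h1 _).trans (mul_le_mul_of_nonneg_left ?_ hC.le)
    rw [LinearMap.zero_apply, sub_zero, Prod.norm_mk ((x, p) : Xh) a]
    exact max_le_add_of_nonneg (norm_nonneg _) (norm_nonneg _)
  have hh2 : ∀ (x : X) (p : P Idx) (a : ℂ),
      s.n2 ((x, p), a) ≤ C * (‖((x, p) : Xh)‖ + ‖a - (0 : X →ₗ[ℂ] ℂ) x‖) := by
    intro x p a
    refine (h2 _).trans (mul_le_mul_of_nonneg_left ?_ hC.le)
    rw [LinearMap.zero_apply, sub_zero, Prod.norm_mk ((x, p) : Xh) a]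
    exact max_le_add_of_nonneg (norm_nonneg _) (norm_nonneg _)
  have a1 := s.graph_le hC hh1 hh2 q
  have a2 : ‖((q, D.h q) : G Idx)‖ ≤ ‖q‖ + ‖D.h q‖ := by
    rw [Prod.norm_mk]
    exact max_le_add_of_nonneg (norm_nonneg _) (norm_nonneg _)
  have a3 : inW (D.h q - (S q).1.2, - (S q).2) = (((q, D.h q), 0) : V) - S q := by
    rw [inW_apply]
    refine Prod.ext (Prod.ext ?_ rfl) (zero_sub _).symm
    change 0 = q - (S q).1.1
    rw [sec, sub_self]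
  have a4 : s.nW (D.h q - (S q).1.2, - (S q).2) ≤ 4 * C ^ 2 * (‖q‖ + ‖D.h q‖) := by
    change s.nV (inW _) ≤ _
    rw [a3]
    refine (s.nV.sub_le _ _).trans ?_
    have b1 := bS q
    have b2 := a1.trans (mul_le_mul_of_nonneg_left a2 (by positivity))
    have b3 : 0 ≤ C ^ 2 * ‖D.h q‖ := by positivity
    linarith
  have a5 : ‖((D.h q - (S q).1.2, - (S q).2) : X × ℂ)‖ ≤
      4 * C ^ 2 * C3 * (‖q‖ + ‖D.h q‖) := by
    refine (w2 _).trans ?_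
    calc _ ≤ C3 * (4 * C ^ 2 * (‖q‖ + ‖D.h q‖)) := mul_le_mul_of_nonneg_left a4 hC3.le
      _ = _ := by ring
  have a6 : (((S q).1.2, (S q).2) : X × ℂ) =
      (D.h q, 0) - (D.h q - (S q).1.2, - (S q).2) := by
    refine Prod.ext ?_ ?_
    · exact (sub_sub_cancel _ _).symm
    · change (S q).2 = 0 - - (S q).2
      ring
  rw [a6]
  refine (norm_sub_le _ _).trans ?_
  have a7 : ‖((D.h q, 0) : X × ℂ)‖ = ‖D.h q‖ := by
    rw [Prod.norm_mk, norm_zero, max_eq_left (norm_nonneg _)]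
  rw [a7]
  have a8 := norm_nonneg q
  linarith

theorem est2 (S : Q Idx →ₗ[ℂ] V) {C4 : ℝ} (hC4 : 0 < C4)
    (htens : ∀ x y : X, S (tens x y, 0) = (((tens x y, 0), 0), 0))
    (est : ∀ q, ‖(((S q).1.2, (S q).2) : X × ℂ)‖ ≤ C4 * (‖q‖ + ‖D.h q‖)) (q : Q Idx) :
    ‖(((S q).1.2, (S q).2) : X × ℂ)‖ ≤ C4 * ‖q‖ := by
  set g := D.h q with hg
  have l1 : Tendsto (fun k => C4 * (‖q‖ + 2 * ‖xs k‖ * ‖g‖ + ‖D.F g‖ * ‖xs k‖)) atTop
      (𝓝 (C4 * (‖q‖ + 2 * 0 * ‖g‖ + ‖D.F g‖ * 0))) := by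
    have m1 : Tendsto (fun n => ‖xs n‖) atTop (𝓝 0) :=
      tendsto_zero_iff_norm_tendsto_zero.1 tendsto_xs
    exact ((((m1.const_mul 2).mul_const ‖g‖).const_add ‖q‖).add
      (m1.const_mul ‖D.F g‖)).const_mul C4
  rw [mul_zero, zero_mul, add_zero, mul_zero, add_zero] at l1
  refine ge_of_tendsto' l1 fun k => ?_
  set t : Q Idx := (tens ((2 : ℂ) • xs k) g, 0) with ht
  have a1 : D.h t = g + D.F g • xs k := by
    rw [ht, D.ht, map_smul, F_xs]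
    simp only [smul_add, smul_smul, smul_eq_mul]
    congr 1
    · norm_num
    · congr 1
      ring
  have a2 := est (q - t)
  have a3 : S (q - t) = S q - (((tens ((2 : ℂ) • xs k) g, 0), 0), 0) := by
    rw [map_sub, ht, htens]
  have a4 : (((S (q - t)).1.2, (S (q - t)).2) : X × ℂ) = ((S q).1.2, (S q).2) := by
    rw [a3]
    refine Prod.ext ?_ ?_
    · exact sub_zero _
    · exact sub_zero _
  rw [a4] at a2
  refine a2.trans (mul_le_mul_of_nonneg_left ?_ hC4.le)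
  have a5 : ‖t‖ = 2 * ‖xs k‖ * ‖g‖ := by
    rw [ht, Prod.norm_mk, norm_zero, norm_tens, norm_smul]
    have : ‖(2 : ℂ)‖ = 2 := by norm_num
    rw [this]
    exact max_eq_left (by positivity)
  have a6 : ‖D.h (q - t)‖ = ‖D.F g‖ * ‖xs k‖ := by
    rw [map_sub, ← hg, a1, sub_add_cancel_left, norm_neg, norm_smul]
  have a7 := norm_sub_le q t
  rw [a5] at a7
  rw [a6]
  linarith

theorem bdd {C : ℝ} (hC : 0 < C) (h1 : ∀ y : Y, s.n1 y ≤ C * ‖y‖)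
    (h2 : ∀ y : Y, s.n2 y ≤ C * ‖y‖) : ∃ C' : ℝ, 0 < C' ∧ ∀ v : V, s.nV v ≤ C' * ‖v‖ := by
  set κ := s.n2 ((0, 0), 1) with hκ
  have k0 : 0 ≤ κ := s.n2.nonneg _
  have w1 : ∀ w : X × ℂ, s.nW w ≤ (κ * C) * ‖w‖ := s.nW_bdd hC h1
  obtain ⟨C3, hC3, w2⟩ := comparable s.nW (std (X × ℂ)) _ w1
  obtain ⟨S, bS, sec, htens⟩ := s.exists_S hC h1 h2
  set C4 := 4 * C ^ 2 * C3 + 1 with hC4
  have hC40 : 0 < C4 := by positivity
  have est : ∀ q, ‖(((S q).1.2, (S q).2) : X × ℂ)‖ ≤ C4 * (‖q‖ + ‖D.h q‖) :=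
    s.est hC h1 h2 S bS sec hC3 w2
  have est2 := est2 S hC40 htens est
  refine ⟨2 * C ^ 2 + κ * C * (1 + C4), by positivity, fun v => ?_⟩
  have a1 : v = S v.1.1 + inW (v.1.2 - (S v.1.1).1.2, v.2 - (S v.1.1).2) := by
    rw [inW_apply]
    refine Prod.ext (Prod.ext ?_ ?_) ?_
    · change v.1.1 = (S v.1.1).1.1 + 0
      rw [sec, add_zero]
    · change v.1.2 = (S v.1.1).1.2 + (v.1.2 - (S v.1.1).1.2)
      rw [add_sub_cancel]
    · change v.2 = (S v.1.1).2 + (v.2 - (S v.1.1).2)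
      rw [add_sub_cancel]
  have a2 : s.nV v ≤ s.nV (S v.1.1) + s.nW (v.1.2 - (S v.1.1).1.2, v.2 - (S v.1.1).2) := by
    conv_lhs => rw [a1]
    exact s.nV.add_le _ _
  have a3 : ‖v.1.1‖ ≤ ‖v‖ := (norm_fst_le _).trans (norm_fst_le _)
  have a4 : ‖((v.1.2, v.2) : X × ℂ)‖ ≤ ‖v‖ := by
    rw [Prod.norm_mk]
    exact max_le ((norm_snd_le _).trans (norm_fst_le _)) (norm_snd_le _)
  have a5 : ((v.1.2 - (S v.1.1).1.2, v.2 - (S v.1.1).2) : X × ℂ) =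
      (v.1.2, v.2) - ((S v.1.1).1.2, (S v.1.1).2) := rfl
  have a6 : ‖((v.1.2 - (S v.1.1).1.2, v.2 - (S v.1.1).2) : X × ℂ)‖ ≤ ‖v‖ + C4 * ‖v‖ := by
    rw [a5]
    refine (norm_sub_le _ _).trans (add_le_add a4 ((est2 _).trans ?_))
    exact mul_le_mul_of_nonneg_left a3 hC40.le
  have a7 := (w1 (v.1.2 - (S v.1.1).1.2, v.2 - (S v.1.1).2)).trans
    (mul_le_mul_of_nonneg_left a6 (by positivity))
  have a8 := (bS v.1.1).trans (mul_le_mul_of_nonneg_left a3 (by positivity))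
  calc _ ≤ _ := a2
    _ ≤ 2 * C ^ 2 * ‖v‖ + κ * C * (‖v‖ + C4 * ‖v‖) := add_le_add a8 a7
    _ = _ := by ring

end Sys

end Q90.N2
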