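import Mathlib

/-!
# Banach algebra norms on a complex algebra and their equivalence classes
-/

namespace Q90.N2

/-- A Banach algebra norm on a complex algebra `A`: a norm on the vector space `A` which is
submultiplicative and complete (every Cauchy sequence converges). -/
structure BanachAlgebraNorm (A : Type) [Ring A] [Algebra ℂ A] where
  /-- the norm -/
  toFun : A → ℝ
  eq_zero : ∀ a, toFun a = 0 → a = 0
  add_le : ∀ a b, toFun (a + b) ≤ toFun a + toFun b
  smul : ∀ (c : ℂ) a, toFun (c • a) = ‖c‖ * toFun a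
  mul_le : ∀ a b, toFun (a * b) ≤ toFun a * toFun b
  complete : ∀ u : ℕ → A,
    (∀ ε > 0, ∃ N : ℕ, ∀ m ≥ N, ∀ n ≥ N, toFun (u m - u n) < ε) →
    ∃ a, ∀ ε > 0, ∃ N : ℕ, ∀ n ≥ N, toFun (u n - a) < ε

/-- Two Banach algebra norms are equivalent if each is bounded by a multiple of the other. -/
def Equivalent {A : Type} [Ring A] [Algebra ℂ A] (N N' : BanachAlgebraNorm A) : Prop :=
  ∃ c C : ℝ, 0 < c ∧ ∀ x : A, c * N.toFun x ≤ N'.toFun x ∧ N'.toFun x ≤ C * N.toFun x

theorem BanachAlgebraNorm.nonneg {A : Type} [Ring A] [Algebra ℂ A] (N : BanachAlgebraNorm A)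
    (x : A) : 0 ≤ N.toFun x := by
  have h1 := N.add_le x ((-1 : ℂ) • x)
  rw [N.smul] at h1
  have h2 := N.smul 0 x
  rw [zero_smul, norm_zero, zero_mul] at h2
  rw [neg_smul, one_smul, add_neg_cancel, norm_neg, norm_one, one_mul, h2] at h1
  linarith

theorem equivalent_equivalence (A : Type) [Ring A] [Algebra ℂ A] :
    Equivalence (Equivalent (A := A)) where
  refl := fun N => ⟨1, 1, one_pos, fun x => by rw [one_mul]; exact ⟨le_rfl, le_rfl⟩⟩
  symm := by
    rintro N N' ⟨c, C, hc, h⟩
    refine ⟨(|C| + 1)⁻¹, c⁻¹, by positivity, fun x => ⟨?_, ?_⟩⟩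
    · rw [inv_mul_le_iff₀ (by positivity)]
      refine (h x).2.trans (mul_le_mul_of_nonneg_right ?_ (N.nonneg x))
      linarith [le_abs_self C]
    · rw [le_inv_mul_iff₀ hc]
      exact (h x).1
  trans := by
    rintro N N' N'' ⟨c, C, hc, h⟩ ⟨c', C', hc', h'⟩
    refine ⟨c' * c, |C'| * |C|, by positivity, fun x => ⟨?_, ?_⟩⟩
    · rw [mul_assoc]
      exact (mul_le_mul_of_nonneg_left (h x).1 hc'.le).trans (h' x).1
    · refine (h' x).2.trans ?_
      rw [mul_assoc]
      calc C' * N'.toFun x ≤ |C'| * N'.toFun x :=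
            mul_le_mul_of_nonneg_right (le_abs_self _) (N'.nonneg _)
        _ ≤ |C'| * (C * N.toFun x) := mul_le_mul_of_nonneg_left (h x).2 (abs_nonneg _)
        _ ≤ |C'| * (|C| * N.toFun x) := mul_le_mul_of_nonneg_left
            (mul_le_mul_of_nonneg_right (le_abs_self _) (N.nonneg _)) (abs_nonneg _)

/-- Equivalence of Banach algebra norms is an equivalence relation. -/
def equivSetoid (A : Type) [Ring A] [Algebra ℂ A] : Setoid (BanachAlgebraNorm A) :=
  ⟨Equivalent, equivalent_equivalence A⟩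

/-- The equivalence classes of Banach algebra norms on `A`; the number `N(A)` is their number
`ENat.card (NormClasses A)`. -/
def NormClasses (A : Type) [Ring A] [Algebra ℂ A] : Type := Quotient (equivSetoid A)

end Q90.N2
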