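import Mathlib
import Pool.Agent.Q90.N2Alg

/-!
# Two Banach algebra norms, part 14: the discontinuous involution
-/

namespace Q90.N2

open scoped BigOperators Topology
open Filter L1

variable (D : Dat)

/-- The involution of `Y`. -/
noncomputable def th (y : Y) : Y := (y.1, D.F y.1.1 - y.2)

/-- The involution of `V`. -/
noncomputable def Th (v : V) : V :=
  ((v.1.1, (2 : ℂ) • D.h v.1.1 - v.1.2), v.2 - D.F v.1.2 + D.F (D.h v.1.1))

theorem th_add (a b : Y) : th D (a + b) = th D a + th D b := by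
  unfold th
  refine Prod.ext rfl ?_
  change D.F (a.1.1 + b.1.1) - (a.2 + b.2) = (D.F a.1.1 - a.2) + (D.F b.1.1 - b.2)
  rw [map_add]
  ring

theorem th_smul (c : ℂ) (a : Y) : th D (c • a) = c • th D a := by
  unfold th
  refine Prod.ext rfl ?_
  change D.F (c • a.1.1) - (c * a.2) = c * (D.F a.1.1 - a.2)
  rw [map_smul, smul_eq_mul]
  ring

theorem th_th (a : Y) : th D (th D a) = a := by
  unfold th
  refine Prod.ext rfl ?_
  change D.F a.1.1 - (D.F a.1.1 - a.2) = a.2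
  ring

theorem Th_add (a b : V) : Th D (a + b) = Th D a + Th D b := by
  unfold Th
  refine Prod.ext (Prod.ext rfl ?_) ?_
  · change (2 : ℂ) • D.h (a.1.1 + b.1.1) - (a.1.2 + b.1.2) =
      ((2 : ℂ) • D.h a.1.1 - a.1.2) + ((2 : ℂ) • D.h b.1.1 - b.1.2)
    rw [map_add, smul_add]
    abel
  · change (a.2 + b.2) - D.F (a.1.2 + b.1.2) + D.F (D.h (a.1.1 + b.1.1)) =
      (a.2 - D.F a.1.2 + D.F (D.h a.1.1)) + (b.2 - D.F b.1.2 + D.F (D.h b.1.1))
    rw [map_add, map_add, map_add]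
    ring

theorem Th_smul (c : ℂ) (a : V) : Th D (c • a) = c • Th D a := by
  unfold Th
  refine Prod.ext (Prod.ext rfl ?_) ?_
  · change (2 : ℂ) • D.h (c • a.1.1) - (c • a.1.2) = c • ((2 : ℂ) • D.h a.1.1 - a.1.2)
    rw [map_smul, smul_sub, smul_comm]
  · change (c * a.2) - D.F (c • a.1.2) + D.F (D.h (c • a.1.1)) =
      c * (a.2 - D.F a.1.2 + D.F (D.h a.1.1))
    rw [map_smul, map_smul, map_smul, smul_eq_mul, smul_eq_mul]
    ring

theorem Th_Th (a : V) : Th D (Th D a) = a := by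
  unfold Th
  refine Prod.ext (Prod.ext rfl ?_) ?_
  · change (2 : ℂ) • D.h a.1.1 - ((2 : ℂ) • D.h a.1.1 - a.1.2) = a.1.2
    abel
  · change (a.2 - D.F a.1.2 + D.F (D.h a.1.1)) - D.F ((2 : ℂ) • D.h a.1.1 - a.1.2) +
      D.F (D.h a.1.1) = a.2
    rw [map_sub, map_smul, smul_eq_mul]
    ring

theorem Th_mu (a b : Y) : mu D (th D a) (th D b) = Th D (mu D a b) := by
  obtain ⟨⟨x, p⟩, s⟩ := a
  obtain ⟨⟨y, r⟩, t⟩ := b
  have hτ : ∀ (s t : ℂ), mu D ((x, p), s) ((y, r), t) =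
      (((tens x y, 0) + (qw D.w p r).1, (qw D.w p r).2 + (s • y + t • x)), s * t) := by
    intro s t
    unfold mu
    rw [tau_apply]
    refine Prod.ext (Prod.ext ?_ ?_) rfl
    · exact add_zero _
    · change (0 + (qw D.w p r).2) + _ = _
      rw [zero_add]
      rfl
  change mu D ((x, p), D.F x - s) ((y, r), D.F y - t) = _
  rw [hτ, hτ]
  unfold Th
  have h1 : D.h ((tens x y, 0) + (qw D.w p r).1) =
      (1 / 2 : ℂ) • (D.F x • y + D.F y • x) + (qw D.w p r).2 := by
    rw [map_add, D.ht, D.hq]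
  refine Prod.ext (Prod.ext rfl ?_) ?_
  · change (qw D.w p r).2 + ((D.F x - s) • y + (D.F y - t) • x) =
      (2 : ℂ) • D.h ((tens x y, 0) + (qw D.w p r).1) - ((qw D.w p r).2 + (s • y + t • x))
    rw [h1]
    module
  · change (D.F x - s) * (D.F y - t) = s * t - D.F ((qw D.w p r).2 + (s • y + t • x)) +
      D.F (D.h ((tens x y, 0) + (qw D.w p r).1))
    rw [h1]
    simp only [map_add, map_smul, smul_eq_mul]
    ring

namespace Alg

/-- The discontinuous involutive automorphism. -/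
noncomputable def phi (a : Alg D) : Alg D :=
  mk a.l1 a.l2 a.l3 a.l5 (th D a.y1) (th D a.y2) (Th D a.v) a.d1 a.d2 a.d3

variable {D}

theorem phi_add (a b : Alg D) : phi D (a + b) = phi D a + phi D b := by
  refine ext rfl rfl rfl rfl ?_ ?_ ?_ rfl rfl rfl
  · exact th_add D _ _
  · exact th_add D _ _
  · exact Th_add D _ _

theorem phi_smul (c : ℂ) (a : Alg D) : phi D (c • a) = c • phi D a := by
  refine ext rfl rfl rfl rfl ?_ ?_ ?_ rfl rfl rfl
  · exact th_smul D _ _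
  · exact th_smul D _ _
  · exact Th_smul D _ _

theorem phi_phi (a : Alg D) : phi D (phi D a) = a := by
  refine ext rfl rfl rfl rfl ?_ ?_ ?_ rfl rfl rfl
  · exact th_th D _
  · exact th_th D _
  · exact Th_Th D _

theorem phi_mul (a b : Alg D) : phi D (a * b) = phi D a * phi D b := by
  refine ext rfl rfl rfl rfl ?_ ?_ ?_ rfl rfl rfl
  · change th D (a.l1 • b.y1 + b.l2 • a.y1) = a.l1 • th D b.y1 + b.l2 • th D a.y1
    rw [th_add, th_smul, th_smul]
  · change th D (a.l2 • b.y2 + b.l3 • a.y2) = a.l2 • th D b.y2 + b.l3 • th D a.y2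
    rw [th_add, th_smul, th_smul]
  · change Th D (a.l1 • b.v + b.l3 • a.v + mu D a.y1 b.y2) =
      a.l1 • Th D b.v + b.l3 • Th D a.v + mu D (th D a.y1) (th D b.y2)
    rw [Th_add, Th_add, Th_smul, Th_smul, Th_mu]

end Alg

end Q90.N2
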