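import Mathlib
import Pool.Agent.Q90.N2Defs
import Pool.Agent.Q90.N2Theta
import Pool.Agent.Q90.N2Norm

/-!
# Two Banach algebra norms, part 15: the standard norm
-/

namespace Q90.N2

open scoped BigOperators Topology
open Filter L1

variable {D : Dat}

namespace Alg

theorem norm_le_iff (a : Alg D) (r : ℝ) : ‖a‖ ≤ r ↔ ‖a.l1‖ ≤ r ∧ ‖a.l2‖ ≤ r ∧ ‖a.l3‖ ≤ r ∧
    ‖a.l5‖ ≤ r ∧ ‖a.y1‖ ≤ r ∧ ‖a.y2‖ ≤ r ∧ ‖a.v‖ ≤ r ∧ ‖a.d1‖ ≤ r ∧ ‖a.d2‖ ≤ r ∧ ‖a.d3‖ ≤ r :=
  norm_prod_le_iff.trans <| and_congr Iff.rfl <|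
  norm_prod_le_iff.trans <| and_congr Iff.rfl <|
  norm_prod_le_iff.trans <| and_congr Iff.rfl <|
  norm_prod_le_iff.trans <| and_congr Iff.rfl <|
  norm_prod_le_iff.trans <| and_congr Iff.rfl <|
  norm_prod_le_iff.trans <| and_congr Iff.rfl <|
  norm_prod_le_iff.trans <| and_congr Iff.rfl <|
  norm_prod_le_iff.trans <| and_congr Iff.rfl <|
  norm_prod_le_iff

theorem norm_del (y : Xh) (d : D3) : ‖del D y d‖ ≤ 3 * (‖y‖ * ‖d‖) := by
  refine ContinuousLinearMap.opNorm_le_bound _ (by positivity) fun x => ?_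
  rw [del_apply]
  have h1 := norm_tau D x y
  have h2 : ‖(tau D x y).1‖ ≤ 3 * ‖x‖ * ‖y‖ := (norm_fst_le _).trans h1
  calc ‖d (tau D x y).1‖ ≤ ‖d‖ * ‖(tau D x y).1‖ := d.le_opNorm _
    _ ≤ ‖d‖ * (3 * ‖x‖ * ‖y‖) := mul_le_mul_of_nonneg_left h2 (norm_nonneg _)
    _ = _ := by ring

theorem norm_mul_le' (a b : Alg D) : ‖a * b‖ ≤ 7 * (‖a‖ * ‖b‖) := by
  obtain ⟨a1, a2, a3, a4, a5, a6, a7, a8, a9, a10⟩ := (norm_le_iff a ‖a‖).1 le_rfl
  obtain ⟨b1, b2, b3, b4, b5, b6, b7, b8, b9, b10⟩ := (norm_le_iff b ‖b‖).1 le_rfl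
  set R := ‖a‖ * ‖b‖ with hR
  have hR0 : 0 ≤ R := by positivity
  have m : ∀ {s t : ℝ}, s ≤ ‖a‖ → t ≤ ‖b‖ → 0 ≤ t → s * t ≤ R := fun h1 h2 h3 =>
    mul_le_mul h1 h2 h3 (norm_nonneg _)
  have m' : ∀ {s t : ℝ}, s ≤ ‖a‖ → t ≤ ‖b‖ → 0 ≤ t → t * s ≤ R := fun h1 h2 h3 => by
    rw [mul_comm]
    exact m h1 h2 h3
  rw [norm_le_iff]
  refine ⟨?_, ?_, ?_, ?_, ?_, ?_, ?_, ?_, ?_, ?_⟩
  · rw [mul_l1, norm_mul]
    have := m a1 b1 (norm_nonneg _)
    linarith
  · rw [mul_l2, norm_mul]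
    have := m a2 b2 (norm_nonneg _)
    linarith
  · rw [mul_l3, norm_mul]
    have := m a3 b3 (norm_nonneg _)
    linarith
  · rw [mul_l5, norm_mul]
    have := m a4 b4 (norm_nonneg _)
    linarith
  · rw [mul_y1]
    refine (norm_add_le _ _).trans ?_
    rw [norm_smul, norm_smul]
    have h1 := m a1 b5 (norm_nonneg _)
    have h2 := m' a5 b2 (norm_nonneg _)
    linarith
  · rw [mul_y2]
    refine (norm_add_le _ _).trans ?_
    rw [norm_smul, norm_smul]
    have h1 := m a2 b6 (norm_nonneg _)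
    have h2 := m' a6 b3 (norm_nonneg _)
    linarith
  · rw [mul_v]
    refine (norm_add_le _ _).trans ?_
    have h3 := norm_mu D a.y1 b.y2
    have h4 := m a5 b6 (norm_nonneg _)
    have h5 := norm_add_le (a.l1 • b.v) (b.l3 • a.v)
    rw [norm_smul, norm_smul] at h5
    have h1 := m a1 b7 (norm_nonneg _)
    have h2 := m' a7 b3 (norm_nonneg _)
    rw [mul_assoc] at h3
    linarith
  · rw [mul_d1]
    have h1 := m a1 b8 (norm_nonneg _)
    have h2 := m a8 b4 (norm_nonneg _)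
    have h3 : ‖b.d2 a.y1.1‖ ≤ R :=
      (b.d2.le_opNorm _).trans (m' ((norm_fst_le _).trans a5) b9 (norm_nonneg _))
    have h4 : ‖b.d3 a.v.1.1‖ ≤ R :=
      (b.d3.le_opNorm _).trans
        (m' ((norm_fst_le _).trans ((norm_fst_le _).trans a7)) b10 (norm_nonneg _))
    have h5 := norm_add_le (a.l1 * b.d1 + a.d1 * b.l5 + b.d2 a.y1.1) (b.d3 a.v.1.1)
    have h6 := norm_add_le (a.l1 * b.d1 + a.d1 * b.l5) (b.d2 a.y1.1)
    have h7 := norm_add_le (a.l1 * b.d1) (a.d1 * b.l5)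
    rw [norm_mul, norm_mul] at h7
    linarith
  · rw [mul_d2]
    have h1 := m a2 b9 (norm_nonneg _)
    have h2 := m' a9 b4 (norm_nonneg _)
    have h3 := norm_del (D := D) a.y2.1 b.d3
    have h4 := m ((norm_fst_le _).trans a6) b10 (norm_nonneg _)
    have h5 := norm_add_le (a.l2 • b.d2 + b.l5 • a.d2) (del D a.y2.1 b.d3)
    have h6 := norm_add_le (a.l2 • b.d2) (b.l5 • a.d2)
    rw [norm_smul, norm_smul] at h6
    linarith
  · rw [mul_d3]
    have h1 := m a3 b10 (norm_nonneg _)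
    have h2 := m' a10 b4 (norm_nonneg _)
    have h6 := norm_add_le (a.l3 • b.d3) (b.l5 • a.d3)
    rw [norm_smul, norm_smul] at h6
    linarith

/-- The standard Banach algebra norm. -/
noncomputable def N0 (D : Dat) : BanachAlgebraNorm (Alg D) where
  toFun := fun a => 7 * ‖a‖
  eq_zero := fun a h => by
    have : ‖a‖ = 0 := by linarith
    exact norm_eq_zero.1 this
  add_le := fun a b => by
    have := norm_add_le a b
    linarith
  smul := fun c a => by
    rw [norm_smul]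
    ring
  mul_le := fun a b => by
    have := norm_mul_le' a b
    nlinarith
  complete := by
    intro u hu
    obtain ⟨a, ha⟩ := (CNorm.std (Alg D)).complete u (fun ε hε => by
      obtain ⟨N, hN⟩ := hu (7 * ε) (by linarith)
      refine ⟨N, fun m hm n hn => ?_⟩
      have := hN m hm n hn
      rw [CNorm.std_apply]
      linarith)
    refine ⟨a, fun ε hε => ?_⟩
    obtain ⟨N, hN⟩ := ha (ε / 7) (by linarith)
    refine ⟨N, fun n hn => ?_⟩
    have := hN n hn
    rw [CNorm.std_apply] at this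
    linarith

end Alg

/-- The complete norm underlying a Banach algebra norm. -/
def BanachAlgebraNorm.toC {A : Type} [Ring A] [Algebra ℂ A] (N : BanachAlgebraNorm A) :
    CNorm A where
  toFun := N.toFun
  eq_zero := N.eq_zero
  add_le := N.add_le
  smul := N.smul
  complete := N.complete

/-- Transport of a Banach algebra norm along an automorphism. -/
def BanachAlgebraNorm.pull {A : Type} [Ring A] [Algebra ℂ A] (N : BanachAlgebraNorm A)
    (φ : A → A) (h1 : ∀ a b, φ (a + b) = φ a + φ b) (h2 : ∀ (c : ℂ) a, φ (c • a) = c • φ a)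
    (h3 : ∀ a b, φ (a * b) = φ a * φ b) (h4 : ∀ a, φ (φ a) = a) : BanachAlgebraNorm A where
  toFun := fun a => N.toFun (φ a)
  eq_zero := fun a h => by
    have h5 : φ a = 0 := N.eq_zero _ h
    have h6 : φ 0 = 0 := by
      have := h2 0 0
      rwa [zero_smul, zero_smul] at this
    rw [← h4 a, h5, h6]
  add_le := fun a b => by rw [h1]; exact N.add_le _ _
  smul := fun c a => by rw [h2]; exact N.smul _ _
  mul_le := fun a b => by rw [h3]; exact N.mul_le _ _
  complete := by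
    have hs : ∀ a b, φ (a - b) = φ a - φ b := by
      intro a b
      have h5 : a - b = a + (-1 : ℂ) • b := by
        rw [neg_smul, one_smul, sub_eq_add_neg]
      rw [h5, h1, h2, neg_smul, one_smul, sub_eq_add_neg]
    intro u hu
    obtain ⟨a, ha⟩ := N.complete (fun k => φ (u k)) (fun ε hε => by
      obtain ⟨M, hM⟩ := hu ε hε
      refine ⟨M, fun m hm n hn => ?_⟩
      rw [← hs]
      exact hM m hm n hn)
    refine ⟨φ a, fun ε hε => ?_⟩
    obtain ⟨M, hM⟩ := ha ε hε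
    refine ⟨M, fun n hn => ?_⟩
    rw [hs, h4]
    exact hM n hn

end Q90.N2
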