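import Mathlib
import Pool.Agent.Q90.N2Std
import Pool.Agent.Q90.N2Bdd

/-!
# Two Banach algebra norms, part 16: the components of a Banach algebra norm
-/

namespace Q90.N2

open scoped BigOperators Topology
open Filter L1 CNorm

variable {D : Dat}

/-- A corner of a Banach algebra norm. -/
def BanachAlgebraNorm.corner {A : Type} [Ring A] [Algebra ℂ A] (N : BanachAlgebraNorm A)
    {E : Type} [AddCommGroup E] [Module ℂ E] (ι : E →ₗ[ℂ] A) (ρ : A → E) (u v : A)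
    (h1 : ∀ a, u * a * v = ι (ρ a)) (h2 : ∀ x, ρ (ι x) = x) : CNorm E :=
  N.toC.comap ι (fun x y h => by rw [← h2 x, ← h2 y, h]) (by
    intro w f hw
    refine ⟨ρ f, ?_⟩
    have hn : ∀ x, 0 ≤ N.toFun x := N.toC.nonneg
    have h3 : ∀ x, u * ι x * v = ι x := fun x => by rw [h1, h2]
    have h4 : Tendsto (fun k => N.toFun u * N.toFun (ι (w k) - f) * N.toFun v +
        N.toFun (ι (w k) - f)) atTop (𝓝 0) := by
      have : Tendsto (fun k => N.toFun (ι (w k) - f)) atTop (𝓝 0) := hw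
      simpa using ((this.const_mul (N.toFun u)).mul_const (N.toFun v)).add this
    have h5 : Tendsto (fun _ : ℕ => N.toFun (ι (ρ f) - f)) atTop (𝓝 0) := by
      refine squeeze_zero (fun _ => hn _) (fun k => ?_) h4
      have h6 : ι (ρ f) - f = (ι (w k) - f) - u * (ι (w k) - f) * v := by
        rw [mul_sub, sub_mul, h3, h1]
        abel
      rw [h6]
      refine (N.toC.sub_le _ _).trans ?_
      change N.toFun (ι (w k) - f) + N.toFun (u * (ι (w k) - f) * v) ≤ _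
      have h7 : N.toFun (u * (ι (w k) - f) * v) ≤
          N.toFun u * N.toFun (ι (w k) - f) * N.toFun v :=
        (N.mul_le _ _).trans (mul_le_mul_of_nonneg_right (N.mul_le _ _) (hn _))
      linarith
    exact sub_eq_zero.1 (N.eq_zero _ (tendsto_nhds_unique tendsto_const_nhds h5)))

namespace Alg

theorem del_zero_left (d : D3) : del D 0 d = 0 := by
  refine ContinuousLinearMap.ext fun x => ?_
  rw [del_apply, map_zero]
  exact map_zero d

theorem del_zero_right (y : Xh) : del D y 0 = 0 := by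
  refine ContinuousLinearMap.ext fun x => ?_
  rw [del_apply]
  rfl

/-- idempotent -/
noncomputable def E1 (D : Dat) : Alg D := mk 1 0 0 0 0 0 0 0 0 0
/-- idempotent -/
noncomputable def E2 (D : Dat) : Alg D := mk 0 1 0 0 0 0 0 0 0 0
/-- idempotent -/
noncomputable def E3 (D : Dat) : Alg D := mk 0 0 1 0 0 0 0 0 0 0
/-- idempotent -/
noncomputable def E5 (D : Dat) : Alg D := mk 0 0 0 1 0 0 0 0 0 0

/-- embedding -/
noncomputable def iy1 (D : Dat) : Y →ₗ[ℂ] Alg D where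
  toFun := fun y => mk 0 0 0 0 y 0 0 0 0 0
  map_add' := fun a b => by refine ext ?_ ?_ ?_ ?_ ?_ ?_ ?_ ?_ ?_ ?_ <;> simp
  map_smul' := fun a b => by
    refine ext' ?_ ?_ ?_ ?_ ?_ ?_ ?_ ?_ (fun x => ?_) (fun x => ?_) <;>
      first | exact (smul_zero a).symm | exact (mul_zero a).symm | rfl
/-- embedding -/
noncomputable def iy2 (D : Dat) : Y →ₗ[ℂ] Alg D where
  toFun := fun y => mk 0 0 0 0 0 y 0 0 0 0
  map_add' := fun a b => by refine ext ?_ ?_ ?_ ?_ ?_ ?_ ?_ ?_ ?_ ?_ <;> simp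
  map_smul' := fun a b => by
    refine ext' ?_ ?_ ?_ ?_ ?_ ?_ ?_ ?_ (fun x => ?_) (fun x => ?_) <;>
      first | exact (smul_zero a).symm | exact (mul_zero a).symm | rfl
/-- embedding -/
noncomputable def iv (D : Dat) : V →ₗ[ℂ] Alg D where
  toFun := fun y => mk 0 0 0 0 0 0 y 0 0 0
  map_add' := fun a b => by refine ext ?_ ?_ ?_ ?_ ?_ ?_ ?_ ?_ ?_ ?_ <;> simp
  map_smul' := fun a b => by
    refine ext' ?_ ?_ ?_ ?_ ?_ ?_ ?_ ?_ (fun x => ?_) (fun x => ?_) <;>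
      first | exact (smul_zero a).symm | exact (mul_zero a).symm | rfl
/-- embedding -/
noncomputable def id1 (D : Dat) : ℂ →ₗ[ℂ] Alg D where
  toFun := fun y => mk 0 0 0 0 0 0 0 y 0 0
  map_add' := fun a b => by refine ext ?_ ?_ ?_ ?_ ?_ ?_ ?_ ?_ ?_ ?_ <;> simp
  map_smul' := fun a b => by
    refine ext' ?_ ?_ ?_ ?_ ?_ ?_ ?_ ?_ (fun x => ?_) (fun x => ?_) <;>
      first | exact (smul_zero a).symm | exact (mul_zero a).symm | rfl
/-- embedding -/
noncomputable def id2 (D : Dat) : D2 →ₗ[ℂ] Alg D where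
  toFun := fun y => mk 0 0 0 0 0 0 0 0 y 0
  map_add' := fun a b => by refine ext ?_ ?_ ?_ ?_ ?_ ?_ ?_ ?_ ?_ ?_ <;> simp
  map_smul' := fun a b => by
    refine ext' ?_ ?_ ?_ ?_ ?_ ?_ ?_ ?_ (fun x => ?_) (fun x => ?_) <;>
      first | exact (smul_zero a).symm | exact (mul_zero a).symm | rfl
/-- embedding -/
noncomputable def id3 (D : Dat) : D3 →ₗ[ℂ] Alg D where
  toFun := fun y => mk 0 0 0 0 0 0 0 0 0 y
  map_add' := fun a b => by refine ext ?_ ?_ ?_ ?_ ?_ ?_ ?_ ?_ ?_ ?_ <;> simp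
  map_smul' := fun a b => by
    refine ext' ?_ ?_ ?_ ?_ ?_ ?_ ?_ ?_ (fun x => ?_) (fun x => ?_) <;>
      first | exact (smul_zero a).symm | exact (mul_zero a).symm | rfl

theorem iy1_apply (y : Y) : iy1 D y = mk 0 0 0 0 y 0 0 0 0 0 := rfl
theorem iy2_apply (y : Y) : iy2 D y = mk 0 0 0 0 0 y 0 0 0 0 := rfl
theorem iv_apply (y : V) : iv D y = mk 0 0 0 0 0 0 y 0 0 0 := rfl
theorem id1_apply (y : ℂ) : id1 D y = mk 0 0 0 0 0 0 0 y 0 0 := rfl
theorem id2_apply (y : D2) : id2 D y = mk 0 0 0 0 0 0 0 0 y 0 := rfl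
theorem id3_apply (y : D3) : id3 D y = mk 0 0 0 0 0 0 0 0 0 y := rfl

theorem corner1 (a : Alg D) : E1 D * a * E2 D = iy1 D a.y1 := by
  rw [iy1_apply]
  refine ext' ?_ ?_ ?_ ?_ ?_ ?_ ?_ ?_ (fun x => ?_) (fun x => ?_) <;>
    simp [E1, E2, mu_zero_left, mu_zero_right, del_zero_left, del_zero_right]

theorem corner2 (a : Alg D) : E2 D * a * E3 D = iy2 D a.y2 := by
  rw [iy2_apply]
  refine ext' ?_ ?_ ?_ ?_ ?_ ?_ ?_ ?_ (fun x => ?_) (fun x => ?_) <;>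
    simp [E3, E2, mu_zero_left, mu_zero_right, del_zero_left, del_zero_right]

theorem cornerV (a : Alg D) : E1 D * a * E3 D = iv D a.v := by
  rw [iv_apply]
  refine ext' ?_ ?_ ?_ ?_ ?_ ?_ ?_ ?_ (fun x => ?_) (fun x => ?_) <;>
    simp [E3, E1, mu_zero_left, mu_zero_right, del_zero_left, del_zero_right]

theorem cornerd2 (a : Alg D) : E2 D * a * E5 D = id2 D a.d2 := by
  rw [id2_apply]
  refine ext' ?_ ?_ ?_ ?_ ?_ ?_ ?_ ?_ (fun x => ?_) (fun x => ?_) <;>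
    simp [E2, E5, mu_zero_left, mu_zero_right, del_zero_left, del_zero_right]

theorem cornerd3 (a : Alg D) : E3 D * a * E5 D = id3 D a.d3 := by
  rw [id3_apply]
  refine ext' ?_ ?_ ?_ ?_ ?_ ?_ ?_ ?_ (fun x => ?_) (fun x => ?_) <;>
    simp [E3, E5, mu_zero_left, mu_zero_right, del_zero_left, del_zero_right]

theorem iy1_mul_iy2 (a b : Y) : iy1 D a * iy2 D b = iv D (mu D a b) := by
  rw [iy1_apply, iy2_apply, iv_apply]
  refine ext' ?_ ?_ ?_ ?_ ?_ ?_ ?_ ?_ (fun x => ?_) (fun x => ?_) <;>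
    simp [del_zero_left, del_zero_right]

theorem iy1_mul_id2 (a : Y) (d : D2) : iy1 D a * id2 D d = id1 D (d a.1) := by
  rw [iy1_apply, id2_apply, id1_apply]
  refine ext' ?_ ?_ ?_ ?_ ?_ ?_ ?_ ?_ (fun x => ?_) (fun x => ?_) <;>
    simp [mu_zero_right, del_zero_left, del_zero_right]

theorem iv_mul_id3 (v : V) (d : D3) : iv D v * id3 D d = id1 D (d v.1.1) := by
  rw [iv_apply, id3_apply, id1_apply]
  refine ext' ?_ ?_ ?_ ?_ ?_ ?_ ?_ ?_ (fun x => ?_) (fun x => ?_) <;>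
    simp [mu_zero_right, del_zero_left, del_zero_right]

theorem decomp (a : Alg D) : a = a.l1 • E1 D + a.l2 • E2 D + a.l3 • E3 D + a.l5 • E5 D +
    iy1 D a.y1 + iy2 D a.y2 + iv D a.v + a.d1 • id1 D 1 + id2 D a.d2 + id3 D a.d3 := by
  refine ext' ?_ ?_ ?_ ?_ ?_ ?_ ?_ ?_ (fun x => ?_) (fun x => ?_)
  · change a.l1 = a.l1 * 1 + a.l2 * 0 + a.l3 * 0 + a.l5 * 0 + 0 + 0 + 0 + a.d1 * 0 + 0 + 0
    ring
  · change a.l2 = a.l1 * 0 + a.l2 * 1 + a.l3 * 0 + a.l5 * 0 + 0 + 0 + 0 + a.d1 * 0 + 0 + 0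
    ring
  · change a.l3 = a.l1 * 0 + a.l2 * 0 + a.l3 * 1 + a.l5 * 0 + 0 + 0 + 0 + a.d1 * 0 + 0 + 0
    ring
  · change a.l5 = a.l1 * 0 + a.l2 * 0 + a.l3 * 0 + a.l5 * 1 + 0 + 0 + 0 + a.d1 * 0 + 0 + 0
    ring
  · change a.y1 = a.l1 • (0 : Y) + a.l2 • (0 : Y) + a.l3 • (0 : Y) + a.l5 • (0 : Y) + a.y1 + 0 +
      0 + a.d1 • (0 : Y) + 0 + 0
    simp only [smul_zero, add_zero, zero_add]
  · change a.y2 = a.l1 • (0 : Y) + a.l2 • (0 : Y) + a.l3 • (0 : Y) + a.l5 • (0 : Y) + 0 + a.y2 +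
      0 + a.d1 • (0 : Y) + 0 + 0
    simp only [smul_zero, add_zero, zero_add]
  · change a.v = a.l1 • (0 : V) + a.l2 • (0 : V) + a.l3 • (0 : V) + a.l5 • (0 : V) + 0 + 0 +
      a.v + a.d1 • (0 : V) + 0 + 0
    simp only [smul_zero, add_zero, zero_add]
  · change a.d1 = a.l1 * 0 + a.l2 * 0 + a.l3 * 0 + a.l5 * 0 + 0 + 0 + 0 + a.d1 * 1 + 0 + 0
    ring
  · change a.d2 x = a.l1 * 0 + a.l2 * 0 + a.l3 * 0 + a.l5 * 0 + 0 + 0 + 0 + a.d1 * 0 +
      a.d2 x + 0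
    ring
  · change a.d3 x = a.l1 * 0 + a.l2 * 0 + a.l3 * 0 + a.l5 * 0 + 0 + 0 + 0 + a.d1 * 0 +
      0 + a.d3 x
    ring

end Alg

open Alg

/-- The system of norms attached to a Banach algebra norm. -/
noncomputable def BanachAlgebraNorm.sys (N : BanachAlgebraNorm (Alg D)) : Sys D where
  n1 := N.corner (iy1 D) Alg.y1 (E1 D) (E2 D) corner1 (fun _ => rfl)
  n2 := N.corner (iy2 D) Alg.y2 (E2 D) (E3 D) corner2 (fun _ => rfl)
  nV := N.corner (iv D) Alg.v (E1 D) (E3 D) cornerV (fun _ => rfl)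
  nd2 := N.corner (id2 D) Alg.d2 (E2 D) (E5 D) cornerd2 (fun _ => rfl)
  nd3 := N.corner (id3 D) Alg.d3 (E3 D) (E5 D) cornerd3 (fun _ => rfl)
  K := (N.toFun (id1 D 1))⁻¹
  hK := inv_nonneg.2 (N.toC.nonneg _)
  s1 := fun a b => by
    change N.toFun (iv D (mu D a b)) ≤ N.toFun (iy1 D a) * N.toFun (iy2 D b)
    rw [← iy1_mul_iy2]
    exact N.mul_le _ _
  s2 := fun a d => by
    change ‖d a.1‖ ≤ _ * N.toFun (iy1 D a) * N.toFun (id2 D d)
    have h1 := N.mul_le (iy1 D a) (id2 D d)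
    rw [iy1_mul_id2] at h1
    have h2 : id1 D (d a.1) = (d a.1) • id1 D 1 := by
      rw [← map_smul, smul_eq_mul, mul_one]
    rw [h2, N.smul] at h1
    have h3 : 0 < N.toFun (id1 D 1) := by
      refine lt_of_le_of_ne (N.toC.nonneg _) fun h => ?_
      have h4 := N.eq_zero _ h.symm
      have h5 : (id1 D 1).d1 = 0 := by rw [h4]; rfl
      exact one_ne_zero h5
    rw [mul_assoc, le_inv_mul_iff₀ h3, mul_comm]
    exact h1
  s3 := fun v d => by
    change ‖d v.1.1‖ ≤ _ * N.toFun (iv D v) * N.toFun (id3 D d)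
    have h1 := N.mul_le (iv D v) (id3 D d)
    rw [iv_mul_id3] at h1
    have h2 : id1 D (d v.1.1) = (d v.1.1) • id1 D 1 := by
      rw [← map_smul, smul_eq_mul, mul_one]
    rw [h2, N.smul] at h1
    have h3 : 0 < N.toFun (id1 D 1) := by
      refine lt_of_le_of_ne (N.toC.nonneg _) fun h => ?_
      have h4 := N.eq_zero _ h.symm
      have h5 : (id1 D 1).d1 = 0 := by rw [h4]; rfl
      exact one_ne_zero h5
    rw [mul_assoc, le_inv_mul_iff₀ h3, mul_comm]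
    exact h1

end Q90.N2
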