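import Mathlib
import Pool.Agent.Q90.N2Comp

/-!
# Two Banach algebra norms, part 17: conclusion
-/

namespace Q90.N2

open scoped BigOperators Topology
open Filter L1 CNorm Alg

variable {D : Dat}

theorem le_of_sys (N : BanachAlgebraNorm (Alg D)) {C : ℝ} (hC : 0 < C)
    (h1 : ∀ y : Y, N.sys.n1 y ≤ C * ‖y‖) (h2 : ∀ y : Y, N.sys.n2 y ≤ C * ‖y‖) :
    ∃ C' : ℝ, 0 < C' ∧ ∀ a, N.toFun a ≤ C' * ‖a‖ := by
  obtain ⟨C3, hC3, h3⟩ := N.sys.bdd hC h1 h2
  obtain ⟨C4, hC4, h4⟩ := N.sys.nd2_le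
  obtain ⟨C5, hC5, h5⟩ := N.sys.nd3_le
  have hn : ∀ x, 0 ≤ N.toFun x := N.toC.nonneg
  refine ⟨N.toFun (E1 D) + N.toFun (E2 D) + N.toFun (E3 D) + N.toFun (E5 D) + C + C + C3 +
    N.toFun (id1 D 1) + C4 + C5, ?_, fun a => ?_⟩
  · have := hn (E1 D)
    have := hn (E2 D)
    have := hn (E3 D)
    have := hn (E5 D)
    have := hn (id1 D 1)
    linarith
  · obtain ⟨a1, a2, a3, a4, a5, a6, a7, a8, a9, a10⟩ := (norm_le_iff a ‖a‖).1 le_rfl
    have b1 : N.toFun (a.l1 • E1 D) ≤ N.toFun (E1 D) * ‖a‖ := by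
      rw [N.smul, mul_comm]
      exact mul_le_mul_of_nonneg_left a1 (hn _)
    have b2 : N.toFun (a.l2 • E2 D) ≤ N.toFun (E2 D) * ‖a‖ := by
      rw [N.smul, mul_comm]
      exact mul_le_mul_of_nonneg_left a2 (hn _)
    have b3 : N.toFun (a.l3 • E3 D) ≤ N.toFun (E3 D) * ‖a‖ := by
      rw [N.smul, mul_comm]
      exact mul_le_mul_of_nonneg_left a3 (hn _)
    have b4 : N.toFun (a.l5 • E5 D) ≤ N.toFun (E5 D) * ‖a‖ := by
      rw [N.smul, mul_comm]
      exact mul_le_mul_of_nonneg_left a4 (hn _)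
    have b5 : N.toFun (iy1 D a.y1) ≤ C * ‖a‖ :=
      (h1 a.y1).trans (mul_le_mul_of_nonneg_left a5 hC.le)
    have b6 : N.toFun (iy2 D a.y2) ≤ C * ‖a‖ :=
      (h2 a.y2).trans (mul_le_mul_of_nonneg_left a6 hC.le)
    have b7 : N.toFun (iv D a.v) ≤ C3 * ‖a‖ :=
      (h3 a.v).trans (mul_le_mul_of_nonneg_left a7 hC3.le)
    have b8 : N.toFun (a.d1 • id1 D 1) ≤ N.toFun (id1 D 1) * ‖a‖ := by
      rw [N.smul, mul_comm]
      exact mul_le_mul_of_nonneg_left a8 (hn _)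
    have b9 : N.toFun (id2 D a.d2) ≤ C4 * ‖a‖ :=
      (h4 a.d2).trans (mul_le_mul_of_nonneg_left a9 hC4.le)
    have b10 : N.toFun (id3 D a.d3) ≤ C5 * ‖a‖ :=
      (h5 a.d3).trans (mul_le_mul_of_nonneg_left a10 hC5.le)
    conv_lhs => rw [decomp a]
    have c1 := N.add_le (a.l1 • E1 D) (a.l2 • E2 D)
    have c2 := N.add_le (a.l1 • E1 D + a.l2 • E2 D) (a.l3 • E3 D)
    have c3 := N.add_le (a.l1 • E1 D + a.l2 • E2 D + a.l3 • E3 D) (a.l5 • E5 D)
    have c4 := N.add_le (a.l1 • E1 D + a.l2 • E2 D + a.l3 • E3 D + a.l5 • E5 D) (iy1 D a.y1)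
    have c5 := N.add_le (a.l1 • E1 D + a.l2 • E2 D + a.l3 • E3 D + a.l5 • E5 D + iy1 D a.y1)
      (iy2 D a.y2)
    have c6 := N.add_le (a.l1 • E1 D + a.l2 • E2 D + a.l3 • E3 D + a.l5 • E5 D + iy1 D a.y1 +
      iy2 D a.y2) (iv D a.v)
    have c7 := N.add_le (a.l1 • E1 D + a.l2 • E2 D + a.l3 • E3 D + a.l5 • E5 D + iy1 D a.y1 +
      iy2 D a.y2 + iv D a.v) (a.d1 • id1 D 1)
    have c8 := N.add_le (a.l1 • E1 D + a.l2 • E2 D + a.l3 • E3 D + a.l5 • E5 D + iy1 D a.y1 +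
      iy2 D a.y2 + iv D a.v + a.d1 • id1 D 1) (id2 D a.d2)
    have c9 := N.add_le (a.l1 • E1 D + a.l2 • E2 D + a.l3 • E3 D + a.l5 • E5 D + iy1 D a.y1 +
      iy2 D a.y2 + iv D a.v + a.d1 • id1 D 1 + id2 D a.d2) (id3 D a.d3)
    linarith

theorem equiv_of_le (N : BanachAlgebraNorm (Alg D)) {C : ℝ} (h : ∀ a, N.toFun a ≤ C * ‖a‖) :
    Equivalent N (N0 D) := by
  have h' : ∀ a, N.toC a ≤ C * (std (Alg D)) a := h
  obtain ⟨C', hC', h''⟩ := comparable N.toC (std (Alg D)) C h'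
  have hn : ∀ x, 0 ≤ N.toFun x := N.toC.nonneg
  refine ⟨(|C| + 1)⁻¹, 7 * C', by positivity, fun x => ⟨?_, ?_⟩⟩
  · rw [inv_mul_le_iff₀ (by positivity)]
    change N.toFun x ≤ (|C| + 1) * (7 * ‖x‖)
    have h1 := h x
    have h2 := le_abs_self C
    have h3 := norm_nonneg x
    have h4 := abs_nonneg C
    nlinarith [mul_nonneg h4 h3, mul_le_mul_of_nonneg_right h2 h3]
  · change 7 * ‖x‖ ≤ 7 * C' * N.toFun x
    have := h'' x
    change ‖x‖ ≤ C' * N.toFun x at this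
    linarith

/-- The conjugate norm. -/
noncomputable def conj (N : BanachAlgebraNorm (Alg D)) : BanachAlgebraNorm (Alg D) :=
  N.pull (phi D) phi_add phi_smul phi_mul phi_phi

theorem phi_iy1 (y : Y) : phi D (iy1 D y) = iy1 D (th D y) := by
  have h1 : th D 0 = 0 := by
    have := th_smul D 0 0
    rwa [zero_smul, zero_smul] at this
  have h2 : Th D 0 = 0 := by
    have := Th_smul D 0 0
    rwa [zero_smul, zero_smul] at this
  exact Alg.ext rfl rfl rfl rfl rfl h1 h2 rfl rfl rfl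

theorem phi_iy2 (y : Y) : phi D (iy2 D y) = iy2 D (th D y) := by
  have h1 : th D 0 = 0 := by
    have := th_smul D 0 0
    rwa [zero_smul, zero_smul] at this
  have h2 : Th D 0 = 0 := by
    have := Th_smul D 0 0
    rwa [zero_smul, zero_smul] at this
  exact Alg.ext rfl rfl rfl rfl h1 rfl h2 rfl rfl rfl

/-- Every Banach algebra norm, or its conjugate, is equivalent to the standard norm. -/
theorem classify (N : BanachAlgebraNorm (Alg D)) :
    Equivalent N (N0 D) ∨ Equivalent (conj N) (N0 D) := by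
  obtain ⟨f, C, hC, h1, h2, h3⟩ := N.sys.exists_f
  obtain ⟨ψ, hψ⟩ := N.sys.dich hC h1 h2 h3
  have hfst : ∀ (x : X) (p : P Idx) (a : ℂ), ‖((x, p) : Xh)‖ ≤ ‖(((x, p), a) : Y)‖ := by
    intro x p a
    rw [Prod.norm_mk ((x, p) : Xh) a]
    exact le_max_left _ _
  have hsnd : ∀ (x : X) (p : P Idx) (a : ℂ), ‖a‖ ≤ ‖(((x, p), a) : Y)‖ := by
    intro x p a
    rw [Prod.norm_mk ((x, p) : Xh) a]
    exact le_max_right _ _
  have hX : ∀ (x : X) (p : P Idx) (a : ℂ), ‖ψ x‖ ≤ ‖ψ‖ * ‖(((x, p), a) : Y)‖ := by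
    intro x p a
    refine (ψ.le_opNorm x).trans (mul_le_mul_of_nonneg_left ?_ (norm_nonneg _))
    refine le_trans ?_ (hfst x p a)
    rw [Prod.norm_mk]
    exact le_max_left _ _
  rcases hψ with hψ | hψ
  · left
    have k : ∀ (x : X) (p : P Idx) (a : ℂ), ‖((x, p) : Xh)‖ + ‖a - f x‖ ≤
        (2 + ‖ψ‖) * ‖(((x, p), a) : Y)‖ := by
      intro x p a
      have := norm_sub_le a (ψ x)
      rw [hψ]
      linarith [hfst x p a, hsnd x p a, hX x p a]
    obtain ⟨C', hC', h4⟩ := le_of_sys N (C := C * (2 + ‖ψ‖)) (by positivity)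
      (by
        rintro ⟨⟨x, p⟩, a⟩
        refine (h1 x p a).trans ?_
        rw [mul_assoc]
        exact mul_le_mul_of_nonneg_left (k x p a) hC.le)
      (by
        rintro ⟨⟨x, p⟩, a⟩
        refine (h2 x p a).trans ?_
        rw [mul_assoc]
        exact mul_le_mul_of_nonneg_left (k x p a) hC.le)
    exact equiv_of_le N h4
  · right
    have k : ∀ (x : X) (p : P Idx) (a : ℂ), ‖((x, p) : Xh)‖ + ‖(D.F x - a) - f x‖ ≤
        (2 + ‖ψ‖) * ‖(((x, p), a) : Y)‖ := by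
      intro x p a
      have h5 : (D.F x - a) - f x = -(a + ψ x) := by
        rw [hψ]
        ring
      have := norm_add_le a (ψ x)
      rw [h5, norm_neg]
      linarith [hfst x p a, hsnd x p a, hX x p a]
    obtain ⟨C', hC', h4⟩ := le_of_sys (conj N) (C := C * (2 + ‖ψ‖)) (by positivity)
      (by
        rintro ⟨⟨x, p⟩, a⟩
        change N.toFun (phi D (iy1 D ((x, p), a))) ≤ _
        rw [phi_iy1]
        refine (h1 x p (D.F x - a)).trans ?_
        rw [mul_assoc]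
        exact mul_le_mul_of_nonneg_left (k x p a) hC.le)
      (by
        rintro ⟨⟨x, p⟩, a⟩
        change N.toFun (phi D (iy2 D ((x, p), a))) ≤ _
        rw [phi_iy2]
        refine (h2 x p (D.F x - a)).trans ?_
        rw [mul_assoc]
        exact mul_le_mul_of_nonneg_left (k x p a) hC.le)
    exact equiv_of_le (conj N) h4

/-- The two norms are not equivalent. -/
theorem not_equiv : ¬ Equivalent (N0 D) (conj (N0 D)) := by
  rintro ⟨c, C, hc, h⟩
  obtain ⟨n, hn⟩ := exists_nat_gt C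
  have h1 := (h (iy1 D ((e n, 0), 0))).2
  change 7 * ‖phi D (iy1 D ((e n, 0), 0))‖ ≤ C * (7 * ‖iy1 D ((e n, 0), 0)‖) at h1
  rw [phi_iy1] at h1
  have h2 : ‖iy1 D ((e n, 0), 0)‖ = 1 := by
    refine le_antisymm ?_ ?_
    · rw [norm_le_iff]
      have h3 : ‖(((e n, 0), 0) : Y)‖ = 1 := by
        rw [Sys.norm_inX', norm_e]
      have h4 : ‖(0 : ℂ)‖ ≤ 1 := by rw [norm_zero]; exact zero_le_one
      have h5 : ‖(0 : Y)‖ ≤ 1 := by rw [norm_zero]; exact zero_le_one
      have h6 : ‖(0 : V)‖ ≤ 1 := by rw [norm_zero]; exact zero_le_one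
      have h7 : ‖(0 : D2)‖ ≤ 1 := by rw [norm_zero]; exact zero_le_one
      have h8 : ‖(0 : D3)‖ ≤ 1 := by rw [norm_zero]; exact zero_le_one
      exact ⟨h4, h4, h4, h4, h3.le, h5, h6, h4, h7, h8⟩
    · have h9 := ((norm_le_iff (iy1 D ((e n, 0), 0)) _).1 le_rfl).2.2.2.2.1
      change ‖(((e n, 0), 0) : Y)‖ ≤ _ at h9
      rwa [Sys.norm_inX', norm_e] at h9
  have h3 : (n : ℝ) ≤ ‖iy1 D (th D ((e n, 0), 0))‖ := by
    have h9 := ((norm_le_iff (iy1 D (th D ((e n, 0), 0))) _).1 le_rfl).2.2.2.2.1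
    change ‖th D ((e n, 0), 0)‖ ≤ _ at h9
    refine le_trans ?_ h9
    refine le_trans ?_ (norm_snd_le _)
    change (n : ℝ) ≤ ‖D.F (e n) - 0‖
    rw [D.hF, sub_zero, Complex.norm_natCast]
  rw [h2] at h1
  linarith

theorem ban_ext {A : Type} [Ring A] [Algebra ℂ A] {N N' : BanachAlgebraNorm A}
    (h : N.toFun = N'.toFun) : N = N' := by
  cases N
  cases N'
  subst h
  rfl

/-- There is an algebra with exactly two classes of Banach algebra norms. -/
theorem main : ∃ (A : Type) (_ : Ring A) (_ : Algebra ℂ A), ENat.card (NormClasses A) = 2 := by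
  obtain ⟨D⟩ := exists_dat
  refine ⟨Alg D, inferInstance, inferInstance, ?_⟩
  have hcc : ∀ N : BanachAlgebraNorm (Alg D), conj (conj N) = N := by
    intro N
    refine ban_ext ?_
    funext a
    change N.toFun (phi D (phi D a)) = _
    rw [phi_phi]
  have hconj : ∀ N N' : BanachAlgebraNorm (Alg D), Equivalent N N' →
      Equivalent (conj N) (conj N') := by
    rintro N N' ⟨c, C, hc, h⟩
    exact ⟨c, C, hc, fun x => h (phi D x)⟩
  let S := equivSetoid (Alg D)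
  have h1 : ∀ q : NormClasses (Alg D), q = Quotient.mk S (N0 D) ∨
      q = Quotient.mk S (conj (N0 D)) := by
    intro q
    induction q using Quotient.inductionOn with
    | _ N =>
      rcases classify N with h | h
      · exact Or.inl (Quotient.sound h)
      · right
        have := hconj _ _ h
        rw [hcc] at this
        exact Quotient.sound this
  have h2 : Quotient.mk S (N0 D) ≠ Quotient.mk S (conj (N0 D)) := fun h =>
    not_equiv (Quotient.exact h)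
  have h3 : (Set.univ : Set (NormClasses (Alg D))) =
      {Quotient.mk S (N0 D), Quotient.mk S (conj (N0 D))} := by
    refine (Set.eq_univ_of_forall fun q => ?_).symm
    exact h1 q
  rw [← Set.encard_univ, h3]
  exact Set.encard_pair h2

end Q90.N2
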