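import Mathlib

set_option autoImplicit false

/-!
A tail equivalence relation with labels: points, labels, partial bijections of finite level.
-/

noncomputable section

namespace Q90.NM

/-- the sizes of the alphabets -/
def c (j : ℕ) : ℕ := (j + 2) * 2 ^ (j + 2)

theorem c_pos (j : ℕ) : 0 < c j := by unfold c; positivity

theorem lt_c (j : ℕ) : j + 1 < c j := by
  unfold c
  have : 1 ≤ 2 ^ (j + 2) := Nat.one_le_two_pow
  nlinarith

instance (j : ℕ) : NeZero (c j) := ⟨(c_pos j).ne'⟩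

/-- sequences -/
abbrev Sq : Type := (j : ℕ) → Fin (c j)

/-- points: a starting level and a sequence -/
abbrev Pt : Type := ℕ × Sq

/-- the label at level `n` -/
def lab (s : ℕ) (z : Sq) : ℕ → ℕ
  | 0 => s
  | n + 1 => if n < s then s else if (z n : ℕ) ≤ n + 1 then (z n : ℕ) else lab s z n

theorem lab_of_le {s : ℕ} {z : Sq} {n : ℕ} (h : n ≤ s) : lab s z n = s := by
  cases n with
  | zero => rfl
  | succ n => exact if_pos h

theorem lab_succ {s : ℕ} {z : Sq} {n : ℕ} (h : s ≤ n) :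
    lab s z (n + 1) = if (z n : ℕ) ≤ n + 1 then (z n : ℕ) else lab s z n := by
  show (if n < s then s else _) = _
  rw [if_neg (by omega)]

theorem lab_congr {s : ℕ} {x y : Sq} {n : ℕ} (h : ∀ j < n, x j = y j) :
    lab s x n = lab s y n := by
  induction n with
  | zero => rfl
  | succ n ih =>
    unfold lab
    rw [ih fun j hj => h j (by omega), h n (by omega)]

theorem lab_cont {s t : ℕ} {x y : Sq} {n m : ℕ} (hs : s ≤ n) (ht : t ≤ n)
    (h : lab s x n = lab t y n) (hnm : n ≤ m) (hxy : ∀ j, n ≤ j → j < m → x j = y j) :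
    lab s x m = lab t y m := by
  induction m, hnm using Nat.le_induction with
  | base => exact h
  | succ m hm ih =>
    rw [lab_succ (hs.trans hm), lab_succ (ht.trans hm), hxy m hm (Nat.lt_succ_self m),
      ih fun j h1 h2 => hxy j h1 (by omega)]

theorem lab_le {s : ℕ} {z : Sq} {n : ℕ} (h : s ≤ n) : lab s z n ≤ n := by
  induction n with
  | zero => rw [lab_of_le (Nat.zero_le _)]; exact h
  | succ n ih =>
    rcases Nat.lt_or_ge n s with h1 | h1
    · rw [lab_of_le (by omega)]; exact h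
    · rw [lab_succ h1]
      split_ifs with h2
      · exact h2
      · exact (ih h1).trans (Nat.le_succ n)

/-- splice: first `n` coordinates of `x`, the others of `y` -/
def spl (n : ℕ) (x y : Sq) : Sq := fun j => if j < n then x j else y j

theorem spl_lt {n : ℕ} {x y : Sq} {j : ℕ} (h : j < n) : spl n x y j = x j := if_pos h
theorem spl_ge {n : ℕ} {x y : Sq} {j : ℕ} (h : n ≤ j) : spl n x y j = y j := if_neg (by omega)

/-- partial bijections of level `n` -/
structure Lv (n : ℕ) (f : Pt ≃. Pt) : Prop where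
  dom : ∀ {a b : Pt}, b ∈ f a → a.1 ≤ n
  rng : ∀ {a b : Pt}, b ∈ f a → b.1 ≤ n
  lab : ∀ {a b : Pt}, b ∈ f a → lab a.1 a.2 n = lab b.1 b.2 n
  tail : ∀ {a b : Pt}, b ∈ f a → ∀ j, n ≤ j → a.2 j = b.2 j
  cyl : ∀ {a b a' b' : Pt}, b ∈ f a → a'.1 = a.1 → b'.1 = b.1 → (∀ j < n, a'.2 j = a.2 j) →
    (∀ j < n, b'.2 j = b.2 j) → (∀ j, n ≤ j → a'.2 j = b'.2 j) → b' ∈ f a'

theorem Lv.symm {n : ℕ} {f : Pt ≃. Pt} (h : Lv n f) : Lv n f.symm where
  dom hb := h.rng (f.mem_iff_mem.mp hb)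
  rng hb := h.dom (f.mem_iff_mem.mp hb)
  lab hb := (h.lab (f.mem_iff_mem.mp hb)).symm
  tail hb j hj := (h.tail (f.mem_iff_mem.mp hb) j hj).symm
  cyl hb h1 h2 h3 h4 h5 :=
    f.mem_iff_mem.mpr (h.cyl (f.mem_iff_mem.mp hb) h2 h1 h4 h3 fun j hj => (h5 j hj).symm)

theorem Lv.bot (n : ℕ) : Lv n ⊥ where
  dom hb := by cases hb
  rng hb := by cases hb
  lab hb := by cases hb
  tail hb := by cases hb
  cyl hb := by cases hb

theorem Lv.mono {n m : ℕ} {f : Pt ≃. Pt} (h : Lv n f) (hnm : n ≤ m) : Lv m f where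
  dom hb := (h.dom hb).trans hnm
  rng hb := (h.rng hb).trans hnm
  lab hb := lab_cont (h.dom hb) (h.rng hb) (h.lab hb) hnm fun j hj _ => h.tail hb j hj
  tail hb j hj := h.tail hb j (hnm.trans hj)
  cyl {a b a' b'} hb h1 h2 h3 h4 h5 := by
    refine h.cyl hb h1 h2 (fun j hj => h3 j (by omega)) (fun j hj => h4 j (by omega)) ?_
    intro j hj
    rcases Nat.lt_or_ge j m with h6 | h6
    · rw [h3 j h6, h4 j h6, h.tail hb j hj]
    · exact h5 j h6

theorem Lv.trans {n : ℕ} {f g : Pt ≃. Pt} (hf : Lv n f) (hg : Lv n g) : Lv n (f.trans g) where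
  dom hb := by
    obtain ⟨b, h1, _⟩ := (PEquiv.mem_trans f g _ _).mp hb
    exact hf.dom h1
  rng hb := by
    obtain ⟨b, _, h2⟩ := (PEquiv.mem_trans f g _ _).mp hb
    exact hg.rng h2
  lab hb := by
    obtain ⟨b, h1, h2⟩ := (PEquiv.mem_trans f g _ _).mp hb
    exact (hf.lab h1).trans (hg.lab h2)
  tail hb j hj := by
    obtain ⟨b, h1, h2⟩ := (PEquiv.mem_trans f g _ _).mp hb
    exact (hf.tail h1 j hj).trans (hg.tail h2 j hj)
  cyl {a d a' d'} hb h1 h2 h3 h4 h5 := by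
    obtain ⟨b, hb1, hb2⟩ := (PEquiv.mem_trans f g _ _).mp hb
    refine (PEquiv.mem_trans f g _ _).mpr ⟨(b.1, spl n b.2 a'.2), ?_, ?_⟩
    · exact hf.cyl hb1 h1 rfl h3 (fun j hj => spl_lt hj) fun j hj => (spl_ge hj).symm
    · exact hg.cyl hb2 rfl h2 (fun j hj => spl_lt hj) h4 fun j hj => by
        show spl n b.2 a'.2 j = _
        rw [spl_ge hj, h5 j hj]

/-- partial identity on the points started at level at most `n` -/
def un (n : ℕ) : Pt ≃. Pt := by
  classical
  exact PEquiv.ofSet {w : Pt | w.1 ≤ n}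

theorem mem_un {n : ℕ} {a b : Pt} : b ∈ un n a ↔ a = b ∧ a.1 ≤ n := by
  classical
  unfold un
  rw [PEquiv.mem_ofSet_iff]
  constructor
  · rintro ⟨rfl, h⟩
    exact ⟨rfl, h⟩
  · rintro ⟨rfl, h⟩
    exact ⟨rfl, h⟩

theorem lv_un (n : ℕ) : Lv n (un n) where
  dom hb := (mem_un.mp hb).2
  rng hb := by obtain ⟨rfl, h⟩ := mem_un.mp hb; exact h
  lab hb := by obtain ⟨rfl, h⟩ := mem_un.mp hb; rfl
  tail hb j _ := by obtain ⟨rfl, h⟩ := mem_un.mp hb; rfl
  cyl {a b a' b'} hb h1 h2 h3 h4 h5 := by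
    obtain ⟨rfl, h⟩ := mem_un.mp hb
    refine mem_un.mpr ⟨?_, by rw [h1]; exact h⟩
    refine Prod.ext (h1.trans h2.symm) (funext fun j => ?_)
    rcases Nat.lt_or_ge j n with h6 | h6
    · rw [h3 j h6, h4 j h6]
    · exact h5 j h6

/-- `a` agrees with `w` up to level `n` -/
def Ag (n : ℕ) (a w : Pt) : Prop := a.1 = w.1 ∧ ∀ j < n, a.2 j = w.2 j

open Classical in
/-- the basic partial bijections -/
def br (n : ℕ) (p q : Pt) : Pt ≃. Pt where
  toFun a := if Ag n a p then some (q.1, spl n q.2 a.2) else none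
  invFun b := if Ag n b q then some (p.1, spl n p.2 b.2) else none
  inv a b := by
    constructor
    · intro h
      change (if Ag n b q then some (p.1, spl n p.2 b.2) else none) = some a at h
      change (if Ag n a p then some (q.1, spl n q.2 a.2) else none) = some b
      split_ifs at h with h1
      have h2 := Option.some.inj h
      subst h2
      rw [if_pos ⟨rfl, fun j hj => spl_lt hj⟩]
      congr 1
      refine Prod.ext h1.1.symm (funext fun j => ?_)
      show spl n q.2 (spl n p.2 b.2) j = b.2 j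
      rcases Nat.lt_or_ge j n with h6 | h6
      · rw [spl_lt h6, h1.2 j h6]
      · rw [spl_ge h6, spl_ge h6]
    · intro h
      change (if Ag n a p then some (q.1, spl n q.2 a.2) else none) = some b at h
      change (if Ag n b q then some (p.1, spl n p.2 b.2) else none) = some a
      split_ifs at h with h1
      have h2 := Option.some.inj h
      subst h2
      rw [if_pos ⟨rfl, fun j hj => spl_lt hj⟩]
      congr 1
      refine Prod.ext h1.1.symm (funext fun j => ?_)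
      show spl n p.2 (spl n q.2 a.2) j = a.2 j
      rcases Nat.lt_or_ge j n with h6 | h6
      · rw [spl_lt h6, h1.2 j h6]
      · rw [spl_ge h6, spl_ge h6]

theorem mem_br {n : ℕ} {p q a b : Pt} :
    b ∈ br n p q a ↔ Ag n a p ∧ Ag n b q ∧ ∀ j, n ≤ j → a.2 j = b.2 j := by
  classical
  change (if Ag n a p then some (q.1, spl n q.2 a.2) else none) = some b ↔ _
  constructor
  · intro h
    split_ifs at h with h1
    have h2 := Option.some.inj h
    subst h2
    exact ⟨h1, ⟨rfl, fun j hj => spl_lt hj⟩, fun j hj => (spl_ge hj).symm⟩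
  · rintro ⟨h1, h2, h3⟩
    rw [if_pos h1]
    congr 1
    refine Prod.ext h2.1.symm (funext fun j => ?_)
    show spl n q.2 a.2 j = b.2 j
    rcases Nat.lt_or_ge j n with h6 | h6
    · rw [spl_lt h6, h2.2 j h6]
    · rw [spl_ge h6, h3 j h6]

theorem lv_br {n : ℕ} {p q : Pt} (hp : p.1 ≤ n) (hq : q.1 ≤ n)
    (hl : lab p.1 p.2 n = lab q.1 q.2 n) : Lv n (br n p q) where
  dom hb := by rw [(mem_br.mp hb).1.1]; exact hp
  rng hb := by rw [(mem_br.mp hb).2.1.1]; exact hq
  lab hb := by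
    obtain ⟨h1, h2, _⟩ := mem_br.mp hb
    rw [h1.1, h2.1, lab_congr h1.2, lab_congr h2.2, hl]
  tail hb := (mem_br.mp hb).2.2
  cyl hb h1 h2 h3 h4 h5 := by
    obtain ⟨g1, g2, _⟩ := mem_br.mp hb
    exact mem_br.mpr ⟨⟨h1.trans g1.1, fun j hj => (h3 j hj).trans (g1.2 j hj)⟩,
      ⟨h2.trans g2.1, fun j hj => (h4 j hj).trans (g2.2 j hj)⟩, h5⟩

theorem Ag.refl (n : ℕ) (a : Pt) : Ag n a a := ⟨rfl, fun _ _ => rfl⟩
theorem Ag.symm {n : ℕ} {a b : Pt} (h : Ag n a b) : Ag n b a :=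
  ⟨h.1.symm, fun j hj => (h.2 j hj).symm⟩
theorem Ag.trans {n : ℕ} {a b d : Pt} (h : Ag n a b) (h' : Ag n b d) : Ag n a d :=
  ⟨h.1.trans h'.1, fun j hj => (h.2 j hj).trans (h'.2 j hj)⟩
theorem Ag.mono {n m : ℕ} {a b : Pt} (h : Ag m a b) (hnm : n ≤ m) : Ag n a b :=
  ⟨h.1, fun j hj => h.2 j (by omega)⟩

theorem eq_of_ag {n : ℕ} {a b : Pt} (h : Ag n a b) (h' : ∀ j, n ≤ j → a.2 j = b.2 j) : a = b :=
  Prod.ext h.1 (funext fun j => by
    rcases Nat.lt_or_ge j n with h6 | h6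
    · exact h.2 j h6
    · exact h' j h6)

/-- the cylinder projection -/
def ec (n : ℕ) (w : Pt) : Pt ≃. Pt := br n w w

theorem mem_ec {n : ℕ} {w a b : Pt} : b ∈ ec n w a ↔ a = b ∧ Ag n a w := by
  unfold ec
  rw [mem_br]
  constructor
  · rintro ⟨h1, h2, h3⟩
    exact ⟨eq_of_ag (h1.trans h2.symm) h3, h1⟩
  · rintro ⟨rfl, h⟩
    exact ⟨h, h, fun _ _ => rfl⟩

open Classical in
/-- compression of a partial bijection by a small cylinder -/
theorem ec_compress {n N : ℕ} {f : Pt ≃. Pt} (hf : Lv n f) (hN : n ≤ N) (w : Pt) :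
    ((ec N w).trans f).trans (ec N w) = if w ∈ f w then ec N w else ⊥ := by
  apply PEquiv.ext
  intro a
  apply Option.ext
  intro b
  show b ∈ (((ec N w).trans f).trans (ec N w)) a ↔
    b ∈ (if w ∈ f w then ec N w else ⊥ : Pt ≃. Pt) a
  rw [PEquiv.mem_trans]
  constructor
  · rintro ⟨d, hd, hb⟩
    rw [PEquiv.mem_trans] at hd
    obtain ⟨e, he, hd⟩ := hd
    obtain ⟨rfl, ha⟩ := mem_ec.mp he
    obtain ⟨rfl, hd'⟩ := mem_ec.mp hb
    have h1 : a = d := by
      refine eq_of_ag (n := N) (ha.trans hd'.symm) fun j hj => ?_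
      exact hf.tail hd j (hN.trans hj)
    subst h1
    have h2 : w ∈ f w := by
      refine hf.cyl hd ha.1.symm ha.1.symm (fun j hj => (ha.2 j (by omega)).symm)
        (fun j hj => (ha.2 j (by omega)).symm) fun _ _ => rfl
    rw [if_pos h2]
    exact mem_ec.mpr ⟨rfl, ha⟩
  · intro h
    split_ifs at h with h1
    · obtain ⟨rfl, ha⟩ := mem_ec.mp h
      refine ⟨a, ?_, mem_ec.mpr ⟨rfl, ha⟩⟩
      rw [PEquiv.mem_trans]
      refine ⟨a, mem_ec.mpr ⟨rfl, ha⟩, ?_⟩
      exact hf.cyl h1 ha.1 ha.1 (fun j hj => ha.2 j (by omega)) (fun j hj => ha.2 j (by omega))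
        fun _ _ => rfl
    · cases h

/-- the zero tail representative -/
def tr (n : ℕ) (a : Pt) : Pt := (a.1, spl n a.2 0)

theorem tr_ag (n : ℕ) (a : Pt) : Ag n (tr n a) a := ⟨rfl, fun _ hj => spl_lt hj⟩

/-- representatives of the prefixes of length `n` -/
def Pf (n : ℕ) : Set Pt := {w | w.1 ≤ n ∧ ∀ j, n ≤ j → w.2 j = 0}

theorem tr_mem {n : ℕ} {a : Pt} (h : a.1 ≤ n) : tr n a ∈ Pf n := ⟨h, fun _ hj => spl_ge hj⟩

theorem pf_finite (n : ℕ) : (Pf n).Finite := by
  let φ : Pf n → Fin (n + 1) × ((j : Fin n) → Fin (c j)) :=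
    fun w => (⟨w.1.1, Nat.lt_succ_of_le w.2.1⟩, fun j => w.1.2 j)
  have : Function.Injective φ := by
    rintro ⟨w, hw⟩ ⟨w', hw'⟩ h
    apply Subtype.ext
    have h1 : w.1 = w'.1 := by
      have := congrArg Prod.fst h
      exact congrArg Fin.val this
    have h2 := congrArg Prod.snd h
    refine eq_of_ag (n := n) ⟨h1, fun j hj => ?_⟩ fun j hj => ?_
    · exact congrFun h2 ⟨j, hj⟩
    · rw [hw.2 j hj, hw'.2 j hj]
  exact Set.finite_coe_iff.mp (Finite.of_injective φ this)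

/-- partial bijections of level `n` are determined by the representatives -/
theorem Lv.ext {n : ℕ} {f g : Pt ≃. Pt} (hf : Lv n f) (hg : Lv n g)
    (h : ∀ a ∈ Pf n, ∀ b ∈ Pf n, b ∈ f a ↔ b ∈ g a) : f = g := by
  have key : ∀ {f g : Pt ≃. Pt}, Lv n f → Lv n g → (∀ a ∈ Pf n, ∀ b ∈ Pf n, b ∈ f a → b ∈ g a) →
      ∀ a b, b ∈ f a → b ∈ g a := by
    intro f g hf hg h a b hab
    have h1 : tr n b ∈ f (tr n a) := hf.cyl hab rfl rfl (fun j hj => spl_lt hj)
      (fun j hj => spl_lt hj) fun j hj => by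
        show spl n a.2 0 j = spl n b.2 0 j
        rw [spl_ge hj, spl_ge hj]
    have h2 := h _ (tr_mem (hf.dom hab)) _ (tr_mem (hf.rng hab)) h1
    exact hg.cyl h2 rfl rfl (fun j hj => (spl_lt hj).symm) (fun j hj => (spl_lt hj).symm)
      (hf.tail hab)
  apply PEquiv.ext
  intro a
  apply Option.ext
  intro b
  exact ⟨key hf hg (fun a ha b hb => (h a ha b hb).mp) a b,
    key hg hf (fun a ha b hb => (h a ha b hb).mpr) a b⟩

theorem lv_finite (n : ℕ) : {f : Pt ≃. Pt | Lv n f}.Finite := by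
  have hfin := pf_finite n
  have : Finite (Pf n) := hfin
  let φ : {f : Pt ≃. Pt | Lv n f} → Set (Pf n × Pf n) := fun f => {x | x.2.1 ∈ f.1 x.1.1}
  have hφ : Function.Injective φ := by
    rintro ⟨f, hf⟩ ⟨g, hg⟩ h
    apply Subtype.ext
    refine Lv.ext hf hg fun a ha b hb => ?_
    have := congrArg (fun s : Set (Pf n × Pf n) => ((⟨a, ha⟩, ⟨b, hb⟩) : Pf n × Pf n) ∈ s) h
    exact this.to_iff
  exact Set.finite_coe_iff.mp (Finite.of_injective φ hφ)

end Q90.NM
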