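import Mathlib

set_option autoImplicit false

/-!
A matrix with entries tending to zero along rows and columns: the columns can be thinned out so
that the row sums tend to zero along a given ultrafilter.
-/

open Filter Topology

namespace Q90.NM

theorem comb_step {t : ℕ → ℕ → ℝ} (h1 : ∀ n, Tendsto (fun k => t k n) atTop (𝓝 0))
    (h2 : ∀ k, Tendsto (fun n => t k n) atTop (𝓝 0)) (p : ℕ) {δ : ℝ} (hδ : 0 < δ) :
    ∃ q, p < q ∧ (∀ k ≤ p, ∀ n, q ≤ n → t k n ≤ δ) ∧ (∀ n ≤ p, ∀ k, q ≤ k → t k n ≤ δ) := by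
  have e1 : ∀ᶠ n in atTop, ∀ k ∈ Set.Iic p, t k n ≤ δ :=
    (eventually_all_finite (Set.finite_Iic p)).mpr fun k _ =>
      ((h2 k).eventually_lt_const hδ).mono fun _ h => h.le
  have e2 : ∀ᶠ k in atTop, ∀ n ∈ Set.Iic p, t k n ≤ δ :=
    (eventually_all_finite (Set.finite_Iic p)).mpr fun n _ =>
      ((h1 n).eventually_lt_const hδ).mono fun _ h => h.le
  obtain ⟨q1, hq1⟩ := eventually_atTop.mp e1
  obtain ⟨q2, hq2⟩ := eventually_atTop.mp e2
  refine ⟨max (p + 1) (max q1 q2), lt_of_lt_of_le (Nat.lt_succ_self p) (le_max_left _ _), ?_, ?_⟩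
  · intro k hk n hn
    exact hq1 n (((le_max_left _ _).trans (le_max_right _ _)).trans hn) k hk
  · intro n hn k hk
    exact hq2 k (((le_max_right _ _).trans (le_max_right _ _)).trans hk) n hn

theorem comb_sum {t : ℕ → ℕ → ℝ} (h0 : ∀ k n, 0 ≤ t k n) {a : ℕ → ℕ} (ha : StrictMono a) {r : ℕ}
    {k i : ℕ} (hk : ∀ l, l % 4 = r → t k (a l) ≤ 2 * (1 / 2) ^ i * (1 / 2) ^ l) (N : ℕ) :
    ∑ n ∈ Finset.range N, Set.indicator {n | ∃ l, l % 4 = r ∧ n = a l} (t k) n ≤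
      4 * (1 / 2) ^ i := by
  classical
  set L : Set ℕ := {n | ∃ l, l % 4 = r ∧ n = a l} with hL
  have h1 : ∑ n ∈ Finset.range N, L.indicator (t k) n =
      ∑ n ∈ (Finset.range N).filter (· ∈ L), t k n := by
    rw [Finset.sum_filter]
    rfl
  have h2 : (Finset.range N).filter (· ∈ L) ⊆
      ((Finset.range N).filter (fun l => l % 4 = r)).image a := by
    intro n hn
    obtain ⟨hn1, l, hl, rfl⟩ := Finset.mem_filter.mp hn
    have h3 : l ≤ a l := ha.le_apply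
    have h4 := Finset.mem_range.mp hn1
    exact Finset.mem_image.mpr ⟨l, Finset.mem_filter.mpr ⟨Finset.mem_range.mpr (by omega), hl⟩, rfl⟩
  rw [h1]
  calc ∑ n ∈ (Finset.range N).filter (· ∈ L), t k n
      ≤ ∑ n ∈ ((Finset.range N).filter (fun l => l % 4 = r)).image a, t k n :=
        Finset.sum_le_sum_of_subset_of_nonneg h2 fun _ _ _ => h0 _ _
    _ = ∑ l ∈ (Finset.range N).filter (fun l => l % 4 = r), t k (a l) :=
        Finset.sum_image fun x _ y _ h => ha.injective h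
    _ ≤ ∑ l ∈ (Finset.range N).filter (fun l => l % 4 = r),
          2 * (1 / 2 : ℝ) ^ i * (1 / 2) ^ l :=
        Finset.sum_le_sum fun l hl => hk l (Finset.mem_filter.mp hl).2
    _ ≤ ∑ l ∈ Finset.range N, 2 * (1 / 2 : ℝ) ^ i * (1 / 2) ^ l :=
        Finset.sum_le_sum_of_subset_of_nonneg (Finset.filter_subset _ _)
          fun _ _ _ => by positivity
    _ = 2 * (1 / 2 : ℝ) ^ i * ∑ l ∈ Finset.range N, (1 / 2 : ℝ) ^ l := by
        rw [Finset.mul_sum]
    _ ≤ 2 * (1 / 2 : ℝ) ^ i * 2 := by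
        refine mul_le_mul_of_nonneg_left ?_ (by positivity)
        have := geom_sum_eq (show (1 / 2 : ℝ) ≠ 1 by norm_num) N
        rw [this, div_le_iff_of_neg (by norm_num)]
        have h5 : (0 : ℝ) < (1 / 2) ^ N := by positivity
        linarith
    _ = 4 * (1 / 2) ^ i := by ring

theorem comb {t : ℕ → ℕ → ℝ} (h0 : ∀ k n, 0 ≤ t k n)
    (h1 : ∀ n, Tendsto (fun k => t k n) atTop (𝓝 0))
    (h2 : ∀ k, Tendsto (fun n => t k n) atTop (𝓝 0)) :
    ∃ L : Set ℕ, L.Infinite ∧ ∀ ε : ℝ, 0 < ε → ∀ᶠ k in (hyperfilter ℕ : Filter ℕ), ∀ N,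
      ∑ n ∈ Finset.range N, L.indicator (t k) n ≤ ε := by
  classical
  have hstep : ∀ j p : ℕ, ∃ q, p < q ∧ (∀ k ≤ p, ∀ n, q ≤ n → t k n ≤ (1 / 4 : ℝ) ^ j) ∧
      (∀ n ≤ p, ∀ k, q ≤ k → t k n ≤ (1 / 4 : ℝ) ^ j) :=
    fun j p => comb_step h1 h2 p (by positivity)
  choose Q hQ1 hQ2 hQ3 using hstep
  obtain ⟨a, ha0, hs⟩ : ∃ a : ℕ → ℕ, a 0 = 0 ∧ ∀ j, a (j + 1) = Q j (a j) :=
    ⟨fun n => Nat.rec 0 (fun j p => Q j p) n, rfl, fun _ => rfl⟩
  have ha : StrictMono a := strictMono_nat_of_lt_succ fun j => by rw [hs]; exact hQ1 j (a j)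
  have hA : ∀ j k n, k ≤ a j → a (j + 1) ≤ n → t k n ≤ (1 / 4 : ℝ) ^ j :=
    fun j k n hk hn => hQ2 j (a j) k hk n (by rwa [← hs])
  have hB : ∀ j k n, n ≤ a j → a (j + 1) ≤ k → t k n ≤ (1 / 4 : ℝ) ^ j :=
    fun j k n hn hk => hQ3 j (a j) n hn k (by rwa [← hs])
  -- the block of an index
  have hi : ∀ k : ℕ, ∃ i, a i ≤ k ∧ k < a (i + 1) := by
    intro k
    induction k with
    | zero => exact ⟨0, by rw [ha0], lt_of_le_of_lt (by rw [ha0]) (ha (Nat.lt_succ_self 0))⟩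
    | succ k ih =>
      obtain ⟨i, hi1, hi2⟩ := ih
      rcases Nat.lt_or_ge (k + 1) (a (i + 1)) with h | h
      · exact ⟨i, by omega, h⟩
      · refine ⟨i + 1, h, ?_⟩
        have : a (i + 1) < a (i + 1 + 1) := ha (Nat.lt_succ_self _)
        omega
  choose blk hb1 hb2 using hi
  have hblk : Tendsto blk atTop atTop := by
    rw [tendsto_atTop]
    intro i0
    filter_upwards [eventually_ge_atTop (a i0)] with k hk
    have h3 : a i0 < a (blk k + 1) := lt_of_le_of_lt hk (hb2 k)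
    have := ha.lt_iff_lt.mp h3
    omega
  -- the term bound
  have hterm : ∀ k l : ℕ, (l + 1 ≤ blk k ∨ blk k + 2 ≤ l) →
      t k (a l) ≤ 2 * (1 / 2) ^ (blk k) * (1 / 2) ^ l := by
    intro k l hl
    rcases hl with hl | hl
    · obtain ⟨i, hi⟩ : ∃ i, blk k = i + 1 := ⟨blk k - 1, by omega⟩
      have h3 : t k (a l) ≤ (1 / 4 : ℝ) ^ i := by
        refine hB i k (a l) (ha.monotone (by omega)) ?_
        rw [← hi]; exact hb1 k
      refine h3.trans ?_
      rw [hi, pow_succ]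
      have h4 : (1 / 4 : ℝ) ^ i = (1 / 2) ^ i * (1 / 2) ^ i := by
        rw [← mul_pow]; norm_num
      have h5 : (1 / 2 : ℝ) ^ i ≤ (1 / 2) ^ l :=
        pow_le_pow_of_le_one (by norm_num) (by norm_num) (by omega)
      rw [h4]
      have h6 : (0 : ℝ) < (1 / 2) ^ i := by positivity
      nlinarith
    · obtain ⟨l', hl'⟩ : ∃ l', l = l' + 1 := ⟨l - 1, by omega⟩
      have h3 : t k (a l) ≤ (1 / 4 : ℝ) ^ l' := by
        refine hA l' k (a l) ?_ (by rw [hl'])
        refine (hb2 k).le.trans (ha.monotone (by omega))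
      refine h3.trans ?_
      rw [hl', pow_succ]
      have h4 : (1 / 4 : ℝ) ^ l' = (1 / 2) ^ l' * (1 / 2) ^ l' := by
        rw [← mul_pow]; norm_num
      have h5 : (1 / 2 : ℝ) ^ l' ≤ (1 / 2) ^ (blk k) :=
        pow_le_pow_of_le_one (by norm_num) (by norm_num) (by omega)
      rw [h4]
      have h6 : (0 : ℝ) < (1 / 2) ^ l' := by positivity
      nlinarith
  have hinf : ∀ r < 4, Set.Infinite {n | ∃ l, l % 4 = r ∧ n = a l} := by
    intro r hr
    have h3 : Function.Injective fun j : ℕ => a (4 * j + r) := by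
      intro x y h
      have := ha.injective h
      omega
    refine Set.Infinite.mono ?_ (Set.infinite_range_of_injective h3)
    rintro _ ⟨j, rfl⟩
    exact ⟨4 * j + r, by omega, rfl⟩
  have hfin : ∀ (r : ℕ) (P : ℕ → Prop), (∀ k, P k → ∀ l, l % 4 = r →
      (l + 1 ≤ blk k ∨ blk k + 2 ≤ l)) → (∀ᶠ k in (hyperfilter ℕ : Filter ℕ), P k) →
      ∀ ε : ℝ, 0 < ε → ∀ᶠ k in (hyperfilter ℕ : Filter ℕ), ∀ N,
        ∑ n ∈ Finset.range N, Set.indicator {n | ∃ l, l % 4 = r ∧ n = a l} (t k) n ≤ ε := by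
    intro r P hP hev ε hε
    have h3 : Tendsto (fun k => 4 * (1 / 2 : ℝ) ^ (blk k)) atTop (𝓝 0) := by
      have h4 : Tendsto (fun i : ℕ => (1 / 2 : ℝ) ^ i) atTop (𝓝 0) :=
        tendsto_pow_atTop_nhds_zero_of_lt_one (by norm_num) (by norm_num)
      have h5 := (h4.comp hblk).const_mul 4
      rwa [mul_zero] at h5
    have h4 := (h3.mono_left Nat.hyperfilter_le_atTop).eventually_lt_const hε
    filter_upwards [hev, h4] with k hk1 hk2 N
    exact (comb_sum h0 ha (fun l hl => hterm k l (hP k hk1 l hl)) N).trans hk2.le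
  have hor : (∀ᶠ k in (hyperfilter ℕ : Filter ℕ), blk k % 4 = 1 ∨ blk k % 4 = 2) ∨
      ∀ᶠ k in (hyperfilter ℕ : Filter ℕ), blk k % 4 = 3 ∨ blk k % 4 = 0 := by
    rw [← Ultrafilter.eventually_or]
    exact Eventually.of_forall fun k => by omega
  rcases hor with h | h
  · refine ⟨_, hinf 0 (by norm_num), hfin 0 _ ?_ h⟩
    intro k hk l hl
    omega
  · refine ⟨_, hinf 2 (by norm_num), hfin 2 _ ?_ h⟩
    intro k hk l hl
    omega

end Q90.NM
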