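import Pool.Agent.Q90.NmPt

set_option autoImplicit false

/-!
Counting the paths ending at a vertex.
-/

open Finset

noncomputable section

namespace Q90.NM

/-- sequences of length `N` -/
abbrev X (N : ℕ) : Type := (j : Fin N) → Fin (c j)

/-- extension by zero -/
def ext0 (N : ℕ) (x : X N) : Sq := fun j => if h : j < N then x ⟨j, h⟩ else 0

theorem ext0_lt {N : ℕ} (x : X N) {j : ℕ} (h : j < N) : ext0 N x j = x ⟨j, h⟩ := dif_pos h
theorem ext0_ge {N : ℕ} (x : X N) {j : ℕ} (h : N ≤ j) : ext0 N x j = 0 := dif_neg (by omega)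

theorem ext0_inj (N : ℕ) : Function.Injective (ext0 N) := by
  intro x y h
  funext j
  have := congrFun h j
  rw [ext0_lt x j.2, ext0_lt y j.2] at this
  exact this

open Classical in
/-- sequences with zero tail -/
def G (N : ℕ) : Finset Sq := univ.image (ext0 N)

theorem mem_G {N : ℕ} {z : Sq} : z ∈ G N ↔ ∀ j, N ≤ j → z j = 0 := by
  classical
  unfold G
  rw [mem_image]
  constructor
  · rintro ⟨x, _, rfl⟩ j hj
    exact ext0_ge x hj
  · intro h
    refine ⟨fun j => z j, mem_univ _, funext fun j => ?_⟩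
    rcases Nat.lt_or_ge j N with h1 | h1
    · rw [ext0_lt _ h1]
    · rw [ext0_ge _ h1, h j h1]

theorem card_G (N : ℕ) : (G N).card = ∏ j : Fin N, c j := by
  classical
  unfold G
  rw [card_image_of_injective _ (ext0_inj N), card_univ, Fintype.card_pi]
  simp

theorem card_G_pos (N : ℕ) : 0 < (G N).card := by
  rw [card_G]
  exact prod_pos fun j _ => c_pos j

open Classical in
/-- number of sequences with a condition on one coordinate -/
theorem card_coord {N j : ℕ} (hj : j < N) (Q : ℕ → Prop) :
    ((G N).filter fun z => Q (z j)).card * c j =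
      (univ.filter fun a : Fin (c j) => Q a).card * (G N).card := by
  let t : (i : Fin N) → Finset (Fin (c i)) :=
    fun i => univ.filter fun a => (i : ℕ) = j → Q a
  have h1 : ((G N).filter fun z => Q (z j)).card = (Fintype.piFinset t).card := by
    have : (G N).filter (fun z => Q (z j)) = (Fintype.piFinset t).image (ext0 N) := by
      ext z
      rw [mem_filter, mem_image]
      unfold G
      rw [mem_image]
      constructor
      · rintro ⟨⟨x, _, rfl⟩, hx⟩
        refine ⟨x, Fintype.mem_piFinset.mpr fun i => ?_, rfl⟩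
        refine mem_filter.mpr ⟨mem_univ _, fun hi => ?_⟩
        subst hi
        rw [ext0_lt x i.2] at hx
        exact hx
      · rintro ⟨x, hx, rfl⟩
        refine ⟨⟨x, mem_univ _, rfl⟩, ?_⟩
        rw [ext0_lt x hj]
        exact (mem_filter.mp (Fintype.mem_piFinset.mp hx ⟨j, hj⟩)).2 rfl
    rw [this, card_image_of_injective _ (ext0_inj N)]
  rw [h1, Fintype.card_piFinset, card_G]
  have e1 := (mul_prod_erase univ (fun i : Fin N => (t i).card) (mem_univ ⟨j, hj⟩)).symm
  have e2 := (mul_prod_erase univ (fun i : Fin N => c i) (mem_univ ⟨j, hj⟩)).symm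
  have e3 : ∏ i ∈ univ.erase (⟨j, hj⟩ : Fin N), (t i).card =
      ∏ i ∈ univ.erase (⟨j, hj⟩ : Fin N), c i := by
    refine prod_congr rfl fun i hi => ?_
    have hne : (i : ℕ) ≠ j := fun h => (mem_erase.mp hi).1 (Fin.ext h)
    have : t i = univ := by
      ext a
      simp only [t, mem_filter, mem_univ, true_and, iff_true]
      exact fun h => absurd h hne
    rw [this, card_univ, Fintype.card_fin]
  have e4 : t ⟨j, hj⟩ = univ.filter fun a : Fin (c j) => Q a := by
    ext a
    simp [t]
  rw [e1, e2, e3, e4]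
  ring

theorem jump {s k N : ℕ} {z : Sq} (hs : s ≤ N) (hsk : s ≠ k) (h : lab s z N = k) :
    ∃ j, s ≤ j ∧ k ≤ j + 1 ∧ j < N ∧ (z j : ℕ) = k := by
  induction N, hs using Nat.le_induction with
  | base => rw [lab_of_le le_rfl] at h; exact absurd h hsk
  | succ N hN ih =>
    rw [lab_succ hN] at h
    split_ifs at h with h1
    · exact ⟨N, hN, by omega, Nat.lt_succ_self N, h⟩
    · obtain ⟨j, a, b, d, e⟩ := ih h
      exact ⟨j, a, b, by omega, e⟩

theorem leave {k N : ℕ} {z : Sq} (hk : k ≤ N) (h : lab k z N ≠ k) :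
    ∃ j, k ≤ j ∧ j < N ∧ (z j : ℕ) ≤ j + 1 := by
  induction N, hk using Nat.le_induction with
  | base => rw [lab_of_le le_rfl] at h; exact absurd rfl h
  | succ N hN ih =>
    rw [lab_succ hN] at h
    split_ifs at h with h1
    · exact ⟨N, hN, Nat.lt_succ_self N, h1⟩
    · obtain ⟨j, a, b, d⟩ := ih h
      exact ⟨j, a, by omega, d⟩

/-- geometric tails -/
def gt (j : ℕ) : ℝ := (1 / 2) ^ j

theorem gt_pos (j : ℕ) : 0 < gt j := by unfold gt; positivity

theorem gt_succ (j : ℕ) : gt (j + 1) = gt j / 2 := by unfold gt; rw [pow_succ]; ring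

theorem sum_gt_le (a N : ℕ) (d : ℕ) : ∑ j ∈ Ico a N, gt (j + d + 1) ≤ gt (a + d) := by
  rcases Nat.lt_or_ge a N with h | h
  · have key : ∀ N, a ≤ N → ∑ j ∈ Ico a N, gt (j + d + 1) = gt (a + d) - gt (N + d) := by
      intro N hN
      induction N, hN using Nat.le_induction with
      | base => rw [Ico_self, sum_empty, sub_self]
      | succ N hN ih =>
        rw [sum_Ico_succ_top hN, ih, show N + 1 + d = (N + d) + 1 by ring, gt_succ]
        ring
    rw [key N h.le]
    have := gt_pos (N + d)
    linarith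
  · rw [Ico_eq_empty (by omega), sum_empty]
    exact (gt_pos _).le

theorem c_real (j : ℕ) : (c j : ℝ) = (j + 2) * 2 ^ (j + 2) := by
  unfold c
  push_cast
  ring

theorem card_one (j k : ℕ) : ((univ.filter fun a : Fin (c j) => (a : ℕ) = k).card : ℝ) ≤ 1 := by
  have : (univ.filter fun a : Fin (c j) => (a : ℕ) = k).card ≤ 1 := by
    rw [card_le_one]
    intro a ha b hb
    exact Fin.ext ((mem_filter.mp ha).2.trans (mem_filter.mp hb).2.symm)
  exact_mod_cast this

theorem card_two (j : ℕ) :
    ((univ.filter fun a : Fin (c j) => (a : ℕ) ≤ j + 1).card : ℝ) ≤ j + 2 := by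
  have : (univ.filter fun a : Fin (c j) => (a : ℕ) ≤ j + 1).card ≤ j + 2 := by
    calc (univ.filter fun a : Fin (c j) => (a : ℕ) ≤ j + 1).card
        = ((univ.filter fun a : Fin (c j) => (a : ℕ) ≤ j + 1).image Fin.val).card :=
          (card_image_of_injective _ Fin.val_injective).symm
      _ ≤ (range (j + 2)).card := by
          refine card_le_card fun a ha => ?_
          obtain ⟨b, hb, rfl⟩ := mem_image.mp ha
          rw [mem_range]
          have := (mem_filter.mp hb).2
          omega
      _ = j + 2 := card_range _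
  exact_mod_cast this

open Classical in
theorem coord_one {N j : ℕ} (hj : j < N) (k : ℕ) :
    (((G N).filter fun z => (z j : ℕ) = k).card : ℝ) ≤ gt (j + 3) * (G N).card := by
  have h := card_coord hj fun a => a = k
  have h1 : (((G N).filter fun z => (z j : ℕ) = k).card : ℝ) * c j ≤ 1 * (G N).card := by
    have h2 : (((G N).filter fun z => (z j : ℕ) = k).card : ℝ) * c j =
        ((univ.filter fun a : Fin (c j) => (a : ℕ) = k).card : ℝ) * (G N).card := by
      have h' : ((G N).filter fun z => (z j : ℕ) = k).card * c j =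
          (univ.filter fun a : Fin (c j) => (a : ℕ) = k).card * (G N).card := by convert h
      exact_mod_cast h'
    rw [h2]
    exact mul_le_mul_of_nonneg_right (card_one j k) (Nat.cast_nonneg _)
  have hc : (2 : ℝ) ^ (j + 3) ≤ c j := by
    rw [c_real, show j + 3 = (j + 2) + 1 by ring, pow_succ]
    have : (0 : ℝ) < 2 ^ (j + 2) := by positivity
    have hj' : (0 : ℝ) ≤ j := Nat.cast_nonneg j
    nlinarith
  have hpos : (0 : ℝ) < 2 ^ (j + 3) := by positivity
  have h3 : (((G N).filter fun z => (z j : ℕ) = k).card : ℝ) * 2 ^ (j + 3) ≤ (G N).card := by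
    calc _ ≤ (((G N).filter fun z => (z j : ℕ) = k).card : ℝ) * c j :=
          mul_le_mul_of_nonneg_left hc (Nat.cast_nonneg _)
      _ ≤ 1 * (G N).card := h1
      _ = _ := one_mul _
  have e : gt (j + 3) * (G N).card = (G N).card / 2 ^ (j + 3) := by
    unfold gt
    rw [one_div, inv_pow]
    field_simp
  rw [e, le_div_iff₀ hpos]
  exact h3

open Classical in
theorem coord_two {N j : ℕ} (hj : j < N) :
    (((G N).filter fun z => (z j : ℕ) ≤ j + 1).card : ℝ) ≤ gt (j + 2) * (G N).card := by
  have h := card_coord hj fun a => a ≤ j + 1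
  have h1 : (((G N).filter fun z => (z j : ℕ) ≤ j + 1).card : ℝ) * c j ≤
      (j + 2) * (G N).card := by
    have h2 : (((G N).filter fun z => (z j : ℕ) ≤ j + 1).card : ℝ) * c j =
        ((univ.filter fun a : Fin (c j) => (a : ℕ) ≤ j + 1).card : ℝ) * (G N).card := by
      have h' : ((G N).filter fun z => (z j : ℕ) ≤ j + 1).card * c j =
          (univ.filter fun a : Fin (c j) => (a : ℕ) ≤ j + 1).card * (G N).card := by convert h
      exact_mod_cast h'
    rw [h2]
    exact mul_le_mul_of_nonneg_right (card_two j) (Nat.cast_nonneg _)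
  have hpos : (0 : ℝ) < 2 ^ (j + 2) := by positivity
  have e : gt (j + 2) * (G N).card = (G N).card / 2 ^ (j + 2) := by
    unfold gt
    rw [one_div, inv_pow]
    field_simp
  rw [e, le_div_iff₀ hpos]
  rw [c_real] at h1
  have hj2 : (0 : ℝ) < j + 2 := by positivity
  have h4 : (j + 2 : ℝ) * ((((G N).filter fun z => (z j : ℕ) ≤ j + 1).card : ℝ) * 2 ^ (j + 2)) ≤
      (j + 2) * (G N).card := by
    calc _ = (((G N).filter fun z => (z j : ℕ) ≤ j + 1).card : ℝ) * ((j + 2) * 2 ^ (j + 2)) := by
          ring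
      _ ≤ _ := h1
  exact le_of_mul_le_mul_left h4 hj2

open Classical in
/-- few sequences jump to `k` -/
theorem count_jump {s k N : ℕ} (hs : s ≤ N) (hsk : s ≠ k) :
    (((G N).filter fun z => lab s z N = k).card : ℝ) ≤
      gt (max s (k - 1) + 2) * (G N).card := by
  have h1 : ((G N).filter fun z => lab s z N = k) ⊆
      (Ico (max s (k - 1)) N).biUnion fun j => (G N).filter fun z => (z j : ℕ) = k := by
    intro z hz
    obtain ⟨hz1, hz2⟩ := mem_filter.mp hz
    obtain ⟨j, a, b, d, e⟩ := jump hs hsk hz2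
    refine mem_biUnion.mpr ⟨j, mem_Ico.mpr ⟨?_, d⟩, mem_filter.mpr ⟨hz1, e⟩⟩
    omega
  have h2 : (((G N).filter fun z => lab s z N = k).card : ℝ) ≤
      ∑ j ∈ Ico (max s (k - 1)) N, (((G N).filter fun z => (z j : ℕ) = k).card : ℝ) := by
    exact_mod_cast (card_le_card h1).trans card_biUnion_le
  refine h2.trans ?_
  calc _ ≤ ∑ j ∈ Ico (max s (k - 1)) N, gt (j + 2 + 1) * (G N).card :=
        sum_le_sum fun j hj => coord_one (mem_Ico.mp hj).2 k
    _ = (∑ j ∈ Ico (max s (k - 1)) N, gt (j + 2 + 1)) * (G N).card := (sum_mul _ _ _).symm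
    _ ≤ _ := mul_le_mul_of_nonneg_right (sum_gt_le _ _ _) (Nat.cast_nonneg _)

open Classical in
/-- most sequences stay -/
theorem count_stay {k N : ℕ} (hk : k ≤ N) :
    ((G N).card : ℝ) / 2 ≤ (((G N).filter fun z => lab k z N = k).card : ℝ) := by
  have h0 : ((G N).filter fun z => lab k z N = k).card +
      ((G N).filter fun z => ¬ lab k z N = k).card = (G N).card :=
    card_filter_add_card_filter_not _
  have h1 : ((G N).filter fun z => ¬ lab k z N = k) ⊆
      (Ico k N).biUnion fun j => (G N).filter fun z => (z j : ℕ) ≤ j + 1 := by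
    intro z hz
    obtain ⟨hz1, hz2⟩ := mem_filter.mp hz
    obtain ⟨j, a, b, d⟩ := leave hk hz2
    exact mem_biUnion.mpr ⟨j, mem_Ico.mpr ⟨a, b⟩, mem_filter.mpr ⟨hz1, d⟩⟩
  have h2 : (((G N).filter fun z => ¬ lab k z N = k).card : ℝ) ≤
      ∑ j ∈ Ico k N, (((G N).filter fun z => (z j : ℕ) ≤ j + 1).card : ℝ) := by
    exact_mod_cast (card_le_card h1).trans card_biUnion_le
  have h3 : (((G N).filter fun z => ¬ lab k z N = k).card : ℝ) ≤ (1 / 2) * (G N).card := by
    refine h2.trans ?_
    calc _ ≤ ∑ j ∈ Ico k N, gt (j + 1 + 1) * (G N).card :=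
          sum_le_sum fun j hj => coord_two (mem_Ico.mp hj).2
      _ = (∑ j ∈ Ico k N, gt (j + 1 + 1)) * (G N).card := (sum_mul _ _ _).symm
      _ ≤ gt (k + 1) * (G N).card :=
          mul_le_mul_of_nonneg_right (sum_gt_le _ _ _) (Nat.cast_nonneg _)
      _ ≤ (1 / 2) * (G N).card := by
          refine mul_le_mul_of_nonneg_right ?_ (Nat.cast_nonneg _)
          unfold gt
          calc ((1 : ℝ) / 2) ^ (k + 1) ≤ (1 / 2) ^ 1 :=
                pow_le_pow_of_le_one (by norm_num) (by norm_num) (by omega)
            _ = 1 / 2 := pow_one _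
  have h4 : (((G N).filter fun z => lab k z N = k).card : ℝ) +
      (((G N).filter fun z => ¬ lab k z N = k).card : ℝ) = (G N).card := by exact_mod_cast h0
  linarith

open Classical in
/-- representatives of the paths of length `N` ending at `k` -/
def F (N k : ℕ) : Finset Pt := ((range (N + 1)) ×ˢ (G N)).filter fun w => lab w.1 w.2 N = k

theorem mem_F {N k : ℕ} {w : Pt} : w ∈ F N k ↔
    (w.1 ≤ N ∧ ∀ j, N ≤ j → w.2 j = 0) ∧ lab w.1 w.2 N = k := by
  classical
  unfold F
  rw [mem_filter, mem_product, mem_range, mem_G]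
  constructor
  · rintro ⟨⟨h1, h2⟩, h3⟩
    exact ⟨⟨by omega, h2⟩, h3⟩
  · rintro ⟨⟨h1, h2⟩, h3⟩
    exact ⟨⟨by omega, h2⟩, h3⟩

open Classical in
/-- number of representatives with starting level in a set -/
theorem card_F_start (N k : ℕ) (S : ℕ → Prop) :
    ((F N k).filter fun w => S w.1).card =
      ∑ s ∈ (range (N + 1)).filter S, ((G N).filter fun z => lab s z N = k).card := by
  have h1 : (F N k).filter (fun w => S w.1) =
      ((range (N + 1)).filter S).biUnion fun s =>
        ((G N).filter fun z => lab s z N = k).image fun z => ((s, z) : Pt) := by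
    ext w
    simp only [mem_filter, mem_biUnion, mem_image, F, mem_product]
    constructor
    · rintro ⟨⟨⟨h1, h2⟩, h3⟩, h4⟩
      exact ⟨w.1, ⟨h1, h4⟩, w.2, ⟨h2, h3⟩, rfl⟩
    · rintro ⟨s, ⟨h1, h2⟩, z, ⟨h3, h4⟩, rfl⟩
      exact ⟨⟨⟨h1, h3⟩, h4⟩, h2⟩
  rw [h1, card_biUnion]
  · refine sum_congr rfl fun s _ => card_image_of_injective _ ?_
    intro z z' h
    exact congrArg Prod.snd h
  · intro s _ s' _ hne
    show Disjoint _ _
    rw [disjoint_left]
    intro w hw hw'
    obtain ⟨z, _, rfl⟩ := mem_image.mp hw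
    obtain ⟨z', _, h⟩ := mem_image.mp hw'
    exact hne (congrArg Prod.fst h).symm

theorem card_F_ge {N k : ℕ} (hk : k ≤ N) : ((G N).card : ℝ) / 2 ≤ ((F N k).card : ℝ) := by
  classical
  refine (count_stay hk).trans ?_
  have h1 : ((G N).filter fun z => lab k z N = k).card ≤ (F N k).card := by
    have h2 := card_F_start N k fun s => s = k
    have h3 : @Finset.filter ℕ (fun s => s = k) (fun _ => Classical.propDecidable _)
        (range (N + 1)) = {k} := by
      ext s
      simp only [mem_filter, mem_range, mem_singleton]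
      constructor
      · exact fun h => h.2
      · rintro rfl
        exact ⟨by omega, rfl⟩
    rw [h3, sum_singleton] at h2
    refine le_trans (le_of_eq h2.symm) ?_
    exact card_le_card fun w hw => by
      rw [@mem_filter] at hw
      exact hw.1
  exact_mod_cast h1

theorem card_F_pos {N k : ℕ} (hk : k ≤ N) : (0 : ℝ) < ((F N k).card : ℝ) := by
  have h1 := card_F_ge hk
  have h2 : (0 : ℝ) < (G N).card := by exact_mod_cast card_G_pos N
  linarith

open Classical in
/-- few paths ending at `k` started much earlier -/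
theorem early {N k n : ℕ} (hk : k ≤ N) (hn : n < k) :
    (((F N k).filter fun w => w.1 ≤ n).card : ℝ) ≤ ((n + 1) * gt k) * (F N k).card := by
  have h1 : (((F N k).filter fun w => w.1 ≤ n).card : ℝ) =
      ∑ s ∈ (range (N + 1)).filter (fun s => s ≤ n),
        (((G N).filter fun z => lab s z N = k).card : ℝ) := by
    rw [← Nat.cast_sum]
    congr 1
    convert card_F_start N k fun s => s ≤ n
  have h2 : (range (N + 1)).filter (fun s => s ≤ n) = range (n + 1) := by
    ext s
    simp only [mem_filter, mem_range]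
    omega
  rw [h1, h2]
  have h3 := card_F_ge hk
  calc ∑ s ∈ range (n + 1), (((G N).filter fun z => lab s z N = k).card : ℝ)
      ≤ ∑ s ∈ range (n + 1), gt (k + 1) * (G N).card := by
        refine sum_le_sum fun s hs => ?_
        have hs' := mem_range.mp hs
        refine (count_jump (by omega) (by omega)).trans ?_
        refine mul_le_mul_of_nonneg_right ?_ (Nat.cast_nonneg _)
        unfold gt
        exact pow_le_pow_of_le_one (by norm_num) (by norm_num) (by omega)
    _ = (n + 1) * gt k * ((G N).card / 2) := by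
        rw [sum_const, card_range, nsmul_eq_mul, gt_succ]
        push_cast
        ring
    _ ≤ _ := mul_le_mul_of_nonneg_left h3 (by have := (gt_pos k).le; positivity)

open Classical in
/-- few paths ending at `k` started much later -/
theorem late {N k n : ℕ} (hk : k ≤ n) (hn : n ≤ N) :
    (((F N k).filter fun w => ¬ w.1 ≤ n).card : ℝ) ≤ gt n * (F N k).card := by
  have h1 : (((F N k).filter fun w => ¬ w.1 ≤ n).card : ℝ) =
      ∑ s ∈ (range (N + 1)).filter (fun s => ¬ s ≤ n),
        (((G N).filter fun z => lab s z N = k).card : ℝ) := by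
    rw [← Nat.cast_sum]
    congr 1
    convert card_F_start N k fun s => ¬ s ≤ n
  have h2 : (range (N + 1)).filter (fun s => ¬ s ≤ n) = Ico (n + 1) (N + 1) := by
    ext s
    simp only [mem_filter, mem_range, mem_Ico]
    omega
  rw [h1, h2]
  have h3 := card_F_ge (hk.trans hn)
  calc ∑ s ∈ Ico (n + 1) (N + 1), (((G N).filter fun z => lab s z N = k).card : ℝ)
      ≤ ∑ s ∈ Ico (n + 1) (N + 1), gt (s + 1 + 1) * (G N).card := by
        refine sum_le_sum fun s hs => ?_
        have hs' := mem_Ico.mp hs
        refine (count_jump (by omega) (by omega)).trans ?_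
        refine mul_le_mul_of_nonneg_right ?_ (Nat.cast_nonneg _)
        unfold gt
        exact pow_le_pow_of_le_one (by norm_num) (by norm_num) (by omega)
    _ = (∑ s ∈ Ico (n + 1) (N + 1), gt (s + 1 + 1)) * (G N).card := (sum_mul _ _ _).symm
    _ ≤ gt (n + 1 + 1) * (G N).card :=
        mul_le_mul_of_nonneg_right (sum_gt_le _ _ _) (Nat.cast_nonneg _)
    _ = (gt n / 2) * ((G N).card / 2) := by rw [gt_succ, gt_succ]; ring
    _ ≤ gt n * ((G N).card / 2) := by
        refine mul_le_mul_of_nonneg_right ?_ (by positivity)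
        have := gt_pos n
        linarith
    _ ≤ _ := mul_le_mul_of_nonneg_left h3 (gt_pos n).le

end Q90.NM
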