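import Mathlib

set_option autoImplicit false

/-!
# Nonmeagre ideals of multiplier algebras: definitions

`DoubleCentralizer ℂ A`, notation `𝓜(ℂ, A)`, is Mathlib's multiplier algebra of the C*-algebra
`A`: for `x : 𝓜(ℂ, A)` and `a : A` the product `x a` is `x.fst a`, the product `a x` is `x.snd a`,
and `A` is embedded by `DoubleCentralizer.coe ℂ`.
-/

open Filter Topology
open scoped MultiplierAlgebra

noncomputable section

namespace Q90.NM

variable (A : Type) [NonUnitalCStarAlgebra A]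

/-- `A` has no unit. -/
def IsNonunital : Prop := ¬ ∃ e : A, ∀ a : A, e * a = a ∧ a * e = a

variable {A}

/-- `x` is positive, that is, of the form `b* b`. -/
def Pos (x : A) : Prop := ∃ b : A, x = star b * b

/-- `e_{i - d}`, with the convention `e_k = 0` for `k < 0`. -/
def sh (e : ℕ → A) (i d : ℕ) : A := if d ≤ i then e (i - d) else 0

/-- `(e_n)` is a good approximate identity of `A`. -/
structure GoodApproxIdentity (e : ℕ → A) : Prop where
  /-- the `e_n` are positive -/
  pos : ∀ n, Pos (e n)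
  /-- the `e_n` are contractions -/
  norm_le : ∀ n, ‖e n‖ ≤ 1
  /-- left approximate identity -/
  left : ∀ a : A, Tendsto (fun n => e n * a) atTop (𝓝 a)
  /-- right approximate identity -/
  right : ∀ a : A, Tendsto (fun n => a * e n) atTop (𝓝 a)
  /-- `e_{n+1} e_n = e_n` -/
  mul : ∀ n, e (n + 1) * e n = e n
  /-- `‖e_{n+1} - e_n‖ = 1` -/
  norm_sub : ∀ n, ‖e (n + 1) - e n‖ = 1
  /-- the positive contractions `h_I`, for the intervals `I = [i, j]` -/
  bumps : ∃ h : ℕ → ℕ → A,
    (∀ i j, i ≤ j → Pos (h i j) ∧ ‖h i j‖ ≤ 1 ∧ Pos (e (j + 1) - sh e i 2 - h i j) ∧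
      h i j * (e j - sh e i 1) = e j - sh e i 1) ∧
    ∀ i j i' j', i ≤ j → i' ≤ j' → j + 1 < i' → h i j * h i' j' = 0

/-- `g_I = e_{max I} - e_{min I - 1}` for the `n`-th interval `I = [m n, m (n + 1))` of the
partition of `ℕ` given by a strictly increasing sequence `m` with `m 0 = 0`. -/
def gI (e : ℕ → A) (m : ℕ → ℕ) (n : ℕ) : A := e (m (n + 1) - 1) - sh e (m n) 1

/-- The series `∑_{n ∈ L} g n` converges strictly to the multiplier `x`. -/
def HasStrictSum (L : Set ℕ) (g : ℕ → A) (x : 𝓜(ℂ, A)) : Prop :=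
  ∀ a : A,
    Tendsto (fun N => (∑ n ∈ Finset.range N, L.indicator g n) * a) atTop (𝓝 (x.fst a)) ∧
    Tendsto (fun N => a * ∑ n ∈ Finset.range N, L.indicator g n) atTop (𝓝 (x.snd a))

/-- `I` is nonmeagre: for every good approximate identity and every partition of `ℕ` into
consecutive finite intervals there is an infinite set `L` such that `∑_{n ∈ L} g_{I_n}` is
in `I`. -/
def Nonmeagre (I : Submodule ℂ 𝓜(ℂ, A)) : Prop :=
  ∀ e : ℕ → A, GoodApproxIdentity e → ∀ m : ℕ → ℕ, StrictMono m → m 0 = 0 →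
    ∃ L : Set ℕ, L.Infinite ∧ ∃ x ∈ I, HasStrictSum L (gI e m) x

/-- `I` is a two-sided ideal of the multiplier algebra. -/
def IsTwoSided (I : Submodule ℂ 𝓜(ℂ, A)) : Prop :=
  ∀ x y : 𝓜(ℂ, A), y ∈ I → x * y ∈ I ∧ y * x ∈ I

end Q90.NM
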