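import Pool.Agent.Q90.NmTrace
import Pool.Agent.Q90.NmDefs

set_option autoImplicit false

/-!
The ideal of the multiplier algebra given by the traces and an ultrafilter.
-/

open scoped ENNReal InnerProductSpace MultiplierAlgebra
open Filter Topology

noncomputable section

namespace Q90.NM

open Q90.ZS (T mc dl E)

/-- the units -/
def uu (n : ℕ) : AT := gn (un n) (good_un n)

theorem norm_uu_le (n : ℕ) : ‖uu n‖ ≤ 1 := Q90.ZS.norm_T (un n)

theorem un_symm (n : ℕ) : (un n).symm = un n := by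
  refine pequiv_ext fun a b => ?_
  constructor
  · intro h
    have h1 := (un n).mem_iff_mem.mp h
    obtain ⟨rfl, h2⟩ := mem_un.mp h1
    exact mem_un.mpr ⟨rfl, h2⟩
  · intro h
    obtain ⟨rfl, h2⟩ := mem_un.mp h
    exact (un n).mem_iff_mem.mpr h

theorem trans_un {n : ℕ} {f : Pt ≃. Pt} (hf : Lv n f) : f.trans (un n) = f := by
  refine pequiv_ext fun a b => ?_
  rw [PEquiv.mem_trans]
  constructor
  · rintro ⟨d, h1, h2⟩
    obtain ⟨rfl, _⟩ := mem_un.mp h2
    exact h1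
  · intro h
    exact ⟨b, h, mem_un.mpr ⟨rfl, hf.rng h⟩⟩

theorem star_uu (n : ℕ) : star (uu n) = uu n := by
  apply Subtype.ext
  show star (T (un n) : BE) = T (un n)
  rw [Q90.ZS.T_star, un_symm]

theorem uu_mul_gn {n N : ℕ} {f : Pt ≃. Pt} (hf : Lv n f) (hN : n ≤ N) :
    T (un N) * T f = T f := by
  rw [← Q90.ZS.T_trans, trans_un (hf.mono hN)]

theorem uu_mul_span {x : BE} (hx : x ∈ Submodule.span ℂ Gen) :
    ∃ N0, ∀ N, N0 ≤ N → T (un N) * x = x := by
  induction hx using Submodule.span_induction with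
  | mem x hx =>
    obtain ⟨f, ⟨n, hf⟩, rfl⟩ := hx
    exact ⟨n, fun N hN => uu_mul_gn hf hN⟩
  | zero => exact ⟨0, fun N _ => mul_zero _⟩
  | add x y hx hy ihx ihy =>
    obtain ⟨N1, h1⟩ := ihx
    obtain ⟨N2, h2⟩ := ihy
    refine ⟨max N1 N2, fun N hN => ?_⟩
    rw [mul_add, h1 N ((le_max_left _ _).trans hN), h2 N ((le_max_right _ _).trans hN)]
  | smul c x hx ih =>
    obtain ⟨N1, h1⟩ := ih
    refine ⟨N1, fun N hN => ?_⟩
    rw [mul_smul_comm, h1 N hN]

theorem uu_left (x : AT) : Tendsto (fun n => uu n * x) atTop (𝓝 x) := by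
  rw [Metric.tendsto_atTop]
  intro ε hε
  obtain ⟨y, hy, hxy⟩ := exists_approx x (half_pos hε)
  obtain ⟨N0, hN0⟩ := uu_mul_span hy
  refine ⟨N0, fun n hn => ?_⟩
  rw [dist_eq_norm]
  show ‖T (un n) * x.1 - x.1‖ < ε
  have e : T (un n) * x.1 - x.1 = T (un n) * (x.1 - y) - (x.1 - y) := by
    rw [mul_sub, hN0 n hn]
    abel
  rw [e]
  have h1 : ‖T (un n) * (x.1 - y)‖ ≤ ‖x.1 - y‖ := by
    refine (norm_mul_le _ _).trans ?_
    refine (mul_le_mul_of_nonneg_right (Q90.ZS.norm_T _) (norm_nonneg _)).trans ?_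
    rw [one_mul]
  calc _ ≤ ‖T (un n) * (x.1 - y)‖ + ‖x.1 - y‖ := norm_sub_le _ _
    _ < ε / 2 + ε / 2 := add_lt_add (h1.trans_lt hxy) hxy
    _ = ε := add_halves ε

theorem uu_right (x : AT) : Tendsto (fun n => x * uu n) atTop (𝓝 x) := by
  have h := (uu_left (star x)).star
  rw [star_star] at h
  refine h.congr fun n => ?_
  rw [star_mul, star_star, star_uu]

/-! ### multipliers are module maps -/

theorem fst_mul (x : 𝓜(ℂ, AT)) (a b : AT) : x.fst (a * b) = x.fst a * b := by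
  have h : ∀ z : AT, z * (x.fst (a * b) - x.fst a * b) = 0 := by
    intro z
    have e1 : z * x.fst (a * b) = x.snd z * (a * b) := (x.central z (a * b)).symm
    have e2 : z * (x.fst a * b) = x.snd z * (a * b) := by
      rw [← mul_assoc, ← mul_assoc]
      exact congrArg (fun w => w * b) (x.central z a).symm
    rw [mul_sub, e1, e2, sub_self]
  have h1 := h (star (x.fst (a * b) - x.fst a * b))
  have h2 : star (x.fst (a * b) - x.fst a * b).1 * (x.fst (a * b) - x.fst a * b).1 = 0 :=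
    congrArg Subtype.val h1
  have h3 := CStarRing.norm_star_mul_self (x := (x.fst (a * b) - x.fst a * b).1)
  rw [h2, norm_zero] at h3
  have h4 := mul_self_eq_zero.mp h3.symm
  exact sub_eq_zero.mp (Subtype.ext (norm_eq_zero.mp h4))

theorem norm_fst_apply_le (x : 𝓜(ℂ, AT)) (a : AT) : ‖x.fst a‖ ≤ ‖x‖ * ‖a‖ := by
  have := x.fst.le_opNorm a
  rwa [DoubleCentralizer.norm_fst] at this

theorem continuous_val_ss : Continuous fun a : AT => star a.1 * a.1 := by
  have h : Continuous fun a : AT => a.1 := continuous_subtype_val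
  exact h.star.mul h

theorem tau_fst (k : ℕ) (x : 𝓜(ℂ, AT)) (a : AT) :
    tau k (star (x.fst a).1 * (x.fst a).1) ≤ ‖x‖ ^ 2 * tau k (star a.1 * a.1) := by
  have h1 : ∀ n, tau k (star (x.fst (uu n * a)).1 * (x.fst (uu n * a)).1) ≤
      ‖x‖ ^ 2 * tau k (star a.1 * a.1) := by
    intro n
    rw [fst_mul]
    refine (tau_left k (x.fst (uu n)).1 a.1).trans ?_
    refine mul_le_mul_of_nonneg_right ?_ (tau_ss_nonneg _ _)
    refine pow_le_pow_left₀ (norm_nonneg _) ?_ 2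
    refine (norm_fst_apply_le x (uu n)).trans ?_
    calc ‖x‖ * ‖uu n‖ ≤ ‖x‖ * 1 := mul_le_mul_of_nonneg_left (norm_uu_le n) (norm_nonneg _)
      _ = ‖x‖ := mul_one _
  have h2 : Tendsto (fun n => tau k (star (x.fst (uu n * a)).1 * (x.fst (uu n * a)).1)) atTop
      (𝓝 (tau k (star (x.fst a).1 * (x.fst a).1))) := by
    have hc : Continuous fun b : AT => tau k (star (x.fst b).1 * (x.fst b).1) :=
      (tau_continuous k).comp (continuous_val_ss.comp x.fst.continuous)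
    exact (hc.tendsto a).comp (uu_left a)
  exact le_of_tendsto h2 (Eventually.of_forall h1)

/-! ### the bound -/

/-- the bound -/
def QB (k : ℕ) (x : 𝓜(ℂ, AT)) (r : ℝ) : Prop :=
  ∀ a : AT, tau k (star (x.fst a).1 * (x.fst a).1) ≤ r * ‖a‖ ^ 2

theorem tau_ss_le (k : ℕ) (x : BE) : tau k (star x * x) ≤ ‖x‖ ^ 2 := by
  refine (le_abs_self _).trans ((tau_abs k _).trans ?_)
  have h := CStarRing.norm_star_mul_self (x := x)
  rw [h, sq]

theorem QB.of_norm (k : ℕ) (x : 𝓜(ℂ, AT)) : QB k x (‖x‖ ^ 2) := by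
  intro a
  refine (tau_ss_le k _).trans ?_
  rw [← mul_pow]
  exact pow_le_pow_left₀ (norm_nonneg _) (norm_fst_apply_le x a) 2

theorem QB.mono {k : ℕ} {x : 𝓜(ℂ, AT)} {r s : ℝ} (h : QB k x r) (hrs : r ≤ s) : QB k x s :=
  fun a => (h a).trans (mul_le_mul_of_nonneg_right hrs (by positivity))

theorem QB.add {k : ℕ} {x y : 𝓜(ℂ, AT)} {r s : ℝ} (hx : QB k x r) (hy : QB k y s) :
    QB k (x + y) (2 * r + 2 * s) := by
  intro a
  have e : ((x + y).fst a).1 = (x.fst a).1 + (y.fst a).1 := rfl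
  rw [e]
  refine (tau_add_ss k _ _).trans ?_
  have h1 := hx a
  have h2 := hy a
  nlinarith

theorem QB.smul {k : ℕ} {x : 𝓜(ℂ, AT)} {r : ℝ} (c : ℂ) (hx : QB k x r) :
    QB k (c • x) (‖c‖ ^ 2 * r) := by
  intro a
  have e : ((c • x).fst a).1 = c • (x.fst a).1 := rfl
  have e2 : star (c • (x.fst a).1) * (c • (x.fst a).1) =
      (((‖c‖ ^ 2 : ℝ)) : ℂ) • (star (x.fst a).1 * (x.fst a).1) := by
    rw [star_smul, smul_mul_smul_comm]
    congr 1
    rw [RCLike.star_def, RCLike.conj_mul]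
    norm_cast
  rw [e, e2, tau_smul, mul_assoc]
  exact mul_le_mul_of_nonneg_left (hx a) (by positivity)

theorem QB.mul_left {k : ℕ} {x : 𝓜(ℂ, AT)} {r : ℝ} (y : 𝓜(ℂ, AT)) (hx : QB k x r) :
    QB k (y * x) (‖y‖ ^ 2 * r) := by
  intro a
  have e : (y * x).fst a = y.fst (x.fst a) := rfl
  rw [e, mul_assoc]
  exact (tau_fst k y (x.fst a)).trans (mul_le_mul_of_nonneg_left (hx a) (by positivity))

theorem QB.mul_right {k : ℕ} {x : 𝓜(ℂ, AT)} {r : ℝ} (y : 𝓜(ℂ, AT)) (hr : 0 ≤ r) (hx : QB k x r) :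
    QB k (x * y) (‖y‖ ^ 2 * r) := by
  intro a
  have e : (x * y).fst a = x.fst (y.fst a) := rfl
  rw [e]
  refine (hx _).trans ?_
  have h1 : ‖y.fst a‖ ^ 2 ≤ ‖y‖ ^ 2 * ‖a‖ ^ 2 := by
    rw [← mul_pow]
    exact pow_le_pow_left₀ (norm_nonneg _) (norm_fst_apply_le y a) 2
  calc r * ‖y.fst a‖ ^ 2 ≤ r * (‖y‖ ^ 2 * ‖a‖ ^ 2) := mul_le_mul_of_nonneg_left h1 hr
    _ = ‖y‖ ^ 2 * r * ‖a‖ ^ 2 := by ring

/-- elements of `A`: the trace property and the trivial bound -/
theorem tau_mul_right (k : ℕ) (b a : AT) :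
    tau k (star (b * a).1 * (b * a).1) ≤ tau k (b.1 * star b.1) * ‖a‖ ^ 2 := by
  rw [tau_trace]
  have e : (b * a).1 * star (b * a).1 = star (star a.1 * star b.1) * (star a.1 * star b.1) := by
    have : (b * a).1 = b.1 * a.1 := rfl
    rw [this]
    simp only [star_mul, star_star]
  rw [e]
  refine (tau_left k (star a.1) (star b.1)).trans ?_
  have h : ‖star a.1‖ = ‖a.1‖ := norm_star a.1
  rw [star_star, h, mul_comm]
  rfl

theorem QB.coe (k : ℕ) (b : AT) : QB k (DoubleCentralizer.coe ℂ b) (tau k (b.1 * star b.1)) :=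
  fun a => tau_mul_right k b a

/-! ### the ideal -/

/-- the ideal -/
def II : Submodule ℂ 𝓜(ℂ, AT) where
  carrier := {x | ∀ ε : ℝ, 0 < ε → ∀ᶠ k in (hyperfilter ℕ : Filter ℕ), QB k x ε}
  zero_mem' := by
    intro ε hε
    refine Eventually.of_forall fun k a => ?_
    have e : ((0 : 𝓜(ℂ, AT)).fst a).1 = 0 := rfl
    rw [e, mul_zero, tau_zero]
    positivity
  add_mem' := by
    intro x y hx hy ε hε
    filter_upwards [hx (ε / 4) (by positivity), hy (ε / 4) (by positivity)] with k h1 h2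
    exact (h1.add h2).mono (by linarith)
  smul_mem' := by
    intro c x hx ε hε
    have h0 : (0 : ℝ) < ‖c‖ ^ 2 + 1 := by positivity
    filter_upwards [hx (ε / (‖c‖ ^ 2 + 1)) (by positivity)] with k h1
    refine (h1.smul c).mono ?_
    rw [← mul_div_assoc, div_le_iff₀ h0]
    nlinarith

theorem mem_II {x : 𝓜(ℂ, AT)} :
    x ∈ II ↔ ∀ ε : ℝ, 0 < ε → ∀ᶠ k in (hyperfilter ℕ : Filter ℕ), QB k x ε := Iff.rfl

theorem II_twoSided : IsTwoSided II := by
  intro x y hy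
  have h0 : (0 : ℝ) < ‖x‖ ^ 2 + 1 := by positivity
  constructor
  · intro ε hε
    filter_upwards [hy (ε / (‖x‖ ^ 2 + 1)) (by positivity)] with k h1
    refine (h1.mul_left x).mono ?_
    rw [← mul_div_assoc, div_le_iff₀ h0]
    nlinarith
  · intro ε hε
    filter_upwards [hy (ε / (‖x‖ ^ 2 + 1)) (by positivity)] with k h1
    refine (h1.mul_right x (by positivity)).mono ?_
    rw [← mul_div_assoc, div_le_iff₀ h0]
    nlinarith

theorem II_closed : IsClosed (II : Set 𝓜(ℂ, AT)) := by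
  rw [← isSeqClosed_iff_isClosed]
  intro u x hu hx ε hε
  have h1 : ∀ᶠ n in atTop, ‖u n - x‖ < Real.sqrt (ε / 4) := by
    have := (tendsto_iff_norm_sub_tendsto_zero.mp hx)
    exact this.eventually_lt_const (Real.sqrt_pos.mpr (by positivity))
  obtain ⟨n, hn⟩ := h1.exists
  filter_upwards [hu n (ε / 4) (by positivity)] with k h2
  have h3 : QB k (x - u n) (ε / 4) := by
    refine (QB.of_norm k _).mono ?_
    rw [norm_sub_rev] at hn
    calc ‖x - u n‖ ^ 2 ≤ Real.sqrt (ε / 4) ^ 2 := pow_le_pow_left₀ (norm_nonneg _) hn.le 2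
      _ = ε / 4 := Real.sq_sqrt (by positivity)
  have h4 := (h3.add h2).mono (show 2 * (ε / 4) + 2 * (ε / 4) ≤ ε by linarith)
  rwa [sub_add_cancel] at h4

theorem coe_mem_II (b : AT) : DoubleCentralizer.coe ℂ b ∈ II := by
  intro ε hε
  have h1 : Tendsto (fun k => tau k (b * star b).1) (hyperfilter ℕ : Filter ℕ) (𝓝 0) :=
    (tau_vanish (b * star b)).mono_left Nat.hyperfilter_le_atTop
  filter_upwards [h1.eventually_lt_const hε] with k hk
  exact (QB.coe k b).mono hk.le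

theorem uu_idem (n : ℕ) : star (uu n).1 * (uu n).1 = (uu n).1 := by
  show star (T (un n) : BE) * T (un n) = T (un n)
  rw [Q90.ZS.T_star, un_symm, uu_mul_gn (lv_un n) le_rfl]

theorem not_QB_one (k : ℕ) : ¬ QB k (1 : 𝓜(ℂ, AT)) (1 / 2) := by
  intro h
  have h1 : ∀ᶠ n in atTop, gt n < 1 / 2 := tendsto_gt.eventually_lt_const (by norm_num)
  obtain ⟨n, hn, hkn⟩ := (h1.and (eventually_ge_atTop k)).exists
  have h2 := h (uu n)
  have e : (1 : 𝓜(ℂ, AT)).fst (uu n) = uu n := rfl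
  rw [e, uu_idem] at h2
  have h3 := tau_un hkn
  have h4 : ‖uu n‖ ^ 2 ≤ 1 := pow_le_one₀ (norm_nonneg _) (norm_uu_le n)
  have h5 : tau k (uu n).1 ≤ 1 / 2 := h2.trans (by linarith)
  have h6 : (uu n).1 = T (un n) := rfl
  rw [h6] at h5
  linarith

theorem II_ne_top : II ≠ ⊤ := by
  intro h
  have h1 : (1 : 𝓜(ℂ, AT)) ∈ II := by rw [h]; exact Submodule.mem_top
  obtain ⟨k, hk⟩ := (h1 (1 / 2) (by norm_num)).exists
  exact not_QB_one k hk

theorem nonunital_AT : IsNonunital AT := by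
  rintro ⟨e, he⟩
  have h1 := (tau_vanish (star e * e)).eventually_lt_const (show (0 : ℝ) < 1 / 2 by norm_num)
  obtain ⟨k, hk⟩ := h1.exists
  have h2 : ∀ᶠ n in atTop, gt n < 1 / 2 := tendsto_gt.eventually_lt_const (by norm_num)
  obtain ⟨n, hn, hkn⟩ := (h2.and (eventually_ge_atTop k)).exists
  have h3 := tau_left k (uu n).1 e.1
  have e1 : (uu n).1 * e.1 = (uu n).1 := congrArg Subtype.val (he (uu n)).2
  rw [e1, uu_idem] at h3
  have h4 := tau_un hkn
  have h5 : ‖(uu n).1‖ ^ 2 ≤ 1 := pow_le_one₀ (norm_nonneg _) (norm_uu_le n)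
  have h6 : tau k (star e.1 * e.1) < 1 / 2 := hk
  have h7 := tau_ss_nonneg k e.1
  have h8 : (uu n).1 = T (un n) := rfl
  rw [h8] at h3 h5
  nlinarith

end Q90.NM
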