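import Mathlib

/-!
# Simple C*-algebras, zero divisors and injective operators: definitions
-/

set_option autoImplicit false

namespace Q90.ZS

universe u

variable (A : Type) [NonUnitalCStarAlgebra A]

/-- The C*-algebra `A` (not necessarily unital) is simple: it is nonzero and its only closed
two-sided ideals are `0` and `A`. -/
def IsSimple : Prop :=
  (∃ a : A, a ≠ 0) ∧ ∀ I : Submodule ℂ A, IsClosed (I : Set A) →
    (∀ a x : A, x ∈ I → a * x ∈ I ∧ x * a ∈ I) → I = ⊥ ∨ I = ⊤

variable {A} in
/-- `x` is a zero divisor: `x y = 0` or `y x = 0` for some nonzero `y`. -/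
def IsZeroDivisor (x : A) : Prop := ∃ y : A, y ≠ 0 ∧ (x * y = 0 ∨ y * x = 0)

/-- `A` is a `Z*`-algebra: every positive element, that is, every element of the form `b* b`, is a
zero divisor. -/
def IsZStarAlgebra : Prop := ∀ b : A, IsZeroDivisor (star b * b)

/-- For every representation `π` of `A` (a *-homomorphism, possibly degenerate, to the bounded
operators on a nonzero complex Hilbert space), no operator in the image of `π` is injective. -/
def NoInjectiveOperators : Prop :=
  ∀ (H : Type u) [NormedAddCommGroup H] [InnerProductSpace ℂ H] [CompleteSpace H] [Nontrivial H]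
    (π : A →⋆ₙₐ[ℂ] (H →L[ℂ] H)) (a : A), ¬ Function.Injective (π a)

end Q90.ZS
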