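import Pool.Agent.Q90.NmAlg
import Pool.Agent.Q90.ZsDefs

set_option autoImplicit false

/-!
Simplicity of the algebra.
-/

open scoped ENNReal InnerProductSpace
open Filter Topology

noncomputable section

namespace Q90.NM

open Q90.ZS (T mc dl E)

theorem good_un (n : ℕ) : Good (un n) := ⟨n, lv_un n⟩

theorem good_ec {n : ℕ} {w : Pt} (h : w.1 ≤ n) : Good (ec n w) := ⟨n, lv_br h h rfl⟩

theorem pequiv_ext {f g : Pt ≃. Pt} (h : ∀ a b, b ∈ f a ↔ b ∈ g a) : f = g := by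
  apply PEquiv.ext
  intro a
  apply Option.ext
  intro b
  exact h a b

theorem un_trans {n : ℕ} {f : Pt ≃. Pt} (hf : Lv n f) : (un n).trans f = f := by
  refine pequiv_ext fun a b => ?_
  rw [PEquiv.mem_trans]
  constructor
  · rintro ⟨d, h1, h2⟩
    obtain ⟨rfl, _⟩ := mem_un.mp h1
    exact h2
  · intro h
    exact ⟨a, mem_un.mpr ⟨rfl, hf.dom h⟩, h⟩

theorem ec_trans_ec {n m : ℕ} {w w' : Pt} (hnm : n ≤ m) (h : Ag n w' w) :
    (ec m w').trans (ec n w) = ec m w' := by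
  refine pequiv_ext fun a b => ?_
  rw [PEquiv.mem_trans]
  constructor
  · rintro ⟨d, h1, h2⟩
    obtain ⟨rfl, _⟩ := mem_ec.mp h2
    exact h1
  · intro h1
    obtain ⟨rfl, h2⟩ := mem_ec.mp h1
    exact ⟨a, h1, mem_ec.mpr ⟨rfl, (h2.mono hnm).trans h⟩⟩

theorem br_conj {n : ℕ} {p w : Pt} :
    ((br n p w).trans (ec n w)).trans (br n w p) = ec n p := by
  refine pequiv_ext fun a b => ?_
  rw [PEquiv.mem_trans]
  constructor
  · rintro ⟨d, h1, h2⟩
    obtain ⟨e, h3, h4⟩ := (PEquiv.mem_trans _ _ _ _).mp h1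
    obtain ⟨rfl, _⟩ := mem_ec.mp h4
    obtain ⟨g1, g2, g3⟩ := mem_br.mp h3
    obtain ⟨g4, g5, g6⟩ := mem_br.mp h2
    refine mem_ec.mpr ⟨eq_of_ag (g1.trans g5.symm) fun j hj => (g3 j hj).trans (g6 j hj), g1⟩
  · intro h
    obtain ⟨rfl, h1⟩ := mem_ec.mp h
    have g1 : Ag n (w.1, spl n w.2 a.2) w := ⟨rfl, fun j hj => spl_lt hj⟩
    refine ⟨(w.1, spl n w.2 a.2), (PEquiv.mem_trans _ _ _ _).mpr ⟨(w.1, spl n w.2 a.2), ?_, ?_⟩, ?_⟩
    · exact mem_br.mpr ⟨h1, g1, fun j hj => (spl_ge hj).symm⟩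
    · exact mem_ec.mpr ⟨rfl, g1⟩
    · exact mem_br.mpr ⟨g1, h1, fun j hj => spl_ge hj⟩

theorem ec_congr {n : ℕ} {w w' : Pt} (h : Ag n w w') : ec n w = ec n w' := by
  refine pequiv_ext fun a b => ?_
  rw [mem_ec, mem_ec]
  exact and_congr_right fun _ => ⟨fun h1 => h1.trans h, fun h1 => h1.trans h.symm⟩

/-- the unit of level `n` is a finite sum of cylinder projections -/
theorem un_eq_sum (n : ℕ) : (T (un n) : BE) = ∑ p ∈ (pf_finite n).toFinset, T (ec n p) := by
  classical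
  refine Q90.ZS.ext_mc fun b a => ?_
  have hsum : mc (∑ p ∈ (pf_finite n).toFinset, T (ec n p) : BE) b a =
      ∑ p ∈ (pf_finite n).toFinset, mc (T (ec n p)) b a := by
    generalize (pf_finite n).toFinset = s
    induction s using Finset.induction_on with
    | empty => rfl
    | insert x s hx ih => rw [Finset.sum_insert hx, Finset.sum_insert hx, Q90.ZS.mc_add, ih]
  rw [hsum, Q90.ZS.mc_T]
  by_cases h : b ∈ un n a
  · rw [if_pos h]
    obtain ⟨rfl, h1⟩ := mem_un.mp h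
    have hmem : tr n a ∈ (pf_finite n).toFinset := (Set.Finite.mem_toFinset _).mpr (tr_mem h1)
    rw [Finset.sum_eq_single_of_mem _ hmem]
    · rw [Q90.ZS.mc_T, if_pos]
      exact mem_ec.mpr ⟨rfl, (tr_ag n a).symm⟩
    · intro p hp hne
      rw [Q90.ZS.mc_T, if_neg]
      intro h2
      obtain ⟨_, h3⟩ := mem_ec.mp h2
      apply hne
      have hp' := (Set.Finite.mem_toFinset _).mp hp
      refine eq_of_ag (h3.symm.trans (tr_ag n a).symm) fun j hj => ?_
      rw [hp'.2 j hj]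
      show 0 = spl n a.2 0 j
      rw [spl_ge hj]
      rfl
  · rw [if_neg h]
    refine (Finset.sum_eq_zero fun p hp => ?_).symm
    rw [Q90.ZS.mc_T, if_neg]
    intro h2
    obtain ⟨rfl, h3⟩ := mem_ec.mp h2
    have hp' := (Set.Finite.mem_toFinset _).mp hp
    exact h (mem_un.mpr ⟨rfl, by rw [h3.1]; exact hp'.1⟩)

theorem mc_star_mul_self (z : BE) (p : Pt) : mc (star z * z) p p = ((‖z (dl p)‖ ^ 2 : ℝ) : ℂ) := by
  have h : mc (star z * z) p p = ⟪dl p, star z (z (dl p))⟫_ℂ := (Q90.ZS.inner_dl _ _).symm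
  rw [h, ContinuousLinearMap.star_eq_adjoint, ContinuousLinearMap.adjoint_inner_right,
    inner_self_eq_norm_sq_to_K]
  norm_cast

theorem norm_mul_T_le (x : BE) (f g : Pt ≃. Pt) : ‖T f * x * T g‖ ≤ ‖x‖ := by
  refine (norm_mul_le _ _).trans ?_
  refine (mul_le_mul_of_nonneg_left (Q90.ZS.norm_T g) (norm_nonneg _)).trans ?_
  rw [mul_one]
  refine (norm_mul_le _ _).trans ?_
  refine (mul_le_mul_of_nonneg_right (Q90.ZS.norm_T f) (norm_nonneg _)).trans ?_
  rw [one_mul]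

/-- an idempotent at distance less than one of its compression to a closed ideal is in it -/
theorem mem_of_close {I : Submodule ℂ AT} (hI : IsClosed (I : Set AT))
    (hid : ∀ a x : AT, x ∈ I → a * x ∈ I ∧ x * a ∈ I) {q i : AT} (hq : q * q = q) (hi : i ∈ I)
    (hd : ‖q - i‖ < 1) : q ∈ I := by
  set j := q - i with hj
  have key : ∀ n : ℕ, ∃ k ∈ I, ‖q - k‖ ≤ ‖j‖ ^ (n + 1) := by
    intro n
    induction n with
    | zero => exact ⟨i, hi, by rw [zero_add, pow_one]⟩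
    | succ n ih =>
      obtain ⟨k, hk, hk'⟩ := ih
      refine ⟨q * i + k * q - k * i, ?_, ?_⟩
      · exact I.sub_mem (I.add_mem (hid _ _ hi).1 (hid _ _ hk).2) (hid _ _ hi).1
      · have e : q - (q * i + k * q - k * i) = (q - k) * j := by
          rw [hj, sub_mul, mul_sub, mul_sub, hq]
          abel
        rw [e, pow_succ]
        exact (norm_mul_le _ _).trans (mul_le_mul_of_nonneg_right hk' (norm_nonneg _))
  have h1 : q ∈ closure (I : Set AT) := by
    rw [Metric.mem_closure_iff]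
    intro ε hε
    obtain ⟨n, hn⟩ := exists_pow_lt_of_lt_one hε hd
    obtain ⟨k, hk, hk'⟩ := key n
    refine ⟨k, hk, ?_⟩
    rw [dist_eq_norm]
    refine (hk'.trans ?_).trans_lt hn
    rw [pow_succ]
    calc ‖j‖ ^ n * ‖j‖ ≤ ‖j‖ ^ n * 1 :=
          mul_le_mul_of_nonneg_left hd.le (pow_nonneg (norm_nonneg _) _)
      _ = ‖j‖ ^ n := mul_one _
  rwa [hI.closure_eq] at h1

/-- the algebra is simple -/
theorem simple_AT : Q90.ZS.IsSimple AT := by
  classical
  refine ⟨⟨gn (un 0) (good_un 0), ?_⟩, ?_⟩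
  · intro h
    have h1 : (T (un 0) : BE) = 0 := congrArg Subtype.val h
    have h2 := Q90.ZS.mc_T (un 0) ((0, 0) : Pt) (0, 0)
    have h3 : ((0, 0) : Pt) ∈ un 0 ((0, 0) : Pt) := mem_un.mpr ⟨rfl, le_rfl⟩
    rw [h1, Q90.ZS.mc_zero, if_pos h3] at h2
    exact zero_ne_one h2
  intro I hI hideal
  by_cases hbot : I = ⊥
  · exact Or.inl hbot
  right
  obtain ⟨z, hz, hz0⟩ := Submodule.exists_mem_ne_zero_of_ne_bot hbot
  have hy : star z * z ∈ I := (hideal (star z) z hz).1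
  obtain ⟨p, hp⟩ : ∃ p, z.1 (dl p) ≠ 0 := by
    by_contra hcon
    push Not at hcon
    apply hz0
    apply Subtype.ext
    exact Q90.ZS.ext_dl fun x => by rw [hcon x]; rfl
  set y : AT := star z * z with hyd
  set l : ℝ := ‖z.1 (dl p)‖ ^ 2 with hl
  have hl0 : 0 < l := by
    have := norm_pos_iff.mpr hp
    positivity
  have hlc : (l : ℂ) ≠ 0 := by exact_mod_cast hl0.ne'
  have hmc : mc y.1 p p = (l : ℂ) := mc_star_mul_self z.1 p
  -- a cylinder projection in the ideal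
  obtain ⟨N, hpN, hN⟩ : ∃ N, ∃ h : p.1 ≤ N, gn (ec N p) (good_ec h) ∈ I := by
    obtain ⟨x0, hx0, hx0'⟩ := exists_approx y (show (0 : ℝ) < l / 4 by positivity)
    obtain ⟨N1, hN1⟩ := compress_span p hx0
    refine ⟨max N1 p.1, le_max_right _ _, ?_⟩
    set N := max N1 p.1 with hNd
    have hc := hN1 N (le_max_left _ _)
    set q := gn (ec N p) (good_ec (le_max_right _ _)) with hqd
    have hqq : q * q = q := by
      rw [hqd, gn_mul]
      apply Subtype.ext
      rw [gn_val, gn_val, ec_trans_ec le_rfl (Ag.refl _ _)]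
    refine mem_of_close hI hideal hqq (i := (l : ℂ)⁻¹ • (q * y * q))
      (I.smul_mem _ (hideal _ _ (hideal _ _ hy).1).2) ?_
    have e1 : (q - (l : ℂ)⁻¹ • (q * y * q)).1 =
        (l : ℂ)⁻¹ • (mc (y.1 - x0) p p • (T (ec N p) : BE) -
          T (ec N p) * (y.1 - x0) * T (ec N p)) := by
      show (T (ec N p) : BE) - (l : ℂ)⁻¹ • (T (ec N p) * y.1 * T (ec N p)) = _
      rw [mul_sub, sub_mul, hc, Q90.ZS.mc_sub, hmc, sub_smul, smul_sub, smul_sub, smul_smul,
        inv_mul_cancel₀ hlc, one_smul, smul_sub]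
      abel
    show ‖(q - (l : ℂ)⁻¹ • (q * y * q)).1‖ < 1
    rw [e1, norm_smul]
    have h3 : ‖mc (y.1 - x0) p p • (T (ec N p) : BE)‖ ≤ ‖y.1 - x0‖ := by
      rw [norm_smul]
      calc ‖mc (y.1 - x0) p p‖ * ‖(T (ec N p) : BE)‖ ≤ ‖mc (y.1 - x0) p p‖ * 1 :=
            mul_le_mul_of_nonneg_left (Q90.ZS.norm_T _) (norm_nonneg _)
        _ ≤ ‖y.1 - x0‖ := by rw [mul_one]; exact Q90.ZS.mc_le _ _ _
    have h5 := norm_mul_T_le (y.1 - x0) (ec N p) (ec N p)
    have h6 : ‖mc (y.1 - x0) p p • (T (ec N p) : BE) -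
        T (ec N p) * (y.1 - x0) * T (ec N p)‖ ≤ l / 2 := by
      refine (norm_sub_le _ _).trans ?_
      linarith
    have h7 : ‖(l : ℂ)⁻¹‖ = l⁻¹ := by
      rw [norm_inv, Complex.norm_real, Real.norm_eq_abs, abs_of_pos hl0]
    rw [h7]
    calc l⁻¹ * _ ≤ l⁻¹ * (l / 2) := mul_le_mul_of_nonneg_left h6 (inv_nonneg.mpr hl0.le)
      _ = 1 / 2 := by field_simp
      _ < 1 := by norm_num
  -- all cylinder projections of high level
  have step2 : ∀ M, N + 1 ≤ M → ∀ (p' : Pt) (h : p'.1 ≤ M), gn (ec M p') (good_ec h) ∈ I := by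
    intro M hM p' hp'
    obtain ⟨M', rfl⟩ : ∃ M', M = M' + 1 := ⟨M - 1, by omega⟩
    have hv : lab p'.1 p'.2 (M' + 1) ≤ M' + 1 := lab_le hp'
    set v := lab p'.1 p'.2 (M' + 1) with hvd
    have hvc : v < c M' := lt_of_le_of_lt hv (lt_c M')
    set w : Pt := (p.1, Function.update p.2 M' ⟨v, hvc⟩) with hw
    have hw1 : w.1 ≤ M' + 1 := by show p.1 ≤ M' + 1; omega
    have hlab : lab w.1 w.2 (M' + 1) = v := by
      show lab p.1 (Function.update p.2 M' ⟨v, hvc⟩) (M' + 1) = v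
      rw [lab_succ (by omega), Function.update_self, if_pos hv]
    have hag : Ag N w p := ⟨rfl, fun j hj => Function.update_of_ne (by omega) _ _⟩
    have h1 : gn (ec (M' + 1) w) (good_ec hw1) ∈ I := by
      have e : gn (ec (M' + 1) w) (good_ec hw1) =
          gn (ec N p) (good_ec hpN) * gn (ec (M' + 1) w) (good_ec hw1) := by
        rw [gn_mul]
        apply Subtype.ext
        rw [gn_val, gn_val, ec_trans_ec (by omega) hag]
      rw [e]
      exact (hideal _ _ hN).2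
    have g1 : Good (br (M' + 1) p' w) := ⟨M' + 1, lv_br hp' hw1 (by rw [hlab])⟩
    have g2 : Good (br (M' + 1) w p') := ⟨M' + 1, lv_br hw1 hp' (by rw [hlab])⟩
    have e : gn (ec (M' + 1) p') (good_ec hp') =
        gn (br (M' + 1) w p') g2 * (gn (ec (M' + 1) w) (good_ec hw1) *
          gn (br (M' + 1) p' w) g1) := by
      rw [gn_mul, gn_mul]
      apply Subtype.ext
      rw [gn_val, gn_val, br_conj]
    rw [e]
    exact (hideal _ _ (hideal _ _ h1).2).1
  have step3 : ∀ M, N + 1 ≤ M → gn (un M) (good_un M) ∈ I := by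
    intro M hM
    have e : gn (un M) (good_un M) = ∑ p' ∈ (pf_finite M).toFinset.attach,
        gn (ec M p'.1) (good_ec ((Set.Finite.mem_toFinset _).mp p'.2).1) := by
      apply Subtype.ext
      rw [gn_val, un_eq_sum, ← Finset.sum_attach]
      rw [AddSubmonoidClass.coe_finsetSum]
      rfl
    rw [e]
    exact I.sum_mem fun p' _ => step2 M hM p'.1 ((Set.Finite.mem_toFinset _).mp p'.2).1
  refine eq_top_of_gen hI fun f hf => ?_
  have hf' := hf
  obtain ⟨n, hn⟩ := hf'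
  have h1 := step3 (max n (N + 1)) (le_max_right _ _)
  have e : gn f hf = gn f hf * gn (un (max n (N + 1))) (good_un _) := by
    rw [gn_mul]
    apply Subtype.ext
    rw [gn_val, gn_val, un_trans (hn.mono (le_max_left _ _))]
  rw [e]
  exact (hideal _ _ h1).1

end Q90.NM
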