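import Pool.Agent.Q90.NmMult
import Pool.Agent.Q90.NmComb

set_option autoImplicit false

/-!
The ideal is nonmeagre.
-/

open scoped ENNReal InnerProductSpace MultiplierAlgebra
open Filter Topology

noncomputable section

namespace Q90.NM

open Q90.ZS (T mc dl E)

/-! ### order -/

theorem conj_nonneg {x y : BE} (hx : 0 ≤ x) (hy : IsSelfAdjoint y) : 0 ≤ y * x * y := by
  have h := star_left_conjugate_nonneg hx y
  rwa [hy.star_eq] at h

theorem le_of_absorb {x y : BE} (hx : 0 ≤ x) (hx1 : x ≤ 1) (hy : 0 ≤ y) (h1 : y * x = x)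
    (h2 : x * y = x) : x ≤ y := by
  have sx : IsSelfAdjoint x := IsSelfAdjoint.of_nonneg hx
  have sx1 : IsSelfAdjoint (1 - x) := (IsSelfAdjoint.one _).sub sx
  have e : y - x = (1 - x) * y * (1 - x) + x * (1 - x) * x + (1 - x) * x * (1 - x) := by
    have e1 : (1 - x) * y * (1 - x) = y - x - x + x * x := by
      have : (1 - x) * y * (1 - x) = y - x * y - y * x + x * y * x := by noncomm_ring
      rw [this, h1, h2]
    rw [e1]
    noncomm_ring
  rw [← sub_nonneg, e]
  exact add_nonneg (add_nonneg (conj_nonneg hy sx1) (conj_nonneg (sub_nonneg.mpr hx1) sx))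
    (conj_nonneg hx sx1)

theorem sq_le_self {x : BE} (hx : 0 ≤ x) (hx1 : x ≤ 1) : x * x ≤ x := by
  have sx : IsSelfAdjoint x := IsSelfAdjoint.of_nonneg hx
  have sx1 : IsSelfAdjoint (1 - x) := (IsSelfAdjoint.one _).sub sx
  have e : x - x * x = x * (1 - x) * x + (1 - x) * x * (1 - x) := by noncomm_ring
  rw [← sub_nonneg, e]
  exact add_nonneg (conj_nonneg (sub_nonneg.mpr hx1) sx) (conj_nonneg hx sx1)

theorem mc_nonneg {x : BE} (hx : 0 ≤ x) (w : Pt) : 0 ≤ (mc x w w).re := by
  have h := ((ContinuousLinearMap.nonneg_iff_isPositive x).mp hx).inner_nonneg_right (dl w)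
  have e : ⟪dl w, x (dl w)⟫_ℂ = mc x w w := Q90.ZS.inner_dl _ _
  rw [e] at h
  exact (Complex.le_def.mp h).1

theorem tau_le {k : ℕ} {x y : BE} (h : x ≤ y) : tau k x ≤ tau k y := by
  have h1 : 0 ≤ tau k (y - x) := tau_nonneg fun w => mc_nonneg (sub_nonneg.mpr h) w
  rw [tau_sub] at h1
  linarith

/-! ### good approximate identities -/

section

variable {e : ℕ → AT} (he : GoodApproxIdentity e)

include he

theorem gai_nonneg (n : ℕ) : 0 ≤ (e n).1 := by
  obtain ⟨b, hb⟩ := he.pos n
  have h : (e n).1 = star b.1 * b.1 := congrArg Subtype.val hb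
  rw [h]
  exact star_mul_self_nonneg b.1

theorem gai_le_one (n : ℕ) : (e n).1 ≤ 1 :=
  (CStarAlgebra.norm_le_one_iff_of_nonneg (e n).1 (gai_nonneg he n)).mp (he.norm_le n)

theorem gai_star (n : ℕ) : star (e n) = e n := by
  obtain ⟨b, hb⟩ := he.pos n
  rw [hb, star_mul, star_star]

theorem gai_mul {i j : ℕ} (h : i < j) : e j * e i = e i := by
  induction j, h using Nat.le_induction with
  | base => exact he.mul i
  | succ j hj ih => rw [← ih, ← mul_assoc, he.mul j]

theorem gai_mul' {i j : ℕ} (h : i < j) : e i * e j = e i := by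
  have h1 := congrArg star (gai_mul he h)
  rwa [star_mul, gai_star he, gai_star he] at h1

theorem gai_mono {i j : ℕ} (h : i < j) : (e i).1 ≤ (e j).1 :=
  le_of_absorb (gai_nonneg he i) (gai_le_one he i) (gai_nonneg he j)
    (congrArg Subtype.val (gai_mul he h)) (congrArg Subtype.val (gai_mul' he h))

variable {m : ℕ → ℕ} (hm : StrictMono m)

include hm

theorem gI_nonneg (n : ℕ) : 0 ≤ (gI e m n).1 := by
  have h1 : m n < m (n + 1) := hm (Nat.lt_succ_self n)
  by_cases h : 1 ≤ m n
  · have e1 : (gI e m n).1 = (e (m (n + 1) - 1)).1 - (e (m n - 1)).1 := by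
      unfold gI sh
      rw [if_pos h]
      rfl
    rw [e1, sub_nonneg]
    exact gai_mono he (by omega)
  · have e1 : (gI e m n).1 = (e (m (n + 1) - 1)).1 := by
      unfold gI sh
      rw [if_neg h, sub_zero]
    rw [e1]
    exact gai_nonneg he _

omit he in
theorem sum_gI (hm0 : m 0 = 0) (N : ℕ) : ∑ n ∈ Finset.range N, gI e m n = sh e (m N) 1 := by
  induction N with
  | zero => rw [Finset.sum_range_zero, hm0]; rfl
  | succ N ih =>
    have h1 : m N < m (N + 1) := hm (Nat.lt_succ_self N)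
    rw [Finset.sum_range_succ, ih]
    unfold gI
    rw [add_sub_cancel]
    unfold sh
    rw [if_pos (by omega)]

theorem sum_gI_le (hm0 : m 0 = 0) (N : ℕ) : (∑ n ∈ Finset.range N, gI e m n).1 ≤ 1 := by
  rw [sum_gI hm hm0]
  unfold sh
  split_ifs
  · exact gai_le_one he _
  · exact zero_le_one

theorem gI_mul_eq_zero {p n : ℕ} (h : p + 2 ≤ n) : gI e m n * e p = 0 := by
  have h1 : m n < m (n + 1) := hm (Nat.lt_succ_self n)
  have h2 : n ≤ m n := hm.le_apply
  unfold gI sh
  rw [if_pos (by omega), sub_mul, gai_mul he (by omega), gai_mul he (by omega), sub_self]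

/-- partial sums -/
def ps (e : ℕ → AT) (m : ℕ → ℕ) (L : Set ℕ) (N : ℕ) : AT :=
  ∑ n ∈ Finset.range N, L.indicator (gI e m) n

theorem ind_nonneg (L : Set ℕ) (n : ℕ) : 0 ≤ (L.indicator (gI e m) n).1 := by
  classical
  rw [Set.indicator_apply]
  split_ifs
  · exact gI_nonneg he hm n
  · exact le_rfl

omit he hm in
theorem val_sum (s : Finset ℕ) (f : ℕ → AT) : (∑ n ∈ s, f n).1 = ∑ n ∈ s, (f n).1 :=
  AddSubmonoidClass.coe_finsetSum f s

theorem ps_nonneg (L : Set ℕ) (N : ℕ) : 0 ≤ (ps e m L N).1 := by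
  unfold ps
  rw [val_sum]
  exact Finset.sum_nonneg fun n _ => ind_nonneg he hm L n

theorem ps_le_one (hm0 : m 0 = 0) (L : Set ℕ) (N : ℕ) : (ps e m L N).1 ≤ 1 := by
  refine le_trans ?_ (sum_gI_le he hm hm0 N)
  unfold ps
  rw [val_sum, val_sum]
  refine Finset.sum_le_sum fun n _ => ?_
  classical
  rw [Set.indicator_apply]
  split_ifs
  · exact le_rfl
  · exact gI_nonneg he hm n

theorem norm_ps_le (hm0 : m 0 = 0) (L : Set ℕ) (N : ℕ) : ‖ps e m L N‖ ≤ 1 :=
  (CStarAlgebra.norm_le_one_iff_of_nonneg (ps e m L N).1 (ps_nonneg he hm L N)).mpr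
    (ps_le_one he hm hm0 L N)

theorem ps_star (L : Set ℕ) (N : ℕ) : star (ps e m L N) = ps e m L N := by
  apply Subtype.ext
  exact (IsSelfAdjoint.of_nonneg (ps_nonneg he hm L N)).star_eq

theorem ps_stable (L : Set ℕ) {p N : ℕ} (h : p + 2 ≤ N) :
    ps e m L N * e p = ps e m L (p + 2) * e p := by
  induction N, h using Nat.le_induction with
  | base => rfl
  | succ N hN ih =>
    have h1 : ps e m L (N + 1) = ps e m L N + L.indicator (gI e m) N := Finset.sum_range_succ _ _
    rw [h1, add_mul, ih]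
    classical
    rw [Set.indicator_apply]
    split_ifs
    · rw [gI_mul_eq_zero he hm hN, add_zero]
    · rw [zero_mul, add_zero]

theorem ps_cauchy (hm0 : m 0 = 0) (L : Set ℕ) (a : AT) : CauchySeq fun N => ps e m L N * a := by
  rw [Metric.cauchySeq_iff]
  intro ε hε
  have h1 := (Metric.tendsto_atTop.mp (he.left a)) (ε / 2) (half_pos hε)
  obtain ⟨p, hp⟩ := h1
  have hp' := hp p le_rfl
  rw [dist_comm, dist_eq_norm] at hp'
  refine ⟨p + 2, fun M hM N hN => ?_⟩
  rw [dist_eq_norm]
  have e1 : ps e m L M * a - ps e m L N * a =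
      ps e m L M * (a - e p * a) - ps e m L N * (a - e p * a) := by
    have h3 : ps e m L M * (e p * a) = ps e m L N * (e p * a) := by
      rw [← mul_assoc, ← mul_assoc, ps_stable he hm L hM, ps_stable he hm L hN]
    rw [mul_sub, mul_sub, h3]
    abel
  rw [e1]
  have h4 : ∀ K, ‖ps e m L K * (a - e p * a)‖ ≤ ‖a - e p * a‖ := by
    intro K
    refine (norm_mul_le _ _).trans ?_
    calc ‖ps e m L K‖ * ‖a - e p * a‖ ≤ 1 * ‖a - e p * a‖ :=
          mul_le_mul_of_nonneg_right (norm_ps_le he hm hm0 L K) (norm_nonneg _)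
      _ = _ := one_mul _
  calc _ ≤ ‖ps e m L M * (a - e p * a)‖ + ‖ps e m L N * (a - e p * a)‖ := norm_sub_le _ _
    _ ≤ ‖a - e p * a‖ + ‖a - e p * a‖ := add_le_add (h4 M) (h4 N)
    _ < ε / 2 + ε / 2 := add_lt_add hp' hp'
    _ = ε := add_halves ε

theorem exists_strictSum (hm0 : m 0 = 0) (L : Set ℕ) :
    ∃ x : 𝓜(ℂ, AT), HasStrictSum L (gI e m) x := by
  have h1 : ∀ a : AT, ∃ b, Tendsto (fun N => ps e m L N * a) atTop (𝓝 b) :=
    fun a => cauchySeq_tendsto_of_complete (ps_cauchy he hm hm0 L a)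
  choose f hf using h1
  have h2 : ∀ a : AT, Tendsto (fun N => a * ps e m L N) atTop (𝓝 (star (f (star a)))) := by
    intro a
    have := (hf (star a)).star
    refine this.congr fun N => ?_
    rw [star_mul, star_star, ps_star he hm]
  let F : AT →L[ℂ] AT := continuousLinearMapOfTendsto
    (fun N => ContinuousLinearMap.mul ℂ AT (ps e m L N)) (f := f) (tendsto_pi_nhds.mpr hf)
  let G : AT →L[ℂ] AT := continuousLinearMapOfTendsto
    (fun N => (ContinuousLinearMap.mul ℂ AT).flip (ps e m L N)) (f := fun a => star (f (star a)))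
    (tendsto_pi_nhds.mpr h2)
  have hF : ∀ a, F a = f a := fun _ => rfl
  have hG : ∀ a, G a = star (f (star a)) := fun _ => rfl
  refine ⟨{ fst := F, snd := G, central := ?_ }, fun a => ⟨hf a, h2 a⟩⟩
  intro a b
  rw [hF, hG]
  have h3 : Tendsto (fun N => a * ps e m L N * b) atTop (𝓝 (star (f (star a)) * b)) :=
    (h2 a).mul_const b
  have h4 : Tendsto (fun N => a * ps e m L N * b) atTop (𝓝 (a * f b)) := by
    have := (hf b).const_mul a
    exact this.congr fun N => (mul_assoc _ _ _).symm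
  exact tendsto_nhds_unique h3 h4

omit he hm in
theorem tau_ps (k : ℕ) (L : Set ℕ) (N : ℕ) :
    tau k (ps e m L N).1 =
      ∑ n ∈ Finset.range N, L.indicator (fun n => tau k (gI e m n).1) n := by
  classical
  induction N with
  | zero => rw [Finset.sum_range_zero]; exact tau_zero k
  | succ N ih =>
    have h1 : (ps e m L (N + 1)).1 = (ps e m L N).1 + (L.indicator (gI e m) N).1 :=
      congrArg Subtype.val (Finset.sum_range_succ _ _)
    rw [h1, tau_add, ih, Finset.sum_range_succ]
    congr 1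
    rw [Set.indicator_apply, Set.indicator_apply]
    split_ifs
    · rfl
    · exact tau_zero k

theorem QB_of_bound (hm0 : m 0 = 0) {L : Set ℕ} {x : 𝓜(ℂ, AT)}
    (hx : HasStrictSum L (gI e m) x) {k : ℕ} {r : ℝ}
    (hr : ∀ N, tau k (ps e m L N).1 ≤ r) : QB k x r := by
  intro a
  have hc : Continuous fun b : AT => tau k (star b.1 * b.1) :=
    (tau_continuous k).comp continuous_val_ss
  have h1 : Tendsto (fun N => tau k (star (ps e m L N * a).1 * (ps e m L N * a).1)) atTop
      (𝓝 (tau k (star (x.fst a).1 * (x.fst a).1))) :=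
    (hc.tendsto (x.fst a)).comp (hx a).1
  refine le_of_tendsto h1 (Eventually.of_forall fun N => ?_)
  refine (tau_mul_right k (ps e m L N) a).trans ?_
  refine mul_le_mul_of_nonneg_right ?_ (by positivity)
  have e1 : star (ps e m L N).1 = (ps e m L N).1 := congrArg Subtype.val (ps_star he hm L N)
  rw [e1]
  exact (tau_le (sq_le_self (ps_nonneg he hm L N) (ps_le_one he hm hm0 L N))).trans (hr N)

theorem gI_rows (hm0 : m 0 = 0) (k : ℕ) : Tendsto (fun n => tau k (gI e m n).1) atTop (𝓝 0) := by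
  refine Summable.tendsto_atTop_zero
    (summable_of_sum_range_le (c := 1) (fun n => ?_) fun N => ?_)
  · have := tau_le (k := k) (gI_nonneg he hm n)
    rwa [tau_zero] at this
  · have h1 := tau_ps (e := e) (m := m) k Set.univ N
    simp only [Set.indicator_univ] at h1
    rw [← h1]
    refine (le_abs_self _).trans ((tau_abs k _).trans ?_)
    exact norm_ps_le he hm hm0 _ N

end

/-- the ideal is nonmeagre -/
theorem nonmeagre_II : Nonmeagre II := by
  intro e he m hm hm0
  obtain ⟨L, hL, hL2⟩ := comb (t := fun k n => tau k (gI e m n).1)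
    (fun k n => by
      have := tau_le (k := k) (gI_nonneg he hm n)
      rwa [tau_zero] at this)
    (fun n => tau_vanish (gI e m n)) (fun k => gI_rows he hm hm0 k)
  obtain ⟨x, hx⟩ := exists_strictSum he hm hm0 L
  refine ⟨L, hL, x, ?_, hx⟩
  intro ε hε
  filter_upwards [hL2 ε hε] with k hk
  refine QB_of_bound he hm hm0 hx fun N => ?_
  rw [tau_ps]
  exact hk N

end Q90.NM
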