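import Pool.Agent.Q90.NmCount
import Pool.Agent.Q90.NmSimple

set_option autoImplicit false

/-!
Traces on the algebra which tend to zero.
-/

open scoped ENNReal InnerProductSpace
open Filter Topology

noncomputable section

namespace Q90.NM

open Q90.ZS (T mc dl E)

/-! ### ultralimits -/

/-- ultralimit of a real sequence -/
def ul (f : ℕ → ℝ) : ℝ := limUnder (hyperfilter ℕ : Filter ℕ) f

theorem ul_tendsto {f : ℕ → ℝ} {C : ℝ} (h : ∀ n, |f n| ≤ C) :
    Tendsto f (hyperfilter ℕ : Filter ℕ) (𝓝 (ul f)) := by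
  refine tendsto_nhds_limUnder ?_
  have h1 : ∀ᶠ n in (hyperfilter ℕ : Filter ℕ), f n ∈ Set.Icc (-C) C :=
    Eventually.of_forall fun n => abs_le.mp (h n)
  have h2 : (((hyperfilter ℕ).map f : Ultrafilter ℝ) : Filter ℝ) ≤ 𝓟 (Set.Icc (-C) C) :=
    le_principal_iff.mpr h1
  obtain ⟨x, _, hx⟩ := isCompact_Icc.ultrafilter_le_nhds ((hyperfilter ℕ).map f) h2
  exact ⟨x, hx⟩

/-! ### averages -/

/-- averages of matrix coefficients -/
def tra (N k : ℕ) (x : BE) : ℝ := (∑ w ∈ F N k, (mc x w w).re) / (F N k).card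

theorem tra_add (N k : ℕ) (x y : BE) : tra N k (x + y) = tra N k x + tra N k y := by
  unfold tra
  rw [← add_div, ← Finset.sum_add_distrib]
  rfl

theorem tra_smul (N k : ℕ) (r : ℝ) (x : BE) : tra N k ((r : ℂ) • x) = r * tra N k x := by
  unfold tra
  rw [← mul_div_assoc, Finset.mul_sum]
  congr 1
  refine Finset.sum_congr rfl fun w _ => ?_
  rw [Q90.ZS.mc_smul, Complex.re_ofReal_mul]

theorem tra_le_of {N k : ℕ} {x : BE} {C : ℝ} (hC : 0 ≤ C) (h : ∀ w ∈ F N k, (mc x w w).re ≤ C) :
    tra N k x ≤ C := by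
  unfold tra
  rcases Nat.eq_zero_or_pos (F N k).card with h0 | h0
  · rw [h0, Nat.cast_zero, div_zero]; exact hC
  · rw [div_le_iff₀ (by exact_mod_cast h0)]
    calc ∑ w ∈ F N k, (mc x w w).re ≤ ∑ w ∈ F N k, C := Finset.sum_le_sum h
      _ = C * (F N k).card := by rw [Finset.sum_const, nsmul_eq_mul]; ring

theorem tra_nonneg {N k : ℕ} {x : BE} (h : ∀ w, 0 ≤ (mc x w w).re) : 0 ≤ tra N k x :=
  div_nonneg (Finset.sum_nonneg fun w _ => h w) (Nat.cast_nonneg _)

theorem tra_mono {N k : ℕ} {x y : BE} (h : ∀ w, (mc x w w).re ≤ (mc y w w).re) :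
    tra N k x ≤ tra N k y :=
  div_le_div_of_nonneg_right (Finset.sum_le_sum fun w _ => h w) (Nat.cast_nonneg _)

theorem tra_abs (N k : ℕ) (x : BE) : |tra N k x| ≤ ‖x‖ := by
  have h1 : ∀ (x : BE), tra N k x ≤ ‖x‖ := fun x =>
    tra_le_of (norm_nonneg _) fun w _ =>
      (Complex.re_le_norm _).trans (Q90.ZS.mc_le _ _ _)
  rw [abs_le]
  refine ⟨?_, h1 x⟩
  have h2 := h1 ((-1 : ℝ) • x)
  have h3 : tra N k ((-1 : ℝ) • x) = (-1) * tra N k x := by
    rw [← tra_smul]
    congr 1
  rw [h3, norm_smul, norm_neg, norm_one, one_mul] at h2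
  linarith

/-- the trace -/
def tau (k : ℕ) (x : BE) : ℝ := ul fun N => tra N k x

theorem tau_tendsto (k : ℕ) (x : BE) :
    Tendsto (fun N => tra N k x) (hyperfilter ℕ : Filter ℕ) (𝓝 (tau k x)) :=
  ul_tendsto fun N => tra_abs N k x

theorem tau_add (k : ℕ) (x y : BE) : tau k (x + y) = tau k x + tau k y := by
  refine tendsto_nhds_unique (tau_tendsto k (x + y)) ?_
  have := (tau_tendsto k x).add (tau_tendsto k y)
  refine this.congr fun N => (tra_add N k x y).symm

theorem tau_smul (k : ℕ) (r : ℝ) (x : BE) : tau k ((r : ℂ) • x) = r * tau k x := by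
  refine tendsto_nhds_unique (tau_tendsto k _) ?_
  have := (tau_tendsto k x).const_mul r
  refine this.congr fun N => (tra_smul N k r x).symm

theorem tau_zero (k : ℕ) : tau k 0 = 0 := by
  have := tau_add k 0 0
  rw [add_zero] at this
  linarith

theorem tau_neg (k : ℕ) (x : BE) : tau k (-x) = -tau k x := by
  have := tau_add k x (-x)
  rw [add_neg_cancel, tau_zero] at this
  linarith

theorem tau_sub (k : ℕ) (x y : BE) : tau k (x - y) = tau k x - tau k y := by
  rw [sub_eq_add_neg, tau_add, tau_neg]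
  ring

theorem tau_abs (k : ℕ) (x : BE) : |tau k x| ≤ ‖x‖ :=
  le_of_tendsto (tau_tendsto k x).abs (Eventually.of_forall fun N => tra_abs N k x)

theorem tau_mono {k : ℕ} {x y : BE} (h : ∀ w, (mc x w w).re ≤ (mc y w w).re) :
    tau k x ≤ tau k y :=
  le_of_tendsto_of_tendsto (tau_tendsto k x) (tau_tendsto k y)
    (Eventually.of_forall fun _ => tra_mono h)

theorem tau_nonneg {k : ℕ} {x : BE} (h : ∀ w, 0 ≤ (mc x w w).re) : 0 ≤ tau k x :=
  ge_of_tendsto (tau_tendsto k x) (Eventually.of_forall fun _ => tra_nonneg h)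

theorem mc_ss_re (z : BE) (p : Pt) : (mc (star z * z) p p).re = ‖z (dl p)‖ ^ 2 := by
  rw [mc_star_mul_self]
  exact Complex.ofReal_re _

theorem tau_ss_nonneg (k : ℕ) (x : BE) : 0 ≤ tau k (star x * x) :=
  tau_nonneg fun w => by rw [mc_ss_re]; positivity

/-- multiplication by a bounded operator from the left -/
theorem tau_left (k : ℕ) (b x : BE) :
    tau k (star (b * x) * (b * x)) ≤ ‖b‖ ^ 2 * tau k (star x * x) := by
  rw [← tau_smul]
  refine tau_mono fun w => ?_
  rw [Q90.ZS.mc_smul, Complex.re_ofReal_mul, mc_ss_re, mc_ss_re, ← mul_pow]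
  refine pow_le_pow_left₀ (norm_nonneg _) ?_ 2
  exact b.le_opNorm _

/-- parallelogram type bound -/
theorem tau_add_ss (k : ℕ) (x y : BE) :
    tau k (star (x + y) * (x + y)) ≤ 2 * tau k (star x * x) + 2 * tau k (star y * y) := by
  have h := tau_ss_nonneg k (x - y)
  have e : star (x + y) * (x + y) + star (x - y) * (x - y) =
      ((2 : ℝ) : ℂ) • (star x * x) + ((2 : ℝ) : ℂ) • (star y * y) := by
    rw [star_add, star_sub]
    have : ((2 : ℝ) : ℂ) = 2 := by norm_num
    rw [this, two_smul, two_smul]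
    noncomm_ring
  have h2 := tau_add k (star (x + y) * (x + y)) (star (x - y) * (x - y))
  rw [e, tau_add, tau_smul, tau_smul] at h2
  linarith

theorem tau_continuous (k : ℕ) : Continuous (tau k) := by
  refine continuous_iff_continuousAt.mpr fun x => ?_
  rw [ContinuousAt, tendsto_iff_norm_sub_tendsto_zero]
  have h1 : Tendsto (fun y : BE => ‖y - x‖) (𝓝 x) (𝓝 0) := by
    have : Continuous fun y : BE => ‖y - x‖ := by fun_prop
    have h2 := this.tendsto x
    rwa [sub_self, norm_zero] at h2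
  refine squeeze_zero (fun _ => norm_nonneg _) (fun y => ?_) h1
  rw [← tau_sub]
  exact tau_abs k _

/-! ### the trace property -/

theorem F_invariant {n N k : ℕ} (hN : n ≤ N) {f : Pt ≃. Pt} (hf : Lv n f) {a b : Pt}
    (h : b ∈ f a) : a ∈ F N k ↔ b ∈ F N k := by
  have hf' := hf.mono hN
  rw [mem_F, mem_F]
  constructor
  · rintro ⟨⟨_, h2⟩, h3⟩
    refine ⟨⟨hf'.rng h, fun j hj => ?_⟩, ?_⟩
    · rw [← hf'.tail h j hj]; exact h2 j hj
    · rw [← hf'.lab h]; exact h3
  · rintro ⟨⟨_, h2⟩, h3⟩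
    refine ⟨⟨hf'.dom h, fun j hj => ?_⟩, ?_⟩
    · rw [hf'.tail h j hj]; exact h2 j hj
    · rw [hf'.lab h]; exact h3

theorem span_invariant {x : BE} (hx : x ∈ Submodule.span ℂ Gen) :
    ∃ N0, ∀ N, N0 ≤ N → ∀ (k : ℕ) (a b : Pt), mc x b a ≠ 0 → (a ∈ F N k ↔ b ∈ F N k) := by
  classical
  induction hx using Submodule.span_induction with
  | mem x hx =>
    obtain ⟨f, ⟨n, hf⟩, rfl⟩ := hx
    refine ⟨n, fun N hN k a b hne => ?_⟩
    rw [Q90.ZS.mc_T] at hne
    by_cases h : b ∈ f a
    · exact F_invariant hN hf h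
    · rw [if_neg h] at hne
      exact absurd rfl hne
  | zero => exact ⟨0, fun N _ k a b hne => absurd (Q90.ZS.mc_zero _ _) hne⟩
  | add x y hx hy ihx ihy =>
    obtain ⟨N1, h1⟩ := ihx
    obtain ⟨N2, h2⟩ := ihy
    refine ⟨max N1 N2, fun N hN k a b hne => ?_⟩
    rw [Q90.ZS.mc_add] at hne
    by_cases h : mc x b a = 0
    · rw [h, zero_add] at hne
      exact h2 N ((le_max_right _ _).trans hN) k a b hne
    · exact h1 N ((le_max_left _ _).trans hN) k a b h
  | smul c x hx ih =>
    obtain ⟨N1, h1⟩ := ih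
    refine ⟨N1, fun N hN k a b hne => ?_⟩
    rw [Q90.ZS.mc_smul] at hne
    exact h1 N hN k a b (right_ne_zero_of_mul hne)

theorem norm_sq_of_support {ξ : E Pt} (s : Finset Pt) (h : ∀ b, b ∉ s → (ξ : Pt → ℂ) b = 0) :
    ‖ξ‖ ^ 2 = ∑ b ∈ s, ‖(ξ : Pt → ℂ) b‖ ^ 2 := by
  have h1 := lp.norm_rpow_eq_tsum Q90.ZS.two_pos ξ
  have h2 : (2 : ℝ≥0∞).toReal = ((2 : ℕ) : ℝ) := by norm_num
  rw [h2] at h1
  simp only [Real.rpow_natCast] at h1
  rw [h1]
  refine tsum_eq_sum fun b hb => ?_
  rw [h b hb, norm_zero]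
  norm_num

theorem tra_trace {x : BE} {N k : ℕ} (hx : ∀ a b : Pt, mc x b a ≠ 0 → (a ∈ F N k ↔ b ∈ F N k)) :
    tra N k (star x * x) = tra N k (x * star x) := by
  unfold tra
  congr 1
  have h1 : ∀ w ∈ F N k, (mc (star x * x) w w).re = ∑ b ∈ F N k, ‖mc x b w‖ ^ 2 := by
    intro w hw
    rw [mc_ss_re]
    refine norm_sq_of_support _ fun b hb => ?_
    by_contra hne
    exact hb ((hx w b hne).mp hw)
  have h2 : ∀ w ∈ F N k, (mc (x * star x) w w).re = ∑ b ∈ F N k, ‖mc x w b‖ ^ 2 := by
    intro w hw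
    have e : x * star x = star (star x) * star x := by rw [star_star]
    rw [e, mc_ss_re, norm_sq_of_support (F N k)]
    · refine Finset.sum_congr rfl fun b _ => ?_
      have : ((star x) (dl w) : Pt → ℂ) b = mc (star x) b w := rfl
      rw [this, Q90.ZS.mc_star, RCLike.norm_conj]
    · intro b hb
      by_contra hne
      have h3 : mc (star x) b w ≠ 0 := hne
      rw [Q90.ZS.mc_star] at h3
      have h4 : mc x w b ≠ 0 := fun h5 => h3 (by rw [h5, map_zero])
      exact hb ((hx b w h4).mpr hw)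
  rw [Finset.sum_congr rfl h1, Finset.sum_congr rfl h2, Finset.sum_comm]

theorem tau_trace_span (k : ℕ) {x : BE} (hx : x ∈ Submodule.span ℂ Gen) :
    tau k (star x * x) = tau k (x * star x) := by
  obtain ⟨N0, h0⟩ := span_invariant hx
  refine tendsto_nhds_unique (tau_tendsto k _) ?_
  refine (tau_tendsto k (x * star x)).congr' ?_
  have h1 : ∀ᶠ N in (hyperfilter ℕ : Filter ℕ), N0 ≤ N :=
    (Nat.hyperfilter_le_atTop (eventually_ge_atTop N0))
  filter_upwards [h1] with N hN
  exact (tra_trace (h0 N hN k)).symm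

theorem tau_trace (k : ℕ) (x : AT) : tau k (star x.1 * x.1) = tau k (x.1 * star x.1) := by
  have hc : IsClosed {x : BE | tau k (star x * x) = tau k (x * star x)} :=
    isClosed_eq ((tau_continuous k).comp (by fun_prop)) ((tau_continuous k).comp (by fun_prop))
  have h1 : (A0 : Set BE) ⊆ {x : BE | tau k (star x * x) = tau k (x * star x)} :=
    fun x hx => tau_trace_span k hx
  exact closure_minimal h1 hc x.2

/-! ### estimates -/

theorem mc_T_re_le (f : Pt ≃. Pt) (w : Pt) : |(mc (T f) w w).re| ≤ 1 :=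
  (Complex.abs_re_le_norm _).trans ((Q90.ZS.mc_le _ _ _).trans (Q90.ZS.norm_T _))

theorem tau_gen {n k : ℕ} (hn : n < k) {f : Pt ≃. Pt} (hf : Lv n f) :
    |tau k (T f)| ≤ (n + 1) * gt k := by
  classical
  have h1 : ∀ᶠ N in (hyperfilter ℕ : Filter ℕ), |tra N k (T f)| ≤ (n + 1) * gt k := by
    have h2 : ∀ᶠ N in (hyperfilter ℕ : Filter ℕ), k ≤ N :=
      (Nat.hyperfilter_le_atTop (eventually_ge_atTop k))
    filter_upwards [h2] with N hN
    unfold tra
    have h3 := card_F_pos hN
    rw [abs_div, abs_of_pos h3, div_le_iff₀ h3]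
    refine le_trans ?_ (early hN hn)
    refine (Finset.abs_sum_le_sum_abs _ _).trans ?_
    have h4 : ∀ w ∈ F N k, |(mc (T f) w w).re| ≤ if w.1 ≤ n then 1 else 0 := by
      intro w _
      split_ifs with h
      · exact mc_T_re_le f w
      · rw [Q90.ZS.mc_T, if_neg fun h5 => h (hf.dom h5), Complex.zero_re, abs_zero]
    refine (Finset.sum_le_sum h4).trans (le_of_eq ?_)
    rw [Finset.sum_ite, Finset.sum_const_zero, add_zero, Finset.sum_const, nsmul_eq_mul, mul_one]
  exact le_of_tendsto (tau_tendsto k (T f)).abs h1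

theorem tendsto_gt : Tendsto gt atTop (𝓝 0) :=
  tendsto_pow_atTop_nhds_zero_of_lt_one (by norm_num) (by norm_num)

theorem tau_vanish_span {x : BE} (hx : x ∈ Submodule.span ℂ Gen) :
    Tendsto (fun k => tau k x) atTop (𝓝 0) := by
  have key : ∀ x ∈ Submodule.span ℂ Gen, Tendsto (fun k => tau k x) atTop (𝓝 0) ∧
      Tendsto (fun k => tau k (Complex.I • x)) atTop (𝓝 0) := by
    intro x hx
    induction hx using Submodule.span_induction with
    | mem x hx =>
      obtain ⟨f, ⟨n, hf⟩, rfl⟩ := hx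
      have hlim : Tendsto (fun k => ((n : ℝ) + 1) * gt k) atTop (𝓝 0) := by
        have := tendsto_gt.const_mul ((n : ℝ) + 1)
        rwa [mul_zero] at this
      have hlim2 : Tendsto (fun k => ((n : ℝ) + 1) * gt k) atTop (𝓝 0) := hlim
      constructor
      · refine squeeze_zero_norm' ?_ hlim
        filter_upwards [eventually_gt_atTop n] with k hk
        exact tau_gen hk hf
      · have e : ∀ k, tau k (Complex.I • (T f : BE)) = 0 := by
          intro k
          classical
          have h1 : ∀ N, tra N k (Complex.I • (T f : BE)) = 0 := by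
            intro N
            unfold tra
            rw [Finset.sum_eq_zero, zero_div]
            intro w _
            rw [Q90.ZS.mc_smul, Q90.ZS.mc_T]
            split_ifs <;> simp
          refine tendsto_nhds_unique (tau_tendsto k _) ?_
          simp only [h1]
          exact tendsto_const_nhds
        simp only [e]
        exact tendsto_const_nhds
    | zero =>
      simp only [smul_zero, tau_zero]
      exact ⟨tendsto_const_nhds, tendsto_const_nhds⟩
    | add x y hx hy ihx ihy =>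
      constructor
      · have := ihx.1.add ihy.1
        rw [add_zero] at this
        exact this.congr fun k => (tau_add k x y).symm
      · have := ihx.2.add ihy.2
        rw [add_zero] at this
        refine this.congr fun k => ?_
        rw [smul_add, tau_add]
    | smul c x hx ih =>
      have e1 : c • x = ((c.re : ℝ) : ℂ) • x + ((c.im : ℝ) : ℂ) • (Complex.I • x) := by
        rw [smul_smul, ← add_smul]
        congr 1
        exact (Complex.re_add_im c).symm
      have e2 : Complex.I • (c • x) =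
          ((c.re : ℝ) : ℂ) • (Complex.I • x) + ((-c.im : ℝ) : ℂ) • x := by
        rw [smul_smul, smul_smul, ← add_smul]
        congr 1
        apply Complex.ext <;> simp
      constructor
      · have := (ih.1.const_mul c.re).add (ih.2.const_mul c.im)
        rw [mul_zero, mul_zero, add_zero] at this
        refine this.congr fun k => ?_
        rw [e1, tau_add, tau_smul, tau_smul]
      · have := (ih.2.const_mul c.re).add (ih.1.const_mul (-c.im))
        rw [mul_zero, mul_zero, add_zero] at this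
        refine this.congr fun k => ?_
        rw [e2, tau_add, tau_smul, tau_smul]
  exact (key x hx).1

/-- the traces tend to zero on the algebra -/
theorem tau_vanish (x : AT) : Tendsto (fun k => tau k x.1) atTop (𝓝 0) := by
  rw [Metric.tendsto_atTop]
  intro ε hε
  obtain ⟨y, hy, hxy⟩ := exists_approx x (half_pos hε)
  obtain ⟨K, hK⟩ := (Metric.tendsto_atTop.mp (tau_vanish_span hy)) (ε / 2) (half_pos hε)
  refine ⟨K, fun k hk => ?_⟩
  have h1 := hK k hk
  rw [Real.dist_eq, sub_zero] at h1 ⊢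
  have h2 : tau k x.1 = tau k (x.1 - y) + tau k y := by rw [tau_sub]; ring
  rw [h2]
  calc |tau k (x.1 - y) + tau k y| ≤ |tau k (x.1 - y)| + |tau k y| := abs_add_le _ _
    _ < ε / 2 + ε / 2 := add_lt_add_of_le_of_lt ((tau_abs k _).trans hxy.le) h1
    _ = ε := add_halves ε

/-- the units have large traces -/
theorem tau_un {n k : ℕ} (hk : k ≤ n) : 1 - gt n ≤ tau k (T (un n)) := by
  classical
  have h1 : ∀ᶠ N in (hyperfilter ℕ : Filter ℕ), 1 - gt n ≤ tra N k (T (un n)) := by
    have h2 : ∀ᶠ N in (hyperfilter ℕ : Filter ℕ), n ≤ N :=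
      (Nat.hyperfilter_le_atTop (eventually_ge_atTop n))
    filter_upwards [h2] with N hN
    unfold tra
    have h3 := card_F_pos (hk.trans hN)
    rw [le_div_iff₀ h3]
    have h4 : ∀ w ∈ F N k, (mc (T (un n)) w w).re = if w.1 ≤ n then 1 else 0 := by
      intro w _
      rw [Q90.ZS.mc_T]
      by_cases h : w.1 ≤ n
      · rw [if_pos h, if_pos (mem_un.mpr ⟨rfl, h⟩), Complex.one_re]
      · rw [if_neg h, if_neg fun h5 => h (mem_un.mp h5).2, Complex.zero_re]
    rw [Finset.sum_congr rfl h4, Finset.sum_ite, Finset.sum_const_zero, add_zero,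
      Finset.sum_const, nsmul_eq_mul, mul_one]
    have h5 := late hk hN
    have h6 : (((F N k).filter fun w => w.1 ≤ n).card : ℝ) +
        (((F N k).filter fun w => ¬ w.1 ≤ n).card : ℝ) = (F N k).card := by
      exact_mod_cast Finset.card_filter_add_card_filter_not (s := F N k) fun w => w.1 ≤ n
    have h7 : (((F N k).filter fun w => ¬ w.1 ≤ n).card : ℝ) ≤ gt n * (F N k).card := by
      convert h5
    linarith
  exact ge_of_tendsto (tau_tendsto k (T (un n))) h1

end Q90.NM
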