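import Pool.Agent.Q90.NmMult

set_option autoImplicit false

/-!
The units form a good approximate identity.
-/

open scoped ENNReal InnerProductSpace MultiplierAlgebra
open Filter Topology

noncomputable section

namespace Q90.NM

open Q90.ZS (T mc dl E)

/-- shifted units -/
def vv : ℕ → AT
  | 0 => 0
  | n + 1 => uu n

theorem uu_mul_le {p q : ℕ} (h : p ≤ q) : uu q * uu p = uu p :=
  Subtype.ext (uu_mul_gn (lv_un p) h)

theorem uu_mul_le' {p q : ℕ} (h : p ≤ q) : uu p * uu q = uu p := by
  have h1 := congrArg star (uu_mul_le h)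
  rwa [star_mul, star_uu, star_uu] at h1

theorem vv_star (p : ℕ) : star (vv p) = vv p := by
  cases p with
  | zero => exact star_zero _
  | succ p => exact star_uu p

theorem vv_mul {p q : ℕ} (h : p ≤ q) : vv q * vv p = vv p := by
  cases p with
  | zero => exact mul_zero _
  | succ p =>
    cases q with
    | zero => omega
    | succ q => exact uu_mul_le (by omega)

theorem vv_mul' {p q : ℕ} (h : p ≤ q) : vv p * vv q = vv p := by
  have h1 := congrArg star (vv_mul h)
  rwa [star_mul, vv_star, vv_star] at h1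

theorem sh_one (i : ℕ) : sh uu i 1 = vv i := by
  cases i with
  | zero => rfl
  | succ i => rfl

theorem sh_two (i : ℕ) : sh uu i 2 = vv (i - 1) := by
  match i with
  | 0 => rfl
  | 1 => rfl
  | i + 2 => rfl

theorem proj_pos {p : AT} (h1 : star p = p) (h2 : p * p = p) : Pos p := ⟨p, by rw [h1, h2]⟩

theorem norm_sq_proj {p : AT} (h1 : star p = p) (h2 : p * p = p) : ‖p‖ = ‖p‖ * ‖p‖ := by
  have h := CStarRing.norm_star_mul_self (x := p.1)
  have e : star p.1 * p.1 = p.1 := by
    have : star p * p = p := by rw [h1, h2]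
    exact congrArg Subtype.val this
  rw [e] at h
  exact h

theorem proj_norm_le {p : AT} (h1 : star p = p) (h2 : p * p = p) : ‖p‖ ≤ 1 := by
  have h := norm_sq_proj h1 h2
  by_contra hcon
  push Not at hcon
  nlinarith

theorem proj_norm_eq {p : AT} (h1 : star p = p) (h2 : p * p = p) (h3 : p ≠ 0) : ‖p‖ = 1 := by
  have h := norm_sq_proj h1 h2
  have h4 : ‖p‖ ≠ 0 := norm_ne_zero_iff.mpr h3
  have h5 : ‖p‖ * 1 = ‖p‖ * ‖p‖ := by rw [mul_one]; exact h
  exact (mul_left_cancel₀ h4 h5).symm

theorem diff_star (p q : ℕ) : star (vv q - vv p) = vv q - vv p := by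
  rw [star_sub, vv_star, vv_star]

theorem diff_idem {p q : ℕ} (h : p ≤ q) : (vv q - vv p) * (vv q - vv p) = vv q - vv p := by
  rw [sub_mul, mul_sub, mul_sub, vv_mul h, vv_mul' h, vv_mul le_rfl, vv_mul le_rfl]
  abel

theorem uu_ne (n : ℕ) : uu (n + 1) - uu n ≠ 0 := by
  intro h
  have h1 : (T (un (n + 1)) : BE) - T (un n) = 0 := congrArg Subtype.val h
  have h2 : mc ((T (un (n + 1)) : BE) - T (un n)) ((n + 1, 0) : Pt) (n + 1, 0) = 0 := by
    rw [h1, Q90.ZS.mc_zero]
  have h3 : ((n + 1, 0) : Pt) ∈ un (n + 1) ((n + 1, 0) : Pt) := mem_un.mpr ⟨rfl, le_rfl⟩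
  have h4 : ((n + 1, 0) : Pt) ∉ un n ((n + 1, 0) : Pt) := fun h5 => by
    have h6 : n + 1 ≤ n := (mem_un.mp h5).2
    omega
  rw [Q90.ZS.mc_sub, Q90.ZS.mc_T, Q90.ZS.mc_T, if_pos h3, if_neg h4, sub_zero] at h2
  exact one_ne_zero h2

theorem good_uu : GoodApproxIdentity uu where
  pos n := proj_pos (star_uu n) (uu_mul_le le_rfl)
  norm_le := norm_uu_le
  left := uu_left
  right := uu_right
  mul n := uu_mul_le (Nat.le_succ n)
  norm_sub n := by
    have h1 : uu (n + 1) - uu n = vv (n + 2) - vv (n + 1) := rfl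
    have h2 := uu_ne n
    rw [h1] at h2 ⊢
    exact proj_norm_eq (diff_star _ _) (diff_idem (by omega)) h2
  bumps := by
    refine ⟨fun i j => vv (j + 1) - vv i, ?_, ?_⟩
    · intro i j hij
      have e1 : uu j = vv (j + 1) := rfl
      have e2 : uu (j + 1) = vv (j + 2) := rfl
      refine ⟨proj_pos (diff_star _ _) (diff_idem (by omega)),
        proj_norm_le (diff_star _ _) (diff_idem (by omega)), ?_, ?_⟩
      · rw [sh_two, e2]
        have e3 : vv (j + 2) - vv (i - 1) - (vv (j + 1) - vv i) =
            (vv (j + 2) - vv (j + 1)) + (vv i - vv (i - 1)) := by abel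
        rw [e3]
        refine proj_pos ?_ ?_
        · rw [star_add, diff_star, diff_star]
        · have c1 : (vv (j + 2) - vv (j + 1)) * (vv i - vv (i - 1)) = 0 := by
            rw [sub_mul, mul_sub, mul_sub, vv_mul (show i ≤ j + 2 by omega),
              vv_mul (show i - 1 ≤ j + 2 by omega), vv_mul (show i ≤ j + 1 by omega),
              vv_mul (show i - 1 ≤ j + 1 by omega), sub_self]
          have c2 : (vv i - vv (i - 1)) * (vv (j + 2) - vv (j + 1)) = 0 := by
            have := congrArg star c1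
            rwa [star_mul, diff_star, diff_star, star_zero] at this
          rw [add_mul, mul_add, mul_add, c1, c2, diff_idem (by omega), diff_idem (by omega),
            add_zero, zero_add]
      · rw [sh_one, e1]
        exact diff_idem (by omega)
    · intro i j i' j' h1 h2 h3
      show (vv (j + 1) - vv i) * (vv (j' + 1) - vv i') = 0
      rw [sub_mul, mul_sub, mul_sub, vv_mul' (show j + 1 ≤ j' + 1 by omega),
        vv_mul' (show j + 1 ≤ i' by omega), vv_mul' (show i ≤ j' + 1 by omega),
        vv_mul' (show i ≤ i' by omega), sub_self, sub_self, sub_zero]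

end Q90.NM
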