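import Mathlib

/-!
# Commuting endomorphisms over a matrix corner: the algebraic core

`B` is a `*`-ring containing matrix units `e a b` indexed by a finite group `G`, and
`θ₀, θ₁, θ₂` are commuting `*`-endomorphisms of `B` whose compressions to the corner are the random
unitary maps `a ↦ (1/2) ∑ λ(u)* a λ(u)` given by two-element subsets `U₀, U₁, U₂` of `G`.
-/

set_option autoImplicit false

namespace Q90.NoDil

open Finset

/-- the coefficients -/
noncomputable def kap {G : Type*} [Group G] [DecidableEq G] (u : Fin 3 → Fin 2 → G) (i : Fin 3)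
    (a b j j' : G) : ℂ := ∑ y : Fin 2, if u i y * j = a ∧ u i y * j' = b then (2 : ℂ)⁻¹ else 0

/-- the data -/
structure Sys (B : Type*) [Ring B] [StarRing B] [Algebra ℂ B] (G : Type*) [Group G] [Fintype G]
    [DecidableEq G] where
  e : G → G → B
  θ : Fin 3 → B → B
  u : Fin 3 → Fin 2 → G
  e_mul : ∀ a b c d, e a b * e c d = if b = c then e a d else 0
  e_star : ∀ a b, star (e a b) = e b a
  θ_add : ∀ i x y, θ i (x + y) = θ i x + θ i y
  θ_mul : ∀ i x y, θ i (x * y) = θ i x * θ i y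
  θ_smul : ∀ i (c : ℂ) x, θ i (c • x) = c • θ i x
  θ_star : ∀ i x, θ i (star x) = star (θ i x)
  θ_comm : ∀ i j x, θ i (θ j x) = θ j (θ i x)
  proper : ∀ x : B, star x * x = 0 → x = 0
  u_inj : ∀ i, Function.Injective (u i)
  hT : ∀ i a b k j j' l, e k j * θ i (e a b) * e j' l = kap u i a b j j' • e k l

namespace Sys

variable {B : Type*} [Ring B] [StarRing B] [Algebra ℂ B] {G : Type*} [Group G] [Fintype G]
    [DecidableEq G] (D : Sys B G)

/-- the projection -/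
noncomputable def p : B := ∑ a, D.e a a

/-- the elements `S` -/
noncomputable def S (i : Fin 3) (a j : G) : B := ∑ k, D.θ i (D.e k a) * D.e j k

/-- the elements `s` -/
noncomputable def s (i : Fin 3) (y : Fin 2) : B := D.S i (D.u i y) 1

/-- the unitaries of the regular representation -/
noncomputable def L (g : G) : B := ∑ j, D.e (g * j) j

theorem θ_zero (i : Fin 3) : D.θ i 0 = 0 := by
  have h := D.θ_add i 0 0
  rw [add_zero] at h
  exact left_eq_add.1 h

theorem θ_sum {ι : Type*} (i : Fin 3) (t : Finset ι) (f : ι → B) :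
    D.θ i (∑ x ∈ t, f x) = ∑ x ∈ t, D.θ i (f x) := by
  classical
  induction t using Finset.induction_on with
  | empty => simp [D.θ_zero]
  | insert a t ha ih => rw [Finset.sum_insert ha, Finset.sum_insert ha, D.θ_add, ih]

theorem kap_self (i : Fin 3) (y : Fin 2) (j j' : G) :
    kap D.u i (D.u i y * j) (D.u i y * j') j j' = 2⁻¹ := by
  rw [kap, Finset.sum_eq_single y]
  · simp
  · intro z _ hz
    rw [if_neg]
    rintro ⟨h, -⟩
    exact hz (D.u_inj i (mul_right_cancel h))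
  · simp

theorem kap_ne (i : Fin 3) (a b j j' : G)
    (h : ∀ y : Fin 2, ¬ (D.u i y * j = a ∧ D.u i y * j' = b)) : kap D.u i a b j j' = 0 := by
  rw [kap]
  exact Finset.sum_eq_zero fun y _ => if_neg (h y)

theorem p_mul_e (a b : G) : D.p * D.e a b = D.e a b := by
  rw [p, Finset.sum_mul]
  simp [D.e_mul]

theorem e_mul_p (a b : G) : D.e a b * D.p = D.e a b := by
  rw [p, Finset.mul_sum]
  simp [D.e_mul]

theorem p_mul_p : D.p * D.p = D.p := by
  conv_lhs => rw [p, Finset.sum_mul]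
  exact Finset.sum_congr rfl fun a _ => D.e_mul_p a a

theorem star_p : star D.p = D.p := by
  rw [p, star_sum]
  exact Finset.sum_congr rfl fun a _ => D.e_star a a

theorem S_mul_e (i : Fin 3) (c j a b : G) : D.S i c j * D.e a b = D.θ i (D.e a c) * D.e j b := by
  rw [S, Finset.sum_mul, Finset.sum_eq_single a]
  · rw [mul_assoc, D.e_mul, if_pos rfl]
  · intro k _ hk
    rw [mul_assoc, D.e_mul, if_neg hk, mul_zero]
  · simp

theorem θe_mul_S (i : Fin 3) (c j a b : G) : D.θ i (D.e a b) * D.S i c j = D.S i c j * D.e a b := by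
  rw [S_mul_e, S, Finset.mul_sum, Finset.sum_eq_single b]
  · rw [← mul_assoc, ← D.θ_mul, D.e_mul, if_pos rfl]
  · intro k _ hk
    rw [← mul_assoc, ← D.θ_mul, D.e_mul, if_neg (Ne.symm hk), D.θ_zero, zero_mul]
  · simp

theorem S_mul_p (i : Fin 3) (c j : G) : D.S i c j * D.p = D.S i c j := by
  rw [p, Finset.mul_sum]
  simp only [S_mul_e]
  rfl

theorem θp_mul_S (i : Fin 3) (c j : G) : D.θ i D.p * D.S i c j = D.S i c j := by
  conv_rhs => rw [← S_mul_p]
  rw [p, D.θ_sum, Finset.sum_mul, Finset.mul_sum]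
  exact Finset.sum_congr rfl fun a _ => D.θe_mul_S i c j a a

theorem star_S_mul_S (i : Fin 3) (a j a' j' : G) :
    star (D.S i a j) * D.S i a' j' = kap D.u i a a' j j' • D.p := by
  have h1 : star (D.S i a j) = ∑ k, D.e k j * D.θ i (D.e a k) := by
    rw [S, star_sum]
    refine Finset.sum_congr rfl fun k _ => ?_
    rw [star_mul, D.e_star, ← D.θ_star, D.e_star]
  rw [h1, Finset.sum_mul, p, Finset.smul_sum]
  refine Finset.sum_congr rfl fun k _ => ?_
  rw [S, Finset.mul_sum, Finset.sum_eq_single k]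
  · rw [mul_assoc, ← mul_assoc (D.θ i (D.e a k)), ← D.θ_mul, D.e_mul, if_pos rfl, ← mul_assoc, D.hT]
  · intro l _ hl
    rw [mul_assoc, ← mul_assoc (D.θ i (D.e a k)), ← D.θ_mul, D.e_mul, if_neg (Ne.symm hl),
      D.θ_zero, zero_mul, mul_zero]
  · simp

theorem S_eq (i : Fin 3) (y : Fin 2) (j : G) : D.S i (D.u i y * j) j = D.s i y := by
  rw [← sub_eq_zero]
  apply D.proper
  have h : ∀ j j' : G, star (D.S i (D.u i y * j) j) * D.S i (D.u i y * j') j' = (2⁻¹ : ℂ) • D.p := by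
    intro j j'
    rw [star_S_mul_S, kap_self]
  have h1 := h j 1
  have h2 := h 1 j
  have h3 := h 1 1
  rw [mul_one] at h1 h2 h3
  rw [s, star_sub, sub_mul, mul_sub, mul_sub, h, h1, h2, h3]
  simp

theorem S_zero (i : Fin 3) (a j : G) (h : ∀ y, a ≠ D.u i y * j) : D.S i a j = 0 := by
  apply D.proper
  rw [star_S_mul_S, kap_ne, zero_smul]
  rintro y ⟨h1, -⟩
  exact h y h1.symm

theorem s_star_mul (i : Fin 3) (y z : Fin 2) :
    star (D.s i y) * D.s i z = if y = z then (2⁻¹ : ℂ) • D.p else 0 := by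
  rw [s, s, star_S_mul_S]
  by_cases h : y = z
  · subst h
    rw [if_pos rfl]
    have := D.kap_self i y 1 1
    rw [mul_one] at this
    rw [this]
  · rw [if_neg h, kap_ne, zero_smul]
    rintro w ⟨h1, h2⟩
    rw [mul_one] at h1 h2
    exact h ((D.u_inj i h1).symm.trans (D.u_inj i h2))

theorem θp_mul_p (i : Fin 3) : D.θ i D.p * D.p = D.p := by
  have h1 : D.p * D.θ i D.p * D.p = D.p := by
    have h2 : D.p * D.θ i D.p * D.p =
        ∑ k, ∑ a, ∑ l, D.e k k * D.θ i (D.e a a) * D.e l l := by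
      conv_lhs => rw [p, D.θ_sum, Finset.sum_mul, Finset.sum_mul]
      refine Finset.sum_congr rfl fun k _ => ?_
      simp only [Finset.mul_sum, Finset.sum_mul]
      rw [Finset.sum_comm]
    rw [h2]
    conv_rhs => rw [p]
    refine Finset.sum_congr rfl fun k _ => ?_
    simp only [D.hT]
    rw [Finset.sum_comm]
    have h3 : ∀ l, ∑ a, kap D.u i a a k l • D.e k l = if k = l then D.e k l else 0 := by
      intro l
      rw [← Finset.sum_smul]
      have h4 : ∑ a, kap D.u i a a k l = if k = l then 1 else 0 := by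
        simp only [kap]
        rw [Finset.sum_comm]
        have h5 : ∀ y : Fin 2, ∑ a, (if D.u i y * k = a ∧ D.u i y * l = a then (2 : ℂ)⁻¹ else 0) =
            if k = l then 2⁻¹ else 0 := by
          intro y
          rw [Finset.sum_eq_single (D.u i y * k)]
          · by_cases h : k = l
            · simp [h]
            · rw [if_neg h, if_neg]
              rintro ⟨-, h6⟩
              exact h (mul_left_cancel h6).symm
          · intro a _ ha
            rw [if_neg]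
            rintro ⟨h6, -⟩
            exact ha h6.symm
          · simp
        simp only [h5]
        by_cases h : k = l
        · simp [h]
        · simp [h]
      rw [h4]
      split_ifs with h
      · rw [one_smul]
      · rw [zero_smul]
    simp only [h3]
    simp
  have h2 : D.p - D.θ i D.p * D.p = 0 := by
    apply D.proper
    have h3 : star (D.θ i D.p) = D.θ i D.p := by rw [← D.θ_star, D.star_p]
    have h4 : D.θ i D.p * D.θ i D.p = D.θ i D.p := by rw [← D.θ_mul, D.p_mul_p]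
    rw [star_sub, star_mul, D.star_p, h3, sub_mul, mul_sub, mul_sub, D.p_mul_p]
    have h5 : D.p * D.θ i D.p * (D.θ i D.p * D.p) = D.p := by
      rw [mul_assoc, ← mul_assoc (D.θ i D.p) (D.θ i D.p), h4, ← mul_assoc, h1]
    have h6 : D.p * (D.θ i D.p * D.p) = D.p := by rw [← mul_assoc, h1]
    rw [h5, h6, h1]
    simp
  exact (sub_eq_zero.1 h2).symm

theorem p_expand (i : Fin 3) : D.p = ∑ y, D.s i y * D.L (D.u i y) := by
  have h1 : D.p = ∑ j, ∑ a, D.S i a j * D.e a j := by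
    conv_lhs => rw [← D.θp_mul_p i]
    conv_lhs => rw [p, D.θ_sum, Finset.sum_mul_sum, Finset.sum_comm]
    refine Finset.sum_congr rfl fun j _ => Finset.sum_congr rfl fun a _ => ?_
    rw [S_mul_e]
  rw [h1]
  have h2 : ∀ j, ∑ a, D.S i a j * D.e a j = ∑ y, D.s i y * D.e (D.u i y * j) j := by
    intro j
    have hinj : Function.Injective (fun y => D.u i y * j) := fun y z h =>
      D.u_inj i (mul_right_cancel h)
    have h3 : ∑ a, D.S i a j * D.e a j =
        ∑ a ∈ Finset.univ.image (fun y => D.u i y * j), D.S i a j * D.e a j := by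
      symm
      apply Finset.sum_subset (Finset.subset_univ _)
      intro a _ ha
      rw [D.S_zero, zero_mul]
      intro y hy
      apply ha
      rw [Finset.mem_image]
      exact ⟨y, Finset.mem_univ _, hy.symm⟩
    rw [h3, Finset.sum_image (fun a _ b _ h => hinj h)]
    refine Finset.sum_congr rfl fun y _ => ?_
    rw [S_eq]
  simp only [h2]
  rw [Finset.sum_comm]
  refine Finset.sum_congr rfl fun y _ => ?_
  rw [L, Finset.mul_sum]

theorem L_mul_L (g h : G) : D.L g * D.L h = D.L (g * h) := by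
  rw [L, L, L, Finset.sum_mul_sum, Finset.sum_comm]
  refine Finset.sum_congr rfl fun j _ => ?_
  rw [Finset.sum_eq_single (h * j)]
  · rw [D.e_mul, if_pos rfl, mul_assoc]
  · intro k _ hk
    rw [D.e_mul, if_neg hk]
  · simp

theorem e_mul_L (a b g : G) : D.e a b * D.L g = D.e a (g⁻¹ * b) := by
  rw [L, Finset.mul_sum, Finset.sum_eq_single (g⁻¹ * b)]
  · rw [D.e_mul, if_pos (by group)]
  · intro k _ hk
    rw [D.e_mul, if_neg]
    rintro h
    exact hk (by rw [h]; group)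
  · simp

theorem θL_mul_s (i : Fin 3) (g : G) (y : Fin 2) :
    D.θ i (D.L g) * D.s i y = D.s i y * D.L g := by
  rw [L, D.θ_sum, Finset.sum_mul, Finset.mul_sum]
  exact Finset.sum_congr rfl fun j _ => D.θe_mul_S _ _ _ _ _

/-- products of intertwiners -/
noncomputable def R (i j : Fin 3) (x y : Fin 2) : B := D.θ i (D.s j x) * D.s i y

theorem p_expand₂ (i j : Fin 3) :
    D.p = ∑ x, ∑ y, D.R i j x y * D.L (D.u j x * D.u i y) := by
  conv_lhs => rw [← D.θp_mul_p i]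
  conv_lhs =>
    congr
    · rw [D.p_expand j]
    · rw [D.p_expand i]
  rw [D.θ_sum, Finset.sum_mul_sum]
  refine Finset.sum_congr rfl fun x _ => Finset.sum_congr rfl fun y _ => ?_
  rw [R, D.θ_mul, mul_assoc, ← mul_assoc (D.θ i (D.L _)), θL_mul_s, ← D.L_mul_L]
  simp only [mul_assoc]

/-- coefficients of `p` for the product of two maps -/
noncomputable def X (i j : Fin 3) (k : G) : B := ∑ l, D.θ i (D.θ j (D.e l k)) * D.e 1 l

theorem X_comm (i j : Fin 3) (k : G) : D.X i j k = D.X j i k := by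
  rw [X, X]
  exact Finset.sum_congr rfl fun l _ => by rw [D.θ_comm]

theorem θθe_mul_R (i j : Fin 3) (x y : Fin 2) (a b : G) :
    D.θ i (D.θ j (D.e a b)) * D.R i j x y = D.R i j x y * D.e a b := by
  rw [R, ← mul_assoc, ← D.θ_mul]
  rw [show D.θ j (D.e a b) * D.s j x = D.s j x * D.e a b from D.θe_mul_S _ _ _ _ _]
  rw [D.θ_mul, mul_assoc, mul_assoc]
  rw [show D.θ i (D.e a b) * D.s i y = D.s i y * D.e a b from D.θe_mul_S _ _ _ _ _]

theorem R_mul_p (i j : Fin 3) (x y : Fin 2) : D.R i j x y * D.p = D.R i j x y := by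
  rw [R, mul_assoc]
  rw [show D.s i y * D.p = D.s i y from D.S_mul_p _ _ _]

theorem X_eq (i j : Fin 3) (k : G) :
    D.X i j k = ∑ x, ∑ y, if D.u j x * D.u i y = k then D.R i j x y else 0 := by
  have h1 : ∀ l, D.θ i (D.θ j (D.e l k)) * D.e 1 l =
      ∑ x, ∑ y, if D.u j x * D.u i y = k then D.R i j x y * D.e l l else 0 := by
    intro l
    have h2 : D.θ i (D.θ j (D.e l k)) * D.e 1 l = D.θ i (D.θ j (D.e l k)) * D.p * D.e 1 l := by
      rw [mul_assoc, D.p_mul_e]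
    rw [h2, D.p_expand₂ i j, Finset.mul_sum, Finset.sum_mul]
    refine Finset.sum_congr rfl fun x _ => ?_
    rw [Finset.mul_sum, Finset.sum_mul]
    refine Finset.sum_congr rfl fun y _ => ?_
    rw [← mul_assoc, θθe_mul_R, mul_assoc (D.R i j x y), e_mul_L, mul_assoc, D.e_mul]
    by_cases h : D.u j x * D.u i y = k
    · rw [if_pos h, if_pos (by rw [h]; group)]
    · rw [if_neg h, if_neg, mul_zero]
      intro h3
      apply h
      exact (inv_mul_eq_one.1 h3)
  rw [X]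
  simp only [h1]
  rw [Finset.sum_comm]
  refine Finset.sum_congr rfl fun x _ => ?_
  rw [Finset.sum_comm]
  refine Finset.sum_congr rfl fun y _ => ?_
  split_ifs with h
  · rw [← Finset.mul_sum]
    exact D.R_mul_p i j x y
  · simp

theorem R_swap (i j : Fin 3)
    (h₁ : ∀ x y x' y', D.u j x * D.u i y = D.u j x' * D.u i y' → x = x' ∧ y = y')
    (h₂ : ∀ x y x' y', D.u i x * D.u j y = D.u i x' * D.u j y' → x = x' ∧ y = y')
    (x y x' y' : Fin 2) (h : D.u j x * D.u i y = D.u i x' * D.u j y') :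
    D.R i j x y = D.R j i x' y' := by
  have key : ∀ (i j : Fin 3)
      (_ : ∀ x y x' y', D.u j x * D.u i y = D.u j x' * D.u i y' → x = x' ∧ y = y')
      (x y : Fin 2), D.X i j (D.u j x * D.u i y) = D.R i j x y := by
    intro i j h₁ x y
    rw [X_eq, Finset.sum_eq_single x, Finset.sum_eq_single y]
    · rw [if_pos rfl]
    · intro y' _ hy
      rw [if_neg]
      intro h
      exact hy (h₁ _ _ _ _ h).2
    · simp
    · intro x' _ hx
      refine Finset.sum_eq_zero fun y' _ => ?_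
      rw [if_neg]
      intro h
      exact hx (h₁ _ _ _ _ h).1
    · simp
  rw [← key i j h₁ x y, h, X_comm, key j i h₂ x' y']

/-- the triple products -/
noncomputable def Z (x y z : Fin 2) : B := D.θ 2 (D.θ 1 (D.s 0 x)) * D.θ 2 (D.s 1 y) * D.s 2 z

theorem star_Z_mul_Z (x y z x' y' z' : Fin 2) :
    star (D.Z x y z) * D.Z x' y' z' =
      if x = x' ∧ y = y' ∧ z = z' then (8⁻¹ : ℂ) • D.p else 0 := by
  have hp : ∀ (i : Fin 3) (y : Fin 2), D.θ i D.p * D.s i y = D.s i y := fun i y =>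
    D.θp_mul_S _ _ _
  have h1 : star (D.Z x y z) * D.Z x' y' z' = star (D.s 2 z) *
      (D.θ 2 (star (D.s 1 y) * (D.θ 1 (star (D.s 0 x) * D.s 0 x') * D.s 1 y')) * D.s 2 z') := by
    rw [Z, Z, star_mul, star_mul]
    simp only [D.θ_mul, D.θ_star, mul_assoc]
  rw [h1, s_star_mul]
  by_cases hx : x = x'
  · rw [if_pos hx, D.θ_smul, smul_mul_assoc, hp, mul_smul_comm, s_star_mul]
    by_cases hy : y = y'
    · rw [if_pos hy, D.θ_smul, D.θ_smul, smul_mul_assoc, smul_mul_assoc, hp, mul_smul_comm,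
        mul_smul_comm, s_star_mul]
      by_cases hz : z = z'
      · rw [if_pos hz, if_pos ⟨hx, hy, hz⟩, smul_smul, smul_smul]
        norm_num
      · rw [if_neg hz, if_neg (fun h => hz h.2.2), smul_zero, smul_zero]
    · rw [if_neg hy, if_neg (fun h => hy h.2.1), smul_zero, D.θ_zero, zero_mul, mul_zero]
  · rw [if_neg hx, if_neg (fun h => hx h.1), D.θ_zero, zero_mul, mul_zero, D.θ_zero, zero_mul,
      mul_zero]

/-- The hexagon: both ways of reordering a product of three intertwiners must agree. -/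
theorem hexagon
    (hinj : ∀ i j : Fin 3, i ≠ j → ∀ x y x' y',
      D.u j x * D.u i y = D.u j x' * D.u i y' → x = x' ∧ y = y')
    (hp : D.p ≠ 0)
    (x y z : Fin 2)
    -- first path
    (y₁ z₁ x₁ z₂ x₂ y₂ : Fin 2)
    (h₁ : D.u 2 z * D.u 1 y = D.u 1 y₁ * D.u 2 z₁)
    (h₂ : D.u 2 z₁ * D.u 0 x = D.u 0 x₁ * D.u 2 z₂)
    (h₃ : D.u 1 y₁ * D.u 0 x₁ = D.u 0 x₂ * D.u 1 y₂)
    -- second path
    (a b a₁ c b₁ c₁ : Fin 2)
    (k₁ : D.u 1 y * D.u 0 x = D.u 0 a * D.u 1 b)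
    (k₂ : D.u 2 z * D.u 0 a = D.u 0 a₁ * D.u 2 c)
    (k₃ : D.u 2 c * D.u 1 b = D.u 1 b₁ * D.u 2 c₁) :
    x₂ = a₁ ∧ y₂ = b₁ ∧ z₂ = c₁ := by
  have sw : ∀ i j : Fin 3, i ≠ j → ∀ x y x' y', D.u j x * D.u i y = D.u i x' * D.u j y' →
      D.R i j x y = D.R j i x' y' := fun i j hij x y x' y' h =>
    D.R_swap i j (hinj i j hij) (hinj j i (Ne.symm hij)) x y x' y' h
  have e₁ : D.θ 1 (D.s 2 z) * D.s 1 y = D.θ 2 (D.s 1 y₁) * D.s 2 z₁ :=
    sw 1 2 (by decide) _ _ _ _ h₁
  have e₂ : D.θ 0 (D.s 2 z₁) * D.s 0 x = D.θ 2 (D.s 0 x₁) * D.s 2 z₂ :=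
    sw 0 2 (by decide) _ _ _ _ h₂
  have e₃ : D.θ 0 (D.s 1 y₁) * D.s 0 x₁ = D.θ 1 (D.s 0 x₂) * D.s 1 y₂ :=
    sw 0 1 (by decide) _ _ _ _ h₃
  have f₁ : D.θ 0 (D.s 1 y) * D.s 0 x = D.θ 1 (D.s 0 a) * D.s 1 b :=
    sw 0 1 (by decide) _ _ _ _ k₁
  have f₂ : D.θ 0 (D.s 2 z) * D.s 0 a = D.θ 2 (D.s 0 a₁) * D.s 2 c :=
    sw 0 2 (by decide) _ _ _ _ k₂
  have f₃ : D.θ 1 (D.s 2 c) * D.s 1 b = D.θ 2 (D.s 1 b₁) * D.s 2 c₁ :=
    sw 1 2 (by decide) _ _ _ _ k₃
  have A : D.θ 0 (D.θ 1 (D.s 2 z)) * D.θ 0 (D.s 1 y) * D.s 0 x = D.Z x₂ y₂ z₂ := by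
    calc D.θ 0 (D.θ 1 (D.s 2 z)) * D.θ 0 (D.s 1 y) * D.s 0 x
        = D.θ 0 (D.θ 1 (D.s 2 z) * D.s 1 y) * D.s 0 x := by rw [D.θ_mul]
      _ = D.θ 0 (D.θ 2 (D.s 1 y₁)) * (D.θ 0 (D.s 2 z₁) * D.s 0 x) := by
          rw [e₁, D.θ_mul, mul_assoc]
      _ = D.θ 2 (D.θ 0 (D.s 1 y₁)) * (D.θ 2 (D.s 0 x₁) * D.s 2 z₂) := by rw [e₂, D.θ_comm]
      _ = D.θ 2 (D.θ 0 (D.s 1 y₁) * D.s 0 x₁) * D.s 2 z₂ := by rw [D.θ_mul, mul_assoc]
      _ = D.Z x₂ y₂ z₂ := by rw [e₃, D.θ_mul, Z]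
  have A' : D.θ 0 (D.θ 1 (D.s 2 z)) * D.θ 0 (D.s 1 y) * D.s 0 x = D.Z a₁ b₁ c₁ := by
    calc D.θ 0 (D.θ 1 (D.s 2 z)) * D.θ 0 (D.s 1 y) * D.s 0 x
        = D.θ 1 (D.θ 0 (D.s 2 z)) * (D.θ 0 (D.s 1 y) * D.s 0 x) := by
          rw [D.θ_comm, mul_assoc]
      _ = D.θ 1 (D.θ 0 (D.s 2 z) * D.s 0 a) * D.s 1 b := by
          rw [f₁, D.θ_mul, ← mul_assoc]
      _ = D.θ 2 (D.θ 1 (D.s 0 a₁)) * (D.θ 1 (D.s 2 c) * D.s 1 b) := by
          rw [f₂, D.θ_mul, D.θ_comm 1 2, mul_assoc]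
      _ = D.Z a₁ b₁ c₁ := by rw [f₃, Z, mul_assoc]
  by_contra hne
  have h5 : D.Z x₂ y₂ z₂ = D.Z a₁ b₁ c₁ := by rw [← A, ← A']
  have h6 := D.star_Z_mul_Z x₂ y₂ z₂ x₂ y₂ z₂
  rw [if_pos ⟨rfl, rfl, rfl⟩] at h6
  have h7 := D.star_Z_mul_Z x₂ y₂ z₂ a₁ b₁ c₁
  rw [if_neg hne, ← h5, h6] at h7
  exact hp ((smul_eq_zero.1 h7).resolve_left (by norm_num))

end Sys

end Q90.NoDil
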