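import Mathlib

/-!
# Dilations of CP-semigroups over `ℕ³` on `B(H)`: definitions
-/

set_option autoImplicit false

namespace Q90.NoDil

open scoped CStarAlgebra

/-- The algebra `B(H)` of bounded operators on `H`. -/
abbrev BH (H : Type*) [NormedAddCommGroup H] [InnerProductSpace ℂ H] : Type _ := H →L[ℂ] H

/-- The map `T_s = T₀ ^ {s₀} ∘ T₁ ^ {s₁} ∘ T₂ ^ {s₂}`, for `s = (s₀, s₁, s₂) ∈ ℕ³`. -/
def power {A : Type*} (T : Fin 3 → A → A) (s : Fin 3 → ℕ) : A → A :=
  (T 0)^[s 0] ∘ (T 1)^[s 1] ∘ (T 2)^[s 2]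

section

variable {H K : Type*} [NormedAddCommGroup H] [InnerProductSpace ℂ H] [CompleteSpace H]
  [NormedAddCommGroup K] [InnerProductSpace ℂ K] [CompleteSpace K]

/-- The operator `a` on `H`, transported to `K` by the isometry `V : H → K`: the operator
`V a V*` on `K`.  For `a = 1` this is the projection `p` of `K` onto (the copy of) `H`. -/
noncomputable def up (V : H →ₗᵢ[ℂ] K) (a : BH H) : BH K :=
  V.toContinuousLinearMap ∘L a ∘L (ContinuousLinearMap.adjoint V.toContinuousLinearMap)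

/-- The compression `V* b V` of the operator `b` on `K` to `H`. -/
noncomputable def down (V : H →ₗᵢ[ℂ] K) (b : BH K) : BH H :=
  (ContinuousLinearMap.adjoint V.toContinuousLinearMap) ∘L b ∘L V.toContinuousLinearMap

/-- `f` restricts to a `*`-endomorphism, not necessarily unital, of the von Neumann algebra `𝓑` on
`K`.  (Its values outside `𝓑` play no role.) -/
structure IsStarEndo (𝓑 : VonNeumannAlgebra K) (f : BH K → BH K) : Prop where
  mem : ∀ b ∈ 𝓑, f b ∈ 𝓑
  map_add : ∀ b ∈ 𝓑, ∀ c ∈ 𝓑, f (b + c) = f b + f c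
  map_smul : ∀ z : ℂ, ∀ b ∈ 𝓑, f (z • b) = z • f b
  map_mul : ∀ b ∈ 𝓑, ∀ c ∈ 𝓑, f (b * c) = f b * f c
  map_star : ∀ b ∈ 𝓑, f (star b) = star (f b)

/-- `(V, K, 𝓑, θ)` is a dilation of the semigroup `(T_s)`, `s ∈ ℕ³`, on `B(H)`.  Here `V` is an
isometry of `H` into the Hilbert space `K`, which identifies `H` with a closed subspace of `K`,
`𝓑` is a von Neumann algebra on `K`, and `θ = (θ_s)` is a family of maps on `𝓑`. -/
structure IsDilation (T : (Fin 3 → ℕ) → BH H → BH H) (V : H →ₗᵢ[ℂ] K)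
    (𝓑 : VonNeumannAlgebra K) (θ : (Fin 3 → ℕ) → BH K → BH K) : Prop where
  /-- `B(H)` is the corner `p 𝓑 p`: the algebra `𝓑` contains all operators of `B(H)` (extended by
  zero on the orthogonal complement of `H`), in particular the projection `p` onto `H`. -/
  corner : ∀ a : BH H, up V a ∈ 𝓑
  /-- Every `θ_s` is a `*`-endomorphism of `𝓑`. -/
  endo : ∀ s, IsStarEndo 𝓑 (θ s)
  /-- `θ₀` is the identity. -/
  zero : ∀ b ∈ 𝓑, θ 0 b = b
  /-- `θ_{s+t} = θ_s ∘ θ_t`. -/
  add : ∀ s t, ∀ b ∈ 𝓑, θ (s + t) b = θ s (θ t b)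
  /-- `T_s(a) = p θ_s(a) p`. -/
  dilates : ∀ s a, T s a = down V (θ s (up V a))

end

section

variable {H : Type*} [NormedAddCommGroup H] [InnerProductSpace ℂ H] [CompleteSpace H]

/-- `T₀, T₁, T₂` are commuting unital completely positive maps on `B(H)`. -/
structure IsCommutingUnital (T : Fin 3 → (BH H →CP BH H)) : Prop where
  unital : ∀ i, T i 1 = 1
  comm : ∀ i j a, T i (T j a) = T j (T i a)

universe u

/-- The semigroup `T_s = T₀ ^ {s₀} T₁ ^ {s₁} T₂ ^ {s₂}` on `B(H)` has no dilation, whatever the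
Hilbert space `K`, the embedding `V` of `H` in `K`, the von Neumann algebra `𝓑` on `K`, and the
semigroup `θ` of `*`-endomorphisms of `𝓑` are. -/
def HasNoDilation (T : Fin 3 → (BH H →CP BH H)) : Prop :=
  ∀ (K : Type u) [NormedAddCommGroup K] [InnerProductSpace ℂ K] [CompleteSpace K]
    (V : H →ₗᵢ[ℂ] K) (𝓑 : VonNeumannAlgebra K) (θ : (Fin 3 → ℕ) → BH K → BH K),
    ¬ IsDilation (power fun i a => T i a) V 𝓑 θ

end

end Q90.NoDil
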