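import Mathlib
import Pool.Agent.Q90.NoDil
import Pool.Agent.Q90.NoDilDefs

/-!
# Three commuting unital CP maps with no dilation at all: the example
-/

set_option autoImplicit false

namespace Q90.NoDil

open scoped CStarAlgebra ComplexConjugate
open Matrix

section CP

variable {A : Type*} [CStarAlgebra A] [PartialOrder A] [StarOrderedRing A]

/-- `a ↦ K* a K` is completely positive. -/
theorem conj_nonneg (K : A) (k : ℕ) (M : CStarMatrix (Fin k) (Fin k) A) (hM : 0 ≤ M) :
    0 ≤ M.map (fun a => star K * a * K) := by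
  have h : M.map (fun a => star K * a * K) =
      star (CStarMatrix.ofMatrix (Matrix.diagonal (fun _ : Fin k => K))) * M *
        CStarMatrix.ofMatrix (Matrix.diagonal (fun _ : Fin k => K)) := by
    ext i j
    rw [CStarMatrix.map_apply, CStarMatrix.mul_apply, Finset.sum_eq_single j,
      CStarMatrix.mul_apply, Finset.sum_eq_single i]
    · simp [CStarMatrix.star_apply, CStarMatrix.ofMatrix_apply]
    · intro l _ hl
      simp [CStarMatrix.star_apply, CStarMatrix.ofMatrix_apply, Matrix.diagonal_apply_ne _ hl]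
    · simp
    · intro l _ hl
      simp [CStarMatrix.ofMatrix_apply, Matrix.diagonal_apply_ne _ hl]
    · simp
  rw [h]
  exact star_left_conjugate_nonneg hM _

/-- The CP map `a ↦ (1/2) (K₀* a K₀ + K₁* a K₁)`. -/
noncomputable def cpMap (K : Fin 2 → A) : A →CP A where
  toFun a := (2⁻¹ : ℂ) • ∑ y, star (K y) * a * K y
  map_add' a b := by
    rw [← smul_add, ← Finset.sum_add_distrib]
    congr 1
    exact Finset.sum_congr rfl fun y _ => by rw [mul_add, add_mul]
  map_smul' c a := by
    rw [RingHom.id_apply]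
    simp only [Fin.sum_univ_two, mul_smul_comm, smul_mul_assoc]
    rw [← smul_add, smul_comm]
  map_cstarMatrix_nonneg' k M hM := by
    have h : M.map (fun a => (2⁻¹ : ℂ) • ∑ y, star (K y) * a * K y) =
        (2⁻¹ : ℝ) • ∑ y, M.map (fun a => star (K y) * a * K y) := by
      ext i j
      rw [CStarMatrix.map_apply, Fin.sum_univ_two, Fin.sum_univ_two, CStarMatrix.smul_apply,
        CStarMatrix.add_apply, CStarMatrix.map_apply, CStarMatrix.map_apply]
      rw [← Complex.coe_smul]
      norm_num
    change 0 ≤ M.map (fun a => (2⁻¹ : ℂ) • ∑ y, star (K y) * a * K y)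
    rw [h]
    exact smul_nonneg (by norm_num) (Finset.sum_nonneg fun y _ => conj_nonneg (K y) k M hM)

theorem cpMap_apply (K : Fin 2 → A) (a : A) :
    cpMap K a = (2⁻¹ : ℂ) • ∑ y, star (K y) * a * K y := rfl

end CP

section Example

/-- the group -/
abbrev G : Type := Equiv.Perm (Fin 4)

/-- the Hilbert space -/
abbrev HG : Type := EuclideanSpace ℂ G

/-- a permutation given by its values and those of its inverse -/
def mk (f g : Fin 4 → Fin 4) (h₁ : Function.LeftInverse g f) (h₂ : Function.RightInverse g f) : G :=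
  ⟨f, g, h₁, h₂⟩

/-- the three two-element sets -/
def uu : Fin 3 → Fin 2 → G :=
  ![![mk ![1, 2, 0, 3] ![2, 0, 1, 3] (by decide) (by decide),
      mk ![2, 1, 3, 0] ![3, 1, 0, 2] (by decide) (by decide)],
    ![mk ![2, 0, 1, 3] ![1, 2, 0, 3] (by decide) (by decide),
      mk ![0, 2, 3, 1] ![0, 3, 1, 2] (by decide) (by decide)],
    ![mk ![0, 3, 1, 2] ![0, 2, 3, 1] (by decide) (by decide),
      mk ![3, 0, 2, 1] ![1, 3, 2, 0] (by decide) (by decide)]]

theorem uu_inj : ∀ i, Function.Injective (uu i) := by decide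

theorem uu_unique : ∀ i j : Fin 3, i ≠ j → ∀ x y x' y' : Fin 2,
    uu j x * uu i y = uu j x' * uu i y' → x = x' ∧ y = y' := by decide

theorem uu_comm : ∀ i j : Fin 3, ∀ x y : Fin 2, ∃ x' y' : Fin 2,
    uu j x * uu i y = uu i x' * uu j y' := by decide

/-- left translation -/
noncomputable def P (g : G) : Matrix G G ℂ := Matrix.of fun a b => if a = g * b then 1 else 0

/-- matrices act on the Hilbert space -/
noncomputable abbrev op : Matrix G G ℂ ≃⋆ₐ[ℂ] BH HG := Matrix.toEuclideanCLM (n := G) (𝕜 := ℂ)

/-- the maps -/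
noncomputable def TT (i : Fin 3) : BH HG →CP BH HG := cpMap fun y => op (P (uu i y))

theorem P_mul (g h : G) : P g * P h = P (g * h) := by
  ext a b
  rw [Matrix.mul_apply, Finset.sum_eq_single (h * b)]
  · simp [P, mul_assoc]
  · intro c _ hc
    simp [P, hc]
  · simp

theorem star_P_mul (g : G) : star (P g) * P g = 1 := by
  ext a b
  rw [Matrix.mul_apply, Finset.sum_eq_single (g * b)]
  · by_cases h : a = b
    · subst h
      rw [Matrix.one_apply_eq]
      simp [P, Matrix.star_apply]
    · rw [Matrix.one_apply_ne h]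
      simp [P, Matrix.star_apply, h, eq_comm]
  · intro c _ hc
    simp [P, hc]
  · simp

theorem TT_one (i : Fin 3) : TT i 1 = 1 := by
  rw [TT, cpMap_apply]
  have h : ∀ y, star (op (P (uu i y))) * 1 * op (P (uu i y)) = 1 := by
    intro y
    rw [mul_one, ← map_star, ← map_mul, star_P_mul, map_one]
  simp only [h, Fin.sum_univ_two]
  rw [← two_smul ℂ, smul_smul]
  norm_num

/-- the matrix of the map `T_i` -/
theorem TT_op (i : Fin 3) (M : Matrix G G ℂ) :
    TT i (op M) = op ((2⁻¹ : ℂ) • ∑ y, star (P (uu i y)) * M * P (uu i y)) := by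
  rw [TT, cpMap_apply, map_smul, map_sum]
  congr 1
  refine Finset.sum_congr rfl fun y _ => ?_
  rw [map_mul, map_mul, map_star]

theorem TT_TT (i j : Fin 3) (M : Matrix G G ℂ) :
    TT i (TT j (op M)) = op ((4⁻¹ : ℂ) • ∑ x, ∑ y,
      star (P (uu j x * uu i y)) * M * P (uu j x * uu i y)) := by
  rw [TT_op, TT_op]
  congr 1
  simp only [Fin.sum_univ_two, ← P_mul, star_mul, mul_add, add_mul, smul_add, mul_smul_comm,
    smul_mul_assoc, smul_smul, mul_assoc]
  norm_num
  abel

/-- the permutation of the index set -/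
theorem sum_comm_uu {E : Type*} [AddCommMonoid E] (i j : Fin 3) (F : G → E) :
    ∑ x, ∑ y, F (uu j x * uu i y) = ∑ x, ∑ y, F (uu i x * uu j y) := by
  by_cases hij : i = j
  · subst hij; rfl
  have key : ∀ i j : Fin 3, i ≠ j → ∑ x, ∑ y, F (uu j x * uu i y) =
      ∑ g ∈ (Finset.univ.image fun q : Fin 2 × Fin 2 => uu j q.1 * uu i q.2), F g := by
    intro i j hij
    rw [Finset.sum_image, Fintype.sum_prod_type]
    intro q _ q' _ h
    have := uu_unique i j hij _ _ _ _ h
    exact Prod.ext this.1 this.2
  rw [key i j hij, key j i (Ne.symm hij)]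
  have himg : (Finset.univ.image fun q : Fin 2 × Fin 2 => uu j q.1 * uu i q.2) =
      (Finset.univ.image fun q : Fin 2 × Fin 2 => uu i q.1 * uu j q.2) := by
    ext g
    simp only [Finset.mem_image, Finset.mem_univ, true_and]
    constructor
    · rintro ⟨⟨x, y⟩, rfl⟩
      obtain ⟨x', y', h⟩ := uu_comm i j x y
      exact ⟨(x', y'), h.symm⟩
    · rintro ⟨⟨x, y⟩, rfl⟩
      obtain ⟨x', y', h⟩ := uu_comm j i x y
      exact ⟨(x', y'), h.symm⟩
  rw [himg]

theorem TT_comm (i j : Fin 3) (a : BH HG) : TT i (TT j a) = TT j (TT i a) := by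
  obtain ⟨M, rfl⟩ := op.surjective a
  change TT i (TT j (op M)) = TT j (TT i (op M))
  rw [TT_TT, TT_TT, sum_comm_uu i j (fun g => star (P g) * M * P g)]

/-- matrix units -/
noncomputable def E (a b : G) : Matrix G G ℂ := Matrix.single a b 1

theorem E_mul (a b c d : G) : E a b * E c d = if b = c then E a d else 0 := by
  rw [E, E]
  split_ifs with h
  · subst h
    rw [Matrix.single_mul_single_same, one_mul, E]
  · rw [Matrix.single_mul_single_of_ne _ _ _ _ h]

theorem E_star (a b : G) : star (E a b) = E b a := by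
  rw [E, E, Matrix.star_eq_conjTranspose, Matrix.conjTranspose_single, star_one]

/-- the compression of a matrix to an entry -/
theorem E_mul_mul_E (k j j' l : G) (M : Matrix G G ℂ) :
    E k j * M * E j' l = M j j' • E k l := by
  rw [E, E, E]
  ext a b
  rw [Matrix.smul_apply, Matrix.mul_apply, Finset.sum_eq_single j', Matrix.mul_apply,
    Finset.sum_eq_single j]
  · by_cases ha : a = k
    · by_cases hb : b = l
      · subst ha; subst hb; simp
      · simp [Matrix.single_apply, Ne.symm hb]
    · simp [Matrix.single_apply, Ne.symm ha]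
  · intro c _ hc
    simp [Ne.symm hc]
  · simp
  · intro c _ hc
    simp [Ne.symm hc]
  · simp

theorem TT_E (i : Fin 3) (k j j' l a b : G) :
    op (E k j) * TT i (op (E a b)) * op (E j' l) = kap uu i a b j j' • op (E k l) := by
  rw [TT_op, ← map_mul, ← map_mul, E_mul_mul_E, ← map_smul]
  congr 2
  rw [Matrix.smul_apply, Matrix.sum_apply, kap, Finset.smul_sum]
  refine Finset.sum_congr rfl fun y _ => ?_
  rw [E, Matrix.mul_apply, Finset.sum_eq_single b, Matrix.mul_apply, Finset.sum_eq_single a]
  · simp only [Matrix.single_apply_same, Matrix.star_apply, P, Matrix.of_apply]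
    by_cases h1 : uu i y * j = a
    · by_cases h2 : uu i y * j' = b
      · simp [h1, h2]
      · simp [h1, h2, Ne.symm h2]
    · simp [h1, Ne.symm h1]
  · intro c _ hc
    simp [Ne.symm hc]
  · simp
  · intro c _ hc
    rw [Matrix.mul_apply, Finset.sum_eq_zero, zero_mul]
    intro d _
    simp [Ne.symm hc]
  · simp

end Example

section Main

variable {K : Type*} [NormedAddCommGroup K] [InnerProductSpace ℂ K] [CompleteSpace K]

section

variable {H : Type*} [NormedAddCommGroup H] [InnerProductSpace ℂ H] [CompleteSpace H]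

theorem adj_comp (V : H →ₗᵢ[ℂ] K) :
    (ContinuousLinearMap.adjoint V.toContinuousLinearMap) ∘L V.toContinuousLinearMap =
      ContinuousLinearMap.id ℂ H := by
  ext x
  refine ext_inner_right ℂ fun y => ?_
  rw [ContinuousLinearMap.comp_apply, ContinuousLinearMap.adjoint_inner_left]
  exact V.inner_map_map x y

theorem up_mul (V : H →ₗᵢ[ℂ] K) (a b : BH H) : up V a * up V b = up V (a * b) := by
  rw [up, up, up, ContinuousLinearMap.mul_def, ContinuousLinearMap.mul_def]
  have h := adj_comp V
  calc _ = V.toContinuousLinearMap ∘L a ∘L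
        ((ContinuousLinearMap.adjoint V.toContinuousLinearMap) ∘L V.toContinuousLinearMap) ∘L b ∘L
          (ContinuousLinearMap.adjoint V.toContinuousLinearMap) := by
        simp only [ContinuousLinearMap.comp_assoc]
    _ = _ := by
        rw [h, ContinuousLinearMap.id_comp]
        simp only [ContinuousLinearMap.comp_assoc]

theorem up_star (V : H →ₗᵢ[ℂ] K) (a : BH H) : star (up V a) = up V (star a) := by
  rw [up, up, ContinuousLinearMap.star_eq_adjoint, ContinuousLinearMap.star_eq_adjoint,
    ContinuousLinearMap.adjoint_comp, ContinuousLinearMap.adjoint_comp,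
    ContinuousLinearMap.adjoint_adjoint, ContinuousLinearMap.comp_assoc]

theorem up_add (V : H →ₗᵢ[ℂ] K) (a b : BH H) : up V (a + b) = up V a + up V b := by
  rw [up, up, up, ContinuousLinearMap.add_comp, ContinuousLinearMap.comp_add]

theorem up_smul (V : H →ₗᵢ[ℂ] K) (c : ℂ) (a : BH H) : up V (c • a) = c • up V a := by
  rw [up, up, ContinuousLinearMap.smul_comp, ContinuousLinearMap.comp_smul]

theorem up_zero (V : H →ₗᵢ[ℂ] K) : up V (0 : BH H) = 0 := by
  rw [up, ContinuousLinearMap.zero_comp, ContinuousLinearMap.comp_zero]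

theorem up_down (V : H →ₗᵢ[ℂ] K) (a b : BH H) (x : BH K) :
    up V a * x * up V b = up V (a * down V x * b) := by
  simp only [up, down, ContinuousLinearMap.mul_def, ContinuousLinearMap.comp_assoc]

theorem up_injective (V : H →ₗᵢ[ℂ] K) {a : BH H} (h : up V a = 0) : a = 0 := by
  have h1 : down V (up V a) = a := by
    rw [up, down]
    have h := adj_comp V
    calc _ = ((ContinuousLinearMap.adjoint V.toContinuousLinearMap) ∘L V.toContinuousLinearMap) ∘L
          a ∘L ((ContinuousLinearMap.adjoint V.toContinuousLinearMap) ∘L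
            V.toContinuousLinearMap) := by simp only [ContinuousLinearMap.comp_assoc]
      _ = a := by rw [h, ContinuousLinearMap.id_comp, ContinuousLinearMap.comp_id]
  rw [← h1, h, down, ContinuousLinearMap.zero_comp, ContinuousLinearMap.comp_zero]

end

theorem power_single (T : Fin 3 → BH HG → BH HG) (i : Fin 3) :
    power T (Pi.single i 1) = T i := by
  fin_cases i <;> funext a <;> simp [power]

/-- the `*`-algebra -/
abbrev Bt (𝓑 : VonNeumannAlgebra K) : Type _ := 𝓑.toStarSubalgebra

/-- the system attached to a dilation -/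
noncomputable def sys (V : HG →ₗᵢ[ℂ] K) (𝓑 : VonNeumannAlgebra K)
    (θ : (Fin 3 → ℕ) → BH K → BH K)
    (h : IsDilation (power fun i a => TT i a) V 𝓑 θ) : Sys (Bt 𝓑) G where
  e a b := ⟨up V (op (E a b)), h.corner _⟩
  θ i := fun x => ⟨θ (Pi.single i 1) x, (h.endo _).mem _ x.2⟩
  u := uu
  e_mul a b c d := by
    apply Subtype.ext
    change up V (op (E a b)) * up V (op (E c d)) = _
    rw [up_mul, ← map_mul, E_mul]
    split_ifs
    · rfl
    · rw [map_zero, up_zero]; rfl
  e_star a b := by
    apply Subtype.ext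
    change star (up V (op (E a b))) = _
    rw [up_star, ← map_star, E_star]
  θ_add i x y := Subtype.ext ((h.endo _).map_add _ x.2 _ y.2)
  θ_mul i x y := Subtype.ext ((h.endo _).map_mul _ x.2 _ y.2)
  θ_smul i c x := Subtype.ext ((h.endo _).map_smul _ _ x.2)
  θ_star i x := Subtype.ext ((h.endo _).map_star _ x.2)
  θ_comm i j x := by
    apply Subtype.ext
    change θ (Pi.single i 1) (θ (Pi.single j 1) x) = θ (Pi.single j 1) (θ (Pi.single i 1) x)
    rw [← h.add _ _ _ x.2, ← h.add _ _ _ x.2, add_comm]
  proper x hx := by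
    apply Subtype.ext
    have h1 : star (x : BH K) * (x : BH K) = 0 := congrArg Subtype.val hx
    exact (CStarRing.star_mul_self_eq_zero_iff _).1 h1
  u_inj := uu_inj
  hT i a b k j j' l := by
    apply Subtype.ext
    change up V (op (E k j)) * θ (Pi.single i 1) (up V (op (E a b))) * up V (op (E j' l)) =
      kap uu i a b j j' • up V (op (E k l))
    have h1 := h.dilates (Pi.single i 1) (op (E a b))
    rw [power_single] at h1
    rw [up_down, ← h1, TT_E, up_smul]

/-- There is no dilation. -/
theorem not_isDilation (V : HG →ₗᵢ[ℂ] K) (𝓑 : VonNeumannAlgebra K)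
    (θ : (Fin 3 → ℕ) → BH K → BH K) :
    ¬ IsDilation (power fun i a => TT i a) V 𝓑 θ := by
  intro h
  have hp : (sys V 𝓑 θ h).p ≠ 0 := by
    intro h0
    have h1 := (sys V 𝓑 θ h).p_mul_e 1 1
    rw [h0, zero_mul] at h1
    have h2 : up V (op (E 1 1)) = 0 := (congrArg Subtype.val h1).symm
    have h3 := up_injective V h2
    have h4 : E 1 1 = 0 := by
      apply op.injective
      change op (E 1 1) = op 0
      rw [h3, map_zero]
    have h5 := congrFun (congrFun h4 1) 1
    rw [E, Matrix.single_apply_same] at h5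
    exact one_ne_zero h5
  have key := (sys V 𝓑 θ h).hexagon uu_unique hp 0 0 0 1 1 1 1 1 0
    (by change uu 2 0 * uu 1 0 = uu 1 1 * uu 2 1; decide)
    (by change uu 2 1 * uu 0 0 = uu 0 1 * uu 2 1; decide)
    (by change uu 1 1 * uu 0 1 = uu 0 1 * uu 1 0; decide)
    0 0 0 1 0 0
    (by change uu 1 0 * uu 0 0 = uu 0 0 * uu 1 0; decide)
    (by change uu 2 0 * uu 0 0 = uu 0 0 * uu 2 1; decide)
    (by change uu 2 1 * uu 1 0 = uu 1 0 * uu 2 0; decide)
  exact absurd key.1 (by decide)

end Main

end Q90.NoDil
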