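import Mathlib

/-!
# Banach algebras with open multiplication: two obstructions

* a unital Banach algebra with open multiplication has no non-central idempotent;
* in a unital Banach algebra with uniformly open multiplication `‖r‖ ^ 2` is bounded by a multiple
  of `‖r ^ 2‖` for all central `r`.
-/

set_option autoImplicit false

namespace Q90.OpenConv

open Metric

/-- The multiplication `A × A → A` of the normed ring `A` is an open map. -/
def OpenMul (A : Type*) [NormedRing A] : Prop := IsOpenMap (fun q : A × A => q.1 * q.2)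

/-- The normed ring `A` has uniformly open multiplication: for every `ε > 0` there is `δ > 0` such
that `B(ab, δ) ⊆ B(a, ε) · B(b, ε)` for all `a, b`. -/
def UniformlyOpenMul (A : Type*) [NormedRing A] : Prop :=
  ∀ ε : ℝ, 0 < ε → ∃ δ : ℝ, 0 < δ ∧ ∀ a b : A, ∀ c ∈ ball (a * b) δ,
    ∃ x ∈ ball a ε, ∃ y ∈ ball b ε, x * y = c

theorem UniformlyOpenMul.openMul {A : Type*} [NormedRing A] (h : UniformlyOpenMul A) :
    OpenMul A := by
  intro U hU
  rw [Metric.isOpen_iff]
  rintro _ ⟨⟨a, b⟩, hab, rfl⟩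
  obtain ⟨ε, hε, hU'⟩ := Metric.isOpen_iff.1 hU (a, b) hab
  obtain ⟨δ, hδ, H⟩ := h ε hε
  refine ⟨δ, hδ, fun c hc => ?_⟩
  obtain ⟨x, hx, y, hy, hxy⟩ := H a b c hc
  refine ⟨(x, y), hU' ?_, hxy⟩
  rw [← ball_prod_same]
  exact ⟨hx, hy⟩

section Alg

variable {A : Type*} [NormedRing A] [NormedAlgebra ℂ A]

/-- the block computation -/
theorem block {p u v c w t' : A} (hp : p * p = p) (hpc : p * c = 0) (hcq : c * (1 - p) = 0)
    (huv : u * v = c)
    (hw : w * ((1 - p) + p * u * p) = 1)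
    (ht : (p + (1 - p) * v * (1 - p)) * t' = 1) : c = 0 := by
  have hqp : (1 - p) * p = 0 := by rw [sub_mul, hp, one_mul, sub_self]
  have hpq : p * (1 - p) = 0 := by rw [mul_sub, hp, mul_one, sub_self]
  have hqq : (1 - p) * (1 - p) = 1 - p := by rw [mul_sub, hqp, sub_zero, mul_one]
  -- `s p v = - p u q v`
  have h1 : ((1 - p) + p * u * p) * (p * v) = - (p * u * (1 - p) * v) := by
    have : p * (u * v) = 0 := by rw [huv, hpc]
    have h2 : p * u * p * v + p * u * (1 - p) * v = 0 := by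
      rw [← this]; noncomm_ring
    rw [add_mul, ← mul_assoc (1 - p), hqp, zero_mul, zero_add, mul_assoc (p * u) p (p * v),
      ← mul_assoc p p v, hp, ← mul_assoc]
    exact eq_neg_of_add_eq_zero_left h2
  have h2 : p * v = - (w * (p * u * (1 - p) * v)) := by
    have := congrArg (fun x => w * x) h1
    rw [← mul_assoc, hw, one_mul, mul_neg] at this
    exact this
  -- `m v = c`
  set m : A := (1 - p) * u * (1 - p) - (1 - p) * u * w * p * u * (1 - p) with hm
  have hmv : m * v = c := by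
    have h3 : (1 - p) * c = c := by rw [sub_mul, one_mul, hpc, sub_zero]
    have h4 : (1 - p) * u * (p * v) + (1 - p) * u * (1 - p) * v = c := by
      have : (1 - p) * u * (p * v) + (1 - p) * u * (1 - p) * v = (1 - p) * (u * v) := by
        noncomm_ring
      rw [this, huv, h3]
    rw [h2] at h4
    rw [hm, ← h4]
    noncomm_ring
  have hmq : m * (1 - p) = m := by
    rw [hm, sub_mul, mul_assoc ((1 - p) * u) (1 - p) (1 - p), hqq,
      mul_assoc ((1 - p) * u * w * p * u) (1 - p) (1 - p), hqq]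
  have hmp : m * p = 0 := by
    rw [← hmq, mul_assoc, hqp, mul_zero]
  have h5 : m * (p + (1 - p) * v * (1 - p)) = 0 := by
    rw [mul_add, hmp, zero_add, ← mul_assoc, ← mul_assoc, hmq, hmv, hcq]
  have h6 : m = 0 := by
    have := congrArg (fun x => x * t') h5
    rwa [mul_assoc, ht, mul_one, zero_mul] at this
  rw [← hmv, h6, zero_mul]

theorem not_openMul_of_corner [CompleteSpace A] (p z : A) (hp : p * p = p)
    (hz : (1 - p) * z * p ≠ 0) : ¬ OpenMul A := by
  intro hopen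
  set c : A := (1 - p) * z * p with hc
  have hqp : (1 - p) * p = 0 := by rw [sub_mul, hp, one_mul, sub_self]
  have hpq : p * (1 - p) = 0 := by rw [mul_sub, hp, mul_one, sub_self]
  have hqq : (1 - p) * (1 - p) = 1 - p := by rw [mul_sub, hqp, sub_zero, mul_one]
  let U : Set (A × A) := {q | ‖p - p * q.1 * p‖ < 1 ∧
    ‖(1 - p) - (1 - p) * q.2 * (1 - p)‖ < 1}
  have hU : IsOpen U := by
    refine IsOpen.inter ?_ ?_
    · exact isOpen_lt (f := fun q : A × A => ‖p - p * q.1 * p‖) (g := fun _ => (1 : ℝ))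
        (by fun_prop) continuous_const
    · exact isOpen_lt (f := fun q : A × A => ‖(1 - p) - (1 - p) * q.2 * (1 - p)‖)
        (g := fun _ => (1 : ℝ)) (by fun_prop) continuous_const
  have hmem : (p, 1 - p) ∈ U := by
    constructor
    · change ‖p - p * p * p‖ < 1
      rw [hp, hp, sub_self, norm_zero]; exact one_pos
    · change ‖(1 - p) - (1 - p) * (1 - p) * (1 - p)‖ < 1
      rw [hqq, hqq, sub_self, norm_zero]; exact one_pos
  have h0 : (0 : A) ∈ (fun q : A × A => q.1 * q.2) '' U := ⟨(p, 1 - p), hmem, hpq⟩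
  have hnhds : (fun q : A × A => q.1 * q.2) '' U ∈ nhds (0 : A) := (hopen U hU).mem_nhds h0
  have htend : Filter.Tendsto (fun r : ℂ => r • c) (nhdsWithin 0 {0}ᶜ) (nhds (0 : A)) := by
    have : Continuous (fun r : ℂ => r • c) := by fun_prop
    have h := this.tendsto 0
    rw [zero_smul] at h
    exact h.mono_left nhdsWithin_le_nhds
  obtain ⟨r, hr, hr0⟩ := ((htend.eventually hnhds).and self_mem_nhdsWithin).exists
  obtain ⟨⟨u, v⟩, ⟨hu, hv⟩, huv⟩ := hr
  simp only at huv hu hv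
  have hr0' : r ≠ 0 := hr0
  -- the two invertible elements
  have hs : (1 - p) + p * u * p = 1 - (p - p * u * p) := by abel
  have ht : p + (1 - p) * v * (1 - p) = 1 - ((1 - p) - (1 - p) * v * (1 - p)) := by abel
  obtain ⟨s, hs'⟩ := isUnit_one_sub_of_norm_lt_one hu
  obtain ⟨t, ht'⟩ := isUnit_one_sub_of_norm_lt_one hv
  have hw : (↑s⁻¹ : A) * ((1 - p) + p * u * p) = 1 := by
    rw [hs, ← hs', Units.inv_mul]
  have ht1 : (p + (1 - p) * v * (1 - p)) * (↑t⁻¹ : A) = 1 := by
    rw [ht, ← ht', Units.mul_inv]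
  have hpc : p * (r • c) = 0 := by
    rw [mul_smul_comm, hc, ← mul_assoc, ← mul_assoc, hpq, zero_mul, zero_mul, smul_zero]
  have hcq : (r • c) * (1 - p) = 0 := by
    rw [smul_mul_assoc, hc, mul_assoc, hpq, mul_zero, smul_zero]
  have := block hp hpc hcq huv hw ht1
  exact hz ((smul_eq_zero.1 this).resolve_left hr0')

/-- A unital Banach algebra with open multiplication has no non-central idempotent. -/
theorem not_openMul_of_idempotent [CompleteSpace A] (p z : A) (hp : p * p = p)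
    (hz : p * z ≠ z * p) : ¬ OpenMul A := by
  by_cases h : (1 - p) * z * p = 0
  · have h2 : (1 - (1 - p)) * z * (1 - p) ≠ 0 := by
      intro h3
      apply hz
      have h4 : p * z - p * z * p = 0 := by rw [← h3]; noncomm_ring
      have h5 : z * p - p * z * p = 0 := by rw [← h]; noncomm_ring
      rw [sub_eq_zero.1 h4, sub_eq_zero.1 h5]
    refine not_openMul_of_corner (1 - p) z ?_ h2
    rw [mul_sub, mul_one, sub_mul, hp, one_mul, sub_self, sub_zero]
  · exact not_openMul_of_corner p z hp h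

/-- In a unital Banach algebra with open multiplication every element `a` with `a ^ n = 1` for some
`n ≥ 1` is central. -/
theorem commute_of_pow_eq_one [CompleteSpace A] (hA : OpenMul A) (a z : A) (n : ℕ) (hn : n ≠ 0)
    (han : a ^ n = 1) : a * z = z * a := by
  set ζ : ℂ := Complex.exp (2 * Real.pi * Complex.I / n) with hζ
  have hprim : IsPrimitiveRoot ζ n := Complex.isPrimitiveRoot_exp n hn
  have hn' : (n : ℂ) ≠ 0 := Nat.cast_ne_zero.2 hn
  have hζ0 : ζ ≠ 0 := hprim.ne_zero hn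
  -- the idempotents
  let P : ℕ → A := fun k => (n : ℂ)⁻¹ • ∑ j ∈ Finset.range n, ((ζ⁻¹) ^ k) ^ j • a ^ j
  have hPa : ∀ k, P k * a = ζ ^ k • P k := by
    intro k
    have hη : ((ζ⁻¹) ^ k) ^ n = 1 := by
      rw [← pow_mul, mul_comm, pow_mul, inv_pow, hprim.pow_eq_one, inv_one, one_pow]
    have hη0 : (ζ⁻¹) ^ k * ζ ^ k = 1 := by
      rw [← mul_pow, inv_mul_cancel₀ hζ0, one_pow]
    have h1 : (∑ j ∈ Finset.range n, ((ζ⁻¹) ^ k) ^ j • a ^ j) * a =
        ζ ^ k • ∑ j ∈ Finset.range n, ((ζ⁻¹) ^ k) ^ j • a ^ j := by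
      have h2 : ∀ j, (((ζ⁻¹) ^ k) ^ j • a ^ j) * a = ζ ^ k • (((ζ⁻¹) ^ k) ^ (j + 1) • a ^ (j + 1)) := by
        intro j
        rw [smul_mul_assoc, ← pow_succ, smul_smul]
        congr 1
        rw [pow_succ ((ζ⁻¹) ^ k) j]
        rw [mul_comm, mul_assoc, hη0, mul_one]
      rw [Finset.sum_mul, Finset.sum_congr rfl (fun j _ => h2 j), ← Finset.smul_sum]
      congr 1
      have h3 := Finset.sum_range_succ' (fun j => ((ζ⁻¹) ^ k) ^ j • a ^ j) n
      have h4 := Finset.sum_range_succ (fun j => ((ζ⁻¹) ^ k) ^ j • a ^ j) n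
      rw [h4, hη, han, pow_zero, pow_zero] at h3
      exact (add_right_cancel h3).symm
    change ((n : ℂ)⁻¹ • _) * a = ζ ^ k • ((n : ℂ)⁻¹ • _)
    rw [smul_mul_assoc, h1, smul_comm]
  have hPaj : ∀ k j, P k * a ^ j = (ζ ^ k) ^ j • P k := by
    intro k j
    induction j with
    | zero => simp
    | succ j ih => rw [pow_succ a, ← mul_assoc, ih, smul_mul_assoc, hPa, smul_smul, pow_succ]
  have hPP : ∀ k, P k * P k = P k := by
    intro k
    have h1 : P k * P k = (n : ℂ)⁻¹ • ∑ j ∈ Finset.range n, ((ζ⁻¹) ^ k) ^ j • (P k * a ^ j) := by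
      change P k * ((n : ℂ)⁻¹ • _) = _
      rw [mul_smul_comm, Finset.mul_sum]
      simp only [mul_smul_comm]
    rw [h1]
    have h2 : ∀ j ∈ Finset.range n, ((ζ⁻¹) ^ k) ^ j • (P k * a ^ j) = P k := by
      intro j _
      rw [hPaj, smul_smul, ← mul_pow, ← mul_pow, inv_mul_cancel₀ hζ0, one_pow, one_pow, one_smul]
    rw [Finset.sum_congr rfl h2, Finset.sum_const, Finset.card_range, ← Nat.cast_smul_eq_nsmul ℂ,
      smul_smul, inv_mul_cancel₀ hn', one_smul]
  have hcomm : ∀ k, P k * z = z * P k := by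
    intro k
    by_contra h
    exact not_openMul_of_idempotent (P k) z (hPP k) h hA
  -- the sum of the idempotents
  have hsum : ∑ k ∈ Finset.range n, P k = 1 := by
    have h1 : ∑ k ∈ Finset.range n, P k =
        (n : ℂ)⁻¹ • ∑ j ∈ Finset.range n, (∑ k ∈ Finset.range n, ((ζ⁻¹) ^ j) ^ k) • a ^ j := by
      change ∑ k ∈ Finset.range n, (n : ℂ)⁻¹ • (∑ j ∈ Finset.range n, ((ζ⁻¹) ^ k) ^ j • a ^ j) = _
      rw [← Finset.smul_sum, Finset.sum_comm]
      congr 1
      refine Finset.sum_congr rfl fun j _ => ?_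
      rw [Finset.sum_smul]
      refine Finset.sum_congr rfl fun k _ => ?_
      rw [← pow_mul, ← pow_mul, mul_comm]
    rw [h1, Finset.sum_eq_single_of_mem 0 (Finset.mem_range.2 (Nat.pos_of_ne_zero hn))]
    · simp [hn']
    · intro j hj hj0
      have hne : (ζ⁻¹) ^ j ≠ 1 := by
        intro h
        have h' : ζ ^ j = 1 := by
          rw [inv_pow] at h
          exact inv_eq_one.1 h
        exact hprim.pow_ne_one_of_pos_of_lt hj0 (Finset.mem_range.1 hj) h'
      have hη : ((ζ⁻¹) ^ j) ^ n = 1 := by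
        rw [← pow_mul, mul_comm, pow_mul, inv_pow, hprim.pow_eq_one, inv_one, one_pow]
      rw [geom_sum_eq hne, hη, sub_self, zero_div, zero_smul]
  have ha : a = ∑ k ∈ Finset.range n, ζ ^ k • P k := by
    calc a = (∑ k ∈ Finset.range n, P k) * a := by rw [hsum, one_mul]
      _ = _ := by rw [Finset.sum_mul]; exact Finset.sum_congr rfl fun k _ => hPa k
  rw [ha, Finset.sum_mul, Finset.mul_sum]
  refine Finset.sum_congr rfl fun k _ => ?_
  rw [smul_mul_assoc, mul_smul_comm, hcomm]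

/-- the square of the norm of a central element is bounded by a multiple of the norm of its
square -/
theorem UniformlyOpenMul.norm_sq_le [NormOneClass A] (h : UniformlyOpenMul A) :
    ∃ C : ℝ, 0 < C ∧ ∀ r : A, (∀ x, r * x = x * r) → ‖r‖ ^ 2 ≤ C * ‖r * r‖ := by
  obtain ⟨δ, hδ, H⟩ := h 1 one_pos
  set K : ℝ := 2 / δ with hK
  have hKpos : 0 < K := by positivity
  refine ⟨2 * K ^ 2 * (6 + 2 * K) ^ 2, by positivity, fun r hr => ?_⟩
  by_contra hcon
  push Not at hcon
  have hr0 : 0 < ‖r‖ := by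
    rcases (norm_nonneg r).eq_or_lt with h0 | h0
    · rw [← h0] at hcon
      have : (0 : ℝ) ≤ 2 * K ^ 2 * (6 + 2 * K) ^ 2 * ‖r * r‖ := by positivity
      nlinarith
    · exact h0
  set t : ℝ := (6 + 2 * K) / ‖r‖ with ht
  have htpos : 0 < t := by positivity
  -- the points
  set R : A := (t : ℂ) • r with hR
  have hRc : ∀ x, R * x = x * R := fun x => by
    rw [hR, smul_mul_assoc, hr, mul_smul_comm]
  have hRn : ‖R‖ = 6 + 2 * K := by
    rw [hR, norm_smul, Complex.norm_real, Real.norm_of_nonneg htpos.le, ht]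
    field_simp
  have hRR : K ^ 2 * ‖R * R‖ ≤ 1 / 2 := by
    have h1 : R * R = ((t * t : ℝ) : ℂ) • (r * r) := by
      rw [hR, smul_mul_smul_comm]; push_cast; rfl
    rw [h1, norm_smul, Complex.norm_real, Real.norm_of_nonneg (by positivity)]
    have h2 : K ^ 2 * (t * t * ‖r * r‖) = K ^ 2 * (6 + 2 * K) ^ 2 * ‖r * r‖ / ‖r‖ ^ 2 := by
      rw [ht]; field_simp
    rw [h2, div_le_iff₀ (by positivity)]
    linarith
  have hmem : ((δ / 2 : ℝ) : ℂ) • (1 : A) ∈ ball (R * 0) δ := by
    rw [mul_zero, mem_ball_zero_iff, norm_smul, norm_one, mul_one, Complex.norm_real,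
      Real.norm_of_nonneg (by positivity)]
    linarith
  obtain ⟨u, hu, v, hv, huv⟩ := H R 0 _ hmem
  rw [mem_ball_iff_norm] at hu
  rw [mem_ball_zero_iff] at hv
  set a : A := u - R with ha
  set w : A := (K : ℂ) • v with hw
  have huw : u * w = 1 := by
    rw [hw, mul_smul_comm, huv, smul_smul, hK]
    have : (((2 / δ : ℝ) : ℂ) * ((δ / 2 : ℝ) : ℂ)) = 1 := by
      rw [← Complex.ofReal_mul]
      have : 2 / δ * (δ / 2) = 1 := by field_simp
      rw [this]; simp
    rw [this, one_smul]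
  have hwn : ‖w‖ ≤ K := by
    rw [hw, norm_smul, Complex.norm_real, Real.norm_of_nonneg hKpos.le]
    nlinarith [norm_nonneg v]
  have hau : u = R + a := by rw [ha]; abel
  set q : A := R * w with hq
  have hq1 : q = 1 - a * w := by
    have : R * w + a * w = 1 := by rw [← add_mul, ← hau, huw]
    rw [hq]; exact eq_sub_of_add_eq this
  have hqn : ‖q‖ ≤ 1 + K := by
    rw [hq1]
    calc ‖1 - a * w‖ ≤ ‖(1 : A)‖ + ‖a * w‖ := norm_sub_le _ _
      _ ≤ 1 + ‖a‖ * ‖w‖ := by rw [norm_one]; gcongr; exact norm_mul_le _ _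
      _ ≤ 1 + 1 * K := by gcongr
      _ = 1 + K := by ring
  have hqq : ‖q * q‖ ≤ 1 / 2 := by
    have h1 : q * q = (R * R) * (w * w) := by
      rw [hq, mul_assoc R w (R * w), ← mul_assoc w R w, ← hRc w, mul_assoc R w w, ← mul_assoc]
    rw [h1]
    calc ‖(R * R) * (w * w)‖ ≤ ‖R * R‖ * (‖w‖ * ‖w‖) :=
          (norm_mul_le _ _).trans (mul_le_mul_of_nonneg_left (norm_mul_le _ _) (norm_nonneg _))
      _ ≤ ‖R * R‖ * (K * K) := by gcongr
      _ = K ^ 2 * ‖R * R‖ := by ring
      _ ≤ 1 / 2 := hRR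
  have huq : u * (1 - q) = a := by
    have hcom : u * a = a * u := by
      rw [hau, add_mul, mul_add, hRc a]
    have : 1 - q = a * w := by rw [hq1]; abel
    rw [this, ← mul_assoc, hcom, mul_assoc, huw, mul_one]
  have hkey : u = a * (1 + q) + u * (q * q) := by
    rw [← huq]; noncomm_ring
  have hun : ‖u‖ ≤ 1 * (1 + (1 + K)) + ‖u‖ * (1 / 2) := by
    calc ‖u‖ = ‖a * (1 + q) + u * (q * q)‖ := by rw [← hkey]
      _ ≤ ‖a * (1 + q)‖ + ‖u * (q * q)‖ := norm_add_le _ _
      _ ≤ ‖a‖ * ‖1 + q‖ + ‖u‖ * ‖q * q‖ := add_le_add (norm_mul_le _ _) (norm_mul_le _ _)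
      _ ≤ 1 * (1 + (1 + K)) + ‖u‖ * (1 / 2) := by
          have h1 : ‖1 + q‖ ≤ 1 + (1 + K) := by
            calc ‖1 + q‖ ≤ ‖(1 : A)‖ + ‖q‖ := norm_add_le _ _
              _ ≤ 1 + (1 + K) := by rw [norm_one]; gcongr
          gcongr
  have hfin : ‖R‖ ≤ ‖u‖ + 1 := by
    have : R = u - a := by rw [ha]; abel
    calc ‖R‖ = ‖u - a‖ := by rw [← this]
      _ ≤ ‖u‖ + ‖a‖ := norm_sub_le _ _
      _ ≤ ‖u‖ + 1 := by gcongr
  rw [hRn] at hfin
  linarith

end Alg

/-- Open multiplication passes to quotients. -/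
theorem OpenMul.of_surjective {A B : Type*} [NormedRing A] [NormedRing B] (π : A → B)
    (hmul : ∀ x y, π (x * y) = π x * π y) (hcont : Continuous π) (hopen : IsOpenMap π)
    (hsurj : Function.Surjective π) (h : OpenMul A) : OpenMul B := by
  intro U hU
  have h1 : (fun q : B × B => q.1 * q.2) '' U =
      π '' ((fun q : A × A => q.1 * q.2) '' ((fun q : A × A => (π q.1, π q.2)) ⁻¹' U)) := by
    ext c
    constructor
    · rintro ⟨⟨x, y⟩, hxy, rfl⟩
      obtain ⟨x', rfl⟩ := hsurj x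
      obtain ⟨y', rfl⟩ := hsurj y
      exact ⟨x' * y', ⟨(x', y'), hxy, rfl⟩, hmul _ _⟩
    · rintro ⟨_, ⟨⟨x, y⟩, hxy, rfl⟩, rfl⟩
      exact ⟨(π x, π y), hxy, (hmul _ _).symm⟩
  rw [h1]
  refine hopen _ (h _ (hU.preimage ?_))
  exact (hcont.comp continuous_fst).prodMk (hcont.comp continuous_snd)

end Q90.OpenConv
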