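import Mathlib
import Pool.Agent.Q90.OpenConv
import Pool.Agent.H937R3.EllOne

/-!
# Group algebras `ℓ¹(G)` with (uniformly) open convolution
-/

set_option autoImplicit false

namespace Q90.OpenConv

open Metric H937R3 H937R3.EllOne

section Basic

variable {G : Type*} [DecidableEq G] [Group G]

instance completeEllOne : CompleteSpace (EllOne G) := inferInstanceAs (CompleteSpace (L1 G))

instance normOneEllOne : NormOneClass (EllOne G) := ⟨by rw [one_def, EllOne.norm_delta]⟩

theorem coeff_delta (x y : G) : coeff (delta x) y = if y = x then 1 else 0 := L1.delta_apply x y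

theorem coeff_add (f g : EllOne G) (x : G) : coeff (f + g) x = coeff f x + coeff g x := rfl

theorem coeff_smul (c : ℂ) (f : EllOne G) (x : G) : coeff (c • f) x = c * coeff f x := rfl

theorem ext' {f g : EllOne G} (h : ∀ x, coeff f x = coeff g x) : f = g :=
  lp.ext (funext h)

theorem delta_injective {x y : G} (h : (delta x : EllOne G) = delta y) : x = y := by
  have h1 := congrArg (fun f => coeff f x) h
  simp only [coeff_delta, if_true] at h1
  by_contra hne
  rw [if_neg hne] at h1
  exact one_ne_zero h1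

theorem coeff_delta_mul (g : G) (f : EllOne G) (x : G) :
    coeff (delta g * f) x = coeff f (g⁻¹ * x) := by
  rw [conv_apply, tsum_eq_single g]
  · rw [coeff_delta, if_pos rfl, one_mul]
  · intro y hy
    rw [coeff_delta, if_neg hy, zero_mul]

theorem coeff_mul_delta (g : G) (f : EllOne G) (x : G) :
    coeff (f * delta g) x = coeff f (x * g⁻¹) := by
  rw [conv_apply, tsum_eq_single (x * g⁻¹)]
  · rw [coeff_delta, if_pos (by group), mul_one]
  · intro y hy
    rw [coeff_delta, if_neg, mul_zero]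
    rintro h
    apply hy
    rw [← h]; group

theorem delta_central {g : G} (hg : g ∈ Set.center G) (f : EllOne G) :
    delta g * f = f * delta g := by
  refine ext' fun x => ?_
  rw [coeff_delta_mul, coeff_mul_delta]
  congr 1
  have h := (Set.mem_center_iff.1 hg).comm x
  have h2 : g * x = x * g := h
  calc g⁻¹ * x = g⁻¹ * (x * g) * g⁻¹ := by group
    _ = g⁻¹ * (g * x) * g⁻¹ := by rw [h2]
    _ = x * g⁻¹ := by group

theorem norm_delta_mul (g : G) (f : EllOne G) : ‖delta g * f‖ = ‖f‖ := by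
  apply le_antisymm
  · calc ‖delta g * f‖ ≤ ‖(delta g : EllOne G)‖ * ‖f‖ := norm_mul_le _ _
      _ = ‖f‖ := by rw [EllOne.norm_delta, one_mul]
  · calc ‖f‖ = ‖delta g⁻¹ * (delta g * f)‖ := by
          rw [← mul_assoc, delta_mul_delta, inv_mul_cancel, ← one_def, one_mul]
      _ ≤ ‖(delta g⁻¹ : EllOne G)‖ * ‖delta g * f‖ := norm_mul_le _ _
      _ = ‖delta g * f‖ := by rw [EllOne.norm_delta, one_mul]

theorem norm_add_of_disjoint {f g : EllOne G} (h : ∀ x, coeff f x = 0 ∨ coeff g x = 0) :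
    ‖f + g‖ = ‖f‖ + ‖g‖ := by
  have hf : Summable (fun x => ‖coeff f x‖) := L1.summable_norm f
  have hg : Summable (fun x => ‖coeff g x‖) := L1.summable_norm g
  rw [norm_eq, norm_eq, norm_eq, ← hf.tsum_add hg]
  refine tsum_congr fun x => ?_
  rw [coeff_add]
  rcases h x with h | h <;> simp [h]

/-- a central element supported in the finite set `S` and multiplied by a new central factor -/
theorem step_two (r : EllOne G) (S : Finset G) (hr : ∀ x, x ∉ S → coeff r x = 0)
    (hrc : ∀ x, r * x = x * r) (g : G) (hg : g ∈ Set.center G) (hg2 : g * g = 1)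
    (hgS : ∀ s ∈ S, ∀ s' ∈ S, g * s ≠ s') :
    ∃ (r' : EllOne G) (S' : Finset G), (∀ x, x ∉ S' → coeff r' x = 0) ∧
      (∀ x, r' * x = x * r') ∧ ‖r'‖ = 2 * ‖r‖ ∧ ‖r' * r'‖ ≤ 2 * ‖r * r‖ := by
  set d : EllOne G := delta g with hd
  have hdd : d * d = 1 := by rw [hd, delta_mul_delta, hg2, one_def]
  have hdc : ∀ x, d * x = x * d := fun x => delta_central hg x
  refine ⟨r + Complex.I • (d * r), S ∪ S.image (fun s => g * s), ?_, ?_, ?_, ?_⟩
  · intro x hx
    rw [Finset.mem_union, not_or, Finset.mem_image] at hx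
    rw [coeff_add, coeff_smul, hd, coeff_delta_mul, hr x hx.1, hr (g⁻¹ * x), mul_zero, add_zero]
    intro h
    exact hx.2 ⟨_, h, by group⟩
  · intro x
    rw [add_mul, mul_add, smul_mul_assoc, mul_smul_comm, hrc, mul_assoc d r x, hrc x,
      ← mul_assoc, hdc x, mul_assoc]
  · rw [norm_add_of_disjoint, norm_smul, Complex.norm_I, one_mul, hd, norm_delta_mul]
    · ring
    · intro x
      by_cases hx : x ∈ S
      · right
        rw [coeff_smul, hd, coeff_delta_mul, hr, mul_zero]
        intro h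
        exact hgS _ h _ hx (by group)
      · left; exact hr x hx
  · have h1 : (r + Complex.I • (d * r)) * (r + Complex.I • (d * r)) =
        ((2 : ℂ) * Complex.I) • (d * (r * r)) := by
      have h2 : (d * r) * (d * r) = r * r := by
        rw [mul_assoc, ← mul_assoc r d r, ← hdc r, mul_assoc d r r, ← mul_assoc, hdd, one_mul]
      have h3 : r * (d * r) = d * (r * r) := by
        rw [← mul_assoc, ← hdc r, mul_assoc]
      rw [add_mul, mul_add, mul_add, mul_smul_comm, smul_mul_assoc, smul_mul_smul_comm, h2, h3,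
        Complex.I_mul_I, mul_assoc d r r, mul_smul, two_smul]
      simp only [neg_smul, one_smul]
      abel
    rw [h1, norm_smul, norm_mul, Complex.norm_I, mul_one, hd, norm_delta_mul]
    simp

theorem step_three (r : EllOne G) (S : Finset G) (hr : ∀ x, x ∉ S → coeff r x = 0)
    (hrc : ∀ x, r * x = x * r) (g : G) (hg : g ∈ Set.center G)
    (hgS : ∀ s ∈ S, ∀ s' ∈ S, g * s ≠ s') (hgS2 : ∀ s ∈ S, ∀ s' ∈ S, g * (g * s) ≠ s') :
    ∃ (r' : EllOne G) (S' : Finset G), (∀ x, x ∉ S' → coeff r' x = 0) ∧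
      (∀ x, r' * x = x * r') ∧ ‖r'‖ = 3 * ‖r‖ ∧ ‖r' * r'‖ ≤ 7 * ‖r * r‖ := by
  set d : EllOne G := delta g with hd
  have hdc : ∀ x, d * x = x * d := fun x => delta_central hg x
  have hdn : ∀ x, ‖d * x‖ = ‖x‖ := fun x => norm_delta_mul g x
  refine ⟨(r + d * r) + (-1 : ℂ) • (d * (d * r)),
    (S ∪ S.image (fun s => g * s)) ∪ S.image (fun s => g * (g * s)), ?_, ?_, ?_, ?_⟩
  · intro x hx
    rw [Finset.mem_union, Finset.mem_union, not_or, not_or, Finset.mem_image,
      Finset.mem_image] at hx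
    rw [coeff_add, coeff_add, coeff_smul, hd, coeff_delta_mul, coeff_delta_mul, coeff_delta_mul,
      hr x hx.1.1, hr (g⁻¹ * x), hr (g⁻¹ * (g⁻¹ * x)), mul_zero, add_zero, add_zero]
    · intro h
      exact hx.2 ⟨_, h, by group⟩
    · intro h
      exact hx.1.2 ⟨_, h, by group⟩
  · intro x
    have h1 : d * r * x = x * (d * r) := by
      rw [mul_assoc, hrc, ← mul_assoc, hdc x, mul_assoc]
    have h2 : d * (d * r) * x = x * (d * (d * r)) := by
      rw [mul_assoc, h1, ← mul_assoc, hdc x, mul_assoc]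
    rw [add_mul, mul_add, add_mul, mul_add, smul_mul_assoc, mul_smul_comm, h1, h2, hrc]
  · rw [norm_add_of_disjoint, norm_add_of_disjoint, norm_smul, hdn, hdn, hdn]
    · simp; ring
    · intro x
      by_cases hx : x ∈ S
      · right
        rw [hd, coeff_delta_mul, hr]
        intro h
        exact hgS _ h _ hx (by group)
      · left; exact hr x hx
    · intro x
      by_cases hx : g⁻¹ * (g⁻¹ * x) ∈ S
      · left
        rw [coeff_add, hd, coeff_delta_mul, hr, hr, add_zero]
        · intro h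
          exact hgS _ hx _ h (by group)
        · intro h
          exact hgS2 _ hx _ h (by group)
      · right
        rw [coeff_smul, hd, coeff_delta_mul, coeff_delta_mul, hr _ hx, mul_zero]
  · have h1 : ((r + d * r) + (-1 : ℂ) • (d * (d * r))) * ((r + d * r) + (-1 : ℂ) • (d * (d * r)))
        = r * r + (d * (r * r) + d * (r * r)) - d * (d * (r * r)) -
          (d * (d * (d * (r * r))) + d * (d * (d * (r * r)))) + d * (d * (d * (d * (r * r)))) := by
      have h2 : (r + d * r) + (-1 : ℂ) • (d * (d * r)) = (1 + d - d * d) * r := by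
        rw [neg_smul, one_smul]; noncomm_ring
      have h3 : ∀ y : EllOne G, y * r = r * y := fun y => (hrc y).symm
      rw [h2]
      calc (1 + d - d * d) * r * ((1 + d - d * d) * r)
          = (1 + d - d * d) * (r * (1 + d - d * d)) * r := by simp only [mul_assoc]
        _ = (1 + d - d * d) * ((1 + d - d * d) * r) * r := by rw [h3 (1 + d - d * d)]
        _ = _ := by noncomm_ring
    rw [h1]
    set R : EllOne G := r * r
    have e1 : ‖d * R‖ = ‖R‖ := hdn R
    have e2 : ‖d * (d * R)‖ = ‖R‖ := by rw [hdn, hdn]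
    have e3 : ‖d * (d * (d * R))‖ = ‖R‖ := by rw [hdn, hdn, hdn]
    have e4 : ‖d * (d * (d * (d * R)))‖ = ‖R‖ := by rw [hdn, hdn, hdn, hdn]
    calc _ ≤ ‖R + (d * R + d * R) - d * (d * R) -
          (d * (d * (d * R)) + d * (d * (d * R)))‖ + ‖d * (d * (d * (d * R)))‖ := norm_add_le _ _
      _ ≤ ‖R + (d * R + d * R) - d * (d * R)‖ +
          ‖d * (d * (d * R)) + d * (d * (d * R))‖ + ‖d * (d * (d * (d * R)))‖ := by
            gcongr; exact norm_sub_le _ _
      _ ≤ (‖R + (d * R + d * R)‖ + ‖d * (d * R)‖) +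
          (‖d * (d * (d * R))‖ + ‖d * (d * (d * R))‖) + ‖d * (d * (d * (d * R)))‖ := by
            gcongr
            · exact norm_sub_le _ _
            · exact norm_add_le _ _
      _ ≤ ((‖R‖ + (‖d * R‖ + ‖d * R‖)) + ‖d * (d * R)‖) +
          (‖d * (d * (d * R))‖ + ‖d * (d * (d * R))‖) + ‖d * (d * (d * (d * R)))‖ := by
            gcongr
            refine (norm_add_le _ _).trans ?_
            gcongr
            exact norm_add_le _ _
      _ = 7 * ‖R‖ := by rw [e1, e2, e3, e4]; ring

/-- choice of a new central element -/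
theorem exists_new (hG : (Set.center G).Infinite) (S : Finset G) :
    ∃ g ∈ Set.center G, (∀ s ∈ S, ∀ s' ∈ S, g * s ≠ s') ∧
      (g * g = 1 ∨ ∀ s ∈ S, ∀ s' ∈ S, g * (g * s) ≠ s') := by
  set T : Finset G := (S ×ˢ S).image (fun p => p.2 * p.1⁻¹) with hT
  have hmemT : ∀ g : G, g ∉ T → ∀ s ∈ S, ∀ s' ∈ S, g * s ≠ s' := by
    intro g hg s hs s' hs' h
    apply hg
    rw [hT, Finset.mem_image]
    exact ⟨(s, s'), Finset.mem_product.2 ⟨hs, hs'⟩, by rw [← h]; group⟩
  by_cases h2 : ({g : G | g ∈ Set.center G ∧ g * g = 1}).Infinite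
  · obtain ⟨g, hg, hgT⟩ := h2.exists_notMem_finset T
    exact ⟨g, hg.1, hmemT g hgT, Or.inl hg.2⟩
  · rw [Set.not_infinite] at h2
    have hfin : ({g : G | g ∈ Set.center G ∧ g * g ∈ T}).Finite := by
      have h3 : {g : G | g ∈ Set.center G ∧ g * g ∈ T} ⊆
          ⋃ t ∈ (T : Set G), {g : G | g ∈ Set.center G ∧ g * g = t} := by
        rintro g ⟨hg, hgT⟩
        simp only [Set.mem_iUnion]
        exact ⟨g * g, hgT, hg, rfl⟩
      refine Set.Finite.subset (Set.Finite.biUnion T.finite_toSet fun t _ => ?_) h3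
      by_cases hne : ({g : G | g ∈ Set.center G ∧ g * g = t}).Nonempty
      · obtain ⟨g0, hg0, hg0t⟩ := hne
        refine (h2.image (fun k => g0 * k)).subset ?_
        rintro g ⟨hg, hgt⟩
        have hc : ∀ x : G, g0 * x = x * g0 := fun x => (Set.mem_center_iff.1 hg0).comm x
        have hmul : g0⁻¹ * g ∈ Set.center G := by
          have h5 : g0 ∈ Subgroup.center G := hg0
          have h6 : g ∈ Subgroup.center G := hg
          exact (Subgroup.center G).mul_mem ((Subgroup.center G).inv_mem h5) h6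
        refine ⟨g0⁻¹ * g, ⟨hmul, ?_⟩, by simp⟩
        calc g0⁻¹ * g * (g0⁻¹ * g) = g0⁻¹ * (g * (g0⁻¹ * g)) := by group
          _ = g0⁻¹ * ((g0⁻¹ * g) * g) := by
              rw [show g * (g0⁻¹ * g) = (g0⁻¹ * g) * g from
                ((Set.mem_center_iff.1 hg).comm (g0⁻¹ * g))]
          _ = (g0 * g0)⁻¹ * (g * g) := by group
          _ = 1 := by rw [hg0t, hgt, inv_mul_cancel]
      · rw [Set.not_nonempty_iff_eq_empty] at hne
        rw [hne]; exact Set.finite_empty
    obtain ⟨g, hg, hgT⟩ := hG.exists_notMem_finset (hfin.toFinset ∪ T)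
    rw [Finset.mem_union, not_or, Set.Finite.mem_toFinset] at hgT
    refine ⟨g, hg, hmemT g hgT.2, Or.inr ?_⟩
    have h7 : g * g ∉ T := fun h => hgT.1 ⟨hg, h⟩
    intro s hs s' hs'
    rw [← mul_assoc]
    exact hmemT _ h7 s hs s' hs'

theorem exists_small_square (hG : (Set.center G).Infinite) (n : ℕ) :
    ∃ (r : EllOne G) (S : Finset G), (∀ x, x ∉ S → coeff r x = 0) ∧
      (∀ x, r * x = x * r) ∧ 1 ≤ ‖r‖ ∧ ‖r * r‖ ≤ (7 / 9 : ℝ) ^ n * ‖r‖ ^ 2 := by
  induction n with
  | zero =>
    refine ⟨1, {1}, ?_, fun x => by rw [one_mul, mul_one], ?_, ?_⟩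
    · intro x hx
      rw [one_def, coeff_delta, if_neg]
      simpa using hx
    · rw [norm_one]
    · rw [mul_one, norm_one]; norm_num
  | succ n ih =>
    obtain ⟨r, S, hr, hrc, h1, h2⟩ := ih
    obtain ⟨g, hg, hgS, hor⟩ := exists_new hG S
    rcases hor with hg2 | hg2
    · obtain ⟨r', S', hr', hrc', h3, h4⟩ := step_two r S hr hrc g hg hg2 hgS
      refine ⟨r', S', hr', hrc', by rw [h3]; linarith, h4.trans ?_⟩
      rw [h3, pow_succ]
      have : (0 : ℝ) ≤ (7 / 9 : ℝ) ^ n * ‖r‖ ^ 2 := by positivity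
      nlinarith
    · obtain ⟨r', S', hr', hrc', h3, h4⟩ := step_three r S hr hrc g hg hgS hg2
      refine ⟨r', S', hr', hrc', by rw [h3]; linarith, h4.trans ?_⟩
      rw [h3, pow_succ]
      nlinarith

/-- If the centre of `G` is infinite, convolution on `ℓ¹(G)` is not uniformly open. -/
theorem not_uniformlyOpen_of_center (hG : (Set.center G).Infinite) :
    ¬ UniformlyOpenMul (EllOne G) := by
  intro h
  obtain ⟨C, hC, H⟩ := h.norm_sq_le
  obtain ⟨n, hn⟩ := exists_pow_lt_of_lt_one (one_div_pos.2 hC) (by norm_num : (7 / 9 : ℝ) < 1)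
  obtain ⟨r, S, -, hrc, h1, h2⟩ := exists_small_square hG n
  have h3 := H r hrc
  have h4 : ‖r‖ ^ 2 ≤ C * ((7 / 9 : ℝ) ^ n * ‖r‖ ^ 2) := h3.trans (by gcongr)
  have h5 : C * (7 / 9 : ℝ) ^ n < 1 := by
    rw [lt_div_iff₀ hC] at hn
    linarith
  have h6 : 0 < ‖r‖ ^ 2 := by positivity
  nlinarith

/-- If convolution on `ℓ¹(G)` is open, the elements of finite order of `G` are central. -/
theorem commute_of_openMul (h : OpenMul (EllOne G)) (g k : G) (n : ℕ) (hn : n ≠ 0)
    (hk : k ^ n = 1) : g * k = k * g := by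
  have hpow : ∀ m : ℕ, (delta k : EllOne G) ^ m = delta (k ^ m) := by
    intro m
    induction m with
    | zero => rw [pow_zero, pow_zero, one_def]
    | succ m ih => rw [pow_succ, ih, delta_mul_delta, pow_succ]
  have h1 := commute_of_pow_eq_one h (delta k) (delta g) n hn (by rw [hpow, hk, ← one_def])
  rw [delta_mul_delta, delta_mul_delta] at h1
  exact (delta_injective h1).symm

end Basic

/-- If `G` is an infinite group all of whose elements have finite order, convolution on `ℓ¹(G)` is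
not uniformly open. -/
theorem not_uniformlyOpen_of_torsion (G : Type*) [DecidableEq G] [Group G] [Infinite G]
    (hG : ∀ g : G, ∃ n : ℕ, n ≠ 0 ∧ g ^ n = 1) : ¬ UniformlyOpenMul (EllOne G) := by
  intro h
  have hcomm : ∀ g k : G, g * k = k * g := by
    intro g k
    obtain ⟨n, hn, hk⟩ := hG k
    exact commute_of_openMul h.openMul g k n hn hk
  refine not_uniformlyOpen_of_center (G := G) ?_ h
  have : Set.center G = Set.univ := by
    rw [Set.eq_univ_iff_forall]
    intro g
    have h1 : g ∈ Subgroup.center G := by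
      rw [Subgroup.mem_center_iff]
      exact fun x => hcomm x g
    exact h1
  rw [this]
  exact Set.infinite_univ

section Quotient

variable {G Q : Type*} [DecidableEq G] [DecidableEq Q] [Group G] [Group Q]

/-- the map `ℓ¹(G) → ℓ¹(Q)` given by a map `G → Q` -/
noncomputable def push (φ : G → Q) : EllOne G →L[ℂ] EllOne Q :=
  EllOne.lift (fun g => delta (φ g)) 1 (fun g => by rw [EllOne.norm_delta])

theorem push_delta (φ : G → Q) (g : G) : push φ (delta g) = delta (φ g) :=
  EllOne.lift_delta _ _ _ _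

omit [DecidableEq Q] [Group Q] in
theorem ext_fun {E : Type*} [NormedAddCommGroup E] [NormedSpace ℂ E] (F₁ F₂ : EllOne G → E)
    (ha₁ : ∀ x y, F₁ (x + y) = F₁ x + F₁ y) (hs₁ : ∀ (c : ℂ) x, F₁ (c • x) = c • F₁ x)
    (hb₁ : ∃ C : ℝ, ∀ x, ‖F₁ x‖ ≤ C * ‖x‖)
    (ha₂ : ∀ x y, F₂ (x + y) = F₂ x + F₂ y) (hs₂ : ∀ (c : ℂ) x, F₂ (c • x) = c • F₂ x)
    (hb₂ : ∃ C : ℝ, ∀ x, ‖F₂ x‖ ≤ C * ‖x‖)
    (h : ∀ g, F₁ (delta g) = F₂ (delta g)) (x : EllOne G) : F₁ x = F₂ x := by
  obtain ⟨C₁, hC₁⟩ := hb₁
  obtain ⟨C₂, hC₂⟩ := hb₂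
  let T₁ : EllOne G →L[ℂ] E :=
    LinearMap.mkContinuous { toFun := F₁, map_add' := ha₁, map_smul' := hs₁ } C₁ hC₁
  let T₂ : EllOne G →L[ℂ] E :=
    LinearMap.mkContinuous { toFun := F₂, map_add' := ha₂, map_smul' := hs₂ } C₂ hC₂
  have : T₁ = T₂ := EllOne.clm_ext h
  exact congrArg (fun T : EllOne G →L[ℂ] E => T x) this

theorem push_add (φ : G → Q) (x y : EllOne G) : push φ (x + y) = push φ x + push φ y :=
  (push φ).map_add x y

theorem push_smul (φ : G → Q) (c : ℂ) (x : EllOne G) : push φ (c • x) = c • push φ x :=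
  (push φ).map_smul c x

theorem norm_push_le (φ : G → Q) (x : EllOne G) : ‖push φ x‖ ≤ ‖x‖ := by
  have h : ∀ g : G, ‖(delta (φ g) : EllOne Q)‖ ≤ 1 := fun g => by rw [EllOne.norm_delta]
  have h2 := L1.lift_bound (E := EllOne Q) (fun g => (delta (φ g) : EllOne Q)) 1 h x
  rw [one_mul] at h2
  exact h2

theorem push_mul (φ : G →* Q) (x y : EllOne G) : push φ (x * y) = push φ x * push φ y := by
  have h : ∀ (g : G) (y : EllOne G), push φ (delta g * y) = delta (φ g) * push φ y := by
    intro g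
    refine ext_fun (fun y => push φ (delta g * y)) (fun y => delta (φ g) * push φ y) ?_ ?_
      ⟨1, fun y => ?_⟩ ?_ ?_ ⟨1, fun y => ?_⟩ ?_
    · intro x y
      simp only [mul_add, push_add]
    · intro c x
      simp only [mul_smul_comm, push_smul]
    · refine (norm_push_le _ _).trans ?_
      rw [norm_delta_mul, one_mul]
    · intro x y
      simp only [mul_add, push_add]
    · intro c x
      simp only [mul_smul_comm, push_smul]
    · change ‖delta (φ g) * push φ y‖ ≤ _
      rw [norm_delta_mul, one_mul]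
      exact norm_push_le _ _
    · intro k
      simp only [delta_mul_delta, push_delta, map_mul]
  refine ext_fun (fun x => push φ (x * y)) (fun x => push φ x * push φ y) ?_ ?_
      ⟨‖y‖, fun x => ?_⟩ ?_ ?_ ⟨‖push φ y‖, fun x => ?_⟩ ?_ x
  · intro x z
    simp only [add_mul, push_add]
  · intro c x
    simp only [smul_mul_assoc, push_smul]
  · refine (norm_push_le _ _).trans ((norm_mul_le _ _).trans ?_)
    rw [mul_comm]
  · intro x z
    simp only [add_mul, push_add]
  · intro c x
    simp only [smul_mul_assoc, push_smul]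
  · refine (norm_mul_le _ _).trans ?_
    calc ‖push φ x‖ * ‖push φ y‖ ≤ ‖x‖ * ‖push φ y‖ :=
          mul_le_mul_of_nonneg_right (norm_push_le _ _) (norm_nonneg _)
      _ = _ := by ring
  · intro g
    simp only [h, push_delta]

theorem push_surjective (φ : G → Q) (hφ : Function.Surjective φ) :
    Function.Surjective (push φ) := by
  obtain ⟨s, hs⟩ := hφ.hasRightInverse
  intro f
  refine ⟨push s f, ?_⟩
  refine ext_fun (fun f => push φ (push s f)) (fun f => f) ?_ ?_
      ⟨1, fun x => ?_⟩ ?_ ?_ ⟨1, fun x => ?_⟩ ?_ f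
  · intro x y
    simp only [push_add]
  · intro c x
    simp only [push_smul]
  · rw [one_mul]
    exact (norm_push_le _ _).trans (norm_push_le _ _)
  · intro x y; rfl
  · intro c x; rfl
  · rw [one_mul]
  · intro q
    simp only [push_delta]
    rw [hs q]

theorem openMul_quotient (φ : G →* Q) (hφ : Function.Surjective φ) (h : OpenMul (EllOne G)) :
    OpenMul (EllOne Q) :=
  h.of_surjective (push φ) (push_mul φ) (push φ).continuous
    ((push φ).isOpenMap (push_surjective φ hφ)) (push_surjective φ hφ)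

end Quotient

end Q90.OpenConv
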