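import Mathlib

/-!
If the nowhere vanishing functions are dense in `C(X, ℂ)` then multiplication is uniformly open.
-/

set_option autoImplicit false

open Set Filter Topology Metric

namespace Q90.OpenMul

variable {X : Type*} [TopologicalSpace X] [CompactSpace X]

/-- density of the nowhere vanishing functions -/
def DenseNV (X : Type*) [TopologicalSpace X] [CompactSpace X] : Prop :=
  ∀ (f : C(X, ℂ)) (ε : ℝ), 0 < ε → ∃ g : C(X, ℂ), (∀ x, g x ≠ 0) ∧ ∀ x, ‖f x - g x‖ ≤ ε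

theorem exists_pos_le (f : C(X, ℂ)) (hf : ∀ x, f x ≠ 0) : ∃ c : ℝ, 0 < c ∧ ∀ x, c ≤ ‖f x‖ := by
  rcases isEmpty_or_nonempty X with h | h
  · exact ⟨1, one_pos, fun x => (h.false x).elim⟩
  · obtain ⟨x, -, hx⟩ := isCompact_univ.exists_isMinOn univ_nonempty
      (f.continuous.norm.continuousOn (s := (univ : Set X)))
    exact ⟨‖f x‖, norm_pos_iff.2 (hf x), fun y => hx (mem_univ y)⟩

/-- The exact factorization of a nowhere vanishing function. -/
theorem key (hd : DenseNV X) (f g h : C(X, ℂ)) (hg : ∀ x, g x ≠ 0)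
    (hh : ∀ x, h x ≠ 0) {ε : ℝ} (hε : 0 < ε) (hb : ∀ x, ‖h x - f x * g x‖ ≤ ε ^ 2 / 8) :
    ∃ f₁ g₁ : C(X, ℂ), (∀ x, f₁ x ≠ 0) ∧ (∀ x, g₁ x ≠ 0) ∧ (∀ x, f₁ x * g₁ x = h x) ∧
      (∀ x, ‖f₁ x - f x‖ ≤ 3 * ε) ∧ ∀ x, ‖g₁ x - g x‖ ≤ 3 * ε := by
  obtain ⟨ch, hch0, hch⟩ := exists_pos_le h hh
  -- the weight θ
  let s : X → ℝ := fun x => max (‖g x‖ - ε / 2) 0
  let t : X → ℝ := fun x => max (‖f x‖ - ε / 2) 0
  let θ : X → ℝ := fun x => s x / max (s x + t x) (ε / 2)
  have hsc : Continuous s := (g.continuous.norm.sub continuous_const).max continuous_const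
  have htc : Continuous t := (f.continuous.norm.sub continuous_const).max continuous_const
  have hden : ∀ x, 0 < max (s x + t x) (ε / 2) := fun x => lt_max_of_lt_right (half_pos hε)
  have hθc : Continuous θ :=
    hsc.div ((hsc.add htc).max continuous_const) fun x => (hden x).ne'
  have hs0 : ∀ x, 0 ≤ s x := fun x => le_max_right _ _
  have ht0 : ∀ x, 0 ≤ t x := fun x => le_max_right _ _
  have hθ0 : ∀ x, 0 ≤ θ x := fun x => div_nonneg (hs0 x) (hden x).le
  have hθ1 : ∀ x, θ x ≤ 1 := fun x => by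
    refine (div_le_one (hden x)).2 ?_
    exact le_max_of_le_left (by linarith [ht0 x])
  -- the target function
  let P : C(X, ℂ) := ⟨fun x => f x + (θ x : ℂ) * ((h x - f x * g x) / g x), by
    refine f.continuous.add ((Complex.continuous_ofReal.comp hθc).mul ?_)
    exact (h.continuous.sub (f.continuous.mul g.continuous)).div g.continuous hg⟩
  have hP : ∀ x, P x = f x + (θ x : ℂ) * ((h x - f x * g x) / g x) := fun x => rfl
  have hgpos : ∀ x, 0 < ‖g x‖ := fun x => norm_pos_iff.2 (hg x)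
  have hPf : ∀ x, ‖P x - f x‖ ≤ ε / 4 := by
    intro x
    rw [hP, add_sub_cancel_left, norm_mul, norm_div, Complex.norm_real, Real.norm_eq_abs,
      abs_of_nonneg (hθ0 x)]
    by_cases hgx : ‖g x‖ ≤ ε / 2
    · have : θ x = 0 := by
        change s x / _ = 0
        have : s x = 0 := max_eq_right (by linarith)
        rw [this, zero_div]
      rw [this, zero_mul]
      positivity
    · push Not at hgx
      have h1 : ‖h x - f x * g x‖ / ‖g x‖ ≤ (ε ^ 2 / 8) / (ε / 2) :=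
        div_le_div₀ (by positivity) (hb x) (by positivity) hgx.le
      have h2 : (ε ^ 2 / 8) / (ε / 2) = ε / 4 := by
        field_simp
        norm_num
      have h3 : 0 ≤ ‖h x - f x * g x‖ / ‖g x‖ := by positivity
      calc θ x * (‖h x - f x * g x‖ / ‖g x‖) ≤ 1 * (ε / 4) :=
            mul_le_mul (hθ1 x) (by linarith) h3 zero_le_one
        _ = ε / 4 := one_mul _
  -- lower bound for P
  set c : ℝ := min (ε / 4) (ch / (‖g‖ + 1)) with hc
  have hc0 : 0 < c := lt_min (by positivity) (by positivity)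
  have hF : ∀ x, (ε ≤ ‖f x‖ ∨ ε ≤ ‖g x‖) → c ≤ ‖P x‖ ∧ ‖h x / P x - g x‖ ≤ ε / 2 := by
    intro x hx
    by_cases hfx : ‖f x‖ ≤ ε / 2
    · -- here θ = 1 and P = h / g
      have hgx : ε ≤ ‖g x‖ := hx.resolve_left (by linarith)
      have ht : t x = 0 := max_eq_right (by linarith)
      have hs : s x = ‖g x‖ - ε / 2 := max_eq_left (by linarith)
      have hθ : θ x = 1 := by
        change s x / max (s x + t x) (ε / 2) = 1
        rw [ht, add_zero, max_eq_left (by linarith), div_self (by linarith)]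
      have hPx : P x = h x / g x := by
        rw [hP, hθ]
        field_simp [hg x]
        push_cast
        ring
      constructor
      · rw [hPx, norm_div]
        refine (min_le_right _ _).trans ?_
        have h4 : ‖g x‖ ≤ ‖g‖ + 1 := (g.norm_coe_le_norm x).trans (by linarith)
        exact div_le_div₀ (norm_nonneg _) (hch x) (hgpos x) h4
      · rw [hPx]
        have h5 : h x / (h x / g x) = g x := by
          field_simp [hg x, hh x]
        rw [h5, sub_self, norm_zero]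
        positivity
    · push Not at hfx
      have hPx : ε / 4 ≤ ‖P x‖ := by
        have h1 := hPf x
        have h2 : ‖f x‖ - ‖P x - f x‖ ≤ ‖P x‖ := by
          have := norm_sub_norm_le (f x) (f x - P x)
          rw [sub_sub_cancel, norm_sub_rev (f x) (P x)] at this
          exact this
        linarith
      have hP0 : P x ≠ 0 := norm_pos_iff.1 (lt_of_lt_of_le (by positivity) hPx)
      refine ⟨(min_le_left _ _).trans hPx, ?_⟩
      have h6 : h x / P x - g x = ((1 - θ x : ℝ) : ℂ) * (h x - f x * g x) / P x := by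
        have h7 : g x * P x = f x * g x + (θ x : ℂ) * (h x - f x * g x) := by
          rw [hP]
          field_simp [hg x]
        rw [eq_div_iff hP0, sub_mul, div_mul_cancel₀ _ hP0, h7]
        push_cast
        ring
      rw [h6, norm_div, norm_mul, Complex.norm_real, Real.norm_eq_abs,
        abs_of_nonneg (by linarith [hθ1 x])]
      have h8 : (1 - θ x) * ‖h x - f x * g x‖ ≤ 1 * (ε ^ 2 / 8) :=
        mul_le_mul (by linarith [hθ0 x]) (hb x) (norm_nonneg _) zero_le_one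
      have h9 : (1 - θ x) * ‖h x - f x * g x‖ / ‖P x‖ ≤ (1 * (ε ^ 2 / 8)) / (ε / 4) :=
        div_le_div₀ (by positivity) h8 (by positivity) hPx
      have h10 : (1 * (ε ^ 2 / 8)) / (ε / 4) = ε / 2 := by
        field_simp
        norm_num
      linarith
  -- approximate P by G
  set η : ℝ := min (min (c / 2) (ε / 4)) (ε * c ^ 2 / (4 * (‖h‖ + 1))) with hη
  have hη0 : 0 < η := lt_min (lt_min (by positivity) (by positivity)) (by positivity)
  have hη1 : η ≤ c / 2 := (min_le_left _ _).trans (min_le_left _ _)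
  have hη2 : η ≤ ε / 4 := (min_le_left _ _).trans (min_le_right _ _)
  have hη3 : η ≤ ε * c ^ 2 / (4 * (‖h‖ + 1)) := min_le_right _ _
  obtain ⟨G, hG0, hPG⟩ := hd P η hη0
  have hGpos : ∀ x, 0 < ‖G x‖ := fun x => norm_pos_iff.2 (hG0 x)
  have hFG : ∀ x, (ε ≤ ‖f x‖ ∨ ε ≤ ‖g x‖) → ‖G x - f x‖ ≤ ε / 2 ∧ ‖h x / G x - g x‖ ≤ ε := by
    intro x hx
    obtain ⟨h1, h2⟩ := hF x hx
    have hP0 : P x ≠ 0 := norm_pos_iff.1 (lt_of_lt_of_le hc0 h1)
    constructor
    · have h3 : G x - f x = (P x - f x) - (P x - G x) := by ring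
      rw [h3]
      refine (norm_sub_le _ _).trans ?_
      linarith [hPf x, hPG x]
    · have h4 : c / 2 ≤ ‖G x‖ := by
        have := norm_sub_norm_le (P x) (P x - G x)
        rw [sub_sub_cancel] at this
        linarith [hPG x]
      have h5 : h x / G x - g x = h x * (P x - G x) / (G x * P x) + (h x / P x - g x) := by
        have := hG0 x
        field_simp
        ring
      rw [h5]
      refine (norm_add_le _ _).trans ?_
      have h6 : ‖h x * (P x - G x) / (G x * P x)‖ ≤ ε / 2 := by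
        rw [norm_div, norm_mul, norm_mul]
        have h7 : ‖h x‖ * ‖P x - G x‖ ≤ (‖h‖ + 1) * η :=
          mul_le_mul ((h.norm_coe_le_norm x).trans (by linarith)) (hPG x) (norm_nonneg _)
            (by positivity)
        have h8 : (‖h‖ + 1) * η ≤ ε * c ^ 2 / 4 := by
          have := mul_le_mul_of_nonneg_left hη3 (show 0 ≤ ‖h‖ + 1 by positivity)
          have h9 : (‖h‖ + 1) * (ε * c ^ 2 / (4 * (‖h‖ + 1))) = ε * c ^ 2 / 4 := by
            field_simp
          linarith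
        have h10 : c / 2 * c ≤ ‖G x‖ * ‖P x‖ := mul_le_mul h4 h1 hc0.le (norm_nonneg _)
        have h11 : ‖h x‖ * ‖P x - G x‖ / (‖G x‖ * ‖P x‖) ≤ (ε * c ^ 2 / 4) / (c / 2 * c) :=
          div_le_div₀ (by positivity) (h7.trans h8) (by positivity) h10
        have h12 : (ε * c ^ 2 / 4) / (c / 2 * c) = ε / 2 := by
          field_simp
          norm_num
        linarith
      linarith
  -- the modulus
  let β : X → ℝ := fun x => 2 * max ε ‖f x‖
  let α : X → ℝ := fun x => ‖h x‖ / (2 * max ε ‖g x‖)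
  let m : X → ℝ := fun x => max (α x) (min (β x) ‖G x‖)
  have hmaxg : ∀ x, 0 < 2 * max ε ‖g x‖ := fun x =>
    mul_pos two_pos (lt_max_of_lt_left hε)
  have hβc : Continuous β := continuous_const.mul (continuous_const.max f.continuous.norm)
  have hαc : Continuous α :=
    h.continuous.norm.div (continuous_const.mul (continuous_const.max g.continuous.norm))
      fun x => (hmaxg x).ne'
  have hmc : Continuous m := hαc.max (hβc.min G.continuous.norm)
  have hα0 : ∀ x, 0 < α x := fun x => div_pos (norm_pos_iff.2 (hh x)) (hmaxg x)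
  have hm0 : ∀ x, 0 < m x := fun x => lt_max_of_lt_left (hα0 x)
  let f₁ : C(X, ℂ) := ⟨fun x => ((m x / ‖G x‖ : ℝ) : ℂ) * G x, by
    refine (Complex.continuous_ofReal.comp ?_).mul G.continuous
    exact hmc.div G.continuous.norm fun x => (hGpos x).ne'⟩
  have hf₁ : ∀ x, f₁ x = ((m x / ‖G x‖ : ℝ) : ℂ) * G x := fun x => rfl
  have hf₁n : ∀ x, ‖f₁ x‖ = m x := by
    intro x
    rw [hf₁, norm_mul, Complex.norm_real, Real.norm_eq_abs,
      abs_of_pos (div_pos (hm0 x) (hGpos x)), div_mul_cancel₀ _ (hGpos x).ne']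
  have hf₁0 : ∀ x, f₁ x ≠ 0 := fun x => norm_pos_iff.1 (by rw [hf₁n]; exact hm0 x)
  let g₁ : C(X, ℂ) := ⟨fun x => h x / f₁ x, h.continuous.div f₁.continuous hf₁0⟩
  have hg₁ : ∀ x, g₁ x = h x / f₁ x := fun x => rfl
  have hF₁ : ∀ x, (ε ≤ ‖f x‖ ∨ ε ≤ ‖g x‖) → f₁ x = G x := by
    intro x hx
    obtain ⟨h1, h2⟩ := hFG x hx
    have h3 : ‖G x‖ ≤ β x := by
      have h4 : ‖G x‖ ≤ ‖f x‖ + ε / 2 := by
        have := norm_add_le (G x - f x) (f x)
        rw [sub_add_cancel] at this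
        linarith
      change _ ≤ 2 * max ε ‖f x‖
      have h5 := le_max_left ε ‖f x‖
      have h6 := le_max_right ε ‖f x‖
      linarith
    have h7 : α x ≤ ‖G x‖ := by
      change ‖h x‖ / (2 * max ε ‖g x‖) ≤ ‖G x‖
      rw [div_le_iff₀ (hmaxg x)]
      have h8 : ‖h x / G x‖ ≤ ‖g x‖ + ε := by
        have := norm_add_le (h x / G x - g x) (g x)
        rw [sub_add_cancel] at this
        linarith
      rw [norm_div, div_le_iff₀ (hGpos x)] at h8
      have h5 := le_max_left ε ‖g x‖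
      have h6 := le_max_right ε ‖g x‖
      have h9 : (‖g x‖ + ε) * ‖G x‖ ≤ (2 * max ε ‖g x‖) * ‖G x‖ :=
        mul_le_mul_of_nonneg_right (by linarith) (norm_nonneg _)
      linarith
    have h10 : m x = ‖G x‖ := by
      change max (α x) (min (β x) ‖G x‖) = ‖G x‖
      rw [min_eq_right h3, max_eq_right h7]
    rw [hf₁, h10, div_self (hGpos x).ne']
    simp
  refine ⟨f₁, g₁, hf₁0, ?_, ?_, ?_, ?_⟩
  · intro x
    rw [hg₁]
    exact div_ne_zero (hh x) (hf₁0 x)
  · intro x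
    rw [hg₁, mul_div_cancel₀ _ (hf₁0 x)]
  · intro x
    by_cases hx : ε ≤ ‖f x‖ ∨ ε ≤ ‖g x‖
    · rw [hF₁ x hx]
      linarith [(hFG x hx).1]
    · push Not at hx
      obtain ⟨hx1, hx2⟩ := hx
      have h1 : β x = 2 * ε := by
        change 2 * max ε ‖f x‖ = 2 * ε
        rw [max_eq_left hx1.le]
      have h2 : α x ≤ 2 * ε := by
        change ‖h x‖ / (2 * max ε ‖g x‖) ≤ 2 * ε
        rw [max_eq_left hx2.le, div_le_iff₀ (by positivity)]
        have h3 : ‖h x‖ ≤ ‖h x - f x * g x‖ + ‖f x * g x‖ := by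
          have := norm_add_le (h x - f x * g x) (f x * g x)
          rwa [sub_add_cancel] at this
        rw [norm_mul] at h3
        have h4 : ‖f x‖ * ‖g x‖ ≤ ε * ε := mul_le_mul hx1.le hx2.le (norm_nonneg _) hε.le
        nlinarith [hb x]
      have h5 : ‖f₁ x‖ ≤ 2 * ε := by
        rw [hf₁n]
        exact max_le h2 ((min_le_left _ _).trans h1.le)
      refine (norm_sub_le _ _).trans ?_
      linarith
  · intro x
    by_cases hx : ε ≤ ‖f x‖ ∨ ε ≤ ‖g x‖
    · rw [hg₁, hF₁ x hx]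
      linarith [(hFG x hx).2]
    · push Not at hx
      obtain ⟨hx1, hx2⟩ := hx
      have h1 : ‖g₁ x‖ ≤ 2 * ε := by
        rw [hg₁, norm_div, hf₁n, div_le_iff₀ (hm0 x)]
        have h2 : α x ≤ m x := le_max_left _ _
        have h3 : ‖h x‖ = 2 * ε * α x := by
          change ‖h x‖ = 2 * ε * (‖h x‖ / (2 * max ε ‖g x‖))
          rw [max_eq_left hx2.le]
          field_simp
        rw [h3]
        exact mul_le_mul_of_nonneg_left h2 (by positivity)
      refine (norm_sub_le _ _).trans ?_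
      linarith

/-- One step, with norms. -/
theorem key' (hd : DenseNV X) (f g h : C(X, ℂ)) (hg : ∀ x, g x ≠ 0) (hh : ∀ x, h x ≠ 0) {ε : ℝ}
    (hε : 0 < ε) (hb : ‖h - f * g‖ ≤ ε ^ 2 / 72) :
    ∃ f₁ g₁ : C(X, ℂ), (∀ x, f₁ x ≠ 0) ∧ (∀ x, g₁ x ≠ 0) ∧ f₁ * g₁ = h ∧
      ‖f₁ - f‖ ≤ ε ∧ ‖g₁ - g‖ ≤ ε := by
  obtain ⟨f₁, g₁, h1, h2, h3, h4, h5⟩ := key hd f g h hg hh (show 0 < ε / 3 by positivity) (by
    intro x
    have h1 : ‖(h - f * g) x‖ ≤ ‖h - f * g‖ := ContinuousMap.norm_coe_le_norm _ x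
    have h2 : (ε / 3) ^ 2 / 8 = ε ^ 2 / 72 := by ring
    rw [h2]
    exact h1.trans hb)
  refine ⟨f₁, g₁, h1, h2, ContinuousMap.ext h3, ?_, ?_⟩
  · refine (ContinuousMap.norm_le _ hε.le).2 fun x => ?_
    have := h4 x
    have h6 : 3 * (ε / 3) = ε := by ring
    rw [h6] at this
    exact this
  · refine (ContinuousMap.norm_le _ hε.le).2 fun x => ?_
    have := h5 x
    have h6 : 3 * (ε / 3) = ε := by ring
    rw [h6] at this
    exact this

theorem DenseNV.norm (hd : DenseNV X) (f : C(X, ℂ)) {ε : ℝ} (hε : 0 < ε) :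
    ∃ g : C(X, ℂ), (∀ x, g x ≠ 0) ∧ ‖f - g‖ ≤ ε := by
  obtain ⟨g, h1, h2⟩ := hd f ε hε
  exact ⟨g, h1, (ContinuousMap.norm_le _ hε.le).2 h2⟩

/-- Successive approximation. -/
theorem main (hd : DenseNV X) (a b h : C(X, ℂ)) {ε : ℝ} (hε : 0 < ε)
    (hb : ‖h - a * b‖ < ε ^ 2 / 72) :
    ∃ f g : C(X, ℂ), f * g = h ∧ ‖f - a‖ < ε ∧ ‖g - b‖ < ε := by
  -- room
  obtain ⟨ε₀, hε₀, hε₀ε, hb₀⟩ : ∃ ε₀, 0 < ε₀ ∧ ε₀ < ε ∧ ‖h - a * b‖ < ε₀ ^ 2 / 72 := by
    have h1 : Tendsto (fun e : ℝ => e ^ 2 / 72) (𝓝[<] ε) (𝓝 (ε ^ 2 / 72)) := by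
      apply Tendsto.mono_left _ nhdsWithin_le_nhds
      exact ((continuous_id.pow 2).div_const 72).tendsto ε
    have h2 : ∀ᶠ e in 𝓝[<] ε, ‖h - a * b‖ < e ^ 2 / 72 := h1.eventually (lt_mem_nhds hb)
    have h3 : ∀ᶠ e in 𝓝[<] ε, e ∈ Ioo 0 ε := Ioo_mem_nhdsLT hε
    obtain ⟨e, he1, he2⟩ := (h2.and h3).exists
    exact ⟨e, he2.1, he2.2, he1⟩
  set r : ℝ := ε - ε₀ with hr
  have hr0 : 0 < r := by linarith
  -- starting point: invertible second factor near b
  have hcont : Tendsto (fun v : C(X, ℂ) => ‖h - a * v‖) (𝓝 b) (𝓝 ‖h - a * b‖) := by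
    have : Continuous fun v : C(X, ℂ) => ‖h - a * v‖ := by fun_prop
    exact this.tendsto b
  obtain ⟨ρ, hρ0, hρ⟩ := Metric.eventually_nhds_iff.1 (hcont.eventually (gt_mem_nhds hb₀))
  obtain ⟨b₀, hb₀0, hb₀b⟩ := hd.norm b (show 0 < min (ρ / 2) (r / 4) by positivity)
  have hb₀ρ : ‖h - a * b₀‖ < ε₀ ^ 2 / 72 := by
    apply hρ
    rw [dist_comm, dist_eq_norm]
    have := hb₀b.trans (min_le_left _ _)
    linarith
  have hb₀r : ‖b - b₀‖ ≤ r / 4 := hb₀b.trans (min_le_right _ _)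
  -- the radii
  let R : ℕ → ℝ := fun n => r / 8 * (1 / 2) ^ n
  have hR0 : ∀ n, 0 < R n := fun n => by
    change 0 < r / 8 * (1 / 2) ^ n
    positivity
  let K : ℕ → ℝ := fun n => (R n) ^ 2 / 144
  have hK0 : ∀ n, 0 < K n := fun n => by
    have := hR0 n
    change 0 < (R n) ^ 2 / 144
    positivity
  have hKm : ∀ n, K (n + 1) ≤ K n := by
    intro n
    have h1 : R (n + 1) ≤ R n := by
      change r / 8 * (1 / 2) ^ (n + 1) ≤ r / 8 * (1 / 2) ^ n
      rw [pow_succ]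
      have : 0 < r / 8 * (1 / 2 : ℝ) ^ n := hR0 n
      nlinarith
    have h2 := hR0 (n + 1)
    change (R (n + 1)) ^ 2 / 144 ≤ (R n) ^ 2 / 144
    have h3 : (R (n + 1)) ^ 2 ≤ (R n) ^ 2 := pow_le_pow_left₀ h2.le h1 2
    linarith
  -- first step
  obtain ⟨h₀, hh₀0, hh₀⟩ := hd.norm h
    (show 0 < min (K 0) (ε₀ ^ 2 / 72 - ‖h - a * b₀‖) from lt_min (hK0 0) (by linarith))
  obtain ⟨f₀, g₀, hf₀, hg₀, hfg₀, hf₀a, hg₀b⟩ := key' hd a b₀ h₀ hb₀0 hh₀0 hε₀ (by
    have h1 : h₀ - a * b₀ = (h - a * b₀) - (h - h₀) := by ring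
    rw [h1]
    refine (norm_sub_le _ _).trans ?_
    have := hh₀.trans (min_le_right _ _)
    linarith)
  -- the iteration
  let Q : ℕ → C(X, ℂ) × C(X, ℂ) → Prop := fun n p => (∀ x, p.2 x ≠ 0) ∧ ‖h - p.1 * p.2‖ ≤ K n
  have hstep : ∀ n p, Q n p → ∃ p' : C(X, ℂ) × C(X, ℂ), Q (n + 1) p' ∧ ‖p'.1 - p.1‖ ≤ R n ∧
      ‖p'.2 - p.2‖ ≤ R n := by
    rintro n p ⟨hp1, hp2⟩
    obtain ⟨h', hh'0, hh'⟩ := hd.norm h (hK0 (n + 1))
    obtain ⟨f', g', -, hg', hfg', hf'1, hg'1⟩ := key' hd p.1 p.2 h' hp1 hh'0 (hR0 n) (by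
      have h1 : h' - p.1 * p.2 = (h - p.1 * p.2) - (h - h') := by ring
      rw [h1]
      refine (norm_sub_le _ _).trans ?_
      have h2 : K n = (R n) ^ 2 / 144 := rfl
      have h3 := hKm n
      linarith)
    refine ⟨(f', g'), ⟨hg', ?_⟩, hf'1, hg'1⟩
    change ‖h - f' * g'‖ ≤ K (n + 1)
    rw [hfg']
    exact hh'
  choose! F hF using hstep
  let seq : ℕ → C(X, ℂ) × C(X, ℂ) := fun n => Nat.rec (f₀, g₀) (fun n p => F n p) n
  have hseq0 : seq 0 = (f₀, g₀) := rfl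
  have hseqS : ∀ n, seq (n + 1) = F n (seq n) := fun n => rfl
  have hQ : ∀ n, Q n (seq n) := by
    intro n
    induction n with
    | zero =>
      refine ⟨hg₀, ?_⟩
      change ‖h - f₀ * g₀‖ ≤ K 0
      rw [hfg₀]
      exact hh₀.trans (min_le_left _ _)
    | succ n ih =>
      rw [hseqS]
      exact (hF n (seq n) ih).1
  have hd1 : ∀ n, dist (seq n).1 (seq (n + 1)).1 ≤ r / 8 * (1 / 2) ^ n := by
    intro n
    rw [dist_comm, dist_eq_norm, hseqS]
    exact (hF n (seq n) (hQ n)).2.1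
  have hd2 : ∀ n, dist (seq n).2 (seq (n + 1)).2 ≤ r / 8 * (1 / 2) ^ n := by
    intro n
    rw [dist_comm, dist_eq_norm, hseqS]
    exact (hF n (seq n) (hQ n)).2.2
  obtain ⟨f, hf⟩ := cauchySeq_tendsto_of_complete
    (cauchySeq_of_le_geometric (1 / 2) (r / 8) (by norm_num) hd1)
  obtain ⟨g, hg⟩ := cauchySeq_tendsto_of_complete
    (cauchySeq_of_le_geometric (1 / 2) (r / 8) (by norm_num) hd2)
  have hf0 : dist f₀ f ≤ r / 8 / (1 - 1 / 2) :=
    dist_le_of_le_geometric_of_tendsto₀ (1 / 2) (r / 8) (by norm_num) hd1 hf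
  have hg0 : dist g₀ g ≤ r / 8 / (1 - 1 / 2) :=
    dist_le_of_le_geometric_of_tendsto₀ (1 / 2) (r / 8) (by norm_num) hd2 hg
  have hr8 : r / 8 / (1 - 1 / 2) = r / 4 := by ring
  rw [hr8, dist_comm, dist_eq_norm] at hf0 hg0
  refine ⟨f, g, ?_, ?_, ?_⟩
  · have h1 : Tendsto (fun n => h - (seq n).1 * (seq n).2) atTop (𝓝 (h - f * g)) :=
      tendsto_const_nhds.sub (hf.mul hg)
    have h2 : Tendsto (fun n => h - (seq n).1 * (seq n).2) atTop (𝓝 0) := by
      rw [tendsto_zero_iff_norm_tendsto_zero]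
      refine squeeze_zero (fun n => norm_nonneg _) (fun n => (hQ n).2) ?_
      have h3 : Tendsto (fun n : ℕ => ((1:ℝ) / 2) ^ n) atTop (𝓝 0) :=
        tendsto_pow_atTop_nhds_zero_of_lt_one (by norm_num) (by norm_num)
      have h4 : Tendsto (fun n => R n) atTop (𝓝 (r / 8 * 0)) := h3.const_mul _
      have h5 : Tendsto (fun n => (R n) ^ 2 / 144) atTop (𝓝 ((r / 8 * 0) ^ 2 / 144)) :=
        (h4.pow 2).div_const _
      have h6 : (r / 8 * 0) ^ 2 / 144 = (0 : ℝ) := by ring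
      rw [h6] at h5
      exact h5
    have h3 := tendsto_nhds_unique h1 h2
    exact (sub_eq_zero.1 h3).symm
  · have h1 : f - a = (f - f₀) + (f₀ - a) := by ring
    rw [h1]
    refine (norm_add_le _ _).trans_lt ?_
    linarith
  · have h1 : g - b = (g - g₀) + (g₀ - b₀) - (b - b₀) := by ring
    rw [h1]
    refine (norm_sub_le _ _).trans_lt ?_
    have h2 := norm_add_le (g - g₀) (g₀ - b₀)
    linarith

end Q90.OpenMul
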