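import Mathlib

/-!
A complex normed algebra `B`, possibly without unit, with its norm multiplied by a constant `K ≥ 1`.
-/

set_option autoImplicit false

namespace Q90

open Filter Topology

/-- The algebra `B` with the norm `K ‖b‖`. -/
def Scaled (_ : {K : ℝ // 1 ≤ K}) (B : Type*) : Type _ := B

namespace Scaled

variable {K : {K : ℝ // 1 ≤ K}} {B : Type*}

theorem K_pos (K : {K : ℝ // 1 ≤ K}) : 0 < (K : ℝ) := lt_of_lt_of_le one_pos K.2

instance [h : NonUnitalRing B] : NonUnitalRing (Scaled K B) := h

instance [h : NonUnitalCommRing B] : NonUnitalCommRing (Scaled K B) := h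

/-- the norm -/
noncomputable def nrm (K : {K : ℝ // 1 ≤ K}) (B : Type*) [NonUnitalNormedRing B] :
    AddGroupNorm (Scaled K B) where
  toFun b := (K : ℝ) * ‖(show B from b)‖
  map_zero' := by
    change (K : ℝ) * ‖(0 : B)‖ = 0
    rw [norm_zero, mul_zero]
  add_le' x y := by
    change (K : ℝ) * ‖(show B from x) + (show B from y)‖ ≤ _
    rw [← mul_add]
    exact mul_le_mul_of_nonneg_left (norm_add_le _ _) (K_pos K).le
  neg' x := by
    change (K : ℝ) * ‖-(show B from x)‖ = _
    rw [norm_neg]
  eq_zero_of_map_eq_zero' x hx := by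
    have h : ‖(show B from x)‖ = 0 := by
      rcases mul_eq_zero.1 hx with h | h
      · exact absurd h (K_pos K).ne'
      · exact h
    exact norm_eq_zero.1 h

noncomputable instance [NonUnitalNormedRing B] : NormedAddCommGroup (Scaled K B) :=
  (nrm K B).toNormedAddCommGroup

theorem norm_def [NonUnitalNormedRing B] (x : Scaled K B) : ‖x‖ = (K : ℝ) * ‖(show B from x)‖ := rfl

noncomputable instance [h : NonUnitalNormedRing B] : NonUnitalNormedRing (Scaled K B) where
  __ := (inferInstance : NormedAddCommGroup (Scaled K B))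
  __ := (inferInstance : NonUnitalRing (Scaled K B))
  dist_eq := dist_eq_norm_neg_add
  norm_mul_le x y := by
    change (K : ℝ) * ‖(show B from x) * (show B from y)‖ ≤
      ((K : ℝ) * ‖(show B from x)‖) * ((K : ℝ) * ‖(show B from y)‖)
    have h1 := norm_mul_le (show B from x) (show B from y)
    have h2 : (K : ℝ) * ‖(show B from x) * (show B from y)‖ ≤
        (K : ℝ) * (‖(show B from x)‖ * ‖(show B from y)‖) :=
      mul_le_mul_of_nonneg_left h1 (K_pos K).le
    refine h2.trans ?_
    have h3 : 0 ≤ (K : ℝ) * (‖(show B from x)‖ * ‖(show B from y)‖) :=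
      mul_nonneg (K_pos K).le (mul_nonneg (norm_nonneg _) (norm_nonneg _))
    nlinarith [K.2]

instance [NonUnitalNormedRing B] [h : NormedSpace ℂ B] : Module ℂ (Scaled K B) :=
  h.toModule

noncomputable instance [NonUnitalNormedRing B] [NormedSpace ℂ B] : NormedSpace ℂ (Scaled K B) where
  norm_smul_le c x := by
    change (K : ℝ) * ‖c • (show B from x)‖ ≤ ‖c‖ * ((K : ℝ) * ‖(show B from x)‖)
    rw [norm_smul]
    exact le_of_eq (by ring)

instance [NonUnitalNormedRing B] [NormedSpace ℂ B] [h : IsScalarTower ℂ B B] :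
    IsScalarTower ℂ (Scaled K B) (Scaled K B) := ⟨fun a b c => h.smul_assoc a b c⟩

instance [NonUnitalNormedRing B] [NormedSpace ℂ B] [h : SMulCommClass ℂ B B] :
    SMulCommClass ℂ (Scaled K B) (Scaled K B) := ⟨fun a b c => h.smul_comm a b c⟩

instance [NonUnitalNormedRing B] [CompleteSpace B] : CompleteSpace (Scaled K B) := by
  refine Metric.complete_of_cauchySeq_tendsto fun u hu => ?_
  have hK := K_pos K
  have key : ∀ x y : Scaled K B, dist x y = (K : ℝ) * dist (show B from x) (show B from y) := by
    intro x y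
    rw [dist_eq_norm, dist_eq_norm]
    rfl
  have h1 : CauchySeq (fun n => (show B from u n)) := by
    rw [Metric.cauchySeq_iff] at hu ⊢
    intro ε hε
    obtain ⟨N, hN⟩ := hu (K * ε) (mul_pos hK hε)
    refine ⟨N, fun m hm n hn => ?_⟩
    have h2 := hN m hm n hn
    rw [key] at h2
    exact lt_of_mul_lt_mul_left h2 hK.le
  obtain ⟨a, ha⟩ := cauchySeq_tendsto_of_complete h1
  refine ⟨(show Scaled K B from a), ?_⟩
  rw [tendsto_iff_dist_tendsto_zero] at ha ⊢
  have h3 := ha.const_mul (K : ℝ)
  rw [mul_zero] at h3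
  exact h3.congr fun n => (key _ _).symm

end Scaled

end Q90
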