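import Mathlib

/-!
The two shifts on the space of bounded sequences.
-/

set_option autoImplicit false

open BoundedContinuousFunction

namespace Q90

/-- The Banach algebra of bounded operators on the space of bounded sequences. -/
abbrev BL : Type := (ℕ →ᵇ ℂ) →L[ℂ] (ℕ →ᵇ ℂ)

namespace BL

/-- right shift of a function -/
noncomputable def rsh (f : ℕ →ᵇ ℂ) : ℕ →ᵇ ℂ :=
  BoundedContinuousFunction.ofNormedAddCommGroupDiscrete
    (fun n => Nat.casesOn n (0 : ℂ) (fun m => f m)) ‖f‖ (by
      intro n
      cases n with
      | zero => simp
      | succ n => exact f.norm_coe_le_norm n)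

/-- right shift -/
noncomputable def R : BL :=
  LinearMap.mkContinuous
    { toFun := rsh
      map_add' := by
        intro f g
        ext n
        cases n with
        | zero => exact (add_zero (0 : ℂ)).symm
        | succ n => rfl
      map_smul' := by
        intro c f
        ext n
        cases n with
        | zero => exact (mul_zero c).symm
        | succ n => rfl } 1 (by
      intro f
      rw [one_mul]
      refine (BoundedContinuousFunction.norm_le (norm_nonneg _)).2 fun n => ?_
      cases n with
      | zero => exact (norm_zero (E := ℂ)).le.trans (norm_nonneg _)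
      | succ n => exact f.norm_coe_le_norm n)

/-- left shift -/
noncomputable def L : BL :=
  LinearMap.mkContinuous
    { toFun := fun f => f.compContinuous ⟨Nat.succ, continuous_of_discreteTopology⟩
      map_add' := fun f g => rfl
      map_smul' := fun c f => rfl } 1 (by
      intro f
      rw [one_mul]
      exact (BoundedContinuousFunction.norm_le (norm_nonneg _)).2 fun n => f.norm_coe_le_norm _)

theorem LR : L * R = 1 := by
  ext f n
  rfl

theorem RL : R * L ≠ 1 := by
  intro h
  have h1 : (R * L) (BoundedContinuousFunction.const ℕ (1:ℂ)) 0 =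
    (1 : BL) (BoundedContinuousFunction.const ℕ (1:ℂ)) 0 := by rw [h]
  have h2 : (R * L) (BoundedContinuousFunction.const ℕ (1:ℂ)) 0 = 0 := rfl
  have h3 : (1 : BL) (BoundedContinuousFunction.const ℕ (1:ℂ)) 0 = 1 := rfl
  rw [h2, h3] at h1
  exact zero_ne_one h1

instance : Nontrivial (ℕ →ᵇ ℂ) :=
  ⟨0, BoundedContinuousFunction.const ℕ (1:ℂ), fun h => by
    have := DFunLike.congr_fun h 0
    exact zero_ne_one this⟩

end BL

end Q90
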