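import Mathlib
import Pool.Agent.Q90.Scaled

/-!
The algebra `ℂ ⊕ B` (unitization of `B`) with the norm `|l| + K ‖b‖`.
-/

set_option autoImplicit false

open WithLp

/-- The unitization of `B` with the norm `|l| + K ‖b‖`. -/
abbrev Q90.UScaled (K : {K : ℝ // 1 ≤ K}) (B : Type) [NonUnitalNormedRing B] [NormedSpace ℂ B] :
    Type :=
  WithLp 1 (Unitization ℂ (Q90.Scaled K B))

namespace Q90.UScaled

/-- constructor -/
def mk (K : {K : ℝ // 1 ≤ K}) {B : Type} [NonUnitalNormedRing B] [NormedSpace ℂ B] (l : ℂ) (b : B) :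
    UScaled K B := toLp 1 ⟨l, (b : Q90.Scaled K B)⟩

variable {K : {K : ℝ // 1 ≤ K}} {B : Type} [NormedRing B] [NormedAlgebra ℂ B]

theorem norm_mk (l : ℂ) (b : B) : ‖mk K l b‖ = ‖l‖ + K * ‖b‖ := by
  rw [unitization_norm_def]
  rfl

theorem mk_mul (l m : ℂ) (b c : B) :
    mk K l b * mk K m c = mk K (l * m) (l • c + m • b + b * c) := rfl

theorem one_eq : (1 : UScaled K B) = mk K 1 0 := rfl

theorem mk_sub (l m : ℂ) (b c : B) : mk K l b - mk K m c = mk K (l - m) (b - c) := rfl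

theorem exists_mk (x : UScaled K B) : ∃ l b, x = mk K l b := ⟨(ofLp x).fst, (ofLp x).snd, rfl⟩

theorem norm_one : ‖(1 : UScaled K B)‖ = 1 := by
  rw [one_eq, norm_mk]
  simp

/-- The homomorphism `(l, b) ↦ l + b` onto `B`. -/
noncomputable def phi (K : {K : ℝ // 1 ≤ K}) (B : Type) [NormedRing B] [NormedAlgebra ℂ B] :
    UScaled K B →* B where
  toFun x := algebraMap ℂ B (ofLp x).fst + (show B from (ofLp x).snd)
  map_one' := by
    change algebraMap ℂ B 1 + (0 : B) = 1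
    simp
  map_mul' x y := by
    obtain ⟨l, b, rfl⟩ := exists_mk x
    obtain ⟨m, c, rfl⟩ := exists_mk y
    change algebraMap ℂ B (l * m) + (l • c + m • b + b * c) =
      (algebraMap ℂ B l + b) * (algebraMap ℂ B m + c)
    rw [map_mul, mul_add, add_mul, add_mul, Algebra.smul_def, Algebra.smul_def,
      Algebra.commutes m b]
    abel

theorem phi_mk (l : ℂ) (b : B) : phi K B (mk K l b) = algebraMap ℂ B l + b := rfl

/-- Invertibility with control of the inverse. -/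
theorem exists_inv [CompleteSpace B] {l : ℂ} {b : B} {δ : ℝ} (hδ : 0 < δ) (hl : δ ≤ ‖l‖)
    (hb : ‖b‖ ≤ δ / 2) :
    ∃ v : UScaled K B, mk K l b * v = 1 ∧ v * mk K l b = 1 ∧
      ‖v‖ ≤ 1 / δ + 2 / δ ^ 2 * (K * ‖b‖) := by
  have hl0 : l ≠ 0 := fun h => by
    rw [h, norm_zero] at hl
    linarith
  have hln : 0 < ‖l‖ := norm_pos_iff.2 hl0
  have ht : ‖-(l⁻¹ • b)‖ < 1 := by
    rw [norm_neg, norm_smul, norm_inv]
    have h1 : ‖l‖⁻¹ * ‖b‖ ≤ δ⁻¹ * (δ / 2) :=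
      mul_le_mul (inv_anti₀ hδ hl) hb (norm_nonneg _) (inv_nonneg.2 hδ.le)
    have h2 : δ⁻¹ * (δ / 2) = 1 / 2 := by
      field_simp
    linarith
  set t : B := -(l⁻¹ • b) with htdef
  let w : Bˣ := Units.oneSub t ht
  have hw : (w : B) = 1 - t := rfl
  have hcomm : Commute b (w : B) := by
    rw [hw]
    apply Commute.sub_right (Commute.one_right b)
    rw [htdef]
    exact ((Commute.refl b).smul_right _).neg_right
  have hcomm' : Commute b ((w⁻¹ : Bˣ) : B) := by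
    exact hcomm.units_inv_right
  -- l • w = l + b
  have hlw : l • (w : B) = algebraMap ℂ B l + b := by
    rw [hw, htdef, sub_neg_eq_add, smul_add, smul_smul, mul_inv_cancel₀ hl0, one_smul,
      Algebra.algebraMap_eq_smul_one]
  -- c = - l⁻¹ • l⁻¹ • (w⁻¹ * b)
  let c : B := -((l⁻¹ * l⁻¹) • (((w⁻¹ : Bˣ) : B) * b))
  have hc1 : l • c + l⁻¹ • b + b * c = 0 := by
    have e1 : l • c + b * c = (l • (w : B)) * c := by
      rw [hlw, add_mul, Algebra.algebraMap_eq_smul_one, smul_mul_assoc, one_mul]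
    have e2 : (l • (w : B)) * c = -(l⁻¹ • b) := by
      change (l • (w : B)) * (-((l⁻¹ * l⁻¹) • (((w⁻¹ : Bˣ) : B) * b))) = _
      rw [mul_neg, smul_mul_assoc, mul_smul_comm, smul_smul, Units.mul_inv_cancel_left,
        ← mul_assoc, mul_inv_cancel₀ hl0, one_mul]
    rw [add_right_comm, e1, e2, neg_add_cancel]
  have hcb : c * b = b * c := by
    change -((l⁻¹ * l⁻¹) • (((w⁻¹ : Bˣ) : B) * b)) * b = b * (-((l⁻¹ * l⁻¹) • (((w⁻¹ : Bˣ) : B) * b)))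
    rw [neg_mul, mul_neg, smul_mul_assoc, mul_smul_comm, ← mul_assoc, hcomm'.eq]
  have hcn : ‖c‖ ≤ 2 / δ ^ 2 * ‖b‖ := by
    have e1 : l • c = -(l⁻¹ • b) - b * c := by
      rw [eq_sub_iff_add_eq, eq_neg_iff_add_eq_zero, add_right_comm]
      exact hc1
    have e2 : ‖l‖ * ‖c‖ ≤ ‖l‖⁻¹ * ‖b‖ + ‖b‖ * ‖c‖ := by
      rw [← norm_smul, e1]
      refine (norm_sub_le _ _).trans ?_
      rw [norm_neg, norm_smul, norm_inv]
      gcongr
      exact norm_mul_le _ _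
    have e3 : δ * ‖c‖ ≤ ‖l‖ * ‖c‖ := mul_le_mul_of_nonneg_right hl (norm_nonneg _)
    have e4 : ‖b‖ * ‖c‖ ≤ δ / 2 * ‖c‖ := mul_le_mul_of_nonneg_right hb (norm_nonneg _)
    have e5 : ‖l‖⁻¹ * ‖b‖ ≤ δ⁻¹ * ‖b‖ :=
      mul_le_mul_of_nonneg_right (inv_anti₀ hδ hl) (norm_nonneg _)
    have e6 : δ / 2 * ‖c‖ ≤ δ⁻¹ * ‖b‖ := by linarith
    have e7 : 2 / δ ^ 2 * ‖b‖ = (2 / δ) * (δ⁻¹ * ‖b‖) := by
      field_simp
    rw [e7]
    have e8 : ‖c‖ = (2 / δ) * (δ / 2 * ‖c‖) := by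
      field_simp
    rw [e8]
    exact mul_le_mul_of_nonneg_left e6 (by positivity)
  refine ⟨mk K l⁻¹ c, ?_, ?_, ?_⟩
  · rw [mk_mul, one_eq, mul_inv_cancel₀ hl0, hc1]
  · rw [mk_mul, one_eq, inv_mul_cancel₀ hl0, hcb, add_comm (l⁻¹ • b), hc1]
  · rw [norm_mk, norm_inv]
    have h1 : ‖l‖⁻¹ ≤ 1 / δ := by
      rw [one_div]
      exact inv_anti₀ hδ hl
    have h2 : (K : ℝ) * ‖c‖ ≤ K * (2 / δ ^ 2 * ‖b‖) :=
      mul_le_mul_of_nonneg_left hcn (Scaled.K_pos K).le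
    have h3 : (K : ℝ) * (2 / δ ^ 2 * ‖b‖) = 2 / δ ^ 2 * (K * ‖b‖) := by ring
    linarith

/-- If the units of `ℂ ⊕ B` are dense, so are those of `B`. -/
theorem dense_of_dense [NormOneClass B] (h : Dense {x : UScaled K B | IsUnit x}) :
    Dense {x : B | IsUnit x} := by
  rw [Metric.dense_iff] at h ⊢
  intro b r hr
  obtain ⟨x, hx1, hx2⟩ := h (mk K 0 b) r hr
  obtain ⟨l, c, rfl⟩ := exists_mk x
  refine ⟨phi K B (mk K l c), ?_, hx2.map (phi K B)⟩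
  rw [Metric.mem_ball, dist_eq_norm] at hx1 ⊢
  rw [mk_sub, norm_mk, sub_zero] at hx1
  rw [phi_mk]
  have h1 : ‖algebraMap ℂ B l + c - b‖ ≤ ‖l‖ + ‖c - b‖ := by
    rw [add_sub_assoc]
    refine (norm_add_le _ _).trans ?_
    rw [norm_algebraMap']
  have h2 : ‖c - b‖ ≤ K * ‖c - b‖ := le_mul_of_one_le_left (norm_nonneg _) K.2
  linarith

end Q90.UScaled
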