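import Pool.Agent.H379R3.CStarReg

/-!
# Matricial weak semiprojectivity and amenability

`Pool.Agent.H379R3.CS.reducedCStar G` is the reduced group C*-algebra of `G`: the norm closure, in
the bounded operators on `ℓ²(G)`, of the star algebra generated by the left translations.
-/

set_option autoImplicit false

open Filter Topology

namespace Q90.WS

/-- A (discrete) group is amenable if it satisfies the Følner condition: for every finite set `S`
and every `ε > 0` there is a nonempty finite set `F` with `|sF \ F| ≤ ε |F|` for all `s` in `S`. -/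
def Amenable (G : Type) [Group G] : Prop :=
  ∀ (S : Finset G) (ε : ℝ), 0 < ε → ∃ F : Finset G, F.Nonempty ∧
    ∀ s ∈ S, (((fun x => s * x) '' (F : Set G) \ (F : Set G)).ncard : ℝ) ≤ ε * F.card

/-- The operator norm of a complex `k × k` matrix. -/
noncomputable def opNorm {k : ℕ} (M : Matrix (Fin k) (Fin k) ℂ) : ℝ :=
  ‖Matrix.toEuclideanCLM (𝕜 := ℂ) M‖

variable {A : Type} [Ring A] [StarRing A] [Algebra ℂ A]

/-- The sequence of maps `φ n : A → M_{k n}(ℂ)` induces a *-homomorphism from `A` to
`∏ M_{k n}(ℂ) / ⨁ M_{k n}(ℂ)`: it is bounded at each element of `A`, and the defects of additivity,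
of homogeneity, of multiplicativity and of compatibility with the involution tend to zero in
operator norm. Every *-homomorphism `A → ∏ M_{k n}(ℂ) / ⨁ M_{k n}(ℂ)` is induced in this way (choose
representatives). -/
structure InducesHom (k : ℕ → ℕ) (φ : ∀ n, A → Matrix (Fin (k n)) (Fin (k n)) ℂ) : Prop where
  bounded : ∀ a, ∃ C : ℝ, ∀ n, opNorm (φ n a) ≤ C
  add : ∀ a b, Tendsto (fun n => opNorm (φ n (a + b) - (φ n a + φ n b))) atTop (𝓝 0)
  smul : ∀ (c : ℂ) a, Tendsto (fun n => opNorm (φ n (c • a) - c • φ n a)) atTop (𝓝 0)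
  mul : ∀ a b, Tendsto (fun n => opNorm (φ n (a * b) - φ n a * φ n b)) atTop (𝓝 0)
  star : ∀ a, Tendsto (fun n => opNorm (φ n (star a) - (φ n a).conjTranspose)) atTop (𝓝 0)

variable (A) in
/-- `A` is matricially weakly semiprojective: for all sizes `k n`, every *-homomorphism from `A` to
`∏ M_{k n}(ℂ) / ⨁ M_{k n}(ℂ)` lifts to a *-homomorphism from `A` to `∏ M_{k n}(ℂ)`, that is, to a
sequence of (not necessarily unital) *-homomorphisms `ψ n : A → M_{k n}(ℂ)` (these are
automatically contractive when `A` is a C*-algebra). -/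
def MatriciallyWeaklySemiprojective : Prop :=
  ∀ (k : ℕ → ℕ) (φ : ∀ n, A → Matrix (Fin (k n)) (Fin (k n)) ℂ), InducesHom k φ →
    ∃ ψ : ∀ n, A →⋆ₙₐ[ℂ] Matrix (Fin (k n)) (Fin (k n)) ℂ,
      ∀ a, Tendsto (fun n => opNorm (φ n a - ψ n a)) atTop (𝓝 0)

end Q90.WS
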