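import Mathlib

/-!
# Reduced group C*-algebras, matricial weak semiprojectivity and amenability
-/

set_option autoImplicit false

open Filter Topology

namespace Q90.WS2

/-- A (discrete) group is amenable if it satisfies the Følner condition: for every finite set `S`
and every `ε > 0` there is a nonempty finite set `F` with `|sF \ F| ≤ ε |F|` for all `s` in `S`. -/
def Amenable (G : Type) [Group G] : Prop :=
  ∀ (S : Finset G) (ε : ℝ), 0 < ε → ∃ F : Finset G, F.Nonempty ∧
    ∀ s ∈ S, (((fun x => s * x) '' (F : Set G) \ (F : Set G)).ncard : ℝ) ≤ ε * F.card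

/-- The left regular representation of `G` on the Hilbert space `H = ℓ²(G)`, that is, on a Hilbert
space with an orthonormal basis `δ_x` indexed by the elements `x` of `G`: the bounded operators
`λ_g` with `λ_g δ_x = δ_{g x}`. -/
structure LeftRegular (G : Type) [Group G] (H : Type) [NormedAddCommGroup H]
    [InnerProductSpace ℂ H] where
  /-- the orthonormal basis `δ` -/
  basis : HilbertBasis G ℂ H
  /-- the operators `λ_g` -/
  lam : G → H →L[ℂ] H
  lam_basis : ∀ g x, lam g (basis x) = basis (g * x)

/-- The reduced group C*-algebra `C*_r(G)`: the norm closure in `B(ℓ²(G))` of the star algebra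
generated by the operators `λ_g`. -/
noncomputable def LeftRegular.reduced {G : Type} [Group G] {H : Type} [NormedAddCommGroup H]
    [InnerProductSpace ℂ H] [CompleteSpace H] (ρ : LeftRegular G H) :
    StarSubalgebra ℂ (H →L[ℂ] H) :=
  (StarAlgebra.adjoin ℂ (Set.range ρ.lam)).topologicalClosure

/-- The algebra `M_k(ℂ)`. -/
abbrev Mat (k : ℕ) : Type := Matrix (Fin k) (Fin k) ℂ

open scoped Matrix.Norms.L2Operator in
/-- The operator norm of a complex `k × k` matrix, as an operator on the Hilbert space `ℂ^k`
(Mathlib's `ℓ²` operator norm). -/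
noncomputable def opNorm {k : ℕ} (M : Mat k) : ℝ := ‖M‖

variable {A : Type} [Ring A] [StarRing A] [Algebra ℂ A]

/-- The sequence of maps `φ n : A → M_{k n}(ℂ)` induces a *-homomorphism from `A` to
`∏ M_{k n}(ℂ) / ⨁ M_{k n}(ℂ)`: it is bounded at each element of `A`, and the defects of additivity,
of homogeneity, of multiplicativity and of compatibility with the involution tend to zero in
operator norm. Every *-homomorphism `A → ∏ M_{k n}(ℂ) / ⨁ M_{k n}(ℂ)` is induced in this way (choose
representatives). -/
structure InducesHom (k : ℕ → ℕ) (φ : ∀ n, A → Mat (k n)) : Prop where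
  bounded : ∀ a, ∃ C : ℝ, ∀ n, opNorm (φ n a) ≤ C
  add : ∀ a b, Tendsto (fun n => opNorm (φ n (a + b) - (φ n a + φ n b))) atTop (𝓝 0)
  smul : ∀ (c : ℂ) a, Tendsto (fun n => opNorm (φ n (c • a) - c • φ n a)) atTop (𝓝 0)
  mul : ∀ a b, Tendsto (fun n => opNorm (φ n (a * b) - φ n a * φ n b)) atTop (𝓝 0)
  star : ∀ a, Tendsto (fun n => opNorm (φ n (star a) - (φ n a).conjTranspose)) atTop (𝓝 0)

variable (A) in
/-- `A` is matricially weakly semiprojective: for all sizes `k n`, every *-homomorphism from `A` to
`∏ M_{k n}(ℂ) / ⨁ M_{k n}(ℂ)` lifts to a *-homomorphism from `A` to `∏ M_{k n}(ℂ)`, that is, to a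
sequence of (not necessarily unital) *-homomorphisms `ψ n : A → M_{k n}(ℂ)` (these are
automatically contractive when `A` is a C*-algebra). -/
def MatriciallyWeaklySemiprojective : Prop :=
  ∀ (k : ℕ → ℕ) (φ : ∀ n, A → Mat (k n)), InducesHom k φ →
    ∃ ψ : ∀ n, A →⋆ₙₐ[ℂ] Mat (k n),
      ∀ a, Tendsto (fun n => opNorm (φ n a - ψ n a)) atTop (𝓝 0)

end Q90.WS2
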