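import Pool.Agent.Q90.WsInv

set_option autoImplicit false
set_option linter.unusedSectionVars false
set_option linter.unusedVariables false

/-!
Følner sets give almost invariant vectors.
-/

open Filter Topology
open scoped InnerProductSpace ENNReal
open Q90.MS
open Pool.Agent.Helper455.KZ
open Pool.Agent.H379R3.CS

noncomputable section

namespace Q90.WS

open Classical in
/-- the indicator function of a finite set -/
def chi {G : Type} (F : Finset G) : L2 G := ∑ x ∈ F, lp.single 2 x (1 : ℂ)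

open Classical in
theorem norm_chi {G : Type} (F : Finset G) : ‖chi F‖ ^ 2 = (F.card : ℝ) := by
  have hp : 0 < (2 : ℝ≥0∞).toReal := by norm_num
  have h := lp.norm_sum_single (p := 2) hp (fun _ : G => (1 : ℂ)) F
  have h2 : ‖chi F‖ ^ (2 : ℝ≥0∞).toReal = ‖chi F‖ ^ 2 := by
    rw [ENNReal.toReal_ofNat, Real.rpow_ofNat]
  rw [← h2]
  refine h.trans ?_
  simp

variable {G : Type} [Group G]

open Classical in
theorem lam_single (g x : G) :
    (lam g : L2 G →L[ℂ] L2 G) (lp.single 2 x (1 : ℂ)) = lp.single 2 (g * x) (1 : ℂ) := by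
  ext y
  show (lp.single 2 x (1 : ℂ) : L2 G) (g⁻¹ * y) = (lp.single 2 (g * x) (1 : ℂ) : L2 G) y
  by_cases h : y = g * x
  · subst h
    rw [inv_mul_cancel_left, lp.single_apply_self, lp.single_apply_self]
  · rw [lp.single_apply_ne _ _ _ h, lp.single_apply_ne]
    intro h2
    apply h
    rw [← h2, mul_inv_cancel_left]

open Classical in
theorem lam_chi (g : G) (F : Finset G) :
    (lam g : L2 G →L[ℂ] L2 G) (chi F) = chi (F.image (fun x => g * x)) := by
  unfold chi
  rw [map_sum, Finset.sum_image (fun a _ b _ h => mul_left_cancel h)]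
  exact Finset.sum_congr rfl fun x _ => lam_single g x

open Classical in
theorem chi_sub {G : Type} (S T : Finset G) : chi S - chi T = chi (S \ T) - chi (T \ S) := by
  unfold chi
  have h1 := Finset.sum_inter_add_sum_sdiff S T (fun x => (lp.single 2 x (1 : ℂ) : L2 G))
  have h2 := Finset.sum_inter_add_sum_sdiff T S (fun x => (lp.single 2 x (1 : ℂ) : L2 G))
  rw [← h1, ← h2, Finset.inter_comm T S]
  abel

open Classical in
theorem norm_lam_chi (g : G) (F : Finset G) (ε : ℝ) (hε : 0 < ε)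
    (h : (((fun x => g * x) '' (F : Set G) \ (F : Set G)).ncard : ℝ) ≤ ε * F.card) :
    ‖(lam g : L2 G →L[ℂ] L2 G) (chi F) - chi F‖ ≤ 2 * (√ε * ‖chi F‖) := by
  have h0 : ((F.image (fun x => g * x) \ F).card : ℝ) ≤ ε * F.card := by
    refine le_trans (le_of_eq ?_) h
    rw [← Finset.coe_image, ← Finset.coe_sdiff, Set.ncard_coe_finset]
  have hcard : (F.image (fun x => g * x)).card = F.card :=
    Finset.card_image_of_injective F (mul_right_injective g)
  have h1 : (F \ F.image (fun x => g * x)).card = (F.image (fun x => g * x) \ F).card :=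
    Finset.card_sdiff_comm hcard.symm
  have h2 : ∀ S : Finset G, (S.card : ℝ) ≤ ε * F.card → ‖chi S‖ ≤ √ε * ‖chi F‖ := by
    intro S hS
    refine abs_le_of_sq_le_sq' ?_ (by positivity) |>.2
    rw [norm_chi, mul_pow, Real.sq_sqrt hε.le, norm_chi]
    exact hS
  rw [lam_chi, chi_sub]
  refine (norm_sub_le _ _).trans ?_
  have h3 := h2 _ h0
  have h4 := h2 (F \ F.image (fun x => g * x)) (by rw [h1]; exact h0)
  linarith

variable {K : Type} [Field K] [Fintype K] {m : ℕ} (u : Fin m → K → G)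

theorem not_amenable {c : ℝ} (hc : 0 < c) (hlow : ∀ v : L2 G, c * ‖v‖ ^ 2 ≤
      ‖DD (fun i => co (avg (fun a => (lam (u i a) : L2 G →L[ℂ] L2 G)))) v‖ ^ 2) :
    ¬ Amenable G := by
  classical
  intro hA
  set ε : ℝ := c / (8 * (m + 1) ^ 2) with hε
  have hε0 : 0 < ε := by positivity
  obtain ⟨F, hF, hS⟩ := hA (Finset.univ.image (fun p : Fin m × K => u p.1 p.2)) ε hε0
  have h1 : ∀ i, ‖co (avg (fun a => (lam (u i a) : L2 G →L[ℂ] L2 G))) (chi F)‖ ≤
      2 * (√ε * ‖chi F‖) := by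
    intro i
    refine co_avg_small _ _ fun a => norm_lam_chi _ F ε hε0 ?_
    exact hS _ (Finset.mem_image_of_mem _ (Finset.mem_univ (i, a)))
  have h2 : ‖DD (fun i => co (avg (fun a => (lam (u i a) : L2 G →L[ℂ] L2 G)))) (chi F)‖ ≤
      m * (2 * (√ε * ‖chi F‖)) := by
    unfold DD
    refine (norm_sum_le _ _).trans ?_
    refine (Finset.sum_le_sum fun i _ => h1 i).trans ?_
    rw [Finset.sum_const, Finset.card_univ, Fintype.card_fin, nsmul_eq_mul]
  have h3 := hlow (chi F)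
  have h4 : ‖DD (fun i => co (avg (fun a => (lam (u i a) : L2 G →L[ℂ] L2 G)))) (chi F)‖ ^ 2 ≤
      (m * (2 * (√ε * ‖chi F‖))) ^ 2 := pow_le_pow_left₀ (norm_nonneg _) h2 2
  have h5 : (m * (2 * (√ε * ‖chi F‖))) ^ 2 = 4 * m ^ 2 * ε * ‖chi F‖ ^ 2 := by
    have : √ε ^ 2 = ε := Real.sq_sqrt hε0.le
    calc (m * (2 * (√ε * ‖chi F‖))) ^ 2 = 4 * m ^ 2 * √ε ^ 2 * ‖chi F‖ ^ 2 := by ring
      _ = _ := by rw [this]
  have hpos : 0 < ‖chi F‖ ^ 2 := by
    rw [norm_chi]
    exact_mod_cast Finset.card_pos.mpr hF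
  have h6 : c ≤ 4 * m ^ 2 * ε := by
    have := h3.trans (h4.trans h5.le)
    exact le_of_mul_le_mul_right this hpos
  have h7 : 4 * (m : ℝ) ^ 2 * ε ≤ c / 2 := by
    rw [hε]
    have h8 : (m : ℝ) ^ 2 ≤ (m + 1) ^ 2 := by
      have : (0 : ℝ) ≤ m := Nat.cast_nonneg m
      nlinarith
    have h9 : 4 * (m : ℝ) ^ 2 * (c / (8 * (m + 1) ^ 2)) =
        c / 2 * ((m : ℝ) ^ 2 / (m + 1) ^ 2) := by
      field_simp
      ring
    rw [h9]
    have h10 : (m : ℝ) ^ 2 / (m + 1) ^ 2 ≤ 1 := by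
      rw [div_le_one (by positivity)]; exact h8
    calc c / 2 * ((m : ℝ) ^ 2 / (m + 1) ^ 2) ≤ c / 2 * 1 :=
          mul_le_mul_of_nonneg_left h10 (by positivity)
      _ = c / 2 := mul_one _
  linarith

/-- groups all of whose matricial approximations vanish on the reduced algebra -/
theorem mwsp_of {κ : ℝ} (hκ : 0 < κ) (hκ1 : κ ≤ 1) (hm : 0 < m)
    (hu : ∀ i a b, u i (a + b) = u i a * u i b)
    (hgap : HasGap u κ) (t : G)
    (ht : ∀ i a, t⁻¹ * u i a * t ∈ lineGroup u)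
    (hgen : Subgroup.closure ({g | ∃ i a, g = u i a} ∪ {t}) = ⊤)
    (hN : ∀ i a, u i a ∈ Subgroup.normalClosure (CC u t)) (hne : ∃ i a, u i a ≠ 1) :
    ¬ Amenable G ∧ MatriciallyWeaklySemiprojective (reducedCStar G) := by
  have hinf := lineGroup_infinite u t ht hN hne
  obtain ⟨c, hc, hlow⟩ := exists_lower u hu hκ hκ1 hm hgap hinf
  refine ⟨not_amenable u hc hlow, fun k φ hφ => ⟨fun n => 0, fun a => ?_⟩⟩
  have hL : ∀ g, star (regHom G g) = regHom G g⁻¹ := fun g => Subtype.ext (star_shift g)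
  have h := vanish (regHom G) u hκ hu hgap t ht hgen hN hL
    (DL_reg_isUnit u hu hκ hκ1 hm hgap hinf) hφ a
  refine h.congr fun n => ?_
  show opNorm (φ n a) = opNorm (φ n a - 0)
  rw [sub_zero]

end Q90.WS
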