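import Pool.Agent.Q90.WsKill

set_option autoImplicit false
set_option linter.unusedSectionVars false
set_option linter.unusedVariables false

/-!
The lines act without almost invariant vectors on the regular representation.
-/

open Filter Topology
open scoped InnerProductSpace ENNReal
open Q90.MS
open Pool.Agent.Helper455.KZ
open Pool.Agent.H379R3.CS

noncomputable section

namespace Q90.WS

variable {G : Type} [Group G] {K : Type} [Field K] [Fintype K] {m : ℕ} (u : Fin m → K → G)

/-! ### the group generated by the lines is infinite -/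

theorem lineGroup_infinite (t : G)
    (ht : ∀ i a, t⁻¹ * u i a * t ∈ lineGroup u)
    (hN : ∀ i a, u i a ∈ Subgroup.normalClosure (CC u t)) (hne : ∃ i a, u i a ≠ 1) :
    (lineGroup u : Set G).Infinite := by
  intro hfin
  -- conjugation by `t` maps the group into itself
  have hmap : ∀ g ∈ lineGroup u, t⁻¹ * g * t ∈ lineGroup u := by
    intro g hg
    unfold lineGroup at hg
    induction hg using Subgroup.closure_induction with
    | mem g hg => obtain ⟨i, a, rfl⟩ := hg; exact ht i a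
    | one => simp [one_mem]
    | mul x y _ _ hx hy =>
      have : t⁻¹ * (x * y) * t = (t⁻¹ * x * t) * (t⁻¹ * y * t) := by group
      rw [this]; exact mul_mem hx hy
    | inv x _ hx =>
      have : t⁻¹ * x⁻¹ * t = (t⁻¹ * x * t)⁻¹ := by group
      rw [this]; exact inv_mem hx
  have hfin' : Finite (lineGroup u) := hfin
  let f : lineGroup u → lineGroup u := fun g => ⟨t⁻¹ * g.1 * t, hmap g.1 g.2⟩
  have hinj : Function.Injective f := by
    intro x y hxy
    have h1 : t⁻¹ * x.1 * t = t⁻¹ * y.1 * t := congrArg Subtype.val hxy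
    exact Subtype.ext (mul_left_cancel (mul_right_cancel h1))
  have hsurj : Function.Surjective f := Finite.injective_iff_surjective.mp hinj
  -- elements commuting with the conjugates of the lines commute with the whole group
  have hCC : CC u t ⊆ {1} := by
    rintro _ ⟨γ, hγ, c, hc, rfl⟩
    have h1 : ∀ g ∈ lineGroup u, Commute c (t⁻¹ * g * t) := by
      intro g hg
      unfold lineGroup at hg
      induction hg using Subgroup.closure_induction with
      | mem g hg => obtain ⟨i, a, rfl⟩ := hg; exact hc i a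
      | one => simp
      | mul x y _ _ hx hy =>
        have : t⁻¹ * (x * y) * t = (t⁻¹ * x * t) * (t⁻¹ * y * t) := by group
        rw [this]; exact hx.mul_right hy
      | inv x _ hx =>
        have : t⁻¹ * x⁻¹ * t = (t⁻¹ * x * t)⁻¹ := by group
        rw [this]; exact hx.inv_right
    obtain ⟨⟨γ', hγ'⟩, h2⟩ := hsurj ⟨γ, hγ⟩
    have h3 : t⁻¹ * γ' * t = γ := congrArg Subtype.val h2
    have h4 : Commute c γ := by rw [← h3]; exact h1 γ' hγ'
    rw [Set.mem_singleton_iff]
    have h5 : γ * c = c * γ := h4.eq.symm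
    rw [mul_assoc c⁻¹, h5, ← mul_assoc, inv_mul_cancel, one_mul, mul_inv_cancel]
  obtain ⟨i, a, hia⟩ := hne
  apply hia
  have h1 : Subgroup.normalClosure (CC u t) ≤ ⊥ :=
    Subgroup.normalClosure_le_normal (by rw [Subgroup.coe_bot]; exact hCC)
  exact Subgroup.mem_bot.mp (h1 (hN i a))

/-! ### the regular representation -/

/-- the regular representation -/
def lam : G →* (L2 G →L[ℂ] L2 G) where
  toFun := shift
  map_one' := shift_one
  map_mul' := shift_mul

theorem lam_inner (g : G) (x y : L2 G) : ⟪lam g x, lam g y⟫_ℂ = ⟪x, y⟫_ℂ := by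
  rw [← ContinuousLinearMap.adjoint_inner_right, ← ContinuousLinearMap.star_eq_adjoint]
  have h : star (lam g : L2 G →L[ℂ] L2 G) = lam g⁻¹ := star_shift g
  have h2 : (lam g⁻¹ : L2 G →L[ℂ] L2 G) (lam g y) = y := by
    have := congrArg (fun T : L2 G →L[ℂ] L2 G => T y) (map_mul (lam (G := G)) g⁻¹ g)
    rw [inv_mul_cancel, map_one] at this
    exact this.symm
  rw [h, h2]

theorem zero_of_fixed (S : Subgroup G) (hS : (S : Set G).Infinite) (w : L2 G)
    (hw : ∀ g ∈ S, lam g w = w) : w = 0 := by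
  ext x
  by_contra hx
  have hx' : (w : G → ℂ) x ≠ 0 := hx
  have hp : 0 < (2 : ℝ≥0∞).toReal := by norm_num
  have hsum := (memℓp_gen_iff hp).mp w.2
  have ht := hsum.tendsto_cofinite_zero
  have hpos : 0 < ‖(w : G → ℂ) x‖ ^ (2 : ℝ≥0∞).toReal :=
    Real.rpow_pos_of_pos (norm_pos_iff.mpr hx') _
  have hev := ht.eventually (gt_mem_nhds hpos)
  have hfin : {y : G | ¬ ‖(w : G → ℂ) y‖ ^ (2 : ℝ≥0∞).toReal <
      ‖(w : G → ℂ) x‖ ^ (2 : ℝ≥0∞).toReal}.Finite := hev
  have hinf : ((fun g => g⁻¹ * x) '' (S : Set G)).Infinite := by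
    refine hS.image ?_
    intro a _ b _ hab
    exact inv_injective (mul_right_cancel hab)
  refine hinf (hfin.subset ?_)
  rintro _ ⟨g, hg, rfl⟩
  have h1 : (lam g w : G → ℂ) x = (w : G → ℂ) x := by rw [hw g hg]
  have h2 : (lam g w : G → ℂ) x = (w : G → ℂ) (g⁻¹ * x) := rfl
  show ¬ _
  rw [← h2, h1]
  exact lt_irrefl _

variable (hu : ∀ i a b, u i (a + b) = u i a * u i b)

include hu in
theorem exists_lower {κ : ℝ} (hκ : 0 < κ) (hκ1 : κ ≤ 1) (hm : 0 < m) (hgap : HasGap u κ)
    (hinf : (lineGroup u : Set G).Infinite) :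
    ∃ c : ℝ, 0 < c ∧ ∀ v : L2 G, c * ‖v‖ ^ 2 ≤
      ‖DD (fun i => co (avg (fun a => (lam (u i a) : L2 G →L[ℂ] L2 G)))) v‖ ^ 2 := by
  set Q : Fin m → L2 G → L2 G := fun i => co (avg (fun a => (lam (u i a) : L2 G →L[ℂ] L2 G)))
    with hQ
  have hur : ∀ i, URep (fun a => (lam (u i a) : L2 G →L[ℂ] L2 G)) :=
    fun i => urep_of u hu lam lam_inner i
  have hP : ∀ i, Proj (Q i) := fun i => (hur i).avg_proj.co
  have hDE : ∀ v, κ * EE Q v ≤ ‖DD Q v‖ ^ 2 := fun v => hgap _ lam lam_inner v
  have hcard : Fintype.card (Fin m) = m := Fintype.card_fin m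
  have hm1 : (1 : ℝ) ≤ m := by exact_mod_cast hm
  set θ : ℝ := thr (m : ℝ) κ with hθ
  have hθ0 : 0 < θ := thr_pos _ _ hm1 hκ
  have key : ∀ v : L2 G, ‖v‖ = 1 → ∃ i, θ < ‖Q i v‖ := by
    intro v hv
    by_contra hcon
    push Not at hcon
    obtain ⟨w, hw0, hw⟩ := exists_invariant (by rw [hcard]; exact hm) Q hP κ hκ hκ1 hDE v hv
      (by rw [hcard]; exact hcon)
    apply hw0
    refine zero_of_fixed (lineGroup u) hinf w ?_
    have hfix : ∀ i a, lam (u i a) w = w := by
      intro i a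
      have h1 : avg (fun a => (lam (u i a) : L2 G →L[ℂ] L2 G)) w = w :=
        (sub_eq_zero.mp (hw i)).symm
      have h3 := (hur i).fix_avg a w
      rw [h1] at h3
      exact h3
    intro g hg
    unfold lineGroup at hg
    induction hg using Subgroup.closure_induction with
    | mem g hg => obtain ⟨i, a, rfl⟩ := hg; exact hfix i a
    | one => rw [map_one]; rfl
    | mul x y _ _ hx hy =>
      rw [map_mul]
      show lam x (lam y w) = w
      rw [hy, hx]
    | inv x _ hx =>
      have h1 : (lam x⁻¹ : L2 G →L[ℂ] L2 G) (lam x w) = w := by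
        have := congrArg (fun T : L2 G →L[ℂ] L2 G => T w) (map_mul (lam (G := G)) x⁻¹ x)
        rw [inv_mul_cancel, map_one] at this
        exact this.symm
      rwa [hx] at h1
  refine ⟨κ * θ ^ 2, by positivity, fun v => ?_⟩
  rcases eq_or_ne v 0 with rfl | hv
  · rw [norm_zero]; simp
  have hn : 0 < ‖v‖ := norm_pos_iff.mpr hv
  obtain ⟨i, hi⟩ := key (((‖v‖ : ℂ)⁻¹) • v) (by
    rw [norm_smul, norm_inv, Complex.norm_real, norm_norm, inv_mul_cancel₀ hn.ne'])
  rw [(hP i).smul, norm_smul, norm_inv, Complex.norm_real, norm_norm] at hi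
  have h1 : θ * ‖v‖ < ‖Q i v‖ := by
    rw [inv_mul_eq_div, lt_div_iff₀ hn] at hi
    exact hi
  have h2 : (θ * ‖v‖) ^ 2 ≤ EE Q v :=
    (pow_le_pow_left₀ (by positivity) h1.le 2).trans (Q_le_EE Q i v)
  calc κ * θ ^ 2 * ‖v‖ ^ 2 = κ * (θ * ‖v‖) ^ 2 := by ring
    _ ≤ κ * EE Q v := mul_le_mul_of_nonneg_left h2 hκ.le
    _ ≤ _ := hDE v

theorem DL_apply (v : L2 G) : DL (lam (G := G)) u v =
    DD (fun i => co (avg (fun a => (lam (u i a) : L2 G →L[ℂ] L2 G)))) v := by
  simp [DL, DD, co, avg]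

include hu in
theorem DL_star : star (DL (lam (G := G)) u) = DL (lam (G := G)) u := by
  unfold DL
  rw [star_sum]
  refine Finset.sum_congr rfl fun i _ => ?_
  rw [star_sub, star_one, star_smul, star_sum]
  congr 1
  have h1 : star ((Fintype.card K : ℂ)⁻¹) = (Fintype.card K : ℂ)⁻¹ := by simp
  rw [h1]
  congr 1
  refine (Equiv.sum_comp (Equiv.neg K) _).symm.trans (Finset.sum_congr rfl fun a _ => ?_)
  show star (shift (u i (-a))) = shift (u i a)
  rw [star_shift]
  congr 1
  have h2 := hu i (-a) a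
  rw [neg_add_cancel, u_zero u hu] at h2
  exact (eq_inv_of_mul_eq_one_right h2.symm).symm

include hu in
theorem DL_isUnit {κ : ℝ} (hκ : 0 < κ) (hκ1 : κ ≤ 1) (hm : 0 < m) (hgap : HasGap u κ)
    (hinf : (lineGroup u : Set G).Infinite) : IsUnit (DL (lam (G := G)) u) := by
  obtain ⟨c, hc, hlow⟩ := exists_lower u hu hκ hκ1 hm hgap hinf
  set D := DL (lam (G := G)) u with hD
  have hDD : IsUnit (D * D) := by
    refine ContinuousLinearMap.isUnit_of_forall_le_norm_inner_map (D * D) (c := ⟨c, hc.le⟩) hc ?_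
    intro x
    have h1 : ⟪(D * D) x, x⟫_ℂ = ⟪D x, D x⟫_ℂ := by
      have hs : star D = D := DL_star u hu
      have h3 : ⟪(star D) (D x), x⟫_ℂ = ⟪D x, D x⟫_ℂ := by
        rw [ContinuousLinearMap.star_eq_adjoint, ContinuousLinearMap.adjoint_inner_left]
      rw [hs] at h3
      exact h3
    rw [h1, inner_self_eq_norm_sq_to_K]
    have h2 := hlow x
    rw [← DL_apply u x] at h2
    rw [norm_pow, RCLike.norm_ofReal, abs_norm]
    show ‖x‖ ^ 2 * c ≤ _
    rw [mul_comm]; exact h2
  obtain ⟨E, hE⟩ := hDD.exists_right_inv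
  obtain ⟨E', hE'⟩ := hDD.exists_left_inv
  have e1 : D * (D * E) = 1 := by rw [← mul_assoc]; exact hE
  have e2 : (E' * D) * D = 1 := by rw [mul_assoc]; exact hE'
  exact ⟨⟨D, D * E, e1, by rw [← left_inv_eq_right_inv e2 e1]; exact e2⟩, rfl⟩

include hu in
/-- invertibility in the reduced algebra -/
theorem DL_reg_isUnit {κ : ℝ} (hκ : 0 < κ) (hκ1 : κ ≤ 1) (hm : 0 < m) (hgap : HasGap u κ)
    (hinf : (lineGroup u : Set G).Infinite) : IsUnit (DL (regHom G) u) := by
  rw [← StarSubalgebra.coe_isUnit]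
  have e : ((DL (regHom G) u : reducedCStar G) : L2 G →L[ℂ] L2 G) = DL (lam (G := G)) u := by
    have h := map_sum (reducedCStar G).subtype
      (fun i : Fin m => (1 : reducedCStar G) - ((Fintype.card K : ℂ)⁻¹) • ∑ a, regHom G (u i a))
      Finset.univ
    refine h.trans (Finset.sum_congr rfl fun i _ => ?_)
    rw [map_sub, map_one, map_smul, map_sum]
    rfl
  rw [e]
  exact DL_isUnit u hu hκ hκ1 hm hgap hinf

end Q90.WS
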