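import Pool.Agent.Q90.WsSeq

set_option autoImplicit false
set_option linter.unusedSectionVars false

/-!
Star homomorphisms from the reduced algebra into the corona algebra of matrices vanish.
-/

open Filter Topology
open scoped InnerProductSpace
open Q90.MS

noncomputable section

namespace Q90.WS

variable {k : ℕ → ℕ} {A : Type} [Ring A] [StarRing A] [Algebra ℂ A]

/-- evaluation at an element -/
def ev (φ : ∀ n, A → Matrix (Fin (k n)) (Fin (k n)) ℂ) (a : A) : Sq k := fun n => φ n a

variable {φ : ∀ n, A → Matrix (Fin (k n)) (Fin (k n)) ℂ}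

theorem InducesHom.ev_bdd (h : InducesHom k φ) (a : A) : Bdd (ev φ a) := h.bounded a

theorem InducesHom.ev_add (h : InducesHom k φ) (a b : A) :
    Null (ev φ (a + b) - (ev φ a + ev φ b)) := h.add a b

theorem InducesHom.ev_smul (h : InducesHom k φ) (c : ℂ) (a : A) :
    Null (ev φ (c • a) - c • ev φ a) := h.smul c a

theorem InducesHom.ev_mul (h : InducesHom k φ) (a b : A) :
    Null (ev φ (a * b) - ev φ a * ev φ b) := h.mul a b

theorem ev_star_of (h : InducesHom k φ) (a : A) :
    Null (ev φ (star a) - star (ev φ a)) := h.star a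

theorem InducesHom.ker_add (h : InducesHom k φ) {a b : A} (ha : Null (ev φ a))
    (hb : Null (ev φ b)) : Null (ev φ (a + b)) := by
  have := (h.ev_add a b).add (ha.add hb)
  rwa [sub_add_cancel] at this

theorem InducesHom.ker_smul (h : InducesHom k φ) (c : ℂ) {a : A} (ha : Null (ev φ a)) :
    Null (ev φ (c • a)) := by
  have := (h.ev_smul c a).add (ha.smul c)
  rwa [sub_add_cancel] at this

theorem InducesHom.ker_zero (h : InducesHom k φ) : Null (ev φ 0) := by
  have := h.ev_smul 0 0
  rw [zero_smul, zero_smul, sub_zero] at this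
  exact this

theorem InducesHom.ker_sum (h : InducesHom k φ) {ι : Type} (s : Finset ι) (f : ι → A)
    (hf : ∀ i ∈ s, Null (ev φ (f i))) : Null (ev φ (∑ i ∈ s, f i)) := by
  induction s using Finset.cons_induction with
  | empty => rw [Finset.sum_empty]; exact h.ker_zero
  | cons a s ha ih =>
    rw [Finset.sum_cons]
    exact h.ker_add (hf a (Finset.mem_cons_self a s))
      (ih fun i hi => hf i (Finset.mem_cons_of_mem hi))

theorem InducesHom.ker_mul (h : InducesHom k φ) {a : A} (ha : Null (ev φ a)) (b : A) :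
    Null (ev φ (a * b)) := by
  have := (h.ev_mul a b).add (ha.mul_right (h.ev_bdd b))
  rwa [sub_add_cancel] at this

/-- if the image of the unit vanishes then everything does -/
theorem InducesHom.ker_all (h : InducesHom k φ) {a b : A} (ha : Null (ev φ a)) (hab : a * b = 1)
    (c : A) : Null (ev φ c) := by
  have h1 : Null (ev φ (1 : A)) := by rw [← hab]; exact h.ker_mul ha b
  have := h.ker_mul h1 c
  rwa [one_mul] at this

section grp

variable {G : Type} [Group G] (L : G →* A)

variable (φ) in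
/-- the unitalized images of the group elements -/
def XX (g : G) : Sq k := ev φ (L g) + (1 - ev φ 1)

theorem XX_one : XX φ L 1 = 1 := by
  unfold XX
  rw [map_one]; abel

theorem XX_bdd (h : InducesHom k φ) (g : G) : Bdd (XX φ L g) :=
  (h.ev_bdd _).add (Bdd.one.sub (h.ev_bdd _))

theorem XX_mul (h : InducesHom k φ) (g g' : G) :
    Null (XX φ L (g * g') - XX φ L g * XX φ L g') := by
  have h1 := h.ev_mul (L g) (L g')
  have h2 := h.ev_mul (L g) 1
  have h3 := h.ev_mul 1 (L g')
  have h4 := h.ev_mul (1 : A) 1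
  rw [← map_mul] at h1
  rw [mul_one] at h2
  rw [one_mul] at h3
  rw [one_mul] at h4
  have e : XX φ L (g * g') - XX φ L g * XX φ L g' =
      (ev φ (L (g * g')) - ev φ (L g) * ev φ (L g')) - (ev φ (L g) - ev φ (L g) * ev φ 1) -
      (ev φ (L g') - ev φ 1 * ev φ (L g')) + (ev φ 1 - ev φ 1 * ev φ 1) := by
    unfold XX
    noncomm_ring
  rw [e]
  exact ((h1.sub h2).sub h3).add h4

theorem XX_star (h : InducesHom k φ) (hL : ∀ g, star (L g) = L g⁻¹) (g : G) :
    Null (XX φ L g⁻¹ - star (XX φ L g)) := by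
  have h1 := ev_star_of h (L g)
  have h2 := ev_star_of h (1 : A)
  rw [hL] at h1
  rw [star_one] at h2
  have e : XX φ L g⁻¹ - star (XX φ L g) =
      (ev φ (L g⁻¹) - star (ev φ (L g))) - (ev φ 1 - star (ev φ 1)) := by
    unfold XX
    rw [star_add, star_sub, star_one]
    abel
  rw [e]
  exact h1.sub h2

theorem XX_unit (h : InducesHom k φ) (hL : ∀ g, star (L g) = L g⁻¹) (g : G) :
    Null (star (XX φ L g) * XX φ L g - 1) := by
  have h1 := XX_mul L h g⁻¹ g
  rw [inv_mul_cancel, XX_one] at h1
  have h2 := XX_star L h hL g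
  have h3 := h2.mul_right (XX_bdd L h g)
  rw [sub_mul] at h3
  exact (h1.trans h3).symm

theorem exists_AH (h : InducesHom k φ) (hL : ∀ g, star (L g) = L g⁻¹) :
    ∃ U : ∀ n, G → Matrix.unitaryGroup (Fin (k n)) ℂ, AH atTop U ∧
      ∀ g, Null (XX φ L g - fun n => (U n g).val) := by
  choose U hU using fun g => exists_unitary (XX φ L g) (XX_unit L h hL g)
  refine ⟨fun n g => U g n, ?_, hU⟩
  intro g g'
  have h1 := hU (g * g')
  have h2 := hU g
  have h3 := hU g'
  have h4 := XX_mul L h g g'
  have h5 := Null.mul_mul (Bdd.unitary (U g)) (XX_bdd L h g') h2 h3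
  exact (h1.symm.trans h4).trans h5

variable {K : Type} [Field K] [Fintype K] {m : ℕ} (u : Fin m → K → G)

/-- the sum of the complementary averages over the lines -/
def DL : A := ∑ i : Fin m, (1 - ((Fintype.card K : ℂ)⁻¹) • ∑ a, L (u i a))

theorem DL_eq : DL L u = ∑ i : Fin m, ((-(Fintype.card K : ℂ)⁻¹) • ∑ a, (L (u i a) - 1)) := by
  unfold DL
  refine Finset.sum_congr rfl fun i _ => ?_
  have hc : (Fintype.card K : ℂ) ≠ 0 := by
    exact_mod_cast Fintype.card_ne_zero
  rw [Finset.sum_sub_distrib, Finset.sum_const, Finset.card_univ, smul_sub, neg_smul, neg_smul,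
    ← Nat.cast_smul_eq_nsmul ℂ, smul_smul, inv_mul_cancel₀ hc, one_smul]
  abel

theorem vanish {κ : ℝ} (hκ : 0 < κ) (hu : ∀ i a b, u i (a + b) = u i a * u i b)
    (hgap : HasGap u κ) (t : G)
    (ht : ∀ i a, t⁻¹ * u i a * t ∈ lineGroup u)
    (hgen : Subgroup.closure ({g | ∃ i a, g = u i a} ∪ {t}) = ⊤)
    (hN : ∀ i a, u i a ∈ Subgroup.normalClosure (CC u t))
    (hL : ∀ g, star (L g) = L g⁻¹) (hD : IsUnit (DL L u))
    (h : InducesHom k φ) (c : A) : Null (ev φ c) := by
  obtain ⟨U, hU, hUX⟩ := exists_AH L h hL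
  have hk : ∀ i a, Null (ev φ (L (u i a) - 1)) := by
    intro i a
    have h1 : Null ((fun n => (U n (u i a)).val) - 1 : Sq k) :=
      kill u hκ hu hgap t ht hgen hN hU i a
    have h2 := (hUX (u i a)).trans h1
    have h3 : XX φ L (u i a) - 1 = ev φ (L (u i a)) - ev φ 1 := by
      unfold XX; abel
    rw [h3] at h2
    have h4 := h.ev_add (L (u i a) - 1) 1
    rw [sub_add_cancel] at h4
    have h5 := h2.sub h4
    have e : ev φ (L (u i a)) - ev φ 1 - (ev φ (L (u i a)) - (ev φ (L (u i a) - 1) + ev φ 1)) =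
        ev φ (L (u i a) - 1) := by abel
    rwa [e] at h5
  have hDn : Null (ev φ (DL L u)) := by
    rw [DL_eq]
    refine h.ker_sum _ _ fun i _ => h.ker_smul _ (h.ker_sum _ _ fun a _ => hk i a)
  obtain ⟨b, hb⟩ := hD.exists_right_inv
  exact h.ker_all hDn hb c

end grp

end Q90.WS
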