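import Pool.Agent.Q90.WsFol

set_option autoImplicit false

/-!
The example.
-/

noncomputable section

namespace Q90.WS

open Q90.MS

theorem uG_ne (K : Type) [Field K] : uG (K := K) 0 1 ≠ 1 := by
  intro h
  have h1 : (uG (K := K) 0 1).1 (0, fun _ _ => 1) = ((0, fun _ _ => 1) : Pt K) := by
    rw [h]; rfl
  have h2 : ad 0 (((1 : K) • r1 K) 0 ((fun _ _ => 1 : Fin 3 → Vs K) 1)) (fun _ _ => 1) =
      (fun _ _ => 1 : Fin 3 → Vs K) := congrArg Prod.snd h1
  have h3 := congrFun (congrFun h2 0) 0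
  rw [ad_same, one_smul] at h3
  have h5 : (1 : K) + (r1 K 0 (fun _ => 1)) 0 = 1 := h3
  have h4 : (r1 K 0 (fun _ => 1)) 0 = 0 := by
    have := congrArg (fun t => t - (1 : K)) h5
    simpa using this
  have h6 : (r1 K 0 (fun _ => 1)) 0 = Pj K 0 (fun _ => 1) 0 := rfl
  rw [h6, Pj_apply, if_pos (by positivity)] at h4
  exact one_ne_zero h4

theorem main (K : Type) [Field K] [Fintype K] (hK : 36 ≤ Fintype.card K) :
    ¬ Amenable (GT K) ∧
      MatriciallyWeaklySemiprojective (Pool.Agent.H379R3.CS.reducedCStar (GT K)) :=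
  mwsp_of uG (by norm_num : (0 : ℝ) < 1 / 6) (by norm_num) (by norm_num) uG_add (gap_G hK) tG ht_G
    gen_G normal_G ⟨0, 1, uG_ne K⟩

end Q90.WS
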