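import Pool.Agent.Q90.WsMain
import Pool.Agent.Q90.WsDefs2

set_option autoImplicit false

/-!
The example, with the definitions of the final statement.
-/

noncomputable section

open Pool.Agent.H379R3.CS
open scoped ENNReal

namespace Q90.WS2

/-- the standard realization -/
def std (G : Type) [Group G] : LeftRegular G (L2 G) where
  basis := HilbertBasis.ofRepr (LinearIsometryEquiv.refl ℂ (L2 G))
  lam := shift
  lam_basis g x := by
    classical
    have h : ∀ y : G, (HilbertBasis.ofRepr (LinearIsometryEquiv.refl ℂ (L2 G)) :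
        HilbertBasis G ℂ (L2 G)) y = lp.single 2 y (1 : ℂ) := by
      intro y
      rw [← HilbertBasis.repr_symm_single]
      rfl
    rw [h, h]
    exact Q90.WS.lam_single g x

theorem std_reduced (G : Type) [Group G] : (std G).reduced = reducedCStar G := rfl

theorem induces_iff {A : Type} [Ring A] [StarRing A] [Algebra ℂ A] {k : ℕ → ℕ}
    {φ : ∀ n, A → Mat (k n)} (h : InducesHom k φ) : Q90.WS.InducesHom k φ :=
  ⟨h.bounded, h.add, h.smul, h.mul, h.star⟩

theorem mwsp_of {A : Type} [Ring A] [StarRing A] [Algebra ℂ A]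
    (h : Q90.WS.MatriciallyWeaklySemiprojective A) : MatriciallyWeaklySemiprojective A :=
  fun k φ hφ => h k φ (induces_iff hφ)

theorem main (K : Type) [Field K] [Fintype K] (hK : 36 ≤ Fintype.card K) :
    ¬ Amenable (Q90.MS.GT K) ∧
      ∃ (H : Type) (_ : NormedAddCommGroup H) (_ : InnerProductSpace ℂ H) (_ : CompleteSpace H)
        (ρ : LeftRegular (Q90.MS.GT K) H), MatriciallyWeaklySemiprojective ρ.reduced := by
  obtain ⟨h1, h2⟩ := Q90.WS.main K hK
  exact ⟨h1, L2 (Q90.MS.GT K), inferInstance, inferInstance, inferInstance, std _,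
    mwsp_of h2⟩

end Q90.WS2
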