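import Mathlib

set_option autoImplicit false

/-!
Almost isometries in a C*-algebra are close to isometries.
-/

noncomputable section

namespace Q90.WS

variable {B : Type} [CStarAlgebra B]

theorem near_isometry (x : B) (hx : ‖star x * x - 1‖ ≤ 1 / 2) :
    ∃ u : B, star u * u = 1 ∧ ‖x - u‖ ≤ ‖star x * x - 1‖ := by
  rcases subsingleton_or_nontrivial B with hB | hB
  · exact ⟨0, Subsingleton.elim _ _, by
      rw [Subsingleton.elim (x - 0) 0, norm_zero]; exact norm_nonneg _⟩
  set h : B := star x * x with hh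
  set d : ℝ := ‖h - 1‖ with hd
  have hsa : IsSelfAdjoint h := IsSelfAdjoint.star_mul_self x
  have hspec : ∀ t ∈ spectrum ℝ h, |t - 1| ≤ d := by
    intro t ht
    have h1 : t - 1 ∈ spectrum ℝ (h - 1) := by
      have h2 := spectrum.sub_singleton_eq h (1 : ℝ)
      rw [map_one] at h2
      rw [← h2]
      exact ⟨t, ht, 1, rfl, rfl⟩
    exact spectrum.norm_le_norm_of_mem h1
  have hpos : ∀ t ∈ spectrum ℝ h, (1 : ℝ) / 2 ≤ t := by
    intro t ht
    have := abs_le.mp ((hspec t ht).trans hx)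
    linarith [this.1]
  have hc : ContinuousOn (fun t : ℝ => (√t)⁻¹) (spectrum ℝ h) := by
    refine ContinuousOn.inv₀ Real.continuous_sqrt.continuousOn ?_
    intro t ht
    have := hpos t ht
    exact (Real.sqrt_pos.mpr (by linarith)).ne'
  set r : B := cfc (fun t : ℝ => (√t)⁻¹) h with hr
  have hrsa : star r = r := (cfc_predicate (fun t : ℝ => (√t)⁻¹) h).star_eq
  have e1 : r * h = cfc (fun t : ℝ => (√t)⁻¹ * t) h := by
    rw [cfc_mul (fun t : ℝ => (√t)⁻¹) (fun t => t) h hc, cfc_id' ℝ h]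
  have e2 : h * r = cfc (fun t : ℝ => t * (√t)⁻¹) h := by
    rw [cfc_mul (fun t => t) (fun t : ℝ => (√t)⁻¹) h (hg := hc), cfc_id' ℝ h]
  have e3 : r * h * r = 1 := by
    rw [e1, hr, ← cfc_mul (fun t : ℝ => (√t)⁻¹ * t) (fun t : ℝ => (√t)⁻¹) h
      (hc.mul continuousOn_id) hc]
    rw [← cfc_one ℝ h]
    refine cfc_congr fun t ht => ?_
    have h2 := hpos t ht
    have h3 : 0 < √t := Real.sqrt_pos.mpr (by linarith)
    show (√t)⁻¹ * t * (√t)⁻¹ = 1
    have h4 : t = √t * √t := (Real.mul_self_sqrt (by linarith)).symm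
    field_simp
    rw [sq]; exact h4
  refine ⟨x * r, ?_, ?_⟩
  · rw [star_mul, hrsa, mul_assoc, ← mul_assoc (star x), ← hh, ← mul_assoc]
    exact e3
  · have e4 : star (x - x * r) * (x - x * r) = h - h * r - r * h + r * h * r := by
      rw [star_sub, star_mul, hrsa, hh]
      noncomm_ring
    have e5 : star (x - x * r) * (x - x * r) = cfc (fun t : ℝ => (√t - 1) ^ 2) h := by
      rw [e4, e3, e1, e2]
      have a1 : ContinuousOn (fun t : ℝ => t * (√t)⁻¹) (spectrum ℝ h) := continuousOn_id.mul hc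
      have a2 : ContinuousOn (fun t : ℝ => (√t)⁻¹ * t) (spectrum ℝ h) := hc.mul continuousOn_id
      have a3 : ContinuousOn (fun t : ℝ => t - t * (√t)⁻¹) (spectrum ℝ h) := continuousOn_id.sub a1
      have b1 : h - cfc (fun t : ℝ => t * (√t)⁻¹) h = cfc (fun t : ℝ => t - t * (√t)⁻¹) h := by
        rw [cfc_sub (fun t : ℝ => t) (fun t : ℝ => t * (√t)⁻¹) h continuousOn_id a1, cfc_id' ℝ h]
      have b3 := cfc_add h (fun t : ℝ => t - t * (√t)⁻¹ - (√t)⁻¹ * t) (fun _ : ℝ => (1 : ℝ))
        (a3.sub a2) continuousOn_const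
      rw [b1, ← cfc_sub (fun t : ℝ => t - t * (√t)⁻¹) (fun t : ℝ => (√t)⁻¹ * t) h a3 a2,
        ← cfc_one ℝ h]
      refine b3.symm.trans ?_
      refine cfc_congr fun t ht => ?_
      have h2 := hpos t ht
      have h3 : 0 < √t := Real.sqrt_pos.mpr (by linarith)
      show t - t * (√t)⁻¹ - (√t)⁻¹ * t + 1 = (√t - 1) ^ 2
      have h4 : √t * √t = t := Real.mul_self_sqrt (by linarith)
      have h5 : t * (√t)⁻¹ = √t := by
        rw [← div_eq_mul_inv, div_eq_iff h3.ne']; exact h4.symm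
      rw [mul_comm (√t)⁻¹ t, h5]
      nlinarith
    have e6 : ‖x - x * r‖ * ‖x - x * r‖ ≤ d * d := by
      rw [← CStarRing.norm_star_mul_self, e5]
      refine norm_cfc_le (by positivity) fun t ht => ?_
      have h1 := hspec t ht
      have h2 := hpos t ht
      have h3 : 0 < √t := Real.sqrt_pos.mpr (by linarith)
      have h4 : √t * √t = t := Real.mul_self_sqrt (by linarith)
      have h5 : |√t - 1| ≤ |t - 1| := by
        have : t - 1 = (√t - 1) * (√t + 1) := by nlinarith
        rw [this, abs_mul]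
        have h6 : (1 : ℝ) ≤ |√t + 1| := by
          rw [abs_of_pos (by linarith)]; linarith
        exact le_mul_of_one_le_right (abs_nonneg _) h6
      rw [Real.norm_eq_abs, abs_pow, sq]
      exact mul_le_mul (h5.trans h1) (h5.trans h1) (abs_nonneg _) (norm_nonneg _)
    exact abs_le_of_sq_le_sq' (by nlinarith) (norm_nonneg _) |>.2

end Q90.WS
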