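import Pool.Agent.Q90.WsNear
import Pool.Agent.Q90.WsDefs
import Pool.Agent.Q90.MsStab

set_option autoImplicit false
set_option linter.unusedSectionVars false

/-!
Asymptotic calculus for sequences of matrices.
-/

open Filter Topology
open scoped InnerProductSpace
open Q90.MS

noncomputable section

namespace Q90.WS

section one

variable {r : ℕ}

theorem opNorm_eq (M : Matrix (Fin r) (Fin r) ℂ) : opNorm M = ‖CL M‖ := rfl

theorem opNorm_nonneg (M : Matrix (Fin r) (Fin r) ℂ) : 0 ≤ opNorm M := norm_nonneg _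

theorem opNorm_zero : opNorm (0 : Matrix (Fin r) (Fin r) ℂ) = 0 := by
  rw [opNorm_eq, CL_zero, norm_zero]

theorem opNorm_add (M N : Matrix (Fin r) (Fin r) ℂ) : opNorm (M + N) ≤ opNorm M + opNorm N :=
  nCL_add M N

theorem opNorm_neg (M : Matrix (Fin r) (Fin r) ℂ) : opNorm (-M) = opNorm M := by
  rw [opNorm_eq, opNorm_eq, ← zero_sub, nCL_sub_comm, sub_zero]

theorem opNorm_mul (M N : Matrix (Fin r) (Fin r) ℂ) : opNorm (M * N) ≤ opNorm M * opNorm N :=
  nCL_mul M N

theorem opNorm_smul (c : ℂ) (M : Matrix (Fin r) (Fin r) ℂ) : opNorm (c • M) = ‖c‖ * opNorm M := by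
  rw [opNorm_eq, opNorm_eq]
  have : CL (c • M) = c • CL M := map_smul (Matrix.toEuclideanCLM (𝕜 := ℂ)) c M
  rw [this, norm_smul]

theorem opNorm_ct (M : Matrix (Fin r) (Fin r) ℂ) : opNorm M.conjTranspose = opNorm M :=
  norm_CL_ct M

theorem opNorm_one : opNorm (1 : Matrix (Fin r) (Fin r) ℂ) ≤ 1 := CL_one_le' r

theorem opNorm_unitary (W : Matrix.unitaryGroup (Fin r) ℂ) : opNorm W.val ≤ 1 := norm_CL_le W

/-- almost unitary matrices are close to unitary matrices -/
theorem near_unitary (X : Matrix (Fin r) (Fin r) ℂ)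
    (hX : opNorm (X.conjTranspose * X - 1) ≤ 1 / 2) :
    ∃ U : Matrix.unitaryGroup (Fin r) ℂ, opNorm (X - U.val) ≤ opNorm (X.conjTranspose * X - 1) := by
  have e : CL (X.conjTranspose * X - 1) = star (CL X) * CL X - 1 := by
    rw [CL_sub, CL_mul, CL_one]
    congr 2
    exact map_star (Matrix.toEuclideanCLM (𝕜 := ℂ)) X
  rw [opNorm_eq, e] at hX ⊢
  obtain ⟨u, hu, hn⟩ := near_isometry (B := Eu r →L[ℂ] Eu r) (CL X) hX
  set U : Matrix (Fin r) (Fin r) ℂ := (Matrix.toEuclideanCLM (𝕜 := ℂ)).symm u with hU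
  have hCU : CL U = u := StarAlgEquiv.apply_symm_apply _ _
  have hUU : star U * U = 1 := by
    apply (Matrix.toEuclideanCLM (𝕜 := ℂ) (n := Fin r)).injective
    have e1 : CL (star U) = star (CL U) := map_star (Matrix.toEuclideanCLM (𝕜 := ℂ)) U
    have e2 : CL (star U * U) = CL 1 := by
      rw [CL_mul, e1, hCU, hu, CL_one]
    exact e2
  refine ⟨⟨U, Matrix.mem_unitaryGroup_iff'.mpr hUU⟩, ?_⟩
  rw [opNorm_eq, CL_sub, hCU]
  exact hn

end one

/-- sequences of matrices -/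
abbrev Sq (k : ℕ → ℕ) : Type := ∀ n, Matrix (Fin (k n)) (Fin (k n)) ℂ

variable {k : ℕ → ℕ}

/-- null sequences -/
def Null (X : Sq k) : Prop := Tendsto (fun n => opNorm (X n)) atTop (𝓝 0)

/-- bounded sequences -/
def Bdd (X : Sq k) : Prop := ∃ C : ℝ, ∀ n, opNorm (X n) ≤ C

theorem Bdd.exists_nonneg {X : Sq k} (h : Bdd X) : ∃ C : ℝ, 0 ≤ C ∧ ∀ n, opNorm (X n) ≤ C := by
  obtain ⟨C, hC⟩ := h
  exact ⟨|C|, abs_nonneg _, fun n => (hC n).trans (le_abs_self _)⟩

theorem Bdd.add {X Y : Sq k} (hX : Bdd X) (hY : Bdd Y) : Bdd (X + Y) := by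
  obtain ⟨C, hC⟩ := hX
  obtain ⟨D, hD⟩ := hY
  exact ⟨C + D, fun n => (opNorm_add _ _).trans (add_le_add (hC n) (hD n))⟩

theorem Bdd.neg {X : Sq k} (hX : Bdd X) : Bdd (-X) := by
  obtain ⟨C, hC⟩ := hX
  exact ⟨C, fun n => (opNorm_neg _).le.trans (hC n)⟩

theorem Bdd.sub {X Y : Sq k} (hX : Bdd X) (hY : Bdd Y) : Bdd (X - Y) := by
  rw [sub_eq_add_neg]; exact hX.add hY.neg

theorem Bdd.mul {X Y : Sq k} (hX : Bdd X) (hY : Bdd Y) : Bdd (X * Y) := by
  obtain ⟨C, hC0, hC⟩ := hX.exists_nonneg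
  obtain ⟨D, hD⟩ := hY
  exact ⟨C * D, fun n => (opNorm_mul _ _).trans
    (mul_le_mul (hC n) (hD n) (opNorm_nonneg _) hC0)⟩

theorem Bdd.star {X : Sq k} (hX : Bdd X) : Bdd (star X) := by
  obtain ⟨C, hC⟩ := hX
  exact ⟨C, fun n => (opNorm_ct _).le.trans (hC n)⟩

theorem Bdd.one : Bdd (1 : Sq k) := ⟨1, fun _ => opNorm_one⟩

theorem Bdd.unitary (U : ∀ n, Matrix.unitaryGroup (Fin (k n)) ℂ) :
    Bdd (fun n => (U n).val) := ⟨1, fun n => opNorm_unitary (U n)⟩

theorem Null.zero : Null (0 : Sq k) := by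
  have : (fun n => opNorm ((0 : Sq k) n)) = fun _ => (0 : ℝ) := by
    funext n; exact opNorm_zero
  unfold Null
  rw [this]
  exact tendsto_const_nhds

theorem Null.add {X Y : Sq k} (hX : Null X) (hY : Null Y) : Null (X + Y) := by
  have h := Tendsto.add hX hY
  rw [add_zero] at h
  exact squeeze_zero (fun n => opNorm_nonneg _) (fun n => opNorm_add _ _) h

theorem Null.neg {X : Sq k} (hX : Null X) : Null (-X) :=
  hX.congr fun _ => (opNorm_neg _).symm

theorem Null.sub {X Y : Sq k} (hX : Null X) (hY : Null Y) : Null (X - Y) := by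
  rw [sub_eq_add_neg]; exact hX.add hY.neg

theorem Null.star {X : Sq k} (hX : Null X) : Null (star X) :=
  hX.congr fun _ => (opNorm_ct _).symm

theorem Null.smul {X : Sq k} (c : ℂ) (hX : Null X) : Null (c • X) := by
  have h := Tendsto.const_mul ‖c‖ hX
  rw [mul_zero] at h
  exact h.congr fun n => (opNorm_smul _ _).symm

theorem Null.mul_right {X Y : Sq k} (hX : Null X) (hY : Bdd Y) : Null (X * Y) := by
  obtain ⟨D, hD⟩ := hY
  have h := Tendsto.mul_const D hX
  rw [zero_mul] at h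
  exact squeeze_zero (fun n => opNorm_nonneg _) (fun n => (opNorm_mul _ _).trans
    (mul_le_mul_of_nonneg_left (hD n) (opNorm_nonneg _))) h

theorem Null.mul_left {X Y : Sq k} (hX : Bdd X) (hY : Null Y) : Null (X * Y) := by
  obtain ⟨C, hC⟩ := hX
  have h := Tendsto.const_mul C hY
  rw [mul_zero] at h
  exact squeeze_zero (fun n => opNorm_nonneg _) (fun n => (opNorm_mul _ _).trans
    (mul_le_mul_of_nonneg_right (hC n) (opNorm_nonneg _))) h

theorem Null.symm {X Y : Sq k} (h : Null (X - Y)) : Null (Y - X) := by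
  rw [← neg_sub]; exact h.neg

theorem Null.trans {X Y Z : Sq k} (h : Null (X - Y)) (h' : Null (Y - Z)) : Null (X - Z) := by
  have := h.add h'
  rwa [sub_add_sub_cancel] at this

theorem Null.mul_mul {X X' Y Y' : Sq k} (hX' : Bdd X') (hY : Bdd Y) (h : Null (X - X'))
    (h' : Null (Y - Y')) : Null (X * Y - X' * Y') := by
  have e : X * Y - X' * Y' = (X - X') * Y + X' * (Y - Y') := by noncomm_ring
  rw [e]
  exact (h.mul_right hY).add (Null.mul_left hX' h')

/-- almost unitary sequences are close to unitary sequences -/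
theorem exists_unitary (X : Sq k) (hX : Null (star X * X - 1)) :
    ∃ U : ∀ n, Matrix.unitaryGroup (Fin (k n)) ℂ, Null (X - fun n => (U n).val) := by
  classical
  let d : ℕ → ℝ := fun n => opNorm ((X n).conjTranspose * X n - 1)
  let U : ∀ n, Matrix.unitaryGroup (Fin (k n)) ℂ := fun n =>
    if h : d n ≤ 1 / 2 then (near_unitary (X n) h).choose else 1
  refine ⟨U, ?_⟩
  have hd : Tendsto d atTop (𝓝 0) := hX
  have hev : ∀ᶠ n in atTop, d n ≤ 1 / 2 := hd.eventually_le_const (by norm_num)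
  refine squeeze_zero' (Eventually.of_forall fun n => opNorm_nonneg _) ?_ hd
  filter_upwards [hev] with n hn
  show opNorm (X n - (U n).val) ≤ d n
  have : U n = (near_unitary (X n) hn).choose := dif_pos hn
  rw [this]
  exact (near_unitary (X n) hn).choose_spec

end Q90.WS
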