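import Pool.Agent.Q90.ZsCyl
import Pool.Agent.Q90.ZsDefs

set_option autoImplicit false

/-!
The C*-algebra generated by the good partial bijections; it is simple.
-/

open scoped ENNReal InnerProductSpace
open Filter Topology Pointwise

noncomputable section

namespace Q90.ZS

/-- the bounded operators -/
abbrev BE : Type := E Pt →L[ℂ] E Pt

/-- generating operators -/
def Gen : Set BE := {x | ∃ f, Good f ∧ x = T f}

theorem gen_mul : Gen * Gen ⊆ Gen := by
  rintro _ ⟨_, ⟨f, hf, rfl⟩, _, ⟨g, hg, rfl⟩, rfl⟩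
  exact ⟨g.trans f, hg.trans hf, (T_trans g f).symm⟩

/-- the dense star subalgebra -/
def A0 : NonUnitalStarSubalgebra ℂ BE where
  carrier := (Submodule.span ℂ Gen : Set BE)
  add_mem' := fun ha hb => Submodule.add_mem _ ha hb
  zero_mem' := Submodule.zero_mem _
  smul_mem' := fun c _ hx => Submodule.smul_mem _ c hx
  mul_mem' := by
    intro a b ha hb
    have h1 : a * b ∈ Submodule.span ℂ Gen * Submodule.span ℂ Gen := Submodule.mul_mem_mul ha hb
    rw [Submodule.span_mul_span] at h1
    exact Submodule.span_mono gen_mul h1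
  star_mem' := by
    intro a ha
    have ha' : a ∈ Submodule.span ℂ Gen := ha
    show star a ∈ Submodule.span ℂ Gen
    induction ha' using Submodule.span_induction with
    | mem x hx =>
      obtain ⟨f, hf, rfl⟩ := hx
      rw [T_star]
      exact Submodule.subset_span ⟨f.symm, hf.symm, rfl⟩
    | zero => rw [star_zero]; exact Submodule.zero_mem _
    | add x y hx hy ihx ihy => rw [star_add]; exact Submodule.add_mem _ (ihx hx) (ihy hy)
    | smul c x hx ih => rw [star_smul]; exact Submodule.smul_mem _ _ (ih hx)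

/-- the C*-algebra -/
def Alg : NonUnitalStarSubalgebra ℂ BE := A0.topologicalClosure

instance closedAlg : IsClosed (Alg : Set BE) := NonUnitalStarSubalgebra.isClosed_topologicalClosure _

/-- the C*-algebra as a type -/
abbrev AT : Type := Alg

theorem mem_of_span {x : BE} (h : x ∈ Submodule.span ℂ Gen) : x ∈ Alg :=
  NonUnitalStarSubalgebra.le_topologicalClosure _ h

/-- generators -/
def gn (f : Pt ≃. Pt) (hf : Good f) : AT := ⟨T f, mem_of_span (Submodule.subset_span ⟨f, hf, rfl⟩)⟩

theorem exists_approx (x : AT) {ε : ℝ} (hε : 0 < ε) :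
    ∃ x0 ∈ Submodule.span ℂ Gen, ‖x.1 - x0‖ < ε := by
  have h : x.1 ∈ closure (A0 : Set BE) := x.2
  obtain ⟨b, hb, hb'⟩ := Metric.mem_closure_iff.mp h ε hε
  exact ⟨b, hb, by rw [← dist_eq_norm]; exact hb'⟩

theorem eq_top_of_gen {I : Submodule ℂ AT} (hI : IsClosed (I : Set AT))
    (h : ∀ f hf, gn f hf ∈ I) : I = ⊤ := by
  have h1 : ∀ x (hx : x ∈ Submodule.span ℂ Gen), (⟨x, mem_of_span hx⟩ : AT) ∈ I := by
    intro x hx
    induction hx using Submodule.span_induction with
    | mem x hx => obtain ⟨f, hf, rfl⟩ := hx; exact h f hf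
    | zero => exact I.zero_mem
    | add x y hx hy ihx ihy => exact I.add_mem ihx ihy
    | smul c x hx ih => exact I.smul_mem c ih
  rw [eq_top_iff]
  intro x _
  have h2 : x ∈ closure (I : Set AT) := by
    rw [Metric.mem_closure_iff]
    intro ε hε
    obtain ⟨x0, hx0, hx0'⟩ := exists_approx x hε
    exact ⟨⟨x0, mem_of_span hx0⟩, h1 x0 hx0, by rw [dist_eq_norm]; exact hx0'⟩
  rwa [hI.closure_eq] at h2

/-- compression of finite sums -/
theorem compress_span (p : Pt) {x : BE} (hx : x ∈ Submodule.span ℂ Gen) :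
    ∃ N0, ∀ N, N0 ≤ N → T (rh p N).symm * x * T (rh p N) = mc x p p • (1 : BE) := by
  induction hx using Submodule.span_induction with
  | mem x hx =>
    obtain ⟨f, hf, rfl⟩ := hx
    obtain ⟨N0, g, hN0⟩ := hf.1
    refine ⟨N0, fun N hN => ?_⟩
    have h1 := rh_compress (hN0.mono hN) p
    rw [mul_assoc, ← T_trans, ← T_trans, h1, mc_T]
    split_ifs
    · rw [T_refl, one_smul]
    · rw [T_bot, zero_smul]
  | zero => exact ⟨0, fun N _ => by rw [mul_zero, zero_mul, mc_zero, zero_smul]⟩
  | add x y hx hy ihx ihy =>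
    obtain ⟨N1, h1⟩ := ihx
    obtain ⟨N2, h2⟩ := ihy
    refine ⟨max N1 N2, fun N hN => ?_⟩
    rw [mul_add, add_mul, h1 N ((le_max_left _ _).trans hN), h2 N ((le_max_right _ _).trans hN),
      mc_add, add_smul]
  | smul c x hx ih =>
    obtain ⟨N1, h1⟩ := ih
    refine ⟨N1, fun N hN => ?_⟩
    rw [mul_smul_comm, smul_mul_assoc, h1 N hN, mc_smul, smul_smul]

end Q90.ZS
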