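import Pool.Agent.Q90.ZsOp

set_option autoImplicit false

/-!
Partial bijections of `ℕ → ℝ` which are eventually translations.
-/

noncomputable section

namespace Q90.ZS

/-- points -/
abbrev Pt : Type := ℕ → ℝ

/-- `f` is the translation by `g` on the coordinates `≥ N`, and depends only on the other ones -/
structure Cyl (N : ℕ) (g : ℝ) (f : Pt ≃. Pt) : Prop where
  tail : ∀ {x y : Pt}, y ∈ f x → ∀ n, N ≤ n → y n = x n + g
  cyl : ∀ {x y x' y' : Pt}, y ∈ f x → (∀ n, n < N → x' n = x n) → (∀ n, n < N → y' n = y n) →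
    (∀ n, N ≤ n → y' n = x' n + g) → y' ∈ f x'

theorem Cyl.mono {N M : ℕ} {g : ℝ} {f : Pt ≃. Pt} (h : Cyl N g f) (hNM : N ≤ M) : Cyl M g f where
  tail hxy n hn := h.tail hxy n (hNM.trans hn)
  cyl := by
    intro x y x' y' hxy h1 h2 h3
    refine h.cyl hxy (fun n hn => h1 n (hn.trans_le hNM)) (fun n hn => h2 n (hn.trans_le hNM))
      fun n hn => ?_
    by_cases hM : M ≤ n
    · exact h3 n hM
    · rw [h2 n (not_le.mp hM), h1 n (not_le.mp hM), h.tail hxy n hn]

theorem Cyl.symm {N : ℕ} {g : ℝ} {f : Pt ≃. Pt} (h : Cyl N g f) : Cyl N (-g) f.symm where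
  tail := by
    intro x y hxy n hn
    have := h.tail (f.mem_iff_mem.mp hxy) n hn
    rw [this]; ring
  cyl := by
    intro x y x' y' hxy h1 h2 h3
    rw [PEquiv.mem_iff_mem]
    refine h.cyl (f.mem_iff_mem.mp hxy) h2 h1 fun n hn => ?_
    rw [h3 n hn]; ring

theorem Cyl.trans {N : ℕ} {g g' : ℝ} {f f' : Pt ≃. Pt} (h : Cyl N g f) (h' : Cyl N g' f') :
    Cyl N (g + g') (f.trans f') where
  tail := by
    intro x z hxz n hn
    obtain ⟨y, hy, hz⟩ := (PEquiv.mem_trans f f' x z).mp hxz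
    rw [h'.tail hz n hn, h.tail hy n hn]; ring
  cyl := by
    intro x z x' z' hxz h1 h2 h3
    obtain ⟨y, hy, hz⟩ := (PEquiv.mem_trans f f' x z).mp hxz
    refine (PEquiv.mem_trans f f' x' z').mpr ⟨fun n => if n < N then y n else x' n + g, ?_, ?_⟩
    · refine h.cyl hy h1 (fun n hn => if_pos hn) fun n hn => if_neg (not_lt.mpr hn)
    · refine h'.cyl hz (fun n hn => if_pos hn) h2 fun n hn => ?_
      show z' n = (if n < N then y n else x' n + g) + g'
      rw [if_neg (not_lt.mpr hn), h3 n hn]; ring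

/-- eventually a translation -/
def EvT (f : Pt ≃. Pt) : Prop := ∃ N g, Cyl N g f

theorem EvT.symm {f : Pt ≃. Pt} (h : EvT f) : EvT f.symm := by
  obtain ⟨N, g, h⟩ := h
  exact ⟨N, -g, h.symm⟩

theorem EvT.trans {f f' : Pt ≃. Pt} (h : EvT f) (h' : EvT f') : EvT (f.trans f') := by
  obtain ⟨N, g, h⟩ := h
  obtain ⟨N', g', h'⟩ := h'
  exact ⟨max N N', g + g', (h.mono (le_max_left _ _)).trans (h'.mono (le_max_right _ _))⟩

/-- the domain is contained in `{x | x n = a}` -/
def DomIn (n : ℕ) (a : ℝ) (f : Pt ≃. Pt) : Prop := ∀ x y, y ∈ f x → x n = a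

theorem DomIn.trans {n : ℕ} {a : ℝ} {f : Pt ≃. Pt} (h : DomIn n a f) (f' : Pt ≃. Pt) :
    DomIn n a (f.trans f') := by
  intro x z hxz
  obtain ⟨y, hy, _⟩ := (PEquiv.mem_trans f f' x z).mp hxz
  exact h x y hy

/-- good partial bijections -/
def Good (f : Pt ≃. Pt) : Prop := EvT f ∧ (∃ n a, DomIn n a f) ∧ ∃ n a, DomIn n a f.symm

theorem Good.symm {f : Pt ≃. Pt} (h : Good f) : Good f.symm :=
  ⟨h.1.symm, h.2.2, by rw [PEquiv.symm_symm]; exact h.2.1⟩

theorem Good.trans {f f' : Pt ≃. Pt} (h : Good f) (h' : Good f') : Good (f.trans f') := by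
  obtain ⟨h1, ⟨n, a, h2⟩, _⟩ := h
  obtain ⟨h1', _, ⟨m, b, h3'⟩⟩ := h'
  refine ⟨h1.trans h1', ⟨n, a, h2.trans f'⟩, m, b, ?_⟩
  rw [PEquiv.symm_trans_rev]
  exact h3'.trans _

open Classical in
/-- the identity of `{x | x n = a}` -/
def en (n : ℕ) (a : ℝ) : Pt ≃. Pt := PEquiv.ofSet {x : Pt | x n = a}

open Classical in
theorem mem_en {n : ℕ} {a : ℝ} {x y : Pt} : y ∈ en n a x ↔ y = x ∧ x n = a := by
  unfold en
  rw [PEquiv.mem_ofSet_iff]
  constructor
  · rintro ⟨h1, h2⟩
    exact ⟨h1, h1 ▸ h2⟩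
  · rintro ⟨rfl, h2⟩
    exact ⟨rfl, h2⟩

theorem en_symm (n : ℕ) (a : ℝ) : (en n a).symm = en n a := PEquiv.ofSet_symm _

theorem cyl_en (n : ℕ) (a : ℝ) : Cyl (n + 1) 0 (en n a) where
  tail := by
    intro x y hxy k _
    rw [(mem_en.mp hxy).1, add_zero]
  cyl := by
    intro x y x' y' hxy h1 h2 h3
    obtain ⟨rfl, hx⟩ := mem_en.mp hxy
    rw [mem_en]
    refine ⟨funext fun k => ?_, ?_⟩
    · by_cases hk : k < n + 1
      · rw [h2 k hk, h1 k hk]
      · rw [h3 k (not_lt.mp hk), add_zero]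
    · rw [h1 n (Nat.lt_succ_self n)]; exact hx

theorem domIn_en (n : ℕ) (a : ℝ) : DomIn n a (en n a) := fun _ _ h => (mem_en.mp h).2

theorem good_en (n : ℕ) (a : ℝ) : Good (en n a) :=
  ⟨⟨n + 1, 0, cyl_en n a⟩, ⟨n, a, domIn_en n a⟩, n, a, by rw [en_symm]; exact domIn_en n a⟩

/-- a good partial bijection restricted to a set containing the domain -/
theorem en_trans {n : ℕ} {a : ℝ} {f : Pt ≃. Pt} (h : DomIn n a f) : (en n a).trans f = f := by
  ext x y
  constructor
  · intro hy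
    obtain ⟨z, hz, hy'⟩ := (PEquiv.mem_trans _ _ x y).mp hy
    rw [(mem_en.mp hz).1] at hy'
    exact hy'
  · intro hy
    exact (PEquiv.mem_trans _ _ x y).mpr ⟨x, mem_en.mpr ⟨rfl, h x y hy⟩, hy⟩

/-- translations -/
def shE (g : ℝ) : Pt ≃ Pt where
  toFun x := fun n => x n + g
  invFun x := fun n => x n - g
  left_inv x := by funext n; simp
  right_inv x := by funext n; simp

/-- the translation by `g` on `{x | x n = a}` -/
def tl (n : ℕ) (a g : ℝ) : Pt ≃. Pt := (en n a).trans (shE g).toPEquiv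

theorem mem_tl {n : ℕ} {a g : ℝ} {x y : Pt} :
    y ∈ tl n a g x ↔ (y = fun k => x k + g) ∧ x n = a := by
  unfold tl
  rw [PEquiv.mem_trans]
  constructor
  · rintro ⟨z, hz, hy⟩
    obtain ⟨rfl, h⟩ := mem_en.mp hz
    refine ⟨?_, h⟩
    have h1 : (shE g).toPEquiv z = some y := hy
    rw [Equiv.toPEquiv_apply] at h1
    exact (Option.some.inj h1).symm
  · rintro ⟨rfl, h⟩
    exact ⟨x, mem_en.mpr ⟨rfl, h⟩, rfl⟩

theorem good_tl (n : ℕ) (a g : ℝ) : Good (tl n a g) := by
  refine ⟨⟨n + 1, g, ?_, ?_⟩, ⟨n, a, fun x y h => (mem_tl.mp h).2⟩, n, a + g, ?_⟩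
  · intro x y hxy k _
    rw [(mem_tl.mp hxy).1]
  · intro x y x' y' hxy h1 h2 h3
    obtain ⟨rfl, hx⟩ := mem_tl.mp hxy
    rw [mem_tl]
    refine ⟨funext fun k => ?_, ?_⟩
    · by_cases hk : k < n + 1
      · rw [h2 k hk, h1 k hk]
      · rw [h3 k (not_lt.mp hk)]
    · rw [h1 n (Nat.lt_succ_self n)]; exact hx
  · intro y x h
    obtain ⟨rfl, hx⟩ := mem_tl.mp ((tl n a g).mem_iff_mem.mp h)
    show x n + g = a + g
    rw [hx]

/-- restricting a translation before or after -/
theorem tl_en (n : ℕ) (a g : ℝ) (m : ℕ) (b : ℝ) :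
    (tl n a g).trans (en m b) = (en m (b - g)).trans (tl n a g) := by
  ext x y
  show y ∈ (tl n a g).trans (en m b) x ↔ y ∈ (en m (b - g)).trans (tl n a g) x
  rw [PEquiv.mem_trans, PEquiv.mem_trans]
  constructor
  · rintro ⟨z, hz, hy⟩
    obtain ⟨rfl, hx⟩ := mem_tl.mp hz
    obtain ⟨rfl, hm⟩ := mem_en.mp hy
    refine ⟨x, mem_en.mpr ⟨rfl, ?_⟩, mem_tl.mpr ⟨rfl, hx⟩⟩
    have : x m + g = b := hm
    linarith
  · rintro ⟨z, hz, hy⟩
    obtain ⟨rfl, hm⟩ := mem_en.mp hz
    obtain ⟨rfl, hx⟩ := mem_tl.mp hy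
    refine ⟨_, mem_tl.mpr ⟨rfl, hx⟩, mem_en.mpr ⟨rfl, ?_⟩⟩
    show z m + g = b
    rw [hm]; ring

/-- the partial bijection of an injective map -/
def ofInj (ρ : Pt → Pt) (h : Function.Injective ρ) : Pt ≃. Pt where
  toFun x := some (ρ x)
  invFun y := by
    classical
    exact if h : ∃ x, ρ x = y then some h.choose else none
  inv x y := by
    classical
    show x ∈ (if h : ∃ x, ρ x = y then some h.choose else none) ↔ y ∈ some (ρ x)
    constructor
    · intro hx
      split_ifs at hx with hy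
      · rw [Option.mem_some_iff] at hx
        rw [Option.mem_some_iff, ← hx]
        exact hy.choose_spec
      · simp at hx
    · intro hy
      rw [Option.mem_some_iff] at hy
      have hy' : ∃ x, ρ x = y := ⟨x, hy⟩
      rw [dif_pos hy', Option.mem_some_iff]
      exact h (hy'.choose_spec.trans hy.symm)

theorem mem_ofInj {ρ : Pt → Pt} {h : Function.Injective ρ} {x y : Pt} :
    y ∈ ofInj ρ h x ↔ ρ x = y := by
  show y ∈ some (ρ x) ↔ _
  rw [Option.mem_some_iff]

theorem exists_code (N : ℕ) : Nonempty ((Fin N → ℝ) ↪ ℝ) := by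
  rw [← Cardinal.le_def, Cardinal.mk_pi]
  simp only [Cardinal.prod_const, Cardinal.lift_id, Cardinal.mk_fin]
  exact Cardinal.power_nat_le (by rw [Cardinal.mk_real]; exact Cardinal.aleph0_le_continuum)

/-- a code of finitely many coordinates -/
def code (N : ℕ) : (Fin N → ℝ) ↪ ℝ := (exists_code N).some

/-- the compression map -/
def rho (p : Pt) (N : ℕ) (w : Pt) : Pt := fun n =>
  if n < N then p n else if n = N then 0 else
    if n = N + 1 then code (N + 2) (fun i => w i) else w n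

theorem rho_lt {p : Pt} {N : ℕ} {w : Pt} {n : ℕ} (h : n < N) : rho p N w n = p n := if_pos h

theorem rho_N {p : Pt} {N : ℕ} {w : Pt} : rho p N w N = 0 := by
  unfold rho
  rw [if_neg (lt_irrefl N), if_pos rfl]

theorem rho_code {p : Pt} {N : ℕ} {w : Pt} :
    rho p N w (N + 1) = code (N + 2) (fun i => w i) := by
  unfold rho
  rw [if_neg (by omega), if_neg (by omega), if_pos rfl]

theorem rho_ge {p : Pt} {N : ℕ} {w : Pt} {n : ℕ} (h : N + 2 ≤ n) : rho p N w n = w n := by
  unfold rho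
  rw [if_neg (by omega), if_neg (by omega), if_neg (by omega)]

theorem rho_inj (p : Pt) (N : ℕ) : Function.Injective (rho p N) := by
  intro w w' h
  funext n
  by_cases hn : n < N + 2
  · have h1 := congrFun h (N + 1)
    rw [rho_code, rho_code] at h1
    exact congrFun ((code (N + 2)).injective h1) ⟨n, hn⟩
  · have h1 := congrFun h n
    rwa [rho_ge (not_lt.mp hn), rho_ge (not_lt.mp hn)] at h1

/-- the compression -/
def rh (p : Pt) (N : ℕ) : Pt ≃. Pt := ofInj (rho p N) (rho_inj p N)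

theorem mem_rh {p : Pt} {N : ℕ} {x y : Pt} : y ∈ rh p N x ↔ rho p N x = y := mem_ofInj

theorem cyl_rh (p : Pt) (N : ℕ) : Cyl (N + 2) 0 (rh p N) where
  tail := by
    intro x y hxy n hn
    rw [← mem_rh.mp hxy, rho_ge hn, add_zero]
  cyl := by
    intro x y x' y' hxy h1 h2 h3
    rw [mem_rh] at hxy ⊢
    subst hxy
    funext n
    by_cases hn : n < N + 2
    · rw [h2 n hn]
      unfold rho
      split_ifs with _ _ _
      · rfl
      · rfl
      · congr 1
        funext i
        exact h1 i i.2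
      · omega
    · rw [h3 n (not_lt.mp hn), rho_ge (not_lt.mp hn), add_zero]

theorem rh_self (p : Pt) (N : ℕ) : (rh p N).trans (rh p N).symm = PEquiv.refl Pt := by
  rw [PEquiv.trans_symm_eq_iff_forall_isSome]
  intro a
  rfl

/-- the compression of a cylindrical partial bijection is trivial -/
theorem rh_compress {N : ℕ} {g : ℝ} {f : Pt ≃. Pt} (hf : Cyl N g f) (p : Pt) :
    ((rh p N).trans f).trans (rh p N).symm = (open Classical in
      if p ∈ f p then PEquiv.refl Pt else ⊥) := by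
  classical
  split_ifs with hp
  · have hg : g = 0 := by
      have := hf.tail hp N le_rfl
      linarith
    subst hg
    have key : ∀ w, rho p N w ∈ f (rho p N w) := by
      intro w
      exact hf.cyl hp (fun n hn => rho_lt hn) (fun n hn => rho_lt hn) fun n _ => (add_zero _).symm
    ext x y
    show y ∈ ((rh p N).trans f).trans (rh p N).symm x ↔ y ∈ PEquiv.refl Pt x
    rw [PEquiv.mem_trans]
    constructor
    · rintro ⟨z, hz, hy⟩
      obtain ⟨v, hv, hz'⟩ := (PEquiv.mem_trans _ _ x z).mp hz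
      rw [mem_rh] at hv
      subst hv
      have h1 : f (rho p N x) = some (rho p N x) := key x
      have h2 : f (rho p N x) = some z := hz'
      rw [h1] at h2
      have h3 := Option.some.inj h2
      subst h3
      rw [PEquiv.mem_iff_mem, mem_rh] at hy
      have := rho_inj p N hy
      subst this
      rfl
    · intro hy
      have h1 : PEquiv.refl Pt x = some y := hy
      rw [PEquiv.refl_apply] at h1
      have h2 := Option.some.inj h1
      subst h2
      refine ⟨rho p N x, (PEquiv.mem_trans _ _ _ _).mpr ⟨rho p N x, mem_rh.mpr rfl, key x⟩, ?_⟩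
      rw [PEquiv.mem_iff_mem, mem_rh]
  · ext x y
    constructor
    · intro h
      exfalso
      obtain ⟨z, hz, hy⟩ := (PEquiv.mem_trans _ _ x y).mp h
      obtain ⟨v, hv, hz'⟩ := (PEquiv.mem_trans _ _ x z).mp hz
      rw [mem_rh] at hv
      subst hv
      rw [PEquiv.mem_iff_mem, mem_rh] at hy
      subst hy
      have hg : g = 0 := by
        have := hf.tail hz' N le_rfl
        rw [rho_N, rho_N] at this
        linarith
      subst hg
      apply hp
      refine hf.cyl hz' (fun n hn => (rho_lt hn).symm) (fun n hn => (rho_lt hn).symm)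
        fun n _ => (add_zero _).symm
    · intro h
      exact absurd h (by rw [PEquiv.bot_apply]; simp)

end Q90.ZS
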