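import Mathlib

set_option autoImplicit false

/-!
Operators on `ℓ²` given by partial bijections of the index set.
-/

open scoped ENNReal InnerProductSpace

noncomputable section

namespace Q90.ZS

/-- `ℓ²(Z)` -/
abbrev E (Z : Type) : Type := lp (fun _ : Z => ℂ) 2

variable {Z : Type}

theorem two_pos : 0 < (2 : ℝ≥0∞).toReal := by norm_num

/-- transport of a function along a partial bijection -/
def pf (f : Z ≃. Z) (ξ : Z → ℂ) (y : Z) : ℂ := (f.symm y).elim 0 ξ

theorem pf_some {f : Z ≃. Z} {x y : Z} (h : y ∈ f x) (ξ : Z → ℂ) : pf f ξ y = ξ x := by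
  have h' : f.symm y = some x := (PEquiv.eq_some_iff f).mpr h
  unfold pf
  rw [h']; rfl

theorem pf_none {f : Z ≃. Z} {y : Z} (h : ∀ x, y ∉ f x) (ξ : Z → ℂ) : pf f ξ y = 0 := by
  have h' : f.symm y = none := by
    rw [Option.eq_none_iff_forall_not_mem]
    intro x hx
    exact h x (f.mem_iff_mem.mp hx)
  unfold pf
  rw [h']; rfl

theorem pf_sum (f : Z ≃. Z) (ξ : Z → ℂ) (s : Finset Z) :
    ∃ t : Finset Z, (∀ x ∈ t, ∃ y ∈ s, y ∈ f x) ∧
      ∑ y ∈ s, ‖pf f ξ y‖ ^ (2 : ℝ≥0∞).toReal = ∑ x ∈ t, ‖ξ x‖ ^ (2 : ℝ≥0∞).toReal := by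
  classical
  induction s using Finset.induction_on with
  | empty => exact ⟨∅, by simp, by simp⟩
  | insert y s hy ih =>
    obtain ⟨t, ht, hs⟩ := ih
    by_cases h : ∃ x, y ∈ f x
    · obtain ⟨x, hx⟩ := h
      have hxt : x ∉ t := by
        intro hxt
        obtain ⟨y', hy', hy''⟩ := ht x hxt
        have : y = y' := by
          have h1 : f x = some y := hx
          have h2 : f x = some y' := hy''
          rw [h1] at h2
          exact Option.some.inj h2
        exact hy (this ▸ hy')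
      refine ⟨insert x t, ?_, ?_⟩
      · intro x' hx'
        rcases Finset.mem_insert.mp hx' with rfl | hx'
        · exact ⟨y, Finset.mem_insert_self _ _, hx⟩
        · obtain ⟨y', h1, h2⟩ := ht x' hx'
          exact ⟨y', Finset.mem_insert_of_mem h1, h2⟩
      · rw [Finset.sum_insert hy, Finset.sum_insert hxt, hs, pf_some hx]
    · push Not at h
      refine ⟨t, fun x hx => ?_, ?_⟩
      · obtain ⟨y', h1, h2⟩ := ht x hx
        exact ⟨y', Finset.mem_insert_of_mem h1, h2⟩
      · rw [Finset.sum_insert hy, hs, pf_none h, norm_zero,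
          Real.zero_rpow two_pos.ne', zero_add]

theorem pf_bound (f : Z ≃. Z) (ξ : E Z) (s : Finset Z) :
    ∑ y ∈ s, ‖pf f ξ y‖ ^ (2 : ℝ≥0∞).toReal ≤ ‖ξ‖ ^ (2 : ℝ≥0∞).toReal := by
  obtain ⟨t, _, ht⟩ := pf_sum f ξ s
  rw [ht]
  exact lp.sum_rpow_le_norm_rpow two_pos ξ t

/-- the operator of a partial bijection -/
def T (f : Z ≃. Z) : E Z →L[ℂ] E Z :=
  LinearMap.mkContinuous
    { toFun := fun ξ => ⟨pf f ξ, memℓp_gen' (pf_bound f ξ)⟩
      map_add' := fun ξ η => by
        ext y
        show pf f (ξ + η : E Z) y = pf f ξ y + pf f η y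
        unfold pf
        cases f.symm y with
        | none => exact (add_zero (0 : ℂ)).symm
        | some x => rfl
      map_smul' := fun c ξ => by
        ext y
        show pf f (c • ξ : E Z) y = c • pf f ξ y
        unfold pf
        cases f.symm y with
        | none => exact (smul_zero c).symm
        | some x => rfl } 1 (by
    intro ξ
    rw [one_mul]
    exact lp.norm_le_of_forall_sum_le two_pos (norm_nonneg _) (pf_bound f ξ))

theorem T_apply (f : Z ≃. Z) (ξ : E Z) (y : Z) : (T f ξ : Z → ℂ) y = pf f ξ y := rfl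

theorem norm_T (f : Z ≃. Z) : ‖T f‖ ≤ 1 := LinearMap.mkContinuous_norm_le _ zero_le_one _

open Classical in
/-- basis vectors -/
def dl (x : Z) : E Z := lp.single 2 x (1 : ℂ)

theorem dl_same (x : Z) : (dl x : Z → ℂ) x = 1 := by
  classical
  exact lp.single_apply_self _ _ _

theorem dl_ne {x y : Z} (h : y ≠ x) : (dl x : Z → ℂ) y = 0 := by
  classical
  exact lp.single_apply_ne _ _ _ h

theorem norm_dl (x : Z) : ‖dl x‖ = 1 := by
  classical
  unfold dl
  rw [lp.norm_single (by norm_num)]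
  exact norm_one

/-- matrix coefficients -/
def mc (A : E Z →L[ℂ] E Z) (y x : Z) : ℂ := (A (dl x) : Z → ℂ) y

theorem mc_add (A B : E Z →L[ℂ] E Z) (y x : Z) : mc (A + B) y x = mc A y x + mc B y x := rfl
theorem mc_sub (A B : E Z →L[ℂ] E Z) (y x : Z) : mc (A - B) y x = mc A y x - mc B y x := rfl
theorem mc_smul (c : ℂ) (A : E Z →L[ℂ] E Z) (y x : Z) : mc (c • A) y x = c * mc A y x := rfl
theorem mc_zero (y x : Z) : mc (0 : E Z →L[ℂ] E Z) y x = 0 := rfl

theorem mc_le (A : E Z →L[ℂ] E Z) (y x : Z) : ‖mc A y x‖ ≤ ‖A‖ := by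
  unfold mc
  refine (lp.norm_apply_le_norm (by norm_num) _ y).trans ?_
  refine (A.le_opNorm _).trans ?_
  rw [norm_dl, mul_one]

theorem inner_dl (x : Z) (ξ : E Z) : ⟪dl x, ξ⟫_ℂ = (ξ : Z → ℂ) x := by
  classical
  unfold dl
  rw [lp.inner_single_left]
  simp

theorem ext_dl {A B : E Z →L[ℂ] E Z} (h : ∀ x, A (dl x) = B (dl x)) : A = B := by
  classical
  ext1 ξ
  have hs := lp.hasSum_single (p := 2) (by norm_num) ξ
  have h1 := A.hasSum hs
  have h2 := B.hasSum hs
  refine h1.unique ?_
  convert h2 using 1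
  funext x
  have e : (lp.single 2 x ((ξ : Z → ℂ) x) : E Z) = ((ξ : Z → ℂ) x) • dl x := by
    unfold dl
    rw [← lp.single_smul, smul_eq_mul, mul_one]
  show A (lp.single 2 x ((ξ : Z → ℂ) x)) = B (lp.single 2 x ((ξ : Z → ℂ) x))
  rw [e, map_smul, map_smul, h]

theorem ext_mc {A B : E Z →L[ℂ] E Z} (h : ∀ y x, mc A y x = mc B y x) : A = B := by
  refine ext_dl fun x => ?_
  ext y
  exact h y x

theorem mc_star (A : E Z →L[ℂ] E Z) (y x : Z) :
    mc (star A) y x = (starRingEnd ℂ) (mc A x y) := by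
  have h : mc (star A) y x = ⟪dl y, star A (dl x)⟫_ℂ := (inner_dl _ _).symm
  rw [h, ContinuousLinearMap.star_eq_adjoint, ContinuousLinearMap.adjoint_inner_right,
    ← inner_conj_symm, inner_dl]
  rfl

theorem T_dl {f : Z ≃. Z} {x y : Z} (h : y ∈ f x) : T f (dl x) = dl y := by
  ext z
  rw [T_apply]
  by_cases hz : ∃ w, z ∈ f w
  · obtain ⟨w, hw⟩ := hz
    rw [pf_some hw]
    by_cases hwx : w = x
    · subst hwx
      have : y = z := by
        have h1 : f w = some y := h
        have h2 : f w = some z := hw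
        rw [h1] at h2; exact Option.some.inj h2
      subst this
      rw [dl_same, dl_same]
    · have : z ≠ y := fun hzy => hwx (f.inj hw (hzy ▸ h))
      rw [dl_ne hwx, dl_ne this]
  · push Not at hz
    rw [pf_none hz]
    have : z ≠ y := fun hzy => hz x (hzy ▸ h)
    rw [dl_ne this]

theorem T_dl_none {f : Z ≃. Z} {x : Z} (h : f x = none) : T f (dl x) = 0 := by
  ext z
  rw [T_apply]
  by_cases hz : ∃ w, z ∈ f w
  · obtain ⟨w, hw⟩ := hz
    rw [pf_some hw]
    have hwx : w ≠ x := by
      rintro rfl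
      have h2 : f w = some z := hw
      rw [h] at h2; cases h2
    rw [dl_ne hwx]; rfl
  · push Not at hz
    rw [pf_none hz]; rfl

theorem T_refl : T (PEquiv.refl Z) = 1 := by
  refine ext_dl fun x => ?_
  rw [T_dl (show x ∈ PEquiv.refl Z x from rfl)]; rfl

theorem T_bot : T (⊥ : Z ≃. Z) = 0 := by
  refine ext_dl fun x => ?_
  rw [T_dl_none rfl]; rfl

theorem T_trans (f g : Z ≃. Z) : T (f.trans g) = T g * T f := by
  refine ext_dl fun x => ?_
  rw [mul_apply_eq_comp]
  cases hx : f x with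
  | none =>
    rw [T_dl_none hx, map_zero]
    refine T_dl_none ?_
    rw [PEquiv.trans_eq_none]
    intro b c
    left
    rw [hx]; simp
  | some y =>
    have hy : y ∈ f x := hx
    rw [T_dl hy]
    cases hz : g y with
    | none =>
      rw [T_dl_none hz]
      refine T_dl_none ?_
      rw [PEquiv.trans_eq_none]
      intro b c
      by_cases hb : b = y
      · right; rw [hb, hz]; simp
      · left
        intro h
        have h2 : f x = some b := h
        rw [hx] at h2
        exact hb (Option.some.inj h2).symm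
    | some z =>
      have hz' : z ∈ g y := hz
      rw [T_dl hz']
      exact T_dl ((PEquiv.mem_trans f g x z).mpr ⟨y, hy, hz'⟩)

open Classical in
theorem mc_T (f : Z ≃. Z) (y x : Z) : mc (T f) y x = if y ∈ f x then 1 else 0 := by
  unfold mc
  rw [T_apply]
  split_ifs with h
  · rw [pf_some h, dl_same]
  · by_cases hz : ∃ w, y ∈ f w
    · obtain ⟨w, hw⟩ := hz
      rw [pf_some hw]
      have : w ≠ x := fun hwx => h (hwx ▸ hw)
      exact dl_ne this
    · push Not at hz
      rw [pf_none hz]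

theorem T_star (f : Z ≃. Z) : star (T f) = T f.symm := by
  classical
  refine ext_mc fun y x => ?_
  rw [mc_star, mc_T, mc_T]
  have : (x ∈ f y) ↔ (y ∈ f.symm x) := (f.mem_iff_mem).symm
  by_cases h : x ∈ f y
  · rw [if_pos h, if_pos (this.mp h)]; simp
  · rw [if_neg h, if_neg (fun h' => h (this.mpr h'))]; simp

end Q90.ZS
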