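import Pool.Agent.Q90.ZsSimple

set_option autoImplicit false

/-!
No representation of the algebra contains an injective operator.
-/

open scoped ENNReal InnerProductSpace
open Filter Topology

noncomputable section

namespace Q90.ZS

section bessel

variable {H : Type*} [NormedAddCommGroup H] [InnerProductSpace ℂ H] [CompleteSpace H]

theorem bessel {ι : Type*} (P : ι → (H →L[ℂ] H)) (hs : ∀ i, star (P i) = P i)
    (hi : ∀ i, P i * P i = P i) (ho : ∀ i j, i ≠ j → P i * P j = 0) (ξ : H) (s : Finset ι) :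
    ∑ i ∈ s, ‖P i ξ‖ ^ 2 ≤ ‖ξ‖ ^ 2 := by
  classical
  have hin : ∀ i j (x y : H), ⟪P i x, P j y⟫_ℂ = ⟪x, (P i * P j) y⟫_ℂ := by
    intro i j x y
    have h1 : ⟪P i x, P j y⟫_ℂ = ⟪x, star (P i) (P j y)⟫_ℂ := by
      rw [ContinuousLinearMap.star_eq_adjoint, ContinuousLinearMap.adjoint_inner_right]
    rw [h1, hs]; rfl
  have h1 : ∀ i, (⟪ξ, P i ξ⟫_ℂ).re = ‖P i ξ‖ ^ 2 := by
    intro i
    have h2 := hin i i ξ ξ
    rw [hi] at h2
    rw [← h2, inner_self_eq_norm_sq_to_K]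
    norm_cast
  have h2 : ‖∑ i ∈ s, P i ξ‖ ^ 2 = ∑ i ∈ s, ‖P i ξ‖ ^ 2 := by
    have h3 : ((‖∑ i ∈ s, P i ξ‖ ^ 2 : ℝ) : ℂ) = ((∑ i ∈ s, ‖P i ξ‖ ^ 2 : ℝ) : ℂ) := by
      have h4 := inner_self_eq_norm_sq_to_K (𝕜 := ℂ) (∑ i ∈ s, P i ξ)
      push_cast
      rw [← Complex.coe_algebraMap] at *
      rw [sum_inner] at h4
      refine h4.symm.trans (Finset.sum_congr rfl fun i hi' => ?_)
      rw [inner_sum, Finset.sum_eq_single_of_mem i hi']
      · exact inner_self_eq_norm_sq_to_K _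
      · intro j _ hj
        rw [hin, ho i j (Ne.symm hj)]
        simp
    exact_mod_cast h3
  have h3 : ‖ξ - ∑ i ∈ s, P i ξ‖ ^ 2 = ‖ξ‖ ^ 2 - ∑ i ∈ s, ‖P i ξ‖ ^ 2 := by
    rw [@norm_sub_sq ℂ H, h2, inner_sum]
    have h4 : RCLike.re (∑ i ∈ s, ⟪ξ, P i ξ⟫_ℂ) = ∑ i ∈ s, ‖P i ξ‖ ^ 2 := by
      show (∑ i ∈ s, ⟪ξ, P i ξ⟫_ℂ).re = _
      rw [Complex.re_sum]
      exact Finset.sum_congr rfl fun i _ => h1 i
    rw [h4]; ring
  have := sq_nonneg ‖ξ - ∑ i ∈ s, P i ξ‖
  linarith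

theorem countable_nonzero {ι : Type*} (P : ι → (H →L[ℂ] H)) (hs : ∀ i, star (P i) = P i)
    (hi : ∀ i, P i * P i = P i) (ho : ∀ i j, i ≠ j → P i * P j = 0) (ξ : H) :
    {i | P i ξ ≠ 0}.Countable := by
  have h1 : Summable fun i => ‖P i ξ‖ ^ 2 :=
    summable_of_sum_le (fun i => by positivity) (bessel P hs hi ho ξ)
  refine h1.countable_support.mono fun i hi' => ?_
  have : 0 < ‖P i ξ‖ := norm_pos_iff.mpr hi'
  exact (by positivity : ‖P i ξ‖ ^ 2 ≠ 0)

end bessel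

theorem en_mul_self (n : ℕ) (a : ℝ) :
    gn (en n a) (good_en n a) * gn (en n a) (good_en n a) = gn (en n a) (good_en n a) := by
  rw [gn_mul (good_en n a) (good_en n a)]
  exact Subtype.ext (by rw [gn_val, gn_val, en_trans (domIn_en n a)])

theorem en_mul_ne (n : ℕ) {a b : ℝ} (h : a ≠ b) :
    gn (en n a) (good_en n a) * gn (en n b) (good_en n b) = 0 := by
  rw [gn_mul (good_en n b) (good_en n a)]
  apply Subtype.ext
  have e : (en n b).trans (en n a) = ⊥ := by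
    ext x y
    constructor
    · intro hy
      exfalso
      obtain ⟨z, hz, hy'⟩ := (PEquiv.mem_trans _ _ x y).mp hy
      obtain ⟨rfl, h1⟩ := mem_en.mp hz
      obtain ⟨rfl, h2⟩ := mem_en.mp hy'
      exact h (h2.symm.trans h1)
    · intro hy
      exact absurd hy (by rw [PEquiv.bot_apply]; simp)
  rw [gn_val, e, T_bot]; rfl

theorem en_star (n : ℕ) (a : ℝ) :
    star (gn (en n a) (good_en n a)) = gn (en n a) (good_en n a) := by
  rw [gn_star]
  exact Subtype.ext (by rw [gn_val, gn_val, en_symm])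

theorem mul_en {n : ℕ} {a : ℝ} {f : Pt ≃. Pt} (hf : Good f) (h : DomIn n a f) :
    gn f hf * gn (en n a) (good_en n a) = gn f hf := by
  rw [gn_mul (good_en n a) hf]
  exact Subtype.ext (by rw [gn_val, gn_val, en_trans h])

theorem en_mul_tl (n : ℕ) (a g : ℝ) (m : ℕ) (b : ℝ) :
    gn (en m b) (good_en m b) * gn (tl n a g) (good_tl n a g) =
      gn (tl n a g) (good_tl n a g) * gn (en m (b - g)) (good_en m (b - g)) := by
  rw [gn_mul (good_tl n a g) (good_en m b), gn_mul (good_en m (b - g)) (good_tl n a g)]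
  exact Subtype.ext (by rw [gn_val, gn_val, tl_en])

theorem star_tl_mul (n : ℕ) (a g : ℝ) :
    star (gn (tl n a g) (good_tl n a g)) * gn (tl n a g) (good_tl n a g) =
      gn (en n a) (good_en n a) := by
  rw [gn_star, gn_mul (good_tl n a g) (good_tl n a g).symm]
  apply Subtype.ext
  rw [gn_val, gn_val]
  congr 1
  ext x y
  show y ∈ (tl n a g).trans (tl n a g).symm x ↔ y ∈ en n a x
  rw [PEquiv.mem_trans, mem_en]
  constructor
  · rintro ⟨z, hz, hy⟩
    rw [PEquiv.mem_iff_mem] at hy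
    exact ⟨(tl n a g).inj hy hz, (mem_tl.mp hz).2⟩
  · rintro ⟨rfl, h⟩
    refine ⟨_, mem_tl.mpr ⟨rfl, h⟩, ?_⟩
    rw [PEquiv.mem_iff_mem]
    exact mem_tl.mpr ⟨rfl, h⟩

universe u

variable {H : Type u} [NormedAddCommGroup H] [InnerProductSpace ℂ H] [CompleteSpace H]
  (π : AT →⋆ₙₐ[ℂ] (H →L[ℂ] H))

theorem norm_π (a : AT) : ‖π a‖ ≤ ‖a‖ := NonUnitalStarAlgHom.norm_apply_le π a

/-- the images of the projections -/
def PP (n : ℕ) (a : ℝ) : H →L[ℂ] H := π (gn (en n a) (good_en n a))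

theorem span_letters {x : BE} (hx : x ∈ Submodule.span ℂ Gen) :
    ∃ C : Set ℝ, C.Countable ∧ ∀ η : H, (∀ n, ∀ b ∈ C, PP π n b η = 0) →
      π ⟨x, mem_of_span hx⟩ η = 0 := by
  induction hx using Submodule.span_induction with
  | mem x hx =>
    obtain ⟨f, hf, rfl⟩ := hx
    obtain ⟨n, a, h⟩ := hf.2.1
    refine ⟨{a}, Set.countable_singleton a, fun η hη => ?_⟩
    show π (gn f hf) η = 0
    rw [← mul_en hf h, map_mul]
    show π (gn f hf) (PP π n a η) = 0
    rw [hη n a rfl, map_zero]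
  | zero =>
    refine ⟨∅, Set.countable_empty, fun η _ => ?_⟩
    show π 0 η = 0
    rw [map_zero]; rfl
  | add x y hx hy ihx ihy =>
    obtain ⟨C, hC, h1⟩ := ihx
    obtain ⟨D, hD, h2⟩ := ihy
    refine ⟨C ∪ D, hC.union hD, fun η hη => ?_⟩
    have e : (⟨x + y, mem_of_span (Submodule.add_mem _ hx hy)⟩ : AT) =
      ⟨x, mem_of_span hx⟩ + ⟨y, mem_of_span hy⟩ := rfl
    rw [e, map_add]
    show π ⟨x, mem_of_span hx⟩ η + π ⟨y, mem_of_span hy⟩ η = 0
    rw [h1 η fun n b hb => hη n b (Or.inl hb), h2 η fun n b hb => hη n b (Or.inr hb), add_zero]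
  | smul c x hx ih =>
    obtain ⟨C, hC, h1⟩ := ih
    refine ⟨C, hC, fun η hη => ?_⟩
    have e : (⟨c • x, mem_of_span (Submodule.smul_mem _ c hx)⟩ : AT) =
      c • (⟨x, mem_of_span hx⟩ : AT) := rfl
    rw [e, map_smul]
    show c • π ⟨x, mem_of_span hx⟩ η = 0
    rw [h1 η hη, smul_zero]

theorem letters (a : AT) : ∃ C : Set ℝ, C.Countable ∧
    ∀ η : H, (∀ n, ∀ b ∈ C, PP π n b η = 0) → π a η = 0 := by
  choose x hx hx' using fun k : ℕ => exists_approx a (show (0 : ℝ) < 1 / (k + 1) by positivity)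
  choose C hC h1 using fun k : ℕ => span_letters π (hx k)
  refine ⟨⋃ k, C k, Set.countable_iUnion hC, fun η hη => ?_⟩
  have h2 : ∀ k, π ⟨x k, mem_of_span (hx k)⟩ η = 0 := fun k =>
    h1 k η fun n b hb => hη n b (Set.mem_iUnion.mpr ⟨k, hb⟩)
  rw [← norm_le_zero_iff]
  refine ge_of_tendsto' (f := fun k : ℕ => 1 / ((k : ℝ) + 1) * ‖η‖) (x := atTop) ?_ fun k => ?_
  · have := (tendsto_one_div_add_atTop_nhds_zero_nat (𝕜 := ℝ)).mul_const ‖η‖
    rwa [zero_mul] at this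
  · have h3 : π a η = π (a - ⟨x k, mem_of_span (hx k)⟩) η := by
      rw [map_sub]
      show _ = π a η - π ⟨x k, mem_of_span (hx k)⟩ η
      rw [h2 k, sub_zero]
    rw [h3]
    refine ((π (a - ⟨x k, mem_of_span (hx k)⟩)).le_opNorm η).trans ?_
    refine mul_le_mul_of_nonneg_right ?_ (norm_nonneg _)
    refine (norm_π π _).trans ?_
    exact (hx' k).le

theorem not_injective [Nontrivial H] (a : AT) : ¬ Function.Injective (π a) := by
  suffices h : ∃ η : H, η ≠ 0 ∧ π a η = 0 by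
    obtain ⟨η, hη, h⟩ := h
    intro hinj
    exact hη (hinj (by rw [h, map_zero]))
  obtain ⟨C, hC, hkill⟩ := letters π a
  by_cases h0 : ∀ n b, PP π n b = 0
  · obtain ⟨η, hη⟩ := exists_ne (0 : H)
    exact ⟨η, hη, hkill η fun n b _ => by rw [h0 n b]; rfl⟩
  push Not at h0
  obtain ⟨n0, a0, h0⟩ := h0
  obtain ⟨ξ, hξ⟩ : ∃ ξ, PP π n0 a0 ξ ≠ 0 := by
    by_contra hcon
    push Not at hcon
    exact h0 (ContinuousLinearMap.ext hcon)
  set ξ0 := PP π n0 a0 ξ with hξ0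
  have hfix : PP π n0 a0 ξ0 = ξ0 := by
    have h1 : PP π n0 a0 * PP π n0 a0 = PP π n0 a0 := by
      unfold PP
      rw [← map_mul, en_mul_self]
    exact congrArg (fun T : H →L[ℂ] H => T ξ) h1
  let S : Set ℝ := ⋃ n, {b | PP π n b ξ0 ≠ 0}
  have hS : S.Countable := by
    refine Set.countable_iUnion fun n => countable_nonzero (fun b => PP π n b) ?_ ?_ ?_ ξ0
    · intro b
      show star (π _) = π _
      rw [← map_star, en_star]
    · intro b
      show π _ * π _ = π _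
      rw [← map_mul, en_mul_self]
    · intro b c hbc
      show π _ * π _ = 0
      rw [← map_mul, en_mul_ne n hbc, map_zero]
  have hD : (Set.image2 (fun c s : ℝ => c - s) C S).Countable := hC.image2 hS _
  obtain ⟨g, hg⟩ := (hD.dense_compl ℝ).nonempty
  set t := gn (tl n0 a0 g) (good_tl n0 a0 g) with ht
  refine ⟨π t ξ0, ?_, hkill _ fun n b hb => ?_⟩
  · intro h
    have h1 : π (star t) (π t ξ0) = ξ0 := by
      have h2 : π (star t) * π t = PP π n0 a0 := by
        rw [← map_mul, ht, star_tl_mul]; rfl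
      have h3 := congrArg (fun T : H →L[ℂ] H => T ξ0) h2
      exact h3.trans hfix
    rw [h, map_zero] at h1
    exact hξ h1.symm
  · have h1 : PP π n b * π t = π t * PP π n (b - g) := by
      unfold PP
      rw [← map_mul, ht, en_mul_tl, map_mul]
    have h2 := congrArg (fun T : H →L[ℂ] H => T ξ0) h1
    refine h2.trans ?_
    show π t (PP π n (b - g) ξ0) = 0
    have h3 : PP π n (b - g) ξ0 = 0 := by
      by_contra hne
      apply hg
      exact ⟨b, hb, b - g, Set.mem_iUnion.mpr ⟨n, hne⟩, by ring⟩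
    rw [h3, map_zero]

theorem noInjective_AT : NoInjectiveOperators.{u} AT := by
  intro H _ _ _ _ π a
  exact not_injective π a

end Q90.ZS
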