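import Pool.Agent.Q90.ZsAlg

set_option autoImplicit false

/-!
Simplicity of the algebra, and an element which is not a zero divisor.
-/

open scoped ENNReal InnerProductSpace
open Filter Topology

noncomputable section

namespace Q90.ZS

theorem gn_val (f : Pt ≃. Pt) (hf : Good f) : (gn f hf).1 = T f := rfl

theorem gn_mul {f g : Pt ≃. Pt} (hf : Good f) (hg : Good g) :
    gn g hg * gn f hf = gn (f.trans g) (hf.trans hg) := Subtype.ext (T_trans f g).symm

theorem gn_star {f : Pt ≃. Pt} (hf : Good f) : star (gn f hf) = gn f.symm hf.symm :=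
  Subtype.ext (T_star f)

theorem domIn_rh_symm (p : Pt) (N : ℕ) : DomIn N 0 (rh p N).symm := by
  intro y x h
  rw [PEquiv.mem_iff_mem, mem_rh] at h
  rw [← h]; exact rho_N

theorem evT_rh (p : Pt) (N : ℕ) : EvT (rh p N) := ⟨N + 2, 0, cyl_rh p N⟩

theorem good_rh_left {f : Pt ≃. Pt} (hf : Good f) (p : Pt) (N : ℕ) :
    Good ((rh p N).symm.trans f) := by
  obtain ⟨h1, _, ⟨m, b, h3⟩⟩ := hf
  refine ⟨(evT_rh p N).symm.trans h1, ⟨N, 0, (domIn_rh_symm p N).trans f⟩, m, b, ?_⟩
  rw [PEquiv.symm_trans_rev]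
  exact h3.trans _

theorem good_rh_right {f : Pt ≃. Pt} (hf : Good f) (p : Pt) (N : ℕ) :
    Good (f.trans (rh p N)) := by
  obtain ⟨h1, ⟨n, a, h2⟩, _⟩ := hf
  refine ⟨h1.trans (evT_rh p N), ⟨n, a, h2.trans _⟩, N, 0, ?_⟩
  rw [PEquiv.symm_trans_rev]
  exact (domIn_rh_symm p N).trans _

theorem norm_mul_T_le (x : BE) (f g : Pt ≃. Pt) : ‖T f * x * T g‖ ≤ ‖x‖ := by
  refine (norm_mul_le _ _).trans ?_
  refine (mul_le_mul_of_nonneg_left (norm_T g) (norm_nonneg _)).trans ?_
  rw [mul_one]
  refine (norm_mul_le _ _).trans ?_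
  refine (mul_le_mul_of_nonneg_right (norm_T f) (norm_nonneg _)).trans ?_
  rw [one_mul]

theorem mc_star_mul_self (z : BE) (p : Pt) : mc (star z * z) p p = ((‖z (dl p)‖ ^ 2 : ℝ) : ℂ) := by
  have h : mc (star z * z) p p = ⟪dl p, star z (z (dl p))⟫_ℂ := (inner_dl _ _).symm
  rw [h, ContinuousLinearMap.star_eq_adjoint, ContinuousLinearMap.adjoint_inner_right,
    inner_self_eq_norm_sq_to_K]
  norm_cast

/-- the algebra is simple -/
theorem simple_AT : IsSimple AT := by
  refine ⟨⟨gn (en 0 0) (good_en 0 0), ?_⟩, ?_⟩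
  · intro h
    have h1 : T (en 0 0) = 0 := congrArg Subtype.val h
    have h2 := mc_T (en 0 0) (0 : Pt) 0
    have h3 : (0 : Pt) ∈ en 0 0 (0 : Pt) := mem_en.mpr ⟨rfl, rfl⟩
    rw [h1, mc_zero, if_pos h3] at h2
    exact zero_ne_one h2
  intro I hI hideal
  by_cases hbot : I = ⊥
  · exact Or.inl hbot
  right
  obtain ⟨z, hz, hz0⟩ := Submodule.exists_mem_ne_zero_of_ne_bot hbot
  have hy : star z * z ∈ I := (hideal (star z) z hz).1
  obtain ⟨p, hp⟩ : ∃ p, z.1 (dl p) ≠ 0 := by
    by_contra hcon
    push Not at hcon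
    apply hz0
    apply Subtype.ext
    exact ext_dl fun x => by rw [hcon x]; rfl
  set y : AT := star z * z with hyd
  set l : ℝ := ‖z.1 (dl p)‖ ^ 2 with hl
  have hl0 : 0 < l := by
    have := norm_pos_iff.mpr hp
    positivity
  have hmc : mc y.1 p p = (l : ℂ) := mc_star_mul_self z.1 p
  have key : ∀ (f g : Pt ≃. Pt) (hf : Good f) (hg : Good g),
      gn f hf * gn g hg ∈ I := by
    intro f g hf hg
    have h1 : (l : ℂ) • (gn f hf * gn g hg) ∈ closure (I : Set AT) := by
      rw [Metric.mem_closure_iff]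
      intro ε hε
      obtain ⟨x0, hx0, hx0'⟩ := exists_approx y (half_pos hε)
      obtain ⟨N, hN⟩ := compress_span p hx0
      have hc := hN N le_rfl
      refine ⟨gn ((rh p N).symm.trans f) (good_rh_left hf p N) * y *
        gn (g.trans (rh p N)) (good_rh_right hg p N),
        (hideal _ _ (hideal _ _ hy).1).2, ?_⟩
      rw [dist_eq_norm]
      have e1 : ((l : ℂ) • (gn f hf * gn g hg) -
          gn ((rh p N).symm.trans f) (good_rh_left hf p N) * y *
          gn (g.trans (rh p N)) (good_rh_right hg p N)).1 =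
          T f * ((l : ℂ) • (1 : BE) - T (rh p N).symm * y.1 * T (rh p N)) * T g := by
        show (l : ℂ) • (T f * T g) - T ((rh p N).symm.trans f) * y.1 * T (g.trans (rh p N)) = _
        rw [T_trans, T_trans, mul_sub, sub_mul, mul_smul_comm, smul_mul_assoc, mul_one]
        simp only [mul_assoc]
      have e2 : (l : ℂ) • (1 : BE) - T (rh p N).symm * y.1 * T (rh p N) =
          (mc (y.1 - x0) p p) • (1 : BE) - T (rh p N).symm * (y.1 - x0) * T (rh p N) := by
        rw [mul_sub, sub_mul, hc, mc_sub, sub_smul, hmc]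
        abel
      show ‖((l : ℂ) • (gn f hf * gn g hg) -
          gn ((rh p N).symm.trans f) (good_rh_left hf p N) * y *
          gn (g.trans (rh p N)) (good_rh_right hg p N)).1‖ < ε
      rw [e1, e2]
      refine (norm_mul_T_le _ _ _).trans_lt ?_
      refine (norm_sub_le _ _).trans_lt ?_
      have h3 : ‖mc (y.1 - x0) p p • (1 : BE)‖ ≤ ‖y.1 - x0‖ := by
        rw [norm_smul]
        have h4 : ‖(1 : BE)‖ ≤ 1 := by
          rw [← T_refl]; exact norm_T _
        calc ‖mc (y.1 - x0) p p‖ * ‖(1 : BE)‖ ≤ ‖mc (y.1 - x0) p p‖ * 1 :=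
              mul_le_mul_of_nonneg_left h4 (norm_nonneg _)
          _ ≤ ‖y.1 - x0‖ := by rw [mul_one]; exact mc_le _ _ _
      have h5 := norm_mul_T_le (y.1 - x0) (rh p N).symm (rh p N)
      linarith
    rw [hI.closure_eq] at h1
    have h2 := I.smul_mem ((l : ℂ)⁻¹) h1
    have hlc : (l : ℂ) ≠ 0 := by exact_mod_cast hl0.ne'
    rwa [smul_smul, inv_mul_cancel₀ hlc, one_smul] at h2
  refine eq_top_of_gen hI fun f hf => ?_
  obtain ⟨n, a, h2⟩ := hf.2.1
  have h4 := key f (en n a) hf (good_en n a)
  have e : gn f hf = gn f hf * gn (en n a) (good_en n a) := by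
    rw [gn_mul (good_en n a) hf]
    exact Subtype.ext (by rw [gn_val, gn_val, en_trans h2])
  rw [e]
  exact h4

/-! ### an element which is not a zero divisor -/

/-- matrix coefficients of finite sums vanish off the eventual translations -/
theorem mc_far_zero {x : BE} (hx : x ∈ Submodule.span ℂ Gen) :
    ∃ N0 : ℕ, ∀ N, N0 ≤ N → ∀ (p q : Pt) (n : ℕ), N ≤ n → p n - q n ≠ p N - q N →
      mc x p q = 0 := by
  classical
  induction hx using Submodule.span_induction with
  | mem x hx =>
    obtain ⟨f, hf, rfl⟩ := hx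
    obtain ⟨N0, g, hN0⟩ := hf.1
    refine ⟨N0, fun N hN p q n hn hne => ?_⟩
    rw [mc_T, if_neg]
    intro h
    apply hne
    rw [hN0.tail h n (hN.trans hn), hN0.tail h N hN]
    ring
  | zero => exact ⟨0, fun N _ p q n _ _ => mc_zero _ _⟩
  | add x y hx hy ihx ihy =>
    obtain ⟨N1, h1⟩ := ihx
    obtain ⟨N2, h2⟩ := ihy
    refine ⟨max N1 N2, fun N hN p q n hn hne => ?_⟩
    rw [mc_add, h1 N ((le_max_left _ _).trans hN) p q n hn hne,
      h2 N ((le_max_right _ _).trans hN) p q n hn hne, add_zero]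
  | smul c x hx ih =>
    obtain ⟨N1, h1⟩ := ih
    refine ⟨N1, fun N hN p q n hn hne => ?_⟩
    rw [mc_smul, h1 N hN p q n hn hne, mul_zero]

/-- far changes do not affect the matrix coefficients of finite sums -/
theorem mc_far {x : BE} (hx : x ∈ Submodule.span ℂ Gen) :
    ∃ N0 : ℕ, ∀ N, N0 ≤ N → ∀ (p q : Pt) (n : ℕ) (a : ℝ), N < n → p n - q n = p N - q N →
      mc x (Function.update p n a) (Function.update q n (a - (p N - q N))) = mc x p q := by
  classical
  induction hx using Submodule.span_induction with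
  | mem x hx =>
    obtain ⟨f, hf, rfl⟩ := hx
    obtain ⟨N0, g, hN0⟩ := hf.1
    refine ⟨N0, fun N hN p q n a hn heq => ?_⟩
    rw [mc_T, mc_T]
    congr 1
    apply propext
    set p' := Function.update p n a with hp'
    set q' := Function.update q n (a - (p N - q N)) with hq'
    have hpk : ∀ k, k ≠ n → p' k = p k := fun k hk => Function.update_of_ne hk _ _
    have hqk : ∀ k, k ≠ n → q' k = q k := fun k hk => Function.update_of_ne hk _ _
    have hpn : p' n = a := Function.update_self _ _ _
    have hqn : q' n = a - (p N - q N) := Function.update_self _ _ _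
    constructor
    · intro h
      have hg : p N = q N + g := by
        have := hN0.tail h N hN
        rwa [hpk N (by omega), hqk N (by omega)] at this
      refine hN0.cyl h (fun k hk => (hqk k (by omega)).symm) (fun k hk => (hpk k (by omega)).symm)
        fun k hk => ?_
      by_cases hkn : k = n
      · subst hkn
        linarith
      · have := hN0.tail h k hk
        rwa [hpk k hkn, hqk k hkn] at this
    · intro h
      have hg : p N = q N + g := hN0.tail h N hN
      refine hN0.cyl h (fun k hk => hqk k (by omega)) (fun k hk => hpk k (by omega))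
        fun k hk => ?_
      by_cases hkn : k = n
      · subst hkn
        rw [hpn, hqn, hg]; ring
      · rw [hpk k hkn, hqk k hkn]
        exact hN0.tail h k hk
  | zero => exact ⟨0, fun N _ p q n a _ _ => by rw [mc_zero, mc_zero]⟩
  | add x y hx hy ihx ihy =>
    obtain ⟨N1, h1⟩ := ihx
    obtain ⟨N2, h2⟩ := ihy
    refine ⟨max N1 N2, fun N hN p q n a hn heq => ?_⟩
    rw [mc_add, mc_add, h1 N ((le_max_left _ _).trans hN) p q n a hn heq,
      h2 N ((le_max_right _ _).trans hN) p q n a hn heq]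
  | smul c x hx ih =>
    obtain ⟨N1, h1⟩ := ih
    refine ⟨N1, fun N hN p q n a hn heq => ?_⟩
    rw [mc_smul, mc_smul, h1 N hN p q n a hn heq]

/-- an element of the algebra all of whose rows through `{x | x n = 0}` vanish is zero -/
theorem eq_zero_of_rows (y : AT) (h : ∀ (n : ℕ) (p q : Pt), p n = 0 → mc y.1 p q = 0) : y = 0 := by
  apply Subtype.ext
  refine ext_mc fun p q => ?_
  show mc y.1 p q = mc 0 p q
  rw [mc_zero]
  by_contra hne
  have hpos : 0 < ‖mc y.1 p q‖ := norm_pos_iff.mpr hne
  obtain ⟨x, hx, hx'⟩ := exists_approx y (half_pos hpos)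
  obtain ⟨N1, h1⟩ := mc_far_zero hx
  obtain ⟨N2, h2⟩ := mc_far hx
  set N := max N1 N2 with hN
  have hclose : ∀ p q, ‖mc y.1 p q - mc x p q‖ ≤ ‖y.1 - x‖ := fun p q => by
    rw [← mc_sub]; exact mc_le _ _ _
  have h3 : ‖mc x p q‖ > ‖mc y.1 p q‖ / 2 := by
    have h4 := hclose p q
    have h5 := norm_sub_norm_le (mc y.1 p q) (mc x p q)
    linarith
  have h4 : p (N + 1) - q (N + 1) = p N - q N := by
    by_contra hcon
    have := h1 N (le_max_left _ _) p q (N + 1) (Nat.le_succ N) hcon
    rw [this, norm_zero] at h3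
    linarith
  have h5 := h2 N (le_max_right _ _) p q (N + 1) 0 (Nat.lt_succ_self N) h4
  have h6 := h (N + 1) (Function.update p (N + 1) 0)
    (Function.update q (N + 1) (0 - (p N - q N))) (Function.update_self _ _ _)
  have h7 := hclose (Function.update p (N + 1) 0) (Function.update q (N + 1) (0 - (p N - q N)))
  rw [h6, h5, zero_sub, norm_neg] at h7
  linarith

/-- the weights -/
def wt (n : ℕ) : ℝ := (1 / 2) ^ n

theorem summable_wt : Summable wt := summable_geometric_two

/-- the terms of the series -/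
def tm (n : ℕ) : AT := (wt n : ℂ) • gn (en n 0) (good_en n 0)

theorem norm_tm (n : ℕ) : ‖tm n‖ ≤ wt n := by
  show ‖(tm n).1‖ ≤ wt n
  have e : (tm n).1 = (wt n : ℂ) • T (en n 0) := rfl
  rw [e, norm_smul, Complex.norm_real, Real.norm_eq_abs, abs_of_pos (by unfold wt; positivity)]
  calc wt n * ‖T (en n 0)‖ ≤ wt n * 1 :=
        mul_le_mul_of_nonneg_left (norm_T _) (by unfold wt; positivity)
    _ = wt n := mul_one _

theorem summable_tm : Summable tm := Summable.of_norm_bounded summable_wt norm_tm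

/-- the element which is not a zero divisor -/
def cc : AT := ∑' n, tm n

/-- the element acts diagonally -/
theorem cc_apply (ξ : E Pt) (p : Pt) : ∃ d : ℝ, (∀ n, p n = 0 → 0 < d) ∧
    ((cc.1 ξ : E Pt) : Pt → ℂ) p = (d : ℂ) * (ξ : Pt → ℂ) p := by
  classical
  have h1 : HasSum tm cc := summable_tm.hasSum
  let L : AT →+ ℂ :=
    { toFun := fun x => (x.1 ξ : Pt → ℂ) p
      map_zero' := rfl
      map_add' := fun x y => rfl }
  have hL : Continuous L := by
    have h2 : Continuous fun x : AT => x.1 ξ :=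
      (ContinuousLinearMap.apply ℂ (E Pt) ξ).continuous.comp continuous_subtype_val
    refine AddMonoidHomClass.continuous_of_bound L ‖ξ‖ fun x => ?_
    refine (lp.norm_apply_le_norm (by norm_num) _ p).trans ?_
    rw [mul_comm]
    exact x.1.le_opNorm ξ
  have h3 := h1.map L hL
  have h4 : ∀ n, (L ∘ tm) n = (((if p n = 0 then wt n else 0 : ℝ)) : ℂ) * (ξ : Pt → ℂ) p := by
    intro n
    show (wt n : ℂ) • (pf (en n 0) ξ p) = _
    split_ifs with h
    · rw [pf_some (show p ∈ en n 0 p from mem_en.mpr ⟨rfl, h⟩)]; rfl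
    · rw [pf_none, smul_zero, Complex.ofReal_zero, zero_mul]
      intro x hx
      obtain ⟨rfl, hx'⟩ := mem_en.mp hx
      exact h hx'
  have hs : Summable (fun n => (if p n = 0 then wt n else 0 : ℝ)) := by
    refine Summable.of_nonneg_of_le (fun n => ?_) (fun n => ?_) summable_wt
    · split_ifs
      · unfold wt; positivity
      · exact le_rfl
    · split_ifs
      · exact le_rfl
      · unfold wt; positivity
  refine ⟨∑' n, (if p n = 0 then wt n else 0 : ℝ), fun n hn => ?_, ?_⟩
  · refine hs.tsum_pos (fun k => ?_) n ?_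
    · split_ifs
      · unfold wt; positivity
      · exact le_rfl
    · rw [if_pos hn]; unfold wt; positivity
  · have h5 : HasSum (L ∘ tm)
        (((∑' n, (if p n = 0 then wt n else 0 : ℝ)) : ℝ) * (ξ : Pt → ℂ) p : ℂ) := by
      have h6 := (Complex.hasSum_ofReal.mpr hs.hasSum).mul_right ((ξ : Pt → ℂ) p)
      exact h6.congr_fun h4
    exact h3.unique h5

theorem eq_zero_of_cc_mul {y : AT} (h : cc * y = 0) : y = 0 := by
  refine eq_zero_of_rows y fun n p q hp => ?_
  obtain ⟨d, hd, he⟩ := cc_apply (y.1 (dl q)) p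
  have h1 : cc.1 (y.1 (dl q)) = 0 := by
    have h2 : cc.1 * y.1 = 0 := congrArg Subtype.val h
    have := congrArg (fun T : BE => T (dl q)) h2
    exact this
  rw [h1] at he
  have h3 : (d : ℂ) * mc y.1 p q = 0 := he.symm
  rcases mul_eq_zero.mp h3 with h4 | h4
  · exfalso
    have : d = 0 := by exact_mod_cast h4
    have := hd n hp
    linarith
  · exact h4

theorem not_zstar : ¬ IsZStarAlgebra AT := by
  intro h
  obtain ⟨y, hy0, hy⟩ := h cc
  have key : ∀ y : AT, star cc * cc * y = 0 → y = 0 := by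
    intro y hy
    apply eq_zero_of_cc_mul
    have h1 : star (cc * y) * (cc * y) = 0 := by
      rw [star_mul, mul_assoc, ← mul_assoc (star cc), hy, mul_zero]
    exact CStarRing.star_mul_self_eq_zero_iff _ |>.mp h1
  rcases hy with hy | hy
  · exact hy0 (key y hy)
  · apply hy0
    have h1 : star cc * cc * star y = 0 := by
      have := congrArg star hy
      rw [star_mul, star_mul, star_star, star_zero] at this
      exact this
    have h2 := key (star y) h1
    rw [← star_star y, h2, star_zero]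

end Q90.ZS
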